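import Mathlib
import Pool.Agent.TH888.W2.Weak2
import Pool.Agent.TH888.B1.Bak
import Pool.Agent.Y913.Nb.WBdep

/-!
# Products of powers of few integers: `p`-adic and archimedean comparison
-/

set_option autoImplicit false

namespace Pool.Agent.X95T.TB

open Finset

/-- `P` is a product of powers of `n` positive integers which are at most `W` -/
def Gen (n W P : ℕ) : Prop :=
  ∃ α e : Fin n → ℕ, (∀ i, 1 ≤ α i ∧ α i ≤ W) ∧ P = ∏ i, α i ^ e i

lemma Gen.pos {n W P : ℕ} (h : Gen n W P) : 0 < P := by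
  obtain ⟨α, e, h1, rfl⟩ := h
  exact Finset.prod_pos fun i _ => Nat.pow_pos (h1 i).1

lemma Gen.norm {n W P : ℕ} (hW : 1 ≤ W) (h : Gen n W P) : ∃ α e : Fin n → ℕ,
    (∀ i, 1 ≤ α i ∧ α i ≤ W) ∧ (∀ i, α i ∣ P) ∧ (∀ i, 2 ^ e i ≤ P) ∧ P = ∏ i, α i ^ e i := by
  classical
  have hP := h.pos
  obtain ⟨α, e, h1, h2⟩ := h
  have hprod : P = ∏ i, (if e i = 0 then 1 else α i) ^ (if α i = 1 then 0 else e i) := by
    rw [h2]
    apply Finset.prod_congr rfl
    intro i _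
    by_cases h3 : e i = 0
    · simp [h3]
    · by_cases h4 : α i = 1
      · simp [h4]
      · simp [h3, h4]
  have hdvd : ∀ i, (if e i = 0 then 1 else α i) ^ (if α i = 1 then 0 else e i) ∣ P := by
    intro i
    rw [hprod]
    exact Finset.dvd_prod_of_mem
      (fun i => (if e i = 0 then 1 else α i) ^ (if α i = 1 then 0 else e i)) (Finset.mem_univ i)
  refine ⟨fun i => if e i = 0 then 1 else α i, fun i => if α i = 1 then 0 else e i, ?_, ?_, ?_,
    hprod⟩
  · intro i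
    dsimp only
    split_ifs
    · exact ⟨le_rfl, hW⟩
    · exact h1 i
  · intro i
    dsimp only
    by_cases h3 : e i = 0
    · rw [if_pos h3]; exact one_dvd _
    · rw [if_neg h3]
      by_cases h4 : α i = 1
      · rw [h4]; exact one_dvd _
      · have := hdvd i
        rw [if_neg h3, if_neg h4] at this
        exact (dvd_pow_self _ h3).trans this
  · intro i
    dsimp only
    by_cases h4 : α i = 1
    · rw [if_pos h4, pow_zero]; exact hP
    · rw [if_neg h4]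
      by_cases h3 : e i = 0
      · rw [h3, pow_zero]; exact hP
      · have h5 := Nat.le_of_dvd hP (hdvd i)
        rw [if_neg h3, if_neg h4] at h5
        refine le_trans (Nat.pow_le_pow_left ?_ _) h5
        have := (h1 i).1
        omega

lemma Gen.mono {n m W P : ℕ} (hnm : n ≤ m) (hW : 1 ≤ W) (h : Gen n W P) : Gen m W P := by
  obtain ⟨α, e, h1, h2⟩ := h
  obtain ⟨d, rfl⟩ := Nat.exists_eq_add_of_le hnm
  refine ⟨Fin.append α (fun _ => 1), Fin.append e (fun _ => 0), ?_, ?_⟩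
  · intro i
    refine Fin.addCases (fun j => ?_) (fun j => ?_) i
    · rw [Fin.append_left]; exact h1 j
    · rw [Fin.append_right]; exact ⟨le_rfl, hW⟩
  · rw [Fin.prod_univ_add]
    simp only [Fin.append_left, Fin.append_right, pow_zero, Finset.prod_const_one, mul_one]
    exact h2

lemma Gen.monoW {n W W' P : ℕ} (hW : W ≤ W') (h : Gen n W P) : Gen n W' P := by
  obtain ⟨α, e, h1, h2⟩ := h
  exact ⟨α, e, fun i => ⟨(h1 i).1, (h1 i).2.trans hW⟩, h2⟩

lemma Gen.mul {n m W P Q : ℕ} (h : Gen n W P) (h' : Gen m W Q) : Gen (n + m) W (P * Q) := by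
  obtain ⟨α, e, h1, h2⟩ := h
  obtain ⟨β, f, h3, h4⟩ := h'
  refine ⟨Fin.append α β, Fin.append e f, ?_, ?_⟩
  · intro i
    refine Fin.addCases (fun j => ?_) (fun j => ?_) i
    · rw [Fin.append_left]; exact h1 j
    · rw [Fin.append_right]; exact h3 j
  · rw [Fin.prod_univ_add]
    simp only [Fin.append_left, Fin.append_right]
    rw [h2, h4]

lemma Gen.one_pow {W x : ℕ} (hx : 1 ≤ x) (hW : x ≤ W) (p : ℕ) : Gen 1 W (x ^ p) :=
  ⟨fun _ => x, fun _ => p, fun _ => ⟨hx, hW⟩, by simp⟩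

lemma Gen.prod {W : ℕ} (T : Finset ℕ) (hT : ∀ t ∈ T, 1 ≤ t ∧ t ≤ W) (v : ℕ → ℕ) :
    Gen T.card W (∏ t ∈ T, t ^ v t) := by
  classical
  induction T using Finset.induction_on with
  | empty => exact ⟨fun _ => 1, fun _ => 0, fun i => i.elim0, by simp⟩
  | insert a T ha ih =>
    rw [Finset.prod_insert ha, Finset.card_insert_of_notMem ha, mul_comm]
    have h1 := hT a (Finset.mem_insert_self _ _)
    exact (ih fun t ht => hT t (Finset.mem_insert_of_mem ht)).mul (Gen.one_pow h1.1 h1.2 _)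

/-- **the `ℓ`-adic comparison** -/
theorem padic (n : ℕ) : ∃ C κ : ℕ, ∀ ℓ : ℕ, ℓ.Prime → ∀ S : ℕ, ℓ ≤ S →
    ∀ (α β e f : Fin n → ℕ) (P Q M : ℕ),
    (∀ i, 1 ≤ α i ∧ α i ≤ 2 ^ S) → (∀ i, 1 ≤ β i ∧ β i ≤ 2 ^ S) → (∀ i, α i ∣ P) →
    (∀ i, β i ∣ Q) → (∀ i, 2 * e i ≤ 2 ^ S) → (∀ i, 2 * f i ≤ 2 ^ S) →
    P = ∏ i, α i ^ e i → Q = ∏ i, β i ^ f i → ¬ ℓ ∣ P → ¬ ℓ ∣ Q → P ≠ Q →
    ((ℓ : ℤ) ^ M ∣ (P : ℤ) ^ 2 - (Q : ℤ) ^ 2) → M ≤ C * S ^ κ := by
  obtain ⟨C, κ, hC⟩ := Pool.Agent.TH888.W2.weakBaker_all (n + n)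
  refine ⟨C, κ, ?_⟩
  intro ℓ hℓ S hℓS α β e f P Q M hα hβ hαP hβQ he hf hP hQ hℓP hℓQ hne hdvd
  have hF : Fact ℓ.Prime := ⟨hℓ⟩
  have hco : ∀ m : ℕ, ¬ ℓ ∣ m → Nat.Coprime m (ℓ ^ M) := fun m hm =>
    (((Nat.Prime.coprime_iff_not_dvd hℓ).mpr hm).symm).pow_right M
  have hα' : ∀ i, Nat.Coprime (α i) (ℓ ^ M) := fun i => hco _ fun h => hℓP (h.trans (hαP i))
  have hβ' : ∀ i, Nat.Coprime (β i) (ℓ ^ M) := fun i => hco _ fun h => hℓQ (h.trans (hβQ i))
  have hP0 : 0 < P := by rw [hP]; exact Finset.prod_pos fun i _ => Nat.pow_pos (hα i).1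
  have hQ0 : 0 < Q := by rw [hQ]; exact Finset.prod_pos fun i _ => Nat.pow_pos (hβ i).1
  let uα : Fin n → (ZMod (ℓ ^ M))ˣ := fun i => ZMod.unitOfCoprime (α i) (hα' i)
  let uβ : Fin n → (ZMod (ℓ ^ M))ˣ := fun i => ZMod.unitOfCoprime (β i) (hβ' i)
  refine hC ℓ S hℓS (Fin.append α β)
    (Fin.append (fun i => ((2 * e i : ℕ) : ℤ)) (fun i => -((2 * f i : ℕ) : ℤ))) M
    (Fin.append uα uβ) ?_ ?_ ?_ ?_ ?_ ?_
  · intro i
    refine Fin.addCases (fun j => ?_) (fun j => ?_) i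
    · rw [Fin.append_left, Fin.append_left]; exact ZMod.coe_unitOfCoprime _ _
    · rw [Fin.append_right, Fin.append_right]; exact ZMod.coe_unitOfCoprime _ _
  · intro i
    refine Fin.addCases (fun j => ?_) (fun j => ?_) i
    · rw [Fin.append_left]; exact (hα j).1
    · rw [Fin.append_right]; exact (hβ j).1
  · intro i
    refine Fin.addCases (fun j => ?_) (fun j => ?_) i
    · rw [Fin.append_left]; exact (hα j).2
    · rw [Fin.append_right]; exact (hβ j).2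
  · intro i
    refine Fin.addCases (fun j => ?_) (fun j => ?_) i
    · rw [Fin.append_left, Nat.abs_cast]; exact_mod_cast he j
    · rw [Fin.append_right, abs_neg, Nat.abs_cast]; exact_mod_cast hf j
  · rw [Fin.prod_univ_add]
    simp only [Fin.append_left, Fin.append_right, zpow_neg, zpow_natCast]
    rw [Finset.prod_inv_distrib]
    have h1 : ∏ i, (α i : ℚ) ^ (2 * e i) = (P : ℚ) ^ 2 := by
      rw [hP]
      push_cast
      rw [← Finset.prod_pow]
      exact Finset.prod_congr rfl fun i _ => by rw [mul_comm, pow_mul]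
    have h2 : ∏ i, (β i : ℚ) ^ (2 * f i) = (Q : ℚ) ^ 2 := by
      rw [hQ]
      push_cast
      rw [← Finset.prod_pow]
      exact Finset.prod_congr rfl fun i _ => by rw [mul_comm, pow_mul]
    rw [h1, h2]
    intro h
    have hQ' : (Q : ℚ) ^ 2 ≠ 0 := by positivity
    rw [mul_inv_eq_one₀ hQ'] at h
    apply hne
    have h3 : P ^ 2 = Q ^ 2 := by exact_mod_cast h
    exact Nat.pow_left_injective (n := 2) (by norm_num) h3
  · rw [Fin.prod_univ_add]
    simp only [Fin.append_left, Fin.append_right, zpow_neg, zpow_natCast]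
    rw [Finset.prod_inv_distrib, mul_inv_eq_one]
    apply Units.ext
    have h1 : ((∏ i, uα i ^ (2 * e i) : (ZMod (ℓ ^ M))ˣ) : ZMod (ℓ ^ M)) = (P : ZMod (ℓ ^ M)) ^ 2 := by
      rw [Units.coe_prod, hP]
      push_cast
      rw [← Finset.prod_pow]
      refine Finset.prod_congr rfl fun i _ => ?_
      rw [mul_comm, pow_mul]
      congr 2
    have h2 : ((∏ i, uβ i ^ (2 * f i) : (ZMod (ℓ ^ M))ˣ) : ZMod (ℓ ^ M)) = (Q : ZMod (ℓ ^ M)) ^ 2 := by
      rw [Units.coe_prod, hQ]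
      push_cast
      rw [← Finset.prod_pow]
      refine Finset.prod_congr rfl fun i _ => ?_
      rw [mul_comm, pow_mul]
      congr 2
    rw [h1, h2]
    have h3 : (((ℓ ^ M : ℕ) : ℤ)) ∣ (P : ℤ) ^ 2 - (Q : ℤ) ^ 2 := by exact_mod_cast hdvd
    rw [← ZMod.intCast_zmod_eq_zero_iff_dvd] at h3
    push_cast at h3
    exact sub_eq_zero.mp h3

lemma log_prod {n : ℕ} (α e : Fin n → ℕ) (hα : ∀ i, 1 ≤ α i) :
    Real.log ((∏ i, α i ^ e i : ℕ) : ℝ) = ∑ i, (e i : ℝ) * Real.log (α i) := by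
  push_cast
  rw [Real.log_prod]
  · exact Finset.sum_congr rfl fun i _ => Real.log_pow _ _
  · intro i _
    have : (0 : ℝ) < α i := by exact_mod_cast hα i
    positivity

/-- **the archimedean comparison** -/
theorem arch (n : ℕ) : ∃ κ g0 : ℕ, ∀ g : ℕ, g0 ≤ g → ∀ (α β e f : Fin n → ℕ) (P Q N : ℕ),
    (∀ i, 1 ≤ α i ∧ α i ≤ 2 ^ g) → (∀ i, 1 ≤ β i ∧ β i ≤ 2 ^ g) →
    (∀ i, e i ≤ 2 ^ g) → (∀ i, f i ≤ 2 ^ g) →
    P = ∏ i, α i ^ e i → Q = ∏ i, β i ^ f i → 0 < N → N + P = Q → P ≤ N * 2 ^ (g ^ κ) := by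
  obtain ⟨κ, g0, h⟩ := Pool.Agent.Y913.Nb.WB_dep (n + n)
  refine ⟨κ, g0, ?_⟩
  intro g hg α β e f P Q N hα hβ he hf hP hQ hN hPQ
  have hP0 : 0 < P := by rw [hP]; exact Finset.prod_pos fun i _ => Nat.pow_pos (hα i).1
  have hPR : (0 : ℝ) < P := by exact_mod_cast hP0
  have hNR : (0 : ℝ) < N := by exact_mod_cast hN
  have hlogP : Real.log (P : ℝ) = ∑ i, (e i : ℝ) * Real.log (α i) := by
    rw [hP]; exact log_prod α e fun i => (hα i).1
  have hlogQ : Real.log (Q : ℝ) = ∑ i, (f i : ℝ) * Real.log (β i) := by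
    rw [hQ]; exact log_prod β f fun i => (hβ i).1
  have hQR : (Q : ℝ) = N + P := by rw [← hPQ]; push_cast; ring
  have hsum : ∑ j, (((Fin.append (fun i => ((e i : ℕ) : ℤ)) (fun i => -((f i : ℕ) : ℤ)) j : ℤ)) : ℝ) *
      Real.log ((Fin.append α β j : ℕ) : ℝ) = Real.log P - Real.log Q := by
    rw [Fin.sum_univ_add]
    simp only [Fin.append_left, Fin.append_right]
    push_cast
    rw [hlogP, hlogQ]
    simp only [neg_mul, Finset.sum_neg_distrib]
    ring
  have hlt : Real.log P < Real.log Q := Real.log_lt_log hPR (by rw [hQR]; linarith)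
  have key := h g hg (Fin.append α β)
    (Fin.append (fun i => ((e i : ℕ) : ℤ)) (fun i => -((f i : ℕ) : ℤ))) ?_ ?_ ?_
  · rw [hsum] at key
    have h1 : |Real.log P - Real.log Q| = Real.log Q - Real.log P := by
      rw [abs_sub_comm]; exact abs_of_pos (by linarith)
    rw [h1] at key
    have h2 : Real.log Q - Real.log P ≤ N / P := by
      rw [← Real.log_div (by rw [hQR]; positivity) hPR.ne', hQR, add_div, div_self hPR.ne']
      have := Real.log_le_sub_one_of_pos (show (0 : ℝ) < N / P + 1 by positivity)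
      linarith
    have h3 : (1 / 2 : ℝ) ^ (g ^ κ) ≤ N / P := key.trans h2
    rw [le_div_iff₀ hPR, one_div, inv_pow, inv_mul_le_iff₀ (by positivity)] at h3
    have h4 : (P : ℝ) ≤ ((N * 2 ^ (g ^ κ) : ℕ) : ℝ) := by push_cast; linarith
    exact_mod_cast h4
  · intro i
    refine Fin.addCases (fun j => ?_) (fun j => ?_) i
    · rw [Fin.append_left]; exact hα j
    · rw [Fin.append_right]; exact hβ j
  · intro i
    refine Fin.addCases (fun j => ?_) (fun j => ?_) i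
    · rw [Fin.append_left, Nat.abs_cast]; exact_mod_cast he j
    · rw [Fin.append_right, abs_neg, Nat.abs_cast]; exact_mod_cast hf j
  · rw [hsum]
    exact (sub_neg.mpr hlt).ne

end Pool.Agent.X95T.TB
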