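import Mathlib
import Pool.Agent.X95T.IA1

/-!
# Three terms, one of which is controlled by small primes
-/

set_option autoImplicit false

namespace Pool.Agent.X95T.TB

open Finset

/-- one of the three numbers is the sum of the two others -/
def Tri (N P Q : ℕ) : Prop := N + P = Q ∨ N + Q = P ∨ P + Q = N

lemma Tri.dvd {N P Q : ℕ} (h : Tri N P Q) : (N : ℤ) ∣ (P : ℤ) ^ 2 - (Q : ℤ) ^ 2 := by
  rcases h with h | h | h
  · rw [← h]
    exact ⟨-(N + 2 * P), by push_cast; ring⟩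
  · rw [← h]
    exact ⟨N + 2 * Q, by push_cast; ring⟩
  · rw [← h]
    exact ⟨(P : ℤ) - Q, by push_cast; ring⟩

lemma Tri.not_dvd {N P Q ℓ : ℕ} (hℓ : ℓ.Prime) (h : Tri N P Q) (hPQ : Nat.Coprime P Q)
    (hN : ℓ ∣ N) : ¬ ℓ ∣ P ∧ ¬ ℓ ∣ Q := by
  have key : ∀ {A B : ℕ}, ℓ ∣ A → ℓ ∣ B → Nat.Coprime A B → False := by
    intro A B h1 h2 h3
    have := Nat.dvd_gcd h1 h2
    rw [h3] at this
    exact hℓ.one_lt.ne' (Nat.dvd_one.1 this)
  have h1 : ℓ ∣ P → ℓ ∣ Q := by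
    intro hP
    rcases h with h | h | h
    · rw [← h]; exact dvd_add hN hP
    · rw [← h] at hP; exact (Nat.dvd_add_right hN).1 hP
    · rw [← h] at hN; exact (Nat.dvd_add_right hP).1 hN
  have h2 : ℓ ∣ Q → ℓ ∣ P := by
    intro hQ
    rcases h with h | h | h
    · rw [← h] at hQ; exact (Nat.dvd_add_right hN).1 hQ
    · rw [← h]; exact dvd_add hN hQ
    · rw [← h] at hN; exact (Nat.dvd_add_left hQ).1 hN
  exact ⟨fun h3 => key h3 (h1 h3) hPQ, fun h3 => key (h2 h3) h3 hPQ⟩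

/-- the size of a number with bounded valuations at its primes -/
lemma smooth_le {a S M : ℕ} (ha : a ≠ 0) (h1 : ∀ ℓ : ℕ, ℓ.Prime → ℓ ∣ a → ℓ ≤ S)
    (h2 : ∀ ℓ m : ℕ, ℓ.Prime → ℓ ^ m ∣ a → m ≤ M) : a ≤ 2 ^ (S * M * S) := by
  classical
  have h3 : a = ∏ ℓ ∈ a.primeFactors, ℓ ^ a.factorization ℓ := by
    conv_lhs => rw [← Nat.factorization_prod_pow_eq_self ha]
    rfl
  have h4 : ∀ ℓ ∈ a.primeFactors, ℓ ^ a.factorization ℓ ≤ 2 ^ (S * M) := by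
    intro ℓ hℓ
    have hp := Nat.prime_of_mem_primeFactors hℓ
    have hd := Nat.dvd_of_mem_primeFactors hℓ
    have h5 : a.factorization ℓ ≤ M := h2 ℓ _ hp (Nat.ordProj_dvd a ℓ)
    have h6 : ℓ ≤ 2 ^ S := (h1 ℓ hp hd).trans Nat.lt_two_pow_self.le
    calc ℓ ^ a.factorization ℓ ≤ ℓ ^ M := Nat.pow_le_pow_right hp.pos h5
      _ ≤ (2 ^ S) ^ M := Nat.pow_le_pow_left h6 _
      _ = 2 ^ (S * M) := (pow_mul _ _ _).symm
  have h5 : a.primeFactors.card ≤ S := by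
    have : a.primeFactors ⊆ Finset.Icc 1 S := by
      intro ℓ hℓ
      have hp := Nat.prime_of_mem_primeFactors hℓ
      rw [Finset.mem_Icc]
      exact ⟨hp.pos, h1 ℓ hp (Nat.dvd_of_mem_primeFactors hℓ)⟩
    exact (Finset.card_le_card this).trans (by simp)
  rw [h3]
  calc ∏ ℓ ∈ a.primeFactors, ℓ ^ a.factorization ℓ ≤ ∏ _ℓ ∈ a.primeFactors, 2 ^ (S * M) :=
        Finset.prod_le_prod' h4
    _ = (2 ^ (S * M)) ^ a.primeFactors.card := by rw [Finset.prod_const]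
    _ ≤ (2 ^ (S * M)) ^ S := Nat.pow_le_pow_right (by positivity) h5
    _ = 2 ^ (S * M * S) := (pow_mul _ _ _).symm

/-- the hypothesis on the term `N`: it is `a x ^ p`, all the primes of `a` are at most `S`, and
`x ≤ 2 ^ S` is `1` or has a prime factor which is at most `S` -/
def Ctl (S N : ℕ) : Prop := ∃ a x p : ℕ, N = a * x ^ p ∧ x ≤ 2 ^ S ∧
  (∀ ℓ : ℕ, ℓ.Prime → ℓ ∣ a → ℓ ≤ S) ∧ (x = 1 ∨ ∃ ℓ : ℕ, ℓ.Prime ∧ ℓ ≤ S ∧ ℓ ∣ x)

lemma Ctl.mono {S S' N : ℕ} (hS : S ≤ S') (h : Ctl S N) : Ctl S' N := by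
  obtain ⟨a, x, p, h1, h2, h3, h4⟩ := h
  refine ⟨a, x, p, h1, h2.trans (Nat.pow_le_pow_right (by norm_num) hS),
    fun ℓ h5 h6 => (h3 ℓ h5 h6).trans hS, ?_⟩
  rcases h4 with h4 | ⟨ℓ, h5, h6, h7⟩
  · exact Or.inl h4
  · exact Or.inr ⟨ℓ, h5, h6.trans hS, h7⟩

lemma Ctl.le {S N M : ℕ} (h : Ctl S N) (hN : N ≠ 0)
    (hM : ∀ ℓ m : ℕ, ℓ.Prime → ℓ ≤ S → ℓ ^ m ∣ N → m ≤ M) : N ≤ 2 ^ (S * M * S + S * M) := by
  obtain ⟨a, x, p, h1, h2, h3, h4⟩ := h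
  have ha : a ≠ 0 := by rintro rfl; simp at h1; exact hN h1
  have h5 : a ≤ 2 ^ (S * M * S) := by
    refine smooth_le ha h3 fun ℓ m hℓ hd => ?_
    rcases Nat.eq_zero_or_pos m with rfl | hm
    · exact Nat.zero_le _
    · refine hM ℓ m hℓ (h3 ℓ hℓ ((dvd_pow_self ℓ hm.ne').trans hd)) ?_
      rw [h1]
      exact Dvd.dvd.mul_right hd _
  have h6 : x ^ p ≤ 2 ^ (S * M) := by
    rcases h4 with rfl | ⟨ℓ, h7, h8, h9⟩
    · rw [one_pow]; exact Nat.one_le_two_pow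
    · rcases Nat.eq_zero_or_pos x with h0 | hx
      · rcases Nat.eq_zero_or_pos p with hp | hp
        · rw [hp, pow_zero]; exact Nat.one_le_two_pow
        · exfalso; rw [h0, zero_pow hp.ne', mul_zero] at h1; exact hN h1
      · have h10 : p ≤ M := by
          refine hM ℓ p h7 h8 ?_
          rw [h1]
          exact Dvd.dvd.mul_left (pow_dvd_pow_of_dvd h9 p) _
        calc x ^ p ≤ x ^ M := Nat.pow_le_pow_right hx h10
          _ ≤ (2 ^ S) ^ M := Nat.pow_le_pow_left h2 _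
          _ = 2 ^ (S * M) := (pow_mul _ _ _).symm
  rw [h1, pow_add]
  exact Nat.mul_le_mul h5 h6


/-- one step of the argument -/
theorem step (n : ℕ) : ∃ C κ g0 : ℕ, ∀ S : ℕ, g0 ≤ S → 2 ≤ S → ∀ (α β e f : Fin n → ℕ) (N P Q : ℕ),
    (∀ i, 1 ≤ α i ∧ α i ≤ 2 ^ S) → (∀ i, 1 ≤ β i ∧ β i ≤ 2 ^ S) → (∀ i, α i ∣ P) →
    (∀ i, β i ∣ Q) → (∀ i, 2 * e i ≤ 2 ^ S) → (∀ i, 2 * f i ≤ 2 ^ S) →
    P = ∏ i, α i ^ e i → Q = ∏ i, β i ^ f i → Nat.Coprime P Q → Tri N P Q → N ≠ 0 →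
    Ctl S N → N ≤ 2 ^ (C * S ^ κ) ∧ P ≤ 2 ^ (C * S ^ κ) ∧ Q ≤ 2 ^ (C * S ^ κ) := by
  obtain ⟨C₁, κ₁, h₁⟩ := padic n
  obtain ⟨κ₂, g₂, h₂⟩ := arch n
  refine ⟨2 * C₁ + 4, κ₁ + κ₂ + 2, g₂, ?_⟩
  intro S hg hS α β e f N P Q hα hβ hαP hβQ he hf hP hQ hPQ hT hN hC
  have hS1 : 1 ≤ S := by omega
  have hP0 : 0 < P := by rw [hP]; exact Finset.prod_pos fun i _ => Nat.pow_pos (hα i).1
  have hQ0 : 0 < Q := by rw [hQ]; exact Finset.prod_pos fun i _ => Nat.pow_pos (hβ i).1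
  obtain ⟨B, hB⟩ : ∃ B, B = S ^ (κ₁ + κ₂ + 2) := ⟨_, rfl⟩
  have hB1 : 1 ≤ B := by rw [hB]; exact Nat.one_le_pow _ _ hS1
  have e1 : S * (C₁ * S ^ κ₁) * S + S * (C₁ * S ^ κ₁) ≤ 2 * C₁ * B := by
    have a1 : S * (C₁ * S ^ κ₁) * S = C₁ * S ^ (κ₁ + 2) := by rw [pow_add]; ring
    have a2 : S * (C₁ * S ^ κ₁) = C₁ * S ^ (κ₁ + 1) := by rw [pow_add]; ring
    have a3 : S ^ (κ₁ + 2) ≤ B := by rw [hB]; exact Nat.pow_le_pow_right hS1 (by omega)
    have a4 : S ^ (κ₁ + 1) ≤ B := by rw [hB]; exact Nat.pow_le_pow_right hS1 (by omega)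
    have a5 := Nat.mul_le_mul_left C₁ a3
    have a6 := Nat.mul_le_mul_left C₁ a4
    rw [a1, a2]
    have a7 : 2 * C₁ * B = C₁ * B + C₁ * B := by ring
    omega
  have e2 : S ^ κ₂ ≤ B := by rw [hB]; exact Nat.pow_le_pow_right hS1 (by omega)
  have e3 : (2 * C₁ + 4) * B = 2 * C₁ * B + 4 * B := by ring
  by_cases hPQ' : P = Q
  · subst hPQ'
    have h1 : P = 1 := (Nat.coprime_self _).mp hPQ
    subst h1
    have h2 : N = 2 := by rcases hT with h | h | h <;> omega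
    subst h2
    have h3 : (2 : ℕ) ≤ 2 ^ ((2 * C₁ + 4) * B) :=
      Nat.le_self_pow (by rw [e3]; omega) 2
    rw [← hB]
    exact ⟨h3, by omega, by omega⟩
  -- valuations of `N`
  have hval : ∀ ℓ m : ℕ, ℓ.Prime → ℓ ≤ S → ℓ ^ m ∣ N → m ≤ C₁ * S ^ κ₁ := by
    intro ℓ m hℓ hℓS hd
    rcases Nat.eq_zero_or_pos m with rfl | hm
    · exact Nat.zero_le _
    · have hℓN : ℓ ∣ N := (dvd_pow_self ℓ hm.ne').trans hd
      obtain ⟨h3, h4⟩ := hT.not_dvd hℓ hPQ hℓN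
      refine h₁ ℓ hℓ S hℓS α β e f P Q m hα hβ hαP hβQ he hf hP hQ h3 h4 hPQ' ?_
      have h5 : ((ℓ : ℤ) ^ m) ∣ (N : ℤ) := by exact_mod_cast hd
      exact h5.trans hT.dvd
  have hN1 : N ≤ 2 ^ (2 * C₁ * B) :=
    (hC.le hN hval).trans (Nat.pow_le_pow_right (by norm_num) e1)
  have he' : ∀ i, e i ≤ 2 ^ S := fun i => by have := he i; omega
  have hf' : ∀ i, f i ≤ 2 ^ S := fun i => by have := hf i; omega
  -- the two other terms
  have hmin : min P Q ≤ 2 ^ (2 * C₁ * B + B) := by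
    rcases hT with h | h | h
    · have := h₂ S hg α β e f P Q N hα hβ he' hf' hP hQ (Nat.pos_of_ne_zero hN) h
      refine (min_le_left _ _).trans (this.trans ?_)
      rw [pow_add]
      exact Nat.mul_le_mul hN1 (Nat.pow_le_pow_right (by norm_num) e2)
    · have := h₂ S hg β α f e Q P N hβ hα hf' he' hQ hP (Nat.pos_of_ne_zero hN) h
      refine (min_le_right _ _).trans (this.trans ?_)
      rw [pow_add]
      exact Nat.mul_le_mul hN1 (Nat.pow_le_pow_right (by norm_num) e2)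
    · have h1 : P ≤ N := by omega
      refine (min_le_left _ _).trans (h1.trans (hN1.trans ?_))
      exact Nat.pow_le_pow_right (by norm_num) (by omega)
  have hmax : max P Q ≤ 2 ^ ((2 * C₁ + 4) * B) := by
    have h1 : max P Q ≤ N + min P Q := by
      rcases hT with h | h | h
      · rw [max_eq_right (by omega), min_eq_left (by omega)]; omega
      · rw [max_eq_left (by omega), min_eq_right (by omega)]; omega
      · exact (max_le (by omega) (by omega)).trans (Nat.le_add_right _ _)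
    have h2 : N ≤ 2 ^ (2 * C₁ * B + B) := hN1.trans (Nat.pow_le_pow_right (by norm_num) (by omega))
    calc max P Q ≤ 2 ^ (2 * C₁ * B + B) + 2 ^ (2 * C₁ * B + B) := by omega
      _ = 2 ^ (2 * C₁ * B + B + 1) := by rw [pow_succ]; ring
      _ ≤ 2 ^ ((2 * C₁ + 4) * B) := Nat.pow_le_pow_right (by norm_num) (by rw [e3]; omega)
  rw [← hB]
  exact ⟨hN1.trans (Nat.pow_le_pow_right (by norm_num) (by rw [e3]; omega)),
    (le_max_left _ _).trans hmax, (le_max_right _ _).trans hmax⟩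

/-- **the three terms are bounded** -/
theorem core (n : ℕ) : ∃ C κ : ℕ, ∀ S₀ : ℕ, 2 ≤ S₀ → ∀ N P Q : ℕ,
    Gen n (2 ^ S₀) P → Gen n (2 ^ S₀) Q → Nat.Coprime P Q → Tri N P Q → N ≠ 0 → Ctl S₀ N →
    N ≤ 2 ^ (C * S₀ ^ κ) ∧ P ≤ 2 ^ (C * S₀ ^ κ) ∧ Q ≤ 2 ^ (C * S₀ ^ κ) := by
  obtain ⟨C, κ, g0, h⟩ := step n
  obtain ⟨L₀, hL₀⟩ := Pool.Agent.TH888.B1.growth (8 * (C + 1)) κ
  refine ⟨C * (g0 + L₀ + 2) ^ κ, κ, ?_⟩
  intro S₀ hS₀ N P Q hP hQ hPQ hT hN hC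
  have hP0 := hP.pos
  have hQ0 := hQ.pos
  obtain ⟨α, e, hα, hαP, he, hPe⟩ := hP.norm Nat.one_le_two_pow
  obtain ⟨β, f, hβ, hβQ, hf, hQe⟩ := hQ.norm Nat.one_le_two_pow
  obtain ⟨E, hE⟩ : ∃ E, E = max (Nat.log 2 P) (Nat.log 2 Q) := ⟨_, rfl⟩
  obtain ⟨S, hS⟩ : ∃ S, S = max (max S₀ g0) (Nat.log 2 (2 * E) + 1) := ⟨_, rfl⟩
  have hS₀S : S₀ ≤ S := by rw [hS]; exact (le_max_left _ _).trans (le_max_left _ _)
  have hg0S : g0 ≤ S := by rw [hS]; exact (le_max_right _ _).trans (le_max_left _ _)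
  have hES : 2 * E ≤ 2 ^ S := by
    have h1 : 2 * E < 2 ^ (Nat.log 2 (2 * E) + 1) := Nat.lt_pow_succ_log_self (by norm_num) _
    rw [hS]
    exact h1.le.trans (Nat.pow_le_pow_right (by norm_num) (le_max_right _ _))
  have h2S : (2 : ℕ) ^ S₀ ≤ 2 ^ S := Nat.pow_le_pow_right (by norm_num) hS₀S
  have heE : ∀ i, e i ≤ E := fun i => by
    rw [hE]
    exact (Nat.le_log_of_pow_le (by norm_num) (he i)).trans (le_max_left _ _)
  have hfE : ∀ i, f i ≤ E := fun i => by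
    rw [hE]
    exact (Nat.le_log_of_pow_le (by norm_num) (hf i)).trans (le_max_right _ _)
  obtain ⟨b1, b2, b3⟩ := h S hg0S (hS₀.trans hS₀S) α β e f N P Q
    (fun i => ⟨(hα i).1, (hα i).2.trans h2S⟩) (fun i => ⟨(hβ i).1, (hβ i).2.trans h2S⟩) hαP hβQ
    (fun i => by have := heE i; omega) (fun i => by have := hfE i; omega) hPe hQe hPQ hT hN
    (hC.mono hS₀S)
  -- the size of `S`
  have hSle : S ≤ max (max S₀ g0) L₀ := by
    rcases le_total (Nat.log 2 (2 * E) + 1) (max S₀ g0) with h1 | h1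
    · rw [hS, max_eq_left h1]; exact le_max_left _ _
    · have hS' : S = Nat.log 2 (2 * E) + 1 := by rw [hS, max_eq_right h1]
      refine le_trans ?_ (le_max_right _ _)
      apply hL₀
      rcases Nat.eq_zero_or_pos E with hE0 | hE0
      · rw [hS', hE0]
        simp only [mul_zero, Nat.log_zero_right, zero_add, pow_one, one_pow, mul_one]
        omega
      · have h2 : 2 ^ Nat.log 2 (2 * E) ≤ 2 * E := Nat.pow_log_le_self 2 (by omega)
        have h3 : E ≤ C * S ^ κ := by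
          rw [hE]
          apply max_le
          · have := Nat.log_mono_right (b := 2) b2
            rwa [Nat.log_pow (by norm_num)] at this
          · have := Nat.log_mono_right (b := 2) b3
            rwa [Nat.log_pow (by norm_num)] at this
        have h4 : 2 ^ S = 2 ^ Nat.log 2 (2 * E) * 2 := by rw [hS', pow_succ]
        rw [h4]
        have h5 : 8 * (C + 1) * S ^ κ = 8 * (C * S ^ κ) + 8 * S ^ κ := by ring
        rw [h5]
        omega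
  have hfin : C * S ^ κ ≤ C * (g0 + L₀ + 2) ^ κ * S₀ ^ κ := by
    rw [mul_assoc, ← mul_pow]
    apply Nat.mul_le_mul_left
    apply Nat.pow_le_pow_left
    refine hSle.trans (max_le (max_le ?_ ?_) ?_)
    · exact Nat.le_mul_of_pos_left _ (by omega)
    · exact (show g0 ≤ g0 + L₀ + 2 by omega).trans (Nat.le_mul_of_pos_right _ (by omega))
    · exact (show L₀ ≤ g0 + L₀ + 2 by omega).trans (Nat.le_mul_of_pos_right _ (by omega))
  have hpow := Nat.pow_le_pow_right (show 0 < 2 by norm_num) hfin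
  exact ⟨b1.trans hpow, b2.trans hpow, b3.trans hpow⟩

end Pool.Agent.X95T.TB
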