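import Pool.Agent.X95T.NC1
import Mathlib.RingTheory.Nullstellensatz

/-!
# Conic bundles of degree six: local Zariski closures
-/

set_option autoImplicit false
set_option linter.unusedSectionVars false

open MvPolynomial Topology

namespace Pool.Agent.X95T.SX

variable {K ι κ : Type} [Field K] [CharZero K] [Fintype ι] [Fintype κ] {a : ι → K}
  {f : MvPolynomial κ K} {L : Type} [NontriviallyNormedField L] [CompleteSpace L] {σ : K →+* L}

/-- the ideal of the local Zariski closure at a point of affine space -/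
def aloc {θ : Type} (σ : K →+* L) (S : Set (MvPolynomial θ K)) (x : θ → L) :
    Set (MvPolynomial θ K) :=
  {g | ∃ U ∈ 𝓝 x, ∀ y : θ → K, (∀ e ∈ S, eval y e = 0) → (fun s => σ (y s)) ∈ U → eval y g = 0}

variable (a f) in
/-- the equation -/
noncomputable def eqn : MvPolynomial (ι ⊕ κ) K :=
  ∑ i, C (a i) * X (Sum.inl i) ^ 2 - rename Sum.inr f

lemma eqn_iff {k : Type} [Field k] (τ : K →+* k) (x : ι ⊕ κ → k) :
    eval₂ τ x (eqn a f) = 0 ↔ On a f τ x := by
  unfold eqn On B
  rw [eval₂_sub, eval₂_rename, eval₂_sum, sub_eq_zero]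
  have h1 : ∑ i, eval₂ τ x (C (a i) * X (Sum.inl i) ^ 2) =
      ∑ i, τ (a i) * x (Sum.inl i) * x (Sum.inl i) := by
    refine Finset.sum_congr rfl fun i _ => ?_
    rw [eval₂_mul, eval₂_C, eval₂_pow, eval₂_X]
    ring
  rw [h1]
  rfl

/-- the ideal -/
lemma idl_eq (g : MvPolynomial (ι ⊕ κ) K) : g ∈ (Ideal.span {eqn a f}).radical ↔
    ∀ Z : ι ⊕ κ → AlgebraicClosure K, On a f (algebraMap K (AlgebraicClosure K)) Z →
      aeval Z g = 0 := by
  rw [← vanishingIdeal_zeroLocus_eq_radical (K := AlgebraicClosure K), zeroLocus_span]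
  constructor
  · intro h Z hZ
    refine h Z fun p hp => ?_
    rw [Set.mem_singleton_iff.1 hp]
    exact (eqn_iff _ Z).2 hZ
  · intro h Z hZ
    exact h Z ((eqn_iff _ Z).1 (hZ _ (Set.mem_singleton _)))

/-- **local closures at the points with `f ≠ 0`** -/
theorem aff [Nontrivial ι] (hf : ∀ j, f.degreeOf j ≤ 6) (hσ : DenseRange σ) (ha : ∀ i, a i ≠ 0)
    {x : ι ⊕ κ → L} (hx : eval₂ σ (fun j => x (Sum.inr j)) f ≠ 0) :
    aloc σ {eqn a f} x = (Ideal.span {eqn a f}).radical ∨ aloc σ {eqn a f} x = Set.univ := by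
  by_cases h : x ∈ closure {x : ι ⊕ κ → L | ∃ q : ι ⊕ κ → K, On a f (RingHom.id K) q ∧
        x = fun s => σ (q s)}
  · left
    ext g
    rw [SetLike.mem_coe, idl_eq]
    constructor
    · rintro ⟨U, hU, hg⟩ Z hZ
      have h2 : {y : ι ⊕ κ → L | eval₂ σ (fun j => y (Sum.inr j)) f ≠ 0} ∈ 𝓝 x := by
        have h3 : Continuous fun y : ι ⊕ κ → L => eval₂ σ (fun j => y (Sum.inr j)) f :=
          (cont2 σ f).comp (continuous_pi fun j => continuous_apply (Sum.inr j))
        exact h3.continuousAt.eventually_ne hx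
      obtain ⟨_, ⟨hx1, hx2⟩, P, hP, rfl⟩ := mem_closure_iff_nhds.1 h _
        (Filter.inter_mem h2 (interior_mem_nhds.2 hU))
      have h3 : eval₂ σ (fun j => σ (P (Sum.inr j))) f = σ (eval (fun j => P (Sum.inr j)) f) := by
        rw [eval, coe_eval₂Hom, ← RingHom.coe_coe σ, eval₂_comp_left]
        rfl
      have h4 : eval (fun j => P (Sum.inr j)) f ≠ 0 := by
        intro h5
        apply hx1
        rw [h3, h5, map_zero]
      refine zd (σ := σ) hf hσ ha hP h4 (mem_interior_iff_mem_nhds.1 hx2) (fun y hy hyU => ?_) _ Z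
        hZ
      refine hg y (fun e he => ?_) hyU
      rw [Set.mem_singleton_iff.1 he]
      exact (eqn_iff (RingHom.id K) y).2 hy
    · intro hg
      refine ⟨Set.univ, Filter.univ_mem, fun y hy _ => ?_⟩
      have h1 : On a f (RingHom.id K) y :=
        (eqn_iff (RingHom.id K) y).1 (hy _ (Set.mem_singleton _))
      have h2 : On a f (algebraMap K (AlgebraicClosure K))
          fun s => algebraMap K (AlgebraicClosure K) (y s) := by
        rw [← eqn_iff] at h1 ⊢
        have h3 := eval₂_comp_left (algebraMap K (AlgebraicClosure K)) (RingHom.id K) y (eqn a f)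
        rw [h1, map_zero] at h3
        exact h3.symm
      have h3 := hg _ h2
      have h4 := (aeval_algebraMap_apply (AlgebraicClosure K) y g).trans (by rw [aeval_eq_eval])
      have h5 : algebraMap K (AlgebraicClosure K) (eval y g) = 0 := h4.symm.trans h3
      exact (map_eq_zero _).1 h5
  · right
    rw [Set.eq_univ_iff_forall]
    intro g
    refine ⟨_, isClosed_closure.isOpen_compl.mem_nhds h, fun y hy hyU => ?_⟩
    have h1 : (fun s => σ (y s)) ∈ {x : ι ⊕ κ → L | ∃ q : ι ⊕ κ → K,
        On a f (RingHom.id K) q ∧ x = fun s => σ (q s)} :=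
      ⟨y, (eqn_iff (RingHom.id K) y).1 (hy _ (Set.mem_singleton _)), rfl⟩
    exact absurd (subset_closure h1) hyU

end Pool.Agent.X95T.SX
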