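import Pool.Agent.Results.MP_821da1_nt.RepulsionAllCurves

set_option autoImplicit false

open IntermediateField

namespace Pool.Agent.X95T

variable {L : Type} [Field L] {Γ : Type} [LinearOrderedCommGroupWithZero Γ] (v : Valuation L Γ)

/-- an integer combination of small monomials is small -/
lemma sum_small (hZ : ∀ c : ℤ, v (c : L) ≤ 1) (R : MvPolynomial (Fin 2) ℤ) (x y : L) (b : Γ)
    (hb : b ≠ 0) (h : ∀ s ∈ R.support, v x ^ s 0 * v y ^ s 1 < b) :
    v (MvPolynomial.aeval ![x, y] R) < b := by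
  rw [MvPolynomial.aeval_def, MvPolynomial.eval₂_eq']
  apply Valuation.map_sum_lt _ hb
  intro s hs
  rw [Fin.prod_univ_two]
  simp only [Matrix.cons_val_zero, Matrix.cons_val_one, map_mul, map_pow]
  refine lt_of_le_of_lt ?_ (h s hs)
  have h1 : v ((algebraMap ℤ L) (MvPolynomial.coeff s R)) ≤ 1 := by
    simpa using hZ (MvPolynomial.coeff s R)
  calc _ ≤ 1 * (v x ^ s 0 * v y ^ s 1) := mul_le_mul_left h1 _
    _ = _ := one_mul _

/-- the leading behaviour at infinity -/
lemma lead {N k : ℕ} (hN : 1 ≤ N) (hk : 1 ≤ k) (hZ : ∀ c : ℤ, v (c : L) ≤ 1)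
    (F : MvPolynomial (Fin 2) ℤ)
    (hF : ∀ s ∈ (F - MvPolynomial.X 1 ^ k + MvPolynomial.X 0 ^ N).support, k * s 0 + N * s 1 < N * k)
    (x y : L) (hx : 1 < v x) (hy : 1 < v y) (h0 : MvPolynomial.aeval ![x, y] F = 0) :
    v (x ^ N / y ^ k - 1) < 1 := by
  obtain ⟨R, hR⟩ : ∃ R, R = F - MvPolynomial.X 1 ^ k + MvPolynomial.X 0 ^ N := ⟨_, rfl⟩
  rw [← hR] at hF
  have hx0 : x ≠ 0 := by rintro rfl; simp at hx
  have hy0 : y ≠ 0 := by rintro rfl; simp at hy
  have e1 : MvPolynomial.aeval ![x, y] R = x ^ N - y ^ k := by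
    rw [hR, map_add, map_sub, h0, map_pow, map_pow, MvPolynomial.aeval_X, MvPolynomial.aeval_X]
    simp only [Matrix.cons_val_zero, Matrix.cons_val_one]
    ring
  have hux : v x ≠ 0 := (lt_trans zero_lt_one hx).ne'
  have huy : v y ≠ 0 := (lt_trans zero_lt_one hy).ne'
  have key : ∀ c d c' : Γ, (1 : Γ) < c' → c ^ N ≤ 1 → True := fun _ _ _ _ _ => trivial
  rcases le_or_gt (v x ^ N) (v y ^ k) with hle | hgt
  · have h1 : v (MvPolynomial.aeval ![x, y] R) < v y ^ k := by
      apply sum_small v hZ R x y _ (pow_ne_zero _ huy)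
      intro s hs
      have h2 := hF s hs
      refine lt_of_pow_lt_pow_left₀ N zero_le' ?_
      calc (v x ^ s 0 * v y ^ s 1) ^ N = (v x ^ N) ^ s 0 * v y ^ (N * s 1) := by
            rw [mul_pow, ← pow_mul, ← pow_mul, ← pow_mul, mul_comm N (s 0), mul_comm N (s 1)]
        _ ≤ (v y ^ k) ^ s 0 * v y ^ (N * s 1) := mul_le_mul_left (pow_le_pow_left₀ zero_le' hle _) _
        _ = v y ^ (k * s 0 + N * s 1) := by rw [← pow_mul, ← pow_add]
        _ < v y ^ (N * k) := pow_lt_pow_right₀ hy h2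
        _ = (v y ^ k) ^ N := by rw [← pow_mul, mul_comm]
    have h3 : x ^ N / y ^ k - 1 = MvPolynomial.aeval ![x, y] R / y ^ k := by
      rw [e1, sub_div, div_self (pow_ne_zero _ hy0)]
    rw [h3, map_div₀, map_pow]
    exact (div_lt_one₀ (zero_lt_iff.2 (pow_ne_zero _ huy))).2 h1
  · exfalso
    have h1 : v (MvPolynomial.aeval ![x, y] R) < v x ^ N := by
      apply sum_small v hZ R x y _ (pow_ne_zero _ hux)
      intro s hs
      have h2 := hF s hs
      refine lt_of_pow_lt_pow_left₀ k zero_le' ?_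
      calc (v x ^ s 0 * v y ^ s 1) ^ k = v x ^ (k * s 0) * (v y ^ k) ^ s 1 := by
            rw [mul_pow, ← pow_mul, ← pow_mul, ← pow_mul, mul_comm k (s 0), mul_comm k (s 1)]
        _ ≤ v x ^ (k * s 0) * (v x ^ N) ^ s 1 :=
            mul_le_mul_right (pow_le_pow_left₀ zero_le' hgt.le _) _
        _ = v x ^ (k * s 0 + N * s 1) := by rw [← pow_mul, ← pow_add]
        _ < v x ^ (N * k) := pow_lt_pow_right₀ hx h2
        _ = (v x ^ N) ^ k := by rw [← pow_mul]
    rw [e1] at h1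
    have h4 : v (x ^ N - y ^ k) = v (x ^ N) := by
      apply Valuation.map_sub_eq_of_lt_left
      rw [map_pow, map_pow]
      exact hgt
    rw [h4, map_pow] at h1
    exact lt_irrefl _ h1

/-- at a place at infinity both coordinates have a pole -/
lemma both {N k : ℕ} (hN : 1 ≤ N) (hk : 1 ≤ k) (hZ : ∀ c : ℤ, v (c : L) ≤ 1)
    (F : MvPolynomial (Fin 2) ℤ)
    (hF : ∀ s ∈ (F - MvPolynomial.X 1 ^ k + MvPolynomial.X 0 ^ N).support, k * s 0 + N * s 1 < N * k)
    (x y : L) (hxy : 1 < v x ∨ 1 < v y) (h0 : MvPolynomial.aeval ![x, y] F = 0) :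
    1 < v x ∧ 1 < v y := by
  obtain ⟨R, hR⟩ : ∃ R, R = F - MvPolynomial.X 1 ^ k + MvPolynomial.X 0 ^ N := ⟨_, rfl⟩
  rw [← hR] at hF
  have e1 : MvPolynomial.aeval ![x, y] R = x ^ N - y ^ k := by
    rw [hR, map_add, map_sub, h0, map_pow, map_pow, MvPolynomial.aeval_X, MvPolynomial.aeval_X]
    simp only [Matrix.cons_val_zero, Matrix.cons_val_one]
    ring
  by_contra hcon
  rw [not_and_or, not_lt, not_lt] at hcon
  have hs1 : ∀ s ∈ R.support, s 1 < k := by
    intro s hs
    have h2 := hF s hs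
    by_contra h3
    rw [not_lt] at h3
    have := Nat.mul_le_mul_left N h3
    omega
  have hs0 : ∀ s ∈ R.support, s 0 < N := by
    intro s hs
    have h2 := hF s hs
    by_contra h3
    rw [not_lt] at h3
    have := Nat.mul_le_mul_left k h3
    rw [mul_comm k N] at this
    omega
  rcases hcon with hx | hy
  · have hy : 1 < v y := hxy.resolve_left (not_lt.2 hx)
    have huy : v y ≠ 0 := (lt_trans zero_lt_one hy).ne'
    have h1 : v (MvPolynomial.aeval ![x, y] R) < v y ^ k := by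
      apply sum_small v hZ R x y _ (pow_ne_zero _ huy)
      intro s hs
      calc v x ^ s 0 * v y ^ s 1 ≤ 1 * v y ^ s 1 := mul_le_mul_left (pow_le_one₀ zero_le' hx) _
        _ = v y ^ s 1 := one_mul _
        _ < v y ^ k := pow_lt_pow_right₀ hy (hs1 s hs)
    have h2 : v (x ^ N) < v (y ^ k) := by
      rw [map_pow, map_pow]
      exact lt_of_le_of_lt (pow_le_one₀ zero_le' hx) (one_lt_pow₀ hy (by omega))
    rw [e1, Valuation.map_sub_eq_of_lt_right _ h2, map_pow] at h1
    exact lt_irrefl _ h1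
  · have hx : 1 < v x := hxy.resolve_right (not_lt.2 hy)
    have hux : v x ≠ 0 := (lt_trans zero_lt_one hx).ne'
    have h1 : v (MvPolynomial.aeval ![x, y] R) < v x ^ N := by
      apply sum_small v hZ R x y _ (pow_ne_zero _ hux)
      intro s hs
      calc v x ^ s 0 * v y ^ s 1 ≤ v x ^ s 0 * 1 := mul_le_mul_right (pow_le_one₀ zero_le' hy) _
        _ = v x ^ s 0 := mul_one _
        _ < v x ^ N := pow_lt_pow_right₀ hx (hs0 s hs)
    have h2 : v (y ^ k) < v (x ^ N) := by
      rw [map_pow, map_pow]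
      exact lt_of_le_of_lt (pow_le_one₀ zero_le' hy) (one_lt_pow₀ hx (by omega))
    rw [e1, Valuation.map_sub_eq_of_lt_left _ h2, map_pow] at h1
    exact lt_irrefl _ h1

end Pool.Agent.X95T
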