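import Pool.Agent.X95T.A

set_option autoImplicit false

open IntermediateField

namespace Pool.Agent.X95T

open Pool.Agent.Results.MP_821da1_nt.RepulsionAllCurves (CoordRing)

/-- the polynomial `F (x, a z ^ n)` -/
noncomputable def sub (a : ℤ) (n : ℕ) :
    MvPolynomial (Fin 2) ℤ →ₐ[ℤ] MvPolynomial (Fin 2) ℤ :=
  MvPolynomial.aeval ![MvPolynomial.X 0, MvPolynomial.C a * MvPolynomial.X 1 ^ n]

lemma aeval_sub {S : Type} [CommRing S] (a : ℤ) (n : ℕ) (F : MvPolynomial (Fin 2) ℤ) (x z : S) :
    MvPolynomial.aeval ![x, z] (sub a n F) = MvPolynomial.aeval ![x, (a : S) * z ^ n] F := by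
  have h : ((MvPolynomial.aeval (R := ℤ) ![x, z]).comp (sub a n)) =
      MvPolynomial.aeval (R := ℤ) ![x, (a : S) * z ^ n] := by
    apply MvPolynomial.algHom_ext
    intro i
    fin_cases i
    · simp [sub]
    · simp [sub]
  exact DFunLike.congr_fun h F

/-- a ring homomorphism on rational polynomials, restricted to integral polynomials -/
lemma hom_map {S : Type} [CommRing S] (φ : MvPolynomial (Fin 2) ℚ →+* S) (P : MvPolynomial (Fin 2) ℤ) :
    φ (MvPolynomial.map (Int.castRingHom ℚ) P) =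
      MvPolynomial.aeval ![φ (MvPolynomial.X 0), φ (MvPolynomial.X 1)] P := by
  have h : φ.comp (MvPolynomial.map (Int.castRingHom ℚ)) =
      ((MvPolynomial.aeval (R := ℤ) ![φ (MvPolynomial.X 0), φ (MvPolynomial.X 1)] :
        MvPolynomial (Fin 2) ℤ →ₐ[ℤ] S) : MvPolynomial (Fin 2) ℤ →+* S) := by
    apply MvPolynomial.ringHom_ext
    · intro r
      simp
    · intro i
      fin_cases i
      · simp
      · simp
  exact DFunLike.congr_fun h P

section

variable {N k n : ℕ} (hn : 1 ≤ n) (a : ℤ) (ha : a ≠ 0) (F : MvPolynomial (Fin 2) ℤ)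
    (hF : ∀ s ∈ (F - MvPolynomial.X 1 ^ k + MvPolynomial.X 0 ^ N).support,
      k * s 0 + N * s 1 < N * k)

/-- the coordinate ring contains the polynomials in `x` -/
noncomputable def jx (G : MvPolynomial (Fin 2) ℤ) : Polynomial ℚ →+* CoordRing G :=
  Polynomial.eval₂RingHom (algebraMap ℚ (CoordRing G)) (Ideal.Quotient.mk _ (MvPolynomial.X 0))

include hn ha hF in
lemma isInt (hk : 1 ≤ k) : (jx (sub a n F)).IsIntegral := by
  obtain ⟨G, hG⟩ : ∃ G, G = sub a n F := ⟨_, rfl⟩
  rw [← hG]
  let _ := (jx G).toAlgebra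
  obtain ⟨x, hx⟩ : ∃ x : CoordRing G, x = Ideal.Quotient.mk _ (MvPolynomial.X 0) := ⟨_, rfl⟩
  obtain ⟨z, hz⟩ : ∃ z : CoordRing G, z = Ideal.Quotient.mk _ (MvPolynomial.X 1) := ⟨_, rfl⟩
  have hq : (Ideal.Quotient.mk (Ideal.span {MvPolynomial.map (Int.castRingHom ℚ) G}))
      (MvPolynomial.map (Int.castRingHom ℚ) G) = 0 := by
    rw [Ideal.Quotient.eq_zero_iff_mem]
    exact Ideal.mem_span_singleton_self _
  have hF0 : MvPolynomial.aeval ![x, (a : CoordRing G) * z ^ n] F = 0 := by
    refine (aeval_sub a n F x z).symm.trans ?_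
    rw [← hG, hx, hz]
    refine (hom_map (Ideal.Quotient.mk _) G).symm.trans ?_
    exact hq
  obtain ⟨y, hy⟩ : ∃ y : CoordRing G, y = (a : CoordRing G) * z ^ n := ⟨_, rfl⟩
  rw [← hy] at hF0
  obtain ⟨R, hR⟩ : ∃ R, R = F - MvPolynomial.X 1 ^ k + MvPolynomial.X 0 ^ N := ⟨_, rfl⟩
  rw [← hR] at hF
  have e1 : MvPolynomial.aeval ![x, y] R = x ^ N - y ^ k := by
    rw [hR, map_add, map_sub, hF0, map_pow, map_pow, MvPolynomial.aeval_X, MvPolynomial.aeval_X]
    simp only [Matrix.cons_val_zero, Matrix.cons_val_one]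
    ring
  have hs1 : ∀ s ∈ R.support, s 1 < k := by
    intro s hs
    have h2 := hF s hs
    by_contra h3
    rw [not_lt] at h3
    have := Nat.mul_le_mul_left N h3
    omega
  have hjx : algebraMap (Polynomial ℚ) (CoordRing G) Polynomial.X = x := by
    rw [hx]
    show jx G Polynomial.X = _
    rw [jx, Polynomial.coe_eval₂RingHom, Polynomial.eval₂_X]
  have hjC : ∀ q : ℚ, algebraMap (Polynomial ℚ) (CoordRing G) (Polynomial.C q) =
      algebraMap ℚ (CoordRing G) q := by
    intro q
    show jx G (Polynomial.C q) = _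
    rw [jx, Polynomial.coe_eval₂RingHom, Polynomial.eval₂_C]
  have hyint : IsIntegral (Polynomial ℚ) y := by
    refine ⟨(Polynomial.X ^ k + (-Polynomial.C ((Polynomial.X : Polynomial ℚ) ^ N) +
      ∑ s ∈ R.support, Polynomial.C ((Polynomial.C ((R.coeff s : ℤ) : ℚ)) *
        (Polynomial.X : Polynomial ℚ) ^ s 0) * Polynomial.X ^ s 1) :
          Polynomial (Polynomial ℚ)), ?_, ?_⟩
    · apply Polynomial.monic_X_pow_add
      rw [← Polynomial.mem_degreeLT]
      apply Submodule.add_mem
      · apply Submodule.neg_mem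
        rw [Polynomial.mem_degreeLT]
        exact lt_of_le_of_lt Polynomial.degree_C_le (by exact_mod_cast hk)
      · apply Submodule.sum_mem
        intro s hs
        rw [Polynomial.mem_degreeLT]
        exact lt_of_le_of_lt (Polynomial.degree_C_mul_X_pow_le _ _) (by exact_mod_cast hs1 s hs)
    · rw [Polynomial.eval₂_add, Polynomial.eval₂_add, Polynomial.eval₂_neg, Polynomial.eval₂_C,
        Polynomial.eval₂_pow, Polynomial.eval₂_X, map_pow, hjx, Polynomial.eval₂_finsetSum]
      have e2 : ∑ s ∈ R.support, Polynomial.eval₂ (algebraMap (Polynomial ℚ) (CoordRing G)) y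
          (Polynomial.C ((Polynomial.C ((R.coeff s : ℤ) : ℚ)) *
            (Polynomial.X : Polynomial ℚ) ^ s 0) *
            Polynomial.X ^ s 1) = MvPolynomial.aeval ![x, y] R := by
        rw [MvPolynomial.aeval_def, MvPolynomial.eval₂_eq']
        apply Finset.sum_congr rfl
        intro s _
        rw [Polynomial.eval₂_mul, Polynomial.eval₂_C, Polynomial.eval₂_pow, Polynomial.eval₂_X,
          map_mul, map_pow, hjx, hjC, Fin.prod_univ_two]
        simp only [Matrix.cons_val_zero, Matrix.cons_val_one]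
        rw [mul_assoc]
        congr 1
      rw [e2, e1]
      ring
  have hzint : IsIntegral (Polynomial ℚ) z := by
    have h1 : z ^ n = algebraMap (Polynomial ℚ) (CoordRing G) (Polynomial.C ((a : ℚ)⁻¹)) * y := by
      rw [hjC, hy, ← mul_assoc]
      have : algebraMap ℚ (CoordRing G) ((a : ℚ)⁻¹) * (a : CoordRing G) = 1 := by
        have h2 : (a : CoordRing G) = algebraMap ℚ (CoordRing G) (a : ℚ) := by simp
        rw [h2, ← map_mul, inv_mul_cancel₀ (by exact_mod_cast ha), map_one]
      rw [this, one_mul]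
    apply IsIntegral.of_pow hn
    rw [h1]
    exact isIntegral_algebraMap.mul hyint
  intro r
  obtain ⟨P, rfl⟩ := Ideal.Quotient.mk_surjective r
  show IsIntegral (Polynomial ℚ) _
  induction P using MvPolynomial.induction_on with
  | C q =>
    have : (Ideal.Quotient.mk (Ideal.span {MvPolynomial.map (Int.castRingHom ℚ) G}))
        (MvPolynomial.C q) = algebraMap (Polynomial ℚ) (CoordRing G) (Polynomial.C q) := by
      rw [hjC]
      rfl
    rw [this]
    exact isIntegral_algebraMap
  | add p q hp hq => rw [map_add]; exact hp.add hq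
  | mul_X p i hp =>
    rw [map_mul]
    apply hp.mul
    fin_cases i
    · show IsIntegral (Polynomial ℚ) (Ideal.Quotient.mk _ (MvPolynomial.X 0))
      rw [← hx, ← hjx]
      exact isIntegral_algebraMap
    · show IsIntegral (Polynomial ℚ) (Ideal.Quotient.mk _ (MvPolynomial.X 1))
      rw [← hz]
      exact hzint

include hn ha hF in
lemma inj (hk : 1 ≤ k) (hdom : IsDomain (CoordRing (sub a n F))) {Ω : Type} [Field Ω] [CharZero Ω]
    (ψ : CoordRing (sub a n F) →+* Ω)
    (hx : ∀ p : Polynomial ℚ, Polynomial.eval₂ (Rat.castHom Ω)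
      (ψ (Ideal.Quotient.mk _ (MvPolynomial.X 0))) p = 0 → p = 0) : Function.Injective ψ := by
  rw [RingHom.injective_iff_ker_eq_bot]
  let _ := (jx (sub a n F)).toAlgebra
  have _ : Algebra.IsIntegral (Polynomial ℚ) (CoordRing (sub a n F)) :=
    ⟨fun r => isInt hn a ha F hF hk r⟩
  apply Ideal.eq_bot_of_comap_eq_bot (R := Polynomial ℚ)
  rw [eq_bot_iff]
  intro p hp
  rw [Ideal.mem_comap, RingHom.mem_ker] at hp
  rw [Ideal.mem_bot]
  apply hx
  rw [← hp]
  have h : (Polynomial.eval₂RingHom (Rat.castHom Ω)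
      (ψ (Ideal.Quotient.mk _ (MvPolynomial.X 0)))) = ψ.comp (jx (sub a n F)) := by
    apply Polynomial.ringHom_ext
    · intro q
      have h1 : jx (sub a n F) (Polynomial.C q) = algebraMap ℚ _ q := by simp [jx]
      rw [RingHom.comp_apply, h1]
      simp only [Polynomial.coe_eval₂RingHom, Polynomial.eval₂_C]
      exact (eq_ratCast (ψ.comp (algebraMap ℚ (CoordRing (sub a n F)))) q).symm
    · simp [jx]
  exact DFunLike.congr_fun h p

end

end Pool.Agent.X95T
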