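import Pool.Agent.X95T.B

set_option autoImplicit false

open IntermediateField

namespace Pool.Agent.X95T

open Pool.Agent.Results.MP_821da1_nt.RepulsionAllCurves (CoordRing AtInfinity OnePlace)

lemma pow_one {Γ : Type} [LinearOrderedCommGroupWithZero Γ] {g : Γ} {n : ℕ} (hn : n ≠ 0)
    (h : g ^ n = 1) : g = 1 := by
  rcases lt_trichotomy g 1 with h1 | h1 | h1
  · exact absurd h (pow_lt_one₀ zero_le h1 hn).ne
  · exact h1
  · exact absurd h (one_lt_pow₀ h1 hn).ne'

lemma val_rat {K : Type} [Field K] [CharZero K] {A : ValuationSubring K}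
    (hQ : ∀ q : ℚ, (q : K) ∈ A) {q : ℚ} (hq : q ≠ 0) : A.valuation (q : K) = 1 := by
  apply le_antisymm ((A.valuation_le_one_iff _).2 (hQ q))
  have h1 := (A.valuation_le_one_iff _).2 (hQ q⁻¹)
  rw [Rat.cast_inv, map_inv₀] at h1
  by_contra h2
  rw [not_le] at h2
  have h3 : (q : K) ≠ 0 := by exact_mod_cast hq
  have h4 : A.valuation (q : K) ≠ 0 := (Valuation.ne_zero_iff _).2 h3
  have h5 := mul_lt_mul_of_pos_right h2 (zero_lt_iff.2 (inv_ne_zero h4))
  rw [mul_inv_cancel₀ h4, one_mul] at h5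
  exact absurd h1 (not_le.2 h5)

/-- roots of unity are distinct modulo the maximal ideal -/
lemma root_one {K : Type} [Field K] [CharZero K] {A : ValuationSubring K}
    (hQ : ∀ q : ℚ, (q : K) ∈ A) {n : ℕ} (hn : 1 ≤ n) (ξ : K) (h1 : ξ ^ n = 1) (hne : ξ ≠ 1) :
    ¬ A.valuation (ξ - 1) < 1 := by
  intro h
  have hv : A.valuation ξ = 1 := by
    have := congrArg A.valuation h1
    rw [map_pow, map_one] at this
    exact pow_one (Nat.one_le_iff_ne_zero.1 hn) this
  have hpow : ∀ i : ℕ, A.valuation (ξ ^ i - 1) < 1 := by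
    intro i
    induction i with
    | zero => simp
    | succ i ih =>
      have e : ξ ^ (i + 1) - 1 = ξ * (ξ ^ i - 1) + (ξ - 1) := by ring
      rw [e]
      apply Valuation.map_add_lt _ _ h
      rw [map_mul, hv, one_mul]
      exact ih
  have hsum : ∑ i ∈ Finset.range n, (ξ ^ i - 1) = -((n : ℚ) : K) := by
    rw [Finset.sum_sub_distrib, geom_sum_eq hne, h1, sub_self, zero_div]
    simp
  have h2 : A.valuation (∑ i ∈ Finset.range n, (ξ ^ i - 1)) < 1 :=
    Valuation.map_sum_lt _ one_ne_zero (fun i _ => hpow i)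
  rw [hsum, Valuation.map_neg, val_rat hQ (Nat.cast_ne_zero.2 (Nat.one_le_iff_ne_zero.1 hn))] at h2
  exact lt_irrefl _ h2

/-- a pole is transcendental -/
lemma transc {K : Type} [Field K] [CharZero K] {A : ValuationSubring K}
    (hQ : ∀ q : ℚ, (q : K) ∈ A) (x : K) (hx : 1 < A.valuation x) (p : Polynomial ℚ)
    (hp : Polynomial.eval₂ (Rat.castHom K) x p = 0) : p = 0 := by
  by_contra hp0
  have hux : A.valuation x ≠ 0 := (lt_trans zero_lt_one hx).ne'
  rw [Polynomial.eval₂_eq_sum_range, Finset.sum_range_succ] at hp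
  have hlc : p.coeff p.natDegree ≠ 0 := by
    rw [Polynomial.coeff_natDegree]
    exact Polynomial.leadingCoeff_ne_zero.2 hp0
  have h1 : A.valuation (Rat.castHom K (p.coeff p.natDegree) * x ^ p.natDegree) =
      A.valuation x ^ p.natDegree := by
    rw [map_mul, map_pow]
    show A.valuation ((p.coeff p.natDegree : ℚ) : K) * _ = _
    rw [val_rat hQ hlc, one_mul]
  have h2 : A.valuation (∑ i ∈ Finset.range p.natDegree, Rat.castHom K (p.coeff i) * x ^ i) <
      A.valuation x ^ p.natDegree := by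
    apply Valuation.map_sum_lt _ (pow_ne_zero _ hux)
    intro i hi
    rw [map_mul, map_pow]
    have h3 : A.valuation (Rat.castHom K (p.coeff i)) ≤ 1 := (A.valuation_le_one_iff _).2 (hQ _)
    calc _ ≤ 1 * A.valuation x ^ i := mul_le_mul_left h3 _
      _ = A.valuation x ^ i := one_mul _
      _ < _ := pow_lt_pow_right₀ hx (Finset.mem_range.1 hi)
  have h3 : ∑ i ∈ Finset.range p.natDegree, Rat.castHom K (p.coeff i) * x ^ i =
      -(Rat.castHom K (p.coeff p.natDegree) * x ^ p.natDegree) := by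
    linear_combination hp
  rw [h3, Valuation.map_neg, h1] at h2
  exact lt_irrefl _ h2

theorem key {n k δ : ℕ} (hn : 2 ≤ n) (hk : 1 ≤ k) (hδ : 1 ≤ δ) (hkn : Nat.Coprime k n)
    (a : ℤ) (ha : a ≠ 0) (F : MvPolynomial (Fin 2) ℤ)
    (hF : ∀ s ∈ (F - MvPolynomial.X 1 ^ k + MvPolynomial.X 0 ^ (n * δ)).support,
      k * s 0 + (n * δ) * s 1 < (n * δ) * k)
    (hirr : Irreducible (MvPolynomial.map (Int.castRingHom ℚ) (sub a n F)))
    (g : Polynomial ℚ) (hG : OnePlace (sub a n F) g) (η : ℝ) (hη : Polynomial.aeval η g = 0) :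
    ∃ θ : ℝ, θ ^ n = (a : ℝ) ^ k ∧ θ ∈ ℚ⟮η⟯ ∧ ∀ q : ℚ, (q : ℝ) ≠ θ := by
  obtain ⟨hgm, hgi, L, fL, aL, frL, A, hA, ⟨e⟩⟩ := hG
  have hprime : (Ideal.span {MvPolynomial.map (Int.castRingHom ℚ) (sub a n F)}).IsPrime :=
    (Ideal.span_singleton_prime hirr.ne_zero).2 hirr.prime
  have hdom : IsDomain (CoordRing (sub a n F)) := Ideal.Quotient.isDomain _
  obtain ⟨ι, hι⟩ : ∃ ι : CoordRing (sub a n F) →+* L, ι = algebraMap _ L := ⟨_, rfl⟩
  have hc0 : CharZero L := charZero_of_injective_ringHom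
    (f := ι.comp (algebraMap ℚ (CoordRing (sub a n F)))) (RingHom.injective _)
  have hcast : ∀ q : ℚ, ι (algebraMap ℚ (CoordRing (sub a n F)) q) = (q : L) := fun q =>
    eq_ratCast (ι.comp (algebraMap ℚ (CoordRing (sub a n F)))) q
  obtain ⟨x, hx⟩ : ∃ x : L, x = ι (Ideal.Quotient.mk _ (MvPolynomial.X 0)) := ⟨_, rfl⟩
  obtain ⟨z, hz⟩ : ∃ z : L, z = ι (Ideal.Quotient.mk _ (MvPolynomial.X 1)) := ⟨_, rfl⟩
  have hAI : AtInfinity (sub a n F) L A := (hA A).2 rfl
  have hQ : ∀ q : ℚ, (q : L) ∈ A := fun q => by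
    rw [← hcast, hι]
    exact hAI.1 q
  -- the equation
  have hG0 : ι (Ideal.Quotient.mk _ (MvPolynomial.map (Int.castRingHom ℚ) (sub a n F))) = 0 := by
    rw [Ideal.Quotient.eq_zero_iff_mem.2 (Ideal.mem_span_singleton_self _), map_zero]
  have hF0 : MvPolynomial.aeval ![x, (a : L) * z ^ n] F = 0 := by
    refine (aeval_sub a n F x z).symm.trans ?_
    rw [hx, hz]
    exact (hom_map (ι.comp (Ideal.Quotient.mk _)) (sub a n F)).symm.trans hG0
  obtain ⟨y, hy⟩ : ∃ y : L, y = (a : L) * z ^ n := ⟨_, rfl⟩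
  rw [← hy] at hF0
  have haQ : (a : ℚ) ≠ 0 := by exact_mod_cast ha
  have haL : ((a : ℚ) : L) = (a : L) := by simp
  have hva : A.valuation (a : L) = 1 := by
    rw [← haL]
    exact val_rat hQ haQ
  have hZ : ∀ c : ℤ, A.valuation (c : L) ≤ 1 := by
    intro c
    have : ((c : ℚ) : L) = (c : L) := by simp
    rw [← this]
    exact (A.valuation_le_one_iff _).2 (hQ _)
  have hvy : A.valuation y = A.valuation z ^ n := by rw [hy, map_mul, hva, one_mul, map_pow]
  have hN : 1 ≤ n * δ := Nat.mul_pos (by omega) hδ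
  have hxy : 1 < A.valuation x ∨ 1 < A.valuation y := by
    obtain ⟨i, hi⟩ := hAI.2
    rw [← hι] at hi
    fin_cases i
    · left
      rw [← not_le, A.valuation_le_one_iff, hx]
      exact hi
    · right
      rw [hvy]
      apply one_lt_pow₀ _ (by omega)
      rw [← not_le, A.valuation_le_one_iff, hz]
      exact hi
  obtain ⟨hvx1, hvy1⟩ := both A.valuation hN hk hZ F hF x y hxy hF0
  have hvz1 : 1 < A.valuation z := by
    by_contra h
    rw [not_lt] at h
    rw [hvy] at hvy1
    exact absurd (pow_le_one₀ zero_le h) (not_le.2 hvy1)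
  have hlead := lead A.valuation hN hk hZ F hF x y hvx1 hvy1 hF0
  have hx0 : x ≠ 0 := by rintro rfl; simp at hvx1
  have hy0 : y ≠ 0 := by rintro rfl; simp at hvy1
  have hz0 : z ≠ 0 := by rintro rfl; simp at hvz1
  have haL0 : (a : L) ≠ 0 := by exact_mod_cast ha
  obtain ⟨h, hh⟩ : ∃ h : L, h = x ^ δ / z ^ k := ⟨_, rfl⟩
  have hhn : h ^ n - (a : L) ^ k = (a : L) ^ k * (x ^ (n * δ) / y ^ k - 1) := by
    have e0 : h ^ n = x ^ (n * δ) / z ^ (n * k) := by
      rw [hh, div_pow, ← pow_mul, ← pow_mul, mul_comm δ n, mul_comm k n]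
    have e1 : y ^ k = (a : L) ^ k * z ^ (n * k) := by
      rw [hy, mul_pow, ← pow_mul]
    rw [e0, e1]
    have := pow_ne_zero k haL0
    have := pow_ne_zero (n * k) hz0
    field_simp
  have hvhn : A.valuation (h ^ n - (a : L) ^ k) < 1 := by
    rw [hhn, map_mul, map_pow, hva, one_pow, one_mul]
    exact hlead
  have hvh : A.valuation h = 1 := by
    have h1 : A.valuation (h ^ n) = 1 := by
      have h2 : h ^ n = (h ^ n - (a : L) ^ k) + (a : L) ^ k := by ring
      have h3 : A.valuation ((a : L) ^ k) = 1 := by rw [map_pow, hva, one_pow]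
      rw [h2, Valuation.map_add_eq_of_lt_right _ (by rw [h3]; exact hvhn), h3]
    rw [map_pow] at h1
    exact pow_one (by omega) h1
  have hhA : h ∈ A := (A.valuation_le_one_iff _).1 hvh.le
  obtain ⟨hA1, hhA1⟩ : ∃ t : A, t = ⟨h, hhA⟩ := ⟨_, rfl⟩
  have hres : IsLocalRing.residue A hA1 ^ n = ((a : ℤ) : IsLocalRing.ResidueField A) ^ k := by
    have h1 : IsLocalRing.residue A (hA1 ^ n - (a : A) ^ k) = 0 := by
      rw [IsLocalRing.residue_eq_zero_iff, A.valuation_lt_one_iff, hhA1]
      push_cast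
      exact hvhn
    rw [map_sub, map_pow, map_pow, map_intCast, sub_eq_zero] at h1
    exact h1
  obtain ⟨φ, hφ⟩ : ∃ φ : AdjoinRoot g →+* ℝ, φ = AdjoinRoot.lift (algebraMap ℚ ℝ) η
      (by rw [← Polynomial.aeval_def]; exact hη) := ⟨_, rfl⟩
  obtain ⟨Φ, hΦ⟩ : ∃ Φ : IsLocalRing.ResidueField A →+* ℝ, Φ = φ.comp e.toRingHom := ⟨_, rfl⟩
  have hθn : Φ (IsLocalRing.residue A hA1) ^ n = (a : ℝ) ^ k := by
    rw [← map_pow, hres, map_pow, map_intCast]
  refine ⟨Φ (IsLocalRing.residue A hA1), hθn, ?_, ?_⟩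
  · obtain ⟨p, hp⟩ := AdjoinRoot.mk_surjective (e (IsLocalRing.residue A hA1))
    have h1 : Φ (IsLocalRing.residue A hA1) = Polynomial.aeval η p := by
      rw [hΦ, RingHom.comp_apply]
      show φ (e (IsLocalRing.residue A hA1)) = _
      rw [← hp, hφ, AdjoinRoot.lift_mk, Polynomial.aeval_def]
    rw [h1]
    exact IntermediateField.algebra_adjoin_le_adjoin ℚ {η}
      (Polynomial.aeval_mem_adjoin_singleton ℚ η)
  · intro q hq
    have hq0 : q ≠ 0 := by
      rintro rfl
      rw [← hq] at hθn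
      simp only [Rat.cast_zero] at hθn
      rw [zero_pow (by omega)] at hθn
      have : (a : ℝ) ^ k ≠ 0 := pow_ne_zero _ (by exact_mod_cast ha)
      exact this hθn.symm
    -- the residue is rational
    obtain ⟨cA, hcA⟩ : ∃ cA : ℚ →+* A, ∀ r, ((cA r : A) : L) = (r : L) :=
      ⟨{ toFun := fun r => ⟨(r : L), hQ r⟩
         map_one' := Subtype.ext (by simp)
         map_mul' := fun r s => Subtype.ext (by simp)
         map_zero' := Subtype.ext (by simp)
         map_add' := fun r s => Subtype.ext (by simp) }, fun r => rfl⟩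
    have hr1 : IsLocalRing.residue A hA1 = IsLocalRing.residue A (cA q) := by
      apply Φ.injective
      rw [← hq]
      exact (eq_ratCast ((Φ.comp (IsLocalRing.residue A)).comp cA) q).symm
    have hr2 : A.valuation (h - (q : L)) < 1 := by
      have h1 : IsLocalRing.residue A (hA1 - cA q) = 0 := by rw [map_sub, hr1, sub_self]
      rw [IsLocalRing.residue_eq_zero_iff, A.valuation_lt_one_iff] at h1
      have h2 : ((hA1 - cA q : A) : L) = h - (q : L) := by
        rw [hhA1]
        push_cast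
        rw [hcA]
      rw [h2] at h1
      exact h1
    -- the algebraic closure
    obtain ⟨f, hf⟩ : ∃ f : A →+* AlgebraicClosure L, ∀ t : A, f t = algebraMap L _ (t : L) :=
      ⟨(algebraMap L (AlgebraicClosure L)).comp A.subtype, fun t => rfl⟩
    obtain ⟨W, hW, hloc⟩ := IsLocalRing.exists_factor_valuationRing f
    have hΩ0 : CharZero (AlgebraicClosure L) :=
      charZero_of_injective_algebraMap (algebraMap L (AlgebraicClosure L)).injective
    have hWle : ∀ t : L, A.valuation t ≤ 1 → algebraMap L (AlgebraicClosure L) t ∈ W := by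
      intro t ht
      have := hW ⟨t, (A.valuation_le_one_iff _).1 ht⟩
      rw [hf] at this
      exact this
    have hWlt : ∀ t : L, A.valuation t < 1 →
        W.valuation (algebraMap L (AlgebraicClosure L) t) < 1 := by
      intro t ht
      by_contra hcon
      rw [not_lt] at hcon
      have ht0 : t ≠ 0 := by
        rintro rfl
        rw [map_zero, map_zero] at hcon
        exact absurd hcon (not_le.2 zero_lt_one)
      have htW := hWle t ht.le
      have hinvW : (algebraMap L (AlgebraicClosure L) t)⁻¹ ∈ W := by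
        rw [← W.valuation_le_one_iff, map_inv₀]
        exact inv_le_one_of_one_le₀ hcon
      have htne : algebraMap L (AlgebraicClosure L) t ≠ 0 := by
        rw [Ne, map_eq_zero]; exact ht0
      have hu : IsUnit (f.codRestrict W.toSubring hW ⟨t, (A.valuation_le_one_iff _).1 ht.le⟩) := by
        refine isUnit_iff_exists_inv.2 ⟨⟨_, hinvW⟩, ?_⟩
        apply Subtype.ext
        show f ⟨t, _⟩ * (algebraMap L (AlgebraicClosure L) t)⁻¹ = 1
        rw [hf]
        exact mul_inv_cancel₀ htne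
      have hu2 := hloc.map_nonunit _ hu
      rw [A.valuation_eq_one_iff] at hu2
      exact ht.ne hu2
    have hQW : ∀ r : ℚ, (r : AlgebraicClosure L) ∈ W := by
      intro r
      have := hWle (r : L) ((A.valuation_le_one_iff _).2 (hQ r))
      rwa [map_ratCast] at this
    obtain ⟨x', hx'⟩ : ∃ x', x' = algebraMap L (AlgebraicClosure L) x := ⟨_, rfl⟩
    obtain ⟨z', hz'⟩ : ∃ z', z' = algebraMap L (AlgebraicClosure L) z := ⟨_, rfl⟩
    have hx'1 : 1 < W.valuation x' := by
      have h1 : A.valuation x⁻¹ < 1 := by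
        rw [map_inv₀]
        exact inv_lt_one_of_one_lt₀ hvx1
      have h2 := hWlt _ h1
      rw [map_inv₀, map_inv₀, ← hx'] at h2
      have h3 : W.valuation x' ≠ 0 := by
        rw [Valuation.ne_zero_iff, hx', Ne, map_eq_zero]
        exact hx0
      exact (inv_lt_one₀ (zero_lt_iff.2 h3)).1 h2
    -- a primitive root of unity
    have hn0 : (n : AlgebraicClosure L) ≠ 0 := by exact_mod_cast (by omega : n ≠ 0)
    obtain ⟨ζ, hζ⟩ : ∃ ζ : AlgebraicClosure L, IsPrimitiveRoot ζ n := by
      have : NeZero (n : AlgebraicClosure L) := ⟨hn0⟩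
      obtain ⟨ζ, hζ⟩ := IsAlgClosed.exists_root (Polynomial.cyclotomic n (AlgebraicClosure L))
        (Polynomial.degree_cyclotomic_pos n _ (by omega)).ne'
      exact ⟨ζ, Polynomial.isRoot_cyclotomic_iff.1 hζ⟩
    -- the second embedding
    obtain ⟨ψ₀, hψ₀0, hψ₀1⟩ : ∃ ψ₀ : MvPolynomial (Fin 2) ℚ →+* AlgebraicClosure L,
        ψ₀ (MvPolynomial.X 0) = x' ∧ ψ₀ (MvPolynomial.X 1) = ζ * z' :=
      ⟨MvPolynomial.eval₂Hom (Rat.castHom _) ![x', ζ * z'], by simp, by simp⟩
    have hψG : ψ₀ (MvPolynomial.map (Int.castRingHom ℚ) (sub a n F)) = 0 := by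
      rw [hom_map, hψ₀0, hψ₀1, aeval_sub]
      have h1 : (a : AlgebraicClosure L) * (ζ * z') ^ n = algebraMap L _ y := by
        rw [mul_pow, hζ.pow_eq_one, one_mul, hy, hz', map_mul, map_pow, map_intCast]
      rw [h1, hx']
      have h2 : (MvPolynomial.aeval (R := ℤ) ![algebraMap L (AlgebraicClosure L) x,
          algebraMap L (AlgebraicClosure L) y]) F =
          algebraMap L (AlgebraicClosure L) (MvPolynomial.aeval ![x, y] F) := by
        rw [MvPolynomial.aeval_def, MvPolynomial.aeval_def, MvPolynomial.eval₂_eq',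
          MvPolynomial.eval₂_eq', map_sum]
        apply Finset.sum_congr rfl
        intro s _
        simp [Fin.prod_univ_two]
      exact h2.trans (by rw [hF0, map_zero])
    obtain ⟨ψ, hψ⟩ : ∃ ψ : CoordRing (sub a n F) →+* AlgebraicClosure L,
        ∀ P, ψ (Ideal.Quotient.mk _ P) = ψ₀ P :=
      ⟨Ideal.Quotient.lift _ ψ₀ (fun P hP => by
        obtain ⟨c, rfl⟩ := Ideal.mem_span_singleton.1 hP
        rw [map_mul, hψG, zero_mul]), fun P => Ideal.Quotient.lift_mk _ _ _⟩
    have hψinj : Function.Injective ψ := by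
      apply inj (by omega) a ha F hF hk hdom ψ
      intro p hp
      rw [hψ, hψ₀0] at hp
      exact transc hQW x' hx'1 p hp
    obtain ⟨σ, hσ⟩ : ∃ σ : L →+* AlgebraicClosure L, ∀ r, σ (ι r) = ψ r := by
      refine ⟨IsFractionRing.lift hψinj, fun r => ?_⟩
      rw [hι]
      exact IsFractionRing.lift_algebraMap hψinj r
    have hσx : σ x = x' := by rw [hx, hσ, hψ, hψ₀0]
    have hσz : σ z = ζ * z' := by rw [hz, hσ, hψ, hψ₀1]
    have hcomap : W.comap σ = A := by
      apply (hA _).1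
      constructor
      · intro r
        rw [ValuationSubring.mem_comap, ← hι, hcast, map_ratCast]
        exact hQW r
      · refine ⟨0, ?_⟩
        rw [ValuationSubring.mem_comap, ← hι, ← hx, hσx, ← W.valuation_le_one_iff, not_le]
        exact hx'1
    have hσlt : ∀ t : L, A.valuation t < 1 → W.valuation (σ t) < 1 := by
      intro t ht
      by_contra hcon
      rw [not_lt] at hcon
      have h1 : σ t⁻¹ ∈ W := by
        rw [← W.valuation_le_one_iff, map_inv₀, map_inv₀]
        exact inv_le_one_of_one_le₀ hcon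
      rw [← ValuationSubring.mem_comap, hcomap, ← A.valuation_le_one_iff, map_inv₀] at h1
      have ht0 : A.valuation t ≠ 0 := by
        rw [Valuation.ne_zero_iff]
        rintro rfl
        rw [map_zero, map_zero] at hcon
        exact absurd hcon (not_le.2 zero_lt_one)
      have h2 := (inv_le_one₀ (zero_lt_iff.2 ht0)).1 h1
      exact absurd ht (not_lt.2 h2)
    -- the contradiction
    obtain ⟨h', hh'⟩ : ∃ h', h' = algebraMap L (AlgebraicClosure L) h := ⟨_, rfl⟩
    have hz'0 : z' ≠ 0 := by rw [hz', Ne, map_eq_zero]; exact hz0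
    have hζ0 : ζ ≠ 0 := hζ.ne_zero (by omega)
    have hσh : σ h = (ζ ^ k)⁻¹ * h' := by
      rw [hh', hh, map_div₀, map_div₀, map_pow, map_pow, map_pow, map_pow, hσx, hσz, ← hx', ← hz']
      field_simp
      rw [mul_pow, mul_assoc]
    have h1 : W.valuation (σ (h - (q : L))) < 1 := hσlt _ hr2
    have h2 : W.valuation (algebraMap L (AlgebraicClosure L) (h - (q : L))) < 1 := hWlt _ hr2
    rw [map_sub, map_ratCast, hσh] at h1
    rw [map_sub, map_ratCast, ← hh'] at h2
    have h3 : W.valuation (((ζ ^ k)⁻¹ - 1) * h') < 1 := by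
      have e1 : ((ζ ^ k)⁻¹ - 1) * h' = ((ζ ^ k)⁻¹ * h' - (q : AlgebraicClosure L)) -
        (h' - (q : AlgebraicClosure L)) := by ring
      rw [e1]
      exact Valuation.map_sub_lt _ h1 h2
    have h4 : W.valuation h' = 1 := by
      have e1 : h' = (h' - (q : AlgebraicClosure L)) + (q : AlgebraicClosure L) := by ring
      rw [e1, Valuation.map_add_eq_of_lt_right _ (by rw [val_rat hQW hq0]; exact h2),
        val_rat hQW hq0]
    rw [map_mul, h4, mul_one] at h3
    refine root_one hQW (n := n) (by omega) ((ζ ^ k)⁻¹) ?_ ?_ h3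
    · rw [inv_pow, ← pow_mul, mul_comm, pow_mul, hζ.pow_eq_one, one_pow, inv_one]
    · intro h5
      have h6 : ζ ^ k = 1 := by rw [← inv_inv (ζ ^ k), h5, inv_one]
      have h7 := (hζ.pow_eq_one_iff_dvd k).1 h6
      have h8 : n ∣ Nat.gcd k n := Nat.dvd_gcd h7 dvd_rfl
      rw [hkn] at h8
      have := Nat.le_of_dvd one_pos h8
      omega

end Pool.Agent.X95T
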