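import Pool.Agent.X95T.C

set_option autoImplicit false

open IntermediateField

namespace Pool.Agent.X95T

open Pool.Agent.Results.MP_821da1_nt.RepulsionAllCurves (len)

lemma len_eq (p : MvPolynomial (Fin 2) ℤ) (T : Finset (Fin 2 →₀ ℕ)) (h : p.support ⊆ T) :
    len p = ∑ m ∈ T, (p.coeff m).natAbs := by
  unfold len
  apply Finset.sum_subset h
  intro m _ hm
  rw [MvPolynomial.notMem_support_iff.1 hm, Int.natAbs_zero]

lemma len_zero : len 0 = 0 := by
  unfold len
  simp

lemma len_add (p q : MvPolynomial (Fin 2) ℤ) : len (p + q) ≤ len p + len q := by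
  classical
  rw [len_eq (p + q) (p.support ∪ q.support) MvPolynomial.support_add,
    len_eq p (p.support ∪ q.support) Finset.subset_union_left,
    len_eq q (p.support ∪ q.support) Finset.subset_union_right, ← Finset.sum_add_distrib]
  apply Finset.sum_le_sum
  intro m _
  rw [MvPolynomial.coeff_add]
  exact Int.natAbs_add_le _ _

lemma len_monomial (m : Fin 2 →₀ ℕ) (c : ℤ) : len (MvPolynomial.monomial m c) ≤ c.natAbs := by
  classical
  rw [len_eq _ {m} MvPolynomial.support_monomial_subset, Finset.sum_singleton,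
    MvPolynomial.coeff_monomial, if_pos rfl]

lemma sub_eq (a : ℤ) (n : ℕ) (F : MvPolynomial (Fin 2) ℤ) :
    sub a n F = ∑ s ∈ F.support, MvPolynomial.monomial
      (Finsupp.single 0 (s 0) + Finsupp.single 1 (n * s 1)) (F.coeff s * a ^ s 1) := by
  rw [sub, MvPolynomial.aeval_def, MvPolynomial.eval₂_eq']
  apply Finset.sum_congr rfl
  intro s _
  rw [Fin.prod_univ_two]
  simp only [Matrix.cons_val_zero, Matrix.cons_val_one]
  have e0 : ∀ (i : Fin 2) (m : ℕ), (Finsupp.single i m).prod
      (fun x e => (MvPolynomial.X x : MvPolynomial (Fin 2) ℤ) ^ e) = MvPolynomial.X i ^ m :=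
    fun i m => Finsupp.prod_single_index (pow_zero _)
  rw [mul_pow, ← pow_mul, MvPolynomial.algebraMap_eq, ← map_pow MvPolynomial.C, MvPolynomial.monomial_eq,
    Finsupp.prod_add_index' (fun _ => pow_zero _) (fun _ _ _ => pow_add _ _ _), e0, e0, map_mul]
  ring

lemma len_sub (a : ℤ) (ha : a ≠ 0) (n k : ℕ) (F : MvPolynomial (Fin 2) ℤ)
    (hk : ∀ s ∈ F.support, s 1 ≤ k) : len (sub a n F) ≤ a.natAbs ^ k * len F := by
  rw [sub_eq]
  refine (Finset.le_sum_of_subadditive len len_zero.le len_add _ _).trans ?_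
  rw [len, Finset.mul_sum]
  apply Finset.sum_le_sum
  intro s hs
  refine (len_monomial _ _).trans ?_
  rw [Int.natAbs_mul, Int.natAbs_pow, mul_comm]
  exact Nat.mul_le_mul_right _ (Nat.pow_le_pow_right (Int.natAbs_pos.2 ha) (hk s hs))

lemma deg_sub (a : ℤ) (n k N : ℕ) (F : MvPolynomial (Fin 2) ℤ)
    (hk : ∀ s ∈ F.support, s 0 ≤ N ∧ s 1 ≤ k) : (sub a n F).totalDegree ≤ N + n * k := by
  rw [sub_eq]
  apply MvPolynomial.totalDegree_finsetSum_le
  intro s hs
  refine (MvPolynomial.totalDegree_monomial_le _ _).trans ?_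
  rw [Finsupp.sum_add_index' (fun _ => rfl) (fun _ _ _ => rfl), Finsupp.sum_single_index rfl,
    Finsupp.sum_single_index rfl]
  exact Nat.add_le_add (hk s hs).1 (Nat.mul_le_mul_left _ (hk s hs).2)

lemma supp {N k : ℕ} (F : MvPolynomial (Fin 2) ℤ) (hF : ∀ s ∈ (F - MvPolynomial.X 1 ^ k +
      MvPolynomial.X 0 ^ N).support, k * s 0 + N * s 1 < N * k) :
    ∀ s ∈ F.support, s 0 ≤ N ∧ s 1 ≤ k := by
  classical
  intro s hs
  by_cases h1 : s = Finsupp.single 1 k
  · subst h1
    simp
  · by_cases h2 : s = Finsupp.single 0 N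
    · subst h2
      simp
    · have h3 : s ∈ (F - MvPolynomial.X 1 ^ k + MvPolynomial.X 0 ^ N).support := by
        rw [MvPolynomial.mem_support_iff] at hs ⊢
        rw [MvPolynomial.coeff_add, MvPolynomial.coeff_sub, MvPolynomial.coeff_X_pow,
          MvPolynomial.coeff_X_pow, if_neg (fun h => h1 h.symm), if_neg (fun h => h2 h.symm)]
        simpa using hs
      have h4 := hF s h3
      constructor
      · by_contra h5
        rw [not_le] at h5
        have := Nat.mul_le_mul_left k h5.le
        rw [mul_comm k N] at this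
        omega
      · by_contra h5
        rw [not_le] at h5
        have := Nat.mul_le_mul_left N h5.le
        omega

/-- Taylor expansion along the line `y = 0` -/
lemma taylor (F : MvPolynomial (Fin 2) ℤ) (x y : ℤ) : ∃ q : ℤ, MvPolynomial.eval ![x, y] F =
    MvPolynomial.eval ![x, 0] F + y * MvPolynomial.eval ![x, 0] (MvPolynomial.pderiv 1 F) +
      y ^ 2 * q := by
  induction F using MvPolynomial.induction_on with
  | C c => exact ⟨0, by simp⟩
  | add p q hp hq =>
    obtain ⟨u, hu⟩ := hp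
    obtain ⟨w, hw⟩ := hq
    refine ⟨u + w, ?_⟩
    rw [map_add, map_add, map_add, map_add, hu, hw]
    ring
  | mul_X p i hp =>
    obtain ⟨u, hu⟩ := hp
    fin_cases i
    · refine ⟨u * x, ?_⟩
      rw [map_mul, map_mul, hu, Derivation.leibniz]
      simp [MvPolynomial.pderiv_X]
      ring
    · refine ⟨MvPolynomial.eval ![x, 0] (MvPolynomial.pderiv 1 p) + y * u, ?_⟩
      rw [map_mul, map_mul, hu, Derivation.leibniz]
      simp [MvPolynomial.pderiv_X]
      ring

lemma eval_line (P : MvPolynomial (Fin 2) ℤ) (x : ℤ) :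
    (MvPolynomial.aeval ![Polynomial.X, (0 : Polynomial ℤ)] P).eval x =
      MvPolynomial.eval ![x, 0] P := by
  have h : ((Polynomial.evalRingHom x).comp
      ((MvPolynomial.aeval ![Polynomial.X, (0 : Polynomial ℤ)] :
        MvPolynomial (Fin 2) ℤ →ₐ[ℤ] Polynomial ℤ) : MvPolynomial (Fin 2) ℤ →+* Polynomial ℤ)) =
      MvPolynomial.eval ![x, 0] := by
    apply MvPolynomial.ringHom_ext
    · intro r; simp
    · intro i
      fin_cases i
      · simp
      · simp
  exact DFunLike.congr_fun h P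

/-- the arithmetic of an integer point near the line `y = 0` -/
lemma split {n : ℕ} (F : MvPolynomial (Fin 2) ℤ) (D U V : Polynomial ℤ) (b : ℤ)
    (h1 : MvPolynomial.aeval ![Polynomial.X, (0 : Polynomial ℤ)] F = - D ^ n)
    (h2 : U * D + V * MvPolynomial.aeval ![Polynomial.X, (0 : Polynomial ℤ)]
      (MvPolynomial.pderiv 1 F) = Polynomial.C b) (x y : ℤ)
    (h0 : MvPolynomial.eval ![x, y] F = 0) :
    ∃ e u v w : ℤ, y * e = (D.eval x) ^ n ∧ u * D.eval x + v * (e + y * w) = b := by
  obtain ⟨q, hq⟩ := taylor F x y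
  have e1 := congrArg (Polynomial.eval x) h1
  have e2 := congrArg (Polynomial.eval x) h2
  rw [eval_line, Polynomial.eval_neg, Polynomial.eval_pow] at e1
  rw [Polynomial.eval_add, Polynomial.eval_mul, Polynomial.eval_mul, eval_line,
    Polynomial.eval_C] at e2
  refine ⟨MvPolynomial.eval ![x, 0] (MvPolynomial.pderiv 1 F) + y * q, U.eval x, V.eval x, - q,
    ?_, ?_⟩
  · rw [h0, e1] at hq
    linear_combination -hq
  · rw [← e2]
    ring

lemma pow_of_coprime {n : ℕ} (y e dx u v w b : ℤ) (h1 : y * e = dx ^ n)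
    (h2 : u * dx + v * (e + y * w) = b) (hb : IsCoprime y b) :
    ∃ z : ℤ, y = z ^ n ∨ y = -z ^ n := by
  have h3 : IsCoprime y e := by
    have hbn : IsCoprime y (b ^ n) := hb.pow_right
    obtain ⟨t, ht⟩ : (v * (e + y * w)) ∣ b ^ n - (u * dx) ^ n := by
      have := sub_dvd_pow_sub_pow b (u * dx) n
      rwa [← h2, add_sub_cancel_left, h2] at this
    have h5 : b ^ n = v * t * e + y * (v * w * t + u ^ n * e) := by
      have : (u * dx) ^ n = u ^ n * (y * e) := by rw [mul_pow, h1]
      linear_combination ht + this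
    rw [h5, IsCoprime.add_mul_left_right_iff] at hbn
    exact hbn.of_mul_right_right
  obtain ⟨z, hz⟩ := exists_associated_pow_of_mul_eq_pow' h3 h1
  refine ⟨z, ?_⟩
  rcases Int.associated_iff.1 hz with h | h
  · exact Or.inl h.symm
  · right
    rw [h, neg_neg]

end Pool.Agent.X95T
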