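import Pool.Agent.X95T.E

set_option autoImplicit false

open IntermediateField

namespace Pool.Agent.X95T

/-- an integer whose valuations outside `S` are divisible by `p` is a `p`-th power up to a bounded
factor -/
lemma free_part {p : ℕ} (hp : p.Prime) (S : Finset ℕ) (y : ℤ) (hy : y ≠ 0)
    (h : ∀ q : ℕ, q.Prime → q ∉ S → p ∣ y.natAbs.factorization q) :
    ∃ a z : ℤ, a ≠ 0 ∧ a.natAbs ≤ ∏ q ∈ S, (q + 1) ^ p ∧ y = a * z ^ p := by
  have hy0 : y.natAbs ≠ 0 := Int.natAbs_ne_zero.2 hy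
  obtain ⟨A, hA⟩ : ∃ A : ℕ, A = ∏ q ∈ y.natAbs.primeFactors, q ^ (y.natAbs.factorization q % p) :=
    ⟨_, rfl⟩
  obtain ⟨Z, hZ⟩ : ∃ Z : ℕ, Z = ∏ q ∈ y.natAbs.primeFactors, q ^ (y.natAbs.factorization q / p) :=
    ⟨_, rfl⟩
  have hAZ : y.natAbs = A * Z ^ p := by
    rw [hA, hZ, ← Finset.prod_pow, ← Finset.prod_mul_distrib]
    conv_lhs => rw [← Nat.prod_factorization_pow_eq_self hy0]
    rw [Finsupp.prod, Nat.support_factorization]
    apply Finset.prod_congr rfl
    intro q _
    rw [← pow_mul, ← pow_add]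
    congr 1
    rw [mul_comm (_ / p) p]
    exact (Nat.mod_add_div _ _).symm
  have hA0 : A ≠ 0 := by
    rintro rfl
    rw [zero_mul] at hAZ
    exact hy0 hAZ
  have hAle : A ≤ ∏ q ∈ S, (q + 1) ^ p := by
    classical
    have h1 : A = ∏ q ∈ y.natAbs.primeFactors ∩ S, q ^ (y.natAbs.factorization q % p) := by
      rw [hA]
      symm
      apply Finset.prod_subset Finset.inter_subset_left
      intro q hq hqS
      have hqp := Nat.prime_of_mem_primeFactors hq
      have hqS' : q ∉ S := fun h' => hqS (Finset.mem_inter.2 ⟨hq, h'⟩)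
      rw [Nat.mod_eq_zero_of_dvd (h q hqp hqS'), pow_zero]
    rw [h1]
    calc ∏ q ∈ y.natAbs.primeFactors ∩ S, q ^ (y.natAbs.factorization q % p)
        ≤ ∏ q ∈ y.natAbs.primeFactors ∩ S, (q + 1) ^ p := by
          apply Finset.prod_le_prod' 
          intro q _
          exact (Nat.pow_le_pow_left (Nat.le_succ q) _).trans
            (Nat.pow_le_pow_right (Nat.succ_pos q) (Nat.mod_lt _ hp.pos).le)
      _ ≤ ∏ q ∈ S, (q + 1) ^ p := by
          apply Finset.prod_le_prod_of_subset_of_one_le' Finset.inter_subset_right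
          intro q _ _
          exact Nat.one_le_pow _ _ (Nat.succ_pos q)
  rcases Int.natAbs_eq y with h1 | h1
  · refine ⟨(A : ℤ), (Z : ℤ), by exact_mod_cast hA0, by simpa using hAle, ?_⟩
    rw [h1, hAZ]
    push_cast
    ring
  · refine ⟨-(A : ℤ), (Z : ℤ), by simpa using hA0, by simpa using hAle, ?_⟩
    rw [h1, hAZ]
    push_cast
    ring

lemma val_dvd {p : ℕ} (hp : p.Prime) (y e dx u v w b : ℤ) (h1 : y * e = dx ^ p)
    (h2 : u * dx + v * (e + y * w) = b) (hy : y ≠ 0) (q : ℕ) (hq : q.Prime) (hqb : ¬ (q : ℤ) ∣ b) :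
    p ∣ y.natAbs.factorization q := by
  by_cases hqy : (q : ℤ) ∣ y
  · have hqe : ¬ (q : ℤ) ∣ e := by
      intro h
      apply hqb
      have hqZ : Prime (q : ℤ) := Nat.prime_iff_prime_int.1 hq
      have h3 : (q : ℤ) ∣ dx := hqZ.dvd_of_dvd_pow (h1 ▸ hqy.mul_right e)
      rw [← h2]
      exact dvd_add (h3.mul_left u) (Dvd.dvd.mul_left (dvd_add h (hqy.mul_right w)) v)
    have he : e ≠ 0 := by
      rintro rfl
      exact hqe (dvd_zero _)
    have h3 := congrArg Int.natAbs h1
    rw [Int.natAbs_mul, Int.natAbs_pow] at h3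
    have h4 : (y.natAbs * e.natAbs).factorization q = (dx.natAbs ^ p).factorization q := by rw [h3]
    rw [Nat.factorization_mul (Int.natAbs_ne_zero.2 hy) (Int.natAbs_ne_zero.2 he),
      Nat.factorization_pow, Finsupp.add_apply, Finsupp.smul_apply, smul_eq_mul] at h4
    have h5 : e.natAbs.factorization q = 0 := by
      apply Nat.factorization_eq_zero_of_not_dvd
      intro h
      exact hqe (Int.natCast_dvd.2 h)
    rw [h5, add_zero] at h4
    exact ⟨_, h4⟩
  · have h5 : y.natAbs.factorization q = 0 := by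
      apply Nat.factorization_eq_zero_of_not_dvd
      intro h
      exact hqy (Int.natCast_dvd.2 h)
    rw [h5]
    exact dvd_zero _

/-- the degree of an irrational real `p`-th root -/
lemma deg_root {p k : ℕ} (hp : p.Prime) (hp2 : p ≠ 2) (a : ℤ) (θ : ℝ)
    (hθ : θ ^ p = (a : ℝ) ^ k) (hq : ∀ q : ℚ, (q : ℝ) ≠ θ) :
    3 ≤ Module.finrank ℚ ℚ⟮θ⟯ := by
  have hirr : Irreducible (Polynomial.X ^ p - Polynomial.C ((a : ℚ) ^ k) : Polynomial ℚ) := by
    rw [X_pow_sub_C_irreducible_iff_of_prime hp]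
    intro r hr
    have hodd : Odd p := hp.odd_of_ne_two hp2
    have h1 : ((r : ℝ)) ^ p = θ ^ p := by
      rw [hθ]
      exact_mod_cast hr
    exact hq r (hodd.strictMono_pow.injective h1)
  have hmonic : (Polynomial.X ^ p - Polynomial.C ((a : ℚ) ^ k) : Polynomial ℚ).Monic :=
    Polynomial.monic_X_pow_sub_C _ hp.ne_zero
  have hroot : Polynomial.aeval θ (Polynomial.X ^ p - Polynomial.C ((a : ℚ) ^ k) : Polynomial ℚ)
      = 0 := by
    simp [hθ]
  have hmin := minpoly.eq_of_irreducible_of_monic hirr hroot hmonic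
  have hint : IsIntegral ℚ θ := ⟨_, hmonic, by rw [← Polynomial.aeval_def]; exact hroot⟩
  rw [IntermediateField.adjoin.finrank hint, ← hmin, Polynomial.natDegree_X_pow_sub_C]
  have := hp.two_le
  omega

end Pool.Agent.X95T
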