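import Pool.Agent.X95T.E

set_option autoImplicit false

namespace Pool.Agent.X95T

open Polynomial in
lemma no_root (a a1 a3 : ℚ) (ha : a ≠ 0) (h : a1 ^ 3 ≠ 27 * a3) (r : ℚ[X])
    (hr : r ^ 3 = C (a * a1) * X ^ 3 * r + (C (a * a3) * X ^ 3 + C (a ^ 2) * X ^ 6)) : False := by
  have hdvd : (X : ℚ[X]) ∣ r := by
    apply Polynomial.prime_X.dvd_of_dvd_pow (n := 3)
    rw [hr]
    refine ⟨C (a * a1) * X ^ 2 * r + (C (a * a3) * X ^ 2 + C (a ^ 2) * X ^ 5), ?_⟩
    ring
  obtain ⟨s, rfl⟩ := hdvd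
  have hs : s ^ 3 = C (a * a1) * X * s + (C (a * a3) + C (a ^ 2) * X ^ 3) := by
    have hX : (X : ℚ[X]) ^ 3 ≠ 0 := pow_ne_zero _ X_ne_zero
    apply mul_left_cancel₀ hX
    linear_combination hr
  have hdeg : s.natDegree ≤ 1 := by
    by_contra hcon
    rw [not_le] at hcon
    have h1 : (s ^ 3).natDegree = 3 * s.natDegree := natDegree_pow s 3
    have h2 : (C (a * a1) * X * s + (C (a * a3) + C (a ^ 2) * X ^ 3)).natDegree ≤
        max (1 + s.natDegree) 3 := by
      refine (natDegree_add_le _ _).trans (max_le_max ?_ ?_)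
      · refine natDegree_mul_le.trans (Nat.add_le_add_right ?_ _)
        exact (natDegree_C_mul_le _ _).trans natDegree_X_le
      · refine (natDegree_add_le _ _).trans (max_le ?_ ?_)
        · rw [natDegree_C]; omega
        · exact natDegree_C_mul_X_pow_le _ _
    rw [← hs, h1] at h2
    have : max (1 + s.natDegree) 3 < 3 * s.natDegree := by
      apply max_lt <;> omega
    omega
  obtain ⟨α, β, rfl⟩ := exists_eq_X_add_C_of_natDegree_le_one hdeg
  have e0 := congrArg (eval 0) hs
  have e1 := congrArg (eval 1) hs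
  have e2 := congrArg (eval (-1)) hs
  have e3 := congrArg (eval 2) hs
  simp only [eval_pow, eval_add, eval_mul, eval_C, eval_X] at e0 e1 e2 e3
  have k1 : α * (3 * α * β - a * a1) = 0 := by linear_combination (e1 + e2) / 2 - e0
  have k2 : β * (3 * α * β - a * a1) = 0 := by
    linear_combination (-1 / 6) * (e3 - e0 - 4 * e1 + 4 * e2 - 4 * k1 )
  have k3 : α ^ 3 = a ^ 2 := by linear_combination (e1 - e2) / 2 - k2
  have hα : α ≠ 0 := by
    rintro rfl
    apply ha
    have : a ^ 2 = 0 := by rw [← k3]; ring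
    exact pow_eq_zero_iff (two_ne_zero) |>.1 this
  have k4 : 3 * α * β - a * a1 = 0 := (mul_eq_zero.1 k1).resolve_left hα
  have k5 : a * a1 = 3 * α * β := by linear_combination -k4
  apply h
  have k6 : a ^ 3 * (a1 ^ 3 - 27 * a3) = 0 := by
    have : (a * a1) ^ 3 = 27 * α ^ 3 * β ^ 3 := by rw [k5]; ring
    have e0' : β ^ 3 = a * a3 := by linear_combination e0
    rw [k3, e0'] at this
    linear_combination this
  have := (mul_eq_zero.1 k6).resolve_left (pow_ne_zero _ ha)
  linear_combination this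

/-- the cubic of a curve with a 3-torsion point -/
noncomputable def cub (a1 a3 : ℤ) : MvPolynomial (Fin 2) ℤ :=
  MvPolynomial.X 1 ^ 2 + MvPolynomial.C a1 * (MvPolynomial.X 0 * MvPolynomial.X 1) +
    MvPolynomial.C a3 * MvPolynomial.X 1 - MvPolynomial.X 0 ^ 3

open Polynomial in
lemma cubic_irr {R : Type} [CommRing R] [IsDomain R] (p q : R)
    (h : ∀ r : R, r ^ 3 ≠ p * r + q) : Irreducible (X ^ 3 - (C p * X + C q) : R[X]) := by
  have hlow : (C p * X + C q : R[X]).degree < ((3 : ℕ) : WithBot ℕ) := by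
    refine lt_of_le_of_lt (degree_add_le _ _) (max_lt ?_ ?_)
    · exact lt_of_le_of_lt (degree_C_mul_X_le _) (by norm_num)
    · exact lt_of_le_of_lt degree_C_le (by norm_num)
  have hmon : (X ^ 3 - (C p * X + C q) : R[X]).Monic := monic_X_pow_sub hlow
  have hdeg : (X ^ 3 - (C p * X + C q) : R[X]).natDegree = 3 := by
    rw [natDegree_sub_eq_left_of_natDegree_lt]
    · exact natDegree_X_pow 3
    · rw [natDegree_X_pow]
      exact lt_of_le_of_lt natDegree_linear_le (by norm_num)
  rw [hmon.irreducible_iff_roots_eq_zero_of_degree_le_three (by omega) (by omega)]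
  rw [Multiset.eq_zero_iff_forall_notMem]
  intro r hr
  rw [mem_roots hmon.ne_zero, IsRoot.def] at hr
  simp only [eval_add, eval_sub, eval_mul, eval_pow, eval_X, eval_C] at hr
  exact h r (by linear_combination hr)

lemma irr_cub (a a1 a3 : ℤ) (ha : a ≠ 0) (h : a1 ^ 3 ≠ 27 * a3) :
    Irreducible (MvPolynomial.map (Int.castRingHom ℚ) (sub a 3 (cub a1 a3))) := by
  obtain ⟨y, hy⟩ : ∃ y : MvPolynomial (Fin 1) ℚ, y = MvPolynomial.X 0 := ⟨_, rfl⟩
  have e1 : MvPolynomial.finSuccEquiv ℚ 1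
      (MvPolynomial.map (Int.castRingHom ℚ) (sub a 3 (cub a1 a3))) =
      - (Polynomial.X ^ 3 - (Polynomial.C (MvPolynomial.C ((a : ℚ) * a1) * y ^ 3) * Polynomial.X +
        Polynomial.C (MvPolynomial.C ((a : ℚ) * a3) * y ^ 3 +
          MvPolynomial.C ((a : ℚ) ^ 2) * y ^ 6))) := by
    have h1 : (1 : Fin 2) = Fin.succ 0 := rfl
    rw [sub, cub]
    simp only [map_add, map_sub, map_mul, map_pow, MvPolynomial.aeval_X, MvPolynomial.map_X,
      MvPolynomial.map_C, Matrix.cons_val_zero, Matrix.cons_val_one, MvPolynomial.algHom_C,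
      MvPolynomial.algebraMap_eq, MvPolynomial.finSuccEquiv_X_zero, eq_intCast, map_intCast]
    rw [h1, MvPolynomial.finSuccEquiv_X_succ, ← hy]
    ring
  rw [← MulEquiv.irreducible_iff (MvPolynomial.finSuccEquiv ℚ 1), e1]
  have hneg : ∀ P : Polynomial (MvPolynomial (Fin 1) ℚ), Irreducible P → Irreducible (-P) := by
    intro P hP
    have hn : Associated (-P) P := (Associated.refl P).neg_left
    exact hn.irreducible_iff.2 hP
  apply hneg
  apply cubic_irr
  intro r hr
  have h2 := congrArg (MvPolynomial.aeval (R := ℚ) (fun _ : Fin 1 => (Polynomial.X : Polynomial ℚ))) hr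
  rw [hy] at h2
  refine no_root (a : ℚ) a1 a3 (by exact_mod_cast ha) (by exact_mod_cast h)
    (MvPolynomial.aeval (fun _ : Fin 1 => (Polynomial.X : Polynomial ℚ)) r) ?_
  simp only [map_add, map_mul, map_pow, MvPolynomial.aeval_X,
    MvPolynomial.algHom_C, Polynomial.algebraMap_eq] at h2 ⊢
  linear_combination h2

end Pool.Agent.X95T
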