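import Pool.Agent.X95T.G
import Pool.Agent.Results.MP_821da1_nt.TangentLine
import Pool.Agent.Results.MP_821da1_nt.TangentLineUniform

set_option autoImplicit false

namespace Pool.Agent.X95T

open Pool.Agent.Results.MP_821da1_nt.RepulsionAllCurves (len)

lemma len_cub (a1 a3 : ℤ) : len (cub a1 a3) ≤ 2 + a1.natAbs + a3.natAbs := by
  have e : cub a1 a3 = MvPolynomial.monomial (Finsupp.single 1 2) 1 +
      MvPolynomial.monomial (Finsupp.single 0 1 + Finsupp.single 1 1) a1 +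
      MvPolynomial.monomial (Finsupp.single 1 1) a3 +
      MvPolynomial.monomial (Finsupp.single 0 3) (-1) := by
    rw [cub, MvPolynomial.X_pow_eq_monomial, ← MvPolynomial.C_mul_X_eq_monomial (s := (1 : Fin 2)) (a := a3),
      MvPolynomial.X_pow_eq_monomial, map_neg, ← sub_eq_add_neg]
    congr 3
    rw [MvPolynomial.X, MvPolynomial.X, MvPolynomial.monomial_mul, MvPolynomial.C_mul_monomial]
    simp
  rw [e]
  have h1 := len_monomial (Finsupp.single 1 2) 1
  have h2 := len_monomial (Finsupp.single 0 1 + Finsupp.single 1 1) a1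
  have h3 := len_monomial (Finsupp.single 1 1) a3
  have h4 := len_monomial (Finsupp.single 0 3) (-1)
  have h5 := len_add (MvPolynomial.monomial (Finsupp.single 1 2) 1 +
      MvPolynomial.monomial (Finsupp.single 0 1 + Finsupp.single 1 1) a1 +
      MvPolynomial.monomial (Finsupp.single 1 1) a3) (MvPolynomial.monomial (Finsupp.single 0 3) (-1))
  have h6 := len_add (MvPolynomial.monomial (Finsupp.single 1 2) 1 +
      MvPolynomial.monomial (Finsupp.single 0 1 + Finsupp.single 1 1) a1)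
      (MvPolynomial.monomial (Finsupp.single 1 1) a3)
  have h7 := len_add (MvPolynomial.monomial (Finsupp.single 1 2) 1)
      (MvPolynomial.monomial (Finsupp.single 0 1 + Finsupp.single 1 1) a1)
  simp only [Int.natAbs_one, Int.natAbs_neg] at h1 h4
  omega

lemma eval_cub (a1 a3 x y : ℤ) : MvPolynomial.eval ![x, y] (cub a1 a3) =
    y ^ 2 + a1 * (x * y) + a3 * y - x ^ 3 := by
  simp [cub]

lemma weights_cub (a1 a3 : ℤ) : ∀ s ∈ (cub a1 a3 - MvPolynomial.X 1 ^ 2 +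
    MvPolynomial.X 0 ^ (3 * 1)).support, 2 * s 0 + (3 * 1) * s 1 < (3 * 1) * 2 := by
  classical
  intro s hs
  have e : cub a1 a3 - MvPolynomial.X 1 ^ 2 + MvPolynomial.X 0 ^ (3 * 1) =
      MvPolynomial.monomial (Finsupp.single 0 1 + Finsupp.single 1 1) a1 +
      MvPolynomial.monomial (Finsupp.single 1 1) a3 := by
    rw [cub, ← MvPolynomial.C_mul_X_eq_monomial (s := (1 : Fin 2)) (a := a3)]
    have : MvPolynomial.monomial (Finsupp.single 0 1 + Finsupp.single 1 1) a1 =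
        MvPolynomial.C a1 * (MvPolynomial.X 0 * MvPolynomial.X (1 : Fin 2)) := by
      rw [MvPolynomial.X, MvPolynomial.X, MvPolynomial.monomial_mul, MvPolynomial.C_mul_monomial]
      simp
    rw [this, mul_one]
    ring
  rw [e] at hs
  have h1 := MvPolynomial.support_add hs
  rw [Finset.mem_union] at h1
  rcases h1 with h | h
  · have h2 := MvPolynomial.support_monomial_subset h
    rw [Finset.mem_singleton] at h2
    subst h2
    simp
  · have h2 := MvPolynomial.support_monomial_subset h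
    rw [Finset.mem_singleton] at h2
    subst h2
    simp

lemma line_cub (a1 a3 : ℤ) :
    MvPolynomial.aeval ![Polynomial.X, (0 : Polynomial ℤ)] (cub a1 a3) = - Polynomial.X ^ 3 := by
  simp [cub]

lemma deriv_cub (a1 a3 : ℤ) :
    MvPolynomial.aeval ![Polynomial.X, (0 : Polynomial ℤ)] (MvPolynomial.pderiv 1 (cub a1 a3)) =
      Polynomial.C a1 * Polynomial.X + Polynomial.C a3 := by
  rw [cub]
  simp only [map_add, map_sub, Derivation.leibniz, Derivation.leibniz_pow, MvPolynomial.pderiv_X,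
    MvPolynomial.pderiv_C]
  simp

/-- the discriminant of a curve with a point of order three -/
lemma disc (A B u v l : ℤ) (hT : v ^ 2 = u ^ 3 + A * u + B) (h2 : 2 * v * l = 3 * u ^ 2 + A)
    (h3 : l ^ 2 = 3 * u) : 4 * A ^ 3 + 27 * B ^ 2 = v ^ 3 * (27 * v - 4 * l ^ 3) := by
  have hA : A = 2 * v * l - 3 * u ^ 2 := by linear_combination -h2
  have hB : B = v ^ 2 - 2 * v * l * u + 2 * u ^ 3 := by
    rw [hA] at hT
    linear_combination -hT
  have e1 : l ^ 3 = 3 * u * l := by rw [pow_succ, h3]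
  have e2 : 4 * A ^ 3 + 27 * B ^ 2 = 27 * v ^ 4 - 12 * u * v ^ 3 * l := by
    rw [hA, hB]
    linear_combination (32 * v ^ 3 * l - 144 * v ^ 2 * u ^ 2 + 108 * v ^ 2 * u ^ 2) * h3
  rw [e2, e1]
  ring

lemma sizes (A B u v l : ℤ) (hD : 4 * A ^ 3 + 27 * B ^ 2 ≠ 0) (hT : v ^ 2 = u ^ 3 + A * u + B)
    (h2 : 2 * v * l = 3 * u ^ 2 + A) (h3 : l ^ 2 = 3 * u) (H : ℕ)
    (hH : H = max A.natAbs B.natAbs) : 1 ≤ H ∧ v.natAbs ≤ 31 * H ^ 3 ∧
      l.natAbs ≤ 300 * H ^ 3 ∧ u.natAbs ≤ (300 * H ^ 3) ^ 2 := by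
  have hH1 : 1 ≤ H := by
    by_contra h
    have hA : A = 0 := by
      have := le_max_left A.natAbs B.natAbs
      omega
    have hB : B = 0 := by
      have := le_max_right A.natAbs B.natAbs
      omega
    apply hD
    rw [hA, hB]
    norm_num
  have hA : A.natAbs ≤ H := by rw [hH]; exact le_max_left _ _
  have hB : B.natAbs ≤ H := by rw [hH]; exact le_max_right _ _
  have hDH : (4 * A ^ 3 + 27 * B ^ 2).natAbs ≤ 31 * H ^ 3 := by
    refine (Int.natAbs_add_le _ _).trans ?_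
    rw [Int.natAbs_mul, Int.natAbs_mul, Int.natAbs_pow, Int.natAbs_pow]
    have e1 : A.natAbs ^ 3 ≤ H ^ 3 := Nat.pow_le_pow_left hA 3
    have e2 : B.natAbs ^ 2 ≤ H ^ 3 :=
      (Nat.pow_le_pow_left hB 2).trans (Nat.pow_le_pow_right hH1 (by norm_num))
    have e3 : (4 : ℤ).natAbs = 4 := rfl
    have e4 : (27 : ℤ).natAbs = 27 := rfl
    rw [e3, e4]
    omega
  rw [disc A B u v l hT h2 h3] at hD hDH
  have hv0 : v ≠ 0 := by
    rintro rfl
    apply hD
    ring
  have hw0 : 27 * v - 4 * l ^ 3 ≠ 0 := fun h => hD (by rw [h, mul_zero])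
  rw [Int.natAbs_mul, Int.natAbs_pow] at hDH
  have hv1 : 1 ≤ v.natAbs := Int.natAbs_pos.2 hv0
  have hw1 : 1 ≤ (27 * v - 4 * l ^ 3).natAbs := Int.natAbs_pos.2 hw0
  have hv : v.natAbs ≤ 31 * H ^ 3 := by
    calc v.natAbs = v.natAbs * 1 := (mul_one _).symm
      _ ≤ v.natAbs ^ 3 * (27 * v - 4 * l ^ 3).natAbs :=
          Nat.mul_le_mul (Nat.le_self_pow (by norm_num) _) hw1
      _ ≤ _ := hDH
  have hw : (27 * v - 4 * l ^ 3).natAbs ≤ 31 * H ^ 3 :=
    (Nat.le_mul_of_pos_left _ (by positivity)).trans hDH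
  have hl3 : l.natAbs ^ 3 ≤ 300 * H ^ 3 := by
    rw [← Int.natAbs_pow]
    omega
  have hl : l.natAbs ≤ 300 * H ^ 3 := (Nat.le_self_pow (by norm_num) _).trans hl3
  refine ⟨hH1, hv, hl, ?_⟩
  have e1 : l.natAbs ^ 2 = 3 * u.natAbs := by
    rw [← Int.natAbs_pow, h3, Int.natAbs_mul]
    rfl
  have e2 : l.natAbs ^ 2 ≤ (300 * H ^ 3) ^ 2 := Nat.pow_le_pow_left hl 2
  omega

lemma final_bound {C c : ℕ} {A B u v l x y : ℤ} (hD : 4 * A ^ 3 + 27 * B ^ 2 ≠ 0)
    (hT : v ^ 2 = u ^ 3 + A * u + B) (h2 : 2 * v * l = 3 * u ^ 2 + A) (h3 : l ^ 2 = 3 * u)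
    (hXY : max (x - u).natAbs (y - v - l * (x - u)).natAbs ≤
      (c * len (cub (2 * l) (2 * v))) ^ C) :
    max x.natAbs y.natAbs ≤
      (2000 * (c + 1)) ^ (C + 3) * (max A.natAbs B.natAbs) ^ (3 * (C + 3)) := by
  obtain ⟨H, hH⟩ : ∃ H : ℕ, H = max A.natAbs B.natAbs := ⟨_, rfl⟩
  rw [← hH]
  obtain ⟨hH1, hv, hl, hu⟩ := sizes A B u v l hD hT h2 h3 H hH
  obtain ⟨T, hT⟩ : ∃ T : ℕ, T = H ^ 3 := ⟨_, rfl⟩
  have hT1 : 1 ≤ T := by rw [hT]; exact Nat.one_le_pow _ _ hH1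
  rw [← hT] at hv hl hu
  obtain ⟨W, hW⟩ : ∃ W : ℕ, W = 2000 * (c + 1) * T := ⟨_, rfl⟩
  have hlen : len (cub (2 * l) (2 * v)) ≤ 2000 * T := by
    refine (len_cub _ _).trans ?_
    rw [Int.natAbs_mul, Int.natAbs_mul]
    have : (2 : ℤ).natAbs = 2 := rfl
    rw [this]
    omega
  have hcW : c * len (cub (2 * l) (2 * v)) ≤ W := by
    rw [hW]
    calc c * len (cub (2 * l) (2 * v)) ≤ (c + 1) * (2000 * T) :=
          Nat.mul_le_mul (Nat.le_succ c) hlen
      _ = _ := by ring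
  have hTW : 2000 * T ≤ W := by
    rw [hW]
    calc 2000 * T = 2000 * 1 * T := by ring
      _ ≤ 2000 * (c + 1) * T := Nat.mul_le_mul_right _ (Nat.mul_le_mul_left _ (by omega))
  have hXY' := hXY.trans (Nat.pow_le_pow_left hcW C)
  have hX : (x - u).natAbs ≤ W ^ C := (le_max_left _ _).trans hXY'
  have hY : (y - v - l * (x - u)).natAbs ≤ W ^ C := (le_max_right _ _).trans hXY'
  have hW1 : 1 ≤ W := by omega
  have hWC : 1 ≤ W ^ C := Nat.one_le_pow _ _ hW1
  have huW : u.natAbs ≤ W ^ 2 := hu.trans (Nat.pow_le_pow_left (by omega) 2)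
  have e1 : (2000 * (c + 1)) ^ (C + 3) * H ^ (3 * (C + 3)) = W ^ (C + 3) := by
    rw [hW, hT, mul_pow (2000 * (c + 1)) (H ^ 3), ← pow_mul]
  rw [e1]
  have e2 : W ^ (C + 3) = W ^ C * (W * (W * W)) := by ring
  have e3 : 3 * (W ^ C * (W * W)) ≤ W ^ (C + 3) := by
    rw [e2]
    have : 3 ≤ W := by omega
    calc 3 * (W ^ C * (W * W)) ≤ W * (W ^ C * (W * W)) := Nat.mul_le_mul_right _ this
      _ = _ := by ring
  have hWW : W ≤ W * W := Nat.le_mul_of_pos_left _ hW1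
  have hC1 : W ^ C ≤ W ^ C * (W * W) := Nat.le_mul_of_pos_right _ (Nat.mul_pos hW1 hW1)
  have hC2 : W * W ≤ W ^ C * (W * W) := Nat.le_mul_of_pos_left _ hWC
  have hC3 : W * W ^ C ≤ W ^ C * (W * W) := by
    rw [mul_comm W (W ^ C)]
    exact Nat.mul_le_mul_left _ hWW
  apply max_le
  · have : x = (x - u) + u := by ring
    rw [this]
    refine (Int.natAbs_add_le _ _).trans ?_
    rw [pow_two] at huW
    omega
  · have : y = (y - v - l * (x - u)) + v + l * (x - u) := by ring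
    rw [this]
    refine (Int.natAbs_add_le _ _).trans ?_
    have h5 := Int.natAbs_add_le (y - v - l * (x - u)) v
    have h6 : (l * (x - u)).natAbs ≤ W * W ^ C := by
      rw [Int.natAbs_mul]
      exact Nat.mul_le_mul (by omega) hX
    omega

end Pool.Agent.X95T
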