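import Pool.Agent.X95T.Z3

set_option autoImplicit false

namespace Pool.Agent.X95T

section

open Polynomial

/-- the quadratic extension of the field of rational functions -/
lemma quad_irr (f : ℚ[X]) (hd : Odd f.natDegree) :
    Irreducible (X ^ 2 - C (algebraMap ℚ[X] (FractionRing ℚ[X]) f) : (FractionRing ℚ[X])[X]) := by
  rw [X_pow_sub_C_irreducible_iff_of_prime Nat.prime_two]
  intro b hb
  have hint : IsIntegral ℚ[X] (b ^ 2) := by
    rw [hb]
    exact isIntegral_algebraMap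
  obtain ⟨g, hg⟩ := IsIntegrallyClosed.exists_algebraMap_eq_of_isIntegral_pow (R := ℚ[X]) two_pos hint
  rw [← hg, ← map_pow] at hb
  have h1 := IsFractionRing.injective ℚ[X] (FractionRing ℚ[X]) hb
  rw [← h1, natDegree_pow] at hd
  rw [Nat.odd_iff] at hd
  omega

/-- In a hyperelliptic function field `A + B s` is not a `p`-th power up to a constant, if its norm
is the `p`-th power of a polynomial of small degree. -/
lemma not_pow {p : ℕ} (hp : p.Prime) (f A B u : ℚ[X]) (e a : ℚ) (he : e ≠ 0)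
    (ha : a ≠ 0) (hsq : Squarefree f) (hd : Odd f.natDegree) (hB : B ≠ 0)
    (hr : u.natDegree < f.natDegree) (h : A ^ 2 - f * B ^ 2 = C e * u ^ p)
    (K : Type) [Field K] [Algebra (FractionRing ℚ[X]) K] [Algebra ℚ[X] K]
    [IsScalarTower ℚ[X] (FractionRing ℚ[X]) K] (s : K) (hs : s ^ 2 = algebraMap ℚ[X] K f)
    (σ : K →+* K) (hσ : ∀ g : FractionRing ℚ[X], σ (algebraMap _ K g) = algebraMap _ K g)
    (hσs : σ s = -s)
    (hbasis : ∀ w : K, ∃ P T : FractionRing ℚ[X],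
      w = algebraMap _ K P + algebraMap _ K T * s)
    (hind : ∀ P T : FractionRing ℚ[X], algebraMap _ K P + algebraMap _ K T * s = 0 → P = 0 ∧ T = 0)
    (w : K) (hw : w ^ p = algebraMap ℚ[X] K (C a⁻¹) *
      (algebraMap ℚ[X] K A + algebraMap ℚ[X] K B * s)) : False := by
  obtain ⟨P, T, rfl⟩ := hbasis w
  have hsint : IsIntegral ℚ[X] s := by
    apply IsIntegral.of_pow two_pos
    rw [hs]
    exact isIntegral_algebraMap
  obtain ⟨w, hwdef⟩ : ∃ w : K, w = algebraMap (FractionRing ℚ[X]) K P +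
    algebraMap (FractionRing ℚ[X]) K T * s := ⟨_, rfl⟩
  rw [← hwdef] at hw
  have hσQ : ∀ g : ℚ[X], σ (algebraMap ℚ[X] K g) = algebraMap ℚ[X] K g := by
    intro g
    rw [IsScalarTower.algebraMap_apply ℚ[X] (FractionRing ℚ[X]) K, hσ]
  have hσw : σ w = algebraMap (FractionRing ℚ[X]) K P - algebraMap (FractionRing ℚ[X]) K T * s := by
    rw [hwdef, map_add, map_mul, hσ, hσ, hσs]
    ring
  have hσwp : (σ w) ^ p = algebraMap ℚ[X] K (C a⁻¹) *
      (algebraMap ℚ[X] K A - algebraMap ℚ[X] K B * s) := by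
    rw [← map_pow, hw, map_mul, map_add, map_mul, hσQ, hσQ, hσQ, hσs]
    ring
  have hwint : IsIntegral ℚ[X] w := by
    apply IsIntegral.of_pow hp.pos
    rw [hw]
    exact isIntegral_algebraMap.mul (isIntegral_algebraMap.add (isIntegral_algebraMap.mul hsint))
  have hσwint : IsIntegral ℚ[X] (σ w) := by
    apply IsIntegral.of_pow hp.pos
    rw [hσwp]
    exact isIntegral_algebraMap.mul (isIntegral_algebraMap.sub (isIntegral_algebraMap.mul hsint))
  have hinj : Function.Injective (algebraMap (FractionRing ℚ[X]) K) :=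
    (algebraMap (FractionRing ℚ[X]) K).injective
  -- the trace
  have htr : IsIntegral ℚ[X] (2 * P) := by
    rw [← isIntegral_algebraMap_iff hinj]
    have h1 : algebraMap (FractionRing ℚ[X]) K (2 * P) = w + σ w := by
      rw [hσw, hwdef, map_mul, map_ofNat]
      ring
    rw [h1]
    exact hwint.add hσwint
  obtain ⟨P₂, hP₂⟩ := IsIntegrallyClosed.algebraMap_eq_of_integral htr
  obtain ⟨P₁, hP₁⟩ : ∃ P₁ : ℚ[X], algebraMap ℚ[X] (FractionRing ℚ[X]) P₁ = P := by
    refine ⟨C (1 / 2) * P₂, ?_⟩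
    rw [map_mul, hP₂, ← mul_assoc]
    have h1 : algebraMap ℚ[X] (FractionRing ℚ[X]) (C (1 / 2)) * 2 = 1 := by
      have h2 : (2 : FractionRing ℚ[X]) = algebraMap ℚ[X] _ (C 2) := by
        rw [show (C (2 : ℚ) : ℚ[X]) = 2 from map_ofNat C 2, map_ofNat]
      rw [h2, ← map_mul, ← C_mul]
      norm_num
    rw [h1, one_mul]
  -- the norm
  have hnorm : IsIntegral ℚ[X] (P ^ 2 - algebraMap ℚ[X] _ f * T ^ 2) := by
    rw [← isIntegral_algebraMap_iff hinj]
    have h1 : algebraMap (FractionRing ℚ[X]) K (P ^ 2 - algebraMap ℚ[X] _ f * T ^ 2) = w * σ w := by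
      rw [hσw, hwdef, map_sub, map_mul, map_pow, map_pow, ← IsScalarTower.algebraMap_apply, ← hs]
      ring
    rw [h1]
    exact hwint.mul hσwint
  obtain ⟨N₁, hN₁⟩ := IsIntegrallyClosed.algebraMap_eq_of_integral hnorm
  have hNp : N₁ ^ p = C (e * (a⁻¹) ^ 2) * u ^ p := by
    have h1 : algebraMap ℚ[X] K (N₁ ^ p) = algebraMap ℚ[X] K (C (e * (a⁻¹) ^ 2) * u ^ p) := by
      have h2 : algebraMap ℚ[X] K N₁ = w * σ w := by
        rw [IsScalarTower.algebraMap_apply ℚ[X] (FractionRing ℚ[X]) K, hN₁, hσw, hwdef, map_sub,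
          map_mul, map_pow, map_pow, ← IsScalarTower.algebraMap_apply, ← hs]
        ring
      have h3 : algebraMap ℚ[X] K (A ^ 2 - f * B ^ 2) = algebraMap ℚ[X] K (C e * u ^ p) := by rw [h]
      rw [map_sub, map_mul, map_pow, map_pow, ← hs, map_mul] at h3
      rw [map_pow, h2, mul_pow, hw, hσwp, map_mul, C_mul, C_pow, map_mul, map_pow (algebraMap ℚ[X] K)
        (C a⁻¹)]
      linear_combination (algebraMap ℚ[X] K (C a⁻¹)) ^ 2 * h3
    have hinj2 : Function.Injective (algebraMap ℚ[X] K) := by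
      rw [IsScalarTower.algebraMap_eq ℚ[X] (FractionRing ℚ[X]) K]
      exact hinj.comp (IsFractionRing.injective ℚ[X] (FractionRing ℚ[X]))
    exact hinj2 h1
  -- `T` is a polynomial
  obtain ⟨T₁, hT₁⟩ : ∃ T₁ : ℚ[X], algebraMap ℚ[X] (FractionRing ℚ[X]) T₁ = T := by
    obtain ⟨t₁, t₂, ht₂, hT⟩ := IsFractionRing.div_surjective (A := ℚ[X]) T
    have ht₂0 : t₂ ≠ 0 := nonZeroDivisors.ne_zero ht₂
    obtain ⟨g, hg1, hg2⟩ : ∃ g, g = EuclideanDomain.gcd t₁ t₂ ∧ g ≠ 0 :=
      ⟨_, rfl, fun h => ht₂0 (EuclideanDomain.gcd_eq_zero_iff.1 h).2⟩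
    obtain ⟨c₁, hc₁⟩ : g ∣ t₁ := hg1 ▸ EuclideanDomain.gcd_dvd_left _ _
    obtain ⟨c₂, hc₂⟩ : g ∣ t₂ := hg1 ▸ EuclideanDomain.gcd_dvd_right _ _
    have hc₂0 : c₂ ≠ 0 := by
      rintro rfl
      exact ht₂0 (by rw [hc₂, mul_zero])
    have hcop : IsCoprime c₁ c₂ := by
      have h1 := EuclideanDomain.gcd_eq_gcd_ab t₁ t₂
      rw [← hg1, hc₁, hc₂] at h1
      refine ⟨EuclideanDomain.gcdA t₁ t₂, EuclideanDomain.gcdB t₁ t₂, ?_⟩
      apply mul_left_cancel₀ hg2
      rw [hc₁, hc₂]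
      rw [mul_one]
      conv_rhs => rw [h1]
      ring
    have hT2 : T = algebraMap ℚ[X] _ c₁ / algebraMap ℚ[X] _ c₂ := by
      rw [← hT, hc₁, hc₂, map_mul, map_mul]
      have : algebraMap ℚ[X] (FractionRing ℚ[X]) g ≠ 0 := by
        rw [Ne, IsFractionRing.to_map_eq_zero_iff]
        exact hg2
      exact mul_div_mul_left _ _ this
    have hc₂' : algebraMap ℚ[X] (FractionRing ℚ[X]) c₂ ≠ 0 := by
      rw [Ne, IsFractionRing.to_map_eq_zero_iff]
      exact hc₂0
    have h2 : f * c₁ ^ 2 = (P₁ ^ 2 - N₁) * c₂ ^ 2 := by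
      apply IsFractionRing.injective ℚ[X] (FractionRing ℚ[X])
      rw [map_mul, map_pow, map_mul, map_sub, map_pow, map_pow, hN₁, hP₁, hT2]
      field_simp
      ring
    have h3 : c₂ ^ 2 ∣ f := by
      have h4 : c₂ ^ 2 ∣ f * c₁ ^ 2 := ⟨P₁ ^ 2 - N₁, by rw [h2]; ring⟩
      exact (hcop.symm.pow).dvd_of_dvd_mul_right h4
    have h4 : IsUnit c₂ := hsq c₂ (by rw [← pow_two]; exact h3)
    obtain ⟨c₃, hc₃⟩ := h4.exists_right_inv
    refine ⟨c₁ * c₃, ?_⟩
    rw [hT2, map_mul, eq_div_iff hc₂', mul_assoc, ← map_mul, mul_comm c₃, hc₃, map_one, mul_one]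
  have hPT : P₁ ^ 2 - f * T₁ ^ 2 = N₁ := by
    apply IsFractionRing.injective ℚ[X] (FractionRing ℚ[X])
    rw [hN₁, map_sub, map_mul, map_pow, map_pow, hP₁, hT₁]
  have hNd : N₁.natDegree = u.natDegree := by
    have h1 := congrArg natDegree hNp
    rw [natDegree_pow, natDegree_C_mul (mul_ne_zero he (pow_ne_zero _ (inv_ne_zero ha))),
      natDegree_pow] at h1
    exact Nat.eq_of_mul_eq_mul_left hp.pos h1
  have hf0 : f ≠ 0 := by
    rintro rfl
    simp at hd
  have hT0 : T₁ = 0 := by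
    by_contra hT0
    have h1 : (f * T₁ ^ 2).natDegree = f.natDegree + 2 * T₁.natDegree := by
      rw [natDegree_mul hf0 (pow_ne_zero _ hT0), natDegree_pow]
    have h2 : (P₁ ^ 2).natDegree = 2 * P₁.natDegree := natDegree_pow _ _
    have hne : (P₁ ^ 2).natDegree ≠ (f * T₁ ^ 2).natDegree := by
      rw [h1, h2]
      rw [Nat.odd_iff] at hd
      omega
    rcases lt_or_gt_of_ne hne with h3 | h3
    · have h4 := natDegree_sub_eq_right_of_natDegree_lt h3
      rw [hPT, hNd, h1] at h4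
      omega
    · have h4 := natDegree_sub_eq_left_of_natDegree_lt h3
      rw [hPT, hNd] at h4
      omega
  have hw2 : w = algebraMap ℚ[X] K P₁ := by
    rw [hwdef, ← hP₁, ← hT₁, hT0, map_zero, map_zero, zero_mul, add_zero,
      ← IsScalarTower.algebraMap_apply]
  have h5 := hind (algebraMap ℚ[X] _ (C a⁻¹ * A - P₁ ^ p)) (algebraMap ℚ[X] _ (C a⁻¹ * B)) (by
    rw [← IsScalarTower.algebraMap_apply, ← IsScalarTower.algebraMap_apply]
    rw [hw2] at hw
    simp only [map_sub, map_mul, map_pow]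
    linear_combination -hw)
  have h6 : C a⁻¹ * B = 0 := by
    have := h5.2
    rwa [IsFractionRing.to_map_eq_zero_iff] at this
  rcases mul_eq_zero.1 h6 with h7 | h7
  · rw [C_eq_zero] at h7
    exact inv_ne_zero ha h7
  · exact hB h7

end

end Pool.Agent.X95T
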