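import Pool.Agent.X95T.HB
import Pool.Agent.W257.G7

set_option autoImplicit false

namespace Pool.Agent.X95T

/-- a polynomial in `x` as a polynomial in two variables -/
noncomputable def px (P : Polynomial ℤ) : MvPolynomial (Fin 2) ℤ :=
  Polynomial.aeval (MvPolynomial.X 0) P

lemma coeff_px (P : Polynomial ℤ) (s : Fin 2 →₀ ℕ) :
    MvPolynomial.coeff s (px P) = if s 1 = 0 then P.coeff (s 0) else 0 := by
  classical
  induction P using Polynomial.induction_on' with
  | add p q hp hq =>
    rw [px, map_add, MvPolynomial.coeff_add]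
    rw [px] at hp hq
    rw [hp, hq]
    split_ifs
    · simp
    · simp
  | monomial i c =>
    have h1 : px (Polynomial.monomial i c) = MvPolynomial.monomial (Finsupp.single 0 i) c := by
      rw [px, Polynomial.aeval_monomial, MvPolynomial.X_pow_eq_monomial]
      rw [MvPolynomial.algebraMap_eq, MvPolynomial.C_mul_monomial, mul_one]
    rw [h1, MvPolynomial.coeff_monomial, Polynomial.coeff_monomial]
    by_cases h : s 1 = 0
    · rw [if_pos h]
      by_cases h2 : i = s 0
      · rw [if_pos h2, if_pos]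
        ext j
        fin_cases j
        · simp [h2]
        · simp [h]
      · rw [if_neg h2, if_neg]
        intro h3
        apply h2
        rw [← h3]
        simp
    · rw [if_neg h, if_neg]
      intro h3
      apply h
      rw [← h3]
      simp

/-- the quadratic polynomial `y ^ 2 + P₁(x) y + P₀(x)` -/
noncomputable def quad (P1 P0 : Polynomial ℤ) : MvPolynomial (Fin 2) ℤ :=
  MvPolynomial.X 1 ^ 2 + px P1 * MvPolynomial.X 1 + px P0

lemma supp_lin (P1 P0 : Polynomial ℤ) (s : Fin 2 →₀ ℕ)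
    (hs : s ∈ (px P1 * MvPolynomial.X 1 + px P0).support) :
    (s 1 = 1 ∧ P1.coeff (s 0) ≠ 0) ∨ (s 1 = 0 ∧ P0.coeff (s 0) ≠ 0) := by
  classical
  rw [MvPolynomial.mem_support_iff, MvPolynomial.coeff_add, MvPolynomial.coeff_mul_X', coeff_px,
    coeff_px] at hs
  by_cases h0 : s 1 = 0
  · right
    refine ⟨h0, ?_⟩
    rw [if_neg (by rw [Finsupp.mem_support_iff]; exact not_not.2 h0), if_pos h0, zero_add] at hs
    exact hs
  · left
    rw [if_pos (by rw [Finsupp.mem_support_iff]; exact h0), if_neg h0, add_zero] at hs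
    have h1 : ((s - Finsupp.single 1 1 : Fin 2 →₀ ℕ)) 1 = s 1 - 1 := by simp
    have h2 : ((s - Finsupp.single 1 1 : Fin 2 →₀ ℕ)) 0 = s 0 := by simp
    rw [h1, h2] at hs
    by_cases h3 : s 1 - 1 = 0
    · rw [if_pos h3] at hs
      exact ⟨by omega, hs⟩
    · rw [if_neg h3] at hs
      exact absurd rfl hs

lemma px_C_mul_X (c : ℤ) (N : ℕ) : px (Polynomial.C c * Polynomial.X ^ N) =
    MvPolynomial.C c * MvPolynomial.X 0 ^ N := by
  simp [px]

/-- the leading form, first case -/
lemma lf_one {N : ℕ} (P1 P0 : Polynomial ℤ) (h0 : P0.natDegree ≤ N)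
    (h1 : 2 * P1.natDegree < N) : ∀ s ∈ (quad P1 P0 - lf 1 (-(P0.coeff N)) 2 N 1).support,
      2 * s 0 + N * s 1 < 1 * (N * 2) := by
  intro s hs
  have e : quad P1 P0 - lf 1 (-(P0.coeff N)) 2 N 1 =
      px P1 * MvPolynomial.X 1 +
        px (P0 - Polynomial.C (P0.coeff N) * Polynomial.X ^ N) := by
    have h2 : px (P0 - Polynomial.C (P0.coeff N) * Polynomial.X ^ N) =
        px P0 - MvPolynomial.C (P0.coeff N) * MvPolynomial.X 0 ^ N := by
      rw [← px_C_mul_X]
      simp only [px, map_sub]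
    have hC1 : (MvPolynomial.C (1 : ℤ) : MvPolynomial (Fin 2) ℤ) = 1 := by simp
    rw [h2, quad, lf, hC1, MvPolynomial.C_neg, _root_.pow_one]
    ring
  rw [e] at hs
  rcases supp_lin _ _ s hs with ⟨h2, h3⟩ | ⟨h2, h3⟩
  · have h4 := Polynomial.le_natDegree_of_ne_zero h3
    rw [h2]
    omega
  · rw [Polynomial.coeff_sub, Polynomial.coeff_C_mul, Polynomial.coeff_X_pow] at h3
    have h4 : s 0 ≤ N := by
      by_contra h5
      rw [not_le] at h5
      rw [Polynomial.coeff_eq_zero_of_natDegree_lt (lt_of_le_of_lt h0 h5), if_neg (by omega)] at h3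
      simp at h3
    have h5 : s 0 ≠ N := by
      intro h6
      rw [h6] at h3
      simp at h3
    rw [h2]
    omega

/-- the leading form, second case -/
lemma lf_two {N : ℕ} (β : ℤ) (P1 P0 : Polynomial ℤ) (h0 : P0.natDegree ≤ 2 * N)
    (h1 : P1.natDegree ≤ N) (hβ1 : P1.coeff N = -2 * β) (hβ0 : P0.coeff (2 * N) = β ^ 2) :
    ∀ s ∈ (quad P1 P0 - lf 1 β 1 N 2).support, 1 * s 0 + N * s 1 < 2 * (N * 1) := by
  intro s hs
  have e : quad P1 P0 - lf 1 β 1 N 2 =
      px (P1 + Polynomial.C (2 * β) * Polynomial.X ^ N) * MvPolynomial.X 1 +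
        px (P0 - Polynomial.C (β ^ 2) * Polynomial.X ^ (2 * N)) := by
    have h2 : px (P0 - Polynomial.C (β ^ 2) * Polynomial.X ^ (2 * N)) =
        px P0 - MvPolynomial.C (β ^ 2) * MvPolynomial.X 0 ^ (2 * N) := by
      rw [← px_C_mul_X]
      simp only [px, map_sub]
    have h3 : px (P1 + Polynomial.C (2 * β) * Polynomial.X ^ N) =
        px P1 + MvPolynomial.C (2 * β) * MvPolynomial.X 0 ^ N := by
      rw [← px_C_mul_X]
      simp only [px, map_add]
    have hC1 : (MvPolynomial.C (1 : ℤ) : MvPolynomial (Fin 2) ℤ) = 1 := by simp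
    rw [h2, h3, quad, lf, hC1, one_mul, _root_.pow_one, MvPolynomial.C_mul,
      MvPolynomial.C_pow, show (MvPolynomial.C (2 : ℤ) : MvPolynomial (Fin 2) ℤ) = 2 from
        map_ofNat MvPolynomial.C 2, mul_comm 2 N, pow_mul]
    ring
  rw [e] at hs
  rcases supp_lin _ _ s hs with ⟨h2, h3⟩ | ⟨h2, h3⟩
  · rw [Polynomial.coeff_add, Polynomial.coeff_C_mul, Polynomial.coeff_X_pow] at h3
    have h4 : s 0 ≤ N := by
      by_contra h5
      rw [not_le] at h5
      rw [Polynomial.coeff_eq_zero_of_natDegree_lt (lt_of_le_of_lt h1 h5), if_neg (by omega)] at h3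
      simp at h3
    have h5 : s 0 ≠ N := by
      intro h6
      rw [h6, hβ1] at h3
      simp at h3
    rw [h2]
    omega
  · rw [Polynomial.coeff_sub, Polynomial.coeff_C_mul, Polynomial.coeff_X_pow] at h3
    have h4 : s 0 ≤ 2 * N := by
      by_contra h5
      rw [not_le] at h5
      rw [Polynomial.coeff_eq_zero_of_natDegree_lt (lt_of_le_of_lt h0 h5), if_neg (by omega)] at h3
      simp at h3
    have h5 : s 0 ≠ 2 * N := by
      intro h6
      rw [h6, hβ0] at h3
      simp at h3
    rw [h2]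
    omega

lemma aeval_px {S : Type} [CommRing S] [Algebra ℤ S] (P : Polynomial ℤ) (x y : S) :
    MvPolynomial.aeval ![x, y] (px P) = Polynomial.aeval x P := by
  have h : ((MvPolynomial.aeval (R := ℤ) ![x, y]).comp
      (Polynomial.aeval (R := ℤ) (MvPolynomial.X 0 : MvPolynomial (Fin 2) ℤ))) =
      Polynomial.aeval (R := ℤ) x := by
    apply Polynomial.algHom_ext
    simp
  exact DFunLike.congr_fun h P

lemma line_quad (P1 P0 : Polynomial ℤ) :
    MvPolynomial.aeval ![Polynomial.X, (0 : Polynomial ℤ)] (quad P1 P0) = P0 := by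
  rw [quad, map_add, map_add, map_mul, map_pow, aeval_px, aeval_px, MvPolynomial.aeval_X]
  simp

lemma eval_quad (P1 P0 : Polynomial ℤ) (x y : ℤ) :
    MvPolynomial.eval ![x, y] (quad P1 P0) = y ^ 2 + P1.eval x * y + P0.eval x := by
  have h : MvPolynomial.eval ![x, y] (quad P1 P0) = MvPolynomial.aeval ![x, y] (quad P1 P0) := by
    rw [MvPolynomial.aeval_eq_eval]
  rw [h, quad, map_add, map_add, map_mul, map_pow, aeval_px, aeval_px, MvPolynomial.aeval_X]
  simp

lemma pderiv_px (P : Polynomial ℤ) : MvPolynomial.pderiv 1 (px P) = 0 := by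
  rw [px, Derivation.map_aeval, MvPolynomial.pderiv_X]
  simp

lemma deriv_quad (P1 P0 : Polynomial ℤ) :
    MvPolynomial.aeval ![Polynomial.X, (0 : Polynomial ℤ)] (MvPolynomial.pderiv 1 (quad P1 P0)) =
      P1 := by
  have h : MvPolynomial.pderiv 1 (quad P1 P0) = 2 * MvPolynomial.X 1 + px P1 := by
    rw [quad, map_add, map_add, Derivation.leibniz, Derivation.leibniz_pow, pderiv_px, pderiv_px,
      MvPolynomial.pderiv_X]
    simp
  rw [h, map_add, map_mul, aeval_px, MvPolynomial.aeval_X]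
  simp

/-- the sum of the absolute values of the coefficients -/
noncomputable def len1 (P : Polynomial ℤ) : ℕ := ∑ i ∈ P.support, (P.coeff i).natAbs

lemma len_px (P : Polynomial ℤ) : Pool.Agent.H322R2.len (px P) ≤ len1 P := by
  rw [px, Polynomial.aeval_def, Polynomial.eval₂_eq_sum, Polynomial.sum_def, len1]
  refine (Finset.le_sum_of_subadditive Pool.Agent.H322R2.len len_zero.le
    len_add _ _).trans ?_
  apply Finset.sum_le_sum
  intro i _
  refine (Pool.Agent.W257.len_mul_le _ _).trans ?_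
  have h1 := Pool.Agent.W257.len_pow_le (MvPolynomial.X 0) i 1 Pool.Agent.W257.len_X0
  have h2 := Pool.Agent.W257.len_C (P.coeff i)
  rw [one_pow] at h1
  calc _ ≤ (P.coeff i).natAbs * 1 := Nat.mul_le_mul h2 h1
    _ = _ := mul_one _

lemma px_mul (P Q : Polynomial ℤ) : px (P * Q) = px P * px Q := by
  simp only [px, map_mul]

lemma px_pow (P : Polynomial ℤ) (n : ℕ) : px (P ^ n) = px P ^ n := by
  simp only [px, map_pow]

lemma px_C (c : ℤ) : px (Polynomial.C c) = MvPolynomial.C c := by
  simp [px]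

/-- the size of the equation -/
lemma len_quad (A u : Polynomial ℤ) (e : ℤ) (p : ℕ) :
    Pool.Agent.H322R2.len (quad (-(Polynomial.C 2 * A)) (Polynomial.C e * u ^ p)) ≤
      1 + 2 * len1 A + e.natAbs * (len1 u) ^ p := by
  rw [quad]
  refine (len_add _ _).trans (Nat.add_le_add ?_ ?_)
  · refine (len_add _ _).trans (Nat.add_le_add ?_ ?_)
    · have h1 := Pool.Agent.W257.len_pow_le (MvPolynomial.X 1) 2 1 Pool.Agent.W257.len_X1
      rwa [one_pow] at h1
    · have e1 : px (-(Polynomial.C 2 * A)) = -(MvPolynomial.C 2 * px A) := by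
        rw [← px_C, ← px_mul]
        simp only [px, map_neg]
      rw [e1]
      refine (Pool.Agent.W257.len_mul_le _ _).trans ?_
      rw [Pool.Agent.W257.len_neg]
      have h2 := Pool.Agent.W257.len_mul_le (MvPolynomial.C 2) (px A)
      have h3 := Pool.Agent.W257.len_C 2
      have h4 := len_px A
      calc _ ≤ (2 * len1 A) * 1 := Nat.mul_le_mul (h2.trans (Nat.mul_le_mul h3 h4))
            Pool.Agent.W257.len_X1
        _ = _ := mul_one _
  · rw [px_mul, px_C, px_pow]
    refine (Pool.Agent.W257.len_mul_le _ _).trans ?_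
    exact Nat.mul_le_mul (Pool.Agent.W257.len_C e) (Pool.Agent.W257.len_pow_le _ _ _ (len_px u))

section

open Polynomial

lemma aeval_gen {S : Type} [CommRing S] [Algebra ℤ S] (x : S) (P : ℤ[X]) :
    aeval x P = eval₂ (Int.castRingHom S) x P := by
  rw [aeval_def]
  congr 1
  exact Subsingleton.elim _ _

/-- the covers of the hyperelliptic curve are irreducible -/
lemma irr_quad {p : ℕ} (hp : p.Prime) (f A B u : ℤ[X]) (e : ℤ) (he : e ≠ 0)
    (hsq : Squarefree (f.map (Int.castRingHom ℚ))) (hd : Odd f.natDegree) (hB : B ≠ 0)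
    (hr : u.natDegree < f.natDegree) (h : A ^ 2 - f * B ^ 2 = C e * u ^ p) (a : ℤ) (ha : a ≠ 0) :
    Irreducible (MvPolynomial.map (Int.castRingHom ℚ)
      (sub a p (quad (-(C 2 * A)) (C e * u ^ p)))) := by
  have hinj : Function.Injective (Int.castRingHom ℚ) := Int.cast_injective
  have haQ : (a : ℚ) ≠ 0 := by exact_mod_cast ha
  have hM := hypM_irr hp (f.map (Int.castRingHom ℚ)) (A.map (Int.castRingHom ℚ))
    (B.map (Int.castRingHom ℚ)) (u.map (Int.castRingHom ℚ)) (e : ℚ) (a : ℚ)
    (by exact_mod_cast he) haQ hsq (by rwa [natDegree_map_eq_of_injective hinj])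
    (by rwa [Ne, Polynomial.map_eq_zero_iff hinj])
    (by rwa [natDegree_map_eq_of_injective hinj, natDegree_map_eq_of_injective hinj])
    (by
      have h1 := congrArg (Polynomial.map (Int.castRingHom ℚ)) h
      simpa using h1)
  have h1 : isoP (MvPolynomial.map (Int.castRingHom ℚ)
      (sub a p (quad (-(C 2 * A)) (C e * u ^ p)))) = C (C ((a : ℚ) ^ 2)) *
      hypM p (A.map (Int.castRingHom ℚ)) (u.map (Int.castRingHom ℚ)) e a := by
    have h2 := hom_map (isoP : MvPolynomial (Fin 2) ℚ →+* ℚ[X][X])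
      (sub a p (quad (-(C 2 * A)) (C e * u ^ p)))
    rw [RingHom.coe_coe, isoP_X0, isoP_X1] at h2
    rw [h2]
    refine (aeval_sub a p _ _ _).trans ?_
    have hcast : (a : ℚ[X][X]) = C (C (a : ℚ)) := by simp
    have hae : ∀ P : ℤ[X], eval₂ (Int.castRingHom ℚ[X][X]) (C X : ℚ[X][X]) P =
        C (P.map (Int.castRingHom ℚ)) := by
      intro P
      have h3 : eval₂RingHom (Int.castRingHom ℚ[X][X]) (C X : ℚ[X][X]) =
          (C : ℚ[X] →+* ℚ[X][X]).comp (mapRingHom (Int.castRingHom ℚ)) := by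
        apply Polynomial.ringHom_ext'
        · exact Subsingleton.elim _ _
        · simp
      exact DFunLike.congr_fun h3 P
    rw [quad, map_add, map_add, map_mul, map_pow, aeval_px, aeval_px, MvPolynomial.aeval_X]
    simp only [Matrix.cons_val_one, Matrix.cons_val_zero]
    rw [aeval_gen, aeval_gen, hae, hae, hcast, hypM, Polynomial.map_neg, Polynomial.map_mul, Polynomial.map_mul,
      Polynomial.map_pow, Polynomial.map_C, Polynomial.map_C, mul_add, mul_add, ← mul_assoc, ← mul_assoc,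
      ← C_mul, ← C_mul, mul_pow, ← pow_mul, ← C_pow, ← C_pow, mul_comm p 2]
    rw [add_assoc]
    congr 1
    congr 1
    · congr 2
      have h4 : (C (2 / (a : ℚ)) : ℚ[X]) = C 2 * C ((a : ℚ)⁻¹) := by
        rw [← C_mul, div_eq_mul_inv]
      have h5 : (C ((a : ℚ) ^ 2) * C ((a : ℚ)⁻¹) : ℚ[X]) = C (a : ℚ) := by
        rw [← C_mul]
        congr 1
        field_simp
      rw [h4]
      have h6 : (Int.castRingHom ℚ) 2 = (2 : ℚ) := by simp
      rw [h6, ← h5]
      ring
    · rw [← C_mul]
      congr 1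
      rw [← mul_assoc, ← C_mul]
      congr 2
      rw [mul_div_cancel₀ _ (pow_ne_zero _ haQ)]
      simp
  rw [← MulEquiv.irreducible_iff isoP, h1, irreducible_isUnit_mul (isUnit_CC (pow_ne_zero _ haQ))]
  exact hM

end

end Pool.Agent.X95T
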