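import Pool.Agent.X95T.HC

set_option autoImplicit false

namespace Pool.Agent.X95T

open Polynomial

lemma hyp_degs (p : ℕ) (f A B u : ℤ[X]) (e : ℤ) (he : e ≠ 0) (hd : Odd f.natDegree)
    (hB : B ≠ 0) (h : A ^ 2 - f * B ^ 2 = C e * u ^ p) :
    (2 * A.natDegree < f.natDegree + 2 * B.natDegree ∧
      p * u.natDegree = f.natDegree + 2 * B.natDegree) ∨
    (f.natDegree + 2 * B.natDegree < 2 * A.natDegree ∧ p * u.natDegree = 2 * A.natDegree) := by
  have hf0 : f ≠ 0 := by
    rintro rfl
    simp at hd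
  have h1 : (f * B ^ 2).natDegree = f.natDegree + 2 * B.natDegree := by
    rw [natDegree_mul hf0 (pow_ne_zero _ hB), natDegree_pow]
  have h2 : (A ^ 2).natDegree = 2 * A.natDegree := natDegree_pow _ _
  have h3 : (C e * u ^ p).natDegree = p * u.natDegree := by
    rw [natDegree_C_mul he, natDegree_pow]
  rw [Nat.odd_iff] at hd
  rcases lt_trichotomy (2 * A.natDegree) (f.natDegree + 2 * B.natDegree) with h4 | h4 | h4
  · left
    refine ⟨h4, ?_⟩
    rw [← h3, ← h, ← h1]
    exact natDegree_sub_eq_right_of_natDegree_lt (by rw [h1, h2]; exact h4)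
  · omega
  · right
    refine ⟨h4, ?_⟩
    rw [← h3, ← h, ← h2]
    exact natDegree_sub_eq_left_of_natDegree_lt (by rw [h1, h2]; exact h4)

/-- the leading form of the equation of a torsion function, odd case -/
lemma hyp_lf_one (p r : ℕ) (f A B u : ℤ[X]) (e : ℤ) (he : e ≠ 0) (hd : Odd f.natDegree)
    (hB : B ≠ 0) (h : A ^ 2 - f * B ^ 2 = C e * u ^ p) (hr : u.natDegree = r) (hpr : Odd (p * r)) :
    ∀ s ∈ (quad (-(C 2 * A)) (C e * u ^ p) - lf 1 (-(e * u.leadingCoeff ^ p)) 2 (p * r) 1).support,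
      2 * s 0 + (p * r) * s 1 < 1 * (p * r * 2) := by
  have hdeg := hyp_degs p f A B u e he hd hB h
  rw [hr] at hdeg
  rw [Nat.odd_iff] at hpr
  have h3 : (C e * u ^ p).natDegree = p * r := by
    rw [natDegree_C_mul he, natDegree_pow, hr]
  have h4 : (C e * u ^ p).coeff (p * r) = e * u.leadingCoeff ^ p := by
    rw [← h3, coeff_natDegree, leadingCoeff_mul, leadingCoeff_C, leadingCoeff_pow]
  have h5 : (-(C 2 * A)).natDegree ≤ A.natDegree := by
    rw [natDegree_neg]
    exact natDegree_C_mul_le _ _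
  have h6 := lf_one (N := p * r) (-(C 2 * A)) (C e * u ^ p) h3.le (by omega)
  rw [h4] at h6
  exact h6

/-- the leading form of the equation of a torsion function, even case -/
lemma hyp_lf_two (p δ : ℕ) (f A B u : ℤ[X]) (e : ℤ) (he : e ≠ 0) (hd : Odd f.natDegree)
    (hB : B ≠ 0) (h : A ^ 2 - f * B ^ 2 = C e * u ^ p) (hr : u.natDegree = 2 * δ) :
    A.leadingCoeff ^ 2 = e * u.leadingCoeff ^ p ∧
    ∀ s ∈ (quad (-(C 2 * A)) (C e * u ^ p) - lf 1 A.leadingCoeff 1 (p * δ) 2).support,
      1 * s 0 + (p * δ) * s 1 < 2 * (p * δ * 1) := by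
  have hdeg := hyp_degs p f A B u e he hd hB h
  rw [hr] at hdeg
  have e1 : p * (2 * δ) = 2 * (p * δ) := by ring
  rw [e1] at hdeg
  rw [Nat.odd_iff] at hd
  have hA : A.natDegree = p * δ := by omega
  have hfB : f.natDegree + 2 * B.natDegree < 2 * (p * δ) := by omega
  have h3 : (C e * u ^ p).natDegree = 2 * (p * δ) := by
    rw [natDegree_C_mul he, natDegree_pow, hr, e1]
  have hf0 : f ≠ 0 := by
    rintro rfl
    simp at hd
  have h1 : (f * B ^ 2).natDegree = f.natDegree + 2 * B.natDegree := by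
    rw [natDegree_mul hf0 (pow_ne_zero _ hB), natDegree_pow]
  have h4 : (C e * u ^ p).coeff (2 * (p * δ)) = A.leadingCoeff ^ 2 := by
    have h5 : (A ^ 2).coeff (2 * (p * δ)) = A.leadingCoeff ^ 2 := by
      rw [← hA, ← natDegree_pow, coeff_natDegree, leadingCoeff_pow]
    rw [← h, coeff_sub, h5, coeff_eq_zero_of_natDegree_lt (by rw [h1]; exact hfB), sub_zero]
  have h4' : (C e * u ^ p).coeff (2 * (p * δ)) = e * u.leadingCoeff ^ p := by
    rw [← h3, coeff_natDegree, leadingCoeff_mul, leadingCoeff_C, leadingCoeff_pow]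
  refine ⟨by rw [← h4, h4'], ?_⟩
  apply lf_two A.leadingCoeff (-(C 2 * A)) (C e * u ^ p) h3.le
  · rw [natDegree_neg, ← hA]
    exact natDegree_C_mul_le _ _
  · rw [coeff_neg, coeff_C_mul, ← hA, coeff_natDegree]
    ring
  · exact h4

/-- the uniform bound for hyperelliptic curves with a torsion function -/
theorem hyp_uniform (p r : ℕ) (hp : p.Prime) (hp2 : p ≠ 2) (hr1 : 1 ≤ r) :
    ∃ K : ℕ, ∀ S : Finset ℕ, ∃ c : ℕ, ∀ (f A B u U V : ℤ[X]) (e b : ℤ),
      Squarefree (f.map (Int.castRingHom ℚ)) → Odd f.natDegree → B ≠ 0 → u.natDegree = r →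
      r < f.natDegree → A ^ 2 - f * B ^ 2 = C e * u ^ p → U * u + V * (C 2 * A) = C b →
      b * (e * u.leadingCoeff) ≠ 0 →
      (∀ q : ℕ, q.Prime → (q : ℤ) ∣ b * (e * u.leadingCoeff) → q ∈ S) →
      ∀ x y : ℤ, y ^ 2 = f.eval x →
        x.natAbs ≤ (c * (1 + 2 * len1 A + e.natAbs * (len1 u) ^ p)) ^ K := by
  have hp3 : 3 ≤ p := by
    have := hp.two_le
    omega
  have hodd : Odd p := hp.odd_of_ne_two hp2
  have hpoint : ∀ (f A B u : ℤ[X]) (e x y : ℤ), A ^ 2 - f * B ^ 2 = C e * u ^ p →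
      y ^ 2 = f.eval x → MvPolynomial.eval ![x, A.eval x + B.eval x * y]
        (quad (-(C 2 * A)) (C e * u ^ p)) = 0 := by
    intro f A B u e x y h hy
    rw [eval_quad]
    have h1 := congrArg (Polynomial.eval x) h
    simp only [eval_sub, eval_mul, eval_pow, eval_C, eval_neg] at h1 ⊢
    linear_combination -h1 + (B.eval x) ^ 2 * hy
  have hlen : ∀ (A u : ℤ[X]) (e : ℤ), ∑ s ∈ (quad (-(C 2 * A)) (C e * u ^ p)).support,
      ((quad (-(C 2 * A)) (C e * u ^ p)).coeff s).natAbs ≤
        1 + 2 * len1 A + e.natAbs * (len1 u) ^ p := fun A u e => len_quad A u e p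
  rcases Nat.even_or_odd r with hre | hro
  · -- even
    obtain ⟨δ, hδ⟩ := hre
    have hδ2 : r = 2 * δ := by omega
    obtain ⟨K, hK⟩ := uniformZ p 1 δ 2 hp3 hodd le_rfl (by omega) (by norm_num) (by simp)
    refine ⟨K, fun S => ?_⟩
    obtain ⟨c, hc⟩ := hK S
    refine ⟨c, ?_⟩
    intro f A B u U V e b hsq hd hB hur hrf h hUV hne hS x y hy
    have he : e ≠ 0 := left_ne_zero_of_mul (right_ne_zero_of_mul hne)
    have hlc : u.leadingCoeff ≠ 0 := right_ne_zero_of_mul (right_ne_zero_of_mul hne)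
    have hb : b ≠ 0 := left_ne_zero_of_mul hne
    rw [hδ2] at hur
    obtain ⟨hlc2, hlf⟩ := hyp_lf_two p δ f A B u e he hd hB h hur
    have hA0 : A.leadingCoeff ≠ 0 := by
      intro h0
      rw [h0, zero_pow two_ne_zero] at hlc2
      exact mul_ne_zero he (pow_ne_zero _ hlc) hlc2.symm
    have hmain := hc 1 A.leadingCoeff e b (quad (-(C 2 * A)) (C e * u ^ p)) u U (-V)
      (by
        rw [one_mul]
        exact mul_ne_zero hA0 (mul_ne_zero hb he))
      (by
        intro q hq hqd
        have hqZ : Prime (q : ℤ) := Nat.prime_iff_prime_int.1 hq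
        apply hS q hq
        rw [one_mul] at hqd
        rcases hqZ.dvd_or_dvd hqd with h1 | h1
        · have h2 : (q : ℤ) ∣ e * u.leadingCoeff ^ p := by
            rw [← hlc2]
            exact dvd_pow h1 two_ne_zero
          rcases hqZ.dvd_or_dvd h2 with h3 | h3
          · exact (h3.mul_right _).mul_left _
          · exact ((hqZ.dvd_of_dvd_pow h3).mul_left _).mul_left _
        · rcases hqZ.dvd_or_dvd h1 with h2 | h2
          · exact h2.mul_right _
          · exact (h2.mul_right _).mul_left _)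
      hlf (line_quad _ _)
      (by
        rw [deriv_quad]
        linear_combination hUV)
      (fun a ha => irr_quad hp f A B u e he hsq hd hB (by omega) h a ha)
      x _ (hpoint f A B u e x y h hy)
    exact (le_max_left _ _).trans (hmain.trans (Nat.pow_le_pow_left
      (Nat.mul_le_mul_left _ (hlen A u e)) _))
  · -- odd
    obtain ⟨K, hK⟩ := uniformZ p 2 r 1 hp3 hodd (by norm_num) hr1 le_rfl
      ((Nat.coprime_primes Nat.prime_two hp).2 hp2.symm)
    refine ⟨K, fun S => ?_⟩
    obtain ⟨c, hc⟩ := hK S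
    refine ⟨c, ?_⟩
    intro f A B u U V e b hsq hd hB hur hrf h hUV hne hS x y hy
    have he : e ≠ 0 := left_ne_zero_of_mul (right_ne_zero_of_mul hne)
    have hlc : u.leadingCoeff ≠ 0 := right_ne_zero_of_mul (right_ne_zero_of_mul hne)
    have hb : b ≠ 0 := left_ne_zero_of_mul hne
    have hlf := hyp_lf_one p r f A B u e he hd hB h hur (hodd.mul hro)
    have hmain := hc 1 (-(e * u.leadingCoeff ^ p)) e b (quad (-(C 2 * A)) (C e * u ^ p)) u U (-V)
      (by
        rw [one_mul]
        exact mul_ne_zero (neg_ne_zero.2 (mul_ne_zero he (pow_ne_zero _ hlc))) (mul_ne_zero hb he))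
      (by
        intro q hq hqd
        have hqZ : Prime (q : ℤ) := Nat.prime_iff_prime_int.1 hq
        apply hS q hq
        rw [one_mul] at hqd
        rcases hqZ.dvd_or_dvd hqd with h1 | h1
        · rw [dvd_neg] at h1
          rcases hqZ.dvd_or_dvd h1 with h3 | h3
          · exact (h3.mul_right _).mul_left _
          · exact ((hqZ.dvd_of_dvd_pow h3).mul_left _).mul_left _
        · rcases hqZ.dvd_or_dvd h1 with h2 | h2
          · exact h2.mul_right _
          · exact (h2.mul_right _).mul_left _)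
      hlf (line_quad _ _)
      (by
        rw [deriv_quad]
        linear_combination hUV)
      (fun a ha => irr_quad hp f A B u e he hsq hd hB (by omega) h a ha)
      x _ (hpoint f A B u e x y h hy)
    exact (le_max_left _ _).trans (hmain.trans (Nat.pow_le_pow_left
      (Nat.mul_le_mul_left _ (hlen A u e)) _))

end Pool.Agent.X95T
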