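import Pool.Agent.X95T.HD

set_option autoImplicit false

namespace Pool.Agent.X95T

open Polynomial

lemma len1_le (P : ℤ[X]) (N M : ℕ) (hN : P.natDegree ≤ N) (h : ∀ i, (P.coeff i).natAbs ≤ M) :
    len1 P ≤ (N + 1) * M := by
  rw [len1]
  calc _ ≤ ∑ i ∈ Finset.range (N + 1), (P.coeff i).natAbs := by
        apply Finset.sum_le_sum_of_subset
        intro i hi
        rw [Finset.mem_range]
        have := le_natDegree_of_mem_supp i hi
        omega
    _ ≤ ∑ _i ∈ Finset.range (N + 1), M := Finset.sum_le_sum fun i _ => h i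
    _ = _ := by simp

/-- all degrees together -/
theorem hyp_all (d p : ℕ) (hd : Odd d) (hp : p.Prime) (hp2 : p ≠ 2) :
    ∃ K : ℕ, ∀ S : Finset ℕ, ∃ c : ℕ, ∀ (f A B u U V : ℤ[X]) (e b : ℤ) (M : ℕ),
      f.natDegree = d → Squarefree (f.map (Int.castRingHom ℚ)) → B ≠ 0 → u.natDegree < d →
      A ^ 2 - f * B ^ 2 = C e * u ^ p → U * u + V * (C 2 * A) = C b →
      b * (e * u.leadingCoeff) ≠ 0 →
      (∀ q : ℕ, q.Prime → (q : ℤ) ∣ b * (e * u.leadingCoeff) → q ∈ S) →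
      (∀ i, (A.coeff i).natAbs ≤ M) → (∀ i, (u.coeff i).natAbs ≤ M) → e.natAbs ≤ M →
      ∀ x y : ℤ, y ^ 2 = f.eval x → x.natAbs ≤ (c * M) ^ K := by
  have h : ∀ r : Fin d, ∃ K : ℕ, ∀ S : Finset ℕ, ∃ c : ℕ, 1 ≤ r.1 → ∀ (f A B u U V : ℤ[X]) (e b : ℤ),
      Squarefree (f.map (Int.castRingHom ℚ)) → Odd f.natDegree → B ≠ 0 → u.natDegree = r.1 →
      r.1 < f.natDegree → A ^ 2 - f * B ^ 2 = C e * u ^ p → U * u + V * (C 2 * A) = C b →
      b * (e * u.leadingCoeff) ≠ 0 →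
      (∀ q : ℕ, q.Prime → (q : ℤ) ∣ b * (e * u.leadingCoeff) → q ∈ S) →
      ∀ x y : ℤ, y ^ 2 = f.eval x →
        x.natAbs ≤ (c * (1 + 2 * len1 A + e.natAbs * (len1 u) ^ p)) ^ K := by
    intro r
    by_cases hr : 1 ≤ r.1
    · obtain ⟨K, hK⟩ := hyp_uniform p r hp hp2 hr
      refine ⟨K, fun S => ?_⟩
      obtain ⟨c, hc⟩ := hK S
      exact ⟨c, fun _ => hc⟩
    · exact ⟨0, fun S => ⟨0, fun h => absurd h hr⟩⟩
  choose K hK using h
  refine ⟨(p + 1) * ∑ r, K r, fun S => ?_⟩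
  choose c hc using fun r => hK r S
  set X : ℕ := 1 + 2 * (p * d + 1) + d ^ p with hX
  refine ⟨(∑ r, c r + 1) * X, ?_⟩
  intro f A B u U V e b M hfd hsq hB hud h hUV hne hS hA hu heM x y hy
  have he : e ≠ 0 := left_ne_zero_of_mul (right_ne_zero_of_mul hne)
  have hM1 : 1 ≤ M := le_trans (Int.natAbs_pos.2 he) heM
  have hdeg := hyp_degs p f A B u e he (by rw [hfd]; exact hd) hB h
  have hd1 : 1 ≤ d := hd.pos
  have hu1 : 1 ≤ u.natDegree := by
    by_contra h1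
    have h2 : u.natDegree = 0 := by omega
    rw [h2, hfd] at hdeg
    omega
  have hAd : A.natDegree ≤ p * d := by
    have h1 : p * u.natDegree ≤ p * d := Nat.mul_le_mul_left _ hud.le
    omega
  have hlA : len1 A ≤ (p * d + 1) * M := len1_le A _ _ hAd hA
  have hlu : len1 u ≤ d * M := by
    have := len1_le u (d - 1) M (by omega) hu
    rwa [Nat.sub_add_cancel hd1] at this
  have hbase : 1 + 2 * len1 A + e.natAbs * (len1 u) ^ p ≤ X * M ^ (p + 1) := by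
    have h1 : 1 ≤ M ^ (p + 1) := Nat.one_le_pow _ _ hM1
    have h2 : M ≤ M ^ (p + 1) := Nat.le_self_pow (by omega) _
    have h3 : e.natAbs * (len1 u) ^ p ≤ d ^ p * M ^ (p + 1) := by
      calc _ ≤ M * (d * M) ^ p := Nat.mul_le_mul heM (Nat.pow_le_pow_left hlu _)
        _ = _ := by ring
    calc _ ≤ M ^ (p + 1) + 2 * ((p * d + 1) * M ^ (p + 1)) + d ^ p * M ^ (p + 1) := by
          refine Nat.add_le_add (Nat.add_le_add h1 ?_) h3
          exact Nat.mul_le_mul_left _ (hlA.trans (Nat.mul_le_mul_left _ h2))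
      _ = _ := by rw [hX]; ring
  have hmain := hc ⟨u.natDegree, hud⟩ hu1 f A B u U V e b hsq (by rw [hfd]; exact hd) hB rfl
    (by rw [hfd]; exact hud) h hUV hne hS x y hy
  refine hmain.trans ?_
  have hX1 : 1 ≤ X := by omega
  have hc1 : c ⟨u.natDegree, hud⟩ ≤ ∑ r, c r + 1 :=
    (Finset.single_le_sum (f := c) (fun _ _ => Nat.zero_le _) (Finset.mem_univ _)).trans
      (Nat.le_succ _)
  have hK1 : K ⟨u.natDegree, hud⟩ ≤ ∑ r, K r :=
    Finset.single_le_sum (f := K) (fun _ _ => Nat.zero_le _) (Finset.mem_univ _)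
  have hb1 : 1 ≤ (∑ r, c r + 1) * X * M ^ (p + 1) := by
    have h1 : 1 ≤ M ^ (p + 1) := Nat.one_le_pow _ _ hM1
    exact Nat.mul_pos (Nat.mul_pos (Nat.succ_pos _) hX1) h1
  calc (c ⟨u.natDegree, hud⟩ * (1 + 2 * len1 A + e.natAbs * (len1 u) ^ p)) ^
        K ⟨u.natDegree, hud⟩ ≤ ((∑ r, c r + 1) * X * M ^ (p + 1)) ^ K ⟨u.natDegree, hud⟩ := by
        apply Nat.pow_le_pow_left
        rw [mul_assoc]
        exact Nat.mul_le_mul hc1 hbase
    _ ≤ ((∑ r, c r + 1) * X * M ^ (p + 1)) ^ ∑ r, K r := Nat.pow_le_pow_right hb1 hK1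
    _ ≤ (((∑ r, c r + 1) * X * M) ^ (p + 1)) ^ ∑ r, K r := by
        apply Nat.pow_le_pow_left
        rw [mul_pow]
        apply Nat.mul_le_mul_right
        exact Nat.le_self_pow (by omega) _
    _ = _ := by rw [← pow_mul]

end Pool.Agent.X95T
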