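import Mathlib

set_option autoImplicit false

namespace Pool.Agent.X95T

open Polynomial

/-- `σ Q ^ 2 + u ^ p = x ^ (p δ)` has only the trivial solution -/
lemma triv_sol {p δ : ℕ} (hp3 : 3 ≤ p) (hodd : Odd (p * δ)) (σ : ℝ) (hσ : σ ≠ 0) (u Q : ℝ[X])
    (hu : u.Monic) (hδ : u.natDegree = δ) (hQ : 2 * Q.natDegree < p * δ)
    (h : C σ * Q ^ 2 + u ^ p = X ^ (p * δ)) : Q = 0 ∧ u = X ^ δ := by
  have hu0 : u ≠ 0 := hu.ne_zero
  have hXu : ∃ i, ∃ u₁ : ℝ[X], u = X ^ i * u₁ ∧ ¬ X ∣ u₁ := by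
    obtain ⟨v, hv, hv2⟩ := exists_eq_pow_rootMultiplicity_mul_and_not_dvd u hu0 0
    rw [map_zero, sub_zero] at hv hv2
    exact ⟨_, v, hv, hv2⟩
  obtain ⟨i, u₁, hu₁, hX1⟩ := hXu
  have hu₁0 : u₁ ≠ 0 := by
    rintro rfl
    simp at hX1
  have hi : i + u₁.natDegree = δ := by
    rw [← hδ, hu₁, natDegree_mul (pow_ne_zero _ X_ne_zero) hu₁0, natDegree_X_pow]
  -- reduce to `u₁` constant
  have key : u₁.natDegree = 0 → Q = 0 → Q = 0 ∧ u = X ^ δ := by
    intro h1 h2
    refine ⟨h2, ?_⟩
    have h3 : i = δ := by omega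
    have h4 : u₁ = C (u₁.coeff 0) := eq_C_of_natDegree_eq_zero h1
    have h5 : u₁.leadingCoeff = 1 := by
      have h6 := hu.leadingCoeff
      rw [hu₁, leadingCoeff_mul, leadingCoeff_X_pow, one_mul] at h6
      exact h6
    rw [hu₁, h3, eq_C_of_natDegree_eq_zero h1, ← h1, coeff_natDegree, h5]
    simp
  have hdvd : X ^ (p * i) ∣ u ^ p := by
    rw [hu₁, mul_pow, ← pow_mul, mul_comm p i]
    exact dvd_mul_right _ _
  have hiδ : i ≤ δ := by omega
  by_cases hQ0 : Q = 0
  · apply key _ hQ0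
    rw [hQ0, zero_pow two_ne_zero, mul_zero, zero_add, hu₁, mul_pow, ← pow_mul] at h
    by_contra h1
    have h2 : i < δ := by omega
    have h3 : u₁ ^ p = X ^ (p * δ - i * p) := by
      apply mul_left_cancel₀ (pow_ne_zero (i * p) (X_ne_zero (R := ℝ)))
      rw [h, ← pow_add]
      congr 1
      have : i * p ≤ p * δ := by
        rw [mul_comm]
        exact Nat.mul_le_mul_left _ hiδ
      omega
    apply hX1
    apply prime_X.dvd_of_dvd_pow (n := p)
    rw [h3]
    apply dvd_pow_self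
    have : p * i < p * δ := Nat.mul_lt_mul_of_pos_left h2 (by omega)
    rw [mul_comm i p]
    omega
  · exfalso
    obtain ⟨v, hv, hv2⟩ := exists_eq_pow_rootMultiplicity_mul_and_not_dvd Q hQ0 0
    rw [map_zero, sub_zero] at hv hv2
    set j := rootMultiplicity 0 Q with hj
    have hv0 : v ≠ 0 := by
      rintro rfl
      simp at hv2
    have hdQ : j + v.natDegree = Q.natDegree := by
      rw [hv, natDegree_mul (pow_ne_zero _ X_ne_zero) hv0, natDegree_X_pow]
    -- `p i ≤ 2 j`
    have hji : p * i ≤ 2 * j := by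
      have h1 : X ^ (p * i) ∣ C σ * Q ^ 2 := by
        have h2 : C σ * Q ^ 2 = X ^ (p * δ) - u ^ p := by rw [← h]; ring
        rw [h2]
        exact dvd_sub (pow_dvd_pow _ (Nat.mul_le_mul_left _ hiδ)) hdvd
      have h2 : X ^ (p * i) ∣ Q ^ 2 := by
        have hu : IsUnit (C σ : ℝ[X]) := isUnit_C.2 (isUnit_iff_ne_zero.2 hσ)
        exact (hu.dvd_mul_left).1 h1
      by_contra h3
      rw [not_le] at h3
      rw [hv, mul_pow, ← pow_mul] at h2
      obtain ⟨w, hw⟩ := h2
      have h4 : v ^ 2 = X ^ (p * i - j * 2) * w := by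
        apply mul_left_cancel₀ (pow_ne_zero (j * 2) (X_ne_zero (R := ℝ)))
        rw [hw, ← mul_assoc, ← pow_add]
        congr 2
        omega
      apply hv2
      apply prime_X.dvd_of_dvd_pow (n := 2)
      rw [h4]
      exact (dvd_pow_self _ (by omega)).mul_right _
    -- the differential equation
    set W := 2 * X * derivative Q - C ((p * δ : ℕ) : ℝ) * Q with hW
    have hode : C σ * (Q * W) = u ^ (p - 1) * (C ((p * δ : ℕ) : ℝ) * u - C (p : ℝ) * (X * derivative u)) := by
      have h1 := congrArg derivative h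
      rw [derivative_add, derivative_C_mul, derivative_pow, derivative_pow, derivative_X_pow] at h1
      have hδ1 : 1 ≤ p * δ := hodd.pos
      have h2 : (X : ℝ[X]) * X ^ (p * δ - 1) = X ^ (p * δ) := by
        rw [← pow_succ', Nat.sub_add_cancel hδ1]
      have h3 : u * u ^ (p - 1) = u ^ p := by
        rw [← pow_succ', Nat.sub_add_cancel (by omega)]
      rw [hW]
      have h4 : (C ((2 : ℕ) : ℝ) : ℝ[X]) = 2 := by
        rw [Nat.cast_ofNat]
        exact map_ofNat C 2
      simp only [h4, Nat.reduceSub, _root_.pow_one] at h1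
      linear_combination X * h1 + C ((p * δ : ℕ) : ℝ) * h2 - C ((p * δ : ℕ) : ℝ) * h3 -
        C ((p * δ : ℕ) : ℝ) * h
    -- coprimality
    have hcop1 : IsCoprime (X : ℝ[X]) u₁ := by
      rw [(irreducible_X (R := ℝ)).coprime_iff_not_dvd]
      exact hX1
    have hcop2 : IsCoprime u₁ Q := by
      have h1 : IsCoprime u₁ (X ^ (p * δ)) := (hcop1.pow_left).symm
      rw [← h] at h1
      have h2 : IsCoprime u₁ (C σ * Q ^ 2) := by
        have h3 : u₁ ∣ u ^ p := by
          rw [hu₁]
          exact (dvd_mul_left _ _).trans (dvd_pow_self _ (by omega))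
        obtain ⟨w, hw⟩ := h3
        rw [hw] at h1
        exact IsCoprime.of_add_mul_left_right h1
      have h4 := IsCoprime.of_mul_right_right h2
      rwa [IsCoprime.pow_right_iff (by norm_num)] at h4
    have hdvdW : u₁ ^ (p - 1) ∣ W := by
      have h1 : u₁ ^ (p - 1) ∣ C σ * (Q * W) := by
        rw [hode, hu₁, mul_pow]
        exact ((dvd_mul_left _ _)).mul_right _
      have hu : IsUnit (C σ : ℝ[X]) := isUnit_C.2 (isUnit_iff_ne_zero.2 hσ)
      have h2 := (hu.dvd_mul_left).1 h1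
      exact (hcop2.pow_left).dvd_of_dvd_mul_left h2
    -- `X ^ j` exactly divides `W`
    have hW2 : W = X ^ j * (C (2 * (j : ℝ) - ((p * δ : ℕ) : ℝ)) * v + 2 * (X * derivative v)) := by
      rw [hW, hv, derivative_mul, derivative_X_pow]
      have h1 : (X : ℝ[X]) * (C (j : ℝ) * X ^ (j - 1)) = C (j : ℝ) * X ^ j := by
        rcases Nat.eq_zero_or_pos j with h0 | h0
        · rw [h0]; simp
        · rw [mul_left_comm, ← pow_succ', Nat.sub_add_cancel h0]
      rw [C_sub, C_mul, show (C (2 : ℝ) : ℝ[X]) = 2 from map_ofNat C 2]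
      linear_combination 2 * v * h1
    have hWj : ¬ X ∣ (C (2 * (j : ℝ) - ((p * δ : ℕ) : ℝ)) * v + 2 * (X * derivative v)) := by
      rw [X_dvd_iff]
      intro h1
      have h2 : (2 * (X * derivative v) : ℝ[X]).coeff 0 = 0 := by
        rw [← mul_assoc, mul_comm (2 : ℝ[X]) X, mul_assoc, mul_coeff_zero, coeff_X_zero, zero_mul]
      rw [coeff_add, h2, add_zero, coeff_C_mul, mul_eq_zero] at h1
      rcases h1 with h1 | h1
      · have h3 : 2 * j = p * δ := by
          have h4 : (2 : ℝ) * j = ((p * δ : ℕ) : ℝ) := by linarith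
          exact_mod_cast h4
        rw [← h3, Nat.odd_iff] at hodd
        omega
      · exact hv2 (X_dvd_iff.2 h1)
    have hW0 : W ≠ 0 := by
      intro h0
      rw [h0] at hW2
      have h1 := (mul_eq_zero.1 hW2.symm).resolve_left (pow_ne_zero _ X_ne_zero)
      rw [h1] at hWj
      simp at hWj
    have hdiv : X ^ j * u₁ ^ (p - 1) ∣ W :=
      (hcop1.pow : IsCoprime (X ^ j) (u₁ ^ (p - 1))).mul_dvd (by rw [hW2]; exact dvd_mul_right _ _)
        hdvdW
    have hdeg := natDegree_le_of_dvd hdiv hW0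
    rw [natDegree_mul (pow_ne_zero _ X_ne_zero) (pow_ne_zero _ hu₁0), natDegree_X_pow,
      natDegree_pow] at hdeg
    have hWd : W.natDegree ≤ Q.natDegree := by
      rw [hW]
      refine (natDegree_sub_le _ _).trans (max_le ?_ (natDegree_C_mul_le _ _))
      rcases Nat.eq_zero_or_pos Q.natDegree with h0 | h0
      · rw [eq_C_of_natDegree_eq_zero h0]
        simp
      · have h1 : (2 * X * derivative Q : ℝ[X]).natDegree ≤ 1 + (derivative Q).natDegree := by
          refine (natDegree_mul_le).trans (Nat.add_le_add_right ?_ _)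
          rw [show (2 : ℝ[X]) = C 2 from (map_ofNat C 2).symm]
          exact (natDegree_C_mul_le _ _).trans natDegree_X_le
        have h2 := natDegree_derivative_le Q
        omega
    -- arithmetic
    obtain ⟨k, hk⟩ : ∃ k, k = u₁.natDegree := ⟨_, rfl⟩
    rw [← hk] at hdeg hi
    have h1 : 2 * j + 2 * ((p - 1) * k) < p * δ := by omega
    rw [← hi] at h1
    obtain ⟨p', rfl⟩ : ∃ p', p = p' + 1 := ⟨p - 1, by omega⟩
    simp only [Nat.add_sub_cancel] at h1
    have h2 : (p' + 1) * i + 2 * (p' * k) < (p' + 1) * i + (p' + 1) * k := by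
      calc _ ≤ 2 * j + 2 * (p' * k) := by omega
        _ < _ := by rw [← mul_add (p' + 1)]; exact h1
    have h3 : 2 * (p' * k) < (p' + 1) * k := by omega
    have h4 : (p' + 1) * k ≤ 2 * (p' * k) := by
      rw [← mul_assoc]
      exact Nat.mul_le_mul_right _ (by omega)
    omega

end Pool.Agent.X95T
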