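import Pool.Agent.X95T.HF1

set_option autoImplicit false

namespace Pool.Agent.X95T

open Polynomial

section Cont

variable {V : Type} [TopologicalSpace V]

/-- all coefficients are continuous -/
def CC (F : V → ℝ[X]) : Prop := ∀ i, Continuous fun v => (F v).coeff i

lemma CC.add {F G : V → ℝ[X]} (hF : CC F) (hG : CC G) : CC fun v => F v + G v := by
  intro i
  simp only [coeff_add]
  exact (hF i).add (hG i)

lemma CC.mul {F G : V → ℝ[X]} (hF : CC F) (hG : CC G) : CC fun v => F v * G v := by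
  intro i
  simp only [coeff_mul]
  exact continuous_finsetSum _ fun x _ => (hF x.1).mul (hG x.2)

lemma CC.const (P : ℝ[X]) : CC fun _ : V => P := fun _ => continuous_const

lemma CC.pow {F : V → ℝ[X]} (hF : CC F) (n : ℕ) : CC fun v => F v ^ n := by
  induction n with
  | zero => simpa using CC.const 1
  | succ n ih =>
    simp only [pow_succ]
    exact ih.mul hF

lemma CC.C_fun {c : V → ℝ} (hc : Continuous c) : CC fun v => C (c v) := by
  intro i
  simp only [coeff_C]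
  split_ifs
  · exact hc
  · exact continuous_const

lemma CC.sum {ι : Type} (s : Finset ι) {F : ι → V → ℝ[X]} (hF : ∀ i, CC (F i)) :
    CC fun v => ∑ i ∈ s, F i v := by
  intro j
  simp only [finsetSum_coeff]
  exact continuous_finsetSum _ fun i _ => hF i j

end Cont

/-- the parameters -/
abbrev Par (δ m : ℕ) : Type := (Fin δ → ℝ) × (Fin (m + 1) → ℝ)

noncomputable def uP {δ m : ℕ} (v : Par δ m) : ℝ[X] := X ^ δ + ∑ i : Fin δ, C (v.1 i) * X ^ (i : ℕ)

noncomputable def QP {δ m : ℕ} (v : Par δ m) : ℝ[X] := ∑ i : Fin (m + 1), C (v.2 i) * X ^ (i : ℕ)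

noncomputable def FP {δ m : ℕ} (p : ℕ) (σ : ℝ) (v : Par δ m) : ℝ[X] :=
  C σ * QP v ^ 2 + uP v ^ p

lemma uP_cc {δ m : ℕ} : CC (fun v : Par δ m => uP v) := by
  refine (CC.const _).add (CC.sum _ fun i => ?_)
  exact (CC.C_fun ((continuous_apply i).comp continuous_fst)).mul (CC.const _)

lemma QP_cc {δ m : ℕ} : CC (fun v : Par δ m => QP v) := by
  refine CC.sum _ fun i => ?_
  exact (CC.C_fun ((continuous_apply i).comp continuous_snd)).mul (CC.const _)

lemma FP_cc {δ m : ℕ} (p : ℕ) (σ : ℝ) : CC (fun v : Par δ m => FP p σ v) :=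
  ((CC.const _).mul (QP_cc.pow 2)).add (uP_cc.pow p)

lemma coeff_sumFin {n : ℕ} (a : Fin n → ℝ) (j : ℕ) :
    (∑ i : Fin n, C (a i) * X ^ (i : ℕ) : ℝ[X]).coeff j = if h : j < n then a ⟨j, h⟩ else 0 := by
  rw [finsetSum_coeff]
  simp only [coeff_C_mul, coeff_X_pow, mul_ite, mul_one, mul_zero]
  split_ifs with h
  · rw [Finset.sum_eq_single ⟨j, h⟩]
    · simp
    · intro b _ hb
      rw [if_neg]
      intro h1
      apply hb
      ext
      exact h1.symm
    · simp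
  · apply Finset.sum_eq_zero
    intro i _
    rw [if_neg]
    omega

lemma uP_lt {δ m : ℕ} (v : Par δ m) :
    (∑ i : Fin δ, C (v.1 i) * X ^ (i : ℕ) : ℝ[X]).degree < δ := by
  rw [degree_lt_iff_coeff_zero]
  intro j hj
  rw [coeff_sumFin, dif_neg (by omega)]

lemma uP_monic {δ m : ℕ} (v : Par δ m) : (uP v).Monic := monic_X_pow_add (uP_lt v)

lemma uP_deg {δ m : ℕ} (v : Par δ m) : (uP v).natDegree = δ := by
  have h := degree_add_eq_left_of_degree_lt (p := (X ^ δ : ℝ[X])) (q :=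
    (∑ i : Fin δ, C (v.1 i) * X ^ (i : ℕ) : ℝ[X])) (by rw [degree_X_pow]; exact uP_lt v)
  rw [degree_X_pow] at h
  exact natDegree_eq_of_degree_eq_some h

lemma QP_deg {δ m : ℕ} (v : Par δ m) : (QP v).natDegree ≤ m := by
  rw [natDegree_le_iff_coeff_eq_zero]
  intro j hj
  rw [QP, coeff_sumFin, dif_neg (by omega)]

/-- scaling -/
noncomputable def sc {δ m : ℕ} (d : ℕ) (s : ℝ) (v : Par δ m) : Par δ m :=
  (fun i => s ^ (2 * (δ - (i : ℕ))) * v.1 i, fun i => s ^ (d - 2 * (i : ℕ)) * v.2 i)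

lemma sc_uP {δ m : ℕ} (d : ℕ) (s : ℝ) (v : Par δ m) :
    (uP (sc d s v)).comp (C (s ^ 2) * X) = C (s ^ (2 * δ)) * uP v := by
  rw [uP, uP, add_comp, Polynomial.sum_comp, mul_add, Finset.mul_sum]
  congr 1
  · rw [pow_comp, X_comp, mul_pow, ← C_pow, ← pow_mul]
  · apply Finset.sum_congr rfl
    intro i _
    rw [mul_comp, C_comp, pow_comp, X_comp, mul_pow, ← C_pow, ← mul_assoc, ← mul_assoc, ← C_mul,
      ← C_mul, ← pow_mul]
    congr 2
    have h : 2 * δ = 2 * (δ - (i : ℕ)) + 2 * (i : ℕ) := by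
      have := i.2
      omega
    show s ^ (2 * (δ - (i : ℕ))) * v.1 i * s ^ (2 * (i : ℕ)) = _
    rw [h, pow_add]
    have h2 : 2 * (δ - (i : ℕ)) + 2 * (i : ℕ) = 2 * δ := h.symm
    ring

lemma sc_QP {δ m : ℕ} (d : ℕ) (hm : 2 * m ≤ d) (s : ℝ) (v : Par δ m) :
    (QP (sc d s v)).comp (C (s ^ 2) * X) = C (s ^ d) * QP v := by
  rw [QP, QP, Polynomial.sum_comp, Finset.mul_sum]
  apply Finset.sum_congr rfl
  intro i _
  rw [mul_comp, C_comp, pow_comp, X_comp, mul_pow, ← C_pow, ← mul_assoc, ← mul_assoc, ← C_mul,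
    ← C_mul, ← pow_mul]
  congr 2
  obtain ⟨k, hk⟩ : ∃ k, k = d - 2 * (i : ℕ) := ⟨_, rfl⟩
  have h : d = k + 2 * (i : ℕ) := by
    have := i.2
    omega
  show s ^ (d - 2 * (i : ℕ)) * v.2 i * s ^ (2 * (i : ℕ)) = _
  rw [← hk, h, pow_add]
  ring

lemma sc_FP {δ m : ℕ} (p : ℕ) (σ : ℝ) (hm : 2 * m ≤ p * δ) (s : ℝ) (v : Par δ m) :
    (FP p σ (sc (p * δ) s v)).comp (C (s ^ 2) * X) = C (s ^ (2 * (p * δ))) * FP p σ v := by
  rw [FP, FP, add_comp, mul_comp, pow_comp, pow_comp, sc_uP, sc_QP _ hm, C_comp, mul_pow, mul_pow,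
    ← C_pow, ← C_pow, ← pow_mul, ← pow_mul]
  have h1 : p * δ * 2 = 2 * (p * δ) := mul_comm _ _
  have h2 : 2 * δ * p = 2 * (p * δ) := by ring
  rw [h1, h2]
  ring

lemma sc_FP_coeff {δ m : ℕ} (p : ℕ) (σ : ℝ) (hm : 2 * m ≤ p * δ) (s : ℝ) (hs : s ≠ 0)
    (v : Par δ m) (i : ℕ) (hi : i ≤ p * δ) :
    (FP p σ (sc (p * δ) s v)).coeff i = s ^ (2 * (p * δ - i)) * (FP p σ v).coeff i := by
  have h := congrArg (fun P : ℝ[X] => P.coeff i) (sc_FP p σ hm s v)
  simp only [comp_C_mul_X_coeff, coeff_C_mul] at h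
  have h1 : s ^ (2 * (p * δ)) = s ^ (2 * (p * δ - i)) * (s ^ 2) ^ i := by
    rw [← pow_mul, ← pow_add]
    congr 1
    omega
  rw [h1] at h
  apply mul_right_cancel₀ (pow_ne_zero i (pow_ne_zero 2 hs))
  rw [h]
  ring

/-- the size of the coefficients below the leading one -/
noncomputable def gP {δ m : ℕ} (p : ℕ) (σ : ℝ) (v : Par δ m) : ℝ :=
  ∑ i ∈ Finset.range (p * δ), |(FP p σ v).coeff i|

lemma gP_cont {δ m : ℕ} (p : ℕ) (σ : ℝ) : Continuous (gP p σ : Par δ m → ℝ) := by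
  unfold gP
  exact continuous_finsetSum _ fun i _ => (FP_cc p σ i).abs

lemma gP_nonneg {δ m : ℕ} (p : ℕ) (σ : ℝ) (v : Par δ m) : 0 ≤ gP p σ v :=
  Finset.sum_nonneg fun _ _ => abs_nonneg _

lemma gP_zero {δ m : ℕ} (p : ℕ) (hp3 : 3 ≤ p) (hodd : Odd (p * δ)) (hm : 2 * m < p * δ) (σ : ℝ)
    (hσ : σ ≠ 0) (v : Par δ m) (h : gP p σ v = 0) : v = 0 := by
  have h1 : ∀ i < p * δ, (FP p σ v).coeff i = 0 := by
    intro i hi
    rw [gP, Finset.sum_eq_zero_iff_of_nonneg fun _ _ => abs_nonneg _] at h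
    exact abs_eq_zero.1 (h i (Finset.mem_range.2 hi))
  have hQd := QP_deg v
  have hlow : (C σ * QP v ^ 2 : ℝ[X]).degree < (uP v ^ p).degree := by
    have h2 : (uP v ^ p).degree = ((p * δ : ℕ) : WithBot ℕ) := by
      rw [degree_eq_natDegree ((uP_monic v).pow p).ne_zero, natDegree_pow, uP_deg]
    rw [h2]
    refine lt_of_le_of_lt degree_le_natDegree ?_
    norm_cast
    refine lt_of_le_of_lt (natDegree_C_mul_le _ _) ?_
    rw [natDegree_pow]
    omega
  have hmon : (FP p σ v).Monic := by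
    rw [FP]
    exact ((uP_monic v).pow p).add_of_right hlow
  have hdeg : (FP p σ v).natDegree = p * δ := by
    rw [FP, natDegree_eq_of_degree_eq (degree_add_eq_right_of_degree_lt hlow), natDegree_pow, uP_deg]
  have h2 : FP p σ v = X ^ (p * δ) := by
    ext i
    rw [coeff_X_pow]
    rcases lt_trichotomy i (p * δ) with h3 | h3 | h3
    · rw [h1 i h3, if_neg h3.ne]
    · rw [if_pos h3, h3, ← hdeg]
      exact hmon
    · rw [if_neg h3.ne', coeff_eq_zero_of_natDegree_lt (by rw [hdeg]; exact h3)]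
  obtain ⟨hQ, hu⟩ := triv_sol hp3 hodd σ hσ (uP v) (QP v) (uP_monic v) (uP_deg v)
    (by omega) h2
  have e1 : v.1 = 0 := by
    funext i
    have h3 := congrArg (fun P : ℝ[X] => P.coeff i) hu
    simp only [uP, coeff_add, coeff_sumFin, dif_pos i.2] at h3
    simpa using h3
  have e2 : v.2 = 0 := by
    funext i
    have h3 := congrArg (fun P : ℝ[X] => P.coeff i) hQ
    simp only [QP, coeff_sumFin, dif_pos i.2] at h3
    simpa using h3
  exact Prod.ext e1 e2

lemma sc_cont {δ m : ℕ} (d : ℕ) (v : Par δ m) : Continuous fun s : ℝ => sc d s v := by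
  unfold sc
  refine Continuous.prodMk ?_ ?_
  · exact continuous_pi fun i => (continuous_pow _).mul continuous_const
  · exact continuous_pi fun i => (continuous_pow _).mul continuous_const

lemma sc_zero {δ m : ℕ} (d : ℕ) (hm : 2 * m < d) (v : Par δ m) : sc d 0 v = 0 := by
  unfold sc
  refine Prod.ext ?_ ?_
  · funext i
    have := i.2
    show (0 : ℝ) ^ (2 * (δ - (i : ℕ))) * v.1 i = 0
    rw [zero_pow (by omega), zero_mul]
  · funext i
    have := i.2
    show (0 : ℝ) ^ (d - 2 * (i : ℕ)) * v.2 i = 0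
    rw [zero_pow (by omega), zero_mul]

lemma sc_one {δ m : ℕ} (d : ℕ) (v : Par δ m) : sc d 1 v = v := by
  unfold sc
  refine Prod.ext ?_ ?_
  · funext i
    show (1 : ℝ) ^ (2 * (δ - (i : ℕ))) * v.1 i = v.1 i
    rw [one_pow, one_mul]
  · funext i
    show (1 : ℝ) ^ (d - 2 * (i : ℕ)) * v.2 i = v.2 i
    rw [one_pow, one_mul]

lemma sc_norm {δ m : ℕ} (d : ℕ) (hδ : δ ≤ d) (s : ℝ) (h0 : 0 ≤ s) (h1 : s ≤ 1) (v : Par δ m) :
    s ^ (2 * d) * ‖v‖ ≤ ‖sc d s v‖ := by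
  rw [Prod.norm_def v, mul_max_of_nonneg _ _ (pow_nonneg h0 _)]
  apply max_le
  · refine le_trans ?_ (norm_fst_le (sc d s v))
    rcases eq_or_lt_of_le (pow_nonneg h0 (2 * d)) with h2 | h2
    · rw [← h2, zero_mul]
      exact norm_nonneg _
    rw [← le_div_iff₀' h2, pi_norm_le_iff_of_nonneg (div_nonneg (norm_nonneg _) h2.le)]
    intro i
    rw [le_div_iff₀' h2]
    have h3 := norm_le_pi_norm (sc d s v).1 i
    refine le_trans ?_ h3
    show _ ≤ ‖s ^ (2 * (δ - (i : ℕ))) * v.1 i‖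
    rw [norm_mul, norm_pow, Real.norm_of_nonneg h0]
    apply mul_le_mul_of_nonneg_right _ (norm_nonneg _)
    exact pow_le_pow_of_le_one h0 h1 (by omega)
  · refine le_trans ?_ (norm_snd_le (sc d s v))
    rcases eq_or_lt_of_le (pow_nonneg h0 (2 * d)) with h2 | h2
    · rw [← h2, zero_mul]
      exact norm_nonneg _
    rw [← le_div_iff₀' h2, pi_norm_le_iff_of_nonneg (div_nonneg (norm_nonneg _) h2.le)]
    intro i
    rw [le_div_iff₀' h2]
    have h3 := norm_le_pi_norm (sc d s v).2 i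
    refine le_trans ?_ h3
    show _ ≤ ‖s ^ (d - 2 * (i : ℕ)) * v.2 i‖
    rw [norm_mul, norm_pow, Real.norm_of_nonneg h0]
    apply mul_le_mul_of_nonneg_right _ (norm_nonneg _)
    exact pow_le_pow_of_le_one h0 h1 (by omega)

/-- the parameters are bounded in terms of the coefficients of `σ Q ^ 2 + u ^ p` -/
theorem par_bound (p δ m : ℕ) (hp3 : 3 ≤ p) (hodd : Odd (p * δ)) (hm : 2 * m < p * δ) (σ : ℝ)
    (hσ : σ ≠ 0) : ∃ K : ℝ, 1 ≤ K ∧ ∀ v : Par δ m, ‖v‖ ≤ K * (1 + gP p σ v) ^ (p * δ) := by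
  have hδp : δ ≤ p * δ := Nat.le_mul_of_pos_left _ (by omega)
  have hcomp : IsCompact (Metric.sphere (0 : Par δ m) 1) := isCompact_sphere _ _
  have hne : (Metric.sphere (0 : Par δ m) 1).Nonempty := by
    apply NormedSpace.sphere_nonempty.2
    norm_num
  obtain ⟨v₀, hv₀, hmin⟩ := hcomp.exists_isMinOn hne (gP_cont p σ).continuousOn
  have hμ : 0 < gP p σ v₀ := by
    rcases (gP_nonneg p σ v₀).lt_or_eq with h | h
    · exact h
    · exfalso
      have h1 := gP_zero p hp3 hodd hm σ hσ v₀ h.symm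
      rw [h1, mem_sphere_zero_iff_norm, norm_zero] at hv₀
      norm_num at hv₀
  set μ := gP p σ v₀ with hμd
  refine ⟨1 + (1 / μ) ^ (p * δ), by linarith [pow_pos (one_div_pos.2 hμ) (p * δ)], ?_⟩
  intro v
  have hG := gP_nonneg p σ v
  have hG1 : 1 ≤ (1 + gP p σ v) ^ (p * δ) := one_le_pow₀ (by linarith)
  rcases le_or_gt ‖v‖ 1 with hv | hv
  · refine hv.trans ?_
    have := pow_pos (one_div_pos.2 hμ) (p * δ)
    nlinarith
  · obtain ⟨s, hs, hsn⟩ : (1 : ℝ) ∈ (fun s => ‖sc (p * δ) s v‖) '' Set.Icc 0 1 := by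
      apply intermediate_value_Icc zero_le_one
      · exact (sc_cont (p * δ) v).norm.continuousOn
      · simp only [sc_zero (p * δ) hm, sc_one, norm_zero]
        exact ⟨zero_le_one, hv.le⟩
    simp only at hsn
    have hs0 : s ≠ 0 := by
      rintro rfl
      rw [sc_zero _ hm, norm_zero] at hsn
      norm_num at hsn
    have hs0' : 0 < s := lt_of_le_of_ne hs.1 hs0.symm
    have h1 : μ ≤ s ^ 2 * gP p σ v := by
      have h2 : gP p σ v₀ ≤ gP p σ (sc (p * δ) s v) := hmin (mem_sphere_zero_iff_norm.2 hsn)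
      refine h2.trans ?_
      rw [gP, gP, Finset.mul_sum]
      apply Finset.sum_le_sum
      intro i hi
      rw [Finset.mem_range] at hi
      rw [sc_FP_coeff p σ hm.le s hs0 v i hi.le, abs_mul, abs_of_nonneg (pow_nonneg hs.1 _)]
      apply mul_le_mul_of_nonneg_right _ (abs_nonneg _)
      exact pow_le_pow_of_le_one hs.1 hs.2 (by omega)
    have h2 := sc_norm (p * δ) hδp s hs.1 hs.2 v
    rw [hsn] at h2
    have h3 : μ ^ (p * δ) ≤ s ^ (2 * (p * δ)) * gP p σ v ^ (p * δ) := by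
      calc _ ≤ (s ^ 2 * gP p σ v) ^ (p * δ) := pow_le_pow_left₀ hμ.le h1 _
        _ = _ := by rw [mul_pow, ← pow_mul]
    have h4 : ‖v‖ * μ ^ (p * δ) ≤ gP p σ v ^ (p * δ) := by
      calc _ ≤ ‖v‖ * (s ^ (2 * (p * δ)) * gP p σ v ^ (p * δ)) :=
            mul_le_mul_of_nonneg_left h3 (norm_nonneg _)
        _ = (s ^ (2 * (p * δ)) * ‖v‖) * gP p σ v ^ (p * δ) := by ring
        _ ≤ 1 * gP p σ v ^ (p * δ) := mul_le_mul_of_nonneg_right h2 (pow_nonneg hG _)
        _ = _ := one_mul _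
    have h5 : ‖v‖ ≤ gP p σ v ^ (p * δ) * (1 / μ) ^ (p * δ) := by
      rw [one_div, inv_pow, ← div_eq_mul_inv, le_div_iff₀ (pow_pos hμ _)]
      exact h4
    refine h5.trans ?_
    have h6 : gP p σ v ^ (p * δ) ≤ (1 + gP p σ v) ^ (p * δ) := pow_le_pow_left₀ hG (by linarith) _
    have h7 := pow_pos (one_div_pos.2 hμ) (p * δ)
    nlinarith

end Pool.Agent.X95T
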