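import Pool.Agent.X95T.HF2
import Pool.Agent.X95T.HE

set_option autoImplicit false

namespace Pool.Agent.X95T

open Polynomial

/-- the sizes of `Q`, `u`, `e` are bounded in terms of `f = Q ^ 2 - e u ^ p` -/
theorem int_bound (p δ : ℕ) (hp3 : 3 ≤ p) (hodd : Odd (p * δ)) :
    ∃ K : ℕ, ∀ (f Q u : ℤ[X]) (e : ℤ) (H : ℕ), f.natDegree = p * δ → u.natDegree = δ → e ≠ 0 →
      f = Q ^ 2 - C e * u ^ p → (∀ i, (f.coeff i).natAbs ≤ H) →
      (∀ i, (Q.coeff i).natAbs ≤ K * H ^ (p * δ + 1)) ∧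
      (∀ i, (u.coeff i).natAbs ≤ K * H ^ (p * δ + 1)) ∧ e.natAbs ≤ H ∧ 1 ≤ H := by
  set m := (p * δ - 1) / 2 with hm
  have hpδ : 1 ≤ p * δ := hodd.pos
  have h2m : 2 * m < p * δ := by omega
  obtain ⟨K₁, hK₁, h₁⟩ := par_bound p δ m hp3 hodd h2m 1 one_ne_zero
  obtain ⟨K₂, hK₂, h₂⟩ := par_bound p δ m hp3 hodd h2m (-1) (by norm_num)
  set K := ⌈(K₁ + K₂) * (1 + p * δ) ^ (p * δ)⌉₊ with hK
  refine ⟨K, ?_⟩
  intro f Q u e H hf hu he hfe hH
  have hdeg := hyp_degs p f Q 1 u e he (by rw [hf]; exact hodd) one_ne_zero (by rw [hfe]; ring)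
  have hQ : 2 * Q.natDegree < p * δ := by
    rw [hf, hu, natDegree_one] at hdeg
    omega
  have hu0 : u ≠ 0 := by
    rintro rfl
    rw [natDegree_zero] at hu
    rw [← hu, mul_zero] at hpδ
    omega
  set l := u.leadingCoeff with hl
  have hl0 : l ≠ 0 := leadingCoeff_ne_zero.2 hu0
  have hlead : f.leadingCoeff = -(e * l ^ p) := by
    have h3 : (C e * u ^ p).coeff (p * δ) = e * l ^ p := by
      have h4 : (C e * u ^ p).natDegree = p * δ := by
        rw [natDegree_C_mul he, natDegree_pow, hu]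
      rw [← h4, coeff_natDegree, leadingCoeff_mul, leadingCoeff_C, leadingCoeff_pow]
    rw [leadingCoeff, hf, hfe, coeff_sub, h3, coeff_eq_zero_of_natDegree_lt (by
      rw [natDegree_pow]; exact hQ), zero_sub]
  set ℓ := f.leadingCoeff with hℓ
  have hℓ0 : ℓ ≠ 0 := by
    rw [hlead]
    exact neg_ne_zero.2 (mul_ne_zero he (pow_ne_zero _ hl0))
  have hℓH : ℓ.natAbs ≤ H := hH _
  have hℓ1 : 1 ≤ ℓ.natAbs := Int.natAbs_pos.2 hℓ0
  have hH1 : 1 ≤ H := hℓ1.trans hℓH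
  have hprod : ℓ.natAbs = e.natAbs * l.natAbs ^ p := by
    rw [hlead, Int.natAbs_neg, Int.natAbs_mul, Int.natAbs_pow]
  have heH : e.natAbs ≤ H := by
    refine le_trans ?_ hℓH
    rw [hprod]
    exact Nat.le_mul_of_pos_right _ (Nat.pow_pos (Int.natAbs_pos.2 hl0))
  have hlH : l.natAbs ≤ H := by
    refine le_trans ?_ hℓH
    rw [hprod]
    exact (Nat.le_self_pow (by omega) _).trans (Nat.le_mul_of_pos_left _ (Int.natAbs_pos.2 he))
  -- the real parameters
  have hℓR : (ℓ : ℝ) ≠ 0 := by exact_mod_cast hℓ0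
  have hlR : (l : ℝ) ≠ 0 := by exact_mod_cast hl0
  set r := Real.sqrt |(ℓ : ℝ)| with hr
  have hr0 : 0 < r := Real.sqrt_pos.2 (abs_pos.2 hℓR)
  have hr2 : r ^ 2 = |(ℓ : ℝ)| := Real.sq_sqrt (abs_nonneg _)
  have hℓ1R : (1 : ℝ) ≤ |(ℓ : ℝ)| := by
    rw [← Int.cast_abs]
    exact_mod_cast Int.one_le_abs hℓ0
  have hrℓ : r ≤ |(ℓ : ℝ)| := by
    rw [hr, Real.sqrt_le_left (abs_nonneg _)]
    nlinarith
  set v : Par δ m := (fun i => (u.coeff i : ℝ) / l, fun i => (Q.coeff i : ℝ) / r) with hv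
  have huP : uP v = C ((1 : ℝ) / l) * u.map (Int.castRingHom ℝ) := by
    ext j
    rw [uP, coeff_add, coeff_sumFin, coeff_C_mul, coeff_map, coeff_X_pow]
    simp only [eq_intCast]
    rcases lt_trichotomy j δ with h3 | h3 | h3
    · rw [dif_pos h3, if_neg h3.ne, zero_add]
      show (u.coeff j : ℝ) / l = _
      ring
    · rw [dif_neg (by omega), if_pos h3, add_zero, h3, ← hu, coeff_natDegree, ← hl]
      field_simp
    · rw [dif_neg (by omega), if_neg h3.ne', coeff_eq_zero_of_natDegree_lt (by omega)]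
      simp
  have hQP : QP v = C ((1 : ℝ) / r) * Q.map (Int.castRingHom ℝ) := by
    ext j
    rw [QP, coeff_sumFin, coeff_C_mul, coeff_map]
    simp only [eq_intCast]
    by_cases h3 : j < m + 1
    · rw [dif_pos h3]
      show (Q.coeff j : ℝ) / r = _
      ring
    · rw [dif_neg h3, coeff_eq_zero_of_natDegree_lt (by omega)]
      simp
  have hFP : ∀ σ : ℝ, σ / |(ℓ : ℝ)| = 1 / ℓ →
      FP p σ v = C ((1 : ℝ) / ℓ) * f.map (Int.castRingHom ℝ) := by
    intro σ hσ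
    have h3 : (Polynomial.map (Int.castRingHom ℝ) f) =
        (Q.map (Int.castRingHom ℝ)) ^ 2 - C (e : ℝ) * (u.map (Int.castRingHom ℝ)) ^ p := by
      rw [hfe]
      simp
    have h4 : σ * (1 / r) ^ 2 = 1 / ℓ := by
      rw [one_div, inv_pow, hr2, ← hσ]
      ring
    have h5 : ((1 : ℝ) / l) ^ p = -(1 / ℓ * e) := by
      have h6 : (ℓ : ℝ) = -(e * l ^ p) := by exact_mod_cast hlead
      have h7 : (e : ℝ) ≠ 0 := by exact_mod_cast he
      rw [h6, div_pow, one_pow]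
      field_simp
    rw [FP, huP, hQP, h3, mul_pow, mul_pow, ← C_pow, ← C_pow, h5, ← mul_assoc, ← C_mul, h4, C_neg,
      C_mul]
    ring
  have hG : ∀ σ : ℝ, σ / |(ℓ : ℝ)| = 1 / ℓ → gP p σ v ≤ (p * δ) * H := by
    intro σ hσ
    rw [gP, hFP σ hσ]
    calc _ ≤ ∑ i ∈ Finset.range (p * δ), (H : ℝ) := by
          apply Finset.sum_le_sum
          intro i _
          rw [coeff_C_mul, coeff_map, abs_mul, abs_div, abs_one]
          simp only [eq_intCast]
          have h3 : |(f.coeff i : ℝ)| ≤ H := by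
            have := hH i
            rw [← Int.cast_abs, ← Int.natCast_natAbs]
            exact_mod_cast this
          calc _ ≤ 1 * |(f.coeff i : ℝ)| := by
                apply mul_le_mul_of_nonneg_right _ (abs_nonneg _)
                rw [div_le_one (by linarith)]
                exact hℓ1R
            _ ≤ _ := by rw [one_mul]; exact h3
      _ = _ := by
          rw [Finset.sum_const, Finset.card_range, nsmul_eq_mul]
          push_cast
          ring
  have hvn : ‖v‖ ≤ K * (H : ℝ) ^ (p * δ) := by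
    have hstep : ∀ (σ K' : ℝ), K' ≤ K₁ + K₂ → 0 ≤ K' → σ / |(ℓ : ℝ)| = 1 / ℓ →
        ‖v‖ ≤ K' * (1 + gP p σ v) ^ (p * δ) → ‖v‖ ≤ K * (H : ℝ) ^ (p * δ) := by
      intro σ K' hK' hK'0 hσ h3
      have h4 := hG σ hσ
      have hHR : (1 : ℝ) ≤ H := by exact_mod_cast hH1
      have h5 : 1 + gP p σ v ≤ (1 + p * δ) * H := by nlinarith
      have h6 : (0 : ℝ) ≤ 1 + gP p σ v := by linarith [gP_nonneg p σ v]
      calc ‖v‖ ≤ K' * (1 + gP p σ v) ^ (p * δ) := h3
        _ ≤ (K₁ + K₂) * ((1 + p * δ) * H) ^ (p * δ) := by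
            apply mul_le_mul hK' (pow_le_pow_left₀ h6 h5 _) (pow_nonneg h6 _) (by linarith)
        _ = ((K₁ + K₂) * (1 + p * δ) ^ (p * δ)) * (H : ℝ) ^ (p * δ) := by
            rw [mul_pow]; ring
        _ ≤ _ := by
            apply mul_le_mul_of_nonneg_right (Nat.le_ceil _) (by positivity)
    rcases lt_or_gt_of_ne hℓR with h3 | h3
    · apply hstep (-1) K₂ (by linarith) (by linarith) _ (h₂ v)
      rw [abs_of_neg h3]
      field_simp
    · apply hstep 1 K₁ (by linarith) (by linarith) _ (h₁ v)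
      rw [abs_of_pos h3]
  have hK1 : 1 ≤ K := by
    have h3 : (1 : ℝ) ≤ (K₁ + K₂) * (1 + p * δ) ^ (p * δ) := by
      have h4 : (1 : ℝ) ≤ (1 + p * δ : ℝ) ^ (p * δ) := one_le_pow₀ (by
        have : (0 : ℝ) ≤ (p : ℝ) * δ := by positivity
        linarith)
      nlinarith
    have h4 : (1 : ℝ) ≤ K := h3.trans (Nat.le_ceil _)
    exact_mod_cast h4
  have hfin : ∀ (z : ℤ) (w : ℝ), |(z : ℝ)| ≤ w * ‖v‖ → w ≤ H →
      z.natAbs ≤ K * H ^ (p * δ + 1) := by
    intro z w h3 h4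
    have h5 : |(z : ℝ)| ≤ K * (H : ℝ) ^ (p * δ + 1) := by
      calc _ ≤ w * ‖v‖ := h3
        _ ≤ H * (K * (H : ℝ) ^ (p * δ)) := mul_le_mul h4 hvn (norm_nonneg _) (by positivity)
        _ = _ := by rw [pow_succ]; ring
    rw [← Int.cast_abs, ← Int.natCast_natAbs] at h5
    exact_mod_cast h5
  refine ⟨?_, ?_, heH, hH1⟩
  · intro i
    by_cases h3 : i < m + 1
    · apply hfin _ r
      · have h4 := (norm_le_pi_norm v.2 ⟨i, h3⟩).trans (norm_snd_le v)
        have h5 : ‖v.2 ⟨i, h3⟩‖ = |(Q.coeff i : ℝ)| / r := by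
          rw [hv, Real.norm_eq_abs, abs_div, abs_of_pos hr0]
        rw [h5, div_le_iff₀ hr0] at h4
        linarith
      · refine hrℓ.trans ?_
        rw [← Int.cast_abs, ← Int.natCast_natAbs]
        exact_mod_cast hℓH
    · rw [coeff_eq_zero_of_natDegree_lt (by omega)]
      simp
  · intro i
    rcases lt_trichotomy i δ with h3 | h3 | h3
    · apply hfin _ |(l : ℝ)|
      · have h4 := (norm_le_pi_norm v.1 ⟨i, h3⟩).trans (norm_fst_le v)
        have h5 : ‖v.1 ⟨i, h3⟩‖ = |(u.coeff i : ℝ)| / |(l : ℝ)| := by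
          rw [hv, Real.norm_eq_abs, abs_div]
        rw [h5, div_le_iff₀ (abs_pos.2 hlR)] at h4
        linarith
      · rw [← Int.cast_abs, ← Int.natCast_natAbs]
        exact_mod_cast hlH
    · rw [h3, ← hu, coeff_natDegree, ← hl, hu]
      calc l.natAbs ≤ H := hlH
        _ ≤ H ^ (p * δ + 1) := Nat.le_self_pow (by omega) _
        _ ≤ _ := Nat.le_mul_of_pos_left _ hK1
    · rw [coeff_eq_zero_of_natDegree_lt (by omega)]
      simp

/-- the bound in terms of the coefficients of `f` -/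
theorem hyp_pure (p δ : ℕ) (hp : p.Prime) (hp2 : p ≠ 2) (hδ : Odd δ) :
    ∃ K : ℕ, ∀ S : Finset ℕ, ∃ c : ℕ, ∀ (f Q u U V : ℤ[X]) (e b : ℤ) (H : ℕ),
      f.natDegree = p * δ → u.natDegree = δ → Squarefree (f.map (Int.castRingHom ℚ)) →
      f = Q ^ 2 - C e * u ^ p → U * u + V * (C 2 * Q) = C b → b * (e * u.leadingCoeff) ≠ 0 →
      (∀ q : ℕ, q.Prime → (q : ℤ) ∣ b * (e * u.leadingCoeff) → q ∈ S) →
      (∀ i, (f.coeff i).natAbs ≤ H) →
      ∀ x y : ℤ, y ^ 2 = f.eval x → x.natAbs ≤ (c * H) ^ K := by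
  have hp3 : 3 ≤ p := by
    have := hp.two_le
    omega
  have hodd : Odd (p * δ) := (hp.odd_of_ne_two hp2).mul hδ
  obtain ⟨K, hK⟩ := hyp_all (p * δ) p hodd hp hp2
  obtain ⟨L, hL⟩ := int_bound p δ hp3 hodd
  refine ⟨(p * δ + 1) * K, fun S => ?_⟩
  obtain ⟨c, hc⟩ := hK S
  refine ⟨c * (L + 1), ?_⟩
  intro f Q u U V e b H hf hu hsq hfe hUV hne hS hH x y hy
  have he : e ≠ 0 := left_ne_zero_of_mul (right_ne_zero_of_mul hne)
  obtain ⟨h1, h2, h3, hH1⟩ := hL f Q u e H hf hu he hfe hH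
  have hle : L * H ^ (p * δ + 1) ≤ (L + 1) * H ^ (p * δ + 1) :=
    Nat.mul_le_mul_right _ (Nat.le_succ _)
  have hδ1 : 1 ≤ δ := hδ.pos
  have hmain := hc f Q 1 u U V e b ((L + 1) * H ^ (p * δ + 1)) hf hsq one_ne_zero
    (by
      rw [hu]
      calc δ = 1 * δ := (one_mul _).symm
        _ < p * δ := Nat.mul_lt_mul_of_pos_right (by omega) hδ1)
    (by rw [hfe]; ring) hUV hne hS (fun i => (h1 i).trans hle) (fun i => (h2 i).trans hle)
    (by
      calc e.natAbs ≤ H := h3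
        _ ≤ H ^ (p * δ + 1) := Nat.le_self_pow (by omega) _
        _ ≤ _ := Nat.le_mul_of_pos_left _ (Nat.succ_pos _)) x y hy
  refine hmain.trans ?_
  rw [pow_mul]
  apply Nat.pow_le_pow_left
  rw [mul_pow, ← mul_assoc]
  apply Nat.mul_le_mul_right
  exact Nat.le_self_pow (by omega) _

end Pool.Agent.X95T
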