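import Pool.Agent.X95T.HE

set_option autoImplicit false

namespace Pool.Agent.X95T

open Polynomial

/-- the cubic `x ^ 3 + A x + B` -/
noncomputable def wcub (A B : ℤ) : ℤ[X] := X ^ 3 + C A * X + C B

lemma wcub_deg (A B : ℤ) : (wcub A B).natDegree = 3 := by
  rw [wcub]
  compute_degree!

lemma wcub_eval (A B x : ℤ) : (wcub A B).eval x = x ^ 3 + A * x + B := by
  simp [wcub]

lemma wcub_sq (A B : ℤ) (h : 4 * A ^ 3 + 27 * B ^ 2 ≠ 0) :
    Squarefree ((wcub A B).map (Int.castRingHom ℚ)) := by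
  have hD : (4 * (A : ℚ) ^ 3 + 27 * (B : ℚ) ^ 2) ≠ 0 := by exact_mod_cast h
  have h1 : (wcub A B).map (Int.castRingHom ℚ) = X ^ 3 + C (A : ℚ) * X + C (B : ℚ) := by
    simp [wcub]
  rw [h1]
  apply Separable.squarefree
  rw [separable_def]
  set D := (4 * (A : ℚ) ^ 3 + 27 * (B : ℚ) ^ 2) with hDd
  refine ⟨C (-(1 / D)) * (C (18 * (A : ℚ)) * X - C (27 * (B : ℚ))),
    C (-(1 / D)) * (C (-6 * (A : ℚ)) * X ^ 2 + C (9 * (B : ℚ)) * X - C (4 * (A : ℚ) ^ 2)), ?_⟩
  have h2 : derivative (X ^ 3 + C (A : ℚ) * X + C (B : ℚ)) = C 3 * X ^ 2 + C (A : ℚ) := by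
    simp
    rw [← C_1, ← C_add]
    norm_num
  have h3 : (C (18 * (A : ℚ)) * X - C (27 * (B : ℚ))) * (X ^ 3 + C (A : ℚ) * X + C (B : ℚ)) +
      (C (-6 * (A : ℚ)) * X ^ 2 + C (9 * (B : ℚ)) * X - C (4 * (A : ℚ) ^ 2)) *
        (C 3 * X ^ 2 + C (A : ℚ)) = C (-D) := by
    rw [hDd]
    simp only [C_mul, C_pow, C_add, C_neg, map_ofNat]
    ring
  rw [h2, mul_assoc, mul_assoc, ← mul_add, h3, ← C_mul, show -(1 / D) * -D = 1 by field_simp, C_1]

lemma two_coord {A B x y : ℤ} {H X : ℕ} (hA : A.natAbs ≤ H) (hB : B.natAbs ≤ H) (hH : 1 ≤ H)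
    (hX : 1 ≤ X) (hx : x.natAbs ≤ X) (h : y ^ 2 = x ^ 3 + A * x + B) :
    max x.natAbs y.natAbs ≤ 3 * H * X ^ 3 := by
  have hX3 : 1 ≤ X ^ 3 := Nat.one_le_pow _ _ hX
  have hXX : X ≤ X ^ 3 := Nat.le_self_pow (by norm_num) _
  apply max_le
  · calc _ ≤ X := hx
      _ ≤ X ^ 3 := hXX
      _ ≤ _ := Nat.le_mul_of_pos_left _ (by omega)
  · have h1 : y.natAbs ≤ (y ^ 2).natAbs := by
      rw [Int.natAbs_pow]
      exact Nat.le_self_pow (by norm_num) _
    refine h1.trans ?_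
    rw [h]
    refine (Int.natAbs_add_le _ _).trans ?_
    refine (Nat.add_le_add_right (Int.natAbs_add_le _ _) _).trans ?_
    rw [Int.natAbs_pow, Int.natAbs_mul]
    have h2 : x.natAbs ^ 3 ≤ X ^ 3 := Nat.pow_le_pow_left hx _
    have h3 : A.natAbs * x.natAbs ≤ H * X ^ 3 := Nat.mul_le_mul hA (hx.trans hXX)
    have h4 : X ^ 3 ≤ H * X ^ 3 := Nat.le_mul_of_pos_left _ hH
    have h5 : H ≤ H * X ^ 3 := Nat.le_mul_of_pos_right _ hX3
    calc x.natAbs ^ 3 + A.natAbs * x.natAbs + B.natAbs ≤ H * X ^ 3 + H * X ^ 3 + H * X ^ 3 := by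
          omega
      _ = _ := by ring

/-- a binary form -/
def fo (c : List ℤ) (s t : ℝ) : ℝ :=
  ∑ i ∈ Finset.range c.length, (c.getD i 0 : ℝ) * s ^ i * t ^ (c.length - 1 - i)

/-- the sum of the absolute values of the coefficients -/
def fol (c : List ℤ) : ℤ := (c.map fun z => |z|).sum

lemma fo_le (c : List ℤ) (s t m : ℝ) (hs : |s| ≤ m) (ht : |t| ≤ m) :
    |fo c s t| ≤ fol c * m ^ (c.length - 1) := by
  have hm : 0 ≤ m := (abs_nonneg _).trans hs
  have h1 : (fol c : ℝ) = ∑ i ∈ Finset.range c.length, |(c.getD i 0 : ℝ)| := by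
    have h2 : fol c = ∑ i ∈ Finset.range c.length, |c.getD i 0| := by
      rw [fol]
      induction c with
      | nil => simp
      | cons a c ih =>
        rw [List.map_cons, List.sum_cons, ih, List.length_cons, Finset.sum_range_succ']
        simp only [List.getD_cons_succ, List.getD_cons_zero]
        rw [add_comm]
    rw [h2]
    push_cast
    rfl
  rw [fo, h1, Finset.sum_mul]
  refine (Finset.abs_sum_le_sum_abs _ _).trans (Finset.sum_le_sum fun i hi => ?_)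
  rw [Finset.mem_range] at hi
  rw [abs_mul, abs_mul, abs_pow, abs_pow, mul_assoc]
  apply mul_le_mul_of_nonneg_left _ (abs_nonneg _)
  calc |s| ^ i * |t| ^ (c.length - 1 - i) ≤ m ^ i * m ^ (c.length - 1 - i) := by
        apply mul_le_mul (pow_le_pow_left₀ (abs_nonneg _) hs _)
          (pow_le_pow_left₀ (abs_nonneg _) ht _) (by positivity) (by positivity)
    _ = m ^ (c.length - 1) := by
        rw [← pow_add]
        congr 1
        omega

end Pool.Agent.X95T
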