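import Pool.Agent.X95T.HG1

set_option autoImplicit false

namespace Pool.Agent.X95T

open Polynomial

def al0 : List ℤ := [33663, 236305, -22800, 239450, -56475, 3121]
def be0 : List ℤ := [32943, 47287, -37749, 3121]
def al9 : List ℤ := [-3121, -56475, -239450, -22800, -236305, 33663]
def be9 : List ℤ := [-3121, -37749, -47287, 32943]
def C4 : List ℤ := [1, 12, 14, -12, 1]
def C6 : List ℤ := [-1, -18, -75, 0, -75, 18, -1]

lemma id0 (s t : ℝ) : fo al0 s t * fo C4 s t + fo be0 s t * fo C6 s t = 720 * t ^ 9 := by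
  simp only [fo, al0, be0, C4, C6, List.length_cons, List.length_nil, Finset.sum_range_succ,
    Finset.sum_range_zero, List.getD_cons_succ, List.getD_cons_zero]
  norm_num
  ring

lemma id9 (s t : ℝ) : fo al9 s t * fo C4 s t + fo be9 s t * fo C6 s t = 720 * s ^ 9 := by
  simp only [fo, al9, be9, C4, C6, List.length_cons, List.length_nil, Finset.sum_range_succ,
    Finset.sum_range_zero, List.getD_cons_succ, List.getD_cons_zero]
  norm_num
  ring

/-- the parameters of a curve with a point of order five are bounded -/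
lemma par5 (s t m H : ℝ) (hm : m = max |s| |t|) (hm1 : 1 ≤ m) (h4 : |fo C4 s t| ≤ 48 * H)
    (h6 : |fo C6 s t| ≤ 864 * H) : m ^ 4 ≤ 184775 * H := by
  have hs : |s| ≤ m := hm ▸ le_max_left _ _
  have ht : |t| ≤ m := hm ▸ le_max_right _ _
  have hH : 0 ≤ H := by
    have := (abs_nonneg _).trans h4
    linarith
  have gen : ∀ (al be : List ℤ) (z : ℝ), al.length = 6 → be.length = 4 → fol al = 591814 →
      fol be = 121100 → fo al s t * fo C4 s t + fo be s t * fo C6 s t = 720 * z ^ 9 →
      720 * |z| ^ 9 ≤ 133037472 * m ^ 5 * H := by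
    intro al be z ha hb hla hlb hid
    have h1 := fo_le al s t m hs ht
    have h2 := fo_le be s t m hs ht
    rw [ha, hla] at h1
    rw [hb, hlb] at h2
    norm_num at h1 h2
    have h3 : |fo al s t * fo C4 s t| ≤ (591814 * m ^ 5) * (48 * H) := by
      rw [abs_mul]
      exact mul_le_mul h1 h4 (abs_nonneg _) (by positivity)
    have h5 : |fo be s t * fo C6 s t| ≤ (121100 * m ^ 3) * (864 * H) := by
      rw [abs_mul]
      exact mul_le_mul h2 h6 (abs_nonneg _) (by positivity)
    have h7 : m ^ 3 ≤ m ^ 5 := pow_le_pow_right₀ hm1 (by norm_num)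
    have h8 : (121100 * m ^ 3) * (864 * H) ≤ (121100 * m ^ 5) * (864 * H) := by
      apply mul_le_mul_of_nonneg_right _ (by positivity)
      linarith
    have h9 : |720 * z ^ 9| = 720 * |z| ^ 9 := by
      rw [abs_mul, abs_pow]
      norm_num
    rw [← h9, ← hid]
    refine (abs_add_le _ _).trans ?_
    linarith
  have hmm : 720 * m ^ 9 ≤ 133037472 * m ^ 5 * H := by
    rcases le_total |s| |t| with h | h
    · rw [max_eq_right h] at hm
      have := gen al0 be0 t rfl rfl (by decide) (by decide) (id0 s t)
      rwa [← hm] at this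
    · rw [max_eq_left h] at hm
      have := gen al9 be9 s rfl rfl (by decide) (by decide) (id9 s t)
      rwa [← hm] at this
  have h5 : 0 < m ^ 5 := by positivity
  have h6 : m ^ 5 * (720 * m ^ 4) ≤ m ^ 5 * (133037472 * H) := by
    calc _ = 720 * m ^ 9 := by ring
      _ ≤ _ := hmm
      _ = _ := by ring
  have h7 := le_of_mul_le_mul_left h6 h5
  linarith

end Pool.Agent.X95T
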