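import Pool.Agent.X95T.HG2

set_option autoImplicit false

namespace Pool.Agent.X95T

open Polynomial

lemma quad_coeff (a b c : ℤ) (N : ℕ) (ha : a.natAbs ≤ N) (hb : b.natAbs ≤ N) (hc : c.natAbs ≤ N)
    (i : ℕ) : ((C a * X ^ 2 + C b * X + C c : ℤ[X]).coeff i).natAbs ≤ N := by
  rw [coeff_add, coeff_add, coeff_C_mul, coeff_C_mul, coeff_X_pow, coeff_X, coeff_C]
  rcases i with _ | _ | _ | i
  · simpa using hc
  · simpa using hb
  · simpa using ha
  · simp

lemma lin_coeff (c : ℤ) (N : ℕ) (hN : 1 ≤ N) (hc : c.natAbs ≤ N)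
    (i : ℕ) : ((X - C c : ℤ[X]).coeff i).natAbs ≤ N := by
  rw [coeff_sub, coeff_X, coeff_C]
  rcases i with _ | _ | i
  · simpa using hc
  · simpa using hN
  · simp

/-- the bound for the curves with a point of order five -/
theorem five : ∃ M : ℕ, ∀ S : Finset ℕ, ∃ K : ℕ, ∀ A B u v l u' v' l' : ℤ,
    4 * A ^ 3 + 27 * B ^ 2 ≠ 0 → v ^ 2 = u ^ 3 + A * u + B → u' ≠ u →
    2 * v * l = 3 * u ^ 2 + A → l ^ 2 = 2 * u + u' → -v' = v + l * (u' - u) →
    l' ^ 2 = 2 * u' + u → v = v' + l' * (u - u') →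
    (∀ q : ℕ, q.Prime → (q : ℤ) ∣ u' - u → q ∈ S) →
    ∀ x y : ℤ, y ^ 2 = x ^ 3 + A * x + B →
      max x.natAbs y.natAbs ≤ K * (max A.natAbs B.natAbs) ^ M := by
  obtain ⟨K₀, hK₀⟩ := hyp_all 3 5 (by decide) Nat.prime_five (by norm_num)
  refine ⟨9 * K₀ + 1, fun S => ?_⟩
  obtain ⟨c, hc⟩ := hK₀ S
  refine ⟨3 * ((c + 1) * (6 * 184775 ^ 3)) ^ (3 * K₀), ?_⟩
  intro A B u v l u' v' l' hD hT hne h1 h2 h3 h5 h6 hS x y hE
  obtain ⟨H, hHd⟩ : ∃ H, H = max A.natAbs B.natAbs := ⟨_, rfl⟩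
  rw [← hHd]
  have hAH : A.natAbs ≤ H := hHd ▸ le_max_left _ _
  have hBH : B.natAbs ≤ H := hHd ▸ le_max_right _ _
  have hH1 : 1 ≤ H := by
    by_contra h0
    have hA0 : A = 0 := by omega
    have hB0 : B = 0 := by omega
    rw [hA0, hB0] at hD
    norm_num at hD
  -- the parameters
  obtain ⟨s, hs⟩ : ∃ s, s = l' - l := ⟨_, rfl⟩
  obtain ⟨t, ht⟩ : ∃ t, t = l + l' := ⟨_, rfl⟩
  have hst : s * t = u' - u := by rw [hs, ht]; linear_combination h5 - h2
  have hst0 : s * t ≠ 0 := by rw [hst]; exact sub_ne_zero.2 hne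
  have hs0 : s ≠ 0 := left_ne_zero_of_mul hst0
  have ht0 : t ≠ 0 := right_ne_zero_of_mul hst0
  have h2l : 2 * l = t - s := by rw [hs, ht]; ring
  have h2v : 2 * v = -(s * t ^ 2) := by
    have : s * t ^ 2 = (u' - u) * t := by rw [← hst]; ring
    rw [this, ht]
    linear_combination -h3 + h6
  have h3u : 3 * u = l ^ 2 - s * t := by rw [hst]; linear_combination -h2
  have hA : 48 * A = -(t ^ 4 + 12 * s * t ^ 3 + 14 * s ^ 2 * t ^ 2 - 12 * s ^ 3 * t + s ^ 4) := by
    have e1 : A = 2 * v * l - 3 * u ^ 2 := by linear_combination -h1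
    have e2 : 48 * A = 24 * (2 * v) * (2 * l) - 16 * (3 * u) ^ 2 := by rw [e1]; ring
    have e3 : 16 * (3 * u) ^ 2 = ((2 * l) ^ 2 - 4 * (s * t)) ^ 2 := by rw [h3u]; ring
    rw [e2, e3, h2v, h2l]
    ring
  have hB : 864 * B = -(-t ^ 6 - 18 * s * t ^ 5 - 75 * s ^ 2 * t ^ 4 - 75 * s ^ 4 * t ^ 2 +
      18 * s ^ 5 * t - s ^ 6) := by
    have e1 : B = v ^ 2 - u ^ 3 - A * u := by linear_combination -hT
    have e2 : 864 * B = 216 * (2 * v) ^ 2 - 32 * (3 * u) ^ 3 - 6 * (48 * A) * (3 * u) := by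
      rw [e1]; ring
    have e3 : 4 * (3 * u) = (t - s) ^ 2 - 4 * (s * t) := by rw [h3u, ← h2l]; ring
    have e4 : 2 * (864 * B) = 432 * (2 * v) ^ 2 - (4 * (3 * u)) ^ 3 -
        3 * (48 * A) * (4 * (3 * u)) := by rw [e2]; ring
    rw [e3, h2v, hA] at e4
    linarith
  have hm4 : ∀ m : ℕ, m = max s.natAbs t.natAbs → m ^ 4 ≤ 184775 * H := by
    intro m hm
    have hmR : (m : ℝ) = max |(s : ℝ)| |(t : ℝ)| := by
      rw [hm]
      push_cast
      rw [Nat.cast_natAbs, Nat.cast_natAbs]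
      push_cast
      rfl
    have hm1 : 1 ≤ m := by
      rw [hm]
      exact le_max_of_le_left (Int.natAbs_pos.2 hs0)
    have hcast : ∀ z : ℤ, z.natAbs ≤ H → |(z : ℝ)| ≤ H := by
      intro z hz
      rw [← Int.cast_abs, ← Int.natCast_natAbs]
      exact_mod_cast hz
    have hAR := hcast A hAH
    have hBR := hcast B hBH
    have e1 : fo C4 s t = -(48 * A) := by
      have h7 : (48 * A : ℝ) = -(t ^ 4 + 12 * s * t ^ 3 + 14 * s ^ 2 * t ^ 2 - 12 * s ^ 3 * t +
          s ^ 4) := by exact_mod_cast hA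
      rw [h7]
      simp only [fo, C4, List.length_cons, List.length_nil, Finset.sum_range_succ,
        Finset.sum_range_zero, List.getD_cons_succ, List.getD_cons_zero]
      norm_num
      ring
    have e2 : fo C6 s t = -(864 * B) := by
      have h7 : (864 * B : ℝ) = -(-t ^ 6 - 18 * s * t ^ 5 - 75 * s ^ 2 * t ^ 4 -
          75 * s ^ 4 * t ^ 2 + 18 * s ^ 5 * t - s ^ 6) := by exact_mod_cast hB
      rw [h7]
      simp only [fo, C6, List.length_cons, List.length_nil, Finset.sum_range_succ,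
        Finset.sum_range_zero, List.getD_cons_succ, List.getD_cons_zero]
      norm_num
      ring
    have := par5 s t m H hmR (by exact_mod_cast hm1)
      (by rw [e1, abs_neg, abs_mul]; norm_num; exact hAR)
      (by rw [e2, abs_neg, abs_mul]; norm_num; exact hBR)
    exact_mod_cast this
  obtain ⟨m, hm⟩ : ∃ m, m = max s.natAbs t.natAbs := ⟨_, rfl⟩
  have hm4 := hm4 m hm
  have hsm : s.natAbs ≤ m := hm ▸ le_max_left _ _
  have htm : t.natAbs ≤ m := hm ▸ le_max_right _ _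
  have hm1 : 1 ≤ m := (Int.natAbs_pos.2 hs0).trans_le hsm
  -- everything is at most `m ^ 3`
  obtain ⟨n, hn⟩ : ∃ n, n = m ^ 3 := ⟨_, rfl⟩
  have hn1 : 1 ≤ n := hn ▸ Nat.one_le_pow _ _ hm1
  have hmn : m ≤ n := hn ▸ Nat.le_self_pow (by norm_num) _
  have hmm : m ≤ m ^ 2 := Nat.le_self_pow (by norm_num) _
  have hm2n : m ^ 2 ≤ n := hn ▸ Nat.pow_le_pow_right hm1 (by norm_num)
  have hln : l.natAbs ≤ m := by omega
  have hvn : v.natAbs ≤ n := by
    have e1 : (2 * v).natAbs ≤ m ^ 3 := by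
      rw [h2v, Int.natAbs_neg, Int.natAbs_mul, Int.natAbs_pow]
      calc _ ≤ m * m ^ 2 := Nat.mul_le_mul hsm (Nat.pow_le_pow_left htm _)
        _ = _ := by ring
    omega
  have hun : u.natAbs ≤ n := by
    have e1 : (3 * u).natAbs ≤ 2 * m ^ 2 := by
      rw [h3u]
      refine (Int.natAbs_sub_le _ _).trans ?_
      rw [Int.natAbs_pow, Int.natAbs_mul]
      have e2 := Nat.pow_le_pow_left hln 2
      have e3 := Nat.mul_le_mul hsm htm
      rw [← pow_two] at e3
      omega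
    omega
  have htn : t.natAbs ≤ n := htm.trans hmn
  have hln' : l.natAbs ≤ n := hln.trans hmn
  -- the torsion function
  set Ap : ℤ[X] := C (-(l + t)) * X ^ 2 + C (2 * (l + t) * u - v - t ^ 2 * l) * X +
    C (-((l + t) * u ^ 2) + (v + t ^ 2 * l) * u - t ^ 2 * v) with hAp
  set up : ℤ[X] := X - C u with hup
  have hupd : up.natDegree = 1 := natDegree_X_sub_C u
  have huplc : up.leadingCoeff = 1 := leadingCoeff_X_sub_C u
  have hnorm : Ap ^ 2 - wcub A B * (X - C u + C (t ^ 2)) ^ 2 = C (-1) * up ^ 5 := by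
    have hAe : A = 2 * v * l - 3 * u ^ 2 := by linear_combination -h1
    have hBe : B = v ^ 2 - u ^ 3 - (2 * v * l - 3 * u ^ 2) * u := by
      rw [← hAe]; linear_combination -hT
    have hl2 : (C l : ℤ[X]) ^ 2 = 3 * C u + (C t - 2 * C l) * C t := by
      have e1 : l ^ 2 = 3 * u + (t - 2 * l) * t := by
        have : s = t - 2 * l := by rw [h2l]; ring
        rw [← this]
        linear_combination -h3u
      rw [← C_pow, e1]
      simp only [C_add, C_mul, C_sub, map_ofNat]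
    have hv2 : 2 * (C v : ℤ[X]) = -((C t - 2 * C l) * C t ^ 2) := by
      have e1 : 2 * v = -((t - 2 * l) * t ^ 2) := by
        have : s = t - 2 * l := by rw [h2l]; ring
        rw [← this]
        exact h2v
      have e2 := congrArg (C : ℤ → ℤ[X]) e1
      simpa only [C_neg, C_mul, C_sub, C_pow, map_ofNat] using e2
    rw [hAp, hup, wcub, hAe, hBe]
    simp only [C_add, C_mul, C_sub, C_pow, C_neg, map_ofNat, C_1]
    set x := (X : ℤ[X]) - C u with hx
    have hX : (X : ℤ[X]) = x + C u := by rw [hx]; ring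
    rw [hX]
    linear_combination x ^ 2 * (x + C t ^ 2) ^ 2 * hl2 + x ^ 2 * C t * (x + C t ^ 2) * hv2
  have hUV : (-(2 * (C (-v) + C (-(l + t)) * up + C (-(t ^ 2 * l))))) * up + 1 * (C 2 * Ap) =
      C (-(2 * t ^ 2 * v)) := by
    rw [hAp, hup]
    simp only [C_add, C_mul, C_sub, C_pow, C_neg, map_ofNat]
    ring
  have hb : -(2 * t ^ 2 * v) * (-1 * up.leadingCoeff) = -(s * t ^ 4) := by
    rw [huplc]
    linear_combination t ^ 2 * h2v
  have hmain := hc (wcub A B) Ap (X - C u + C (t ^ 2)) up _ 1 (-1) (-(2 * t ^ 2 * v)) (6 * n ^ 4)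
    (wcub_deg A B) (wcub_sq A B hD)
    (by
      have h7 : (X - C u + C (t ^ 2) : ℤ[X]) = X - C (u - t ^ 2) := by
        rw [C_sub]; ring
      rw [h7]
      exact X_sub_C_ne_zero _)
    (by rw [hupd]; norm_num) hnorm hUV
    (by
      rw [hb]
      exact neg_ne_zero.2 (mul_ne_zero hs0 (pow_ne_zero _ ht0)))
    (by
      intro q hq hqd
      rw [hb, dvd_neg] at hqd
      apply hS q hq
      rw [← hst]
      have hqZ : Prime (q : ℤ) := Nat.prime_iff_prime_int.1 hq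
      rcases hqZ.dvd_or_dvd hqd with h7 | h7
      · exact h7.mul_right _
      · exact (hqZ.dvd_of_dvd_pow h7).mul_left _)
    (by
      have hn4 : n ≤ n ^ 4 := Nat.le_self_pow (by norm_num) _
      have hn2 : n ^ 2 ≤ n ^ 4 := Nat.pow_le_pow_right hn1 (by norm_num)
      have hn3 : n ^ 3 ≤ n ^ 4 := Nat.pow_le_pow_right hn1 (by norm_num)
      have hlt : (l + t).natAbs ≤ 2 * n := (Int.natAbs_add_le _ _).trans (by omega)
      have ht2 : (t ^ 2).natAbs ≤ n ^ 2 := by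
        rw [Int.natAbs_pow]; exact Nat.pow_le_pow_left htn _
      have hu2 : (u ^ 2).natAbs ≤ n ^ 2 := by
        rw [Int.natAbs_pow]; exact Nat.pow_le_pow_left hun _
      have ht2l : (t ^ 2 * l).natAbs ≤ n ^ 3 := by
        rw [Int.natAbs_mul]
        calc _ ≤ n ^ 2 * n := Nat.mul_le_mul ht2 hln'
          _ = _ := by ring
      have ht2v : (t ^ 2 * v).natAbs ≤ n ^ 3 := by
        rw [Int.natAbs_mul]
        calc _ ≤ n ^ 2 * n := Nat.mul_le_mul ht2 hvn
          _ = _ := by ring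
      apply quad_coeff
      · rw [Int.natAbs_neg]
        omega
      · have e1 : (2 * (l + t) * u).natAbs ≤ 4 * n ^ 2 := by
          rw [Int.natAbs_mul, Int.natAbs_mul]
          calc _ ≤ 2 * (2 * n) * n := Nat.mul_le_mul (Nat.mul_le_mul_left _ hlt) hun
            _ = _ := by ring
        have e2 := Int.natAbs_sub_le (2 * (l + t) * u - v) (t ^ 2 * l)
        have e3 := Int.natAbs_sub_le (2 * (l + t) * u) v
        omega
      · have e1 : ((l + t) * u ^ 2).natAbs ≤ 2 * n ^ 3 := by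
          rw [Int.natAbs_mul]
          calc _ ≤ (2 * n) * n ^ 2 := Nat.mul_le_mul hlt hu2
            _ = _ := by ring
        have e2 : ((v + t ^ 2 * l) * u).natAbs ≤ n ^ 2 + n ^ 4 := by
          rw [Int.natAbs_mul]
          calc _ ≤ (n + n ^ 3) * n := by
                apply Nat.mul_le_mul _ hun
                exact (Int.natAbs_add_le _ _).trans (Nat.add_le_add hvn ht2l)
            _ = _ := by ring
        have e3 := Int.natAbs_sub_le (-((l + t) * u ^ 2) + (v + t ^ 2 * l) * u) (t ^ 2 * v)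
        have e4 := Int.natAbs_add_le (-((l + t) * u ^ 2)) ((v + t ^ 2 * l) * u)
        rw [Int.natAbs_neg] at e4
        omega)
    (by
      have h7 : n ≤ n ^ 4 := Nat.le_self_pow (by norm_num) _
      exact lin_coeff u _ (by omega) (by omega))
    (by
      have : 1 ≤ n ^ 4 := Nat.one_le_pow _ _ hn1
      norm_num
      omega)
    x y (by rw [wcub_eval]; exact hE)
  have hn4 : n ^ 4 ≤ 184775 ^ 3 * H ^ 3 := by
    calc n ^ 4 = (m ^ 4) ^ 3 := by rw [hn]; ring
      _ ≤ (184775 * H) ^ 3 := Nat.pow_le_pow_left hm4 _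
      _ = _ := by rw [mul_pow]
  obtain ⟨Z, hZ⟩ : ∃ Z, Z = (c + 1) * (6 * 184775 ^ 3) := ⟨_, rfl⟩
  have hZ1 : 1 ≤ Z := by rw [hZ]; omega
  have hH3 : 1 ≤ H ^ 3 := Nat.one_le_pow _ _ hH1
  have hXb : x.natAbs ≤ (Z * H ^ 3) ^ K₀ := by
    refine hmain.trans (Nat.pow_le_pow_left ?_ _)
    calc c * (6 * n ^ 4) ≤ (c + 1) * (6 * (184775 ^ 3 * H ^ 3)) :=
          Nat.mul_le_mul (Nat.le_succ _) (Nat.mul_le_mul_left _ hn4)
      _ = _ := by rw [hZ]; ring
  have hfin := two_coord hAH hBH hH1 (Nat.one_le_pow _ _ (Nat.mul_pos hZ1 hH3)) hXb hE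
  refine hfin.trans (le_of_eq ?_)
  rw [← hZ]
  ring

end Pool.Agent.X95T
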