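import Pool.Agent.X95T.HI1

set_option autoImplicit false

namespace Pool.Agent.X95T

section

open Polynomial

theorem hypM_irr' {p : ℕ} (hp : p.Prime) (f A B u : ℚ[X]) (e a : ℚ) (he : e ≠ 0)
    (ha : a ≠ 0) (hsq : Squarefree f) (hd : NC f) (hB : B ≠ 0)
    (hr : u.natDegree < f.natDegree) (h : A ^ 2 - f * B ^ 2 = C e * u ^ p) :
    Irreducible (hypM p A u e a) := by
  obtain ⟨m2, hm2⟩ : ∃ m2 : (FractionRing ℚ[X])[X],
    m2 = X ^ 2 - C (algebraMap ℚ[X] (FractionRing ℚ[X]) f) := ⟨_, rfl⟩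
  have hm2i : Irreducible m2 := hm2 ▸ quad_irr' f hd (by omega)
  have hm2m : m2.Monic := hm2 ▸ monic_X_pow_sub_C _ two_ne_zero
  have hm2d : m2.natDegree = 2 := hm2 ▸ natDegree_X_pow_sub_C
  have : Fact (Irreducible m2) := ⟨hm2i⟩
  obtain ⟨s, hs0⟩ : ∃ s : AdjoinRoot m2, s = AdjoinRoot.root m2 := ⟨_, rfl⟩
  have hs2 : s ^ 2 = algebraMap (FractionRing ℚ[X]) (AdjoinRoot m2)
      (algebraMap ℚ[X] (FractionRing ℚ[X]) f) := by
    have h1 := AdjoinRoot.eval₂_root m2
    rw [← hs0] at h1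
    have h2 : eval₂ (AdjoinRoot.of m2) s m2 = s ^ 2 - AdjoinRoot.of m2
        (algebraMap ℚ[X] (FractionRing ℚ[X]) f) :=
      (congrArg (eval₂ (AdjoinRoot.of m2) s) hm2).trans (by simp)
    rw [h2, sub_eq_zero] at h1
    exact h1
  have hs : s ^ 2 = algebraMap ℚ[X] (AdjoinRoot m2) f := by
    rw [hs2, ← IsScalarTower.algebraMap_apply]
  obtain ⟨σ, hσ, hσs⟩ : ∃ σ : AdjoinRoot m2 →+* AdjoinRoot m2,
      (∀ g : FractionRing ℚ[X], σ (algebraMap _ _ g) = algebraMap _ _ g) ∧ σ s = -s := by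
    refine ⟨AdjoinRoot.lift (AdjoinRoot.of m2) (-s) ?_, ?_, ?_⟩
    · have h2 : eval₂ (AdjoinRoot.of m2) (-s) m2 = (-s) ^ 2 - AdjoinRoot.of m2
          (algebraMap ℚ[X] (FractionRing ℚ[X]) f) :=
        (congrArg (eval₂ (AdjoinRoot.of m2) (-s)) hm2).trans (by simp)
      rw [h2, neg_sq, hs2, sub_eq_zero]
      rfl
    · intro g
      exact AdjoinRoot.lift_of _
    · exact (congrArg _ hs0).trans (AdjoinRoot.lift_root _)
  have hbasis : ∀ w : AdjoinRoot m2, ∃ P T : FractionRing ℚ[X],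
      w = algebraMap _ _ P + algebraMap _ _ T * s := by
    intro w
    obtain ⟨g, rfl⟩ := AdjoinRoot.mk_surjective w
    have h1 : AdjoinRoot.mk m2 g = AdjoinRoot.mk m2 (g %ₘ m2) := by
      rw [AdjoinRoot.mk_eq_mk]
      have h2 := modByMonic_add_div g m2
      exact ⟨g /ₘ m2, by linear_combination -h2⟩
    have h2 : (g %ₘ m2).natDegree ≤ 1 := by
      have h3 := natDegree_modByMonic_lt g hm2m (by
        intro h4
        rw [h4, natDegree_one] at hm2d
        omega)
      omega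
    obtain ⟨T, P, hTP⟩ := exists_eq_X_add_C_of_natDegree_le_one h2
    refine ⟨P, T, ?_⟩
    rw [h1, hTP, map_add, map_mul, AdjoinRoot.mk_C, AdjoinRoot.mk_C, AdjoinRoot.mk_X, ← hs0,
      add_comm]
    rfl
  have hind : ∀ P T : FractionRing ℚ[X],
      algebraMap _ (AdjoinRoot m2) P + algebraMap _ (AdjoinRoot m2) T * s = 0 → P = 0 ∧ T = 0 := by
    intro P T hPT
    have h1 : AdjoinRoot.mk m2 (C T * X + C P) = 0 := by
      rw [map_add, map_mul, AdjoinRoot.mk_C, AdjoinRoot.mk_C, AdjoinRoot.mk_X, ← hs0, add_comm]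
      exact hPT
    rw [AdjoinRoot.mk_eq_zero] at h1
    have h2 : C T * X + C P = 0 := by
      by_contra hne
      have h3 := natDegree_le_of_dvd h1 hne
      have h4 : (C T * X + C P).natDegree ≤ 1 := natDegree_linear_le
      omega
    constructor
    · have := congrArg (fun q => coeff q 0) h2
      simpa using this
    · have := congrArg (fun q => coeff q 1) h2
      simpa using this
  obtain ⟨κ, hκ⟩ : ∃ κ : AdjoinRoot m2, κ = algebraMap ℚ[X] (AdjoinRoot m2) (C a⁻¹) *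
    (algebraMap ℚ[X] (AdjoinRoot m2) A + algebraMap ℚ[X] (AdjoinRoot m2) B * s) := ⟨_, rfl⟩
  have hirrK : Irreducible (X ^ p - C κ : (AdjoinRoot m2)[X]) := by
    rw [X_pow_sub_C_irreducible_iff_of_prime hp]
    intro w hw
    rw [hκ] at hw
    exact not_pow' hp f A B u e a he ha hsq hd hB hr h (AdjoinRoot m2) s hs σ hσ hσs hbasis hind w hw
  obtain ⟨z, hz⟩ := IsAlgClosed.exists_pow_nat_eq
    (algebraMap (AdjoinRoot m2) (AlgebraicClosure (AdjoinRoot m2)) κ) hp.pos
  obtain ⟨φ, hφ⟩ : ∃ φ : AdjoinRoot m2 →+* AlgebraicClosure (AdjoinRoot m2),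
    φ = algebraMap _ _ := ⟨_, rfl⟩
  rw [← hφ] at hz
  obtain ⟨c, hc⟩ : ∃ c : ℚ →+* AlgebraicClosure (AdjoinRoot m2), c =
    φ.comp ((algebraMap ℚ[X] (AdjoinRoot m2)).comp C) := ⟨_, rfl⟩
  obtain ⟨x, hx⟩ : ∃ x : AlgebraicClosure (AdjoinRoot m2), x = φ (algebraMap ℚ[X] _ X) := ⟨_, rfl⟩
  have hcx : ∀ g : ℚ[X], eval₂ c x g = φ (algebraMap ℚ[X] (AdjoinRoot m2) g) := by
    intro g
    have h1 : eval₂RingHom c x = φ.comp (algebraMap ℚ[X] (AdjoinRoot m2)) := by
      apply Polynomial.ringHom_ext'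
      · exact Subsingleton.elim _ _
      · simp [hx]
    exact DFunLike.congr_fun h1 g
  have hinj2 : Function.Injective (algebraMap ℚ[X] (AdjoinRoot m2)) := by
    rw [IsScalarTower.algebraMap_eq ℚ[X] (FractionRing ℚ[X]) (AdjoinRoot m2)]
    exact (algebraMap (FractionRing ℚ[X]) (AdjoinRoot m2)).injective.comp
      (IsFractionRing.injective ℚ[X] (FractionRing ℚ[X]))
  obtain ⟨hMm, hMd⟩ := hypM_monic hp.one_lt.le A u e a
  apply irr_of_ind c x z _ hMm
  · -- the equation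
    have h1 : κ ^ 2 + (algebraMap ℚ[X] (AdjoinRoot m2) (-(C (2 / a) * A)) * κ +
        algebraMap ℚ[X] (AdjoinRoot m2) (C (e / a ^ 2) * u ^ p)) = 0 := by
      have h2 : algebraMap ℚ[X] (AdjoinRoot m2) (C (e / a ^ 2) * u ^ p) =
          algebraMap ℚ[X] (AdjoinRoot m2) (C a⁻¹) ^ 2 *
          ((algebraMap ℚ[X] (AdjoinRoot m2) A) ^ 2 -
            s ^ 2 * (algebraMap ℚ[X] (AdjoinRoot m2) B) ^ 2) := by
        have h4 : (C (e / a ^ 2) * u ^ p : ℚ[X]) = (C a⁻¹) ^ 2 * (A ^ 2 - f * B ^ 2) := by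
          rw [h, ← mul_assoc, ← C_pow, ← C_mul]
          congr 2
          rw [inv_pow, div_eq_inv_mul]
        rw [h4, map_mul, map_pow, map_sub, map_pow, map_mul, map_pow, hs]
      have h3 : algebraMap ℚ[X] (AdjoinRoot m2) (-(C (2 / a) * A)) =
          - 2 * (algebraMap ℚ[X] (AdjoinRoot m2) (C a⁻¹) * algebraMap ℚ[X] (AdjoinRoot m2) A) := by
        have h4 : (C (2 / a) : ℚ[X]) = 2 * C a⁻¹ := by
          rw [div_eq_mul_inv, C_mul]
          congr 1
        rw [h4]
        simp only [map_neg, map_mul, map_ofNat]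
        ring
      rw [h2, h3, hκ]
      ring
    rw [hypM, map_add, map_add, map_mul, map_pow, map_pow, ev_X, ev_C, ev_C, hcx, hcx, mul_comm 2 p,
      pow_mul, hz, ← map_pow, ← map_mul, ← map_add, ← map_add, h1, map_zero]
  · intro r hr h0
    by_contra hr0
    have hrd : r.natDegree < p * 2 := by
      rw [mul_comm, ← hMd]
      exact natDegree_lt_natDegree hr0 hr
    apply hr0
    obtain ⟨ρ, hρ⟩ : ∃ ρ : ℕ → AdjoinRoot m2, ρ = fun i => algebraMap ℚ[X] _ (r.coeff i) +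
      algebraMap ℚ[X] _ (r.coeff (p + i)) * κ := ⟨_, rfl⟩
    have h1 : ∑ i ∈ Finset.range p, φ (ρ i) * z ^ i = 0 := by
      rw [← h0, ev_eq_sum c x z r hrd, sum_split, Finset.sum_comm]
      apply Finset.sum_congr rfl
      intro i _
      rw [Finset.sum_range_succ, Finset.sum_range_one, hcx, hcx, mul_zero, zero_add, mul_one,
        pow_add, hz, hρ]
      simp only [map_add, map_mul]
      ring
    have h2 := ind_root φ p κ hirrK z hz ρ h1
    have h3 : ∀ i < p, r.coeff i = 0 ∧ r.coeff (p + i) = 0 := by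
      intro i hi
      have h4 := h2 i hi
      rw [hρ] at h4
      simp only at h4
      have h5 := hind (algebraMap ℚ[X] _ (r.coeff i + r.coeff (p + i) * (C a⁻¹ * A)))
        (algebraMap ℚ[X] _ (r.coeff (p + i) * (C a⁻¹ * B))) (by
          rw [← IsScalarTower.algebraMap_apply, ← IsScalarTower.algebraMap_apply, ← h4, hκ]
          simp only [map_add, map_mul]
          ring)
      have h6 := h5.2
      rw [IsFractionRing.to_map_eq_zero_iff] at h6
      have h7 : r.coeff (p + i) = 0 := by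
        rcases mul_eq_zero.1 h6 with h8 | h8
        · exact h8
        · exfalso
          rcases mul_eq_zero.1 h8 with h9 | h9
          · rw [C_eq_zero] at h9
            exact inv_ne_zero ha h9
          · exact hB h9
      have h8 := h5.1
      rw [IsFractionRing.to_map_eq_zero_iff, h7, zero_mul, add_zero] at h8
      exact ⟨h8, h7⟩
    ext1 m
    rw [coeff_zero]
    rcases lt_or_ge m p with hm | hm
    · exact (h3 m hm).1
    · rcases lt_or_ge m (p * 2) with hm2' | hm2'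
      · have h4 := (h3 (m - p) (by omega)).2
        rwa [Nat.add_sub_cancel' hm] at h4
      · exact coeff_eq_zero_of_natDegree_lt (lt_of_lt_of_le hrd hm2')

end

end Pool.Agent.X95T
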