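import Pool.Agent.X95T.HI2
import Pool.Agent.X95T.HF3

set_option autoImplicit false

namespace Pool.Agent.X95T

section

open Polynomial

lemma nc_int (f : ℤ[X]) (hd : Odd f.natDegree ∨ ¬ IsSquare f.leadingCoeff) :
    NC (f.map (Int.castRingHom ℚ)) := by
  have hinj : Function.Injective (Int.castRingHom ℚ) := Int.cast_injective
  rcases hd with h | h
  · left
    rwa [natDegree_map_eq_of_injective hinj]
  · right
    rw [leadingCoeff_map_of_injective hinj, eq_intCast, Rat.isSquare_intCast_iff]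
    exact h

/-- the covers of the hyperelliptic curve are irreducible -/
lemma irr_quad' {p : ℕ} (hp : p.Prime) (f A B u : ℤ[X]) (e : ℤ) (he : e ≠ 0)
    (hsq : Squarefree (f.map (Int.castRingHom ℚ))) (hd : Odd f.natDegree ∨ ¬ IsSquare f.leadingCoeff) (hB : B ≠ 0)
    (hr : u.natDegree < f.natDegree) (h : A ^ 2 - f * B ^ 2 = C e * u ^ p) (a : ℤ) (ha : a ≠ 0) :
    Irreducible (MvPolynomial.map (Int.castRingHom ℚ)
      (sub a p (quad (-(C 2 * A)) (C e * u ^ p)))) := by
  have hinj : Function.Injective (Int.castRingHom ℚ) := Int.cast_injective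
  have haQ : (a : ℚ) ≠ 0 := by exact_mod_cast ha
  have hM := hypM_irr' hp (f.map (Int.castRingHom ℚ)) (A.map (Int.castRingHom ℚ))
    (B.map (Int.castRingHom ℚ)) (u.map (Int.castRingHom ℚ)) (e : ℚ) (a : ℚ)
    (by exact_mod_cast he) haQ hsq (nc_int f hd)
    (by rwa [Ne, Polynomial.map_eq_zero_iff hinj])
    (by rwa [natDegree_map_eq_of_injective hinj, natDegree_map_eq_of_injective hinj])
    (by
      have h1 := congrArg (Polynomial.map (Int.castRingHom ℚ)) h
      simpa using h1)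
  have h1 : isoP (MvPolynomial.map (Int.castRingHom ℚ)
      (sub a p (quad (-(C 2 * A)) (C e * u ^ p)))) = C (C ((a : ℚ) ^ 2)) *
      hypM p (A.map (Int.castRingHom ℚ)) (u.map (Int.castRingHom ℚ)) e a := by
    have h2 := hom_map (isoP : MvPolynomial (Fin 2) ℚ →+* ℚ[X][X])
      (sub a p (quad (-(C 2 * A)) (C e * u ^ p)))
    rw [RingHom.coe_coe, isoP_X0, isoP_X1] at h2
    rw [h2]
    refine (aeval_sub a p _ _ _).trans ?_
    have hcast : (a : ℚ[X][X]) = C (C (a : ℚ)) := by simp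
    have hae : ∀ P : ℤ[X], eval₂ (Int.castRingHom ℚ[X][X]) (C X : ℚ[X][X]) P =
        C (P.map (Int.castRingHom ℚ)) := by
      intro P
      have h3 : eval₂RingHom (Int.castRingHom ℚ[X][X]) (C X : ℚ[X][X]) =
          (C : ℚ[X] →+* ℚ[X][X]).comp (mapRingHom (Int.castRingHom ℚ)) := by
        apply Polynomial.ringHom_ext'
        · exact Subsingleton.elim _ _
        · simp
      exact DFunLike.congr_fun h3 P
    rw [quad, map_add, map_add, map_mul, map_pow, aeval_px, aeval_px, MvPolynomial.aeval_X]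
    simp only [Matrix.cons_val_one, Matrix.cons_val_zero]
    rw [aeval_gen, aeval_gen, hae, hae, hcast, hypM, Polynomial.map_neg, Polynomial.map_mul, Polynomial.map_mul,
      Polynomial.map_pow, Polynomial.map_C, Polynomial.map_C, mul_add, mul_add, ← mul_assoc, ← mul_assoc,
      ← C_mul, ← C_mul, mul_pow, ← pow_mul, ← C_pow, ← C_pow, mul_comm p 2]
    rw [add_assoc]
    congr 1
    congr 1
    · congr 2
      have h4 : (C (2 / (a : ℚ)) : ℚ[X]) = C 2 * C ((a : ℚ)⁻¹) := by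
        rw [← C_mul, div_eq_mul_inv]
      have h5 : (C ((a : ℚ) ^ 2) * C ((a : ℚ)⁻¹) : ℚ[X]) = C (a : ℚ) := by
        rw [← C_mul]
        congr 1
        field_simp
      rw [h4]
      have h6 : (Int.castRingHom ℚ) 2 = (2 : ℚ) := by simp
      rw [h6, ← h5]
      ring
    · rw [← C_mul]
      congr 1
      rw [← mul_assoc, ← C_mul]
      congr 2
      rw [mul_div_cancel₀ _ (pow_ne_zero _ haQ)]
      simp
  rw [← MulEquiv.irreducible_iff isoP, h1, irreducible_isUnit_mul (isUnit_CC (pow_ne_zero _ haQ))]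
  exact hM

/-- `σ Q ^ 2 + u ^ p = x ^ (p δ)` has only the trivial solution -/
lemma triv_sol' {p δ : ℕ} (hp3 : 2 ≤ p) (hpos : 1 ≤ p * δ) (σ : ℝ) (hσ : σ ≠ 0) (u Q : ℝ[X])
    (hu : u.Monic) (hδ : u.natDegree = δ) (hQ : 2 * Q.natDegree < p * δ)
    (h : C σ * Q ^ 2 + u ^ p = X ^ (p * δ)) : Q = 0 ∧ u = X ^ δ := by
  have hu0 : u ≠ 0 := hu.ne_zero
  have hXu : ∃ i, ∃ u₁ : ℝ[X], u = X ^ i * u₁ ∧ ¬ X ∣ u₁ := by
    obtain ⟨v, hv, hv2⟩ := exists_eq_pow_rootMultiplicity_mul_and_not_dvd u hu0 0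
    rw [map_zero, sub_zero] at hv hv2
    exact ⟨_, v, hv, hv2⟩
  obtain ⟨i, u₁, hu₁, hX1⟩ := hXu
  have hu₁0 : u₁ ≠ 0 := by
    rintro rfl
    simp at hX1
  have hi : i + u₁.natDegree = δ := by
    rw [← hδ, hu₁, natDegree_mul (pow_ne_zero _ X_ne_zero) hu₁0, natDegree_X_pow]
  -- reduce to `u₁` constant
  have key : u₁.natDegree = 0 → Q = 0 → Q = 0 ∧ u = X ^ δ := by
    intro h1 h2
    refine ⟨h2, ?_⟩
    have h3 : i = δ := by omega
    have h4 : u₁ = C (u₁.coeff 0) := eq_C_of_natDegree_eq_zero h1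
    have h5 : u₁.leadingCoeff = 1 := by
      have h6 := hu.leadingCoeff
      rw [hu₁, leadingCoeff_mul, leadingCoeff_X_pow, one_mul] at h6
      exact h6
    rw [hu₁, h3, eq_C_of_natDegree_eq_zero h1, ← h1, coeff_natDegree, h5]
    simp
  have hdvd : X ^ (p * i) ∣ u ^ p := by
    rw [hu₁, mul_pow, ← pow_mul, mul_comm p i]
    exact dvd_mul_right _ _
  have hiδ : i ≤ δ := by omega
  by_cases hQ0 : Q = 0
  · apply key _ hQ0
    rw [hQ0, zero_pow two_ne_zero, mul_zero, zero_add, hu₁, mul_pow, ← pow_mul] at h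
    by_contra h1
    have h2 : i < δ := by omega
    have h3 : u₁ ^ p = X ^ (p * δ - i * p) := by
      apply mul_left_cancel₀ (pow_ne_zero (i * p) (X_ne_zero (R := ℝ)))
      rw [h, ← pow_add]
      congr 1
      have : i * p ≤ p * δ := by
        rw [mul_comm]
        exact Nat.mul_le_mul_left _ hiδ
      omega
    apply hX1
    apply prime_X.dvd_of_dvd_pow (n := p)
    rw [h3]
    apply dvd_pow_self
    have : p * i < p * δ := Nat.mul_lt_mul_of_pos_left h2 (by omega)
    rw [mul_comm i p]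
    omega
  · exfalso
    obtain ⟨v, hv, hv2⟩ := exists_eq_pow_rootMultiplicity_mul_and_not_dvd Q hQ0 0
    rw [map_zero, sub_zero] at hv hv2
    set j := rootMultiplicity 0 Q with hj
    have hv0 : v ≠ 0 := by
      rintro rfl
      simp at hv2
    have hdQ : j + v.natDegree = Q.natDegree := by
      rw [hv, natDegree_mul (pow_ne_zero _ X_ne_zero) hv0, natDegree_X_pow]
    -- `p i ≤ 2 j`
    have hji : p * i ≤ 2 * j := by
      have h1 : X ^ (p * i) ∣ C σ * Q ^ 2 := by
        have h2 : C σ * Q ^ 2 = X ^ (p * δ) - u ^ p := by rw [← h]; ring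
        rw [h2]
        exact dvd_sub (pow_dvd_pow _ (Nat.mul_le_mul_left _ hiδ)) hdvd
      have h2 : X ^ (p * i) ∣ Q ^ 2 := by
        have hu : IsUnit (C σ : ℝ[X]) := isUnit_C.2 (isUnit_iff_ne_zero.2 hσ)
        exact (hu.dvd_mul_left).1 h1
      by_contra h3
      rw [not_le] at h3
      rw [hv, mul_pow, ← pow_mul] at h2
      obtain ⟨w, hw⟩ := h2
      have h4 : v ^ 2 = X ^ (p * i - j * 2) * w := by
        apply mul_left_cancel₀ (pow_ne_zero (j * 2) (X_ne_zero (R := ℝ)))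
        rw [hw, ← mul_assoc, ← pow_add]
        congr 2
        omega
      apply hv2
      apply prime_X.dvd_of_dvd_pow (n := 2)
      rw [h4]
      exact (dvd_pow_self _ (by omega)).mul_right _
    -- the differential equation
    set W := 2 * X * derivative Q - C ((p * δ : ℕ) : ℝ) * Q with hW
    have hode : C σ * (Q * W) = u ^ (p - 1) * (C ((p * δ : ℕ) : ℝ) * u - C (p : ℝ) * (X * derivative u)) := by
      have h1 := congrArg derivative h
      rw [derivative_add, derivative_C_mul, derivative_pow, derivative_pow, derivative_X_pow] at h1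
      have hδ1 : 1 ≤ p * δ := hpos
      have h2 : (X : ℝ[X]) * X ^ (p * δ - 1) = X ^ (p * δ) := by
        rw [← pow_succ', Nat.sub_add_cancel hδ1]
      have h3 : u * u ^ (p - 1) = u ^ p := by
        rw [← pow_succ', Nat.sub_add_cancel (by omega)]
      rw [hW]
      have h4 : (C ((2 : ℕ) : ℝ) : ℝ[X]) = 2 := by
        rw [Nat.cast_ofNat]
        exact map_ofNat C 2
      simp only [h4, Nat.reduceSub, _root_.pow_one] at h1
      linear_combination X * h1 + C ((p * δ : ℕ) : ℝ) * h2 - C ((p * δ : ℕ) : ℝ) * h3 -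
        C ((p * δ : ℕ) : ℝ) * h
    -- coprimality
    have hcop1 : IsCoprime (X : ℝ[X]) u₁ := by
      rw [(irreducible_X (R := ℝ)).coprime_iff_not_dvd]
      exact hX1
    have hcop2 : IsCoprime u₁ Q := by
      have h1 : IsCoprime u₁ (X ^ (p * δ)) := (hcop1.pow_left).symm
      rw [← h] at h1
      have h2 : IsCoprime u₁ (C σ * Q ^ 2) := by
        have h3 : u₁ ∣ u ^ p := by
          rw [hu₁]
          exact (dvd_mul_left _ _).trans (dvd_pow_self _ (by omega))
        obtain ⟨w, hw⟩ := h3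
        rw [hw] at h1
        exact IsCoprime.of_add_mul_left_right h1
      have h4 := IsCoprime.of_mul_right_right h2
      rwa [IsCoprime.pow_right_iff (by norm_num)] at h4
    have hdvdW : u₁ ^ (p - 1) ∣ W := by
      have h1 : u₁ ^ (p - 1) ∣ C σ * (Q * W) := by
        rw [hode, hu₁, mul_pow]
        exact ((dvd_mul_left _ _)).mul_right _
      have hu : IsUnit (C σ : ℝ[X]) := isUnit_C.2 (isUnit_iff_ne_zero.2 hσ)
      have h2 := (hu.dvd_mul_left).1 h1
      exact (hcop2.pow_left).dvd_of_dvd_mul_left h2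
    -- `X ^ j` exactly divides `W`
    have hW2 : W = X ^ j * (C (2 * (j : ℝ) - ((p * δ : ℕ) : ℝ)) * v + 2 * (X * derivative v)) := by
      rw [hW, hv, derivative_mul, derivative_X_pow]
      have h1 : (X : ℝ[X]) * (C (j : ℝ) * X ^ (j - 1)) = C (j : ℝ) * X ^ j := by
        rcases Nat.eq_zero_or_pos j with h0 | h0
        · rw [h0]; simp
        · rw [mul_left_comm, ← pow_succ', Nat.sub_add_cancel h0]
      rw [C_sub, C_mul, show (C (2 : ℝ) : ℝ[X]) = 2 from map_ofNat C 2]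
      linear_combination 2 * v * h1
    have hWj : ¬ X ∣ (C (2 * (j : ℝ) - ((p * δ : ℕ) : ℝ)) * v + 2 * (X * derivative v)) := by
      rw [X_dvd_iff]
      intro h1
      have h2 : (2 * (X * derivative v) : ℝ[X]).coeff 0 = 0 := by
        rw [← mul_assoc, mul_comm (2 : ℝ[X]) X, mul_assoc, mul_coeff_zero, coeff_X_zero, zero_mul]
      rw [coeff_add, h2, add_zero, coeff_C_mul, mul_eq_zero] at h1
      rcases h1 with h1 | h1
      · have h3 : 2 * j = p * δ := by
          have h4 : (2 : ℝ) * j = ((p * δ : ℕ) : ℝ) := by linarith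
          exact_mod_cast h4
        omega
      · exact hv2 (X_dvd_iff.2 h1)
    have hW0 : W ≠ 0 := by
      intro h0
      rw [h0] at hW2
      have h1 := (mul_eq_zero.1 hW2.symm).resolve_left (pow_ne_zero _ X_ne_zero)
      rw [h1] at hWj
      simp at hWj
    have hdiv : X ^ j * u₁ ^ (p - 1) ∣ W :=
      (hcop1.pow : IsCoprime (X ^ j) (u₁ ^ (p - 1))).mul_dvd (by rw [hW2]; exact dvd_mul_right _ _)
        hdvdW
    have hdeg := natDegree_le_of_dvd hdiv hW0
    rw [natDegree_mul (pow_ne_zero _ X_ne_zero) (pow_ne_zero _ hu₁0), natDegree_X_pow,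
      natDegree_pow] at hdeg
    have hWd : W.natDegree ≤ Q.natDegree := by
      rw [hW]
      refine (natDegree_sub_le _ _).trans (max_le ?_ (natDegree_C_mul_le _ _))
      rcases Nat.eq_zero_or_pos Q.natDegree with h0 | h0
      · rw [eq_C_of_natDegree_eq_zero h0]
        simp
      · have h1 : (2 * X * derivative Q : ℝ[X]).natDegree ≤ 1 + (derivative Q).natDegree := by
          refine (natDegree_mul_le).trans (Nat.add_le_add_right ?_ _)
          rw [show (2 : ℝ[X]) = C 2 from (map_ofNat C 2).symm]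
          exact (natDegree_C_mul_le _ _).trans natDegree_X_le
        have h2 := natDegree_derivative_le Q
        omega
    -- arithmetic
    obtain ⟨k, hk⟩ : ∃ k, k = u₁.natDegree := ⟨_, rfl⟩
    rw [← hk] at hdeg hi
    have h1 : 2 * j + 2 * ((p - 1) * k) < p * δ := by omega
    rw [← hi] at h1
    obtain ⟨p', rfl⟩ : ∃ p', p = p' + 1 := ⟨p - 1, by omega⟩
    simp only [Nat.add_sub_cancel] at h1
    have h2 : (p' + 1) * i + 2 * (p' * k) < (p' + 1) * i + (p' + 1) * k := by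
      calc _ ≤ 2 * j + 2 * (p' * k) := by omega
        _ < _ := by rw [← mul_add (p' + 1)]; exact h1
    have h3 : 2 * (p' * k) < (p' + 1) * k := by omega
    have h4 : (p' + 1) * k ≤ 2 * (p' * k) := by
      rw [← mul_assoc]
      exact Nat.mul_le_mul_right _ (by omega)
    omega

lemma gP_zero' {δ m : ℕ} (p : ℕ) (hp3 : 2 ≤ p) (hm : 2 * m < p * δ) (σ : ℝ)
    (hσ : σ ≠ 0) (v : Par δ m) (h : gP p σ v = 0) : v = 0 := by
  have h1 : ∀ i < p * δ, (FP p σ v).coeff i = 0 := by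
    intro i hi
    rw [gP, Finset.sum_eq_zero_iff_of_nonneg fun _ _ => abs_nonneg _] at h
    exact abs_eq_zero.1 (h i (Finset.mem_range.2 hi))
  have hQd := QP_deg v
  have hlow : (C σ * QP v ^ 2 : ℝ[X]).degree < (uP v ^ p).degree := by
    have h2 : (uP v ^ p).degree = ((p * δ : ℕ) : WithBot ℕ) := by
      rw [degree_eq_natDegree ((uP_monic v).pow p).ne_zero, natDegree_pow, uP_deg]
    rw [h2]
    refine lt_of_le_of_lt degree_le_natDegree ?_
    norm_cast
    refine lt_of_le_of_lt (natDegree_C_mul_le _ _) ?_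
    rw [natDegree_pow]
    omega
  have hmon : (FP p σ v).Monic := by
    rw [FP]
    exact ((uP_monic v).pow p).add_of_right hlow
  have hdeg : (FP p σ v).natDegree = p * δ := by
    rw [FP, natDegree_eq_of_degree_eq (degree_add_eq_right_of_degree_lt hlow), natDegree_pow, uP_deg]
  have h2 : FP p σ v = X ^ (p * δ) := by
    ext i
    rw [coeff_X_pow]
    rcases lt_trichotomy i (p * δ) with h3 | h3 | h3
    · rw [h1 i h3, if_neg h3.ne]
    · rw [if_pos h3, h3, ← hdeg]
      exact hmon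
    · rw [if_neg h3.ne', coeff_eq_zero_of_natDegree_lt (by rw [hdeg]; exact h3)]
  obtain ⟨hQ, hu⟩ := triv_sol' hp3 (by omega) σ hσ (uP v) (QP v) (uP_monic v) (uP_deg v)
    (by omega) h2
  have e1 : v.1 = 0 := by
    funext i
    have h3 := congrArg (fun P : ℝ[X] => P.coeff i) hu
    simp only [uP, coeff_add, coeff_sumFin, dif_pos i.2] at h3
    simpa using h3
  have e2 : v.2 = 0 := by
    funext i
    have h3 := congrArg (fun P : ℝ[X] => P.coeff i) hQ
    simp only [QP, coeff_sumFin, dif_pos i.2] at h3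
    simpa using h3
  exact Prod.ext e1 e2

/-- the parameters are bounded in terms of the coefficients of `σ Q ^ 2 + u ^ p` -/
theorem par_bound' (p δ m : ℕ) (hp3 : 2 ≤ p) (hm : 2 * m < p * δ) (σ : ℝ)
    (hσ : σ ≠ 0) : ∃ K : ℝ, 1 ≤ K ∧ ∀ v : Par δ m, ‖v‖ ≤ K * (1 + gP p σ v) ^ (p * δ) := by
  have hδp : δ ≤ p * δ := Nat.le_mul_of_pos_left _ (by omega)
  have hcomp : IsCompact (Metric.sphere (0 : Par δ m) 1) := isCompact_sphere _ _
  have hne : (Metric.sphere (0 : Par δ m) 1).Nonempty := by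
    apply NormedSpace.sphere_nonempty.2
    norm_num
  obtain ⟨v₀, hv₀, hmin⟩ := hcomp.exists_isMinOn hne (gP_cont p σ).continuousOn
  have hμ : 0 < gP p σ v₀ := by
    rcases (gP_nonneg p σ v₀).lt_or_eq with h | h
    · exact h
    · exfalso
      have h1 := gP_zero' p hp3 hm σ hσ v₀ h.symm
      rw [h1, mem_sphere_zero_iff_norm, norm_zero] at hv₀
      norm_num at hv₀
  set μ := gP p σ v₀ with hμd
  refine ⟨1 + (1 / μ) ^ (p * δ), by linarith [pow_pos (one_div_pos.2 hμ) (p * δ)], ?_⟩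
  intro v
  have hG := gP_nonneg p σ v
  have hG1 : 1 ≤ (1 + gP p σ v) ^ (p * δ) := one_le_pow₀ (by linarith)
  rcases le_or_gt ‖v‖ 1 with hv | hv
  · refine hv.trans ?_
    have := pow_pos (one_div_pos.2 hμ) (p * δ)
    nlinarith
  · obtain ⟨s, hs, hsn⟩ : (1 : ℝ) ∈ (fun s => ‖sc (p * δ) s v‖) '' Set.Icc 0 1 := by
      apply intermediate_value_Icc zero_le_one
      · exact (sc_cont (p * δ) v).norm.continuousOn
      · simp only [sc_zero (p * δ) hm, sc_one, norm_zero]
        exact ⟨zero_le_one, hv.le⟩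
    simp only at hsn
    have hs0 : s ≠ 0 := by
      rintro rfl
      rw [sc_zero _ hm, norm_zero] at hsn
      norm_num at hsn
    have hs0' : 0 < s := lt_of_le_of_ne hs.1 hs0.symm
    have h1 : μ ≤ s ^ 2 * gP p σ v := by
      have h2 : gP p σ v₀ ≤ gP p σ (sc (p * δ) s v) := hmin (mem_sphere_zero_iff_norm.2 hsn)
      refine h2.trans ?_
      rw [gP, gP, Finset.mul_sum]
      apply Finset.sum_le_sum
      intro i hi
      rw [Finset.mem_range] at hi
      rw [sc_FP_coeff p σ hm.le s hs0 v i hi.le, abs_mul, abs_of_nonneg (pow_nonneg hs.1 _)]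
      apply mul_le_mul_of_nonneg_right _ (abs_nonneg _)
      exact pow_le_pow_of_le_one hs.1 hs.2 (by omega)
    have h2 := sc_norm (p * δ) hδp s hs.1 hs.2 v
    rw [hsn] at h2
    have h3 : μ ^ (p * δ) ≤ s ^ (2 * (p * δ)) * gP p σ v ^ (p * δ) := by
      calc _ ≤ (s ^ 2 * gP p σ v) ^ (p * δ) := pow_le_pow_left₀ hμ.le h1 _
        _ = _ := by rw [mul_pow, ← pow_mul]
    have h4 : ‖v‖ * μ ^ (p * δ) ≤ gP p σ v ^ (p * δ) := by
      calc _ ≤ ‖v‖ * (s ^ (2 * (p * δ)) * gP p σ v ^ (p * δ)) :=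
            mul_le_mul_of_nonneg_left h3 (norm_nonneg _)
        _ = (s ^ (2 * (p * δ)) * ‖v‖) * gP p σ v ^ (p * δ) := by ring
        _ ≤ 1 * gP p σ v ^ (p * δ) := mul_le_mul_of_nonneg_right h2 (pow_nonneg hG _)
        _ = _ := one_mul _
    have h5 : ‖v‖ ≤ gP p σ v ^ (p * δ) * (1 / μ) ^ (p * δ) := by
      rw [one_div, inv_pow, ← div_eq_mul_inv, le_div_iff₀ (pow_pos hμ _)]
      exact h4
    refine h5.trans ?_
    have h6 : gP p σ v ^ (p * δ) ≤ (1 + gP p σ v) ^ (p * δ) := pow_le_pow_left₀ hG (by linarith) _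
    have h7 := pow_pos (one_div_pos.2 hμ) (p * δ)
    nlinarith

/-- the sizes of `Q`, `u`, `e` are bounded in terms of `f = Q ^ 2 - e u ^ p` -/
theorem int_bound' (p δ : ℕ) (hp3 : 2 ≤ p) (hpδ : 1 ≤ p * δ) :
    ∃ K : ℕ, ∀ (f Q u : ℤ[X]) (e : ℤ) (H : ℕ), f.natDegree = p * δ → u.natDegree = δ → e ≠ 0 →
      2 * Q.natDegree < p * δ →
      f = Q ^ 2 - C e * u ^ p → (∀ i, (f.coeff i).natAbs ≤ H) →
      (∀ i, (Q.coeff i).natAbs ≤ K * H ^ (p * δ + 1)) ∧
      (∀ i, (u.coeff i).natAbs ≤ K * H ^ (p * δ + 1)) ∧ e.natAbs ≤ H ∧ 1 ≤ H := by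
  set m := (p * δ - 1) / 2 with hm
  have h2m : 2 * m < p * δ := by omega
  obtain ⟨K₁, hK₁, h₁⟩ := par_bound' p δ m hp3 h2m 1 one_ne_zero
  obtain ⟨K₂, hK₂, h₂⟩ := par_bound' p δ m hp3 h2m (-1) (by norm_num)
  set K := ⌈(K₁ + K₂) * (1 + p * δ) ^ (p * δ)⌉₊ with hK
  refine ⟨K, ?_⟩
  intro f Q u e H hf hu he hQ hfe hH
  have hu0 : u ≠ 0 := by
    rintro rfl
    rw [natDegree_zero] at hu
    rw [← hu, mul_zero] at hpδ
    omega
  set l := u.leadingCoeff with hl
  have hl0 : l ≠ 0 := leadingCoeff_ne_zero.2 hu0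
  have hlead : f.leadingCoeff = -(e * l ^ p) := by
    have h3 : (C e * u ^ p).coeff (p * δ) = e * l ^ p := by
      have h4 : (C e * u ^ p).natDegree = p * δ := by
        rw [natDegree_C_mul he, natDegree_pow, hu]
      rw [← h4, coeff_natDegree, leadingCoeff_mul, leadingCoeff_C, leadingCoeff_pow]
    rw [leadingCoeff, hf, hfe, coeff_sub, h3, coeff_eq_zero_of_natDegree_lt (by
      rw [natDegree_pow]; exact hQ), zero_sub]
  set ℓ := f.leadingCoeff with hℓ
  have hℓ0 : ℓ ≠ 0 := by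
    rw [hlead]
    exact neg_ne_zero.2 (mul_ne_zero he (pow_ne_zero _ hl0))
  have hℓH : ℓ.natAbs ≤ H := hH _
  have hℓ1 : 1 ≤ ℓ.natAbs := Int.natAbs_pos.2 hℓ0
  have hH1 : 1 ≤ H := hℓ1.trans hℓH
  have hprod : ℓ.natAbs = e.natAbs * l.natAbs ^ p := by
    rw [hlead, Int.natAbs_neg, Int.natAbs_mul, Int.natAbs_pow]
  have heH : e.natAbs ≤ H := by
    refine le_trans ?_ hℓH
    rw [hprod]
    exact Nat.le_mul_of_pos_right _ (Nat.pow_pos (Int.natAbs_pos.2 hl0))
  have hlH : l.natAbs ≤ H := by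
    refine le_trans ?_ hℓH
    rw [hprod]
    exact (Nat.le_self_pow (by omega) _).trans (Nat.le_mul_of_pos_left _ (Int.natAbs_pos.2 he))
  -- the real parameters
  have hℓR : (ℓ : ℝ) ≠ 0 := by exact_mod_cast hℓ0
  have hlR : (l : ℝ) ≠ 0 := by exact_mod_cast hl0
  set r := Real.sqrt |(ℓ : ℝ)| with hr
  have hr0 : 0 < r := Real.sqrt_pos.2 (abs_pos.2 hℓR)
  have hr2 : r ^ 2 = |(ℓ : ℝ)| := Real.sq_sqrt (abs_nonneg _)
  have hℓ1R : (1 : ℝ) ≤ |(ℓ : ℝ)| := by
    rw [← Int.cast_abs]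
    exact_mod_cast Int.one_le_abs hℓ0
  have hrℓ : r ≤ |(ℓ : ℝ)| := by
    rw [hr, Real.sqrt_le_left (abs_nonneg _)]
    nlinarith
  set v : Par δ m := (fun i => (u.coeff i : ℝ) / l, fun i => (Q.coeff i : ℝ) / r) with hv
  have huP : uP v = C ((1 : ℝ) / l) * u.map (Int.castRingHom ℝ) := by
    ext j
    rw [uP, coeff_add, coeff_sumFin, coeff_C_mul, coeff_map, coeff_X_pow]
    simp only [eq_intCast]
    rcases lt_trichotomy j δ with h3 | h3 | h3
    · rw [dif_pos h3, if_neg h3.ne, zero_add]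
      show (u.coeff j : ℝ) / l = _
      ring
    · rw [dif_neg (by omega), if_pos h3, add_zero, h3, ← hu, coeff_natDegree, ← hl]
      field_simp
    · rw [dif_neg (by omega), if_neg h3.ne', coeff_eq_zero_of_natDegree_lt (by omega)]
      simp
  have hQP : QP v = C ((1 : ℝ) / r) * Q.map (Int.castRingHom ℝ) := by
    ext j
    rw [QP, coeff_sumFin, coeff_C_mul, coeff_map]
    simp only [eq_intCast]
    by_cases h3 : j < m + 1
    · rw [dif_pos h3]
      show (Q.coeff j : ℝ) / r = _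
      ring
    · rw [dif_neg h3, coeff_eq_zero_of_natDegree_lt (by omega)]
      simp
  have hFP : ∀ σ : ℝ, σ / |(ℓ : ℝ)| = 1 / ℓ →
      FP p σ v = C ((1 : ℝ) / ℓ) * f.map (Int.castRingHom ℝ) := by
    intro σ hσ
    have h3 : (Polynomial.map (Int.castRingHom ℝ) f) =
        (Q.map (Int.castRingHom ℝ)) ^ 2 - C (e : ℝ) * (u.map (Int.castRingHom ℝ)) ^ p := by
      rw [hfe]
      simp
    have h4 : σ * (1 / r) ^ 2 = 1 / ℓ := by
      rw [one_div, inv_pow, hr2, ← hσ]
      ring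
    have h5 : ((1 : ℝ) / l) ^ p = -(1 / ℓ * e) := by
      have h6 : (ℓ : ℝ) = -(e * l ^ p) := by exact_mod_cast hlead
      have h7 : (e : ℝ) ≠ 0 := by exact_mod_cast he
      rw [h6, div_pow, one_pow]
      field_simp
    rw [FP, huP, hQP, h3, mul_pow, mul_pow, ← C_pow, ← C_pow, h5, ← mul_assoc, ← C_mul, h4, C_neg,
      C_mul]
    ring
  have hG : ∀ σ : ℝ, σ / |(ℓ : ℝ)| = 1 / ℓ → gP p σ v ≤ (p * δ) * H := by
    intro σ hσ
    rw [gP, hFP σ hσ]
    calc _ ≤ ∑ i ∈ Finset.range (p * δ), (H : ℝ) := by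
          apply Finset.sum_le_sum
          intro i _
          rw [coeff_C_mul, coeff_map, abs_mul, abs_div, abs_one]
          simp only [eq_intCast]
          have h3 : |(f.coeff i : ℝ)| ≤ H := by
            have := hH i
            rw [← Int.cast_abs, ← Int.natCast_natAbs]
            exact_mod_cast this
          calc _ ≤ 1 * |(f.coeff i : ℝ)| := by
                apply mul_le_mul_of_nonneg_right _ (abs_nonneg _)
                rw [div_le_one (by linarith)]
                exact hℓ1R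
            _ ≤ _ := by rw [one_mul]; exact h3
      _ = _ := by
          rw [Finset.sum_const, Finset.card_range, nsmul_eq_mul]
          push_cast
          ring
  have hvn : ‖v‖ ≤ K * (H : ℝ) ^ (p * δ) := by
    have hstep : ∀ (σ K' : ℝ), K' ≤ K₁ + K₂ → 0 ≤ K' → σ / |(ℓ : ℝ)| = 1 / ℓ →
        ‖v‖ ≤ K' * (1 + gP p σ v) ^ (p * δ) → ‖v‖ ≤ K * (H : ℝ) ^ (p * δ) := by
      intro σ K' hK' hK'0 hσ h3
      have h4 := hG σ hσ
      have hHR : (1 : ℝ) ≤ H := by exact_mod_cast hH1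
      have h5 : 1 + gP p σ v ≤ (1 + p * δ) * H := by nlinarith
      have h6 : (0 : ℝ) ≤ 1 + gP p σ v := by linarith [gP_nonneg p σ v]
      calc ‖v‖ ≤ K' * (1 + gP p σ v) ^ (p * δ) := h3
        _ ≤ (K₁ + K₂) * ((1 + p * δ) * H) ^ (p * δ) := by
            apply mul_le_mul hK' (pow_le_pow_left₀ h6 h5 _) (pow_nonneg h6 _) (by linarith)
        _ = ((K₁ + K₂) * (1 + p * δ) ^ (p * δ)) * (H : ℝ) ^ (p * δ) := by
            rw [mul_pow]; ring
        _ ≤ _ := by
            apply mul_le_mul_of_nonneg_right (Nat.le_ceil _) (by positivity)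
    rcases lt_or_gt_of_ne hℓR with h3 | h3
    · apply hstep (-1) K₂ (by linarith) (by linarith) _ (h₂ v)
      rw [abs_of_neg h3]
      field_simp
    · apply hstep 1 K₁ (by linarith) (by linarith) _ (h₁ v)
      rw [abs_of_pos h3]
  have hK1 : 1 ≤ K := by
    have h3 : (1 : ℝ) ≤ (K₁ + K₂) * (1 + p * δ) ^ (p * δ) := by
      have h4 : (1 : ℝ) ≤ (1 + p * δ : ℝ) ^ (p * δ) := one_le_pow₀ (by
        have : (0 : ℝ) ≤ (p : ℝ) * δ := by positivity
        linarith)
      nlinarith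
    have h4 : (1 : ℝ) ≤ K := h3.trans (Nat.le_ceil _)
    exact_mod_cast h4
  have hfin : ∀ (z : ℤ) (w : ℝ), |(z : ℝ)| ≤ w * ‖v‖ → w ≤ H →
      z.natAbs ≤ K * H ^ (p * δ + 1) := by
    intro z w h3 h4
    have h5 : |(z : ℝ)| ≤ K * (H : ℝ) ^ (p * δ + 1) := by
      calc _ ≤ w * ‖v‖ := h3
        _ ≤ H * (K * (H : ℝ) ^ (p * δ)) := mul_le_mul h4 hvn (norm_nonneg _) (by positivity)
        _ = _ := by rw [pow_succ]; ring
    rw [← Int.cast_abs, ← Int.natCast_natAbs] at h5
    exact_mod_cast h5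
  refine ⟨?_, ?_, heH, hH1⟩
  · intro i
    by_cases h3 : i < m + 1
    · apply hfin _ r
      · have h4 := (norm_le_pi_norm v.2 ⟨i, h3⟩).trans (norm_snd_le v)
        have h5 : ‖v.2 ⟨i, h3⟩‖ = |(Q.coeff i : ℝ)| / r := by
          rw [hv, Real.norm_eq_abs, abs_div, abs_of_pos hr0]
        rw [h5, div_le_iff₀ hr0] at h4
        linarith
      · refine hrℓ.trans ?_
        rw [← Int.cast_abs, ← Int.natCast_natAbs]
        exact_mod_cast hℓH
    · rw [coeff_eq_zero_of_natDegree_lt (by omega)]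
      simp
  · intro i
    rcases lt_trichotomy i δ with h3 | h3 | h3
    · apply hfin _ |(l : ℝ)|
      · have h4 := (norm_le_pi_norm v.1 ⟨i, h3⟩).trans (norm_fst_le v)
        have h5 : ‖v.1 ⟨i, h3⟩‖ = |(u.coeff i : ℝ)| / |(l : ℝ)| := by
          rw [hv, Real.norm_eq_abs, abs_div]
        rw [h5, div_le_iff₀ (abs_pos.2 hlR)] at h4
        linarith
      · rw [← Int.cast_abs, ← Int.natCast_natAbs]
        exact_mod_cast hlH
    · rw [h3, ← hu, coeff_natDegree, ← hl, hu]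
      calc l.natAbs ≤ H := hlH
        _ ≤ H ^ (p * δ + 1) := Nat.le_self_pow (by omega) _
        _ ≤ _ := Nat.le_mul_of_pos_left _ hK1
    · rw [coeff_eq_zero_of_natDegree_lt (by omega)]
      simp

end

end Pool.Agent.X95T
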