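import Pool.Agent.X95T.M

set_option autoImplicit false

open IntermediateField

namespace Pool.Agent.X95T

open Pool.Agent.Results.MP_821da1_nt.RepulsionAllCurves (len CoordRing AtInfinity OnePlace)

/-- an integer whose valuations outside `S` are divisible by `n` is an `n`-th power up to a bounded
factor -/
lemma free_part' {p : ℕ} (hp : 1 ≤ p) (S : Finset ℕ) (y : ℤ) (hy : y ≠ 0)
    (h : ∀ q : ℕ, q.Prime → q ∉ S → p ∣ y.natAbs.factorization q) :
    ∃ a z : ℤ, a ≠ 0 ∧ a.natAbs ≤ ∏ q ∈ S, (q + 1) ^ p ∧ y = a * z ^ p := by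
  have hy0 : y.natAbs ≠ 0 := Int.natAbs_ne_zero.2 hy
  obtain ⟨A, hA⟩ : ∃ A : ℕ, A = ∏ q ∈ y.natAbs.primeFactors, q ^ (y.natAbs.factorization q % p) :=
    ⟨_, rfl⟩
  obtain ⟨Z, hZ⟩ : ∃ Z : ℕ, Z = ∏ q ∈ y.natAbs.primeFactors, q ^ (y.natAbs.factorization q / p) :=
    ⟨_, rfl⟩
  have hAZ : y.natAbs = A * Z ^ p := by
    rw [hA, hZ, ← Finset.prod_pow, ← Finset.prod_mul_distrib]
    conv_lhs => rw [← Nat.prod_factorization_pow_eq_self hy0]
    rw [Finsupp.prod, Nat.support_factorization]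
    apply Finset.prod_congr rfl
    intro q _
    rw [← pow_mul, ← pow_add]
    congr 1
    rw [mul_comm (_ / p) p]
    exact (Nat.mod_add_div _ _).symm
  have hA0 : A ≠ 0 := by
    rintro rfl
    rw [zero_mul] at hAZ
    exact hy0 hAZ
  have hAle : A ≤ ∏ q ∈ S, (q + 1) ^ p := by
    classical
    have h1 : A = ∏ q ∈ y.natAbs.primeFactors ∩ S, q ^ (y.natAbs.factorization q % p) := by
      rw [hA]
      symm
      apply Finset.prod_subset Finset.inter_subset_left
      intro q hq hqS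
      have hqp := Nat.prime_of_mem_primeFactors hq
      have hqS' : q ∉ S := fun h' => hqS (Finset.mem_inter.2 ⟨hq, h'⟩)
      rw [Nat.mod_eq_zero_of_dvd (h q hqp hqS'), pow_zero]
    rw [h1]
    calc ∏ q ∈ y.natAbs.primeFactors ∩ S, q ^ (y.natAbs.factorization q % p)
        ≤ ∏ q ∈ y.natAbs.primeFactors ∩ S, (q + 1) ^ p := by
          apply Finset.prod_le_prod' 
          intro q _
          exact (Nat.pow_le_pow_left (Nat.le_succ q) _).trans
            (Nat.pow_le_pow_right (Nat.succ_pos q) (Nat.mod_lt _ hp).le)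
      _ ≤ ∏ q ∈ S, (q + 1) ^ p := by
          apply Finset.prod_le_prod_of_subset_of_one_le' Finset.inter_subset_right
          intro q _ _
          exact Nat.one_le_pow _ _ (Nat.succ_pos q)
  rcases Int.natAbs_eq y with h1 | h1
  · refine ⟨(A : ℤ), (Z : ℤ), by exact_mod_cast hA0, by simpa using hAle, ?_⟩
    rw [h1, hAZ]
    push_cast
    ring
  · refine ⟨-(A : ℤ), (Z : ℤ), by simpa using hA0, by simpa using hAle, ?_⟩
    rw [h1, hAZ]
    push_cast
    ring

/-- the arithmetic of an integer point near the line `y = 0` -/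
lemma split' {n : ℕ} (F : MvPolynomial (Fin 2) ℤ) (D U V : Polynomial ℤ) (e b : ℤ)
    (h1 : MvPolynomial.aeval ![Polynomial.X, (0 : Polynomial ℤ)] F = Polynomial.C e * D ^ n)
    (h2 : U * D + V * MvPolynomial.aeval ![Polynomial.X, (0 : Polynomial ℤ)]
      (MvPolynomial.pderiv 1 F) = Polynomial.C b) (x y : ℤ)
    (h0 : MvPolynomial.eval ![x, y] F = 0) :
    ∃ f u v w : ℤ, y * f = - (e * (D.eval x) ^ n) ∧ u * D.eval x + v * (f + y * w) = b := by
  obtain ⟨q, hq⟩ := taylor F x y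
  have e1 := congrArg (Polynomial.eval x) h1
  have e2 := congrArg (Polynomial.eval x) h2
  rw [eval_line, Polynomial.eval_mul, Polynomial.eval_C, Polynomial.eval_pow] at e1
  rw [Polynomial.eval_add, Polynomial.eval_mul, Polynomial.eval_mul, eval_line,
    Polynomial.eval_C] at e2
  refine ⟨MvPolynomial.eval ![x, 0] (MvPolynomial.pderiv 1 F) + y * q, U.eval x, V.eval x, - q,
    ?_, ?_⟩
  · rw [h0, e1] at hq
    linear_combination -hq
  · rw [← e2]
    ring

lemma val_dvd' {p : ℕ} (y f e dx u v w b : ℤ) (h1 : y * f = - (e * dx ^ p))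
    (h2 : u * dx + v * (f + y * w) = b) (hy : y ≠ 0) (q : ℕ) (hq : q.Prime)
    (hqb : ¬ (q : ℤ) ∣ b) (hqe : ¬ (q : ℤ) ∣ e) :
    p ∣ y.natAbs.factorization q := by
  by_cases hqy : (q : ℤ) ∣ y
  · have hqf : ¬ (q : ℤ) ∣ f := by
      intro h
      apply hqb
      have hqZ : Prime (q : ℤ) := Nat.prime_iff_prime_int.1 hq
      have h4 : (q : ℤ) ∣ e * dx ^ p := by
        rw [← dvd_neg, ← h1]
        exact hqy.mul_right f
      have h3 : (q : ℤ) ∣ dx := hqZ.dvd_of_dvd_pow ((hqZ.dvd_or_dvd h4).resolve_left hqe)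
      rw [← h2]
      exact dvd_add (h3.mul_left u) (Dvd.dvd.mul_left (dvd_add h (hqy.mul_right w)) v)
    have hf : f ≠ 0 := by
      rintro rfl
      exact hqf (dvd_zero _)
    have he : e ≠ 0 := by
      rintro rfl
      exact hqe (dvd_zero _)
    have hdx : dx ^ p ≠ 0 := by
      intro h
      rw [h, mul_zero, neg_zero] at h1
      rcases mul_eq_zero.1 h1 with h | h
      · exact hy h
      · exact hf h
    have h3 := congrArg Int.natAbs h1
    rw [Int.natAbs_neg, Int.natAbs_mul, Int.natAbs_mul] at h3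
    have h4 : (y.natAbs * f.natAbs).factorization q = (e.natAbs * (dx ^ p).natAbs).factorization q := by
      rw [h3]
    rw [Nat.factorization_mul (Int.natAbs_ne_zero.2 hy) (Int.natAbs_ne_zero.2 hf),
      Nat.factorization_mul (Int.natAbs_ne_zero.2 he) (Int.natAbs_ne_zero.2 hdx), Int.natAbs_pow,
      Nat.factorization_pow, Finsupp.add_apply, Finsupp.add_apply, Finsupp.smul_apply,
      smul_eq_mul] at h4
    have h5 : f.natAbs.factorization q = 0 := by
      apply Nat.factorization_eq_zero_of_not_dvd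
      intro h
      exact hqf (Int.natCast_dvd.2 h)
    have h6 : e.natAbs.factorization q = 0 := by
      apply Nat.factorization_eq_zero_of_not_dvd
      intro h
      exact hqe (Int.natCast_dvd.2 h)
    rw [h5, h6, add_zero, zero_add] at h4
    exact ⟨_, h4⟩
  · have h5 : y.natAbs.factorization q = 0 := by
      apply Nat.factorization_eq_zero_of_not_dvd
      intro h
      exact hqy (Int.natCast_dvd.2 h)
    rw [h5]
    exact dvd_zero _

/-- one constant for each `a` -/
lemma const_a (n k : ℕ) (α β : ℤ) (hβ : β ≠ 0) (hn : 1 ≤ n) (c : ℝ → ℕ) (a : ℤ) :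
    ∃ t : ℕ, ∀ θ : ℝ, ((a : ℝ) ^ k * θ ^ n) ^ 2 + α * ((a : ℝ) ^ k * θ ^ n) + β = 0 →
      c θ ≤ t := by
  obtain ⟨P, hP⟩ : ∃ P : Polynomial ℝ, P = (Polynomial.C ((a : ℝ) ^ k) * Polynomial.X ^ n) ^ 2 +
      Polynomial.C (α : ℝ) * (Polynomial.C ((a : ℝ) ^ k) * Polynomial.X ^ n) +
      Polynomial.C (β : ℝ) := ⟨_, rfl⟩
  have hev : ∀ θ : ℝ, P.eval θ =
      ((a : ℝ) ^ k * θ ^ n) ^ 2 + α * ((a : ℝ) ^ k * θ ^ n) + β := by
    intro θ
    rw [hP]
    simp
  have hP0 : P ≠ 0 := by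
    intro h
    have h1 := hev 0
    rw [h, Polynomial.eval_zero, zero_pow (by omega)] at h1
    apply hβ
    have h2 : (β : ℝ) = 0 := by
      rw [mul_zero] at h1
      linarith
    exact_mod_cast h2
  refine ⟨∑ θ ∈ P.roots.toFinset, c θ, ?_⟩
  intro θ hθ
  apply Finset.single_le_sum (f := c) (fun _ _ => Nat.zero_le _)
  rw [Multiset.mem_toFinset, Polynomial.mem_roots hP0, Polynomial.IsRoot.def, hev]
  exact hθ

end Pool.Agent.X95T
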