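import Pool.Agent.X95T.HI3
import Pool.Agent.X95T.N

set_option autoImplicit false

open IntermediateField
open Pool.Agent.Results.MP_821da1_nt

namespace Pool.Agent.X95T

/-- the uniform bound, one place at infinity, of degree two, without middle term -/
theorem uniformE (n δ : ℕ) (hn : 2 ≤ n) (hδ : 1 ≤ δ) :
    ∃ C : ℕ, ∀ S : Finset ℕ, ∃ c : ℕ,
      ∀ (F : MvPolynomial (Fin 2) ℤ) (D U V : Polynomial ℤ) (β e b : ℤ), ¬ IsSquare (-β) →
      (∀ s ∈ (F - MvPolynomial.X 1 ^ (2 * 1) -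
          MvPolynomial.C 0 * MvPolynomial.X 1 ^ 1 * MvPolynomial.X 0 ^ (n * δ) -
          MvPolynomial.C β * MvPolynomial.X 0 ^ (2 * (n * δ))).support,
        1 * s 0 + (n * δ) * s 1 < 2 * (n * δ) * 1) →
      MvPolynomial.aeval ![Polynomial.X, (0 : Polynomial ℤ)] F = Polynomial.C e * D ^ n →
      U * D + V * MvPolynomial.aeval ![Polynomial.X, (0 : Polynomial ℤ)]
        (MvPolynomial.pderiv 1 F) = Polynomial.C b →
      b * e ≠ 0 → (∀ q : ℕ, q.Prime → (q : ℤ) ∣ β * (b * e) → q ∈ S) →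
      (∀ a : ℤ, a ≠ 0 → Irreducible (MvPolynomial.map (Int.castRingHom ℚ) (sub a n F))) →
      ∀ x y : ℤ, MvPolynomial.eval ![x, y] F = 0 →
        max x.natAbs y.natAbs ≤ (c * ∑ m ∈ F.support, (F.coeff m).natAbs) ^ C := by
  obtain ⟨C₀, c₀, hR⟩ := RepulsionAllCurves.result.2
  obtain ⟨d, hd⟩ : ∃ d : ℕ, d = 2 * (n * δ) + n * (2 * 1) := ⟨_, rfl⟩
  obtain ⟨A, hA⟩ : ∃ A : ℕ, A = C₀ d := ⟨_, rfl⟩
  refine ⟨A * n + A + 1, ?_⟩
  intro S
  -- the constants of the fields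
  have hca : ∀ a : ℤ, ∃ t : ℕ, a ≠ 0 → ∀ θ : ℝ, θ ^ (2 * n) = (a : ℝ) → c₀ d ℚ⟮θ⟯ ≤ t := by
    intro a
    by_cases ha : a = 0
    · exact ⟨0, fun h => absurd ha h⟩
    · obtain ⟨t, ht⟩ := const_a n 0 0 (-a) (neg_ne_zero.2 ha) (by omega) (fun θ => c₀ d ℚ⟮θ⟯) 1
      refine ⟨t, fun _ θ hθ => ht θ ?_⟩
      push_cast
      rw [pow_zero, one_mul, ← pow_mul, mul_comm n 2, hθ]
      ring
  choose t ht using hca
  obtain ⟨M, hM⟩ : ∃ M : ℕ, M = ∏ q ∈ S, (q + 1) ^ n := ⟨_, rfl⟩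
  have hM1 : 1 ≤ M := by
    rw [hM]
    exact Nat.succ_le_of_lt (Finset.prod_pos (fun q _ => pow_pos (Nat.succ_pos q) n))
  obtain ⟨M', hM'⟩ : ∃ M' : ℕ, M' = ∏ q ∈ S, (q + 1) ^ (2 * n) := ⟨_, rfl⟩
  obtain ⟨T, hT⟩ : ∃ T : ℕ, T = A + ∑ a ∈ Finset.Icc (-(M' : ℤ)) M', t a := ⟨_, rfl⟩
  have hT1 : ∀ a : ℤ, a.natAbs ≤ M' → t a ≤ T := by
    intro a ha
    rw [hT]
    refine le_trans ?_ (Nat.le_add_left _ _)
    apply Finset.single_le_sum (f := t) (fun _ _ => Nat.zero_le _)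
    rw [Finset.mem_Icc]
    omega
  refine ⟨M * ((T + 1) * M ^ (2 * 1)), ?_⟩
  intro F D U V β e b hβs hF h1 h2 hb hbS' hi x y h0
  have hbS : ∀ q : ℕ, q.Prime → (q : ℤ) ∣ b * e → q ∈ S := fun q hq h => hbS' q hq (h.mul_left β)
  have hβ0 : β ≠ 0 := by
    rintro rfl
    exact hβs ⟨0, by simp⟩
  have hαβq : ∀ q : ℚ, q ^ 2 + ((0 : ℤ) : ℚ) * q + β ≠ 0 := by
    intro q hq
    apply hβs
    rw [← Rat.isSquare_intCast_iff]
    refine ⟨q, ?_⟩
    push_cast at hq ⊢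
    linear_combination -hq
  have hlenF : RepulsionAllCurves.len F = ∑ m ∈ F.support, (F.coeff m).natAbs := rfl
  rw [← hlenF]
  obtain ⟨f, u, v, w, h3, h4⟩ := split' F D U V e b h1 h2 x y h0
  obtain ⟨a, z, ha0, haS, haM, hyz⟩ : ∃ a z : ℤ, a ≠ 0 ∧ (∀ q : ℕ, q.Prime → (q : ℤ) ∣ a → q ∈ S) ∧
      a.natAbs ≤ M ∧ y = a * z ^ n := by
    by_cases hy : y = 0
    · refine ⟨1, 0, one_ne_zero, ?_, hM1, ?_⟩
      · intro q hq hq1
        exfalso
        have h5 : q ∣ 1 := by exact_mod_cast hq1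
        exact hq.one_lt.ne' (Nat.dvd_one.1 h5)
      · rw [hy, zero_pow (by omega), mul_zero]
    · obtain ⟨a, z, ha0, hap, haM, hyz⟩ := free_part_b (n := n) (by omega) (b * e) hb y hy
        (fun q hq hqb => val_dvd' y f e _ u v w b h3 h4 hy q hq (fun h => hqb (h.mul_right e))
          (fun h => hqb (h.mul_left b)))
      refine ⟨a, z, ha0, fun q hq hqa => hbS q hq (hap q hq hqa), haM.trans ?_, hyz⟩
      have hprimes : (b * e).natAbs.primeFactors ⊆ S := by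
        intro q hq
        exact hbS q (Nat.prime_of_mem_primeFactors hq)
          (Int.natCast_dvd.2 (Nat.dvd_of_mem_primeFactors hq))
      rw [hM, ← Finset.prod_pow]
      calc ∏ q ∈ (b * e).natAbs.primeFactors, q ^ n
          ≤ ∏ q ∈ (b * e).natAbs.primeFactors, (q + 1) ^ n :=
            Finset.prod_le_prod' (fun q _ => Nat.pow_le_pow_left (Nat.le_succ q) _)
        _ ≤ ∏ q ∈ S, (q + 1) ^ n :=
            Finset.prod_le_prod_of_subset_of_one_le' hprimes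
              (fun q _ _ => Nat.one_le_pow _ _ (Nat.succ_pos q))
  have hirr : Irreducible (MvPolynomial.map (Int.castRingHom ℚ) (sub a n F)) :=
    hi a ha0
  have hN : 1 ≤ n * δ := Nat.mul_pos (by omega) hδ
  have hsupp := (supp2 hN le_rfl 0 β F hF).2
  have hF0 : F ≠ 0 := by
    rintro rfl
    rw [map_zero, map_zero] at hirr
    exact hirr.ne_zero rfl
  have hlen1 : 1 ≤ RepulsionAllCurves.len F := Pool.Agent.Y910.G.len_pos hF0
  have hlen : RepulsionAllCurves.len (sub a n F) ≤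
      M ^ (2 * 1) * RepulsionAllCurves.len F :=
    (len_sub a ha0 n (2 * 1) F (fun s hs => (hsupp s hs).2)).trans
      (Nat.mul_le_mul_right _ (Nat.pow_le_pow_left haM _))
  have hdeg := deg_sub a n (2 * 1) (2 * (n * δ)) F hsupp
  rw [← hd] at hdeg
  have hev : MvPolynomial.eval ![x, z] (sub a n F) = 0 := by
    have h5 := aeval_sub a n F x z
    rw [MvPolynomial.aeval_eq_eval, MvPolynomial.aeval_eq_eval] at h5
    rw [h5]
    simp only [Int.cast_id]
    rw [← hyz]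
    exact h0
  have hmain : max x.natAbs z.natAbs ≤
      ((T + 1) * RepulsionAllCurves.len (sub a n F)) ^ A := by
    rcases hR d _ x z hdeg hirr hev with h | ⟨g, hg, η, hη, hk3⟩
    · rw [← hA] at h
      refine h.trans (Nat.pow_le_pow_left (Nat.mul_le_mul_right _ ?_) _)
      rw [hT]
      omega
    · obtain ⟨θ, hθ, hθη, hθ3⟩ := key2 hn le_rfl hδ (Nat.coprime_one_left n) a ha0 0 β hαβq F hF
        hirr g hg η hη
      have haR : (a : ℝ) ≠ 0 := by exact_mod_cast ha0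
      have hθ2 : ((a : ℝ) * θ ^ n) ^ 2 = -β := by
        rw [_root_.pow_one] at hθ
        push_cast at hθ
        linear_combination hθ
      -- the field is one of finitely many
      obtain ⟨c₁, hc₁⟩ : ∃ c₁ : ℤ, c₁ = a ^ (2 * n - 2) * (-β) := ⟨_, rfl⟩
      have hc₁0 : c₁ ≠ 0 := by
        rw [hc₁]
        exact mul_ne_zero (pow_ne_zero _ ha0) (neg_ne_zero.2 hβ0)
      obtain ⟨c₂, w, hc₂0, hc₂M, hc₂w⟩ := free_part' (p := 2 * n) (by omega) S c₁ hc₁0 (by
        intro q hq hqS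
        have h5 : ¬ q ∣ c₁.natAbs := by
          intro h6
          apply hqS
          have h7 : (q : ℤ) ∣ a ^ (2 * n - 2) * (-β) := by
            rw [← hc₁]
            exact Int.natCast_dvd.2 h6
          have hqZ : Prime (q : ℤ) := Nat.prime_iff_prime_int.1 hq
          rcases hqZ.dvd_or_dvd h7 with h8 | h8
          · exact haS q hq (hqZ.dvd_of_dvd_pow h8)
          · rw [dvd_neg] at h8
            exact hbS' q hq (h8.mul_right _)
        rw [Nat.factorization_eq_zero_of_not_dvd h5]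
        exact dvd_zero _)
      rw [← hM'] at hc₂M
      have hw0 : w ≠ 0 := by
        rintro rfl
        rw [zero_pow (by omega), mul_zero] at hc₂w
        exact hc₁0 hc₂w
      have hwR : (w : ℝ) ≠ 0 := by exact_mod_cast hw0
      obtain ⟨θ', hθ'⟩ : ∃ θ' : ℝ, θ' = a * θ / w := ⟨_, rfl⟩
      have hθ'n : θ' ^ (2 * n) = (c₂ : ℝ) := by
        have h6 : (a : ℝ) ^ (2 * n) * θ ^ (2 * n) = c₂ * (w : ℝ) ^ (2 * n) := by
          have h5 : (a : ℝ) ^ (2 * n) = a ^ (2 * n - 2) * a ^ 2 := by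
            rw [← pow_add]
            congr 1
            omega
          have h7 : θ ^ (2 * n) = (θ ^ n) ^ 2 := by rw [← pow_mul, mul_comm]
          calc (a : ℝ) ^ (2 * n) * θ ^ (2 * n) = a ^ (2 * n - 2) * ((a : ℝ) * θ ^ n) ^ 2 := by
                rw [h5, h7]; ring
            _ = ((a ^ (2 * n - 2) * (-β) : ℤ) : ℝ) := by rw [hθ2]; push_cast; ring
            _ = c₂ * (w : ℝ) ^ (2 * n) := by rw [← hc₁, hc₂w]; push_cast; ring
        rw [hθ', div_pow, mul_pow, h6, mul_div_assoc, div_self (pow_ne_zero _ hwR), mul_one]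
      have hθθ' : ℚ⟮θ'⟯ = ℚ⟮θ⟯ := by
        apply le_antisymm
        · rw [adjoin_simple_le_iff, hθ']
          exact div_mem (mul_mem (intCast_mem _ a) (mem_adjoin_simple_self ℚ θ)) (intCast_mem _ w)
        · rw [adjoin_simple_le_iff]
          have h5 : θ = θ' * w / a := by
            rw [hθ']
            field_simp
          rw [h5]
          exact div_mem (mul_mem (mem_adjoin_simple_self ℚ θ') (intCast_mem _ w)) (intCast_mem _ a)
      have h5 := hk3 ℚ⟮θ⟯ (by rw [adjoin_simple_le_iff]; exact hθη) hθ3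
      rw [← hA] at h5
      refine h5.trans (Nat.pow_le_pow_left (Nat.mul_le_mul_right _ ?_) _)
      rw [← hθθ']
      exact (ht c₂ hc₂0 θ' hθ'n).trans ((hT1 c₂ hc₂M).trans (Nat.le_succ _))
  obtain ⟨B, hB⟩ : ∃ B : ℕ, B = (T + 1) * M ^ (2 * 1) * RepulsionAllCurves.len F := ⟨_, rfl⟩
  have hB1 : 1 ≤ B := by
    rw [hB]
    exact Nat.mul_pos (Nat.mul_pos (Nat.succ_pos _) (pow_pos hM1 _)) hlen1
  have h5 : max x.natAbs z.natAbs ≤ B ^ A := by
    refine hmain.trans (Nat.pow_le_pow_left ?_ _)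
    rw [hB, mul_assoc]
    exact Nat.mul_le_mul_left _ hlen
  have h6 : M * ((T + 1) * M ^ (2 * 1)) * RepulsionAllCurves.len F = M * B := by
    rw [hB, mul_assoc]
  rw [h6]
  have h7 : 1 ≤ M * B := Nat.mul_pos hM1 hB1
  have h8 : B ≤ M * B := Nat.le_mul_of_pos_left _ hM1
  apply max_le
  · calc x.natAbs ≤ B ^ A := (le_max_left _ _).trans h5
      _ ≤ (M * B) ^ A := Nat.pow_le_pow_left h8 _
      _ ≤ _ := Nat.pow_le_pow_right h7 (by omega)
  · have h9 : y.natAbs = a.natAbs * z.natAbs ^ n := by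
      rw [hyz, Int.natAbs_mul, Int.natAbs_pow]
    rw [h9]
    calc a.natAbs * z.natAbs ^ n ≤ M * (B ^ A) ^ n :=
          Nat.mul_le_mul haM (Nat.pow_le_pow_left ((le_max_right _ _).trans h5) _)
      _ ≤ M * (M * B) ^ (A * n) := by
          rw [← pow_mul]
          exact Nat.mul_le_mul_left _ (Nat.pow_le_pow_left h8 _)
      _ ≤ (M * B) * (M * B) ^ (A * n) := Nat.mul_le_mul_right _ (Nat.le_mul_of_pos_right _ hB1)
      _ = (M * B) ^ (A * n + 1) := by rw [pow_succ]; ring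
      _ ≤ _ := Nat.pow_le_pow_right h7 (by omega)

end Pool.Agent.X95T
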