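import Pool.Agent.X95T.HI5

set_option autoImplicit false

namespace Pool.Agent.X95T

open Polynomial

/-- the bound in terms of the coefficients of `f`, even degree -/
theorem hyp_E (p δ : ℕ) (hp : p.Prime) (hδ : 1 ≤ δ) :
    ∃ K : ℕ, ∀ S : Finset ℕ, ∃ c : ℕ, ∀ (f Q u U V : ℤ[X]) (e b : ℤ) (H : ℕ),
      f.natDegree = p * (2 * δ) → u.natDegree = 2 * δ → 2 * Q.natDegree < p * (2 * δ) →
      Squarefree (f.map (Int.castRingHom ℚ)) → ¬ IsSquare f.leadingCoeff →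
      f = Q ^ 2 - C e * u ^ p → U * u + V * (C 2 * Q) = C b → b * (e * u.leadingCoeff) ≠ 0 →
      (∀ q : ℕ, q.Prime → (q : ℤ) ∣ b * (e * u.leadingCoeff) → q ∈ S) →
      (∀ i, (f.coeff i).natAbs ≤ H) →
      ∀ x y : ℤ, y ^ 2 = f.eval x → x.natAbs ≤ (c * H) ^ K := by
  have hp2 : 2 ≤ p := hp.two_le
  obtain ⟨K, hK⟩ := uniformE p δ hp2 hδ
  obtain ⟨d, hd⟩ : ∃ d, d = p * (2 * δ) := ⟨_, rfl⟩
  have hpδ : 1 ≤ p * (2 * δ) := Nat.mul_pos hp.pos (by omega)
  obtain ⟨L, hL⟩ := int_bound' p (2 * δ) hp2 hpδ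
  rw [← hd] at hL
  set X₀ : ℕ := 1 + 2 * (d + 1) + (2 * δ + 1) ^ p with hX₀
  refine ⟨(d + 1) * (p + 1) * K, fun S => ?_⟩
  obtain ⟨c, hc⟩ := hK S
  refine ⟨(c + 1) * X₀ * (L + 1), ?_⟩
  intro f Q u U V e b H hf hu hQ hsq hnc hfe hUV hne hS hH x y hy
  have he : e ≠ 0 := left_ne_zero_of_mul (right_ne_zero_of_mul hne)
  have hlc : u.leadingCoeff ≠ 0 := right_ne_zero_of_mul (right_ne_zero_of_mul hne)
  have hb : b ≠ 0 := left_ne_zero_of_mul hne
  rw [← hd] at hf hQ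
  obtain ⟨h1, h2, h3, hH1⟩ := hL f Q u e H hf hu he hQ hfe hH
  have hid : Q ^ 2 - f * 1 ^ 2 = C e * u ^ p := by rw [hfe]; ring
  have h4 : (C e * u ^ p).natDegree = d := by
    rw [natDegree_C_mul he, natDegree_pow, hu, hd]
  have h5 : (C e * u ^ p).coeff d = e * u.leadingCoeff ^ p := by
    rw [← h4, coeff_natDegree, leadingCoeff_mul, leadingCoeff_C, leadingCoeff_pow]
  have h6 : (-(C 2 * Q)).natDegree ≤ Q.natDegree := by
    rw [natDegree_neg]
    exact natDegree_C_mul_le _ _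
  have hlf := lf_one (N := d) (-(C 2 * Q)) (C e * u ^ p) h4.le (by omega)
  rw [h5] at hlf
  obtain ⟨β, hβ⟩ : ∃ β, β = e * u.leadingCoeff ^ p := ⟨_, rfl⟩
  rw [← hβ] at hlf
  have hlead : f.leadingCoeff = -β := by
    rw [leadingCoeff, hf, hfe, coeff_sub, h5, coeff_eq_zero_of_natDegree_lt (by
      rw [natDegree_pow]; exact hQ), zero_sub, hβ]
  have hur : u.natDegree < f.natDegree := by
    rw [hu, hf, hd]
    calc 2 * δ = 1 * (2 * δ) := (one_mul _).symm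
      _ < p * (2 * δ) := Nat.mul_lt_mul_of_pos_right (by omega) (by omega)
  have hpoint : MvPolynomial.eval ![x, Q.eval x + y]
      (quad (-(C 2 * Q)) (C e * u ^ p)) = 0 := by
    rw [eval_quad]
    have h7 := congrArg (Polynomial.eval x) hid
    simp only [eval_sub, eval_mul, eval_pow, eval_C, eval_neg, eval_one] at h7 ⊢
    linear_combination -h7 + hy
  have hlf2 : ∀ s ∈ (quad (-(C 2 * Q)) (C e * u ^ p) - MvPolynomial.X 1 ^ (2 * 1) -
          MvPolynomial.C 0 * MvPolynomial.X 1 ^ 1 * MvPolynomial.X 0 ^ (p * δ) -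
          MvPolynomial.C β * MvPolynomial.X 0 ^ (2 * (p * δ))).support,
        1 * s 0 + (p * δ) * s 1 < 2 * (p * δ) * 1 := by
    intro s hs
    have e1 : quad (-(C 2 * Q)) (C e * u ^ p) - MvPolynomial.X 1 ^ (2 * 1) -
          MvPolynomial.C 0 * MvPolynomial.X 1 ^ 1 * MvPolynomial.X 0 ^ (p * δ) -
          MvPolynomial.C β * MvPolynomial.X 0 ^ (2 * (p * δ)) =
        quad (-(C 2 * Q)) (C e * u ^ p) - lf 1 (-β) 2 d 1 := by
      have hC1 : (MvPolynomial.C (1 : ℤ) : MvPolynomial (Fin 2) ℤ) = 1 := by simp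
      have hC0 : (MvPolynomial.C (0 : ℤ) : MvPolynomial (Fin 2) ℤ) = 0 := by simp
      have hdd : d = 2 * (p * δ) := by rw [hd]; ring
      rw [lf, hC1, hC0, MvPolynomial.C_neg, hdd]
      ring
    rw [e1] at hs
    have h8 := hlf s hs
    have hdd : d = 2 * (p * δ) := by rw [hd]; ring
    have h9 : d * s 1 = 2 * (p * δ * s 1) := by rw [hdd]; ring
    rw [h9, hdd] at h8
    omega
  have hmain := hc (quad (-(C 2 * Q)) (C e * u ^ p)) u U (-V) β e b
    (by rw [← hlead]; exact hnc) hlf2 (line_quad _ _)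
    (by
      rw [deriv_quad]
      linear_combination hUV)
    (mul_ne_zero hb he)
    (by
      intro q hq hqd
      have hqZ : Prime (q : ℤ) := Nat.prime_iff_prime_int.1 hq
      apply hS q hq
      rw [hβ] at hqd
      rcases hqZ.dvd_or_dvd hqd with h1 | h1
      · rcases hqZ.dvd_or_dvd h1 with h3 | h3
        · exact (h3.mul_right _).mul_left _
        · exact ((hqZ.dvd_of_dvd_pow h3).mul_left _).mul_left _
      · rcases hqZ.dvd_or_dvd h1 with h2 | h2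
        · exact h2.mul_right _
        · exact (h2.mul_right _).mul_left _)
    (fun a ha => irr_quad' hp f Q 1 u e he hsq (Or.inr hnc) one_ne_zero hur hid a ha)
    x _ hpoint
  -- the sizes
  have hlQ : len1 Q ≤ (d + 1) * (L * H ^ (d + 1)) := len1_le Q d _ (by omega) h1
  have hlu : len1 u ≤ (2 * δ + 1) * (L * H ^ (d + 1)) := len1_le u (2 * δ) _ hu.le h2
  obtain ⟨M, hM⟩ : ∃ M, M = (L + 1) * H ^ (d + 1) := ⟨_, rfl⟩
  have hHd : 1 ≤ H ^ (d + 1) := Nat.one_le_pow _ _ hH1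
  have hM1 : 1 ≤ M := hM ▸ Nat.mul_pos (Nat.succ_pos _) hHd
  have hLM : L * H ^ (d + 1) ≤ M := hM ▸ Nat.mul_le_mul_right _ (Nat.le_succ _)
  have heM : e.natAbs ≤ M := by
    calc e.natAbs ≤ H := h3
      _ ≤ H ^ (d + 1) := Nat.le_self_pow (by omega) _
      _ ≤ M := hM ▸ Nat.le_mul_of_pos_left _ (Nat.succ_pos _)
  have hbase : 1 + 2 * len1 Q + e.natAbs * (len1 u) ^ p ≤ X₀ * M ^ (p + 1) := by
    have h1 : 1 ≤ M ^ (p + 1) := Nat.one_le_pow _ _ hM1
    have h2 : M ≤ M ^ (p + 1) := Nat.le_self_pow (by omega) _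
    have h3 : e.natAbs * (len1 u) ^ p ≤ (2 * δ + 1) ^ p * M ^ (p + 1) := by
      calc _ ≤ M * ((2 * δ + 1) * M) ^ p :=
            Nat.mul_le_mul heM (Nat.pow_le_pow_left (hlu.trans (Nat.mul_le_mul_left _ hLM)) _)
        _ = _ := by rw [mul_pow, pow_succ]; ring
    calc _ ≤ M ^ (p + 1) + 2 * ((d + 1) * M ^ (p + 1)) + (2 * δ + 1) ^ p * M ^ (p + 1) := by
          refine Nat.add_le_add (Nat.add_le_add h1 ?_) h3
          exact Nat.mul_le_mul_left _ (hlQ.trans (Nat.mul_le_mul_left _ (hLM.trans h2)))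
      _ = _ := by rw [hX₀]; ring
  have hsum : ∑ s ∈ (quad (-(C 2 * Q)) (C e * u ^ p)).support,
      ((quad (-(C 2 * Q)) (C e * u ^ p)).coeff s).natAbs ≤ X₀ * M ^ (p + 1) :=
    (len_quad Q u e p).trans hbase
  have hmain2 : x.natAbs ≤ (c * (X₀ * M ^ (p + 1))) ^ K :=
    (le_max_left _ _).trans (hmain.trans (Nat.pow_le_pow_left (Nat.mul_le_mul_left _ hsum) _))
  refine hmain2.trans ?_
  rw [pow_mul]
  apply Nat.pow_le_pow_left
  obtain ⟨E, hE⟩ : ∃ E, E = (d + 1) * (p + 1) := ⟨_, rfl⟩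
  have hE1 : 1 ≤ E := hE ▸ Nat.mul_pos (Nat.succ_pos _) (Nat.succ_pos _)
  have hEp : p + 1 ≤ E := hE ▸ Nat.le_mul_of_pos_left _ (Nat.succ_pos _)
  calc c * (X₀ * M ^ (p + 1)) = (c * X₀) * (L + 1) ^ (p + 1) * H ^ E := by
        rw [hM, mul_pow, ← pow_mul, hE]; ring
    _ ≤ ((c + 1) * X₀) ^ E * (L + 1) ^ E * H ^ E := by
        apply Nat.mul_le_mul_right
        apply Nat.mul_le_mul
        · exact (Nat.mul_le_mul_right _ (Nat.le_succ _)).trans (Nat.le_self_pow (by omega) _)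
        · exact Nat.pow_le_pow_right (Nat.succ_pos _) hEp
    _ = _ := by rw [← mul_pow, ← mul_pow, hE]

end Pool.Agent.X95T
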