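import Pool.Agent.X95T.HI6

set_option autoImplicit false

open IntermediateField

namespace Pool.Agent.X95T

open Pool.Agent.Results.MP_821da1_nt.RepulsionAllCurves (CoordRing AtInfinity OnePlace)

/-- a rational polynomial that vanishes at `n` conjugates modulo the maximal ideal has degree at
least `n` -/
lemma deg_ge {Ω : Type} [Field Ω] [CharZero Ω] (W : ValuationSubring Ω)
    (hQ : ∀ r : ℚ, (r : Ω) ∈ W) {n : ℕ} (hn : 1 ≤ n) (h : Ω) (hv : W.valuation h = 1) (ζ : Ω)
    (hζ : IsPrimitiveRoot ζ n) (P : Polynomial ℚ) (hP : P ≠ 0)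
    (hroot : ∀ i : ℕ, W.valuation (Polynomial.aeval (ζ ^ i * h) P) < 1) : n ≤ P.natDegree := by
  classical
  have hvζ : W.valuation ζ = 1 := by
    have := congrArg W.valuation hζ.pow_eq_one
    rw [map_pow, map_one] at this
    exact pow_one (Nat.one_le_iff_ne_zero.1 hn) this
  have hmem : ∀ i : ℕ, ζ ^ i * h ∈ W := by
    intro i
    rw [← W.valuation_le_one_iff, map_mul, map_pow, hvζ, one_pow, one_mul, hv]
  obtain ⟨cA, hcA⟩ : ∃ cA : ℚ →+* W, ∀ r, ((cA r : W) : Ω) = (r : Ω) :=
    ⟨{ toFun := fun r => ⟨(r : Ω), hQ r⟩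
       map_one' := Subtype.ext (by simp)
       map_mul' := fun r s => Subtype.ext (by simp)
       map_zero' := Subtype.ext (by simp)
       map_add' := fun r s => Subtype.ext (by simp) }, fun r => rfl⟩
  obtain ⟨ρ, hρ⟩ : ∃ ρ : ℚ →+* IsLocalRing.ResidueField W, ρ = (IsLocalRing.residue W).comp cA :=
    ⟨_, rfl⟩
  obtain ⟨t, ht⟩ : ∃ t : ℕ → IsLocalRing.ResidueField W, t = fun i =>
    IsLocalRing.residue W ⟨ζ ^ i * h, hmem i⟩ := ⟨_, rfl⟩
  have hPm : P.map ρ ≠ 0 := (Polynomial.map_ne_zero_iff ρ.injective).2 hP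
  have hev : ∀ i, (P.map ρ).eval (t i) = 0 := by
    intro i
    have h1 : (P.map ρ).eval (t i) = IsLocalRing.residue W
        ((P.map cA).eval ⟨ζ ^ i * h, hmem i⟩) := by
      rw [hρ, ← Polynomial.map_map, ht, Polynomial.eval_map_apply]
    rw [h1, IsLocalRing.residue_eq_zero_iff, W.valuation_lt_one_iff]
    have h2 : (((P.map cA).eval ⟨ζ ^ i * h, hmem i⟩ : W) : Ω) =
        Polynomial.aeval (ζ ^ i * h) P := by
      rw [Polynomial.eval_map]
      have h3 := Polynomial.hom_eval₂ P cA W.subtype ⟨ζ ^ i * h, hmem i⟩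
      refine h3.trans ?_
      rw [Polynomial.aeval_def]
      congr 1
      exact Subsingleton.elim _ _
    rw [h2]
    exact hroot i
  have hinj : Set.InjOn t (Finset.range n : Set ℕ) := by
    have key : ∀ i j : ℕ, i < j → j < n → t i ≠ t j := by
      intro i j hij hjn heq
      have h1 : IsLocalRing.residue W (⟨ζ ^ j * h, hmem j⟩ - ⟨ζ ^ i * h, hmem i⟩) = 0 := by
        rw [map_sub, sub_eq_zero]
        rw [ht] at heq
        exact heq.symm
      rw [IsLocalRing.residue_eq_zero_iff, W.valuation_lt_one_iff] at h1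
      have h2 : ((⟨ζ ^ j * h, hmem j⟩ - ⟨ζ ^ i * h, hmem i⟩ : W) : Ω) =
          ζ ^ i * h * (ζ ^ (j - i) - 1) := by
        show ζ ^ j * h - ζ ^ i * h = _
        have h3 : ζ ^ j = ζ ^ i * ζ ^ (j - i) := by
          rw [← pow_add]
          congr 1
          omega
        rw [h3]
        ring
      rw [h2, map_mul, map_mul, map_pow, hvζ, one_pow, one_mul, hv, one_mul] at h1
      refine root_one hQ (n := n) hn (ζ ^ (j - i)) ?_ ?_ h1
      · rw [← pow_mul, mul_comm, pow_mul, hζ.pow_eq_one, one_pow]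
      · intro h3
        have h4 := (hζ.pow_eq_one_iff_dvd (j - i)).1 h3
        have := Nat.le_of_dvd (by omega) h4
        omega
    intro i hi j hj hij
    simp only [Finset.coe_range, Set.mem_Iio] at hi hj
    rcases lt_trichotomy i j with h1 | h1 | h1
    · exact absurd hij (key i j h1 hj)
    · exact h1
    · exact absurd hij.symm (key j i h1 hi)
  have hcard : ((Finset.range n).image t).card = n := by
    rw [Finset.card_image_of_injOn hinj, Finset.card_range]
  rw [← hcard, ← Polynomial.natDegree_map ρ]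
  apply Polynomial.card_le_degree_of_subset_roots
  intro s hs
  rw [Finset.mem_val, Finset.mem_image] at hs
  obtain ⟨i, -, rfl⟩ := hs
  rw [Polynomial.mem_roots hPm]
  exact hev i

/-- If the curve `F (x, a z ^ n) = 0` has only one place at infinity, and `y` is asymptotically
`κ w ^ n` there for a rational function `w`, its residue field contains an `n`-th root of `κ / a`
of degree at least `n`. -/
theorem keyW {n : ℕ} (hn : 1 ≤ n) (a : ℤ) (ha : a ≠ 0) (F : MvPolynomial (Fin 2) ℤ)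
    (hint : (jx (sub a n F)).IsIntegral) (κ : ℚ) (hκ : κ ≠ 0) (num den : MvPolynomial (Fin 2) ℤ)
    (hw : ∀ (L : Type) [Field L] [CharZero L] (A : ValuationSubring L) (x y : L),
      (∀ q : ℚ, (q : L) ∈ A) → (1 < A.valuation x ∨ 1 < A.valuation y) →
      MvPolynomial.aeval ![x, y] F = 0 → 1 < A.valuation x ∧
      MvPolynomial.aeval ![x, y] num ≠ 0 ∧ MvPolynomial.aeval ![x, y] den ≠ 0 ∧
      A.valuation (y * (MvPolynomial.aeval ![x, y] den / MvPolynomial.aeval ![x, y] num) ^ n -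
        (κ : L)) < 1)
    (hirr : Irreducible (MvPolynomial.map (Int.castRingHom ℚ) (sub a n F)))
    (G : Polynomial ℚ) (hG : OnePlace (sub a n F) G) (η : ℝ) (hη : Polynomial.aeval η G = 0) :
    ∃ θ : ℝ, (a : ℝ) * θ ^ n = κ ∧ θ ∈ ℚ⟮η⟯ ∧ n ≤ Module.finrank ℚ ℚ⟮θ⟯ := by
  obtain ⟨hgm, hgi, L, fL, aL, frL, A, hA, ⟨e⟩⟩ := hG
  have hprime : (Ideal.span {MvPolynomial.map (Int.castRingHom ℚ) (sub a n F)}).IsPrime :=
    (Ideal.span_singleton_prime hirr.ne_zero).2 hirr.prime
  have hdom : IsDomain (CoordRing (sub a n F)) := Ideal.Quotient.isDomain _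
  obtain ⟨ι, hι⟩ : ∃ ι : CoordRing (sub a n F) →+* L, ι = algebraMap _ L := ⟨_, rfl⟩
  have hc0 : CharZero L := charZero_of_injective_ringHom
    (f := ι.comp (algebraMap ℚ (CoordRing (sub a n F)))) (RingHom.injective _)
  have hcast : ∀ q : ℚ, ι (algebraMap ℚ (CoordRing (sub a n F)) q) = (q : L) := fun q =>
    eq_ratCast (ι.comp (algebraMap ℚ (CoordRing (sub a n F)))) q
  obtain ⟨x, hx⟩ : ∃ x : L, x = ι (Ideal.Quotient.mk _ (MvPolynomial.X 0)) := ⟨_, rfl⟩
  obtain ⟨z, hz⟩ : ∃ z : L, z = ι (Ideal.Quotient.mk _ (MvPolynomial.X 1)) := ⟨_, rfl⟩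
  have hAI : AtInfinity (sub a n F) L A := (hA A).2 rfl
  have hQ : ∀ q : ℚ, (q : L) ∈ A := fun q => by
    rw [← hcast, hι]
    exact hAI.1 q
  -- the equation
  have hG0 : ι (Ideal.Quotient.mk _ (MvPolynomial.map (Int.castRingHom ℚ) (sub a n F))) = 0 := by
    rw [Ideal.Quotient.eq_zero_iff_mem.2 (Ideal.mem_span_singleton_self _), map_zero]
  have hF0 : MvPolynomial.aeval ![x, (a : L) * z ^ n] F = 0 := by
    refine (aeval_sub a n F x z).symm.trans ?_
    rw [hx, hz]
    exact (hom_map (ι.comp (Ideal.Quotient.mk _)) (sub a n F)).symm.trans hG0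
  obtain ⟨y, hy⟩ : ∃ y : L, y = (a : L) * z ^ n := ⟨_, rfl⟩
  rw [← hy] at hF0
  have hvI : ∀ c : ℤ, c ≠ 0 → A.valuation (c : L) = 1 := by
    intro c hc
    have h1 : ((c : ℚ) : L) = (c : L) := by simp
    rw [← h1]
    exact val_rat hQ (by exact_mod_cast hc)
  have hva : A.valuation (a : L) = 1 := hvI a ha
  have hvy : A.valuation y = A.valuation z ^ n := by rw [hy, map_mul, hva, one_mul, map_pow]
  have hxy : 1 < A.valuation x ∨ 1 < A.valuation y := by
    obtain ⟨i, hi⟩ := hAI.2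
    rw [← hι] at hi
    fin_cases i
    · left
      rw [← not_le, A.valuation_le_one_iff, hx]
      exact hi
    · right
      rw [hvy]
      apply one_lt_pow₀ _ (by omega)
      rw [← not_le, A.valuation_le_one_iff, hz]
      exact hi
  obtain ⟨hvx1, hnum0, hden0, hlt⟩ := hw L A x y hQ hxy hF0
  obtain ⟨w, hwd⟩ : ∃ w : L, w = MvPolynomial.aeval ![x, y] num / MvPolynomial.aeval ![x, y] den :=
    ⟨_, rfl⟩
  have hw0 : w ≠ 0 := by rw [hwd]; exact div_ne_zero hnum0 hden0
  have haL0 : (a : L) ≠ 0 := by exact_mod_cast ha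
  have hκL : (κ : L) ≠ 0 := by exact_mod_cast hκ
  obtain ⟨h, hh⟩ : ∃ h : L, h = z / w := ⟨_, rfl⟩
  have hahn : A.valuation ((a : L) * h ^ n - κ) < 1 := by
    have e1 : (a : L) * h ^ n = y * (MvPolynomial.aeval ![x, y] den /
        MvPolynomial.aeval ![x, y] num) ^ n := by
      rw [hh, hwd, hy, div_div_eq_mul_div, div_pow, div_pow, mul_pow]
      ring
    rw [e1]
    exact hlt
  have hvκ : A.valuation (κ : L) = 1 := val_rat hQ hκ
  have hvh : A.valuation h = 1 := by
    have h1 : A.valuation ((a : L) * h ^ n) = 1 := by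
      have h2 : (a : L) * h ^ n = ((a : L) * h ^ n - κ) + κ := by ring
      rw [h2, Valuation.map_add_eq_of_lt_right _ (by rw [hvκ]; exact hahn), hvκ]
    rw [map_mul, hva, one_mul, map_pow] at h1
    exact pow_one (by omega) h1
  have hhA : h ∈ A := (A.valuation_le_one_iff _).1 hvh.le
  obtain ⟨hA1, hhA1⟩ : ∃ t : A, t = ⟨h, hhA⟩ := ⟨_, rfl⟩
  obtain ⟨cA, hcA⟩ : ∃ cA : ℚ →+* A, ∀ r, ((cA r : A) : L) = (r : L) :=
    ⟨{ toFun := fun r => ⟨(r : L), hQ r⟩
       map_one' := Subtype.ext (by simp)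
       map_mul' := fun r s => Subtype.ext (by simp)
       map_zero' := Subtype.ext (by simp)
       map_add' := fun r s => Subtype.ext (by simp) }, fun r => rfl⟩
  obtain ⟨φ, hφ⟩ : ∃ φ : AdjoinRoot G →+* ℝ, φ = AdjoinRoot.lift (algebraMap ℚ ℝ) η
      (by rw [← Polynomial.aeval_def]; exact hη) := ⟨_, rfl⟩
  obtain ⟨Φ, hΦ⟩ : ∃ Φ : IsLocalRing.ResidueField A →+* ℝ, Φ = φ.comp e.toRingHom := ⟨_, rfl⟩
  obtain ⟨θ, hθ⟩ : ∃ θ : ℝ, θ = Φ (IsLocalRing.residue A hA1) := ⟨_, rfl⟩
  have hΦc : ∀ q : ℚ, Φ (IsLocalRing.residue A (cA q)) = (q : ℝ) := fun q =>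
    eq_ratCast ((Φ.comp (IsLocalRing.residue A)).comp cA) q
  have hθn : (a : ℝ) * θ ^ n = κ := by
    have h1 : IsLocalRing.residue A ((a : A) * hA1 ^ n - cA κ) = 0 := by
      rw [IsLocalRing.residue_eq_zero_iff, A.valuation_lt_one_iff, hhA1]
      push_cast
      rw [hcA]
      exact hahn
    rw [map_sub, sub_eq_zero] at h1
    have h2 := congrArg Φ h1
    rw [hΦc, map_mul, map_pow, map_mul, map_pow, map_intCast, map_intCast, ← hθ] at h2
    exact h2
  have hθmem : θ ∈ ℚ⟮η⟯ := by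
    obtain ⟨p, hp⟩ := AdjoinRoot.mk_surjective (e (IsLocalRing.residue A hA1))
    have h1 : θ = Polynomial.aeval η p := by
      rw [hθ, hΦ, RingHom.comp_apply]
      show φ (e (IsLocalRing.residue A hA1)) = _
      rw [← hp, hφ, AdjoinRoot.lift_mk, Polynomial.aeval_def]
    rw [h1]
    exact IntermediateField.algebra_adjoin_le_adjoin ℚ {η}
      (Polynomial.aeval_mem_adjoin_singleton ℚ η)
  refine ⟨θ, hθn, hθmem, ?_⟩
  -- the degree
  have hθint : IsIntegral ℚ θ := by
    have hpow : IsIntegral ℚ (θ ^ n) := by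
      have haR : (a : ℝ) ≠ 0 := by exact_mod_cast ha
      have : θ ^ n = algebraMap ℚ ℝ (κ / a) := by
        rw [map_div₀]
        simp only [eq_ratCast, Rat.cast_intCast]
        rw [← hθn]
        field_simp
      rw [this]
      exact isIntegral_algebraMap
    exact hpow.of_pow (by omega)
  rw [IntermediateField.adjoin.finrank hθint]
  obtain ⟨W, hQW, hWle, hWlt, hmv⟩ := movesG a F hint hdom A hA hQ x z (by rw [hx, hι])
    (by rw [hz, hι]) hvx1
  have hΩ0 : CharZero (AlgebraicClosure L) :=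
    charZero_of_injective_algebraMap (algebraMap L (AlgebraicClosure L)).injective
  have hn0 : (n : AlgebraicClosure L) ≠ 0 := by exact_mod_cast (by omega : n ≠ 0)
  obtain ⟨ζ, hζ⟩ : ∃ ζ : AlgebraicClosure L, IsPrimitiveRoot ζ n := by
    have : NeZero (n : AlgebraicClosure L) := ⟨hn0⟩
    obtain ⟨ζ, hζ⟩ := IsAlgClosed.exists_root (Polynomial.cyclotomic n (AlgebraicClosure L))
      (Polynomial.degree_cyclotomic_pos n _ (by omega)).ne'
    exact ⟨ζ, Polynomial.isRoot_cyclotomic_iff.1 hζ⟩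
  have hWh : W.valuation (algebraMap L (AlgebraicClosure L) h) = 1 := by
    apply le_antisymm (hWle h hvh.le)
    have hh0 : h ≠ 0 := by
      rintro rfl
      rw [map_zero] at hvh
      exact zero_ne_one hvh
    have h1 := hWle h⁻¹ (by rw [map_inv₀, hvh, inv_one])
    rw [map_inv₀, map_inv₀] at h1
    by_contra h2
    rw [not_le] at h2
    have h3 : W.valuation (algebraMap L (AlgebraicClosure L) h) ≠ 0 := by
      rw [Valuation.ne_zero_iff, Ne, map_eq_zero]
      exact hh0
    have h4 := mul_lt_mul_of_pos_right h2 (zero_lt_iff.2 (inv_ne_zero h3))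
    rw [mul_inv_cancel₀ h3, one_mul] at h4
    exact absurd h1 (not_le.2 h4)
  apply deg_ge W hQW hn (algebraMap L (AlgebraicClosure L) h) hWh ζ hζ _ (minpoly.ne_zero hθint)
  intro i
  obtain ⟨σ, hσx, hσz, hσlt⟩ := hmv (ζ ^ i) (by
    rw [← pow_mul, mul_comm, pow_mul, hζ.pow_eq_one, one_pow])
  -- `σ` fixes `y` and `w`
  have hσy : σ y = algebraMap L (AlgebraicClosure L) y := by
    rw [hy, map_mul, map_pow, hσz, map_mul, map_pow, map_intCast, map_intCast, mul_pow, ← pow_mul,
      mul_comm i n, pow_mul, hζ.pow_eq_one, one_pow, one_mul]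
  have hσP : ∀ P : MvPolynomial (Fin 2) ℤ, σ (MvPolynomial.aeval ![x, y] P) =
      algebraMap L (AlgebraicClosure L) (MvPolynomial.aeval ![x, y] P) := by
    intro P
    induction P using MvPolynomial.induction_on with
    | C c => simp
    | add p q hp hq => rw [map_add, map_add, map_add, hp, hq]
    | mul_X p j hp =>
      rw [map_mul, map_mul, map_mul, hp, MvPolynomial.aeval_X]
      congr 1
      fin_cases j
      · exact hσx
      · exact hσy
  have hσh : σ h = ζ ^ i * algebraMap L (AlgebraicClosure L) h := by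
    rw [hh, map_div₀, map_div₀, hσz, hwd, map_div₀, map_div₀, hσP, hσP]
    ring
  have hPh : A.valuation (Polynomial.aeval h (minpoly ℚ θ)) < 1 := by
    have h1 : Φ (IsLocalRing.residue A (((minpoly ℚ θ).map cA).eval hA1)) = 0 := by
      have h2 : Φ (IsLocalRing.residue A (((minpoly ℚ θ).map cA).eval hA1)) =
          ((minpoly ℚ θ).map ((Φ.comp (IsLocalRing.residue A)).comp cA)).eval θ := by
        rw [hθ, ← Polynomial.map_map, ← RingHom.comp_apply Φ, ← Polynomial.eval_map_apply]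
        rfl
      rw [h2, Polynomial.eval_map]
      have h3 : ((Φ.comp (IsLocalRing.residue A)).comp cA) = algebraMap ℚ ℝ :=
        Subsingleton.elim _ _
      rw [h3, ← Polynomial.aeval_def, minpoly.aeval]
    have h2 : IsLocalRing.residue A (((minpoly ℚ θ).map cA).eval hA1) = 0 := by
      apply Φ.injective
      rw [h1, map_zero]
    rw [IsLocalRing.residue_eq_zero_iff, A.valuation_lt_one_iff] at h2
    have h3 : (((((minpoly ℚ θ).map cA).eval hA1 : A)) : L) = Polynomial.aeval h (minpoly ℚ θ) := by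
      rw [Polynomial.eval_map]
      have h4 := Polynomial.hom_eval₂ (minpoly ℚ θ) cA A.subtype hA1
      refine h4.trans ?_
      rw [Polynomial.aeval_def, hhA1]
      congr 1
      exact Subsingleton.elim _ _
    rw [h3] at h2
    exact h2
  have h5 := hσlt _ hPh
  have h6 : σ (Polynomial.aeval h (minpoly ℚ θ)) = Polynomial.aeval (σ h) (minpoly ℚ θ) := by
    rw [Polynomial.aeval_def, Polynomial.aeval_def, Polynomial.hom_eval₂]
    congr 1
    exact Subsingleton.elim _ _
  rw [h6, hσh] at h5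
  exact h5

end Pool.Agent.X95T
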