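import Pool.Agent.X95T.HK1

set_option autoImplicit false

open IntermediateField
open Pool.Agent.Results.MP_821da1_nt

namespace Pool.Agent.X95T

/-- one constant for all real `n`-th roots -/
lemma const_root (n : ℕ) (hn : 1 ≤ n) (c : ℝ → ℕ) (a : ℤ) :
    ∃ t : ℕ, ∀ θ : ℝ, θ ^ n = (a : ℝ) → c θ ≤ t := by
  obtain ⟨P, hP⟩ : ∃ P : Polynomial ℝ, P = Polynomial.X ^ n - Polynomial.C (a : ℝ) := ⟨_, rfl⟩
  have hP0 : P ≠ 0 := hP ▸ (Polynomial.monic_X_pow_sub_C _ (by omega)).ne_zero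
  refine ⟨∑ θ ∈ P.roots.toFinset, c θ, ?_⟩
  intro θ hθ
  apply Finset.single_le_sum (f := c) (fun _ _ => Nat.zero_le _)
  rw [Multiset.mem_toFinset, Polynomial.mem_roots hP0, Polynomial.IsRoot.def, hP]
  simp [hθ]

/-- the general uniform bound -/
theorem uniformW (n M0 M1 : ℕ) (hn : 3 ≤ n) :
    ∃ C : ℕ, ∀ S : Finset ℕ, ∃ c : ℕ, ∀ (κ₁ κ₂ e b : ℤ) (F num den : MvPolynomial (Fin 2) ℤ)
      (D U V : Polynomial ℤ), κ₁ * κ₂ * (b * e) ≠ 0 →
      (∀ q : ℕ, q.Prime → (q : ℤ) ∣ κ₁ * κ₂ * (b * e) → q ∈ S) →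
      (∀ s ∈ F.support, s 0 ≤ M0 ∧ s 1 ≤ M1) →
      MvPolynomial.aeval ![Polynomial.X, (0 : Polynomial ℤ)] F = Polynomial.C e * D ^ n →
      U * D + V * MvPolynomial.aeval ![Polynomial.X, (0 : Polynomial ℤ)]
        (MvPolynomial.pderiv 1 F) = Polynomial.C b →
      (∀ a : ℤ, a ≠ 0 → Irreducible (MvPolynomial.map (Int.castRingHom ℚ) (sub a n F)) ∧
        (jx (sub a n F)).IsIntegral) →
      (∀ (L : Type) [Field L] [CharZero L] (A : ValuationSubring L) (x y : L),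
        (∀ q : ℚ, (q : L) ∈ A) → (1 < A.valuation x ∨ 1 < A.valuation y) →
        MvPolynomial.aeval ![x, y] F = 0 → 1 < A.valuation x ∧
        MvPolynomial.aeval ![x, y] num ≠ 0 ∧ MvPolynomial.aeval ![x, y] den ≠ 0 ∧
        A.valuation (y * (MvPolynomial.aeval ![x, y] den / MvPolynomial.aeval ![x, y] num) ^ n -
          (((κ₁ : ℚ) / κ₂ : ℚ) : L)) < 1) →
      ∀ x y : ℤ, MvPolynomial.eval ![x, y] F = 0 →
        max x.natAbs y.natAbs ≤ (c * ∑ s ∈ F.support, (F.coeff s).natAbs) ^ C := by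
  obtain ⟨C₀, c₀, hR⟩ := RepulsionAllCurves.result.2
  obtain ⟨d, hd⟩ : ∃ d : ℕ, d = M0 + n * M1 := ⟨_, rfl⟩
  obtain ⟨A, hA⟩ : ∃ A : ℕ, A = C₀ d := ⟨_, rfl⟩
  have hca := const_root n (by omega) (fun θ => c₀ d ℚ⟮θ⟯)
  choose t ht using hca
  refine ⟨A * n + A + 1, ?_⟩
  intro S
  obtain ⟨M, hM⟩ : ∃ M : ℕ, M = ∏ q ∈ S, (q + 1) ^ n := ⟨_, rfl⟩
  have hM1 : 1 ≤ M := by
    rw [hM]
    exact Nat.succ_le_of_lt (Finset.prod_pos (fun q _ => pow_pos (Nat.succ_pos q) n))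
  obtain ⟨T, hT⟩ : ∃ T : ℕ, T = A + ∑ a ∈ Finset.Icc (-(M : ℤ)) M, t a := ⟨_, rfl⟩
  have hT1 : ∀ a : ℤ, a.natAbs ≤ M → t a ≤ T := by
    intro a ha
    rw [hT]
    refine le_trans ?_ (Nat.le_add_left _ _)
    apply Finset.single_le_sum (f := t) (fun _ _ => Nat.zero_le _)
    rw [Finset.mem_Icc]
    omega
  refine ⟨M * ((T + 1) * M ^ M1), ?_⟩
  intro κ₁ κ₂ e b F num den D U V hne hS hsupp h1 h2 hi hw x y h0
  have hκ : κ₁ * κ₂ ≠ 0 := left_ne_zero_of_mul hne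
  have hbe : b * e ≠ 0 := right_ne_zero_of_mul hne
  have hκ₁ : κ₁ ≠ 0 := left_ne_zero_of_mul hκ
  have hκ₂ : κ₂ ≠ 0 := right_ne_zero_of_mul hκ
  have hlenF : RepulsionAllCurves.len F = ∑ m ∈ F.support, (F.coeff m).natAbs := rfl
  rw [← hlenF]
  obtain ⟨f, u, v, w, h3, h4⟩ := split' (n := n) F D U V e b h1 h2 x y h0
  have hprimes : (b * e).natAbs.primeFactors ⊆ S := by
    intro q hq
    exact hS q (Nat.prime_of_mem_primeFactors hq)
      ((Int.natCast_dvd.2 (Nat.dvd_of_mem_primeFactors hq)).mul_left _)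
  obtain ⟨a, z, ha0, haS, haM, hyz⟩ : ∃ a z : ℤ, a ≠ 0 ∧
      (∀ q : ℕ, q.Prime → (q : ℤ) ∣ a → q ∈ S) ∧ a.natAbs ≤ M ∧ y = a * z ^ n := by
    by_cases hy : y = 0
    · refine ⟨1, 0, one_ne_zero, ?_, hM1, ?_⟩
      · intro q hq hq1
        exfalso
        have h5 : q ∣ 1 := by exact_mod_cast hq1
        exact hq.one_lt.ne' (Nat.dvd_one.1 h5)
      · rw [hy, zero_pow (by omega), mul_zero]
    · obtain ⟨a, z, ha0, hap, haM, hyz⟩ := free_part_b (n := n) (by omega) (b * e) hbe y hy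
        (fun q hq hqb => val_dvd' y f e _ u v w b h3 h4 hy q hq (fun h => hqb (h.mul_right e))
          (fun h => hqb (h.mul_left b)))
      refine ⟨a, z, ha0, fun q hq hqa => hS q hq ((hap q hq hqa).mul_left _), haM.trans ?_, hyz⟩
      rw [hM, ← Finset.prod_pow]
      calc ∏ q ∈ (b * e).natAbs.primeFactors, q ^ n
          ≤ ∏ q ∈ (b * e).natAbs.primeFactors, (q + 1) ^ n :=
            Finset.prod_le_prod' (fun q _ => Nat.pow_le_pow_left (Nat.le_succ q) _)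
        _ ≤ ∏ q ∈ S, (q + 1) ^ n :=
            Finset.prod_le_prod_of_subset_of_one_le' hprimes
              (fun q _ _ => Nat.one_le_pow _ _ (Nat.succ_pos q))
  obtain ⟨hirr, hintg⟩ := hi a ha0
  have hF0 : F ≠ 0 := by
    rintro rfl
    rw [map_zero, map_zero] at hirr
    exact hirr.ne_zero rfl
  have hlen1 : 1 ≤ RepulsionAllCurves.len F := Pool.Agent.Y910.G.len_pos hF0
  have hlen : RepulsionAllCurves.len (sub a n F) ≤ M ^ M1 * RepulsionAllCurves.len F :=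
    (len_sub a ha0 n M1 F (fun s hs => (hsupp s hs).2)).trans
      (Nat.mul_le_mul_right _ (Nat.pow_le_pow_left haM _))
  have hdeg := deg_sub a n M1 M0 F hsupp
  rw [← hd] at hdeg
  have hev : MvPolynomial.eval ![x, z] (sub a n F) = 0 := by
    have h5 := aeval_sub a n F x z
    rw [MvPolynomial.aeval_eq_eval, MvPolynomial.aeval_eq_eval] at h5
    rw [h5]
    simp only [Int.cast_id]
    rw [← hyz]
    exact h0
  have hmain : max x.natAbs z.natAbs ≤
      ((T + 1) * RepulsionAllCurves.len (sub a n F)) ^ A := by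
    rcases hR d _ x z hdeg hirr hev with h | ⟨G, hG, η, hη, hk3⟩
    · rw [← hA] at h
      refine h.trans (Nat.pow_le_pow_left (Nat.mul_le_mul_right _ ?_) _)
      rw [hT]
      omega
    · obtain ⟨θ, hθ, hθη, hθ3⟩ := keyW (by omega) a ha0 F hintg ((κ₁ : ℚ) / κ₂)
        (div_ne_zero (by exact_mod_cast hκ₁) (by exact_mod_cast hκ₂)) num den hw hirr G hG η hη
      have haR : (a : ℝ) ≠ 0 := by exact_mod_cast ha0
      have hκ₂R : (κ₂ : ℝ) ≠ 0 := by exact_mod_cast hκ₂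
      have hθ2 : (a : ℝ) * θ ^ n * κ₂ = κ₁ := by
        rw [hθ]
        push_cast
        field_simp
      -- the field is one of finitely many
      obtain ⟨c₁, hc₁⟩ : ∃ c₁ : ℤ, c₁ = (a * κ₂) ^ (n - 1) * κ₁ := ⟨_, rfl⟩
      have hc₁0 : c₁ ≠ 0 := by
        rw [hc₁]
        exact mul_ne_zero (pow_ne_zero _ (mul_ne_zero ha0 hκ₂)) hκ₁
      obtain ⟨c₂, w, hc₂0, hc₂M, hc₂w⟩ := free_part' (p := n) (by omega) S c₁ hc₁0 (by
        intro q hq hqS
        have h5 : ¬ q ∣ c₁.natAbs := by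
          intro h6
          apply hqS
          have h7 : (q : ℤ) ∣ (a * κ₂) ^ (n - 1) * κ₁ := by
            rw [← hc₁]
            exact Int.natCast_dvd.2 h6
          have hqZ : Prime (q : ℤ) := Nat.prime_iff_prime_int.1 hq
          rcases hqZ.dvd_or_dvd h7 with h8 | h8
          · rcases hqZ.dvd_or_dvd (hqZ.dvd_of_dvd_pow h8) with h9 | h9
            · exact haS q hq h9
            · exact hS q hq ((h9.mul_left κ₁).mul_right _)
          · exact hS q hq ((h8.mul_right κ₂).mul_right _)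
        rw [Nat.factorization_eq_zero_of_not_dvd h5]
        exact dvd_zero _)
      rw [← hM] at hc₂M
      have hw0 : w ≠ 0 := by
        rintro rfl
        rw [zero_pow (by omega), mul_zero] at hc₂w
        exact hc₁0 hc₂w
      have hwR : (w : ℝ) ≠ 0 := by exact_mod_cast hw0
      obtain ⟨θ', hθ'⟩ : ∃ θ' : ℝ, θ' = a * κ₂ * θ / w := ⟨_, rfl⟩
      have hθ'n : θ' ^ n = (c₂ : ℝ) := by
        have h6 : ((a : ℝ) * κ₂) ^ n * θ ^ n = c₂ * (w : ℝ) ^ n := by
          have h5 : ((a : ℝ) * κ₂) ^ n = (a * κ₂) ^ (n - 1) * (a * κ₂) := by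
            rw [← pow_succ]
            congr 1
            omega
          calc ((a : ℝ) * κ₂) ^ n * θ ^ n = (a * κ₂) ^ (n - 1) * ((a : ℝ) * θ ^ n * κ₂) := by
                rw [h5]; ring
            _ = (((a * κ₂) ^ (n - 1) * κ₁ : ℤ) : ℝ) := by rw [hθ2]; push_cast; ring
            _ = c₂ * (w : ℝ) ^ n := by rw [← hc₁, hc₂w]; push_cast; ring
        rw [hθ', div_pow, mul_pow, h6, mul_div_assoc, div_self (pow_ne_zero _ hwR), mul_one]
      have hθθ' : ℚ⟮θ'⟯ = ℚ⟮θ⟯ := by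
        apply le_antisymm
        · rw [adjoin_simple_le_iff, hθ']
          exact div_mem (mul_mem (mul_mem (intCast_mem _ a) (intCast_mem _ κ₂))
            (mem_adjoin_simple_self ℚ θ)) (intCast_mem _ w)
        · rw [adjoin_simple_le_iff]
          have h5 : θ = θ' * w / (a * κ₂) := by
            rw [hθ']
            field_simp
          rw [h5]
          exact div_mem (mul_mem (mem_adjoin_simple_self ℚ θ') (intCast_mem _ w))
            (mul_mem (intCast_mem _ a) (intCast_mem _ κ₂))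
      have h5 := hk3 ℚ⟮θ⟯ (by rw [adjoin_simple_le_iff]; exact hθη) (hn.trans hθ3)
      rw [← hA] at h5
      refine h5.trans (Nat.pow_le_pow_left (Nat.mul_le_mul_right _ ?_) _)
      rw [← hθθ']
      exact (ht c₂ θ' hθ'n).trans ((hT1 c₂ hc₂M).trans (Nat.le_succ _))
  obtain ⟨B, hB⟩ : ∃ B : ℕ, B = (T + 1) * M ^ M1 * RepulsionAllCurves.len F := ⟨_, rfl⟩
  have hB1 : 1 ≤ B := by
    rw [hB]
    exact Nat.mul_pos (Nat.mul_pos (Nat.succ_pos _) (pow_pos hM1 _)) hlen1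
  have h5 : max x.natAbs z.natAbs ≤ B ^ A := by
    refine hmain.trans (Nat.pow_le_pow_left ?_ _)
    rw [hB, mul_assoc]
    exact Nat.mul_le_mul_left _ hlen
  have h6 : M * ((T + 1) * M ^ M1) * RepulsionAllCurves.len F = M * B := by
    rw [hB, mul_assoc]
  rw [h6]
  have h7 : 1 ≤ M * B := Nat.mul_pos hM1 hB1
  have h8 : B ≤ M * B := Nat.le_mul_of_pos_left _ hM1
  apply max_le
  · calc x.natAbs ≤ B ^ A := (le_max_left _ _).trans h5
      _ ≤ (M * B) ^ A := Nat.pow_le_pow_left h8 _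
      _ ≤ _ := Nat.pow_le_pow_right h7 (by omega)
  · have h9 : y.natAbs = a.natAbs * z.natAbs ^ n := by
      rw [hyz, Int.natAbs_mul, Int.natAbs_pow]
    rw [h9]
    calc a.natAbs * z.natAbs ^ n ≤ M * (B ^ A) ^ n :=
          Nat.mul_le_mul haM (Nat.pow_le_pow_left ((le_max_right _ _).trans h5) _)
      _ ≤ M * (M * B) ^ (A * n) := by
          rw [← pow_mul]
          exact Nat.mul_le_mul_left _ (Nat.pow_le_pow_left h8 _)
      _ ≤ (M * B) * (M * B) ^ (A * n) := Nat.mul_le_mul_right _ (Nat.le_mul_of_pos_right _ hB1)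
      _ = (M * B) ^ (A * n + 1) := by rw [pow_succ]; ring
      _ ≤ _ := Nat.pow_le_pow_right h7 (by omega)

end Pool.Agent.X95T
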