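import Pool.Agent.X95T.HK2

set_option autoImplicit false

namespace Pool.Agent.X95T

section

open Polynomial

/-- a general criterion for pure equations -/
theorem irr_pow_gen {n : ℕ} (hn : 1 ≤ n) {K : Type} [Field K] {κ : K}
    (h : ∀ q : ℕ, q.Prime → q ∣ n → ∀ b : K, b ^ q ≠ κ ∧ b ^ q ≠ -κ) :
    Irreducible (X ^ n - C κ : K[X]) := by
  induction n using induction_on_primes generalizing K κ with
  | zero => omega
  | one => simpa using irreducible_X_sub_C κ
  | prime_mul p n hp IH =>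
    rw [mul_comm]
    apply X_pow_mul_sub_C_irreducible
      (X_pow_sub_C_irreducible_of_prime hp (fun b => (h p hp (dvd_mul_right _ _) b).1))
    intro E _ _ x hx
    have hint : IsIntegral K x := not_not.mp fun h' ↦ by
      simpa only [degree_zero, degree_X_pow_sub_C hp.pos,
        WithBot.natCast_ne_bot] using congr_arg degree (hx.symm.trans (dif_neg h'))
    have hn1 : 1 ≤ n := Nat.pos_of_ne_zero (by rintro rfl; simp at hn)
    have hnorm : Algebra.norm K (IntermediateField.AdjoinSimple.gen K x) = κ ∨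
        Algebra.norm K (IntermediateField.AdjoinSimple.gen K x) = -κ := by
      rw [← IntermediateField.adjoin.powerBasis_gen hint,
        Algebra.PowerBasis.norm_gen_eq_coeff_zero_minpoly]
      simp only [IntermediateField.minpoly_gen, hx, IntermediateField.adjoin.powerBasis_gen,
        coeff_sub, coeff_X_pow, coeff_C_zero, hp.ne_zero.symm, if_false, zero_sub]
      rcases neg_one_pow_eq_or K (IntermediateField.adjoin.powerBasis hint).dim with h1 | h1
      · right; rw [h1, one_mul]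
      · left; rw [h1]; ring
    apply IH hn1
    intro q hq hqn b
    have hq' := fun c => h q hq (dvd_mul_of_dvd_right hqn p) c
    constructor
    · intro hb
      have h1 := congrArg (Algebra.norm K) hb
      rw [map_pow] at h1
      rcases hnorm with h2 | h2
      · exact (hq' _).1 (h1.trans h2)
      · exact (hq' _).2 (h1.trans h2)
    · intro hb
      have h1 := congrArg (Algebra.norm K) hb
      rw [map_pow, ← neg_one_mul, map_mul] at h1
      have h3 : Algebra.norm K (-1 : IntermediateField.adjoin K {x}) = 1 ∨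
          Algebra.norm K (-1 : IntermediateField.adjoin K {x}) = -1 := by
        have h4 : Algebra.norm K (-1 : IntermediateField.adjoin K {x}) ^ 2 = 1 := by
          rw [← map_pow]
          simp
        rw [sq] at h4
        exact mul_self_eq_one_iff.1 h4
      rcases hnorm with h2 | h2 <;> rcases h3 with h4 | h4 <;> rw [h2, h4] at h1
      · exact (hq' _).1 (h1.trans (one_mul _))
      · exact (hq' _).2 (h1.trans (by ring))
      · exact (hq' _).2 (h1.trans (one_mul _))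
      · exact (hq' _).1 (h1.trans (by ring))

/-- In a hyperelliptic function field `A + B s` is not a `p`-th power up to a constant, if its norm
is the `p`-th power of a polynomial of small degree. -/
lemma not_powN {q n : ℕ} (hp : q.Prime) (hqn : q ∣ n) (f A B u : ℚ[X]) (e a : ℚ) (he : e ≠ 0)
    (ha : a ≠ 0) (hsq : Squarefree f) (hB : B ≠ 0) (hu : u ≠ 0)
    (hex : ∀ (P T : ℚ[X]) (c : ℚ), c ≠ 0 → P ^ 2 - f * T ^ 2 = C c * u ^ (n / q) → T = 0)
    (h : A ^ 2 - f * B ^ 2 = C e * u ^ n)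
    (K : Type) [Field K] [Algebra (FractionRing ℚ[X]) K] [Algebra ℚ[X] K]
    [IsScalarTower ℚ[X] (FractionRing ℚ[X]) K] (s : K) (hs : s ^ 2 = algebraMap ℚ[X] K f)
    (σ : K →+* K) (hσ : ∀ g : FractionRing ℚ[X], σ (algebraMap _ K g) = algebraMap _ K g)
    (hσs : σ s = -s)
    (hbasis : ∀ w : K, ∃ P T : FractionRing ℚ[X],
      w = algebraMap _ K P + algebraMap _ K T * s)
    (hind : ∀ P T : FractionRing ℚ[X], algebraMap _ K P + algebraMap _ K T * s = 0 → P = 0 ∧ T = 0)
    (w : K) (hw : w ^ q = algebraMap ℚ[X] K (C a⁻¹) *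
      (algebraMap ℚ[X] K A + algebraMap ℚ[X] K B * s)) : False := by
  obtain ⟨P, T, rfl⟩ := hbasis w
  have hsint : IsIntegral ℚ[X] s := by
    apply IsIntegral.of_pow two_pos
    rw [hs]
    exact isIntegral_algebraMap
  obtain ⟨w, hwdef⟩ : ∃ w : K, w = algebraMap (FractionRing ℚ[X]) K P +
    algebraMap (FractionRing ℚ[X]) K T * s := ⟨_, rfl⟩
  rw [← hwdef] at hw
  have hσQ : ∀ g : ℚ[X], σ (algebraMap ℚ[X] K g) = algebraMap ℚ[X] K g := by
    intro g
    rw [IsScalarTower.algebraMap_apply ℚ[X] (FractionRing ℚ[X]) K, hσ]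
  have hσw : σ w = algebraMap (FractionRing ℚ[X]) K P - algebraMap (FractionRing ℚ[X]) K T * s := by
    rw [hwdef, map_add, map_mul, hσ, hσ, hσs]
    ring
  have hσwp : (σ w) ^ q = algebraMap ℚ[X] K (C a⁻¹) *
      (algebraMap ℚ[X] K A - algebraMap ℚ[X] K B * s) := by
    rw [← map_pow, hw, map_mul, map_add, map_mul, hσQ, hσQ, hσQ, hσs]
    ring
  have hwint : IsIntegral ℚ[X] w := by
    apply IsIntegral.of_pow hp.pos
    rw [hw]
    exact isIntegral_algebraMap.mul (isIntegral_algebraMap.add (isIntegral_algebraMap.mul hsint))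
  have hσwint : IsIntegral ℚ[X] (σ w) := by
    apply IsIntegral.of_pow hp.pos
    rw [hσwp]
    exact isIntegral_algebraMap.mul (isIntegral_algebraMap.sub (isIntegral_algebraMap.mul hsint))
  have hinj : Function.Injective (algebraMap (FractionRing ℚ[X]) K) :=
    (algebraMap (FractionRing ℚ[X]) K).injective
  -- the trace
  have htr : IsIntegral ℚ[X] (2 * P) := by
    rw [← isIntegral_algebraMap_iff hinj]
    have h1 : algebraMap (FractionRing ℚ[X]) K (2 * P) = w + σ w := by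
      rw [hσw, hwdef, map_mul, map_ofNat]
      ring
    rw [h1]
    exact hwint.add hσwint
  obtain ⟨P₂, hP₂⟩ := IsIntegrallyClosed.algebraMap_eq_of_integral htr
  obtain ⟨P₁, hP₁⟩ : ∃ P₁ : ℚ[X], algebraMap ℚ[X] (FractionRing ℚ[X]) P₁ = P := by
    refine ⟨C (1 / 2) * P₂, ?_⟩
    rw [map_mul, hP₂, ← mul_assoc]
    have h1 : algebraMap ℚ[X] (FractionRing ℚ[X]) (C (1 / 2)) * 2 = 1 := by
      have h2 : (2 : FractionRing ℚ[X]) = algebraMap ℚ[X] _ (C 2) := by
        rw [show (C (2 : ℚ) : ℚ[X]) = 2 from map_ofNat C 2, map_ofNat]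
      rw [h2, ← map_mul, ← C_mul]
      norm_num
    rw [h1, one_mul]
  -- the norm
  have hnorm : IsIntegral ℚ[X] (P ^ 2 - algebraMap ℚ[X] _ f * T ^ 2) := by
    rw [← isIntegral_algebraMap_iff hinj]
    have h1 : algebraMap (FractionRing ℚ[X]) K (P ^ 2 - algebraMap ℚ[X] _ f * T ^ 2) = w * σ w := by
      rw [hσw, hwdef, map_sub, map_mul, map_pow, map_pow, ← IsScalarTower.algebraMap_apply, ← hs]
      ring
    rw [h1]
    exact hwint.mul hσwint
  obtain ⟨N₁, hN₁⟩ := IsIntegrallyClosed.algebraMap_eq_of_integral hnorm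
  have hNp : N₁ ^ q = C (e * (a⁻¹) ^ 2) * u ^ n := by
    have h1 : algebraMap ℚ[X] K (N₁ ^ q) = algebraMap ℚ[X] K (C (e * (a⁻¹) ^ 2) * u ^ n) := by
      have h2 : algebraMap ℚ[X] K N₁ = w * σ w := by
        rw [IsScalarTower.algebraMap_apply ℚ[X] (FractionRing ℚ[X]) K, hN₁, hσw, hwdef, map_sub,
          map_mul, map_pow, map_pow, ← IsScalarTower.algebraMap_apply, ← hs]
        ring
      have h3 : algebraMap ℚ[X] K (A ^ 2 - f * B ^ 2) = algebraMap ℚ[X] K (C e * u ^ n) := by rw [h]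
      rw [map_sub, map_mul, map_pow, map_pow, ← hs, map_mul] at h3
      rw [map_pow, h2, mul_pow, hw, hσwp, map_mul, C_mul, C_pow, map_mul, map_pow (algebraMap ℚ[X] K)
        (C a⁻¹)]
      linear_combination (algebraMap ℚ[X] K (C a⁻¹)) ^ 2 * h3
    have hinj2 : Function.Injective (algebraMap ℚ[X] K) := by
      rw [IsScalarTower.algebraMap_eq ℚ[X] (FractionRing ℚ[X]) K]
      exact hinj.comp (IsFractionRing.injective ℚ[X] (FractionRing ℚ[X]))
    exact hinj2 h1
  -- `T` is a polynomial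
  obtain ⟨T₁, hT₁⟩ : ∃ T₁ : ℚ[X], algebraMap ℚ[X] (FractionRing ℚ[X]) T₁ = T := by
    obtain ⟨t₁, t₂, ht₂, hT⟩ := IsFractionRing.div_surjective (A := ℚ[X]) T
    have ht₂0 : t₂ ≠ 0 := nonZeroDivisors.ne_zero ht₂
    obtain ⟨g, hg1, hg2⟩ : ∃ g, g = EuclideanDomain.gcd t₁ t₂ ∧ g ≠ 0 :=
      ⟨_, rfl, fun h => ht₂0 (EuclideanDomain.gcd_eq_zero_iff.1 h).2⟩
    obtain ⟨c₁, hc₁⟩ : g ∣ t₁ := hg1 ▸ EuclideanDomain.gcd_dvd_left _ _
    obtain ⟨c₂, hc₂⟩ : g ∣ t₂ := hg1 ▸ EuclideanDomain.gcd_dvd_right _ _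
    have hc₂0 : c₂ ≠ 0 := by
      rintro rfl
      exact ht₂0 (by rw [hc₂, mul_zero])
    have hcop : IsCoprime c₁ c₂ := by
      have h1 := EuclideanDomain.gcd_eq_gcd_ab t₁ t₂
      rw [← hg1, hc₁, hc₂] at h1
      refine ⟨EuclideanDomain.gcdA t₁ t₂, EuclideanDomain.gcdB t₁ t₂, ?_⟩
      apply mul_left_cancel₀ hg2
      rw [hc₁, hc₂]
      rw [mul_one]
      conv_rhs => rw [h1]
      ring
    have hT2 : T = algebraMap ℚ[X] _ c₁ / algebraMap ℚ[X] _ c₂ := by
      rw [← hT, hc₁, hc₂, map_mul, map_mul]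
      have : algebraMap ℚ[X] (FractionRing ℚ[X]) g ≠ 0 := by
        rw [Ne, IsFractionRing.to_map_eq_zero_iff]
        exact hg2
      exact mul_div_mul_left _ _ this
    have hc₂' : algebraMap ℚ[X] (FractionRing ℚ[X]) c₂ ≠ 0 := by
      rw [Ne, IsFractionRing.to_map_eq_zero_iff]
      exact hc₂0
    have h2 : f * c₁ ^ 2 = (P₁ ^ 2 - N₁) * c₂ ^ 2 := by
      apply IsFractionRing.injective ℚ[X] (FractionRing ℚ[X])
      rw [map_mul, map_pow, map_mul, map_sub, map_pow, map_pow, hN₁, hP₁, hT2]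
      field_simp
      ring
    have h3 : c₂ ^ 2 ∣ f := by
      have h4 : c₂ ^ 2 ∣ f * c₁ ^ 2 := ⟨P₁ ^ 2 - N₁, by rw [h2]; ring⟩
      exact (hcop.symm.pow).dvd_of_dvd_mul_right h4
    have h4 : IsUnit c₂ := hsq c₂ (by rw [← pow_two]; exact h3)
    obtain ⟨c₃, hc₃⟩ := h4.exists_right_inv
    refine ⟨c₁ * c₃, ?_⟩
    rw [hT2, map_mul, eq_div_iff hc₂', mul_assoc, ← map_mul, mul_comm c₃, hc₃, map_one, mul_one]
  have hPT : P₁ ^ 2 - f * T₁ ^ 2 = N₁ := by
    apply IsFractionRing.injective ℚ[X] (FractionRing ℚ[X])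
    rw [hN₁, map_sub, map_mul, map_pow, map_pow, hP₁, hT₁]
  obtain ⟨c, hc0, hNc⟩ : ∃ c : ℚ, c ≠ 0 ∧ N₁ = C c * u ^ (n / q) := by
    have hnq : n = n / q * q := (Nat.div_mul_cancel hqn).symm
    have hk0 : e * (a⁻¹) ^ 2 ≠ 0 := mul_ne_zero he (pow_ne_zero _ (inv_ne_zero ha))
    have h1 : (u ^ (n / q)) ^ q ∣ N₁ ^ q := by
      rw [← pow_mul, ← hnq, hNp]
      exact dvd_mul_left _ _
    rw [IsIntegrallyClosed.pow_dvd_pow_iff hp.ne_zero] at h1
    obtain ⟨g, hg⟩ := h1
    have h2 : g ^ q = C (e * (a⁻¹) ^ 2) := by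
      apply mul_left_cancel₀ (pow_ne_zero n hu)
      have h3 : u ^ n = (u ^ (n / q)) ^ q := by rw [← pow_mul, ← hnq]
      have h4 : u ^ n * g ^ q = N₁ ^ q := by rw [hg, mul_pow, ← h3]
      rw [h4, hNp]
      ring
    have h3 : g.natDegree = 0 := by
      have h4 := congrArg natDegree h2
      rw [natDegree_pow, natDegree_C] at h4
      exact (Nat.mul_eq_zero.1 h4).resolve_left hp.ne_zero
    refine ⟨g.coeff 0, ?_, ?_⟩
    · intro h4
      rw [eq_C_of_natDegree_eq_zero h3, h4, C_0, zero_pow hp.ne_zero] at h2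
      exact hk0 (C_eq_zero.1 h2.symm)
    · rw [hg, mul_comm]
      congr 1
      exact eq_C_of_natDegree_eq_zero h3
  have hT0 : T₁ = 0 := hex P₁ T₁ c hc0 (by rw [hPT, hNc])
  have hw2 : w = algebraMap ℚ[X] K P₁ := by
    rw [hwdef, ← hP₁, ← hT₁, hT0, map_zero, map_zero, zero_mul, add_zero,
      ← IsScalarTower.algebraMap_apply]
  have h5 := hind (algebraMap ℚ[X] _ (C a⁻¹ * A - P₁ ^ q)) (algebraMap ℚ[X] _ (C a⁻¹ * B)) (by
    rw [← IsScalarTower.algebraMap_apply, ← IsScalarTower.algebraMap_apply]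
    rw [hw2] at hw
    simp only [map_sub, map_mul, map_pow]
    linear_combination -hw)
  have h6 : C a⁻¹ * B = 0 := by
    have := h5.2
    rwa [IsFractionRing.to_map_eq_zero_iff] at this
  rcases mul_eq_zero.1 h6 with h7 | h7
  · rw [C_eq_zero] at h7
    exact inv_ne_zero ha h7
  · exact hB h7

end

end Pool.Agent.X95T
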