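import Pool.Agent.X95T.HK4

set_option autoImplicit false

namespace Pool.Agent.X95T

section

open Polynomial

variable {L : Type} [Field L] [CharZero L] (W : ValuationSubring L)

lemma val_int (hQ : ∀ q : ℚ, (q : L) ∈ W) (c : ℤ) (hc : c ≠ 0) : W.valuation (c : L) = 1 := by
  have h1 : ((c : ℚ) : L) = (c : L) := by simp
  rw [← h1]
  exact val_rat hQ (by exact_mod_cast hc)

lemma aeval_val (hQ : ∀ q : ℚ, (q : L) ∈ W) (x : L) (hx : 1 < W.valuation x) (P : ℤ[X])
    (hP : P ≠ 0) : W.valuation (aeval x P) = W.valuation x ^ P.natDegree := by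
  have hinj : Function.Injective (Int.castRingHom ℚ) := Int.cast_injective
  have h1 : aeval x P = eval₂ (Rat.castHom L) x (P.map (Int.castRingHom ℚ)) := by
    rw [eval₂_map, aeval_def]
    congr 1
    exact Subsingleton.elim _ _
  rw [h1, val_pol hQ _ x hx _ ((Polynomial.map_ne_zero_iff hinj).2 hP),
    natDegree_map_eq_of_injective hinj]

/-- the leading coefficient at infinity -/
lemma lead_pol (hQ : ∀ q : ℚ, (q : L) ∈ W) (x : L) (hx : 1 < W.valuation x) (P : ℤ[X])
    (hP : P ≠ 0) : W.valuation (aeval x P / x ^ P.natDegree - (P.leadingCoeff : L)) < 1 := by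
  have hx0 : x ≠ 0 := by rintro rfl; simp at hx
  have hd : P = P.eraseLead + C P.leadingCoeff * X ^ P.natDegree :=
    (P.eraseLead_add_C_mul_X_pow).symm
  have h1 : aeval x P / x ^ P.natDegree - (P.leadingCoeff : L) =
      aeval x P.eraseLead / x ^ P.natDegree := by
    have h2 : aeval x P = aeval x P.eraseLead + (P.leadingCoeff : L) * x ^ P.natDegree := by
      conv_lhs => rw [hd]
      simp
    rw [h2, add_div, mul_div_assoc, div_self (pow_ne_zero _ hx0)]
    ring
  rw [h1]
  by_cases h0 : P.eraseLead = 0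
  · rw [h0, map_zero, zero_div, map_zero]
    exact zero_lt_one
  · rw [map_div₀, map_pow, aeval_val W hQ x hx _ h0,
      div_lt_one₀ (pow_pos (lt_trans zero_lt_one hx) _)]
    apply pow_lt_pow_right₀ hx
    have hdeg := eraseLead_natDegree_lt_or_eraseLead_eq_zero P
    exact hdeg.resolve_right h0

lemma pow_close (g l : L) (hl : W.valuation l = 1) (h : W.valuation (g - l) < 1) (m : ℕ) :
    W.valuation (g ^ m - l ^ m) < 1 := by
  have hg : W.valuation g = 1 := by
    have e1 : g = (g - l) + l := by ring
    rw [e1, Valuation.map_add_eq_of_lt_right _ (by rw [hl]; exact h), hl]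
  induction m with
  | zero => simp
  | succ m ih =>
    have e1 : g ^ (m + 1) - l ^ (m + 1) = g * (g ^ m - l ^ m) + l ^ m * (g - l) := by ring
    rw [e1]
    apply Valuation.map_add_lt
    · rw [map_mul, hg, one_mul]
      exact ih
    · rw [map_mul, map_pow, hl, one_pow, one_mul]
      exact h

end

end Pool.Agent.X95T
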