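import Pool.Agent.X95T.HK5

set_option autoImplicit false

namespace Pool.Agent.X95T

section

open Polynomial

lemma aeval_quad {S : Type} [CommRing S] (P1 P0 : ℤ[X]) (x y : S) :
    MvPolynomial.aeval ![x, y] (quad P1 P0) = y ^ 2 + aeval x P1 * y + aeval x P0 := by
  rw [quad, map_add, map_add, map_mul, map_pow, aeval_px, aeval_px, MvPolynomial.aeval_X]
  simp

/-- the degrees when the order is even -/
lemma even_degs {m r : ℕ} (f A B u : ℤ[X]) (e : ℤ) (he : e ≠ 0) (hd : Odd f.natDegree)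
    (hB : B ≠ 0) (hr : u.natDegree = r) (h : A ^ 2 - f * B ^ 2 = C e * u ^ (2 * m)) :
    A.natDegree = m * r ∧ f.natDegree + 2 * B.natDegree < 2 * A.natDegree ∧ 1 ≤ m * r ∧
      A.leadingCoeff ^ 2 = e * u.leadingCoeff ^ (2 * m) := by
  have hdeg := hyp_degs (2 * m) f A B u e he hd hB h
  rw [hr] at hdeg
  have e1 : 2 * m * r = 2 * (m * r) := by ring
  rw [e1] at hdeg
  have hd' := hd
  rw [Nat.odd_iff] at hd'
  have h1 : f.natDegree + 2 * B.natDegree < 2 * A.natDegree := by omega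
  have h2 : A.natDegree = m * r := by omega
  refine ⟨h2, h1, by omega, ?_⟩
  have hf0 : f ≠ 0 := by
    rintro rfl
    simp at hd
  have h3 : (C e * u ^ (2 * m)).natDegree = 2 * A.natDegree := by
    rw [natDegree_C_mul he, natDegree_pow, hr, e1, h2]
  have h4 : (f * B ^ 2).natDegree = f.natDegree + 2 * B.natDegree := by
    rw [natDegree_mul hf0 (pow_ne_zero _ hB), natDegree_pow]
  have h5 : (C e * u ^ (2 * m)).coeff (2 * A.natDegree) = e * u.leadingCoeff ^ (2 * m) := by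
    rw [← h3, coeff_natDegree, leadingCoeff_mul, leadingCoeff_C, leadingCoeff_pow]
  have h6 : (A ^ 2).coeff (2 * A.natDegree) = A.leadingCoeff ^ 2 := by
    rw [← natDegree_pow, coeff_natDegree, leadingCoeff_pow]
  rw [← h5, ← h, coeff_sub, h6, coeff_eq_zero_of_natDegree_lt (by rw [h4]; exact h1), sub_zero]

lemma even_lf {m r : ℕ} (f A B u : ℤ[X]) (e : ℤ) (he : e ≠ 0) (hd : Odd f.natDegree)
    (hB : B ≠ 0) (hr : u.natDegree = r) (h : A ^ 2 - f * B ^ 2 = C e * u ^ (2 * m)) :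
    ∀ s ∈ (quad (-(C 2 * A)) (C e * u ^ (2 * m)) - lf 1 A.leadingCoeff 1 (m * r) 2).support,
      1 * s 0 + (m * r) * s 1 < 2 * ((m * r) * 1) := by
  obtain ⟨h2, h1, hmr, hlc⟩ := even_degs f A B u e he hd hB hr h
  have h3 : (C e * u ^ (2 * m)).natDegree = 2 * (m * r) := by
    rw [natDegree_C_mul he, natDegree_pow, hr]
    ring
  apply lf_two A.leadingCoeff (-(C 2 * A)) (C e * u ^ (2 * m)) h3.le
  · rw [natDegree_neg, ← h2]
    exact natDegree_C_mul_le _ _
  · rw [coeff_neg, coeff_C_mul, ← h2, coeff_natDegree]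
    ring
  · rw [← h3, coeff_natDegree, leadingCoeff_mul, leadingCoeff_C, leadingCoeff_pow, hlc]

/-- the behaviour at infinity, even order, `deg u` even -/
lemma hw_ee {m r : ℕ} (f A B u : ℤ[X]) (e : ℤ) (he : e ≠ 0) (hd : Odd f.natDegree)
    (hB : B ≠ 0) (hr : u.natDegree = 2 * r) (h : A ^ 2 - f * B ^ 2 = C e * u ^ (2 * m))
    (hA0 : A.leadingCoeff ≠ 0)
    (L : Type) [Field L] [CharZero L] (W : ValuationSubring L) (x y : L)
    (hQ : ∀ q : ℚ, (q : L) ∈ W) (hxy : 1 < W.valuation x ∨ 1 < W.valuation y)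
    (h0 : MvPolynomial.aeval ![x, y] (quad (-(C 2 * A)) (C e * u ^ (2 * m))) = 0) :
    1 < W.valuation x ∧
      MvPolynomial.aeval ![x, y] (MvPolynomial.X 0 ^ r : MvPolynomial (Fin 2) ℤ) ≠ 0 ∧
      MvPolynomial.aeval ![x, y] (1 : MvPolynomial (Fin 2) ℤ) ≠ 0 ∧
      W.valuation (y * (MvPolynomial.aeval ![x, y] (1 : MvPolynomial (Fin 2) ℤ) /
        MvPolynomial.aeval ![x, y] (MvPolynomial.X 0 ^ r : MvPolynomial (Fin 2) ℤ)) ^ (2 * m) -
        (((A.leadingCoeff : ℚ) / ((1 : ℤ) : ℚ) : ℚ) : L)) < 1 := by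
  obtain ⟨hA, h1, hmr, hlc⟩ := even_degs f A B u e he hd hB hr h
  have hlf := even_lf f A B u e he hd hB hr h
  have hv1 : W.valuation ((1 : ℤ) : L) = 1 := val_int W hQ 1 one_ne_zero
  have hvα := val_int W hQ A.leadingCoeff hA0
  have hZ : ∀ c : ℤ, W.valuation (c : L) ≤ 1 := by
    intro c
    have : ((c : ℚ) : L) = (c : L) := by simp
    rw [← this]
    exact (W.valuation_le_one_iff _).2 (hQ _)
  obtain ⟨hx1, hy1, -, hlead⟩ := leadZ W.valuation hmr le_rfl hZ 1 A.leadingCoeff hv1 hvα _ hlf x y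
    hxy h0
  have hx0 : x ≠ 0 := by rintro rfl; simp at hx1
  have hy0 : y ≠ 0 := by rintro rfl; simp at hy1
  refine ⟨hx1, ?_, ?_, ?_⟩
  · rw [map_pow, MvPolynomial.aeval_X]
    exact pow_ne_zero _ hx0
  · rw [map_one]
    exact one_ne_zero
  · rw [map_one, map_pow, MvPolynomial.aeval_X]
    simp only [Matrix.cons_val_zero]
    obtain ⟨α, hα⟩ : ∃ α : L, α = (A.leadingCoeff : L) := ⟨_, rfl⟩
    have e1 : (((A.leadingCoeff : ℚ) / ((1 : ℤ) : ℚ) : ℚ) : L) = α := by
      rw [hα]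
      simp
    rw [← hα] at hlead hvα
    rw [e1]
    obtain ⟨t, ht⟩ : ∃ t : L, t = α * x ^ (m * (2 * r)) / y := ⟨_, rfl⟩
    have hα0 : α ≠ 0 := by
      rintro rfl
      rw [map_zero] at hvα
      exact zero_ne_one hvα
    have hlead' : W.valuation (t - 1) < 1 := by
      have : t = α * x ^ (m * (2 * r)) / (((1 : ℤ) : L) * y ^ 1) := by
        rw [ht, Int.cast_one, one_mul, _root_.pow_one]
      rw [this]
      exact hlead
    have hvt : W.valuation t = 1 := by
      have e2 : t = (t - 1) + 1 := by ring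
      rw [e2, Valuation.map_add_eq_of_lt_right _ (by rw [map_one]; exact hlead'), map_one]
    have ht0 : t ≠ 0 := by
      rintro rfl
      rw [map_zero] at hvt
      exact zero_ne_one hvt
    have e3 : y * (1 / x ^ r) ^ (2 * m) - α = -(α * (t - 1) / t) := by
      have e4 : (x ^ r) ^ (2 * m) = x ^ (m * (2 * r)) := by
        rw [← pow_mul]
        congr 1
        ring
      rw [div_pow, one_pow, e4, ht]
      have := pow_ne_zero (m * (2 * r)) hx0
      field_simp
      ring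
    rw [e3, Valuation.map_neg, map_div₀, map_mul, hvα, hvt, one_mul, div_one]
    exact hlead'

/-- the behaviour at infinity, even order, `deg u` odd -/
lemma hw_eo {m r s : ℕ} (f A B u : ℤ[X]) (e : ℤ) (he : e ≠ 0) (hd : Odd f.natDegree)
    (hB : B ≠ 0) (hr : u.natDegree = r) (hrs : f.natDegree = r + 2 * s)
    (h : A ^ 2 - f * B ^ 2 = C e * u ^ (2 * m)) (hA0 : A.leadingCoeff ≠ 0)
    (hf0 : f.leadingCoeff ≠ 0)
    (L : Type) [Field L] [CharZero L] (W : ValuationSubring L) (x y : L)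
    (hQ : ∀ q : ℚ, (q : L) ∈ W) (hxy : 1 < W.valuation x ∨ 1 < W.valuation y)
    (h0 : MvPolynomial.aeval ![x, y] (quad (-(C 2 * A)) (C e * u ^ (2 * m))) = 0) :
    1 < W.valuation x ∧
      MvPolynomial.aeval ![x, y] (MvPolynomial.X 1 - px A : MvPolynomial (Fin 2) ℤ) ≠ 0 ∧
      MvPolynomial.aeval ![x, y] (px B * MvPolynomial.X 0 ^ s : MvPolynomial (Fin 2) ℤ) ≠ 0 ∧
      W.valuation (y * (MvPolynomial.aeval ![x, y]
          (px B * MvPolynomial.X 0 ^ s : MvPolynomial (Fin 2) ℤ) /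
        MvPolynomial.aeval ![x, y] (MvPolynomial.X 1 - px A : MvPolynomial (Fin 2) ℤ)) ^ (2 * m) -
        (((A.leadingCoeff : ℚ) / ((f.leadingCoeff ^ m : ℤ) : ℚ) : ℚ) : L)) < 1 := by
  obtain ⟨hA, h1, hmr, hlc⟩ := even_degs f A B u e he hd hB hr h
  have hlf := even_lf f A B u e he hd hB hr h
  have hv1 : W.valuation ((1 : ℤ) : L) = 1 := val_int W hQ 1 one_ne_zero
  have hvα := val_int W hQ A.leadingCoeff hA0
  have hvℓ := val_int W hQ f.leadingCoeff hf0
  have hZ : ∀ c : ℤ, W.valuation (c : L) ≤ 1 := by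
    intro c
    have : ((c : ℚ) : L) = (c : L) := by simp
    rw [← this]
    exact (W.valuation_le_one_iff _).2 (hQ _)
  obtain ⟨hx1, hy1, -, hlead⟩ := leadZ W.valuation hmr le_rfl hZ 1 A.leadingCoeff hv1 hvα _ hlf x y
    hxy h0
  have hx0 : x ≠ 0 := by rintro rfl; simp at hx1
  have hy0 : y ≠ 0 := by rintro rfl; simp at hy1
  have hux : W.valuation x ≠ 0 := (Valuation.ne_zero_iff _).2 hx0
  have hfne : f ≠ 0 := leadingCoeff_ne_zero.1 hf0
  obtain ⟨E, hE⟩ : ∃ E : L, E = aeval x f := ⟨_, rfl⟩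
  obtain ⟨b, hb⟩ : ∃ b : L, b = aeval x B := ⟨_, rfl⟩
  have hE0 : E ≠ 0 := by
    rw [← Valuation.ne_zero_iff W.valuation, hE, aeval_val W hQ x hx1 f hfne]
    exact pow_ne_zero _ hux
  have hb0 : b ≠ 0 := by
    rw [← Valuation.ne_zero_iff W.valuation, hb, aeval_val W hQ x hx1 B hB]
    exact pow_ne_zero _ hux
  have hsq : (y - aeval x A) ^ 2 = E * b ^ 2 := by
    rw [aeval_quad] at h0
    have h2 := congrArg (aeval x) h
    rw [map_sub, map_mul, map_pow, map_pow, ← hE, ← hb] at h2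
    rw [map_neg, map_mul] at h0
    have h3 : aeval x (C 2 : ℤ[X]) = (2 : L) := by
      rw [show (C 2 : ℤ[X]) = 2 from map_ofNat C 2, map_ofNat]
    rw [h3] at h0
    linear_combination h0 + h2
  have hnum0 : y - aeval x A ≠ 0 := by
    intro h2
    rw [h2, zero_pow two_ne_zero] at hsq
    exact mul_ne_zero hE0 (pow_ne_zero _ hb0) hsq.symm
  have ev1 : MvPolynomial.aeval ![x, y] (MvPolynomial.X 1 - px A : MvPolynomial (Fin 2) ℤ) =
      y - aeval x A := by
    rw [map_sub, aeval_px, MvPolynomial.aeval_X]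
    simp
  have ev2 : MvPolynomial.aeval ![x, y] (px B * MvPolynomial.X 0 ^ s : MvPolynomial (Fin 2) ℤ) =
      b * x ^ s := by
    rw [map_mul, aeval_px, map_pow, MvPolynomial.aeval_X, hb]
    simp
  refine ⟨hx1, ?_, ?_, ?_⟩
  · rw [ev1]
    exact hnum0
  · rw [ev2]
    exact mul_ne_zero hb0 (pow_ne_zero _ hx0)
  · rw [ev1, ev2]
    obtain ⟨α, hα⟩ : ∃ α : L, α = (A.leadingCoeff : L) := ⟨_, rfl⟩
    obtain ⟨ℓ, hℓ⟩ : ∃ ℓ : L, ℓ = (f.leadingCoeff : L) := ⟨_, rfl⟩
    have e1 : (((A.leadingCoeff : ℚ) / ((f.leadingCoeff ^ m : ℤ) : ℚ) : ℚ) : L) = α / ℓ ^ m := by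
      rw [hα, hℓ]
      push_cast
      rfl
    rw [← hα] at hlead hvα
    rw [← hℓ] at hvℓ
    rw [e1]
    have hα0 : α ≠ 0 := by
      rintro rfl
      rw [map_zero] at hvα
      exact zero_ne_one hvα
    have hℓ0 : ℓ ≠ 0 := by
      rintro rfl
      rw [map_zero] at hvℓ
      exact zero_ne_one hvℓ
    obtain ⟨t, ht⟩ : ∃ t : L, t = α * x ^ (m * r) / y := ⟨_, rfl⟩
    have hlead' : W.valuation (t - 1) < 1 := by
      have : t = α * x ^ (m * r) / (((1 : ℤ) : L) * y ^ 1) := by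
        rw [ht, Int.cast_one, one_mul, _root_.pow_one]
      rw [this]
      exact hlead
    have hvt : W.valuation t = 1 := by
      have e2 : t = (t - 1) + 1 := by ring
      rw [e2, Valuation.map_add_eq_of_lt_right _ (by rw [map_one]; exact hlead'), map_one]
    have ht0 : t ≠ 0 := by
      rintro rfl
      rw [map_zero] at hvt
      exact zero_ne_one hvt
    obtain ⟨g, hg⟩ : ∃ g : L, g = E / x ^ f.natDegree := ⟨_, rfl⟩
    have hgℓ : W.valuation (g - ℓ) < 1 := by
      rw [hg, hE, hℓ]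
      exact lead_pol W hQ x hx1 f hfne
    have hvg : W.valuation g = 1 := by
      have e2 : g = (g - ℓ) + ℓ := by ring
      rw [e2, Valuation.map_add_eq_of_lt_right _ (by rw [hvℓ]; exact hgℓ), hvℓ]
    have hg0 : g ≠ 0 := by
      rintro rfl
      rw [map_zero] at hvg
      exact zero_ne_one hvg
    have hgm := pow_close W g ℓ hvℓ hgℓ m
    have e3 : y * (b * x ^ s / (y - aeval x A)) ^ (2 * m) = α / (t * g ^ m) := by
      have e4 : (b * x ^ s / (y - aeval x A)) ^ (2 * m) = (x ^ (2 * s) / E) ^ m := by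
        rw [pow_mul]
        congr 1
        rw [div_pow, hsq, mul_pow, ← pow_mul, mul_comm s 2]
        field_simp
      have e5 : x ^ (m * r) * (x ^ (2 * s)) ^ m = (x ^ f.natDegree) ^ m := by
        rw [← pow_mul, ← pow_add, ← pow_mul, hrs]
        congr 1
        ring
      rw [e4, ht, hg, div_pow, div_pow, ← e5]
      have := pow_ne_zero (m * r) hx0
      have := pow_ne_zero m (pow_ne_zero (2 * s) hx0)
      have := pow_ne_zero m hE0
      field_simp
    have e6 : α / (t * g ^ m) - α / ℓ ^ m =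
        -(α * (t * (g ^ m - ℓ ^ m) + ℓ ^ m * (t - 1))) / (t * g ^ m * ℓ ^ m) := by
      have := pow_ne_zero m hg0
      have := pow_ne_zero m hℓ0
      field_simp
      ring
    rw [e3, e6, map_div₀, Valuation.map_neg, map_mul, map_mul, map_mul, map_pow, map_pow, hvα, hvt,
      hvg, hvℓ]
    simp only [one_pow, mul_one, one_mul, div_one]
    apply Valuation.map_add_lt
    · rw [map_mul, hvt, one_mul]
      exact hgm
    · rw [map_mul, map_pow, hvℓ, one_pow, one_mul]
      exact hlead'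

end

end Pool.Agent.X95T
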