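import Pool.Agent.X95T.HK6

set_option autoImplicit false

namespace Pool.Agent.X95T

section

open Polynomial

/-- the uniform bound for torsion classes of even order, `deg u = r` -/
theorem even_uniform (m r d : ℕ) (hm : 2 ≤ m) :
    ∃ K : ℕ, ∀ S : Finset ℕ, ∃ c : ℕ, ∀ (f A B u U V : ℤ[X]) (e b : ℤ),
      f.natDegree = d → Squarefree (f.map (Int.castRingHom ℚ)) → Odd d → B ≠ 0 →
      u.natDegree = r → r < d → A ^ 2 - f * B ^ 2 = C e * u ^ (2 * m) →
      (∀ q : ℕ, q.Prime → q ∣ 2 * m → ∀ (P T : ℚ[X]) (k : ℚ), k ≠ 0 →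
        P ^ 2 - f.map (Int.castRingHom ℚ) * T ^ 2 =
          C k * (u.map (Int.castRingHom ℚ)) ^ (2 * m / q) → T = 0) →
      U * u + V * (C 2 * A) = C b → b * (e * u.leadingCoeff) * f.leadingCoeff ≠ 0 →
      (∀ q : ℕ, q.Prime → (q : ℤ) ∣ b * (e * u.leadingCoeff) * f.leadingCoeff → q ∈ S) →
      ∀ x y : ℤ, y ^ 2 = f.eval x →
        x.natAbs ≤ (c * (1 + 2 * len1 A + e.natAbs * (len1 u) ^ (2 * m))) ^ K := by
  obtain ⟨K, hK⟩ := uniformW (2 * m) (2 * (m * r)) 2 (by omega)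
  refine ⟨K, fun S => ?_⟩
  obtain ⟨c, hc⟩ := hK S
  refine ⟨c, ?_⟩
  intro f A B u U V e b hfd hsq hd hB hur hrd h hex hUV hne hS x y hy
  rw [← hfd] at hd hrd
  have hℓ : f.leadingCoeff ≠ 0 := right_ne_zero_of_mul hne
  have hbel : b * (e * u.leadingCoeff) ≠ 0 := left_ne_zero_of_mul hne
  have he : e ≠ 0 := left_ne_zero_of_mul (right_ne_zero_of_mul hbel)
  have hlc : u.leadingCoeff ≠ 0 := right_ne_zero_of_mul (right_ne_zero_of_mul hbel)
  have hb : b ≠ 0 := left_ne_zero_of_mul hbel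
  obtain ⟨hA, h1, hmr, hlc2⟩ := even_degs f A B u e he hd hB hur h
  have hlf := even_lf f A B u e he hd hB hur h
  have hA0 : A.leadingCoeff ≠ 0 := by
    intro h0
    rw [h0, zero_pow two_ne_zero] at hlc2
    exact mul_ne_zero he (pow_ne_zero _ hlc) hlc2.symm
  have hf1 : 0 < f.natDegree := hd.pos
  have hu0 : u ≠ 0 := leadingCoeff_ne_zero.1 hlc
  have hpoint : MvPolynomial.eval ![x, A.eval x + B.eval x * y]
        (quad (-(C 2 * A)) (C e * u ^ (2 * m))) = 0 := by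
    rw [eval_quad]
    have h1 := congrArg (Polynomial.eval x) h
    simp only [eval_sub, eval_mul, eval_pow, eval_C, eval_neg] at h1 ⊢
    linear_combination -h1 + (B.eval x) ^ 2 * hy
  have hlen : ∑ s ∈ (quad (-(C 2 * A)) (C e * u ^ (2 * m))).support,
      ((quad (-(C 2 * A)) (C e * u ^ (2 * m))).coeff s).natAbs ≤
        1 + 2 * len1 A + e.natAbs * (len1 u) ^ (2 * m) := len_quad A u e (2 * m)
  have hsupp : ∀ s ∈ (quad (-(C 2 * A)) (C e * u ^ (2 * m))).support,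
      s 0 ≤ 2 * (m * r) ∧ s 1 ≤ 2 := by
    intro s hs
    have h3 := suppZ hmr le_rfl 1 A.leadingCoeff _ hlf s hs
    exact ⟨h3.1, by omega⟩
  have hSA : ∀ q : ℕ, q.Prime → (q : ℤ) ∣ A.leadingCoeff → q ∈ S := by
    intro q hq hqA
    have hqZ : Prime (q : ℤ) := Nat.prime_iff_prime_int.1 hq
    have h2 : (q : ℤ) ∣ e * u.leadingCoeff ^ (2 * m) := by
      rw [← hlc2]
      exact dvd_pow hqA two_ne_zero
    apply hS q hq
    rcases hqZ.dvd_or_dvd h2 with h3 | h3
    · exact ((h3.mul_right _).mul_left _).mul_right _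
    · exact (((hqZ.dvd_of_dvd_pow h3).mul_left _).mul_left _).mul_right _
  have hSbe : ∀ q : ℕ, q.Prime → (q : ℤ) ∣ b * e → q ∈ S := by
    intro q hq h1
    apply hS q hq
    have : b * (e * u.leadingCoeff) * f.leadingCoeff =
      b * e * (u.leadingCoeff * f.leadingCoeff) := by ring
    rw [this]
    exact h1.mul_right _
  have hUV' : U * u + (-V) * MvPolynomial.aeval ![X, (0 : ℤ[X])]
      (MvPolynomial.pderiv 1 (quad (-(C 2 * A)) (C e * u ^ (2 * m)))) = C b := by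
    rw [deriv_quad]
    linear_combination hUV
  have hirr : ∀ a : ℤ, a ≠ 0 → Irreducible (MvPolynomial.map (Int.castRingHom ℚ)
      (sub a (2 * m) (quad (-(C 2 * A)) (C e * u ^ (2 * m))))) ∧
      (jx (sub a (2 * m) (quad (-(C 2 * A)) (C e * u ^ (2 * m))))).IsIntegral := by
    intro a ha
    refine ⟨irr_quadN (by omega) f A B u e he hsq (Or.inl hd) hB hf1 hu0 hex h a ha, ?_⟩
    obtain ⟨M, hM, _, hMF⟩ := monicZ (n := 2 * m) (by omega) le_rfl (by norm_num) a ha 1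
      A.leadingCoeff one_ne_zero _ hlf
    apply isIntG _ M hM _ _ hMF
    exact pow_ne_zero _ (mul_ne_zero (by norm_num) (pow_ne_zero _ (by exact_mod_cast ha)))
  rcases Nat.even_or_odd r with hre | hro
  · obtain ⟨δ, hδ⟩ := hre
    have hur2 : u.natDegree = 2 * δ := by omega
    have hmain := hc A.leadingCoeff 1 e b (quad (-(C 2 * A)) (C e * u ^ (2 * m)))
      (MvPolynomial.X 0 ^ δ) 1 u U (-V)
      (mul_ne_zero (mul_ne_zero hA0 one_ne_zero) (mul_ne_zero hb he))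
      (by
        intro q hq hqd
        have hqZ : Prime (q : ℤ) := Nat.prime_iff_prime_int.1 hq
        rcases hqZ.dvd_or_dvd hqd with h1 | h1
        · rw [mul_one] at h1
          exact hSA q hq h1
        · exact hSbe q hq h1)
      hsupp (line_quad _ _) hUV' hirr
      (fun L _ _ W x y hQ hxy h0 => hw_ee f A B u e he hd hB hur2 h hA0 L W x y hQ hxy h0)
      x _ hpoint
    exact (le_max_left _ _).trans (hmain.trans (Nat.pow_le_pow_left
      (Nat.mul_le_mul_left _ hlen) _))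
  · obtain ⟨s, hs⟩ : ∃ s, f.natDegree = r + 2 * s := by
      rw [Nat.odd_iff] at hd hro
      exact ⟨(f.natDegree - r) / 2, by omega⟩
    have hmain := hc A.leadingCoeff (f.leadingCoeff ^ m) e b
      (quad (-(C 2 * A)) (C e * u ^ (2 * m)))
      (MvPolynomial.X 1 - px A) (px B * MvPolynomial.X 0 ^ s) u U (-V)
      (mul_ne_zero (mul_ne_zero hA0 (pow_ne_zero _ hℓ)) (mul_ne_zero hb he))
      (by
        intro q hq hqd
        have hqZ : Prime (q : ℤ) := Nat.prime_iff_prime_int.1 hq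
        rcases hqZ.dvd_or_dvd hqd with h1 | h1
        · rcases hqZ.dvd_or_dvd h1 with h2 | h2
          · exact hSA q hq h2
          · exact hS q hq ((hqZ.dvd_of_dvd_pow h2).mul_left _)
        · exact hSbe q hq h1)
      hsupp (line_quad _ _) hUV' hirr
      (fun L _ _ W x y hQ hxy h0 => hw_eo f A B u e he hd hB hur hs h hA0 hℓ L W x y hQ hxy h0)
      x _ hpoint
    exact (le_max_left _ _).trans (hmain.trans (Nat.pow_le_pow_left
      (Nat.mul_le_mul_left _ hlen) _))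

/-- order four, all degrees of `u` together -/
theorem four_all (d : ℕ) (hd : Odd d) :
    ∃ K : ℕ, ∀ S : Finset ℕ, ∃ c : ℕ, ∀ (f A B u U V : ℤ[X]) (e b : ℤ) (M : ℕ),
      f.natDegree = d → Squarefree (f.map (Int.castRingHom ℚ)) → B ≠ 0 → 2 * u.natDegree < d →
      A ^ 2 - f * B ^ 2 = C e * u ^ 4 → U * u + V * (C 2 * A) = C b →
      b * (e * u.leadingCoeff) * f.leadingCoeff ≠ 0 →
      (∀ q : ℕ, q.Prime → (q : ℤ) ∣ b * (e * u.leadingCoeff) * f.leadingCoeff → q ∈ S) →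
      (∀ i, (A.coeff i).natAbs ≤ M) → (∀ i, (u.coeff i).natAbs ≤ M) → e.natAbs ≤ M →
      ∀ x y : ℤ, y ^ 2 = f.eval x → x.natAbs ≤ (c * M) ^ K := by
  choose K hK using fun r : Fin d => even_uniform 2 r d le_rfl
  refine ⟨5 * ∑ r, K r, fun S => ?_⟩
  choose c hc using fun r => hK r S
  set X₀ : ℕ := 1 + 2 * (4 * d + 1) + d ^ 4 with hX₀
  refine ⟨(∑ r, c r + 1) * X₀, ?_⟩
  intro f A B u U V e b M hfd hsq hB hud h hUV hne hS hA hu heM x y hy
  have hbel : b * (e * u.leadingCoeff) ≠ 0 := left_ne_zero_of_mul hne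
  have he : e ≠ 0 := left_ne_zero_of_mul (right_ne_zero_of_mul hbel)
  have hlc : u.leadingCoeff ≠ 0 := right_ne_zero_of_mul (right_ne_zero_of_mul hbel)
  have hu0 : u ≠ 0 := leadingCoeff_ne_zero.1 hlc
  have hM1 : 1 ≤ M := le_trans (Int.natAbs_pos.2 he) heM
  obtain ⟨hAd, -, hmr, -⟩ := even_degs (m := 2) f A B u e he (by rw [hfd]; exact hd) hB rfl h
  have hd1 : 1 ≤ d := hd.pos
  have hud' : u.natDegree < d := by omega
  have hinj : Function.Injective (Int.castRingHom ℚ) := Int.cast_injective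
  have hlA : len1 A ≤ (4 * d + 1) * M := len1_le A _ _ (by omega) hA
  have hlu : len1 u ≤ d * M := by
    have := len1_le u (d - 1) M (by omega) hu
    rwa [Nat.sub_add_cancel hd1] at this
  have hbase : 1 + 2 * len1 A + e.natAbs * (len1 u) ^ (2 * 2) ≤ X₀ * M ^ 5 := by
    have h1 : 1 ≤ M ^ 5 := Nat.one_le_pow _ _ hM1
    have h2 : M ≤ M ^ 5 := Nat.le_self_pow (by omega) _
    have h3 : e.natAbs * (len1 u) ^ (2 * 2) ≤ d ^ 4 * M ^ 5 := by
      calc _ ≤ M * (d * M) ^ (2 * 2) := Nat.mul_le_mul heM (Nat.pow_le_pow_left hlu _)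
        _ = _ := by ring
    calc _ ≤ M ^ 5 + 2 * ((4 * d + 1) * M ^ 5) + d ^ 4 * M ^ 5 := by
          refine Nat.add_le_add (Nat.add_le_add h1 ?_) h3
          exact Nat.mul_le_mul_left _ (hlA.trans (Nat.mul_le_mul_left _ h2))
      _ = _ := by rw [hX₀]; ring
  have hex : ∀ q : ℕ, q.Prime → q ∣ 2 * 2 → ∀ (P T : ℚ[X]) (k : ℚ), k ≠ 0 →
        P ^ 2 - f.map (Int.castRingHom ℚ) * T ^ 2 =
          C k * (u.map (Int.castRingHom ℚ)) ^ (2 * 2 / q) → T = 0 := by
    intro q hq hq4 P T k hk hPT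
    have hq2 : q = 2 := by
      have h3 : q ∣ 2 ^ 2 := by simpa using hq4
      exact (Nat.prime_dvd_prime_iff_eq hq Nat.prime_two).1 (hq.dvd_of_dvd_pow h3)
    by_contra hT
    have hNC : NC (f.map (Int.castRingHom ℚ)) := nc_int f (Or.inl (by rw [hfd]; exact hd))
    have hf0 : f.map (Int.castRingHom ℚ) ≠ 0 := by
      intro h0
      rw [Polynomial.map_eq_zero_iff hinj] at h0
      rw [h0, natDegree_zero] at hfd
      omega
    have h3 := nc_deg _ hNC hf0 P T hT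
    rw [hPT, natDegree_C_mul hk, natDegree_pow, natDegree_map_eq_of_injective hinj,
      natDegree_map_eq_of_injective hinj, hq2, hfd] at h3
    norm_num at h3
    omega
  have hmain := hc ⟨u.natDegree, hud'⟩ f A B u U V e b hfd hsq hd hB rfl hud' h hex hUV hne hS
    x y hy
  refine hmain.trans ?_
  have hX1 : 1 ≤ X₀ := by omega
  have hc1 : c ⟨u.natDegree, hud'⟩ ≤ ∑ r, c r + 1 :=
    (Finset.single_le_sum (f := c) (fun _ _ => Nat.zero_le _) (Finset.mem_univ _)).trans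
      (Nat.le_succ _)
  have hK1 : K ⟨u.natDegree, hud'⟩ ≤ ∑ r, K r :=
    Finset.single_le_sum (f := K) (fun _ _ => Nat.zero_le _) (Finset.mem_univ _)
  have hb1 : 1 ≤ (∑ r, c r + 1) * X₀ * M ^ 5 := by
    have h1 : 1 ≤ M ^ 5 := Nat.one_le_pow _ _ hM1
    exact Nat.mul_pos (Nat.mul_pos (Nat.succ_pos _) hX1) h1
  calc (c ⟨u.natDegree, hud'⟩ * (1 + 2 * len1 A + e.natAbs * (len1 u) ^ (2 * 2))) ^
        K ⟨u.natDegree, hud'⟩ ≤ ((∑ r, c r + 1) * X₀ * M ^ 5) ^ K ⟨u.natDegree, hud'⟩ := by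
        apply Nat.pow_le_pow_left
        rw [mul_assoc]
        exact Nat.mul_le_mul hc1 hbase
    _ ≤ ((∑ r, c r + 1) * X₀ * M ^ 5) ^ ∑ r, K r := Nat.pow_le_pow_right hb1 hK1
    _ ≤ (((∑ r, c r + 1) * X₀ * M) ^ 5) ^ ∑ r, K r := by
        apply Nat.pow_le_pow_left
        rw [mul_pow]
        apply Nat.mul_le_mul_right
        exact Nat.le_self_pow (by omega) _
    _ = _ := by rw [← pow_mul]

end

end Pool.Agent.X95T
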