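import Pool.Agent.X95T.HK7
import Pool.Agent.X95T.HG3

set_option autoImplicit false

namespace Pool.Agent.X95T

open Polynomial

def q4a0 : List ℤ := [40, 16, 1]
def q4b0 : List ℤ := [8, 1]
def q4a4 : List ℤ := [-832, 1616, 203]
def q4b4 : List ℤ := [208, 194]
def Q4 : List ℤ := [16, 16, 1]
def Q6 : List ℤ := [64, -120, -24, -1]

lemma idq0 (s t : ℝ) : fo q4a0 s t * fo Q4 s t + fo q4b0 s t * fo Q6 s t = 1152 * t ^ 4 := by
  simp only [fo, q4a0, q4b0, Q4, Q6, List.length_cons, List.length_nil, Finset.sum_range_succ,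
    Finset.sum_range_zero, List.getD_cons_succ, List.getD_cons_zero]
  norm_num
  ring

lemma idq4 (s t : ℝ) : fo q4a4 s t * fo Q4 s t + fo q4b4 s t * fo Q6 s t = 9 * s ^ 4 := by
  simp only [fo, q4a4, q4b4, Q4, Q6, List.length_cons, List.length_nil, Finset.sum_range_succ,
    Finset.sum_range_zero, List.getD_cons_succ, List.getD_cons_zero]
  norm_num
  ring

/-- the parameters of a curve with a point of order four are bounded -/
lemma par4 (s t m H : ℝ) (hm : m = max |s| |t|) (hm1 : 1 ≤ m) (h4 : |fo Q4 s t| ≤ 48 * H)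
    (h6 : |fo Q6 s t| ≤ 864 * H) : m ^ 2 ≤ 52731 * H := by
  have hs : |s| ≤ m := hm ▸ le_max_left _ _
  have ht : |t| ≤ m := hm ▸ le_max_right _ _
  have hH : 0 ≤ H := by
    have := (abs_nonneg _).trans h4
    linarith
  have gen : ∀ (al be : List ℤ) (z k : ℝ), 9 ≤ k → al.length = 3 → be.length = 2 →
      fol al ≤ 2651 → fol be ≤ 402 →
      fo al s t * fo Q4 s t + fo be s t * fo Q6 s t = k * z ^ 4 →
      9 * |z| ^ 4 ≤ 474576 * m ^ 2 * H := by
    intro al be z k hk ha hb hla hlb hid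
    have h1 := fo_le al s t m hs ht
    have h2 := fo_le be s t m hs ht
    rw [ha] at h1
    rw [hb] at h2
    norm_num at h1 h2
    have hla' : (fol al : ℝ) ≤ 2651 := by exact_mod_cast hla
    have hlb' : (fol be : ℝ) ≤ 402 := by exact_mod_cast hlb
    have h1' : |fo al s t| ≤ 2651 * m ^ 2 := by
      refine h1.trans ?_
      apply mul_le_mul_of_nonneg_right hla' (by positivity)
    have h2' : |fo be s t| ≤ 402 * m := by
      refine h2.trans ?_
      apply mul_le_mul_of_nonneg_right hlb' (by positivity)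
    have h3 : |fo al s t * fo Q4 s t| ≤ (2651 * m ^ 2) * (48 * H) := by
      rw [abs_mul]
      exact mul_le_mul h1' h4 (abs_nonneg _) (by positivity)
    have h5 : |fo be s t * fo Q6 s t| ≤ (402 * m) * (864 * H) := by
      rw [abs_mul]
      exact mul_le_mul h2' h6 (abs_nonneg _) (by positivity)
    have h7 : m ≤ m ^ 2 := by nlinarith
    have h8 : (402 * m) * (864 * H) ≤ (402 * m ^ 2) * (864 * H) := by
      apply mul_le_mul_of_nonneg_right _ (by positivity)
      linarith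
    have h9 : |k * z ^ 4| = k * |z| ^ 4 := by
      rw [abs_mul, abs_pow, abs_of_nonneg (by linarith : (0 : ℝ) ≤ k)]
    have h10 : 9 * |z| ^ 4 ≤ k * |z| ^ 4 := mul_le_mul_of_nonneg_right hk (by positivity)
    refine h10.trans ?_
    rw [← h9, ← hid]
    refine (abs_add_le _ _).trans ?_
    linarith
  have hmm : 9 * m ^ 4 ≤ 474576 * m ^ 2 * H := by
    rcases le_total |s| |t| with h | h
    · rw [max_eq_right h] at hm
      have := gen q4a0 q4b0 t 1152 (by norm_num) rfl rfl (by decide) (by decide) (idq0 s t)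
      rwa [← hm] at this
    · rw [max_eq_left h] at hm
      have := gen q4a4 q4b4 s 9 le_rfl rfl rfl (by decide) (by decide) (idq4 s t)
      rwa [← hm] at this
  have h5 : 0 < m ^ 2 := by positivity
  have h6 : m ^ 2 * (9 * m ^ 2) ≤ m ^ 2 * (474576 * H) := by
    calc _ = 9 * m ^ 4 := by ring
      _ ≤ _ := hmm
      _ = _ := by ring
  have h7 := le_of_mul_le_mul_left h6 h5
  linarith

/-- the bound for the curves with a point of order four -/
theorem four : ∃ M : ℕ, ∀ S : Finset ℕ, ∃ K : ℕ, ∀ A B u v l u' : ℤ,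
    4 * A ^ 3 + 27 * B ^ 2 ≠ 0 → v ^ 2 = u ^ 3 + A * u + B → v ≠ 0 →
    2 * v * l = 3 * u ^ 2 + A → l ^ 2 = 2 * u + u' → v + l * (u' - u) = 0 →
    (∀ q : ℕ, q.Prime → (q : ℤ) ∣ v → q ∈ S) →
    ∀ x y : ℤ, y ^ 2 = x ^ 3 + A * x + B →
      max x.natAbs y.natAbs ≤ K * (max A.natAbs B.natAbs) ^ M := by
  obtain ⟨K₀, hK₀⟩ := four_all 3 (by decide)
  refine ⟨6 * K₀ + 1, fun S => ?_⟩
  obtain ⟨c, hc⟩ := hK₀ (insert 2 S)
  refine ⟨3 * ((c + 1) * (10 * 52731 ^ 2)) ^ (3 * K₀), ?_⟩
  intro A B u v l u' hD hT hv0 h1 h2 h3 hS x y hE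
  obtain ⟨H, hHd⟩ : ∃ H, H = max A.natAbs B.natAbs := ⟨_, rfl⟩
  rw [← hHd]
  have hAH : A.natAbs ≤ H := hHd ▸ le_max_left _ _
  have hBH : B.natAbs ≤ H := hHd ▸ le_max_right _ _
  have hH1 : 1 ≤ H := by
    by_contra h0
    have hA0 : A = 0 := by omega
    have hB0 : B = 0 := by omega
    rw [hA0, hB0] at hD
    norm_num at hD
  -- the parameters
  obtain ⟨t, ht⟩ : ∃ t, t = u' - u := ⟨_, rfl⟩
  have hvt : v = -(l * t) := by rw [ht]; linear_combination h3
  have hl0 : l ≠ 0 := by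
    rintro rfl
    apply hv0
    rw [hvt]
    ring
  have ht0 : t ≠ 0 := by
    rintro rfl
    apply hv0
    rw [hvt]
    ring
  have h3u : 3 * u = l ^ 2 - t := by rw [ht]; linear_combination -h2
  obtain ⟨s, hs⟩ : ∃ s, s = 4 * l ^ 2 := ⟨_, rfl⟩
  have hA : 48 * A = -(16 * t ^ 2 + 16 * s * t + s ^ 2) := by
    have e1 : A = 2 * v * l - 3 * u ^ 2 := by linear_combination -h1
    have e2 : 48 * A = 96 * v * l - 16 * (3 * u) ^ 2 := by rw [e1]; ring
    rw [e2, h3u, hvt, hs]
    ring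
  have hB : 864 * B = -(64 * t ^ 3 - 120 * s * t ^ 2 - 24 * s ^ 2 * t - s ^ 3) := by
    have e1 : B = v ^ 2 - u ^ 3 - A * u := by linear_combination -hT
    have e2 : 864 * B = 864 * v ^ 2 - 32 * (3 * u) ^ 3 - 6 * (48 * A) * (3 * u) := by
      rw [e1]; ring
    rw [e2, h3u, hA, hvt, hs]
    ring
  have hs0 : s ≠ 0 := by
    rw [hs]
    exact mul_ne_zero (by norm_num) (pow_ne_zero _ hl0)
  have hm2 : ∀ m : ℕ, m = max s.natAbs t.natAbs → m ^ 2 ≤ 52731 * H := by
    intro m hm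
    have hmR : (m : ℝ) = max |(s : ℝ)| |(t : ℝ)| := by
      rw [hm]
      push_cast
      rw [Nat.cast_natAbs, Nat.cast_natAbs]
      push_cast
      rfl
    have hm1 : 1 ≤ m := by
      rw [hm]
      exact le_max_of_le_left (Int.natAbs_pos.2 hs0)
    have hcast : ∀ z : ℤ, z.natAbs ≤ H → |(z : ℝ)| ≤ H := by
      intro z hz
      rw [← Int.cast_abs, ← Int.natCast_natAbs]
      exact_mod_cast hz
    have hAR := hcast A hAH
    have hBR := hcast B hBH
    have e1 : fo Q4 s t = -(48 * A) := by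
      have h7 : (48 * A : ℝ) = -(16 * t ^ 2 + 16 * s * t + s ^ 2) := by exact_mod_cast hA
      rw [h7]
      simp only [fo, Q4, List.length_cons, List.length_nil, Finset.sum_range_succ,
        Finset.sum_range_zero, List.getD_cons_succ, List.getD_cons_zero]
      norm_num
      try ring
    have e2 : fo Q6 s t = -(864 * B) := by
      have h7 : (864 * B : ℝ) = -(64 * t ^ 3 - 120 * s * t ^ 2 - 24 * s ^ 2 * t - s ^ 3) := by
        exact_mod_cast hB
      rw [h7]
      simp only [fo, Q6, List.length_cons, List.length_nil, Finset.sum_range_succ,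
        Finset.sum_range_zero, List.getD_cons_succ, List.getD_cons_zero]
      norm_num
      try ring
    have := par4 s t m H hmR (by exact_mod_cast hm1)
      (by rw [e1, abs_neg, abs_mul]; norm_num; exact hAR)
      (by rw [e2, abs_neg, abs_mul]; norm_num; exact hBR)
    exact_mod_cast this
  obtain ⟨m, hm⟩ : ∃ m, m = max s.natAbs t.natAbs := ⟨_, rfl⟩
  have hm2 := hm2 m hm
  have hsm : s.natAbs ≤ m := hm ▸ le_max_left _ _
  have htm : t.natAbs ≤ m := hm ▸ le_max_right _ _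
  have hm1 : 1 ≤ m := (Int.natAbs_pos.2 hs0).trans_le hsm
  have hl2m : (l ^ 2).natAbs ≤ m := by
    have e1 : s.natAbs = 4 * (l ^ 2).natAbs := by rw [hs, Int.natAbs_mul]; rfl
    omega
  have hlm : l.natAbs ≤ m := by
    refine le_trans ?_ hl2m
    rw [Int.natAbs_pow]
    exact Nat.le_self_pow (by norm_num) _
  have hvm : v.natAbs ≤ m ^ 2 := by
    rw [hvt, Int.natAbs_neg, Int.natAbs_mul, pow_two]
    exact Nat.mul_le_mul hlm htm
  have hum : u.natAbs ≤ m := by
    have e1 : (3 * u).natAbs ≤ 2 * m := by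
      rw [h3u]
      refine (Int.natAbs_sub_le _ _).trans ?_
      omega
    omega
  -- the torsion function
  set Ap : ℤ[X] := C 1 * X ^ 2 + C (2 * l ^ 2 - 2 * u) * X +
    C (u ^ 2 - 2 * l ^ 2 * u + 2 * l * v) with hAp
  set up : ℤ[X] := X - C u with hup
  have hupd : up.natDegree = 1 := natDegree_X_sub_C u
  have huplc : up.leadingCoeff = 1 := leadingCoeff_X_sub_C u
  have hflc : (wcub A B).leadingCoeff = 1 := by
    rw [leadingCoeff, wcub_deg, wcub, coeff_add, coeff_add, coeff_X_pow, coeff_C_mul, coeff_X,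
      coeff_C]
    simp
  have hnorm : Ap ^ 2 - wcub A B * (C (-(2 * l))) ^ 2 = C 1 * up ^ 4 := by
    have hAe : A = 2 * v * l - 3 * u ^ 2 := by linear_combination -h1
    have hBe : B = v ^ 2 - u ^ 3 - (2 * v * l - 3 * u ^ 2) * u := by
      rw [← hAe]; linear_combination -hT
    have hl2 : (C l : ℤ[X]) ^ 2 = 3 * C u + C t := by
      have e1 : l ^ 2 = 3 * u + t := by linear_combination -h3u
      rw [← C_pow, e1]
      simp only [C_add, C_mul, map_ofNat]
    have hv2 : (C v : ℤ[X]) = -(C l * C t) := by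
      rw [hvt]
      simp only [C_neg, C_mul]
    rw [hAp, hup, wcub, hAe, hBe]
    simp only [C_add, C_mul, C_sub, C_pow, C_neg, map_ofNat, C_1]
    set z := (X : ℤ[X]) - C u with hz
    have hX : (X : ℤ[X]) = z + C u := by rw [hz]; ring
    rw [hX]
    linear_combination 4 * C l ^ 2 * z ^ 2 * hl2 + 4 * C l * z ^ 2 * hv2
  have hUV : (-(2 * up + C (4 * l ^ 2))) * up + 1 * (C 2 * Ap) = C (4 * l * v) := by
    rw [hAp, hup]
    simp only [C_add, C_mul, C_sub, C_pow, C_neg, map_ofNat, C_1]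
    ring
  have hb : 4 * l * v * (1 * up.leadingCoeff) * (wcub A B).leadingCoeff = 4 * l * v := by
    rw [huplc, hflc]
    ring
  have hmain := hc (wcub A B) Ap (C (-(2 * l))) up _ 1 1 (4 * l * v) (5 * m ^ 3 + 5 * m)
    (wcub_deg A B) (wcub_sq A B hD)
    (by
      rw [Ne, C_eq_zero]
      omega)
    (by rw [hupd]; norm_num) hnorm hUV
    (by
      rw [hb]
      exact mul_ne_zero (mul_ne_zero (by norm_num) hl0) hv0)
    (by
      intro q hq hqd
      rw [hb] at hqd
      have hqZ : Prime (q : ℤ) := Nat.prime_iff_prime_int.1 hq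
      rcases hqZ.dvd_or_dvd hqd with h7 | h7
      · rcases hqZ.dvd_or_dvd h7 with h8 | h8
        · have h9 : (q : ℤ) ∣ 2 ^ 2 := by simpa using h8
          have h10 : q ∣ 2 := by exact_mod_cast hqZ.dvd_of_dvd_pow h9
          rw [(Nat.prime_dvd_prime_iff_eq hq Nat.prime_two).1 h10]
          exact Finset.mem_insert_self _ _
        · apply Finset.mem_insert_of_mem
          apply hS q hq
          rw [hvt, dvd_neg]
          exact h8.mul_right _
      · exact Finset.mem_insert_of_mem (hS q hq h7))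
    (by
      have hm3 : m ≤ m ^ 3 := Nat.le_self_pow (by norm_num) _
      have hm23 : m ^ 2 ≤ m ^ 3 := Nat.pow_le_pow_right hm1 (by norm_num)
      apply quad_coeff
      · simp only [Int.natAbs_one]
        omega
      · have e1 := Int.natAbs_sub_le (2 * l ^ 2) (2 * u)
        have e2 : (2 * l ^ 2).natAbs = 2 * (l ^ 2).natAbs := by rw [Int.natAbs_mul]; rfl
        have e3 : (2 * u).natAbs = 2 * u.natAbs := by rw [Int.natAbs_mul]; rfl
        omega
      · have e1 := Int.natAbs_add_le (u ^ 2 - 2 * l ^ 2 * u) (2 * l * v)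
        have e2 := Int.natAbs_sub_le (u ^ 2) (2 * l ^ 2 * u)
        have e3 : (u ^ 2).natAbs ≤ m ^ 2 := by
          rw [Int.natAbs_pow]; exact Nat.pow_le_pow_left hum _
        have e4 : (2 * l ^ 2 * u).natAbs ≤ 2 * m ^ 2 := by
          rw [Int.natAbs_mul, Int.natAbs_mul]
          calc _ ≤ 2 * m * m := Nat.mul_le_mul (Nat.mul_le_mul_left _ hl2m) hum
            _ = _ := by ring
        have e5 : (2 * l * v).natAbs ≤ 2 * m ^ 3 := by
          rw [Int.natAbs_mul, Int.natAbs_mul]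
          calc _ ≤ 2 * m * m ^ 2 := Nat.mul_le_mul (Nat.mul_le_mul_left _ hlm) hvm
            _ = _ := by ring
        omega)
    (lin_coeff u _ (by omega) (by omega))
    (by
      norm_num
      omega)
    x y (by rw [wcub_eval]; exact hE)
  have hn4 : 5 * m ^ 3 + 5 * m ≤ 10 * (52731 ^ 2 * H ^ 2) := by
    have h7 : m ^ 4 ≤ 52731 ^ 2 * H ^ 2 := by
      calc m ^ 4 = (m ^ 2) ^ 2 := by ring
        _ ≤ (52731 * H) ^ 2 := Nat.pow_le_pow_left hm2 _
        _ = _ := by rw [mul_pow]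
    have h8 : m ^ 3 ≤ m ^ 4 := Nat.pow_le_pow_right hm1 (by norm_num)
    have h9 : m ≤ m ^ 4 := Nat.le_self_pow (by norm_num) _
    omega
  obtain ⟨Z, hZ⟩ : ∃ Z, Z = (c + 1) * (10 * 52731 ^ 2) := ⟨_, rfl⟩
  have hZ1 : 1 ≤ Z := by rw [hZ]; omega
  have hH3 : 1 ≤ H ^ 2 := Nat.one_le_pow _ _ hH1
  have hXb : x.natAbs ≤ (Z * H ^ 2) ^ K₀ := by
    refine hmain.trans (Nat.pow_le_pow_left ?_ _)
    calc c * (5 * m ^ 3 + 5 * m) ≤ (c + 1) * (10 * (52731 ^ 2 * H ^ 2)) :=
          Nat.mul_le_mul (Nat.le_succ _) hn4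
      _ = _ := by rw [hZ]; ring
  have hfin := two_coord hAH hBH hH1 (Nat.one_le_pow _ _ (Nat.mul_pos hZ1 hH3)) hXb hE
  refine hfin.trans (le_of_eq ?_)
  rw [← hZ]
  ring

end Pool.Agent.X95T
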