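import Pool.Agent.X95T.U

set_option autoImplicit false

open IntermediateField

namespace Pool.Agent.X95T

open Pool.Agent.Results.MP_821da1_nt.RepulsionAllCurves (CoordRing AtInfinity OnePlace)

/-- the degree of an irrational real root of odd order -/
lemma deg_odd {n : ℕ} (hn : Odd n) (c : ℤ) (θ : ℝ) (hθ : θ ^ n = c)
    (hq : ∀ q : ℚ, (q : ℝ) ≠ θ) : 3 ≤ Module.finrank ℚ ℚ⟮θ⟯ := by
  have hmonic : (Polynomial.X ^ n - Polynomial.C (c : ℚ) : Polynomial ℚ).Monic :=
    Polynomial.monic_X_pow_sub_C _ hn.pos.ne'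
  have hroot : Polynomial.aeval θ (Polynomial.X ^ n - Polynomial.C (c : ℚ) : Polynomial ℚ) = 0 := by
    simp [hθ]
  have hint : IsIntegral ℚ θ := ⟨_, hmonic, by rw [← Polynomial.aeval_def]; exact hroot⟩
  rw [IntermediateField.adjoin.finrank hint]
  have hpos := minpoly.natDegree_pos hint
  have h1 : (minpoly ℚ θ).natDegree ≠ 1 := by
    intro h
    obtain ⟨q, hq'⟩ := minpoly.natDegree_eq_one_iff.1 h
    exact hq q (by rw [← hq']; simp)
  have h2 : (minpoly ℚ θ).natDegree ≠ 2 := by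
    intro h
    have hm := minpoly.monic hint
    have h0 := minpoly.aeval ℚ θ
    have hdvd := minpoly.dvd ℚ θ hroot
    have hlc : (minpoly ℚ θ).coeff 2 = 1 := by
      have h3 := hm.leadingCoeff
      rwa [Polynomial.leadingCoeff, h] at h3
    have hev : ∀ t : ℝ, Polynomial.aeval t (minpoly ℚ θ) =
        ((minpoly ℚ θ).coeff 0 : ℝ) + ((minpoly ℚ θ).coeff 1 : ℝ) * t + t ^ 2 := by
      intro t
      rw [Polynomial.aeval_eq_sum_range, h, Finset.sum_range_succ, Finset.sum_range_succ,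
        Finset.sum_range_one, hlc]
      simp [Algebra.smul_def]
    obtain ⟨θ', hθ'⟩ : ∃ θ' : ℝ, θ' = -((minpoly ℚ θ).coeff 1 : ℝ) - θ := ⟨_, rfl⟩
    have h4 : Polynomial.aeval θ' (minpoly ℚ θ) = 0 := by
      rw [hev] at h0 ⊢
      rw [hθ']
      linear_combination h0
    have h5 : Polynomial.aeval θ' (Polynomial.X ^ n - Polynomial.C (c : ℚ) : Polynomial ℚ) = 0 := by
      obtain ⟨w, hw⟩ := hdvd
      rw [hw, map_mul, h4, zero_mul]
    have h6 : θ' ^ n = θ ^ n := by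
      rw [hθ]
      have h7 : θ' ^ n - (c : ℝ) = 0 := by simpa using h5
      linarith
    have h7 : θ' = θ := hn.strictMono_pow.injective h6
    apply hq (-(minpoly ℚ θ).coeff 1 / 2)
    rw [hθ'] at h7
    push_cast
    linarith
  omega

/-- If the curve `F (x, a z ^ n) = 0` has only one place at infinity, its residue field contains an
irrational real `n`-th root of `γ a ^ k`. -/
theorem keyG {n k δ : ℕ} (hn : 2 ≤ n) (hk : 1 ≤ k) (hδ : 1 ≤ δ) (hkn : Nat.Coprime k n)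
    (a : ℤ) (ha : a ≠ 0) (γ : ℤ) (hγ : γ ≠ 0) (F : MvPolynomial (Fin 2) ℤ)
    (hF : ∀ s ∈ (F - MvPolynomial.C γ * MvPolynomial.X 1 ^ k +
      MvPolynomial.X 0 ^ (n * δ)).support, k * s 0 + (n * δ) * s 1 < (n * δ) * k)
    (hirr : Irreducible (MvPolynomial.map (Int.castRingHom ℚ) (sub a n F)))
    (g : Polynomial ℚ) (hG : OnePlace (sub a n F) g) (η : ℝ) (hη : Polynomial.aeval η g = 0) :
    ∃ θ : ℝ, θ ^ n = γ * (a : ℝ) ^ k ∧ θ ∈ ℚ⟮η⟯ ∧ ∀ q : ℚ, (q : ℝ) ≠ θ := by
  obtain ⟨hgm, hgi, L, fL, aL, frL, A, hA, ⟨e⟩⟩ := hG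
  have hprime : (Ideal.span {MvPolynomial.map (Int.castRingHom ℚ) (sub a n F)}).IsPrime :=
    (Ideal.span_singleton_prime hirr.ne_zero).2 hirr.prime
  have hdom : IsDomain (CoordRing (sub a n F)) := Ideal.Quotient.isDomain _
  obtain ⟨ι, hι⟩ : ∃ ι : CoordRing (sub a n F) →+* L, ι = algebraMap _ L := ⟨_, rfl⟩
  have hc0 : CharZero L := charZero_of_injective_ringHom
    (f := ι.comp (algebraMap ℚ (CoordRing (sub a n F)))) (RingHom.injective _)
  have hcast : ∀ q : ℚ, ι (algebraMap ℚ (CoordRing (sub a n F)) q) = (q : L) := fun q =>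
    eq_ratCast (ι.comp (algebraMap ℚ (CoordRing (sub a n F)))) q
  obtain ⟨x, hx⟩ : ∃ x : L, x = ι (Ideal.Quotient.mk _ (MvPolynomial.X 0)) := ⟨_, rfl⟩
  obtain ⟨z, hz⟩ : ∃ z : L, z = ι (Ideal.Quotient.mk _ (MvPolynomial.X 1)) := ⟨_, rfl⟩
  have hAI : AtInfinity (sub a n F) L A := (hA A).2 rfl
  have hQ : ∀ q : ℚ, (q : L) ∈ A := fun q => by
    rw [← hcast, hι]
    exact hAI.1 q
  -- the equation
  have hG0 : ι (Ideal.Quotient.mk _ (MvPolynomial.map (Int.castRingHom ℚ) (sub a n F))) = 0 := by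
    rw [Ideal.Quotient.eq_zero_iff_mem.2 (Ideal.mem_span_singleton_self _), map_zero]
  have hF0 : MvPolynomial.aeval ![x, (a : L) * z ^ n] F = 0 := by
    refine (aeval_sub a n F x z).symm.trans ?_
    rw [hx, hz]
    exact (hom_map (ι.comp (Ideal.Quotient.mk _)) (sub a n F)).symm.trans hG0
  obtain ⟨y, hy⟩ : ∃ y : L, y = (a : L) * z ^ n := ⟨_, rfl⟩
  rw [← hy] at hF0
  have hvI : ∀ c : ℤ, c ≠ 0 → A.valuation (c : L) = 1 := by
    intro c hc
    have h1 : ((c : ℚ) : L) = (c : L) := by simp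
    rw [← h1]
    exact val_rat hQ (by exact_mod_cast hc)
  have hva : A.valuation (a : L) = 1 := hvI a ha
  have hvγ : A.valuation (γ : L) = 1 := hvI γ hγ
  have hZ : ∀ c : ℤ, A.valuation (c : L) ≤ 1 := by
    intro c
    have : ((c : ℚ) : L) = (c : L) := by simp
    rw [← this]
    exact (A.valuation_le_one_iff _).2 (hQ _)
  have hvy : A.valuation y = A.valuation z ^ n := by rw [hy, map_mul, hva, one_mul, map_pow]
  have hN : 1 ≤ n * δ := Nat.mul_pos (by omega) hδ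
  have hxy : 1 < A.valuation x ∨ 1 < A.valuation y := by
    obtain ⟨i, hi⟩ := hAI.2
    rw [← hι] at hi
    fin_cases i
    · left
      rw [← not_le, A.valuation_le_one_iff, hx]
      exact hi
    · right
      rw [hvy]
      apply one_lt_pow₀ _ (by omega)
      rw [← not_le, A.valuation_le_one_iff, hz]
      exact hi
  obtain ⟨hvx1, hvy1⟩ := bothG A.valuation hN hk hZ γ hvγ F hF x y hxy hF0
  have hlead := leadG A.valuation hZ γ hvγ F hF x y hvx1 hvy1 hF0
  have hx0 : x ≠ 0 := by rintro rfl; simp at hvx1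
  have hy0 : y ≠ 0 := by rintro rfl; simp at hvy1
  have hz0 : z ≠ 0 := by
    rintro rfl
    rw [hvy, map_zero, zero_pow (by omega)] at hvy1
    exact absurd hvy1 (not_lt.2 zero_le)
  have haL0 : (a : L) ≠ 0 := by exact_mod_cast ha
  have hγL0 : (γ : L) ≠ 0 := by exact_mod_cast hγ
  obtain ⟨h, hh⟩ : ∃ h : L, h = x ^ δ / z ^ k := ⟨_, rfl⟩
  have hvc : A.valuation ((γ : L) * (a : L) ^ k) = 1 := by
    rw [map_mul, map_pow, hva, one_pow, hvγ, one_mul]
  have hhn : h ^ n - γ * (a : L) ^ k =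
      (γ * (a : L) ^ k) * (x ^ (n * δ) / (γ * y ^ k) - 1) := by
    have e0 : h ^ n = x ^ (n * δ) / z ^ (n * k) := by
      rw [hh, div_pow, ← pow_mul, ← pow_mul, mul_comm δ n, mul_comm k n]
    have e1 : y ^ k = (a : L) ^ k * z ^ (n * k) := by
      rw [hy, mul_pow, ← pow_mul]
    rw [e0, e1]
    have := pow_ne_zero k haL0
    have := pow_ne_zero (n * k) hz0
    field_simp
  have hvhn : A.valuation (h ^ n - γ * (a : L) ^ k) < 1 := by
    rw [hhn, map_mul, hvc, one_mul]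
    exact hlead
  have hvh : A.valuation h = 1 := by
    have h1 : A.valuation (h ^ n) = 1 := by
      have h2 : h ^ n = (h ^ n - γ * (a : L) ^ k) + γ * (a : L) ^ k := by ring
      rw [h2, Valuation.map_add_eq_of_lt_right _ (by rw [hvc]; exact hvhn), hvc]
    rw [map_pow] at h1
    exact pow_one (by omega) h1
  have hhA : h ∈ A := (A.valuation_le_one_iff _).1 hvh.le
  obtain ⟨hA1, hhA1⟩ : ∃ t : A, t = ⟨h, hhA⟩ := ⟨_, rfl⟩
  have hres : IsLocalRing.residue A hA1 ^ n = ((γ : ℤ) : IsLocalRing.ResidueField A) *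
      ((a : ℤ) : IsLocalRing.ResidueField A) ^ k := by
    have h1 : IsLocalRing.residue A (hA1 ^ n - (γ : A) * (a : A) ^ k) = 0 := by
      rw [IsLocalRing.residue_eq_zero_iff, A.valuation_lt_one_iff, hhA1]
      push_cast
      exact hvhn
    rw [map_sub, map_pow, map_mul, map_pow, map_intCast, map_intCast, sub_eq_zero] at h1
    exact h1
  obtain ⟨φ, hφ⟩ : ∃ φ : AdjoinRoot g →+* ℝ, φ = AdjoinRoot.lift (algebraMap ℚ ℝ) η
      (by rw [← Polynomial.aeval_def]; exact hη) := ⟨_, rfl⟩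
  obtain ⟨Φ, hΦ⟩ : ∃ Φ : IsLocalRing.ResidueField A →+* ℝ, Φ = φ.comp e.toRingHom := ⟨_, rfl⟩
  have hθn : Φ (IsLocalRing.residue A hA1) ^ n = γ * (a : ℝ) ^ k := by
    rw [← map_pow, hres, map_mul, map_pow, map_intCast, map_intCast]
  refine ⟨Φ (IsLocalRing.residue A hA1), hθn, ?_, ?_⟩
  · obtain ⟨p, hp⟩ := AdjoinRoot.mk_surjective (e (IsLocalRing.residue A hA1))
    have h1 : Φ (IsLocalRing.residue A hA1) = Polynomial.aeval η p := by
      rw [hΦ, RingHom.comp_apply]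
      show φ (e (IsLocalRing.residue A hA1)) = _
      rw [← hp, hφ, AdjoinRoot.lift_mk, Polynomial.aeval_def]
    rw [h1]
    exact IntermediateField.algebra_adjoin_le_adjoin ℚ {η}
      (Polynomial.aeval_mem_adjoin_singleton ℚ η)
  · intro q hq
    have hq0 : q ≠ 0 := by
      rintro rfl
      rw [← hq] at hθn
      simp only [Rat.cast_zero] at hθn
      rw [zero_pow (by omega)] at hθn
      have : (γ : ℝ) * (a : ℝ) ^ k ≠ 0 :=
        mul_ne_zero (by exact_mod_cast hγ) (pow_ne_zero _ (by exact_mod_cast ha))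
      exact this hθn.symm
    -- the residue is rational
    obtain ⟨cA, hcA⟩ : ∃ cA : ℚ →+* A, ∀ r, ((cA r : A) : L) = (r : L) :=
      ⟨{ toFun := fun r => ⟨(r : L), hQ r⟩
         map_one' := Subtype.ext (by simp)
         map_mul' := fun r s => Subtype.ext (by simp)
         map_zero' := Subtype.ext (by simp)
         map_add' := fun r s => Subtype.ext (by simp) }, fun r => rfl⟩
    have hr1 : IsLocalRing.residue A hA1 = IsLocalRing.residue A (cA q) := by
      apply Φ.injective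
      rw [← hq]
      exact (eq_ratCast ((Φ.comp (IsLocalRing.residue A)).comp cA) q).symm
    have hr2 : A.valuation (h - (q : L)) < 1 := by
      have h1 : IsLocalRing.residue A (hA1 - cA q) = 0 := by rw [map_sub, hr1, sub_self]
      rw [IsLocalRing.residue_eq_zero_iff, A.valuation_lt_one_iff] at h1
      have h2 : ((hA1 - cA q : A) : L) = h - (q : L) := by
        rw [hhA1]
        push_cast
        rw [hcA]
      rw [h2] at h1
      exact h1
    -- integrality
    obtain ⟨M, hM, _, hMF⟩ := monic_formG (n := n) (by omega) hk a ha γ hγ F hF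
    have hint : (jx (sub a n F)).IsIntegral := by
      apply isIntG _ M hM _ _ hMF
      exact mul_ne_zero (by exact_mod_cast hγ) (pow_ne_zero _ (by exact_mod_cast ha))
    obtain ⟨W, hQW, -, hWlt, hmv⟩ := movesG a F hint hdom A hA hQ x z (by rw [hx, hι])
      (by rw [hz, hι]) hvx1
    have hΩ0 : CharZero (AlgebraicClosure L) :=
      charZero_of_injective_algebraMap (algebraMap L (AlgebraicClosure L)).injective
    -- a primitive root of unity
    have hn0 : (n : AlgebraicClosure L) ≠ 0 := by exact_mod_cast (by omega : n ≠ 0)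
    obtain ⟨ζ, hζ⟩ : ∃ ζ : AlgebraicClosure L, IsPrimitiveRoot ζ n := by
      have : NeZero (n : AlgebraicClosure L) := ⟨hn0⟩
      obtain ⟨ζ, hζ⟩ := IsAlgClosed.exists_root (Polynomial.cyclotomic n (AlgebraicClosure L))
        (Polynomial.degree_cyclotomic_pos n _ (by omega)).ne'
      exact ⟨ζ, Polynomial.isRoot_cyclotomic_iff.1 hζ⟩
    obtain ⟨σ, hσx, hσz, hσlt⟩ := hmv ζ hζ.pow_eq_one
    -- the contradiction
    obtain ⟨h', hh'⟩ : ∃ h', h' = algebraMap L (AlgebraicClosure L) h := ⟨_, rfl⟩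
    have hz'0 : algebraMap L (AlgebraicClosure L) z ≠ 0 := by rw [Ne, map_eq_zero]; exact hz0
    have hζ0 : ζ ≠ 0 := hζ.ne_zero (by omega)
    have hσh : σ h = (ζ ^ k)⁻¹ * h' := by
      rw [hh', hh, map_div₀, map_div₀, map_pow, map_pow, map_pow, map_pow, hσx, hσz]
      field_simp
      rw [mul_pow, mul_assoc]
    have h1 : W.valuation (σ (h - (q : L))) < 1 := hσlt _ hr2
    have h2 : W.valuation (algebraMap L (AlgebraicClosure L) (h - (q : L))) < 1 := hWlt _ hr2
    rw [map_sub, map_ratCast, hσh] at h1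
    rw [map_sub, map_ratCast, ← hh'] at h2
    have h3 : W.valuation (((ζ ^ k)⁻¹ - 1) * h') < 1 := by
      have e1 : ((ζ ^ k)⁻¹ - 1) * h' = ((ζ ^ k)⁻¹ * h' - (q : AlgebraicClosure L)) -
        (h' - (q : AlgebraicClosure L)) := by ring
      rw [e1]
      exact Valuation.map_sub_lt _ h1 h2
    have h4 : W.valuation h' = 1 := by
      have e1 : h' = (h' - (q : AlgebraicClosure L)) + (q : AlgebraicClosure L) := by ring
      rw [e1, Valuation.map_add_eq_of_lt_right _ (by rw [val_rat hQW hq0]; exact h2),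
        val_rat hQW hq0]
    rw [map_mul, h4, mul_one] at h3
    refine root_one hQW (n := n) (by omega) ((ζ ^ k)⁻¹) ?_ ?_ h3
    · rw [inv_pow, ← pow_mul, mul_comm, pow_mul, hζ.pow_eq_one, one_pow, inv_one]
    · intro h5
      have h6 : ζ ^ k = 1 := by rw [← inv_inv (ζ ^ k), h5, inv_one]
      have h7 := (hζ.pow_eq_one_iff_dvd k).1 h6
      have h8 : n ∣ Nat.gcd k n := Nat.dvd_gcd h7 dvd_rfl
      rw [hkn] at h8
      have := Nat.le_of_dvd one_pos h8
      omega

section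

open Polynomial

/-- the valuation of `y` at infinity -/
lemma val_yG {Ω : Type} [Field Ω] [CharZero Ω] {W : ValuationSubring Ω} {N k : ℕ} (hN : 1 ≤ N)
    (hk : 1 ≤ k) (hQ : ∀ q : ℚ, (q : Ω) ∈ W) (γ : ℤ) (hγ : γ ≠ 0) (F : MvPolynomial (Fin 2) ℤ)
    (hF : ∀ s ∈ (F - MvPolynomial.C γ * MvPolynomial.X 1 ^ k + MvPolynomial.X 0 ^ N).support,
      k * s 0 + N * s 1 < N * k) (x y : Ω) (hx : 1 < W.valuation x)
    (h0 : MvPolynomial.aeval ![x, y] F = 0) :
    W.valuation y ^ k = W.valuation x ^ N := by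
  have hZ : ∀ c : ℤ, W.valuation (c : Ω) ≤ 1 := by
    intro c
    have : ((c : ℚ) : Ω) = (c : Ω) := by simp
    rw [← this]
    exact (W.valuation_le_one_iff _).2 (hQ _)
  have hvγ : W.valuation (γ : Ω) = 1 := by
    have h1 : ((γ : ℚ) : Ω) = (γ : Ω) := by simp
    rw [← h1]
    exact val_rat hQ (by exact_mod_cast hγ)
  obtain ⟨hx1, hy1⟩ := bothG W.valuation hN hk hZ γ hvγ F hF x y (Or.inl hx) h0
  have h1 := leadG W.valuation hZ γ hvγ F hF x y hx1 hy1 h0
  have h2 : W.valuation (x ^ N / (γ * y ^ k)) = 1 := by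
    have e : x ^ N / (γ * y ^ k) = (x ^ N / (γ * y ^ k) - 1) + 1 := by ring
    rw [e, Valuation.map_add_eq_of_lt_right _ (by rw [map_one]; exact h1), map_one]
  rw [map_div₀, map_mul, hvγ, one_mul, map_pow, map_pow] at h2
  exact (eq_of_div_eq_one h2).symm

/-- everything about a curve with leading form `γ y ^ k - x ^ N` at infinity -/
lemma setupG {k N : ℕ} (hk : 1 ≤ k) (hN : 1 ≤ N) (hkN : Nat.Coprime k N) (γ : ℤ) (hγ : γ ≠ 0)
    (F : MvPolynomial (Fin 2) ℤ)
    (hF : ∀ s ∈ (F - MvPolynomial.C γ * MvPolynomial.X 1 ^ k + MvPolynomial.X 0 ^ N).support,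
      k * s 0 + N * s 1 < N * k) {Ω : Type} [Field Ω] [CharZero Ω] [IsAlgClosed Ω]
    {W : ValuationSubring Ω} (hQ : ∀ q : ℚ, (q : Ω) ∈ W) (c : ℚ →+* Ω) (x : Ω)
    (hx : 1 < W.valuation x) :
    ∃ (M : ℚ[X][X]) (y : Ω), M.Monic ∧ M.natDegree = k ∧
      isoP (MvPolynomial.map (Int.castRingHom ℚ) F) = C (C (γ : ℚ)) * M ∧ ev c x y M = 0 ∧
      W.valuation y ^ k = W.valuation x ^ N ∧ Irreducible M ∧
      ∀ A : ℚ[X][X], ev c x y A = 0 → M ∣ A := by
  obtain ⟨M, hM, hMd, hMF⟩ := monic_formG (n := 1) le_rfl hk 1 one_ne_zero γ hγ F hF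
  rw [sub_one, Int.cast_one, one_pow, mul_one] at hMF
  rw [one_mul] at hMd
  obtain ⟨y, hy⟩ := ex_root c x M hM (by omega)
  have hFy : MvPolynomial.aeval ![x, y] F = 0 := by
    have h1 := hom_map (MvPolynomial.eval₂Hom c ![x, y]) F
    rw [← ev_isoP, hMF, map_mul, hy, mul_zero] at h1
    simp only [MvPolynomial.coe_eval₂Hom, MvPolynomial.eval₂_X, Matrix.cons_val_zero,
      Matrix.cons_val_one] at h1
    exact h1.symm
  have hvy := val_yG hN hk hQ γ hγ F hF x y hx hFy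
  have hind : ∀ r : ℚ[X][X], r.degree < M.degree → ev c x y r = 0 → r = 0 := by
    intro r hr h0
    by_contra hr0
    apply hr0
    apply red_ne_zero hkN hQ c x y hx hvy r _ h0
    rw [← hMd]
    exact natDegree_lt_natDegree hr0 hr
  refine ⟨M, y, hM, hMd, hMF, hy, hvy, irr_of_ind c x y M hM hy hind, ?_⟩
  intro A hA
  rw [← modByMonic_eq_zero_iff_dvd hM]
  apply hind _ (degree_modByMonic_lt _ hM)
  rw [modByMonic_eq_sub_mul_div, map_sub, map_mul, hA, hy, zero_mul, sub_zero]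

/-- such a curve is irreducible -/
theorem irrFG {k N : ℕ} (hk : 1 ≤ k) (hN : 1 ≤ N) (hkN : Nat.Coprime k N) (γ : ℤ) (hγ : γ ≠ 0)
    (F : MvPolynomial (Fin 2) ℤ)
    (hF : ∀ s ∈ (F - MvPolynomial.C γ * MvPolynomial.X 1 ^ k + MvPolynomial.X 0 ^ N).support,
      k * s 0 + N * s 1 < N * k) :
    Irreducible (MvPolynomial.map (Int.castRingHom ℚ) F) := by
  obtain ⟨Ω, _, _, _, W, x, hQ, hx⟩ := exists_place
  obtain ⟨M, y, hM, hMd, hMF, hy, hvy, hMi, -⟩ := setupG hk hN hkN γ hγ F hF hQ (Rat.castHom Ω) x hx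
  rw [← MulEquiv.irreducible_iff isoP, hMF,
    irreducible_isUnit_mul (isUnit_CC (by exact_mod_cast hγ))]
  exact hMi

/-- the cover `y = a z ^ n` of a nonsingular curve with one rational place at infinity is
irreducible -/
theorem irr_subG {n k N : ℕ} (hn : Odd n) (hk : 2 ≤ k) (hN : 1 ≤ N) (hkN : Nat.Coprime k N)
    (γ : ℤ) (hγ : γ ≠ 0) (F : MvPolynomial (Fin 2) ℤ)
    (hF : ∀ s ∈ (F - MvPolynomial.C γ * MvPolynomial.X 1 ^ k + MvPolynomial.X 0 ^ N).support,
      k * s 0 + N * s 1 < N * k)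
    (hnorm : IsIntegrallyClosed (CoordRing F)) (a : ℤ) (ha : a ≠ 0) :
    Irreducible (MvPolynomial.map (Int.castRingHom ℚ) (sub a n F)) := by
  have hk1 : 1 ≤ k := by omega
  have hIF := irrFG hk1 hN hkN γ hγ F hF
  have hprime : (Ideal.span {MvPolynomial.map (Int.castRingHom ℚ) F}).IsPrime :=
    (Ideal.span_singleton_prime hIF.ne_zero).2 hIF.prime
  have hdom : IsDomain (CoordRing F) := Ideal.Quotient.isDomain _
  obtain ⟨Ω, _, _, _, W, x, hQ, hx⟩ := exists_place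
  obtain ⟨c, hc⟩ : ∃ c : ℚ →+* Ω, c = Rat.castHom Ω := ⟨_, rfl⟩
  obtain ⟨M, y, hM, hMd, hMF, hy, hvy, hMi, hker⟩ := setupG hk1 hN hkN γ hγ F hF hQ c x hx
  have hn0 : 0 < n := hn.pos
  have hux : W.valuation x ≠ 0 := (lt_trans zero_lt_one hx).ne'
  have huy : W.valuation y ≠ 0 := by
    intro h
    rw [h, zero_pow (by omega)] at hvy
    exact pow_ne_zero _ hux hvy.symm
  have hy0 : y ≠ 0 := by
    rintro rfl
    exact huy (map_zero _)
  have haQ : (a : ℚ) ≠ 0 := by exact_mod_cast ha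
  have hγQ : (γ : ℚ) ≠ 0 := by exact_mod_cast hγ
  have haΩ : (a : Ω) ≠ 0 := by exact_mod_cast ha
  have hva : W.valuation (a : Ω) = 1 := by
    have : ((a : ℚ) : Ω) = (a : Ω) := by simp
    rw [← this]
    exact val_rat hQ haQ
  obtain ⟨z, hz⟩ := IsAlgClosed.exists_pow_nat_eq (y / (a : Ω)) hn0
  have hvz : W.valuation (z ^ n) = W.valuation y := by
    rw [hz, map_div₀, hva, div_one]
  -- the function field
  obtain ⟨ρ₀, hρ₀⟩ : ∃ ρ₀ : MvPolynomial (Fin 2) ℚ →+* Ω, ρ₀ = MvPolynomial.eval₂Hom c ![x, y] :=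
    ⟨_, rfl⟩
  have hρF : ρ₀ (MvPolynomial.map (Int.castRingHom ℚ) F) = 0 := by
    rw [hρ₀, ← ev_isoP, hMF, map_mul, hy, mul_zero]
  have hρker : ∀ P, ρ₀ P = 0 → MvPolynomial.map (Int.castRingHom ℚ) F ∣ P := by
    intro P hP
    rw [hρ₀, ← ev_isoP] at hP
    obtain ⟨E, hE⟩ := hker _ hP
    refine ⟨isoP.symm (C (C (γ : ℚ)⁻¹) * E), ?_⟩
    apply isoP.injective
    rw [map_mul, RingEquiv.apply_symm_apply, hMF, hE]
    have h1 : (C (C (γ : ℚ)) * C (C (γ : ℚ)⁻¹) : ℚ[X][X]) = 1 := by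
      rw [← C_mul, ← C_mul, mul_inv_cancel₀ hγQ, C_1, C_1]
    calc M * E = (C (C (γ : ℚ)) * C (C (γ : ℚ)⁻¹)) * (M * E) := by rw [h1, one_mul]
      _ = _ := by ring
  obtain ⟨ρ, hρ⟩ : ∃ ρ : CoordRing F →+* Ω, ∀ P, ρ (Ideal.Quotient.mk _ P) = ρ₀ P :=
    ⟨Ideal.Quotient.lift _ ρ₀ (fun P hP => by
      obtain ⟨E, rfl⟩ := Ideal.mem_span_singleton.1 hP
      rw [map_mul, hρF, zero_mul]), fun P => Ideal.Quotient.lift_mk _ _ _⟩
  have hρinj : Function.Injective ρ := by
    rw [injective_iff_map_eq_zero]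
    intro r hr
    obtain ⟨P, rfl⟩ := Ideal.Quotient.mk_surjective r
    rw [hρ] at hr
    rw [Ideal.Quotient.eq_zero_iff_mem]
    exact Ideal.mem_span_singleton.2 (hρker P hr)
  obtain ⟨φ, hφ⟩ : ∃ φ : FractionRing (CoordRing F) →+* Ω, ∀ r, φ (algebraMap _ _ r) = ρ r :=
    ⟨IsFractionRing.lift hρinj, fun r => IsFractionRing.lift_algebraMap hρinj r⟩
  obtain ⟨κ, hκ⟩ : ∃ κ : FractionRing (CoordRing F), κ = algebraMap (CoordRing F) _
    (Ideal.Quotient.mk _ (MvPolynomial.C ((a : ℚ)⁻¹) * MvPolynomial.X 1)) := ⟨_, rfl⟩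
  have hφκ : z ^ n = φ κ := by
    rw [hz, hκ, hφ, hρ, hρ₀, map_mul]
    simp only [MvPolynomial.coe_eval₂Hom, MvPolynomial.eval₂_X, MvPolynomial.eval₂_C,
      Matrix.cons_val_one]
    rw [map_inv₀, map_intCast, div_eq_inv_mul]
    rfl
  have hirrK : Irreducible (X ^ n - C κ : (FractionRing (CoordRing F))[X]) := by
    rw [X_pow_sub_C_irreducible_iff_forall_prime_of_odd hn]
    intro l hl hln b hb
    have hbi : IsIntegral (CoordRing F) (b ^ l) := by
      rw [hb, hκ]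
      exact isIntegral_algebraMap
    obtain ⟨r, hr⟩ := IsIntegrallyClosed.exists_algebraMap_eq_of_isIntegral_pow hl.pos hbi
    obtain ⟨G, rfl⟩ := Ideal.Quotient.mk_surjective r
    obtain ⟨β, hβ⟩ : ∃ β, β = φ b := ⟨_, rfl⟩
    have hβl : β ^ l = z ^ n := by rw [hβ, ← map_pow, hb, hφκ]
    have hβG : ev c x y (isoP G %ₘ M) = β := by
      rw [modByMonic_eq_sub_mul_div, map_sub, map_mul, hy, zero_mul, sub_zero, ev_isoP, ← hρ₀, ← hρ,
        ← hφ, hr, hβ]
    have hβ0 : β ≠ 0 := by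
      rintro rfl
      rw [zero_pow hl.ne_zero, hz] at hβl
      exact div_ne_zero hy0 haΩ hβl.symm
    have hG0 : isoP G %ₘ M ≠ 0 := by
      intro h
      rw [h, map_zero] at hβG
      exact hβ0 hβG.symm
    have hGd : (isoP G %ₘ M).natDegree < k := by
      rw [← hMd]
      exact natDegree_lt_natDegree hG0 (degree_modByMonic_lt _ hM)
    obtain ⟨m, j, hj, hv⟩ := val_red hkN hQ c x y hx hvy _ hG0 hGd
    rw [hβG] at hv
    have h1 : W.valuation x ^ (l * (k * m + N * j)) = W.valuation x ^ N := by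
      have h2 : (W.valuation β ^ l) ^ k = W.valuation x ^ N := by
        rw [← map_pow, hβl, hvz, hvy]
      have h3 : ((W.valuation x ^ m) ^ l) ^ k = W.valuation x ^ (l * (k * m)) := by
        rw [← pow_mul, ← pow_mul]
        congr 1
        ring
      have h4 : ((W.valuation y ^ j) ^ l) ^ k = W.valuation x ^ (l * (N * j)) := by
        have e : j * (l * k) = k * (j * l) := by ring
        rw [← pow_mul, ← pow_mul, e, pow_mul, hvy, ← pow_mul]
        congr 1
        ring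
      rw [← h2, hv, mul_pow, mul_pow, h3, h4, ← pow_add, mul_add]
    have h2 : l * (k * m + N * j) = N := (pow_right_injective₀ (zero_lt_one.trans hx) hx.ne') h1
    have hl2 := hl.two_le
    rcases Nat.eq_zero_or_pos j with rfl | hj0
    · rw [mul_zero, add_zero] at h2
      have h3 : k ∣ N := ⟨l * m, by rw [← h2]; ring⟩
      have h4 : k ∣ Nat.gcd k N := Nat.dvd_gcd dvd_rfl h3
      rw [hkN] at h4
      have := Nat.le_of_dvd one_pos h4
      omega
    · have h3 : N * 1 ≤ N * j := Nat.mul_le_mul_left N hj0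
      have h4 : 2 * (k * m + N * j) ≤ l * (k * m + N * j) := Nat.mul_le_mul_right _ hl2
      omega
  obtain ⟨M', hM', hM'd, hM'F⟩ := monic_formG (n := n) hn0 hk1 a ha γ hγ F hF
  have hak : (γ * (a : ℚ) ^ k) ≠ 0 := mul_ne_zero hγQ (pow_ne_zero _ haQ)
  have hzM : ev c x z M' = 0 := by
    have h1 : ev c x z (isoP (MvPolynomial.map (Int.castRingHom ℚ) (sub a n F))) = 0 := by
      rw [ev_isoP, hom_map, aeval_sub]
      simp only [MvPolynomial.coe_eval₂Hom, MvPolynomial.eval₂_X, Matrix.cons_val_zero,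
        Matrix.cons_val_one]
      rw [hz, mul_div_cancel₀ _ haΩ]
      have h2 := hom_map ρ₀ F
      rw [hρF, hρ₀] at h2
      simp only [MvPolynomial.coe_eval₂Hom, MvPolynomial.eval₂_X, Matrix.cons_val_zero,
        Matrix.cons_val_one] at h2
      exact h2.symm
    rw [hM'F, map_mul] at h1
    refine (mul_eq_zero.1 h1).resolve_left ?_
    rw [ev_C, eval₂_C, map_eq_zero]
    exact hak
  rw [← MulEquiv.irreducible_iff isoP, hM'F, irreducible_isUnit_mul (isUnit_CC hak)]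
  apply irr_of_ind c x z M' hM' hzM
  intro r hr h0
  by_contra hr0
  apply hr0
  refine ind_z hkN hk1 hn0 hQ c x z hx (by rw [hvz, hvy]) (algebraMap ℚ _) φ
    (algebraMap (CoordRing F) _ (Ideal.Quotient.mk _ (MvPolynomial.X 0))) κ ?_ hφκ hirrK r ?_ h0
  · rw [hφ, hρ, hρ₀]
    simp
  · rw [← hM'd]
    exact natDegree_lt_natDegree hr0 hr

end

end Pool.Agent.X95T
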