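import Pool.Agent.X95T.HK3
import Pool.Agent.X95T.V

set_option autoImplicit false

namespace Pool.Agent.X95T

open Pool.Agent.Results.MP_821da1_nt.RepulsionAllCurves (CoordRing AtInfinity OnePlace)

section

open Polynomial

/-- the constant coefficient with respect to `y` -/
lemma isoP_coeff_zero (P : MvPolynomial (Fin 2) ℚ) :
    (isoP P).coeff 0 = MvPolynomial.aeval ![(X : ℚ[X]), (0 : ℚ[X])] P := by
  have h : (constantCoeff : ℚ[X][X] →+* ℚ[X]).comp (isoP : MvPolynomial (Fin 2) ℚ →+* ℚ[X][X]) =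
      (MvPolynomial.aeval ![(X : ℚ[X]), (0 : ℚ[X])] : MvPolynomial (Fin 2) ℚ →ₐ[ℚ] ℚ[X]).toRingHom := by
    apply MvPolynomial.ringHom_ext
    · intro r
      simp [isoP_C]
    · intro i
      fin_cases i
      · simp [isoP_X0]
      · simp [isoP_X1]
  exact DFunLike.congr_fun h P

/-- the field of fractions of `ℚ[x, y] / (M)` -/
lemma field_of (M : ℚ[X][X]) (hM : M.Monic) (hMi : Irreducible M)
    {Ω : Type} [Field Ω] [CharZero Ω] (c : ℚ →+* Ω) (x y : Ω)
    (hx : ∀ p : ℚ[X], eval₂ c x p = 0 → p = 0) (hy : ev c x y M = 0) :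
    ∃ (K : Type) (_ : Field K) (ι : ℚ[X] →+* K) (α : K) (φ : K →+* Ω),
      (∀ p, φ (ι p) = eval₂ c x p) ∧ φ α = y ∧
      ∀ (u : ℚ) (_ : u ≠ 0) (q : ℕ) (_ : q.Prime) (b : K), b ^ q = ι (C u) * α →
        ∃ (h : ℚ[X]) (e : ℚ), M.coeff 0 = C e * h ^ q := by
  obtain ⟨m, hm⟩ : ∃ m : (FractionRing ℚ[X])[X], m = M.map (algebraMap ℚ[X] (FractionRing ℚ[X])) :=
    ⟨_, rfl⟩
  have hmi : Irreducible m := by
    rw [hm]
    exact (hM.irreducible_iff_irreducible_map_fraction_map).1 hMi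
  have hmm : m.Monic := hm ▸ hM.map _
  have : Fact (Irreducible m) := ⟨hmi⟩
  obtain ⟨α, hα⟩ : ∃ α : AdjoinRoot m, α = AdjoinRoot.root m := ⟨_, rfl⟩
  have hinjx : Function.Injective (eval₂RingHom c x) := by
    rw [injective_iff_map_eq_zero]
    intro p hp
    exact hx p hp
  obtain ⟨φ₀, hφ₀⟩ : ∃ φ₀ : FractionRing ℚ[X] →+* Ω, ∀ p, φ₀ (algebraMap _ _ p) = eval₂ c x p :=
    ⟨IsFractionRing.lift hinjx, fun r => IsFractionRing.lift_algebraMap hinjx r⟩
  have hroot : m.eval₂ φ₀ y = 0 := by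
    rw [hm, eval₂_map]
    have h1 : φ₀.comp (algebraMap ℚ[X] (FractionRing ℚ[X])) = eval₂RingHom c x := by
      ext1
      · exact Subsingleton.elim _ _
      · simp [hφ₀]
    rw [h1]
    rw [ev, coe_eval₂RingHom] at hy
    exact hy
  refine ⟨AdjoinRoot m, inferInstance, (AdjoinRoot.of m).comp (algebraMap _ _), α,
    AdjoinRoot.lift φ₀ y hroot, ?_, ?_, ?_⟩
  · intro p
    rw [RingHom.comp_apply, AdjoinRoot.lift_of, hφ₀]
  · rw [hα, AdjoinRoot.lift_root]
  · intro u hu q hq b hb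
    have hN := congrArg (Algebra.norm (FractionRing ℚ[X])) hb
    have h1 : (AdjoinRoot.of m).comp (algebraMap ℚ[X] (FractionRing ℚ[X])) (C u) =
        algebraMap (FractionRing ℚ[X]) (AdjoinRoot m) (algebraMap ℚ[X] _ (C u)) := rfl
    rw [map_pow, h1, map_mul, Algebra.norm_algebraMap] at hN
    have h2 : Algebra.norm (FractionRing ℚ[X]) α =
        (-1) ^ m.natDegree * algebraMap ℚ[X] (FractionRing ℚ[X]) (M.coeff 0) := by
      have h3 := Algebra.PowerBasis.norm_gen_eq_coeff_zero_minpoly (AdjoinRoot.powerBasis hmi.ne_zero)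
      rw [AdjoinRoot.powerBasis_gen, AdjoinRoot.powerBasis_dim, AdjoinRoot.minpoly_root hmi.ne_zero,
        hmm.leadingCoeff, inv_one, C_1, mul_one] at h3
      rw [hα, h3, hm, coeff_map]
    rw [h2] at hN
    obtain ⟨d, hd⟩ : ∃ d : ℕ, d = Module.finrank (FractionRing ℚ[X]) (AdjoinRoot m) := ⟨_, rfl⟩
    rw [← hd] at hN
    have h3 : (Algebra.norm (FractionRing ℚ[X]) b) ^ q = algebraMap ℚ[X] (FractionRing ℚ[X])
        (C (u ^ d * (-1) ^ m.natDegree) * M.coeff 0) := by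
      rw [hN, map_mul]
      simp only [map_mul, map_pow, map_neg, map_one]
      ring
    obtain ⟨h, hh⟩ := IsIntegrallyClosed.exists_algebraMap_eq_of_isIntegral_pow (R := ℚ[X])
      (K := FractionRing ℚ[X]) hq.pos (by rw [h3]; exact isIntegral_algebraMap)
    refine ⟨h, (u ^ d * (-1) ^ m.natDegree)⁻¹, ?_⟩
    rw [← hh, ← map_pow] at h3
    have h4 := IsFractionRing.injective ℚ[X] (FractionRing ℚ[X]) h3
    have h5 : (u ^ d * (-1) ^ m.natDegree : ℚ) ≠ 0 := mul_ne_zero (pow_ne_zero _ hu)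
      (pow_ne_zero _ (by norm_num))
    rw [h4, ← mul_assoc, ← C_mul, inv_mul_cancel₀ h5, C_1, one_mul]

/-- the covers of a curve with leading form `γ y ^ k - x ^ N` at infinity, on which `F (x, 0)` is
not a power up to a constant, are irreducible -/
theorem irr_subN {n k N : ℕ} (hn : 1 ≤ n) (hk1 : 1 ≤ k) (hN : 1 ≤ N) (hkN : Nat.Coprime k N)
    (γ : ℤ) (hγ : γ ≠ 0) (F : MvPolynomial (Fin 2) ℤ)
    (hF : ∀ s ∈ (F - MvPolynomial.C γ * MvPolynomial.X 1 ^ k + MvPolynomial.X 0 ^ N).support,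
      k * s 0 + N * s 1 < N * k)
    (hpow : ∀ q : ℕ, q.Prime → q ∣ n → ∀ (h : ℚ[X]) (e : ℚ),
      (MvPolynomial.aeval ![(X : ℤ[X]), (0 : ℤ[X])] F).map (Int.castRingHom ℚ) ≠ C e * h ^ q)
    (a : ℤ) (ha : a ≠ 0) :
    Irreducible (MvPolynomial.map (Int.castRingHom ℚ) (sub a n F)) := by
  obtain ⟨Ω, _, _, _, W, x, hQ, hx⟩ := exists_place
  obtain ⟨c, hc⟩ : ∃ c : ℚ →+* Ω, c = Rat.castHom Ω := ⟨_, rfl⟩
  obtain ⟨M, y, hM, hMd, hMF, hy, hvy, hMi, hker⟩ := setupG hk1 hN hkN γ hγ F hF hQ c x hx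
  have hn0 : 0 < n := hn
  have hux : W.valuation x ≠ 0 := (lt_trans zero_lt_one hx).ne'
  have huy : W.valuation y ≠ 0 := by
    intro h
    rw [h, zero_pow (by omega)] at hvy
    exact pow_ne_zero _ hux hvy.symm
  have hy0 : y ≠ 0 := by
    rintro rfl
    exact huy (map_zero _)
  have haQ : (a : ℚ) ≠ 0 := by exact_mod_cast ha
  have hγQ : (γ : ℚ) ≠ 0 := by exact_mod_cast hγ
  have haΩ : (a : Ω) ≠ 0 := by exact_mod_cast ha
  have hva : W.valuation (a : Ω) = 1 := by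
    have : ((a : ℚ) : Ω) = (a : Ω) := by simp
    rw [← this]
    exact val_rat hQ haQ
  obtain ⟨z, hz⟩ := IsAlgClosed.exists_pow_nat_eq (y / (a : Ω)) hn0
  have hvz : W.valuation (z ^ n) = W.valuation y := by
    rw [hz, map_div₀, hva, div_one]
  have hxt : ∀ p : ℚ[X], eval₂ c x p = 0 → p = 0 := by
    intro p hp
    by_contra hp0
    have h1 := val_pol hQ c x hx p hp0
    rw [hp, map_zero] at h1
    exact pow_ne_zero _ hux h1.symm
  obtain ⟨K, _, ι, α, φ, hφι, hφα, hnorm⟩ := field_of M hM hMi c x y hxt hy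
  -- the constant coefficient
  have hM0 : ∀ q : ℕ, q.Prime → q ∣ n → ∀ (h : ℚ[X]) (e : ℚ), M.coeff 0 ≠ C e * h ^ q := by
    intro q hq hqn h e he
    apply hpow q hq hqn h (γ * e)
    have h1 := isoP_coeff_zero (MvPolynomial.map (Int.castRingHom ℚ) F)
    rw [hMF, coeff_C_mul, he] at h1
    have h2 : (MvPolynomial.aeval ![(X : ℤ[X]), (0 : ℤ[X])] F).map (Int.castRingHom ℚ) =
        MvPolynomial.aeval ![(X : ℚ[X]), (0 : ℚ[X])] (MvPolynomial.map (Int.castRingHom ℚ) F) := by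
      have h3 : ((mapRingHom (Int.castRingHom ℚ)).comp
          (MvPolynomial.aeval ![(X : ℤ[X]), (0 : ℤ[X])] :
            MvPolynomial (Fin 2) ℤ →ₐ[ℤ] ℤ[X]).toRingHom) =
          ((MvPolynomial.aeval ![(X : ℚ[X]), (0 : ℚ[X])] :
            MvPolynomial (Fin 2) ℚ →ₐ[ℚ] ℚ[X]).toRingHom).comp
            (MvPolynomial.map (Int.castRingHom ℚ)) := by
        apply MvPolynomial.ringHom_ext
        · intro r; simp
        · intro i
          fin_cases i <;> simp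
      exact DFunLike.congr_fun h3 F
    rw [h2, ← h1, ← mul_assoc, ← C_mul]
  obtain ⟨κ, hκ⟩ : ∃ κ : K, κ = ι (C ((a : ℚ)⁻¹)) * α := ⟨_, rfl⟩
  have hφκ : z ^ n = φ κ := by
    rw [hz, hκ, map_mul, hφι, hφα, eval₂_C, map_inv₀, map_intCast, div_eq_inv_mul]
  have hirrK : Irreducible (X ^ n - C κ : K[X]) := by
    apply irr_pow_gen hn
    intro q hq hqn b
    constructor
    · intro hb
      obtain ⟨h, e, he⟩ := hnorm _ (inv_ne_zero haQ) q hq b (by rw [hb, hκ])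
      exact hM0 q hq hqn h e he
    · intro hb
      obtain ⟨h, e, he⟩ := hnorm (-(a : ℚ)⁻¹) (neg_ne_zero.2 (inv_ne_zero haQ)) q hq b (by
        rw [hb, hκ, C_neg, map_neg, neg_mul])
      exact hM0 q hq hqn h e he
  obtain ⟨M', hM', hM'd, hM'F⟩ := monic_formG (n := n) hn0 hk1 a ha γ hγ F hF
  have hak : (γ * (a : ℚ) ^ k) ≠ 0 := mul_ne_zero hγQ (pow_ne_zero _ haQ)
  have hzM : ev c x z M' = 0 := by
    have h1 : ev c x z (isoP (MvPolynomial.map (Int.castRingHom ℚ) (sub a n F))) = 0 := by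
      rw [ev_isoP, hom_map, aeval_sub]
      simp only [MvPolynomial.coe_eval₂Hom, MvPolynomial.eval₂_X, Matrix.cons_val_zero,
        Matrix.cons_val_one]
      rw [hz, mul_div_cancel₀ _ haΩ]
      have h2 := hom_map (MvPolynomial.eval₂Hom c ![x, y]) F
      rw [← ev_isoP, hMF, map_mul, hy, mul_zero] at h2
      simp only [MvPolynomial.coe_eval₂Hom, MvPolynomial.eval₂_X, Matrix.cons_val_zero,
        Matrix.cons_val_one] at h2
      exact h2.symm
    rw [hM'F, map_mul] at h1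
    refine (mul_eq_zero.1 h1).resolve_left ?_
    rw [ev_C, eval₂_C, map_eq_zero]
    exact hak
  rw [← MulEquiv.irreducible_iff isoP, hM'F, irreducible_isUnit_mul (isUnit_CC hak)]
  apply irr_of_ind c x z M' hM' hzM
  intro r hr h0
  by_contra hr0
  apply hr0
  refine ind_z hkN hk1 hn0 hQ c x z hx (by rw [hvz, hvy]) (ι.comp C) φ (ι X) κ ?_ hφκ hirrK r ?_ h0
  · rw [hφι, eval₂_X]
  · rw [← hM'd]
    exact natDegree_lt_natDegree hr0 hr

end

end Pool.Agent.X95T
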