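import Pool.Agent.X95T.V

set_option autoImplicit false

open IntermediateField

namespace Pool.Agent.X95T

/-- an integer whose valuations at the primes not dividing `b` are divisible by `n` is an `n`-th
power up to a factor composed of the primes dividing `b` -/
lemma free_part_b {n : ℕ} (hn : 1 ≤ n) (b : ℤ) (hb : b ≠ 0) (y : ℤ) (hy : y ≠ 0)
    (h : ∀ q : ℕ, q.Prime → ¬ (q : ℤ) ∣ b → n ∣ y.natAbs.factorization q) :
    ∃ a z : ℤ, a ≠ 0 ∧ (∀ q : ℕ, q.Prime → (q : ℤ) ∣ a → (q : ℤ) ∣ b) ∧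
      a.natAbs ≤ (∏ q ∈ b.natAbs.primeFactors, q) ^ n ∧ y = a * z ^ n := by
  have hy0 : y.natAbs ≠ 0 := Int.natAbs_ne_zero.2 hy
  have hb0 : b.natAbs ≠ 0 := Int.natAbs_ne_zero.2 hb
  obtain ⟨A, hA⟩ : ∃ A : ℕ, A = ∏ q ∈ y.natAbs.primeFactors, q ^ (y.natAbs.factorization q % n) :=
    ⟨_, rfl⟩
  obtain ⟨Z, hZ⟩ : ∃ Z : ℕ, Z = ∏ q ∈ y.natAbs.primeFactors, q ^ (y.natAbs.factorization q / n) :=
    ⟨_, rfl⟩
  have hAZ : y.natAbs = A * Z ^ n := by
    rw [hA, hZ, ← Finset.prod_pow, ← Finset.prod_mul_distrib]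
    conv_lhs => rw [← Nat.prod_factorization_pow_eq_self hy0]
    rw [Finsupp.prod, Nat.support_factorization]
    apply Finset.prod_congr rfl
    intro q _
    rw [← pow_mul, ← pow_add]
    congr 1
    rw [mul_comm (_ / n) n]
    exact (Nat.mod_add_div _ _).symm
  have hA0 : A ≠ 0 := by
    rintro rfl
    rw [zero_mul] at hAZ
    exact hy0 hAZ
  have h1 : A = ∏ q ∈ y.natAbs.primeFactors ∩ b.natAbs.primeFactors,
      q ^ (y.natAbs.factorization q % n) := by
    rw [hA]
    symm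
    apply Finset.prod_subset Finset.inter_subset_left
    intro q hq hqS
    have hqp := Nat.prime_of_mem_primeFactors hq
    have hqS' : ¬ (q : ℤ) ∣ b := fun h' => hqS (Finset.mem_inter.2 ⟨hq,
      Nat.mem_primeFactors.2 ⟨hqp, Int.natCast_dvd.1 h', hb0⟩⟩)
    rw [Nat.mod_eq_zero_of_dvd (h q hqp hqS'), pow_zero]
  have hAle : A ≤ (∏ q ∈ b.natAbs.primeFactors, q) ^ n := by
    rw [h1]
    calc ∏ q ∈ y.natAbs.primeFactors ∩ b.natAbs.primeFactors, q ^ (y.natAbs.factorization q % n)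
        ≤ ∏ q ∈ y.natAbs.primeFactors ∩ b.natAbs.primeFactors, q ^ n := by
          apply Finset.prod_le_prod'
          intro q hq
          have hq1 := (Nat.prime_of_mem_primeFactors (Finset.mem_inter.1 hq).1).pos
          exact Nat.pow_le_pow_right hq1 (Nat.mod_lt _ hn).le
      _ ≤ ∏ q ∈ b.natAbs.primeFactors, q ^ n := by
          apply Finset.prod_le_prod_of_subset_of_one_le' Finset.inter_subset_right
          intro q hq _
          exact Nat.one_le_pow _ _ (Nat.prime_of_mem_primeFactors hq).pos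
      _ = (∏ q ∈ b.natAbs.primeFactors, q) ^ n := Finset.prod_pow _ _ _
  have hAp : ∀ q : ℕ, q.Prime → q ∣ A → (q : ℤ) ∣ b := by
    intro q hq hqA
    rw [h1] at hqA
    obtain ⟨t, ht, hqt⟩ := (hq.prime.dvd_finsetProd_iff _).1 hqA
    have h2 : q ∣ t := hq.dvd_of_dvd_pow hqt
    have h3 := (Finset.mem_inter.1 ht).2
    have h4 : q = t := (Nat.prime_dvd_prime_iff_eq hq (Nat.prime_of_mem_primeFactors h3)).1 h2
    rw [h4]
    exact Int.natCast_dvd.2 (Nat.dvd_of_mem_primeFactors h3)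
  rcases Int.natAbs_eq y with h2 | h2
  · refine ⟨(A : ℤ), (Z : ℤ), by exact_mod_cast hA0, ?_, by simpa using hAle, ?_⟩
    · intro q hq hqA
      exact hAp q hq (by exact_mod_cast hqA)
    · rw [h2, hAZ]
      push_cast
      ring
  · refine ⟨-(A : ℤ), (Z : ℤ), by simpa using hA0, ?_, by simpa using hAle, ?_⟩
    · intro q hq hqA
      exact hAp q hq (by exact_mod_cast (dvd_neg.1 hqA))
    · rw [h2, hAZ]
      push_cast
      ring

lemma suppG {N k : ℕ} (γ : ℤ) (F : MvPolynomial (Fin 2) ℤ) (hF : ∀ s ∈ (F -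
      MvPolynomial.C γ * MvPolynomial.X 1 ^ k +
      MvPolynomial.X 0 ^ N).support, k * s 0 + N * s 1 < N * k) :
    ∀ s ∈ F.support, s 0 ≤ N ∧ s 1 ≤ k := by
  classical
  intro s hs
  by_cases h1 : s = Finsupp.single 1 k
  · subst h1
    simp
  · by_cases h2 : s = Finsupp.single 0 N
    · subst h2
      simp
    · have h3 : s ∈ (F - MvPolynomial.C γ * MvPolynomial.X 1 ^ k +
          MvPolynomial.X 0 ^ N).support := by
        rw [MvPolynomial.mem_support_iff] at hs ⊢
        rw [MvPolynomial.coeff_add, MvPolynomial.coeff_sub, MvPolynomial.coeff_C_mul,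
          MvPolynomial.coeff_X_pow,
          MvPolynomial.coeff_X_pow, if_neg (fun h => h1 h.symm), if_neg (fun h => h2 h.symm)]
        simpa using hs
      have h4 := hF s h3
      constructor
      · by_contra h5
        rw [not_le] at h5
        have := Nat.mul_le_mul_left k h5.le
        rw [mul_comm k N] at this
        omega
      · by_contra h5
        rw [not_le] at h5
        have := Nat.mul_le_mul_left N h5.le
        omega

/-- two fields of large degree cannot meet in a small field -/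
lemma three_le {θ : ℝ} {K₁ K₂ : IntermediateField ℚ ℝ} [FiniteDimensional ℚ K₂]
    (h1 : θ ∈ K₁) (h2 : θ ∈ K₂) (h3 : 3 ≤ Module.finrank ℚ ℚ⟮θ⟯) :
    3 ≤ Module.finrank ℚ ↥(K₁ ⊓ K₂) := by
  have hle : ℚ⟮θ⟯ ≤ K₁ ⊓ K₂ := by
    rw [adjoin_simple_le_iff]
    exact ⟨h1, h2⟩
  have : FiniteDimensional ℚ ↥(K₁ ⊓ K₂) :=
    FiniteDimensional.of_injective (IntermediateField.inclusion (inf_le_right : K₁ ⊓ K₂ ≤ K₂)).toLinearMap
      (IntermediateField.inclusion (inf_le_right : K₁ ⊓ K₂ ≤ K₂)).injective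
  exact h3.trans (IntermediateField.finrank_le_of_le_right hle)

/-- the value of an integer polynomial -/
lemma eval_le (P : Polynomial ℤ) (A : ℕ) (hA : 1 ≤ A) :
    (P.eval (A : ℤ)).natAbs ≤ (∑ i ∈ P.support, (P.coeff i).natAbs) * A ^ P.natDegree := by
  rw [Polynomial.eval_eq_sum, Polynomial.sum_def, Finset.sum_mul]
  refine (Int.natAbs_sum_le _ _).trans (Finset.sum_le_sum ?_)
  intro i hi
  rw [Int.natAbs_mul, Int.natAbs_pow, Int.natAbs_natCast]
  exact Nat.mul_le_mul_left _ (Nat.pow_le_pow_right hA (Polynomial.le_natDegree_of_mem_supp _ hi))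

end Pool.Agent.X95T
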