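import Pool.Agent.X95T.HM2
import Pool.Agent.X95T.W

set_option autoImplicit false

open IntermediateField
open Pool.Agent.Results.MP_821da1_nt

namespace Pool.Agent.X95T

/-- the behaviour of `y` at infinity -/
lemma lead_w {n k δ m j : ℕ} (hk : 1 ≤ k) (hδ : 1 ≤ δ) (hn : 1 ≤ n) (hm : k * m = n * j + 1)
    (γ : ℤ) (hγ : γ ≠ 0) (F : MvPolynomial (Fin 2) ℤ)
    (hF : ∀ s ∈ (F - MvPolynomial.C γ * MvPolynomial.X 1 ^ k + MvPolynomial.X 0 ^ (n * δ)).support,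
      k * s 0 + (n * δ) * s 1 < (n * δ) * k)
    (L : Type) [Field L] [CharZero L] (A : ValuationSubring L) (x y : L)
    (hQ : ∀ q : ℚ, (q : L) ∈ A) (hxy : 1 < A.valuation x ∨ 1 < A.valuation y)
    (h0 : MvPolynomial.aeval ![x, y] F = 0) :
    1 < A.valuation x ∧
      MvPolynomial.aeval ![x, y] (MvPolynomial.X 0 ^ (m * δ) : MvPolynomial (Fin 2) ℤ) ≠ 0 ∧
      MvPolynomial.aeval ![x, y] (MvPolynomial.X 1 ^ j : MvPolynomial (Fin 2) ℤ) ≠ 0 ∧
      A.valuation (y * (MvPolynomial.aeval ![x, y] (MvPolynomial.X 1 ^ j : MvPolynomial (Fin 2) ℤ) /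
        MvPolynomial.aeval ![x, y] (MvPolynomial.X 0 ^ (m * δ) : MvPolynomial (Fin 2) ℤ)) ^ n -
        ((((1 : ℤ) : ℚ) / ((γ ^ m : ℤ) : ℚ) : ℚ) : L)) < 1 := by
  have hZ : ∀ c : ℤ, A.valuation (c : L) ≤ 1 := by
    intro c
    have : ((c : ℚ) : L) = (c : L) := by simp
    rw [← this, A.valuation_le_one_iff]
    exact hQ _
  have hvγ : A.valuation (γ : L) = 1 := by
    have h1 : ((γ : ℚ) : L) = (γ : L) := by simp
    rw [← h1]
    exact val_rat hQ (by exact_mod_cast hγ)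
  have hN : 1 ≤ n * δ := Nat.mul_pos hn hδ
  obtain ⟨hvx, hvy⟩ := bothG A.valuation hN hk hZ γ hvγ F hF x y hxy h0
  have hx0 : x ≠ 0 := by rintro rfl; simp at hvx
  have hy0 : y ≠ 0 := by rintro rfl; simp at hvy
  have hγ0 : (γ : L) ≠ 0 := by exact_mod_cast hγ
  refine ⟨hvx, ?_, ?_, ?_⟩
  · simp only [map_pow, MvPolynomial.aeval_X, Matrix.cons_val_zero]
    exact pow_ne_zero _ hx0
  · simp only [map_pow, MvPolynomial.aeval_X, Matrix.cons_val_one]
    exact pow_ne_zero _ hy0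
  · have h1 := leadG A.valuation hZ γ hvγ F hF x y hvx hvy h0
    obtain ⟨t, ht⟩ : ∃ t : L, t = x ^ (n * δ) / (γ * y ^ k) := ⟨_, rfl⟩
    rw [← ht] at h1
    have ht0 : t ≠ 0 := by
      rw [ht]
      exact div_ne_zero (pow_ne_zero _ hx0) (mul_ne_zero hγ0 (pow_ne_zero _ hy0))
    have hvt : A.valuation t = 1 := by
      have e1 : t = (t - 1) + 1 := by ring
      rw [e1, Valuation.map_add_eq_of_lt_right _ (by rw [map_one]; exact h1), map_one]
    have h2 := pow_close (W := A) t 1 (map_one _) h1 m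
    rw [_root_.one_pow] at h2
    have e2 : y * (MvPolynomial.aeval ![x, y] (MvPolynomial.X 1 ^ j : MvPolynomial (Fin 2) ℤ) /
        MvPolynomial.aeval ![x, y] (MvPolynomial.X 0 ^ (m * δ) : MvPolynomial (Fin 2) ℤ)) ^ n -
        ((((1 : ℤ) : ℚ) / ((γ ^ m : ℤ) : ℚ) : ℚ) : L) =
        -((t ^ m - 1) * ((γ : L) ^ m)⁻¹ * (t ^ m)⁻¹) := by
      simp only [map_pow, MvPolynomial.aeval_X, Matrix.cons_val_zero, Matrix.cons_val_one]
      have e3 : y * (y ^ j / x ^ (m * δ)) ^ n = ((γ : L) ^ m)⁻¹ * (t ^ m)⁻¹ := by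
        have e4 : t ^ m = x ^ (n * δ * m) / (γ ^ m * y ^ (k * m)) := by
          rw [ht, div_pow, mul_pow, ← pow_mul, ← pow_mul]
        rw [e4, div_pow, ← pow_mul, ← pow_mul, hm, pow_succ y (n * j), mul_comm j n,
          show m * δ * n = n * δ * m from by ring]
        field_simp
      rw [e3]
      push_cast
      field_simp
      ring
    rw [e2, Valuation.map_neg, map_mul, map_mul, map_inv₀, map_inv₀, map_pow, map_pow, hvγ, hvt,
      _root_.one_pow, inv_one, mul_one, mul_one]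
    exact h2

/-- integral points on a curve with one place at infinity, stacky along `y = 0` -/
theorem stackOne (n k δ : ℕ) (hn : 3 ≤ n) (hk : 1 ≤ k) (hδ : 1 ≤ δ)
    (hkn : Nat.Coprime k (n * δ)) :
    ∃ C : ℕ, ∀ S : Finset ℕ, ∃ c : ℕ, ∀ (γ : ℤ) (F : MvPolynomial (Fin 2) ℤ),
      γ ≠ 0 → (∀ q : ℕ, q.Prime → (q : ℤ) ∣ γ → q ∈ S) →
      (∀ s ∈ (F - MvPolynomial.C γ * MvPolynomial.X 1 ^ k +
        MvPolynomial.X 0 ^ (n * δ)).support, k * s 0 + (n * δ) * s 1 < (n * δ) * k) →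
      (∀ q : ℕ, q.Prime → q ∣ n → ∀ (h : Polynomial ℚ) (e : ℚ),
        (MvPolynomial.aeval ![(Polynomial.X : Polynomial ℤ), (0 : Polynomial ℤ)] F).map
          (Int.castRingHom ℚ) ≠ Polynomial.C e * h ^ q) →
      ∀ x y a z : ℤ, MvPolynomial.eval ![x, y] F = 0 → y = a * z ^ n → a ≠ 0 →
        (∀ q : ℕ, q.Prime → (q : ℤ) ∣ a → q ∈ S) →
        max x.natAbs y.natAbs ≤ (c * ∑ s ∈ F.support, (F.coeff s).natAbs) ^ C := by
  obtain ⟨C, hC⟩ := uniformS n (n * δ) k hn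
  refine ⟨C, ?_⟩
  intro S
  obtain ⟨c, hc⟩ := hC S
  refine ⟨c, ?_⟩
  intro γ F hγ hγS hF hpow x y a z h0 hy ha haS
  have hN : 1 ≤ n * δ := Nat.mul_pos (by omega) hδ
  have hkn' : Nat.Coprime n k := (Nat.Coprime.coprime_mul_right_right hkn).symm
  -- the exponents
  obtain ⟨m, j, hmj⟩ : ∃ m j : ℕ, k * m = n * j + 1 := by
    obtain ⟨m, -, hm⟩ := Nat.exists_mul_mod_eq_one_of_coprime hkn'.symm (by omega : 1 < n)
    refine ⟨m, k * m / n, ?_⟩
    have := Nat.div_add_mod (k * m) n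
    rw [hm] at this
    exact this.symm
  refine hc 1 (γ ^ m) F (MvPolynomial.X 0 ^ (m * δ)) (MvPolynomial.X 1 ^ j) ?_ ?_ ?_ ?_ ?_
    x y a z h0 hy ha haS
  · rw [one_mul]; exact pow_ne_zero _ hγ
  · intro q hq hqd
    rw [one_mul] at hqd
    exact hγS q hq ((Nat.prime_iff_prime_int.1 hq).dvd_of_dvd_pow hqd)
  · exact suppG γ F hF
  · intro a' ha'
    refine ⟨irr_subN (by omega) hk hN hkn γ hγ F hF hpow a' ha', ?_⟩
    obtain ⟨M', hM', hM'd, hM'F⟩ := monic_formG (n := n) (by omega) hk a' ha' γ hγ F hF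
    exact isIntG _ M' hM' _ (mul_ne_zero (by exact_mod_cast hγ)
      (pow_ne_zero _ (by exact_mod_cast ha'))) hM'F
  · intro L _ _ A x' y' hQ hxy h0'
    exact lead_w hk hδ (by omega) hmj γ hγ F hF L A x' y' hQ hxy h0'

end Pool.Agent.X95T
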