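import Pool.Agent.X95T.HM1

set_option autoImplicit false

namespace Pool.Agent.X95T

section

open Polynomial IntermediateField

/-- the norm argument for `M (x, y ^ n)` -/
theorem irr_gen {n : ℕ} (hn : 1 ≤ n) (M : ℚ[X][X]) (hM : M.Monic) (hMi : Irreducible M)
    (hpow : ∀ q : ℕ, q.Prime → q ∣ n → ∀ (h : ℚ[X]) (e : ℚ), M.coeff 0 ≠ C e * h ^ q) :
    Irreducible (M.comp (X ^ n)) := by
  obtain ⟨m, hm⟩ : ∃ m : (FractionRing ℚ[X])[X], m = M.map (algebraMap ℚ[X] (FractionRing ℚ[X])) :=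
    ⟨_, rfl⟩
  have hmi : Irreducible m := by
    rw [hm]
    exact (hM.irreducible_iff_irreducible_map_fraction_map).1 hMi
  have hmm : m.Monic := hm ▸ hM.map _
  have hMc : (M.comp (X ^ n)).Monic := by
    apply hM.comp (monic_X_pow n)
    rw [natDegree_X_pow]
    omega
  rw [hMc.irreducible_iff_irreducible_map_fraction_map (K := FractionRing ℚ[X])]
  have h1 : (M.comp (X ^ n)).map (algebraMap ℚ[X] (FractionRing ℚ[X])) = m.comp (X ^ n) := by
    rw [map_comp, Polynomial.map_pow, map_X, hm]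
  rw [h1]
  apply irreducible_comp hmm (monic_X_pow n) hmi
  intro E _ _ x hx
  have hint : IsIntegral (FractionRing ℚ[X]) x := by
    rw [← minpoly.ne_zero_iff, hx]
    exact hmi.ne_zero
  rw [Polynomial.map_pow, map_X]
  have key : ∀ (q : ℕ), q.Prime → q ∣ n → ∀ (b : (FractionRing ℚ[X])⟮x⟯) (u : ℚ), u ≠ 0 →
      b ^ q = algebraMap (FractionRing ℚ[X]) _ (algebraMap ℚ[X] (FractionRing ℚ[X]) (C u)) *
        AdjoinSimple.gen (FractionRing ℚ[X]) x → False := by
    intro q hq hqn b u hu hb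
    have hN := congrArg (Algebra.norm (FractionRing ℚ[X])) hb
    rw [map_pow, map_mul, Algebra.norm_algebraMap] at hN
    have h2 : Algebra.norm (FractionRing ℚ[X]) (AdjoinSimple.gen (FractionRing ℚ[X]) x) =
        (-1) ^ (adjoin.powerBasis hint).dim *
          algebraMap ℚ[X] (FractionRing ℚ[X]) (M.coeff 0) := by
      rw [← adjoin.powerBasis_gen hint, Algebra.PowerBasis.norm_gen_eq_coeff_zero_minpoly,
        adjoin.powerBasis_gen hint, minpoly_gen, hx, hm, coeff_map]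
    rw [h2] at hN
    obtain ⟨d, hd⟩ : ∃ d : ℕ, d = Module.finrank (FractionRing ℚ[X]) (FractionRing ℚ[X])⟮x⟯ :=
      ⟨_, rfl⟩
    obtain ⟨d', hd'⟩ : ∃ d' : ℕ, d' = (adjoin.powerBasis hint).dim := ⟨_, rfl⟩
    rw [← hd, ← hd'] at hN
    have h3 : (Algebra.norm (FractionRing ℚ[X]) b) ^ q = algebraMap ℚ[X] (FractionRing ℚ[X])
        (C (u ^ d * (-1) ^ d') * M.coeff 0) := by
      rw [hN, map_mul]
      simp only [map_mul, map_pow, map_neg, map_one]
      ring
    obtain ⟨h, hh⟩ := IsIntegrallyClosed.exists_algebraMap_eq_of_isIntegral_pow (R := ℚ[X])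
      (K := FractionRing ℚ[X]) hq.pos (by rw [h3]; exact isIntegral_algebraMap)
    apply hpow q hq hqn h (u ^ d * (-1) ^ d')⁻¹
    rw [← hh, ← map_pow] at h3
    have h4 := IsFractionRing.injective ℚ[X] (FractionRing ℚ[X]) h3
    have h5 : (u ^ d * (-1) ^ d' : ℚ) ≠ 0 := mul_ne_zero (pow_ne_zero _ hu)
      (pow_ne_zero _ (by norm_num))
    rw [h4, ← mul_assoc, ← C_mul, inv_mul_cancel₀ h5, C_1, one_mul]
  apply irr_pow_gen hn
  intro q hq hqn b
  constructor
  · intro hb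
    exact key q hq hqn b 1 one_ne_zero (by rw [C_1, map_one, map_one, one_mul]; exact hb)
  · intro hb
    exact key q hq hqn b (-1) (by norm_num) (by
      rw [C_neg, C_1, map_neg, map_one, map_neg, map_one, neg_one_mul]; exact hb)

/-- the same for `F (x, a z ^ n)` -/
theorem irr_gen_sub {n : ℕ} (hn : 1 ≤ n) (F : MvPolynomial (Fin 2) ℤ) (M : ℚ[X][X]) (hM : M.Monic)
    (u : ℚ) (hu : u ≠ 0) (hFM : isoP (MvPolynomial.map (Int.castRingHom ℚ) F) = C (C u) * M)
    (hFi : Irreducible (MvPolynomial.map (Int.castRingHom ℚ) F))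
    (hpow : ∀ q : ℕ, q.Prime → q ∣ n → ∀ (h : ℚ[X]) (e : ℚ),
      (MvPolynomial.aeval ![(X : ℤ[X]), (0 : ℤ[X])] F).map (Int.castRingHom ℚ) ≠ C e * h ^ q)
    (a : ℤ) (ha : a ≠ 0) :
    Irreducible (MvPolynomial.map (Int.castRingHom ℚ) (sub a n F)) := by
  have haQ : (a : ℚ) ≠ 0 := by exact_mod_cast ha
  have hMi : Irreducible M := by
    rw [← MulEquiv.irreducible_iff isoP, hFM, irreducible_isUnit_mul (isUnit_CC hu)] at hFi
    exact hFi
  -- the substitution `y ↦ a y`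
  obtain ⟨D, hD⟩ : ∃ D : ℕ, D = M.natDegree := ⟨_, rfl⟩
  have haD : (a : ℚ) ^ D ≠ 0 := pow_ne_zero _ haQ
  obtain ⟨M1, hM1⟩ : ∃ M1 : ℚ[X][X], M1 = M.comp (C (C (a : ℚ)) * X) := ⟨_, rfl⟩
  have hM1i : Irreducible M1 := by
    have hinv : C (C (a : ℚ)) * C (C ((a : ℚ)⁻¹)) = (1 : ℚ[X][X]) := by
      rw [← C_mul, ← C_mul, mul_inv_cancel₀ haQ, C_1, C_1]
    obtain ⟨φ, hφ⟩ : ∃ φ : ℚ[X][X] ≃+* ℚ[X][X], ∀ P, φ P = P.comp (C (C (a : ℚ)) * X) := by
      refine ⟨RingEquiv.ofRingHom (compRingHom (C (C (a : ℚ)) * X))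
        (compRingHom (C (C ((a : ℚ)⁻¹)) * X)) ?_ ?_, ?_⟩
      · apply Polynomial.ringHom_ext
        · intro p; simp
        · simp only [RingHom.comp_apply, coe_compRingHom_apply, X_comp, mul_comp, C_comp,
            RingHom.id_apply]
          rw [← mul_assoc, mul_comm (C (C ((a : ℚ)⁻¹))), hinv, one_mul]
      · apply Polynomial.ringHom_ext
        · intro p; simp
        · simp only [RingHom.comp_apply, coe_compRingHom_apply, X_comp, mul_comp, C_comp,
            RingHom.id_apply]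
          rw [← mul_assoc, hinv, one_mul]
      · intro P
        rfl
    rw [hM1, ← hφ, MulEquiv.irreducible_iff]
    exact hMi
  obtain ⟨M2, hM2⟩ : ∃ M2 : ℚ[X][X], M2 = C (C ((a : ℚ) ^ D)⁻¹) * M1 := ⟨_, rfl⟩
  have hM12 : M1 = C (C ((a : ℚ) ^ D)) * M2 := by
    rw [hM2, ← mul_assoc, ← C_mul, ← C_mul, mul_inv_cancel₀ haD, C_1, C_1, one_mul]
  have hM2i : Irreducible M2 := by
    rw [hM2, irreducible_isUnit_mul (isUnit_CC (inv_ne_zero haD))]
    exact hM1i
  have hCa : (C (C (a : ℚ)) : ℚ[X][X]) * X = C (C (a : ℚ)) * X := rfl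
  have hdeg1 : (C (C (a : ℚ)) * X : ℚ[X][X]).natDegree = 1 := by
    rw [natDegree_C_mul_X]
    exact C_ne_zero.2 haQ
  have hM2m : M2.Monic := by
    rw [Monic, hM2, leadingCoeff_mul, leadingCoeff_C, hM1, leadingCoeff_comp (by
      rw [hdeg1]; exact one_ne_zero), hM.leadingCoeff, leadingCoeff_C_mul_X, ← hD, one_mul,
      ← C_pow, ← C_mul, inv_mul_cancel₀ haD, C_1]
  have hM2c : M2.coeff 0 = C ((a : ℚ) ^ D)⁻¹ * M.coeff 0 := by
    rw [hM2, coeff_C_mul, hM1, coeff_zero_eq_eval_zero, eval_comp]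
    simp [coeff_zero_eq_eval_zero]
  have hFM0 : (MvPolynomial.aeval ![(X : ℤ[X]), (0 : ℤ[X])] F).map (Int.castRingHom ℚ) =
      C u * M.coeff 0 := by
    have h1 := isoP_coeff_zero (MvPolynomial.map (Int.castRingHom ℚ) F)
    rw [hFM, coeff_C_mul] at h1
    have h2 : (MvPolynomial.aeval ![(X : ℤ[X]), (0 : ℤ[X])] F).map (Int.castRingHom ℚ) =
        MvPolynomial.aeval ![(X : ℚ[X]), (0 : ℚ[X])] (MvPolynomial.map (Int.castRingHom ℚ) F) := by
      have h3 : ((mapRingHom (Int.castRingHom ℚ)).comp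
          (MvPolynomial.aeval ![(X : ℤ[X]), (0 : ℤ[X])] :
            MvPolynomial (Fin 2) ℤ →ₐ[ℤ] ℤ[X]).toRingHom) =
          ((MvPolynomial.aeval ![(X : ℚ[X]), (0 : ℚ[X])] :
            MvPolynomial (Fin 2) ℚ →ₐ[ℚ] ℚ[X]).toRingHom).comp
            (MvPolynomial.map (Int.castRingHom ℚ)) := by
        apply MvPolynomial.ringHom_ext
        · intro r; simp
        · intro i
          fin_cases i <;> simp
      exact DFunLike.congr_fun h3 F
    rw [h2, ← h1]
  have hirr := irr_gen hn M2 hM2m hM2i (by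
    intro q hq hqn h e he
    apply hpow q hq hqn h (u * ((a : ℚ) ^ D * e))
    rw [hFM0]
    have h1 : M.coeff 0 = C ((a : ℚ) ^ D) * M2.coeff 0 := by
      rw [hM2c, ← mul_assoc, ← C_mul, mul_inv_cancel₀ haD, C_1, one_mul]
    rw [h1, he, ← mul_assoc, ← mul_assoc, ← C_mul, ← C_mul]
    congr 2
    ring)
  -- back to the plane curve
  have hsub : isoP (MvPolynomial.map (Int.castRingHom ℚ) (sub a n F)) =
      (isoP (MvPolynomial.map (Int.castRingHom ℚ) F)).comp (C (C (a : ℚ)) * X ^ n) := by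
    have h1 : isoP (MvPolynomial.map (Int.castRingHom ℚ) (sub a n F)) =
        MvPolynomial.aeval ![(C X : ℚ[X][X]), (a : ℚ[X][X]) * X ^ n] F := by
      have h2 := hom_map (isoP : MvPolynomial (Fin 2) ℚ →+* ℚ[X][X]) (sub a n F)
      rw [RingHom.coe_coe, isoP_X0, isoP_X1] at h2
      exact h2.trans (aeval_sub a n F _ _)
    have h3 : (isoP (MvPolynomial.map (Int.castRingHom ℚ) F)).comp (C (C (a : ℚ)) * X ^ n) =
        MvPolynomial.aeval ![(C X : ℚ[X][X]), (a : ℚ[X][X]) * X ^ n] F := by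
      have h4 : ((compRingHom (C (C (a : ℚ)) * X ^ n : ℚ[X][X])).comp
          (isoP : MvPolynomial (Fin 2) ℚ →+* ℚ[X][X])).comp
            (MvPolynomial.map (Int.castRingHom ℚ)) =
          (MvPolynomial.aeval ![(C X : ℚ[X][X]), (a : ℚ[X][X]) * X ^ n] :
            MvPolynomial (Fin 2) ℤ →ₐ[ℤ] ℚ[X][X]).toRingHom := by
        apply MvPolynomial.ringHom_ext
        · intro r
          simp
        · intro i
          fin_cases i
          · simp [isoP_X0]
          · simp [isoP_X1]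
      exact DFunLike.congr_fun h4 F
    rw [h1, h3]
  rw [← MulEquiv.irreducible_iff isoP, hsub, hFM, mul_comp, C_comp,
    irreducible_isUnit_mul (isUnit_CC hu)]
  have h5 : M.comp (C (C (a : ℚ)) * X ^ n) = C (C ((a : ℚ) ^ D)) * M2.comp (X ^ n) := by
    have h6 : M.comp (C (C (a : ℚ)) * X ^ n) = M1.comp (X ^ n) := by
      rw [hM1, comp_assoc, mul_comp, C_comp, X_comp]
    rw [h6, hM12, mul_comp, C_comp]
  rw [h5, irreducible_isUnit_mul (isUnit_CC haD)]
  exact hirr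

/-- a polynomial which is monic in `y` -/
lemma monicM {K : ℕ} (F : MvPolynomial (Fin 2) ℤ)
    (hF : ∀ s ∈ (F - MvPolynomial.X 1 ^ K).support, s 1 < K) (hK : 1 ≤ K) :
    (isoP (MvPolynomial.map (Int.castRingHom ℚ) F)).Monic := by
  obtain ⟨R, hR⟩ : ∃ R, R = F - MvPolynomial.X 1 ^ K := ⟨_, rfl⟩
  rw [← hR] at hF
  have h1 : isoP (MvPolynomial.map (Int.castRingHom ℚ) F) =
      MvPolynomial.aeval ![(C X : ℚ[X][X]), X] F := by
    have h2 := hom_map (isoP : MvPolynomial (Fin 2) ℚ →+* ℚ[X][X]) F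
    rw [RingHom.coe_coe, isoP_X0, isoP_X1] at h2
    exact h2
  have h2 : MvPolynomial.aeval ![(C X : ℚ[X][X]), X] F =
      X ^ K + MvPolynomial.aeval ![(C X : ℚ[X][X]), X] R := by
    rw [hR, map_sub, map_pow, MvPolynomial.aeval_X]
    simp
  rw [h1, h2]
  apply monic_X_pow_add
  rw [← mem_degreeLT, MvPolynomial.aeval_def, MvPolynomial.eval₂_eq']
  apply Submodule.sum_mem
  intro s hs
  rw [mem_degreeLT, Fin.prod_univ_two]
  simp only [Matrix.cons_val_zero, Matrix.cons_val_one]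
  have e : (algebraMap ℤ ℚ[X][X]) (MvPolynomial.coeff s R) *
      ((C X) ^ s 0 * (X : ℚ[X][X]) ^ s 1) =
      C (C ((MvPolynomial.coeff s R : ℤ) : ℚ) * X ^ s 0) * X ^ (s 1) := by
    have e1 : (algebraMap ℤ ℚ[X][X]) (MvPolynomial.coeff s R) =
        C (C ((MvPolynomial.coeff s R : ℤ) : ℚ)) := by simp
    rw [e1]
    simp only [map_mul, map_pow]
    ring
  rw [e]
  refine lt_of_le_of_lt (degree_C_mul_X_pow_le _ _) ?_
  exact_mod_cast hF s hs

end

end Pool.Agent.X95T
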