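import Pool.Agent.X95T.HM2
import Pool.Agent.X95T.HN1

/-!
Integral points on curves with one place at infinity, of degree two, which are stacky along `y = 0`: one bound for all
the curves with a given leading form.
-/

set_option autoImplicit false

open IntermediateField

open Pool.Agent.Results.MP_821da1_nt

namespace Pool.Agent.X95T

/-- integral points on a curve with one quadratic place at infinity, stacky along `y = 0` -/
theorem stackQuad (n k δ : ℕ) (hn : 2 ≤ n) (hk : 1 ≤ k) (hδ : 1 ≤ δ) (hkn : Nat.Coprime k n) :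
    ∃ C : ℕ, ∀ α β : ℤ, ¬ IsSquare (α ^ 2 - 4 * β) → ∀ S : Finset ℕ, ∃ c : ℕ,
      ∀ F : MvPolynomial (Fin 2) ℤ,
      (∀ s ∈ (F - MvPolynomial.X 1 ^ (2 * k) -
          MvPolynomial.C α * MvPolynomial.X 1 ^ k * MvPolynomial.X 0 ^ (n * δ) -
          MvPolynomial.C β * MvPolynomial.X 0 ^ (2 * (n * δ))).support,
        k * s 0 + (n * δ) * s 1 < 2 * (n * δ) * k) →
      Irreducible (MvPolynomial.map (Int.castRingHom ℚ) F) →
      (∀ q : ℕ, q.Prime → q ∣ n → ∀ (h : Polynomial ℚ) (e : ℚ),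
        (MvPolynomial.aeval ![(Polynomial.X : Polynomial ℤ), (0 : Polynomial ℤ)] F).map
          (Int.castRingHom ℚ) ≠ Polynomial.C e * h ^ q) →
      ∀ x y a z : ℤ, MvPolynomial.eval ![x, y] F = 0 → y = a * z ^ n → a ≠ 0 →
        (∀ q : ℕ, q.Prime → (q : ℤ) ∣ a → q ∈ S) →
        max x.natAbs y.natAbs ≤ (c * ∑ m ∈ F.support, (F.coeff m).natAbs) ^ C := by
  obtain ⟨C₀, c₀, hR⟩ := RepulsionAllCurves.result.2
  obtain ⟨d, hd⟩ : ∃ d : ℕ, d = 2 * (n * δ) + n * (2 * k) := ⟨_, rfl⟩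
  obtain ⟨A, hA⟩ : ∃ A : ℕ, A = C₀ d := ⟨_, rfl⟩
  refine ⟨A * n + A + 1, ?_⟩
  intro α β hαβ S
  have hαβq : ∀ q : ℚ, q ^ 2 + α * q + β ≠ 0 := by
    intro q hq
    apply hαβ
    rw [← Rat.isSquare_intCast_iff]
    refine ⟨2 * q + α, ?_⟩
    push_cast
    linear_combination (-4 : ℚ) * hq
  have hβ0 : β ≠ 0 := by
    rintro rfl
    exact hαβq 0 (by simp)
  -- the constants of the fields
  have hca := Pool.Agent.X95T.const_a n k α β hβ0 (by omega) (fun θ => c₀ d ℚ⟮θ⟯)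
  choose t ht using hca
  obtain ⟨M, hM⟩ : ∃ M : ℕ, M = ∏ q ∈ S, (q + 1) ^ n := ⟨_, rfl⟩
  have hM1 : 1 ≤ M := by
    rw [hM]
    exact Nat.succ_le_of_lt (Finset.prod_pos (fun q _ => pow_pos (Nat.succ_pos q) n))
  obtain ⟨T, hT⟩ : ∃ T : ℕ, T = A + ∑ a ∈ Finset.Icc (-(M : ℤ)) M, t a := ⟨_, rfl⟩
  have hT1 : ∀ a : ℤ, a.natAbs ≤ M → t a ≤ T := by
    intro a ha
    rw [hT]
    refine le_trans ?_ (Nat.le_add_left _ _)
    apply Finset.single_le_sum (f := t) (fun _ _ => Nat.zero_le _)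
    rw [Finset.mem_Icc]
    omega
  refine ⟨M * ((T + 1) * M ^ (2 * k)), ?_⟩
  intro F hF hFi hpow x y a₀ z₀ h0 hy0 ha₀ ha₀S
  have hlenF : RepulsionAllCurves.len F = ∑ m ∈ F.support, (F.coeff m).natAbs := rfl
  rw [← hlenF]
  have hprimes : a₀.natAbs.primeFactors ⊆ S := by
    intro q hq
    exact ha₀S q (Nat.prime_of_mem_primeFactors hq)
      (Int.natCast_dvd.2 (Nat.dvd_of_mem_primeFactors hq))
  obtain ⟨a, z, ha0, haM, hyz⟩ : ∃ a z : ℤ, a ≠ 0 ∧ a.natAbs ≤ M ∧ y = a * z ^ n := by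
    by_cases hy : y = 0
    · refine ⟨1, 0, one_ne_zero, hM1, ?_⟩
      rw [hy, zero_pow (by omega), mul_zero]
    · obtain ⟨a, z, ha0, hap, haM, hyz⟩ := Pool.Agent.X95T.free_part_b (n := n) (by omega) a₀ ha₀
        y hy (fun q hq hqb => by
          have hz₀ : z₀ ≠ 0 := by
            rintro rfl
            rw [zero_pow (by omega), mul_zero] at hy0
            exact hy hy0
          rw [hy0, Int.natAbs_mul, Int.natAbs_pow, Nat.factorization_mul
            (Int.natAbs_ne_zero.2 ha₀) (pow_ne_zero _ (Int.natAbs_ne_zero.2 hz₀)),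
            Nat.factorization_pow]
          have h5 : a₀.natAbs.factorization q = 0 :=
            Nat.factorization_eq_zero_of_not_dvd (fun h => hqb (Int.natCast_dvd.2 h))
          simp [h5])
      refine ⟨a, z, ha0, haM.trans ?_, hyz⟩
      rw [hM, ← Finset.prod_pow]
      calc ∏ q ∈ a₀.natAbs.primeFactors, q ^ n
          ≤ ∏ q ∈ a₀.natAbs.primeFactors, (q + 1) ^ n :=
            Finset.prod_le_prod' (fun q _ => Nat.pow_le_pow_left (Nat.le_succ q) _)
        _ ≤ ∏ q ∈ S, (q + 1) ^ n :=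
            Finset.prod_le_prod_of_subset_of_one_le' hprimes
              (fun q _ _ => Nat.one_le_pow _ _ (Nat.succ_pos q))
  have hN' : 1 ≤ n * δ := Nat.mul_pos (by omega) hδ
  have hirr : Irreducible (MvPolynomial.map (Int.castRingHom ℚ) (Pool.Agent.X95T.sub a n F)) := by
    refine Pool.Agent.X95T.irr_gen_sub (by omega) F _ (Pool.Agent.X95T.monicM F
      (Pool.Agent.X95T.supp2 hN' hk α β F hF).1 (by omega)) 1 one_ne_zero ?_ hFi hpow a ha0
    rw [Polynomial.C_1, Polynomial.C_1, one_mul]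
  have hN : 1 ≤ n * δ := Nat.mul_pos (by omega) hδ
  have hsupp := (Pool.Agent.X95T.supp2 hN hk α β F hF).2
  have hF0 : F ≠ 0 := by
    rintro rfl
    rw [map_zero, map_zero] at hirr
    exact hirr.ne_zero rfl
  have hlen1 : 1 ≤ RepulsionAllCurves.len F := Pool.Agent.Y910.G.len_pos hF0
  have hlen : RepulsionAllCurves.len (Pool.Agent.X95T.sub a n F) ≤
      M ^ (2 * k) * RepulsionAllCurves.len F :=
    (Pool.Agent.X95T.len_sub a ha0 n (2 * k) F (fun s hs => (hsupp s hs).2)).trans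
      (Nat.mul_le_mul_right _ (Nat.pow_le_pow_left haM _))
  have hdeg := Pool.Agent.X95T.deg_sub a n (2 * k) (2 * (n * δ)) F hsupp
  rw [← hd] at hdeg
  have hev : MvPolynomial.eval ![x, z] (Pool.Agent.X95T.sub a n F) = 0 := by
    have h5 := Pool.Agent.X95T.aeval_sub a n F x z
    rw [MvPolynomial.aeval_eq_eval, MvPolynomial.aeval_eq_eval] at h5
    rw [h5]
    simp only [Int.cast_id]
    rw [← hyz]
    exact h0
  have hmain : max x.natAbs z.natAbs ≤
      ((T + 1) * RepulsionAllCurves.len (Pool.Agent.X95T.sub a n F)) ^ A := by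
    rcases hR d _ x z hdeg hirr hev with h | ⟨g, hg, η, hη, hk3⟩
    · rw [← hA] at h
      refine h.trans (Nat.pow_le_pow_left (Nat.mul_le_mul_right _ ?_) _)
      rw [hT]
      omega
    · obtain ⟨θ, hθ, hθη, hθ3⟩ := Pool.Agent.X95T.key2 hn hk hδ hkn a ha0 α β hαβq F hF hirr g hg
        η hη
      have h5 := hk3 ℚ⟮θ⟯ (by rw [adjoin_simple_le_iff]; exact hθη) hθ3
      rw [← hA] at h5
      refine h5.trans (Nat.pow_le_pow_left (Nat.mul_le_mul_right _ ?_) _)
      exact (ht a θ hθ).trans ((hT1 a haM).trans (Nat.le_succ _))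
  obtain ⟨B, hB⟩ : ∃ B : ℕ, B = (T + 1) * M ^ (2 * k) * RepulsionAllCurves.len F := ⟨_, rfl⟩
  have hB1 : 1 ≤ B := by
    rw [hB]
    exact Nat.mul_pos (Nat.mul_pos (Nat.succ_pos _) (pow_pos hM1 _)) hlen1
  have h5 : max x.natAbs z.natAbs ≤ B ^ A := by
    refine hmain.trans (Nat.pow_le_pow_left ?_ _)
    rw [hB, mul_assoc]
    exact Nat.mul_le_mul_left _ hlen
  have h6 : M * ((T + 1) * M ^ (2 * k)) * RepulsionAllCurves.len F = M * B := by
    rw [hB, mul_assoc]
  rw [h6]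
  have h7 : 1 ≤ M * B := Nat.mul_pos hM1 hB1
  have h8 : B ≤ M * B := Nat.le_mul_of_pos_left _ hM1
  apply max_le
  · calc x.natAbs ≤ B ^ A := (le_max_left _ _).trans h5
      _ ≤ (M * B) ^ A := Nat.pow_le_pow_left h8 _
      _ ≤ _ := Nat.pow_le_pow_right h7 (by omega)
  · have h9 : y.natAbs = a.natAbs * z.natAbs ^ n := by
      rw [hyz, Int.natAbs_mul, Int.natAbs_pow]
    rw [h9]
    calc a.natAbs * z.natAbs ^ n ≤ M * (B ^ A) ^ n :=
          Nat.mul_le_mul haM (Nat.pow_le_pow_left ((le_max_right _ _).trans h5) _)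
      _ ≤ M * (M * B) ^ (A * n) := by
          rw [← pow_mul]
          exact Nat.mul_le_mul_left _ (Nat.pow_le_pow_left h8 _)
      _ ≤ (M * B) * (M * B) ^ (A * n) := Nat.mul_le_mul_right _ (Nat.le_mul_of_pos_right _ hB1)
      _ = (M * B) ^ (A * n + 1) := by rw [pow_succ]; ring
      _ ≤ _ := Nat.pow_le_pow_right h7 (by omega)

end Pool.Agent.X95T
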