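import Pool.Agent.X95T.HN1

set_option autoImplicit false

namespace Pool.Agent.X95T

section

open Polynomial

lemma monic_deg1 {K : Type} [Field K] (g : K[X]) (hg : g.Monic) (hd : g.natDegree = 1) :
    g = X + C (g.coeff 0) := by
  have h := hg.as_sum
  rw [hd] at h
  rw [h]
  simp

lemma monic_deg2 {K : Type} [Field K] (g : K[X]) (hg : g.Monic) (hd : g.natDegree = 2) :
    g = X ^ 2 + C (g.coeff 1) * X + C (g.coeff 0) := by
  have h := hg.as_sum
  rw [hd, Finset.sum_range_succ, Finset.sum_range_one] at h
  conv_lhs => rw [h]
  simp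
  ring

/-- the minimal polynomial of `√A + √B` -/
noncomputable def biq {R : Type} [CommRing R] (A B : R) : R[X] :=
  X ^ 4 - C (2 * (A + B)) * X ^ 2 + C ((A - B) ^ 2)

lemma biq_monic {R : Type} [CommRing R] [Nontrivial R] (A B : R) : (biq A B).Monic := by
  unfold biq
  monicity!

lemma biq_deg {R : Type} [CommRing R] [Nontrivial R] (A B : R) : (biq A B).natDegree = 4 := by
  unfold biq
  compute_degree!

lemma biq_irr {K : Type} [Field K] [CharZero K] (A B : K) (hA : ¬ IsSquare A)
    (hB : ¬ IsSquare B) (hAB : ¬ IsSquare (A * B)) : Irreducible (biq A B) := by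
  rw [(biq_monic A B).irreducible_iff_natDegree']
  constructor
  · intro h
    have := congrArg natDegree h
    rw [biq_deg, natDegree_one] at this
    omega
  · intro f g hf hg hfg hmem
    rw [biq_deg, Finset.mem_Ioc] at hmem
    have hdeg : f.natDegree + g.natDegree = 4 := by
      rw [← biq_deg A B, ← hfg, hf.natDegree_mul hg]
    rcases (by omega : g.natDegree = 1 ∨ g.natDegree = 2) with h1 | h1
    · -- a root
      have h2 : (biq A B).eval (-g.coeff 0) = 0 := by
        rw [← hfg, eval_mul, monic_deg1 g hg h1]
        simp
      apply hAB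
      refine ⟨((g.coeff 0) ^ 2 - A - B) / 2, ?_⟩
      rw [biq] at h2
      simp at h2
      linear_combination (-1 / 4 : K) * h2
    · have h3 : f.natDegree = 2 := by omega
      obtain ⟨u, hu⟩ : ∃ u, u = g.coeff 1 := ⟨_, rfl⟩
      obtain ⟨v, hv⟩ : ∃ v, v = g.coeff 0 := ⟨_, rfl⟩
      obtain ⟨u', hu'⟩ : ∃ u', u' = f.coeff 1 := ⟨_, rfl⟩
      obtain ⟨v', hv'⟩ : ∃ v', v' = f.coeff 0 := ⟨_, rfl⟩
      have hg2 := monic_deg2 g hg h1
      have hf2 := monic_deg2 f hf h3
      rw [← hu, ← hv] at hg2
      rw [← hu', ← hv'] at hf2
      have hprod : (X ^ 2 + C u' * X + C v') * (X ^ 2 + C u * X + C v) = biq A B := by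
        rw [← hg2, ← hf2, hfg]
      have e : (X ^ 2 + C u' * X + C v') * (X ^ 2 + C u * X + C v) =
          X ^ 4 + C (u + u') * X ^ 3 + C (v + v' + u * u') * X ^ 2 + C (u * v' + u' * v) * X +
            C (v * v') := by
        simp only [C_add, C_mul]
        ring
      rw [e, biq] at hprod
      have c3 := congrArg (fun p => coeff p 3) hprod
      have c2 := congrArg (fun p => coeff p 2) hprod
      have c1 := congrArg (fun p => coeff p 1) hprod
      have c0 := congrArg (fun p => coeff p 0) hprod
      simp only [coeff_add, coeff_sub, coeff_C_mul, coeff_X_pow, coeff_X, coeff_C] at c3 c2 c1 c0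
      norm_num at c3 c2 c1 c0
      have k3 : u' = -u := by linear_combination c3
      rw [k3] at c2 c1
      have k1 : u * (v' - v) = 0 := by linear_combination c1
      rcases mul_eq_zero.1 k1 with h4 | h4
      · apply hAB
        refine ⟨(v - v') / 4, ?_⟩
        rw [h4] at c2
        have c2' : v' = -(2 * (A + B)) - v := by linear_combination c2
        rw [c2'] at c0 ⊢
        linear_combination (1 / 4 : K) * c0
      · have k2 : v' = v := by linear_combination h4
        rw [k2] at c2 c0
        have k4 : (v - (A - B)) * (v + (A - B)) = 0 := by linear_combination c0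
        rcases mul_eq_zero.1 k4 with h5 | h5
        · apply hA
          refine ⟨u / 2, ?_⟩
          have : v = A - B := by linear_combination h5
          rw [this] at c2
          linear_combination (1 / 4 : K) * c2
        · apply hB
          refine ⟨u / 2, ?_⟩
          have : v = -(A - B) := by linear_combination h5
          rw [this] at c2
          linear_combination (1 / 4 : K) * c2

end

end Pool.Agent.X95T
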