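import Pool.Agent.X95T.HO1
import Pool.Agent.X95T.HK5
import Pool.Agent.X95T.HC

set_option autoImplicit false

open IntermediateField

namespace Pool.Agent.X95T

open Pool.Agent.Results.MP_821da1_nt.RepulsionAllCurves (CoordRing AtInfinity OnePlace)

/-- the only place at infinity is invariant under the automorphisms that fix `x` -/
lemma autoG (G : MvPolynomial (Fin 2) ℤ)
    (hint : (jx G).IsIntegral) (hdom : IsDomain (CoordRing G))
    {L : Type} [Field L] [CharZero L] [Algebra (CoordRing G) L] [IsFractionRing (CoordRing G) L]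
    (A : ValuationSubring L) (hA : ∀ A' : ValuationSubring L, AtInfinity G L A' ↔ A' = A)
    (hQ : ∀ q : ℚ, (q : L) ∈ A) (x t : L)
    (hx : x = algebraMap (CoordRing G) L (Ideal.Quotient.mk _ (MvPolynomial.X 0)))
    (ht : t = algebraMap (CoordRing G) L (Ideal.Quotient.mk _ (MvPolynomial.X 1)))
    (hvx : 1 < A.valuation x) (t' : L) (ht' : MvPolynomial.aeval ![x, t'] G = 0) :
    ∃ σ : L →+* L, σ x = x ∧ σ t = t' ∧ ∀ s : L, A.valuation s < 1 → A.valuation (σ s) < 1 := by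
  obtain ⟨ι, hι⟩ : ∃ ι : CoordRing G →+* L, ι = algebraMap _ L := ⟨_, rfl⟩
  have hcast : ∀ q : ℚ, ι (algebraMap ℚ (CoordRing G) q) = (q : L) := fun q =>
    eq_ratCast (ι.comp (algebraMap ℚ (CoordRing G))) q
  obtain ⟨ψ₀, hψ₀0, hψ₀1⟩ : ∃ ψ₀ : MvPolynomial (Fin 2) ℚ →+* L,
      ψ₀ (MvPolynomial.X 0) = x ∧ ψ₀ (MvPolynomial.X 1) = t' :=
    ⟨MvPolynomial.eval₂Hom (Rat.castHom _) ![x, t'], by simp, by simp⟩
  have hψG : ψ₀ (MvPolynomial.map (Int.castRingHom ℚ) G) = 0 := by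
    rw [hom_map, hψ₀0, hψ₀1]
    exact ht'
  obtain ⟨ψ, hψ⟩ : ∃ ψ : CoordRing G →+* L, ∀ P, ψ (Ideal.Quotient.mk _ P) = ψ₀ P :=
    ⟨Ideal.Quotient.lift _ ψ₀ (fun P hP => by
      obtain ⟨c, rfl⟩ := Ideal.mem_span_singleton.1 hP
      rw [map_mul, hψG, zero_mul]), fun P => Ideal.Quotient.lift_mk _ _ _⟩
  have hψinj : Function.Injective ψ := by
    apply injG G hint hdom ψ
    intro p hp
    rw [hψ, hψ₀0] at hp
    exact transc hQ x hvx p hp
  obtain ⟨σ, hσ⟩ : ∃ σ : L →+* L, ∀ r, σ (ι r) = ψ r := by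
    refine ⟨IsFractionRing.lift hψinj, fun r => ?_⟩
    rw [hι]
    exact IsFractionRing.lift_algebraMap hψinj r
  have hσx : σ x = x := by
    conv_lhs => rw [hx, ← hι, hσ, hψ, hψ₀0]
  have hσt : σ t = t' := by rw [ht, ← hι, hσ, hψ, hψ₀1]
  have hcomap : A.comap σ = A := by
    apply (hA _).1
    constructor
    · intro r
      rw [ValuationSubring.mem_comap, ← hι, hcast, map_ratCast]
      exact hQ r
    · refine ⟨0, ?_⟩
      rw [ValuationSubring.mem_comap, ← hx, hσx, ← A.valuation_le_one_iff, not_le]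
      exact hvx
  refine ⟨σ, hσx, hσt, ?_⟩
  intro s hs
  by_contra hcon
  rw [not_lt] at hcon
  have h1 : σ s⁻¹ ∈ A := by
    rw [← A.valuation_le_one_iff, map_inv₀, map_inv₀]
    exact inv_le_one_of_one_le₀ hcon
  rw [← ValuationSubring.mem_comap, hcomap, ← A.valuation_le_one_iff, map_inv₀] at h1
  have hs0 : A.valuation s ≠ 0 := by
    rw [Valuation.ne_zero_iff]
    rintro rfl
    rw [map_zero, map_zero] at hcon
    exact absurd hcon (not_le.2 zero_lt_one)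
  have h2 := (inv_le_one₀ (zero_lt_iff.2 hs0)).1 h1
  exact absurd hs (not_lt.2 h2)

/-- no rational square root at infinity -/
lemma no_sq {L : Type} [Field L] [CharZero L] (A : ValuationSubring L) (hQ : ∀ q : ℚ, (q : L) ∈ A)
    (σ : L →+* L) (hσ : ∀ s : L, A.valuation s < 1 → A.valuation (σ s) < 1) (h : L)
    (hh : σ h = -h) (c r : ℚ) (hc : c ≠ 0) (hr : c = r * r) (hlt : A.valuation (h ^ 2 - c) < 1) :
    False := by
  have hr0 : r ≠ 0 := by
    rintro rfl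
    apply hc
    rw [hr, mul_zero]
  have h1 : A.valuation (h - r) < 1 ∨ A.valuation (h + r) < 1 := by
    by_contra hcon
    rw [not_or, not_lt, not_lt] at hcon
    have h2 : h ^ 2 - c = (h - r) * (h + r) := by
      rw [hr]
      push_cast
      ring
    rw [h2, map_mul] at hlt
    exact absurd hlt (not_lt.2 (one_le_mul hcon.1 hcon.2))
  have h2 : A.valuation (h - r) < 1 ∧ A.valuation (h + r) < 1 := by
    rcases h1 with h3 | h3
    · have h4 := hσ _ h3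
      rw [map_sub, hh, map_ratCast, show -h - (r : L) = -(h + r) by ring, Valuation.map_neg] at h4
      exact ⟨h3, h4⟩
    · have h4 := hσ _ h3
      rw [map_add, hh, map_ratCast, show -h + (r : L) = -(h - r) by ring, Valuation.map_neg] at h4
      exact ⟨h4, h3⟩
  have h3 : A.valuation ((h + r) - (h - r)) < 1 := Valuation.map_sub_lt _ h2.2 h2.1
  rw [show (h + (r : L)) - (h - r) = ((2 * r : ℚ) : L) by push_cast; ring] at h3
  rw [val_rat hQ (mul_ne_zero two_ne_zero hr0)] at h3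
  exact lt_irrefl _ h3

/-- the curve of the numbers `z₁ + z₂`, `a z₁ ^ 2 = f₁ (x)`, `b z₂ ^ 2 = f₂ (x)` -/
noncomputable def G2 (a b : ℤ) (f₁ f₂ : Polynomial ℤ) : MvPolynomial (Fin 2) ℤ :=
  (MvPolynomial.C (a * b) * MvPolynomial.X 1 ^ 2 - MvPolynomial.C b * px f₁ -
    MvPolynomial.C a * px f₂) ^ 2 - MvPolynomial.C (4 * (a * b)) * (px f₁ * px f₂)

lemma evalG2 {R : Type} [CommRing R] (a b : ℤ) (f₁ f₂ : Polynomial ℤ) (x t : R) :
    MvPolynomial.aeval ![x, t] (G2 a b f₁ f₂) =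
      ((a * b : R) * t ^ 2 - b * Polynomial.eval₂ (Int.castRingHom R) x f₁ -
        a * Polynomial.eval₂ (Int.castRingHom R) x f₂) ^ 2 -
        4 * (a * b) * (Polynomial.eval₂ (Int.castRingHom R) x f₁ *
          Polynomial.eval₂ (Int.castRingHom R) x f₂) := by
  rw [G2]
  simp only [map_sub, map_mul, map_pow, MvPolynomial.aeval_X, aeval_px,
    Matrix.cons_val_one, Matrix.cons_val_zero, eq_intCast, map_ofNat]
  simp [aeval_gen]

section

open Polynomial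

lemma isoG2 (a b : ℤ) (ha : a ≠ 0) (hb : b ≠ 0) (f₁ f₂ : Polynomial ℤ) :
    isoP (MvPolynomial.map (Int.castRingHom ℚ) (G2 a b f₁ f₂)) = C (C (((a : ℚ) * b) ^ 2)) *
      biq (C ((a : ℚ)⁻¹) * f₁.map (Int.castRingHom ℚ)) (C ((b : ℚ)⁻¹) * f₂.map (Int.castRingHom ℚ)) := by
  have haQ : (a : ℚ) ≠ 0 := by exact_mod_cast ha
  have hbQ : (b : ℚ) ≠ 0 := by exact_mod_cast hb
  have h2 := hom_map (isoP : MvPolynomial (Fin 2) ℚ →+* ℚ[X][X]) (G2 a b f₁ f₂)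
  rw [RingHom.coe_coe, isoP_X0, isoP_X1] at h2
  rw [h2]
  refine (evalG2 a b f₁ f₂ _ _).trans ?_
  have hae : ∀ P : ℤ[X], eval₂ (Int.castRingHom ℚ[X][X]) (C X : ℚ[X][X]) P =
      C (P.map (Int.castRingHom ℚ)) := by
    intro P
    have h3 : eval₂RingHom (Int.castRingHom ℚ[X][X]) (C X : ℚ[X][X]) =
        (C : ℚ[X] →+* ℚ[X][X]).comp (mapRingHom (Int.castRingHom ℚ)) := by
      apply Polynomial.ringHom_ext'
      · exact Subsingleton.elim _ _
      · simp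
    exact DFunLike.congr_fun h3 P
  obtain ⟨A, hA⟩ : ∃ A : ℚ[X], A = C ((a : ℚ)⁻¹) * f₁.map (Int.castRingHom ℚ) := ⟨_, rfl⟩
  obtain ⟨B, hB⟩ : ∃ B : ℚ[X], B = C ((b : ℚ)⁻¹) * f₂.map (Int.castRingHom ℚ) := ⟨_, rfl⟩
  have hf1 : f₁.map (Int.castRingHom ℚ) = C (a : ℚ) * A := by
    rw [hA, ← mul_assoc, ← C_mul, mul_inv_cancel₀ haQ, C_1, one_mul]
  have hf2 : f₂.map (Int.castRingHom ℚ) = C (b : ℚ) * B := by
    rw [hB, ← mul_assoc, ← C_mul, mul_inv_cancel₀ hbQ, C_1, one_mul]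
  have hca : (a : ℚ[X][X]) = C (C (a : ℚ)) := by simp
  have hcb : (b : ℚ[X][X]) = C (C (b : ℚ)) := by simp
  rw [← hA, ← hB, hae, hae, hf1, hf2, hca, hcb, biq]
  simp only [C_mul, C_add, C_sub, C_pow, map_ofNat]
  ring

lemma sq_of_sq {A : ℚ[X]} (h : IsSquare (algebraMap ℚ[X] (FractionRing ℚ[X]) A)) :
    ∃ g : ℚ[X], A = g ^ 2 := by
  obtain ⟨r, hr⟩ := h
  obtain ⟨g, hg⟩ := IsIntegrallyClosed.exists_algebraMap_eq_of_isIntegral_pow (R := ℚ[X])
    (K := FractionRing ℚ[X]) (x := r) (n := 2) two_pos (by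
      rw [sq, ← hr]
      exact isIntegral_algebraMap)
  refine ⟨g, ?_⟩
  apply IsFractionRing.injective ℚ[X] (FractionRing ℚ[X])
  rw [map_pow, hg, hr, sq]

lemma irrG2 (a b : ℤ) (ha : a ≠ 0) (hb : b ≠ 0) (f₁ f₂ : Polynomial ℤ)
    (hf : ∀ (h : ℚ[X]) (e : ℚ), f₁.map (Int.castRingHom ℚ) ≠ C e * h ^ 2 ∧
      f₂.map (Int.castRingHom ℚ) ≠ C e * h ^ 2 ∧ (f₁ * f₂).map (Int.castRingHom ℚ) ≠ C e * h ^ 2) :
    Irreducible (MvPolynomial.map (Int.castRingHom ℚ) (G2 a b f₁ f₂)) := by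
  have haQ : (a : ℚ) ≠ 0 := by exact_mod_cast ha
  have hbQ : (b : ℚ) ≠ 0 := by exact_mod_cast hb
  have hab : ((a : ℚ) * b) ^ 2 ≠ 0 := pow_ne_zero _ (mul_ne_zero haQ hbQ)
  obtain ⟨A, hA⟩ : ∃ A : ℚ[X], A = C ((a : ℚ)⁻¹) * f₁.map (Int.castRingHom ℚ) := ⟨_, rfl⟩
  obtain ⟨B, hB⟩ : ∃ B : ℚ[X], B = C ((b : ℚ)⁻¹) * f₂.map (Int.castRingHom ℚ) := ⟨_, rfl⟩
  have hf1 : f₁.map (Int.castRingHom ℚ) = C (a : ℚ) * A := by
    rw [hA, ← mul_assoc, ← C_mul, mul_inv_cancel₀ haQ, C_1, one_mul]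
  have hf2 : f₂.map (Int.castRingHom ℚ) = C (b : ℚ) * B := by
    rw [hB, ← mul_assoc, ← C_mul, mul_inv_cancel₀ hbQ, C_1, one_mul]
  rw [← MulEquiv.irreducible_iff isoP, isoG2 a b ha hb, irreducible_isUnit_mul (isUnit_CC hab),
    (biq_monic _ _).irreducible_iff_irreducible_map_fraction_map (K := FractionRing ℚ[X])]
  rw [← hA, ← hB]
  have h1 : (biq A B).map (algebraMap ℚ[X] (FractionRing ℚ[X])) =
      biq (algebraMap ℚ[X] (FractionRing ℚ[X]) A) (algebraMap ℚ[X] (FractionRing ℚ[X]) B) := by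
    simp [biq, map_ofNat]
  rw [h1]
  apply biq_irr
  · intro h
    obtain ⟨g, hg⟩ := sq_of_sq h
    exact (hf g a).1 (by rw [hf1, hg])
  · intro h
    obtain ⟨g, hg⟩ := sq_of_sq h
    exact (hf g b).2.1 (by rw [hf2, hg])
  · intro h
    rw [← map_mul] at h
    obtain ⟨g, hg⟩ := sq_of_sq h
    refine (hf g (a * b)).2.2 ?_
    rw [Polynomial.map_mul, hf1, hf2, ← hg, C_mul]
    ring

lemma intG2 (a b : ℤ) (ha : a ≠ 0) (hb : b ≠ 0) (f₁ f₂ : Polynomial ℤ) :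
    (jx (G2 a b f₁ f₂)).IsIntegral := by
  have haQ : (a : ℚ) ≠ 0 := by exact_mod_cast ha
  have hbQ : (b : ℚ) ≠ 0 := by exact_mod_cast hb
  exact isIntG _ _ (biq_monic _ _) _ (pow_ne_zero _ (mul_ne_zero haQ hbQ)) (isoG2 a b ha hb f₁ f₂)

end

end Pool.Agent.X95T
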