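import Pool.Agent.X95T.HO2

set_option autoImplicit false

open IntermediateField

namespace Pool.Agent.X95T

open Pool.Agent.Results.MP_821da1_nt.RepulsionAllCurves (CoordRing AtInfinity OnePlace)

/-- the residue field of the only place at infinity contains two square roots -/
theorem keyV (a b : ℤ) (ha : a ≠ 0) (hb : b ≠ 0) (f₁ f₂ : Polynomial ℤ) (m₁ m₂ : ℕ)
    (hd₁ : f₁.natDegree = 2 * m₁) (hd₂ : f₂.natDegree = 2 * m₂)
    (hf : ∀ (h : Polynomial ℚ) (e : ℚ), f₁.map (Int.castRingHom ℚ) ≠ Polynomial.C e * h ^ 2 ∧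
      f₂.map (Int.castRingHom ℚ) ≠ Polynomial.C e * h ^ 2 ∧
      (f₁ * f₂).map (Int.castRingHom ℚ) ≠ Polynomial.C e * h ^ 2)
    (c₁ c₂ w₁ w₂ : ℤ) (h₁ : a * f₁.leadingCoeff = c₁ * w₁ ^ 2)
    (h₂ : b * f₂.leadingCoeff = c₂ * w₂ ^ 2) (g : Polynomial ℚ)
    (hG : OnePlace (G2 a b f₁ f₂) g) (η : ℝ) (hη : Polynomial.aeval η g = 0) :
    ∃ s₁ s₂ : ℝ, s₁ ^ 2 = c₁ ∧ s₂ ^ 2 = c₂ ∧ s₁ + s₂ ∈ ℚ⟮η⟯ ∧
      Module.finrank ℚ ℚ⟮s₁ + s₂⟯ = 4 := by
  obtain ⟨hgm, hgi, L, fL, aL, frL, A, hA, ⟨e⟩⟩ := hG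
  obtain ⟨G, hGd⟩ : ∃ G, G = G2 a b f₁ f₂ := ⟨_, rfl⟩
  have hirr := irrG2 a b ha hb f₁ f₂ hf
  have hint := intG2 a b ha hb f₁ f₂
  have hprime : (Ideal.span {MvPolynomial.map (Int.castRingHom ℚ) (G2 a b f₁ f₂)}).IsPrime :=
    (Ideal.span_singleton_prime hirr.ne_zero).2 hirr.prime
  have hdom : IsDomain (CoordRing (G2 a b f₁ f₂)) := Ideal.Quotient.isDomain _
  obtain ⟨ι, hι⟩ : ∃ ι : CoordRing (G2 a b f₁ f₂) →+* L, ι = algebraMap _ L := ⟨_, rfl⟩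
  have hc0 : CharZero L := charZero_of_injective_ringHom
    (f := ι.comp (algebraMap ℚ (CoordRing (G2 a b f₁ f₂)))) (RingHom.injective _)
  have hcast : ∀ q : ℚ, ι (algebraMap ℚ (CoordRing (G2 a b f₁ f₂)) q) = (q : L) := fun q =>
    eq_ratCast (ι.comp (algebraMap ℚ (CoordRing (G2 a b f₁ f₂)))) q
  obtain ⟨x, hx⟩ : ∃ x : L, x = ι (Ideal.Quotient.mk _ (MvPolynomial.X 0)) := ⟨_, rfl⟩
  obtain ⟨t, ht⟩ : ∃ t : L, t = ι (Ideal.Quotient.mk _ (MvPolynomial.X 1)) := ⟨_, rfl⟩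
  have hAI : AtInfinity (G2 a b f₁ f₂) L A := (hA A).2 rfl
  have hQ : ∀ q : ℚ, (q : L) ∈ A := fun q => by
    rw [← hcast, hι]
    exact hAI.1 q
  -- the equation
  have hG0 : ι (Ideal.Quotient.mk _ (MvPolynomial.map (Int.castRingHom ℚ) (G2 a b f₁ f₂))) = 0 := by
    rw [Ideal.Quotient.eq_zero_iff_mem.2 (Ideal.mem_span_singleton_self _), map_zero]
  have hF0 : MvPolynomial.aeval ![x, t] (G2 a b f₁ f₂) = 0 := by
    rw [hx, ht]
    exact (hom_map (ι.comp (Ideal.Quotient.mk _)) (G2 a b f₁ f₂)).symm.trans hG0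
  rw [evalG2, ← aeval_gen, ← aeval_gen] at hF0
  obtain ⟨F1, hF1⟩ : ∃ F1 : L, F1 = Polynomial.aeval x f₁ := ⟨_, rfl⟩
  obtain ⟨F2, hF2⟩ : ∃ F2 : L, F2 = Polynomial.aeval x f₂ := ⟨_, rfl⟩
  rw [← hF1, ← hF2] at hF0
  have haL : (a : L) ≠ 0 := by exact_mod_cast ha
  have hbL : (b : L) ≠ 0 := by exact_mod_cast hb
  have hva : A.valuation (a : L) = 1 := val_int A hQ a ha
  have hvb : A.valuation (b : L) = 1 := val_int A hQ b hb
  have hle : ∀ c : ℤ, A.valuation (c : L) ≤ 1 := by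
    intro c
    have : ((c : ℚ) : L) = (c : L) := by simp
    rw [← this, A.valuation_le_one_iff]
    exact hQ _
  have hf₁0 : f₁ ≠ 0 := by
    rintro rfl
    exact (hf 0 0).1 (by simp)
  have hf₂0 : f₂ ≠ 0 := by
    rintro rfl
    exact (hf 0 0).2.1 (by simp)
  have hvx : 1 < A.valuation x := by
    by_contra hcon
    rw [not_lt, A.valuation_le_one_iff] at hcon
    have hmemP : ∀ P : Polynomial ℤ, A.valuation (Polynomial.aeval x P) ≤ 1 := by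
      intro P
      rw [A.valuation_le_one_iff, aeval_gen]
      have h3 := Polynomial.hom_eval₂ P (Int.castRingHom A) A.subtype ⟨x, hcon⟩
      have h4 : A.subtype.comp (Int.castRingHom A) = Int.castRingHom L := Subsingleton.elim _ _
      rw [h4] at h3
      rw [← show A.subtype ⟨x, hcon⟩ = x from rfl, ← h3]
      exact Subtype.mem _
    have hF1v : A.valuation F1 ≤ 1 := hF1 ▸ hmemP f₁
    have hF2v : A.valuation F2 ≤ 1 := hF2 ▸ hmemP f₂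
    obtain ⟨i, hi⟩ := hAI.2
    rw [← hι] at hi
    fin_cases i
    · have hcon' := hcon
      rw [hx] at hcon'
      exact hi hcon'
    · have hgoal : t ∉ A := by rw [ht]; exact hi
      apply hgoal
      rw [← A.valuation_le_one_iff]
      have h1 : ((a : L) * b * t ^ 2 - b * F1 - a * F2) ^ 2 = 4 * (a * b) * (F1 * F2) := by
        linear_combination hF0
      have h2 : A.valuation (((a : L) * b * t ^ 2 - b * F1 - a * F2) ^ 2) ≤ 1 := by
        rw [h1]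
        have h4 : A.valuation (4 : L) ≤ 1 := by
          have := hle 4
          push_cast at this
          exact this
        simp only [map_mul]
        rw [hva, hvb]
        simp only [mul_one]
        exact mul_le_one' h4 (mul_le_one' hF1v hF2v)
      rw [map_pow] at h2
      have h3 : A.valuation ((a : L) * b * t ^ 2 - b * F1 - a * F2) ≤ 1 := by
        by_contra h5
        rw [not_le] at h5
        exact absurd h2 (not_le.2 (one_lt_pow₀ h5 two_ne_zero))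
      have h4 : A.valuation ((a : L) * b * t ^ 2) ≤ 1 := by
        have e1 : (a : L) * b * t ^ 2 = ((a : L) * b * t ^ 2 - b * F1 - a * F2) + b * F1 + a * F2 := by
          ring
        rw [e1]
        refine Valuation.map_add_le _ (Valuation.map_add_le _ h3 ?_) ?_
        · rw [map_mul, hvb, one_mul]; exact hF1v
        · rw [map_mul, hva, one_mul]; exact hF2v
      rw [map_mul, map_mul, hva, hvb, one_mul, one_mul, map_pow] at h4
      by_contra h5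
      rw [not_le] at h5
      exact absurd h4 (not_le.2 (one_lt_pow₀ h5 two_ne_zero))
  have hx0 : x ≠ 0 := by rintro rfl; simp at hvx
  -- the two square roots
  obtain ⟨P1, hP1⟩ : ∃ P1 : L, P1 = F1 / a := ⟨_, rfl⟩
  obtain ⟨P2, hP2⟩ : ∃ P2 : L, P2 = F2 / b := ⟨_, rfl⟩
  have eF1 : F1 = a * P1 := by rw [hP1]; field_simp
  have eF2 : F2 = b * P2 := by rw [hP2]; field_simp
  have hrel : (t ^ 2 - P1 - P2) ^ 2 = 4 * P1 * P2 := by
    have h3 : ((a : L) * b) ^ 2 * ((t ^ 2 - P1 - P2) ^ 2 - 4 * P1 * P2) = 0 := by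
      rw [eF1, eF2] at hF0
      linear_combination hF0
    have h4 := (mul_eq_zero.1 h3).resolve_left (pow_ne_zero _ (mul_ne_zero haL hbL))
    linear_combination h4
  have hne : P1 ≠ P2 := by
    intro h3
    have h4 : Polynomial.aeval x (Polynomial.C b * f₁ - Polynomial.C a * f₂) = 0 := by
      rw [map_sub, map_mul, map_mul, ← hF1, ← hF2, eF1, eF2, h3]
      simp
      ring
    have h5 : Polynomial.C b * f₁ - Polynomial.C a * f₂ = 0 := by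
      by_contra h6
      have h7 := aeval_val A hQ x hvx _ h6
      rw [h4, map_zero] at h7
      exact pow_ne_zero _ (lt_trans zero_lt_one hvx).ne' h7.symm
    have haQ : (a : ℚ) ≠ 0 := by exact_mod_cast ha
    apply (hf (f₁.map (Int.castRingHom ℚ)) ((b : ℚ) / a)).2.2
    have h6 : (Polynomial.C (b : ℚ) * f₁.map (Int.castRingHom ℚ) : Polynomial ℚ) =
        Polynomial.C (a : ℚ) * f₂.map (Int.castRingHom ℚ) := by
      have h7 := congrArg (Polynomial.map (Int.castRingHom ℚ)) (sub_eq_zero.1 h5)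
      simpa using h7
    have h7 : f₂.map (Int.castRingHom ℚ) = Polynomial.C ((b : ℚ) / a) *
        f₁.map (Int.castRingHom ℚ) := by
      have h8 : (Polynomial.C ((b : ℚ) / a) : Polynomial ℚ) =
          Polynomial.C ((a : ℚ)⁻¹) * Polynomial.C (b : ℚ) := by
        rw [← Polynomial.C_mul]
        congr 1
        field_simp
      rw [h8, mul_assoc, h6, ← mul_assoc, ← Polynomial.C_mul, inv_mul_cancel₀ haQ,
        Polynomial.C_1, one_mul]
    rw [Polynomial.map_mul, h7]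
    ring
  have ht0 : t ≠ 0 := by
    rintro rfl
    apply hne
    have h3 : (P1 - P2) ^ 2 = 0 := by linear_combination hrel
    exact sub_eq_zero.1 (pow_eq_zero_iff two_ne_zero |>.1 h3)
  have h20 : (2 : L) ≠ 0 := two_ne_zero
  obtain ⟨Z1, hZ1⟩ : ∃ Z1 : L, Z1 = (t ^ 2 + P1 - P2) / (2 * t) := ⟨_, rfl⟩
  obtain ⟨Z2, hZ2⟩ : ∃ Z2 : L, Z2 = (t ^ 2 + P2 - P1) / (2 * t) := ⟨_, rfl⟩
  have hsum : Z1 + Z2 = t := by
    rw [hZ1, hZ2]
    field_simp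
    ring
  have hsq1 : Z1 ^ 2 = P1 := by
    rw [hZ1, div_pow, div_eq_iff (pow_ne_zero _ (mul_ne_zero h20 ht0))]
    linear_combination hrel
  have hsq2 : Z2 ^ 2 = P2 := by
    rw [hZ2, div_pow, div_eq_iff (pow_ne_zero _ (mul_ne_zero h20 ht0))]
    linear_combination hrel
  have hZne : Z1 - Z2 ≠ 0 := by
    intro h3
    apply hne
    rw [← hsq1, ← hsq2, sub_eq_zero.1 h3]
  -- the automorphisms
  have hauto : ∀ t' : L, t' ^ 2 = P1 + P2 - 2 * Z1 * Z2 → ∃ σ : L →+* L, σ x = x ∧ σ t = t' ∧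
      ∀ s : L, A.valuation s < 1 → A.valuation (σ s) < 1 := by
    intro t' ht'
    refine autoG (G2 a b f₁ f₂) hint hdom A hA hQ x t (by rw [hx, hι]) (by rw [ht, hι]) hvx t' ?_
    rw [evalG2, ← aeval_gen, ← aeval_gen, ← hF1, ← hF2, eF1, eF2]
    have h3 : (t' ^ 2 - P1 - P2) ^ 2 = 4 * P1 * P2 := by
      rw [ht', ← hsq1, ← hsq2]
      ring
    linear_combination ((a : L) * b) ^ 2 * h3
  have hfix : ∀ σ : L →+* L, σ x = x → σ P1 = P1 ∧ σ P2 = P2 := by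
    intro σ hσ
    have h3 : ∀ P : Polynomial ℤ, σ (Polynomial.aeval x P) = Polynomial.aeval x P := by
      intro P
      rw [aeval_gen, Polynomial.hom_eval₂, hσ]
      congr 1
      exact Subsingleton.elim _ _
    constructor
    · rw [hP1, map_div₀, map_intCast, hF1, h3]
    · rw [hP2, map_div₀, map_intCast, hF2, h3]
  obtain ⟨σ₁, hσ₁x, hσ₁t, hσ₁lt⟩ := hauto (Z2 - Z1) (by rw [← hsq1, ← hsq2]; ring)
  obtain ⟨σ₂, hσ₂x, hσ₂t, hσ₂lt⟩ := hauto (Z1 - Z2) (by rw [← hsq1, ← hsq2]; ring)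
  obtain ⟨hf11, hf12⟩ := hfix σ₁ hσ₁x
  obtain ⟨hf21, hf22⟩ := hfix σ₂ hσ₂x
  have hZne' : Z2 - Z1 ≠ 0 := by
    intro h3
    apply hZne
    linear_combination -h3
  have hσ₁Z1 : σ₁ Z1 = -Z1 := by
    rw [hZ1, map_div₀, map_sub, map_add, map_mul, map_pow, hσ₁t, hf11, hf12, map_ofNat, ← hZ1,
      div_eq_iff (mul_ne_zero h20 hZne'), ← hsq1, ← hsq2]
    ring
  have hσ₁Z2 : σ₁ Z2 = Z2 := by
    have h3 := congrArg σ₁ hsum
    rw [map_add, hσ₁Z1, hσ₁t] at h3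
    linear_combination h3
  have hσ₂Z2 : σ₂ Z2 = -Z2 := by
    rw [hZ2, map_div₀, map_sub, map_add, map_mul, map_pow, hσ₂t, hf21, hf22, map_ofNat, ← hZ2,
      div_eq_iff (mul_ne_zero h20 hZne), ← hsq1, ← hsq2]
    ring
  -- the values at infinity
  have hl₁ : f₁.leadingCoeff ≠ 0 := Polynomial.leadingCoeff_ne_zero.2 hf₁0
  have hl₂ : f₂.leadingCoeff ≠ 0 := Polynomial.leadingCoeff_ne_zero.2 hf₂0
  have hw₁ : w₁ ≠ 0 := by
    rintro rfl
    rw [zero_pow two_ne_zero, mul_zero] at h₁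
    exact mul_ne_zero ha hl₁ h₁
  have hw₂ : w₂ ≠ 0 := by
    rintro rfl
    rw [zero_pow two_ne_zero, mul_zero] at h₂
    exact mul_ne_zero hb hl₂ h₂
  have hc₁ : c₁ ≠ 0 := by
    rintro rfl
    rw [zero_mul] at h₁
    exact mul_ne_zero ha hl₁ h₁
  have hc₂ : c₂ ≠ 0 := by
    rintro rfl
    rw [zero_mul] at h₂
    exact mul_ne_zero hb hl₂ h₂
  have hw₁L : (w₁ : L) ≠ 0 := by exact_mod_cast hw₁
  have hw₂L : (w₂ : L) ≠ 0 := by exact_mod_cast hw₂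
  have hval : ∀ (a' c w : ℤ) (f : Polynomial ℤ) (m : ℕ) (F P Z : L), a' ≠ 0 → w ≠ 0 → c ≠ 0 →
      f ≠ 0 → f.natDegree = 2 * m → a' * f.leadingCoeff = c * w ^ 2 → F = Polynomial.aeval x f →
      F = a' * P → Z ^ 2 = P →
      A.valuation ((a' * Z / (w * x ^ m)) ^ 2 - ((c : ℚ) : L)) < 1 ∧
        A.valuation (a' * Z / (w * x ^ m)) = 1 := by
    intro a' c w f m F P Z ha' hw hc hf0 hd hl hF hFP hZ
    have haL' : (a' : L) ≠ 0 := by exact_mod_cast ha'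
    have hwL' : (w : L) ≠ 0 := by exact_mod_cast hw
    have h3 := lead_pol A hQ x hvx f hf0
    have h4 : (a' * Z / (w * x ^ m)) ^ 2 - ((c : ℚ) : L) =
        (Polynomial.aeval x f / x ^ f.natDegree - (f.leadingCoeff : L)) * (a' * ((w : L) ^ 2)⁻¹) := by
      have h5 : (c : L) = a' * f.leadingCoeff * ((w : L) ^ 2)⁻¹ := by
        rw [eq_mul_inv_iff_mul_eq₀ (pow_ne_zero _ hwL')]
        exact_mod_cast hl.symm
      rw [Rat.cast_intCast, h5, ← hF, hFP, ← hZ, hd, div_pow, mul_pow, mul_pow, ← pow_mul,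
        mul_comm m 2]
      field_simp
    have h5 : A.valuation ((a' : L) * ((w : L) ^ 2)⁻¹) = 1 := by
      rw [map_mul, map_inv₀, map_pow, val_int A hQ a' ha', val_int A hQ w hw, _root_.one_pow,
        inv_one, one_mul]
    have h6 : A.valuation ((a' * Z / (w * x ^ m)) ^ 2 - ((c : ℚ) : L)) < 1 := by
      rw [h4, map_mul, h5, mul_one]
      exact h3
    refine ⟨h6, ?_⟩
    have hcv : A.valuation ((c : ℚ) : L) = 1 := val_rat hQ (by exact_mod_cast hc)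
    have h7 : A.valuation ((a' * Z / (w * x ^ m)) ^ 2) = 1 := by
      have h8 : (a' * Z / (w * x ^ m)) ^ 2 = ((a' * Z / (w * x ^ m)) ^ 2 - ((c : ℚ) : L)) +
          ((c : ℚ) : L) := by ring
      rw [h8, Valuation.map_add_eq_of_lt_right _ (by rw [hcv]; exact h6), hcv]
    rw [map_pow] at h7
    exact pow_one (by omega) h7
  obtain ⟨H1, hH1⟩ : ∃ H1 : L, H1 = a * Z1 / (w₁ * x ^ m₁) := ⟨_, rfl⟩
  obtain ⟨H2, hH2⟩ : ∃ H2 : L, H2 = b * Z2 / (w₂ * x ^ m₂) := ⟨_, rfl⟩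
  obtain ⟨hlt1, hv1⟩ := hval a c₁ w₁ f₁ m₁ F1 P1 Z1 ha hw₁ hc₁ hf₁0 hd₁ h₁ hF1 eF1 hsq1
  obtain ⟨hlt2, hv2⟩ := hval b c₂ w₂ f₂ m₂ F2 P2 Z2 hb hw₂ hc₂ hf₂0 hd₂ h₂ hF2 eF2 hsq2
  rw [← hH1] at hlt1 hv1
  rw [← hH2] at hlt2 hv2
  have hσ₁H1 : σ₁ H1 = -H1 := by
    rw [hH1, map_div₀, map_mul, map_mul, map_pow, hσ₁Z1, hσ₁x, map_intCast, map_intCast]
    ring
  have hσ₁H2 : σ₁ H2 = H2 := by
    rw [hH2, map_div₀, map_mul, map_mul, map_pow, hσ₁Z2, hσ₁x, map_intCast, map_intCast]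
  have hσ₂H2 : σ₂ H2 = -H2 := by
    rw [hH2, map_div₀, map_mul, map_mul, map_pow, hσ₂Z2, hσ₂x, map_intCast, map_intCast]
    ring
  have hc₁Q : (c₁ : ℚ) ≠ 0 := by exact_mod_cast hc₁
  have hc₂Q : (c₂ : ℚ) ≠ 0 := by exact_mod_cast hc₂
  have hns1 : ¬ IsSquare (c₁ : ℚ) := by
    rintro ⟨r, hr⟩
    exact no_sq A hQ σ₁ hσ₁lt H1 hσ₁H1 c₁ r hc₁Q hr hlt1
  have hns2 : ¬ IsSquare (c₂ : ℚ) := by
    rintro ⟨r, hr⟩
    exact no_sq A hQ σ₂ hσ₂lt H2 hσ₂H2 c₂ r hc₂Q hr hlt2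
  have hns12 : ¬ IsSquare ((c₁ : ℚ) * c₂) := by
    rintro ⟨r, hr⟩
    refine no_sq A hQ σ₁ hσ₁lt (H1 * H2) (by rw [map_mul, hσ₁H1, hσ₁H2]; ring) (c₁ * c₂) r
      (mul_ne_zero hc₁Q hc₂Q) hr ?_
    have h3 : (H1 * H2) ^ 2 - (((c₁ : ℚ) * c₂ : ℚ) : L) =
        (H1 ^ 2 - ((c₁ : ℚ) : L)) * H2 ^ 2 + ((c₁ : ℚ) : L) * (H2 ^ 2 - ((c₂ : ℚ) : L)) := by
      push_cast
      ring
    rw [h3]
    refine Valuation.map_add_lt _ ?_ ?_
    · rw [map_mul, map_pow, hv2, _root_.one_pow, mul_one]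
      exact hlt1
    · rw [map_mul, val_rat hQ hc₁Q, one_mul]
      exact hlt2
  -- the residue field
  obtain ⟨cA, hcA⟩ : ∃ cA : ℚ →+* A, ∀ r, ((cA r : A) : L) = (r : L) :=
    ⟨{ toFun := fun r => ⟨(r : L), hQ r⟩
       map_one' := Subtype.ext (by simp)
       map_mul' := fun r s => Subtype.ext (by simp)
       map_zero' := Subtype.ext (by simp)
       map_add' := fun r s => Subtype.ext (by simp) }, fun r => rfl⟩
  obtain ⟨φ, hφ⟩ : ∃ φ : AdjoinRoot g →+* ℝ, φ = AdjoinRoot.lift (algebraMap ℚ ℝ) η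
      (by rw [← Polynomial.aeval_def]; exact hη) := ⟨_, rfl⟩
  obtain ⟨Φ, hΦ⟩ : ∃ Φ : IsLocalRing.ResidueField A →+* ℝ, Φ = φ.comp e.toRingHom := ⟨_, rfl⟩
  have hΦc : ∀ q : ℚ, Φ (IsLocalRing.residue A (cA q)) = (q : ℝ) := fun q =>
    eq_ratCast ((Φ.comp (IsLocalRing.residue A)).comp cA) q
  have hΦmem : ∀ r : A, Φ (IsLocalRing.residue A r) ∈ ℚ⟮η⟯ := by
    intro r
    obtain ⟨p, hp⟩ := AdjoinRoot.mk_surjective (e (IsLocalRing.residue A r))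
    have h3 : Φ (IsLocalRing.residue A r) = Polynomial.aeval η p := by
      rw [hΦ, RingHom.comp_apply]
      show φ (e (IsLocalRing.residue A r)) = _
      rw [← hp, hφ, AdjoinRoot.lift_mk, Polynomial.aeval_def]
    rw [h3]
    exact IntermediateField.algebra_adjoin_le_adjoin ℚ {η}
      (Polynomial.aeval_mem_adjoin_singleton ℚ η)
  have hres : ∀ (H : L) (c : ℤ), A.valuation (H ^ 2 - ((c : ℚ) : L)) < 1 → A.valuation H = 1 →
      ∃ s : ℝ, s ^ 2 = c ∧ s ∈ ℚ⟮η⟯ := by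
    intro H c hlt hv
    obtain ⟨r, hr⟩ : ∃ r : A, (r : L) = H := ⟨⟨H, (A.valuation_le_one_iff _).1 hv.le⟩, rfl⟩
    refine ⟨Φ (IsLocalRing.residue A r), ?_, hΦmem r⟩
    have h3 : IsLocalRing.residue A (r ^ 2 - cA c) = 0 := by
      rw [IsLocalRing.residue_eq_zero_iff, A.valuation_lt_one_iff]
      push_cast
      rw [hcA, hr]
      exact hlt
    rw [map_sub, sub_eq_zero] at h3
    have h4 := congrArg Φ h3
    rw [hΦc, map_pow, map_pow] at h4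
    rw [h4]
    simp
  obtain ⟨s₁, hs₁, hs₁m⟩ := hres H1 c₁ hlt1 hv1
  obtain ⟨s₂, hs₂, hs₂m⟩ := hres H2 c₂ hlt2 hv2
  refine ⟨s₁, s₂, hs₁, hs₂, add_mem hs₁m hs₂m, ?_⟩
  have hirr2 := biq_irr (c₁ : ℚ) (c₂ : ℚ) hns1 hns2 hns12
  have hroot : Polynomial.aeval (s₁ + s₂) (biq (c₁ : ℚ) (c₂ : ℚ)) = 0 := by
    have h3 : ((c₁ : ℚ) : ℝ) = s₁ ^ 2 := by rw [hs₁]; simp
    have h4 : ((c₂ : ℚ) : ℝ) = s₂ ^ 2 := by rw [hs₂]; simp
    have h5 : Polynomial.aeval (s₁ + s₂) (biq (c₁ : ℚ) (c₂ : ℚ)) =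
        (s₁ + s₂) ^ 4 - 2 * (((c₁ : ℚ) : ℝ) + ((c₂ : ℚ) : ℝ)) * (s₁ + s₂) ^ 2 +
          (((c₁ : ℚ) : ℝ) - ((c₂ : ℚ) : ℝ)) ^ 2 := by
      rw [biq]
      simp
    rw [h5, h3, h4]
    ring
  have hintS : IsIntegral ℚ (s₁ + s₂) := ⟨_, biq_monic _ _, by
    rw [← Polynomial.aeval_def]; exact hroot⟩
  rw [IntermediateField.adjoin.finrank hintS,
    ← minpoly.eq_of_irreducible_of_monic hirr2 hroot (biq_monic _ _), biq_deg]

end Pool.Agent.X95T
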