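import Pool.Agent.X95T.HO3
import Pool.Agent.X95T.HM2

set_option autoImplicit false

open IntermediateField
open Pool.Agent.Results.MP_821da1_nt

namespace Pool.Agent.X95T

/-- an `S`-unit times an `n`-th power is a bounded `S`-unit times an `n`-th power -/
lemma sfree {n : ℕ} (hn : 1 ≤ n) (S : Finset ℕ) (y a₀ z₀ : ℤ) (hy0 : y = a₀ * z₀ ^ n)
    (ha₀ : a₀ ≠ 0) (ha₀S : ∀ q : ℕ, q.Prime → (q : ℤ) ∣ a₀ → q ∈ S) :
    ∃ a z : ℤ, a ≠ 0 ∧ (∀ q : ℕ, q.Prime → (q : ℤ) ∣ a → q ∈ S) ∧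
      a.natAbs ≤ ∏ q ∈ S, (q + 1) ^ n ∧ y = a * z ^ n := by
  have hM1 : 1 ≤ ∏ q ∈ S, (q + 1) ^ n :=
    Nat.succ_le_of_lt (Finset.prod_pos (fun q _ => pow_pos (Nat.succ_pos q) n))
  have hprimes : a₀.natAbs.primeFactors ⊆ S := by
    intro q hq
    exact ha₀S q (Nat.prime_of_mem_primeFactors hq)
      (Int.natCast_dvd.2 (Nat.dvd_of_mem_primeFactors hq))
  by_cases hy : y = 0
  · refine ⟨1, 0, one_ne_zero, ?_, hM1, ?_⟩
    · intro q hq hq1
      exfalso
      have h5 : q ∣ 1 := by exact_mod_cast hq1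
      exact hq.one_lt.ne' (Nat.dvd_one.1 h5)
    · rw [hy, zero_pow (by omega), mul_zero]
  · obtain ⟨a, z, ha0, hap, haM, hyz⟩ := free_part_b (n := n) (by omega) a₀ ha₀ y hy
      (fun q hq hqb => by
        have hz₀ : z₀ ≠ 0 := by
          rintro rfl
          rw [zero_pow (by omega), mul_zero] at hy0
          exact hy hy0
        rw [hy0, Int.natAbs_mul, Int.natAbs_pow, Nat.factorization_mul
          (Int.natAbs_ne_zero.2 ha₀) (pow_ne_zero _ (Int.natAbs_ne_zero.2 hz₀)),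
          Nat.factorization_pow]
        have h5 : a₀.natAbs.factorization q = 0 :=
          Nat.factorization_eq_zero_of_not_dvd (fun h => hqb (Int.natCast_dvd.2 h))
        simp [h5])
    refine ⟨a, z, ha0, fun q hq hqa => ha₀S q hq (hap q hq hqa), haM.trans ?_, hyz⟩
    rw [← Finset.prod_pow]
    calc ∏ q ∈ a₀.natAbs.primeFactors, q ^ n
        ≤ ∏ q ∈ a₀.natAbs.primeFactors, (q + 1) ^ n :=
          Finset.prod_le_prod' (fun q _ => Nat.pow_le_pow_left (Nat.le_succ q) _)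
      _ ≤ ∏ q ∈ S, (q + 1) ^ n :=
          Finset.prod_le_prod_of_subset_of_one_le' hprimes
            (fun q _ _ => Nat.one_le_pow _ _ (Nat.succ_pos q))

/-- the constants of the biquadratic fields -/
lemma const_two (c : ℝ → ℕ) (c₁ c₂ : ℤ) :
    ∃ t : ℕ, ∀ s₁ s₂ : ℝ, s₁ ^ 2 = (c₁ : ℝ) → s₂ ^ 2 = (c₂ : ℝ) → c (s₁ + s₂) ≤ t := by
  have hP0 : ∀ c : ℤ, (Polynomial.X ^ 2 - Polynomial.C (c : ℝ) : Polynomial ℝ) ≠ 0 := fun c =>
    (Polynomial.monic_X_pow_sub_C _ (by omega)).ne_zero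
  refine ⟨∑ p ∈ (Polynomial.X ^ 2 - Polynomial.C (c₁ : ℝ) : Polynomial ℝ).roots.toFinset ×ˢ
    (Polynomial.X ^ 2 - Polynomial.C (c₂ : ℝ) : Polynomial ℝ).roots.toFinset, c (p.1 + p.2), ?_⟩
  intro s₁ s₂ h1 h2
  apply Finset.single_le_sum (f := fun p : ℝ × ℝ => c (p.1 + p.2)) (fun _ _ => Nat.zero_le _)
    (a := (s₁, s₂))
  rw [Finset.mem_product, Multiset.mem_toFinset, Multiset.mem_toFinset,
    Polynomial.mem_roots (hP0 _), Polynomial.mem_roots (hP0 _)]
  simp [Polynomial.IsRoot.def, h1, h2]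

lemma deg_px (f : Polynomial ℤ) : (px f).totalDegree ≤ f.natDegree := by
  rw [px, Polynomial.aeval_eq_sum_range]
  refine MvPolynomial.totalDegree_finsetSum_le fun i hi => ?_
  refine (MvPolynomial.totalDegree_smul_le _ _).trans ?_
  refine (MvPolynomial.totalDegree_X_pow _ _).le.trans ?_
  rw [Finset.mem_range] at hi
  omega

lemma deg_G2 (a b : ℤ) (f₁ f₂ : Polynomial ℤ) :
    (G2 a b f₁ f₂).totalDegree ≤ 2 * (2 + f₁.natDegree + f₂.natDegree) := by
  have hC : ∀ c : ℤ, (MvPolynomial.C c : MvPolynomial (Fin 2) ℤ).totalDegree = 0 := fun c =>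
    MvPolynomial.totalDegree_C c
  have h1 : (MvPolynomial.C (a * b) * MvPolynomial.X 1 ^ 2 - MvPolynomial.C b * px f₁ -
      MvPolynomial.C a * px f₂ : MvPolynomial (Fin 2) ℤ).totalDegree ≤
        2 + f₁.natDegree + f₂.natDegree := by
    refine (MvPolynomial.totalDegree_sub _ _).trans (max_le ?_ ?_)
    · refine (MvPolynomial.totalDegree_sub _ _).trans (max_le ?_ ?_)
      · refine (MvPolynomial.totalDegree_mul _ _).trans ?_
        rw [hC, MvPolynomial.totalDegree_X_pow]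
        omega
      · refine (MvPolynomial.totalDegree_mul _ _).trans ?_
        rw [hC]
        have := deg_px f₁
        omega
    · refine (MvPolynomial.totalDegree_mul _ _).trans ?_
      rw [hC]
      have := deg_px f₂
      omega
  rw [G2]
  refine (MvPolynomial.totalDegree_sub _ _).trans (max_le ?_ ?_)
  · refine (MvPolynomial.totalDegree_pow _ _).trans ?_
    omega
  · refine (MvPolynomial.totalDegree_mul _ _).trans ?_
    have h2 := MvPolynomial.totalDegree_mul (px f₁) (px f₂)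
    have h3 := deg_px f₁
    have h4 := deg_px f₂
    rw [hC]
    omega

lemma len_G2 (a b : ℤ) (f₁ f₂ : Polynomial ℤ) (M H : ℕ) (hM : 1 ≤ M) (ha : a.natAbs ≤ M)
    (hb : b.natAbs ≤ M) (h₁ : len1 f₁ ≤ H) (h₂ : len1 f₂ ≤ H) (hH : 1 ≤ H) :
    Pool.Agent.H322R2.len (G2 a b f₁ f₂) ≤ 13 * M ^ 4 * H ^ 2 := by
  have hab : (a * b).natAbs ≤ M ^ 2 := by
    rw [Int.natAbs_mul, sq]
    exact Nat.mul_le_mul ha hb
  have hmulC : ∀ (c : ℤ) (P : MvPolynomial (Fin 2) ℤ) (K L : ℕ), c.natAbs ≤ K →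
      Pool.Agent.H322R2.len P ≤ L →
      Pool.Agent.H322R2.len (MvPolynomial.C c * P) ≤ K * L := by
    intro c P K L h3 h4
    exact (Pool.Agent.W257.len_mul_le _ _).trans
      (Nat.mul_le_mul ((Pool.Agent.W257.len_C c).trans h3) h4)
  have hX : Pool.Agent.H322R2.len (MvPolynomial.X 1 ^ 2 : MvPolynomial (Fin 2) ℤ) ≤ 1 := by
    have h1 := Pool.Agent.W257.len_pow_le (MvPolynomial.X 1) 2 1 Pool.Agent.W257.len_X1
    rwa [_root_.one_pow] at h1
  have hsub : ∀ P Q : MvPolynomial (Fin 2) ℤ, Pool.Agent.H322R2.len (P - Q) ≤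
      Pool.Agent.H322R2.len P + Pool.Agent.H322R2.len Q := by
    intro P Q
    rw [sub_eq_add_neg]
    refine (len_add _ _).trans ?_
    have := Pool.Agent.W257.len_neg Q
    exact Nat.add_le_add_left this.le _
  have hin : Pool.Agent.H322R2.len (MvPolynomial.C (a * b) * MvPolynomial.X 1 ^ 2 -
      MvPolynomial.C b * px f₁ - MvPolynomial.C a * px f₂) ≤ 3 * M ^ 2 * H := by
    have h3 := hmulC (a * b) _ _ _ hab hX
    have h4 := hmulC b _ _ _ hb ((len_px f₁).trans h₁)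
    have h5 := hmulC a _ _ _ ha ((len_px f₂).trans h₂)
    have h6 := hsub (MvPolynomial.C (a * b) * MvPolynomial.X 1 ^ 2 - MvPolynomial.C b * px f₁)
      (MvPolynomial.C a * px f₂)
    have h7 := hsub (MvPolynomial.C (a * b) * MvPolynomial.X 1 ^ 2) (MvPolynomial.C b * px f₁)
    have h8 : M * H ≤ M ^ 2 * H := Nat.mul_le_mul_right _ (by nlinarith)
    have h9 : M ^ 2 * 1 ≤ M ^ 2 * H := Nat.mul_le_mul_left _ hH
    have e : 3 * M ^ 2 * H = M ^ 2 * H + M ^ 2 * H + M ^ 2 * H := by ring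
    rw [e]
    omega
  rw [G2]
  refine (hsub _ _).trans ?_
  have h3 := Pool.Agent.W257.len_pow_le _ 2 _ hin
  have h4 := hmulC (4 * (a * b)) (px f₁ * px f₂) (4 * M ^ 2) (H * H) (by
    rw [Int.natAbs_mul]
    exact Nat.mul_le_mul (by decide) hab)
    ((Pool.Agent.W257.len_mul_le _ _).trans
      (Nat.mul_le_mul ((len_px f₁).trans h₁) ((len_px f₂).trans h₂)))
  have h5 : 4 * M ^ 2 * (H * H) ≤ 4 * M ^ 4 * H ^ 2 := by
    have h6 : M ^ 2 ≤ M ^ 4 := Nat.pow_le_pow_right hM (by omega)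
    calc 4 * M ^ 2 * (H * H) = 4 * M ^ 2 * H ^ 2 := by ring
      _ ≤ _ := Nat.mul_le_mul_right _ (Nat.mul_le_mul_left _ h6)
  have e : 13 * M ^ 4 * H ^ 2 = (3 * M ^ 2 * H) ^ 2 + 4 * M ^ 4 * H ^ 2 := by ring
  rw [e]
  exact Nat.add_le_add h3 (h4.trans h5)

end Pool.Agent.X95T
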