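import Pool.Agent.X95T.HO4

set_option autoImplicit false

open IntermediateField
open Pool.Agent.Results.MP_821da1_nt

namespace Pool.Agent.X95T

/-- integers at which two polynomials of even degree are squares up to `S`-units -/
theorem twoSquares (m₁ m₂ : ℕ) : ∃ C : ℕ, ∀ S : Finset ℕ, ∃ c : ℕ, ∀ f₁ f₂ : Polynomial ℤ,
    f₁.natDegree = 2 * m₁ → f₂.natDegree = 2 * m₂ →
    (∀ q : ℕ, q.Prime → (q : ℤ) ∣ f₁.leadingCoeff * f₂.leadingCoeff → q ∈ S) →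
    (∀ (h : Polynomial ℚ) (e : ℚ), f₁.map (Int.castRingHom ℚ) ≠ Polynomial.C e * h ^ 2 ∧
      f₂.map (Int.castRingHom ℚ) ≠ Polynomial.C e * h ^ 2 ∧
      (f₁ * f₂).map (Int.castRingHom ℚ) ≠ Polynomial.C e * h ^ 2) →
    ∀ x a b z₁ z₂ : ℤ, f₁.eval x = a * z₁ ^ 2 → f₂.eval x = b * z₂ ^ 2 → a * b ≠ 0 →
      (∀ q : ℕ, q.Prime → (q : ℤ) ∣ a * b → q ∈ S) →
      x.natAbs ≤ (c * (len1 f₁ + len1 f₂)) ^ C := by
  obtain ⟨C₀, c₀, hR⟩ := RepulsionAllCurves.result.2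
  obtain ⟨d, hd⟩ : ∃ d : ℕ, d = 2 * (2 + 2 * m₁ + 2 * m₂) := ⟨_, rfl⟩
  obtain ⟨A, hA⟩ : ∃ A : ℕ, A = C₀ d := ⟨_, rfl⟩
  have hca := const_two (fun θ => c₀ d ℚ⟮θ⟯)
  choose t ht using hca
  refine ⟨2 * A, ?_⟩
  intro S
  obtain ⟨M, hM⟩ : ∃ M : ℕ, M = ∏ q ∈ S, (q + 1) ^ 2 := ⟨_, rfl⟩
  have hM1 : 1 ≤ M := by
    rw [hM]
    exact Nat.succ_le_of_lt (Finset.prod_pos (fun q _ => pow_pos (Nat.succ_pos q) 2))
  obtain ⟨T, hT⟩ : ∃ T : ℕ, T = A + ∑ c₁ ∈ Finset.Icc (-(M : ℤ)) M, ∑ c₂ ∈ Finset.Icc (-(M : ℤ)) M,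
    t c₁ c₂ := ⟨_, rfl⟩
  have hT1 : ∀ c₁ c₂ : ℤ, c₁.natAbs ≤ M → c₂.natAbs ≤ M → t c₁ c₂ ≤ T := by
    intro c₁ c₂ h1 h2
    rw [hT]
    refine le_trans ?_ (Nat.le_add_left _ _)
    have h3 : t c₁ c₂ ≤ ∑ c₂ ∈ Finset.Icc (-(M : ℤ)) M, t c₁ c₂ := by
      apply Finset.single_le_sum (f := t c₁) (fun _ _ => Nat.zero_le _)
      rw [Finset.mem_Icc]
      omega
    refine h3.trans ?_
    apply Finset.single_le_sum (f := fun c₁ => ∑ c₂ ∈ Finset.Icc (-(M : ℤ)) M, t c₁ c₂)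
      (fun _ _ => Nat.zero_le _)
    rw [Finset.mem_Icc]
    omega
  refine ⟨(T + 1) * (13 * M ^ 4), ?_⟩
  intro f₁ f₂ hd₁ hd₂ hlS hf x a₀ b₀ y₁ y₂ he₁ he₂ hab₀ hab₀S
  have ha₀ : a₀ ≠ 0 := left_ne_zero_of_mul hab₀
  have hb₀ : b₀ ≠ 0 := right_ne_zero_of_mul hab₀
  obtain ⟨a, z₁, ha, haS, haM, hz₁⟩ := sfree (n := 2) (by omega) S _ a₀ y₁ he₁ ha₀
    (fun q hq h => hab₀S q hq (h.mul_right b₀))
  obtain ⟨b, z₂, hb, hbS, hbM, hz₂⟩ := sfree (n := 2) (by omega) S _ b₀ y₂ he₂ hb₀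
    (fun q hq h => hab₀S q hq (h.mul_left a₀))
  rw [← hM] at haM hbM
  have hf₁0 : f₁ ≠ 0 := by
    rintro rfl
    exact (hf 0 0).1 (by simp)
  have hf₂0 : f₂ ≠ 0 := by
    rintro rfl
    exact (hf 0 0).2.1 (by simp)
  have hl₁ : f₁.leadingCoeff ≠ 0 := Polynomial.leadingCoeff_ne_zero.2 hf₁0
  have hl₂ : f₂.leadingCoeff ≠ 0 := Polynomial.leadingCoeff_ne_zero.2 hf₂0
  obtain ⟨c₁, w₁, hc₁, -, hc₁M, hw₁⟩ := sfree (n := 2) (by omega) S (a * f₁.leadingCoeff)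
    (a * f₁.leadingCoeff) 1 (by ring) (mul_ne_zero ha hl₁) (by
      intro q hq h
      rcases (Nat.prime_iff_prime_int.1 hq).dvd_or_dvd h with h1 | h1
      · exact haS q hq h1
      · exact hlS q hq (h1.mul_right _))
  obtain ⟨c₂, w₂, hc₂, -, hc₂M, hw₂⟩ := sfree (n := 2) (by omega) S (b * f₂.leadingCoeff)
    (b * f₂.leadingCoeff) 1 (by ring) (mul_ne_zero hb hl₂) (by
      intro q hq h
      rcases (Nat.prime_iff_prime_int.1 hq).dvd_or_dvd h with h1 | h1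
      · exact hbS q hq h1
      · exact hlS q hq (h1.mul_left _))
  rw [← hM] at hc₁M hc₂M
  obtain ⟨H, hH⟩ : ∃ H : ℕ, H = len1 f₁ + len1 f₂ := ⟨_, rfl⟩
  rw [← hH]
  have hH1 : 1 ≤ H := by
    have h1 : f₁.natDegree ∈ f₁.support := Polynomial.natDegree_mem_support_of_nonzero hf₁0
    have h2 : (f₁.coeff f₁.natDegree).natAbs ≤ len1 f₁ :=
      Finset.single_le_sum (f := fun i => (f₁.coeff i).natAbs) (fun _ _ => Nat.zero_le _) h1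
    have h3 : (f₁.coeff f₁.natDegree).natAbs ≠ 0 := Int.natAbs_ne_zero.2 hl₁
    omega
  have hirr := irrG2 a b ha hb f₁ f₂ hf
  have hlen : RepulsionAllCurves.len (G2 a b f₁ f₂) ≤ 13 * M ^ 4 * H ^ 2 :=
    len_G2 a b f₁ f₂ M H hM1 haM hbM (by omega) (by omega) hH1
  have hdeg : (G2 a b f₁ f₂).totalDegree ≤ d := by
    have := deg_G2 a b f₁ f₂
    rw [hd₁, hd₂] at this
    rw [hd]
    exact this
  have hev : MvPolynomial.eval ![x, z₁ + z₂] (G2 a b f₁ f₂) = 0 := by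
    have h5 := evalG2 a b f₁ f₂ x (z₁ + z₂)
    rw [MvPolynomial.aeval_eq_eval] at h5
    rw [h5]
    have h6 : ∀ f : Polynomial ℤ, Polynomial.eval₂ (Int.castRingHom ℤ) x f = f.eval x := by
      intro f
      rw [Polynomial.eval₂_eq_eval_map]
      simp
    rw [h6, h6, hz₁, hz₂]
    simp only [Int.cast_id]
    ring
  have hmain : max x.natAbs (z₁ + z₂).natAbs ≤
      ((T + 1) * RepulsionAllCurves.len (G2 a b f₁ f₂)) ^ A := by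
    rcases hR d _ x (z₁ + z₂) hdeg hirr hev with h | ⟨g, hg, η, hη, hk3⟩
    · rw [← hA] at h
      refine h.trans (Nat.pow_le_pow_left (Nat.mul_le_mul_right _ ?_) _)
      rw [hT]
      omega
    · obtain ⟨s₁, s₂, hs₁, hs₂, hmem, hfin⟩ := keyV a b ha hb f₁ f₂ m₁ m₂ hd₁ hd₂ hf c₁ c₂ w₁ w₂
        hw₁ hw₂ g hg η hη
      have h5 := hk3 ℚ⟮s₁ + s₂⟯ (by rw [adjoin_simple_le_iff]; exact hmem) (by rw [hfin]; omega)
      rw [← hA] at h5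
      refine h5.trans (Nat.pow_le_pow_left (Nat.mul_le_mul_right _ ?_) _)
      exact (ht c₁ c₂ s₁ s₂ hs₁ hs₂).trans ((hT1 c₁ c₂ hc₁M hc₂M).trans (Nat.le_succ _))
  have hpos : 1 ≤ (T + 1) * (13 * M ^ 4) := by
    have : 0 < (T + 1) * (13 * M ^ 4) := by positivity
    omega
  calc x.natAbs ≤ ((T + 1) * RepulsionAllCurves.len (G2 a b f₁ f₂)) ^ A :=
        (le_max_left _ _).trans hmain
    _ ≤ ((T + 1) * (13 * M ^ 4 * H ^ 2)) ^ A :=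
        Nat.pow_le_pow_left (Nat.mul_le_mul_left _ hlen) _
    _ ≤ (((T + 1) * (13 * M ^ 4) * H) ^ 2) ^ A := by
        refine Nat.pow_le_pow_left ?_ _
        calc (T + 1) * (13 * M ^ 4 * H ^ 2) = 1 * ((T + 1) * (13 * M ^ 4)) * H ^ 2 := by ring
          _ ≤ ((T + 1) * (13 * M ^ 4)) * ((T + 1) * (13 * M ^ 4)) * H ^ 2 :=
              Nat.mul_le_mul_right _ (Nat.mul_le_mul_right _ hpos)
          _ = _ := by ring
    _ = _ := by rw [← pow_mul]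

end Pool.Agent.X95T
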