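import Mathlib

/-!
Finiteness of `K(S, n)` for number fields (adapted from `Pool.Agent.H437R2.Man.MWSel`).
-/

set_option autoImplicit false

open IsDedekindDomain NumberField
open scoped nonZeroDivisors

namespace Pool.Agent.X95T.SelN

/-- every multiset is `n` times a multiset plus a multiset with multiplicities below `n`. -/
lemma multiset_split {α : Type*} [DecidableEq α] (n : ℕ) (hn : 0 < n) (s : Multiset α) :
    ∃ t d : Multiset α, s = n • t + d ∧ ∀ p, d.count p < n := by
  induction s using Multiset.induction_on with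
  | empty => exact ⟨0, 0, by simp, fun p => by simpa using hn⟩
  | cons p s ih =>
    obtain ⟨t, d, hs, hd⟩ := ih
    by_cases hp : d.count p + 1 = n
    · refine ⟨p ::ₘ t, d - Multiset.replicate (n - 1) p, ?_, fun q => ?_⟩
      · have hle : Multiset.replicate (n - 1) p ≤ d :=
          Multiset.le_count_iff_replicate_le.1 (by omega)
        have h1 : d = Multiset.replicate (n - 1) p + (d - Multiset.replicate (n - 1) p) :=
          (add_tsub_cancel_of_le hle).symm
        have h2 : n • (p ::ₘ t) = n • t + (Multiset.replicate (n - 1) p + {p}) := by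
          rw [← Multiset.singleton_add, smul_add, add_comm, Multiset.nsmul_singleton]
          congr 1
          rw [← Multiset.replicate_one, ← Multiset.replicate_add]
          congr 1
          omega
        rw [h2, hs]
        conv_lhs => rw [h1]
        rw [← Multiset.singleton_add]
        generalize d - Multiset.replicate (n - 1) p = c
        generalize Multiset.replicate (n - 1) p = b
        generalize n • t = a
        simp only [add_comm, add_left_comm, add_assoc]
      · exact (Multiset.count_le_of_le q (tsub_le_self)).trans_lt (hd q)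
    · refine ⟨t, p ::ₘ d, ?_, fun q => ?_⟩
      · rw [hs]
        simp only [Multiset.add_cons]
      · rw [Multiset.count_cons]
        have := hd q
        split_ifs with h
        · subst h
          omega
        · omega

variable {K : Type} [Field K] [NumberField K]

/-- structure of ideals with orders divisible by `n` away from `S` -/
lemma ideal_split (n : ℕ) (hn : 0 < n) (S : Set (HeightOneSpectrum (𝓞 K))) (hS : S.Finite) :
    ∃ D : Finset (Ideal (𝓞 K)), ∀ I : Ideal (𝓞 K), I ≠ 0 →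
      (∀ v : HeightOneSpectrum (𝓞 K), v ∉ S →
        n ∣ ((UniqueFactorizationMonoid.normalizedFactors I).count v.asIdeal)) →
      ∃ d ∈ D, ∃ J : Ideal (𝓞 K), J ≠ 0 ∧ I = J ^ n * d := by
  classical
  set S' : Finset (Ideal (𝓞 K)) := hS.toFinset.image (fun v => v.asIdeal) with hS'
  refine ⟨(n • S'.val).powerset.toFinset.image (fun s => s.prod), fun I hI hev => ?_⟩
  obtain ⟨t, d, hs, hd⟩ := multiset_split n hn (UniqueFactorizationMonoid.normalizedFactors I)
  have hdS : ∀ p ∈ d, p ∈ S' := by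
    intro p hp
    have hpI : p ∈ UniqueFactorizationMonoid.normalizedFactors I := by
      rw [hs]; exact Multiset.mem_add.mpr (Or.inr hp)
    have hpp : Prime p := UniqueFactorizationMonoid.prime_of_normalized_factor p hpI
    let v : HeightOneSpectrum (𝓞 K) := ⟨p, Ideal.isPrime_of_prime hpp, hpp.ne_zero⟩
    by_contra hn'
    have hv : v ∉ S := by
      intro hv
      apply hn'
      rw [hS', Finset.mem_image]
      exact ⟨v, by simpa using hv, rfl⟩
    have h1 := hev v hv
    rw [hs] at h1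
    have h3 : Multiset.count v.asIdeal (n • t + d) = n * Multiset.count p t + Multiset.count p d := by
      change Multiset.count p (n • t + d) = _
      rw [Multiset.count_add, Multiset.count_nsmul]
    rw [h3] at h1
    have h4 : n ∣ Multiset.count p d := (Nat.dvd_add_right (Dvd.intro _ rfl)).1 h1
    have h5 := Multiset.count_pos.2 hp
    exact absurd (Nat.le_of_dvd h5 h4) (not_le.2 (hd p))
  refine ⟨d.prod, ?_, t.prod, ?_, ?_⟩
  · rw [Finset.mem_image]
    refine ⟨d, ?_, rfl⟩
    rw [Multiset.mem_toFinset, Multiset.mem_powerset, Multiset.le_iff_count]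
    intro p
    by_cases hp : p ∈ d
    · rw [Multiset.count_nsmul, Multiset.count_eq_one_of_mem S'.nodup (hdS p hp), mul_one]
      exact (hd p).le
    · rw [Multiset.count_eq_zero_of_notMem hp]
      exact Nat.zero_le _
  · intro h0
    rw [Multiset.prod_eq_zero_iff] at h0
    have : (0 : Ideal (𝓞 K)) ∈ UniqueFactorizationMonoid.normalizedFactors I := by
      rw [hs]
      refine Multiset.mem_add.mpr (Or.inl ?_)
      rw [Multiset.mem_nsmul]
      exact ⟨hn.ne', h0⟩
    exact (UniqueFactorizationMonoid.prime_of_normalized_factor _ this).ne_zero rfl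
  · have h2 : (UniqueFactorizationMonoid.normalizedFactors I).prod = I := by
      have := UniqueFactorizationMonoid.prod_normalizedFactors hI
      exact associated_iff_eq.mp this
    conv_lhs => rw [← h2, hs]
    rw [Multiset.prod_add, Multiset.prod_nsmul]

/-- finiteness of units modulo `n`-th powers -/
lemma units_pow (n : ℕ) (hn : 0 < n) (K : Type) [Field K] [NumberField K] :
    ∃ T : Finset (𝓞 K)ˣ, ∀ u : (𝓞 K)ˣ, ∃ t ∈ T, ∃ w : (𝓞 K)ˣ, u = t * w ^ n := by
  classical
  have : Group.FG (𝓞 K)ˣ := Group.fg_iff_monoid_fg.mpr inferInstance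
  have h := Subgroup.finiteIndex_range_powMonoidHom_of_fg (𝓞 K)ˣ (n := n) (by omega)
  have : Finite ((𝓞 K)ˣ ⧸ (powMonoidHom (α := (𝓞 K)ˣ) n).range) :=
    Subgroup.finite_quotient_of_finiteIndex
  have := Fintype.ofFinite ((𝓞 K)ˣ ⧸ (powMonoidHom (α := (𝓞 K)ˣ) n).range)
  refine ⟨Finset.univ.image (fun q : (𝓞 K)ˣ ⧸ (powMonoidHom (α := (𝓞 K)ˣ) n).range => q.out),
    fun u => ?_⟩
  refine ⟨(QuotientGroup.mk (s := (powMonoidHom (α := (𝓞 K)ˣ) n).range) u).out,
    Finset.mem_image_of_mem _ (Finset.mem_univ _), ?_⟩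
  have h1 : QuotientGroup.mk (s := (powMonoidHom (α := (𝓞 K)ˣ) n).range)
      (QuotientGroup.mk (s := (powMonoidHom (α := (𝓞 K)ˣ) n).range) u).out =
      QuotientGroup.mk u := QuotientGroup.out_eq' _
  rw [QuotientGroup.eq] at h1
  obtain ⟨w, hw⟩ := h1
  refine ⟨w, ?_⟩
  rw [powMonoidHom_apply] at hw
  rw [hw, mul_inv_cancel_left]

/-- integral version of the finiteness of `K(S,n)`. -/
lemma sel_int (n : ℕ) (hn : 0 < n) (S : Set (HeightOneSpectrum (𝓞 K))) (hS : S.Finite) :
    ∃ T : Finset (𝓞 K), (∀ t ∈ T, t ≠ 0) ∧ ∀ a : 𝓞 K, a ≠ 0 →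
      (∀ v : HeightOneSpectrum (𝓞 K), v ∉ S →
        n ∣ ((UniqueFactorizationMonoid.normalizedFactors (Ideal.span {a})).count v.asIdeal)) →
      ∃ t ∈ T, ∃ x y : 𝓞 K, x ≠ 0 ∧ y ≠ 0 ∧ x ^ n * a = t * y ^ n := by
  classical
  obtain ⟨D, hD⟩ := ideal_split n hn S hS
  obtain ⟨U, hU⟩ := units_pow n hn K
  -- the relation between integers and (ideal, class)
  let Rel : Ideal (𝓞 K) × ClassGroup (𝓞 K) → 𝓞 K → Prop := fun c a =>
    a ≠ 0 ∧ ∃ J : (Ideal (𝓞 K))⁰, Ideal.span {a} = (J : Ideal (𝓞 K)) ^ n * c.1 ∧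
      ClassGroup.mk0 J = c.2
  let rep : Ideal (𝓞 K) × ClassGroup (𝓞 K) → 𝓞 K := fun c =>
    if h : ∃ a, Rel c a then Classical.choose h else 1
  have hrep0 : ∀ c, rep c ≠ 0 := by
    intro c
    simp only [rep]
    split_ifs with h
    · exact (Classical.choose_spec h).1
    · exact one_ne_zero
  let T : Finset (𝓞 K) := ((D ×ˢ (Finset.univ : Finset (ClassGroup (𝓞 K)))) ×ˢ U).image
    (fun c => rep c.1 * (c.2 : 𝓞 K))
  refine ⟨T, ?_, ?_⟩
  · intro t ht
    simp only [T, Finset.mem_image] at ht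
    obtain ⟨c, -, rfl⟩ := ht
    exact mul_ne_zero (hrep0 _) (Units.ne_zero _)
  · intro a ha hev
    have hI : Ideal.span {a} ≠ (0 : Ideal (𝓞 K)) := by simpa using ha
    obtain ⟨d, hd, J, hJ, hIJ⟩ := hD _ hI hev
    set J' : (Ideal (𝓞 K))⁰ := ⟨J, mem_nonZeroDivisors_iff_ne_zero.mpr hJ⟩ with hJ'
    have hR : Rel (d, ClassGroup.mk0 J') a := ⟨ha, J', hIJ, rfl⟩
    have hex : ∃ a, Rel (d, ClassGroup.mk0 J') a := ⟨a, hR⟩
    have hrepe : rep (d, ClassGroup.mk0 J') = Classical.choose hex := by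
      simp only [rep]
      rw [dif_pos hex]
    obtain ⟨hb0, J2, hJ2, hcl⟩ := Classical.choose_spec hex
    rw [← hrepe] at hb0 hJ2
    set b := rep (d, ClassGroup.mk0 J') with hb
    obtain ⟨x, y, hx, hy, hxy⟩ := ClassGroup.mk0_eq_mk0_iff.mp hcl
    -- x J2 = y J
    have h1 : Ideal.span {y ^ n * a} = Ideal.span {x ^ n * b} := by
      rw [← Ideal.span_singleton_mul_span_singleton, ← Ideal.span_singleton_mul_span_singleton,
        ← Ideal.span_singleton_pow, ← Ideal.span_singleton_pow, hIJ, hJ2]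
      have h2 : (Ideal.span {y} * (J' : Ideal (𝓞 K))) = Ideal.span {x} * (J2 : Ideal (𝓞 K)) :=
        hxy.symm
      calc Ideal.span {y} ^ n * (J ^ n * d) = (Ideal.span {y} * J) ^ n * d := by
            rw [mul_pow, mul_assoc]
        _ = (Ideal.span {x} * (J2 : Ideal (𝓞 K))) ^ n * d := by rw [← h2]
        _ = _ := by rw [mul_pow, mul_assoc]
    rw [Ideal.span_singleton_eq_span_singleton] at h1
    obtain ⟨u, hu⟩ := h1.symm
    obtain ⟨t, ht, w, hw⟩ := hU u
    refine ⟨b * (t : 𝓞 K), ?_, y, x * (w : 𝓞 K), hy, mul_ne_zero hx (Units.ne_zero _), ?_⟩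
    · simp only [T, Finset.mem_image]
      refine ⟨((d, ClassGroup.mk0 J'), t), ?_, rfl⟩
      simp only [Finset.mem_product, Finset.mem_univ, and_true]
      exact ⟨hd, ht⟩
    · rw [← hu, hw]
      push_cast
      ring

/-- every `a` as in `sel_int` satisfies `m a = t' θ ^ n` with `m` and `t'` from a finite set. -/
lemma sel_int' (n : ℕ) (hn : 0 < n) (S : Set (HeightOneSpectrum (𝓞 K))) (hS : S.Finite) :
    ∃ T : Finset (𝓞 K × 𝓞 K), (∀ t ∈ T, t.1 ≠ 0 ∧ t.2 ≠ 0) ∧ ∀ a : 𝓞 K, a ≠ 0 →
      (∀ v : HeightOneSpectrum (𝓞 K), v ∉ S →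
        n ∣ ((UniqueFactorizationMonoid.normalizedFactors (Ideal.span {a})).count v.asIdeal)) →
      ∃ t ∈ T, ∃ θ : 𝓞 K, t.1 * a = t.2 * θ ^ n := by
  classical
  obtain ⟨T, hT0, hT⟩ := sel_int n hn S hS
  refine ⟨T.image (fun t => (t ^ (n - 1), 1)), ?_, ?_⟩
  · intro t ht
    obtain ⟨s, hs, rfl⟩ := Finset.mem_image.1 ht
    exact ⟨pow_ne_zero _ (hT0 s hs), one_ne_zero⟩
  · intro a ha hv
    obtain ⟨t, ht, x, y, hx, hy, hxy⟩ := hT a ha hv
    refine ⟨(t ^ (n - 1), 1), Finset.mem_image.2 ⟨t, ht, rfl⟩, ?_⟩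
    -- `(t y / x) ^ n = t ^ (n - 1) a`
    have hxK : (algebraMap (𝓞 K) K x) ≠ 0 := by simpa using hx
    have htn : t ^ n = t ^ (n - 1) * t := by rw [← pow_succ, Nat.sub_add_cancel hn]
    have hkey : (algebraMap (𝓞 K) K (t * y) / algebraMap (𝓞 K) K x) ^ n =
        algebraMap (𝓞 K) K (t ^ (n - 1) * a) := by
      rw [div_pow, div_eq_iff (pow_ne_zero _ hxK), ← map_pow, ← map_pow, ← map_mul]
      congr 1
      rw [mul_pow, htn]
      linear_combination -t ^ (n - 1) * hxy
    have hint : IsIntegral (𝓞 K) (algebraMap (𝓞 K) K (t * y) / algebraMap (𝓞 K) K x) := by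
      apply IsIntegral.of_pow hn
      rw [hkey]
      exact isIntegral_algebraMap
    obtain ⟨θ, hθ⟩ := IsIntegrallyClosed.isIntegral_iff.1 hint
    refine ⟨θ, ?_⟩
    apply IsFractionRing.injective (𝓞 K) K
    simp only [one_mul]
    rw [← hkey, ← hθ, map_pow]

end Pool.Agent.X95T.SelN
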