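import Mathlib
import Pool.Agent.X95T.HP1

/-!
Descent for `y ^ 2 - D w ^ 2 = X ^ 3`: up to finitely many factors, `y + w √D` is a cube.
-/

set_option autoImplicit false

open IsDedekindDomain NumberField

namespace Pool.Agent.X95T.SelN

lemma dvd_count {K : Type} [Field K] [NumberField K] (n : ℕ) (P : HeightOneSpectrum (𝓞 K))
    (a b x : 𝓞 K) (ha : a ≠ 0) (hb : b ≠ 0) (h : a * b = x ^ n)
    (hP : ¬ (a ∈ P.asIdeal ∧ b ∈ P.asIdeal)) :
    n ∣ (UniqueFactorizationMonoid.normalizedFactors (Ideal.span {a})).count P.asIdeal := by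
  classical
  have key : ∀ c : 𝓞 K, c ∉ P.asIdeal →
      (UniqueFactorizationMonoid.normalizedFactors (Ideal.span {c})).count P.asIdeal = 0 := by
    intro c hc
    apply Multiset.count_eq_zero_of_notMem
    intro hm
    apply hc
    have := UniqueFactorizationMonoid.dvd_of_mem_normalizedFactors hm
    rwa [Ideal.dvd_span_singleton] at this
  by_cases h1 : a ∈ P.asIdeal
  · have h2 : b ∉ P.asIdeal := fun h2 => hP ⟨h1, h2⟩
    have ha' : (Ideal.span {a} : Ideal (𝓞 K)) ≠ 0 := by simpa using ha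
    have hb' : (Ideal.span {b} : Ideal (𝓞 K)) ≠ 0 := by simpa using hb
    have h3 : UniqueFactorizationMonoid.normalizedFactors (Ideal.span {a}) +
        UniqueFactorizationMonoid.normalizedFactors (Ideal.span {b}) =
        n • UniqueFactorizationMonoid.normalizedFactors (Ideal.span {x}) := by
      rw [← UniqueFactorizationMonoid.normalizedFactors_mul ha' hb',
        ← UniqueFactorizationMonoid.normalizedFactors_pow, Ideal.span_singleton_mul_span_singleton,
        Ideal.span_singleton_pow, h]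
    have h4 := congrArg (Multiset.count P.asIdeal) h3
    rw [Multiset.count_add, Multiset.count_nsmul, key b h2, add_zero] at h4
    rw [h4]
    exact Dvd.intro _ rfl
  · rw [key a h1]
    exact dvd_zero n

lemma not_sq_rat {D : ℤ} (hD : ¬ IsSquare D) : ∀ r : ℚ, r ^ 2 ≠ (D : ℚ) + 0 * r := by
  intro r hr
  apply hD
  rw [zero_mul, add_zero] at hr
  have h : IsSquare (D : ℚ) := ⟨r, by rw [← hr, pow_two]⟩
  rwa [Rat.isSquare_intCast_iff] at h

/-- the field `ℚ(√D)` -/
abbrev QK (D : ℤ) := QuadraticAlgebra ℚ (D : ℚ) 0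

instance numField (D : ℤ) [Fact (∀ r : ℚ, r ^ 2 ≠ (D : ℚ) + 0 * r)] : NumberField (QK D) where
  to_charZero := inferInstance
  to_finiteDimensional := inferInstance

section

variable {D : ℤ} [Fact (∀ r : ℚ, r ^ 2 ≠ (D : ℚ) + 0 * r)]

lemma int_of_integral (z : QK D) (hz : IsIntegral ℤ z) (q : ℚ) (h : z = algebraMap ℚ (QK D) q) :
    ∃ m : ℤ, (m : ℚ) = q := by
  rw [h] at hz
  have h1 : IsIntegral ℤ q := (isIntegral_algebraMap_iff (algebraMap ℚ (QK D)).injective).1 hz
  obtain ⟨m, hm⟩ := IsIntegrallyClosed.isIntegral_iff.1 h1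
  exact ⟨m, by simpa using hm⟩

lemma star_integral (z : QK D) (hz : IsIntegral ℤ z) : IsIntegral ℤ (star z) :=
  map_isIntegral_int (starRingEnd (QK D)) hz

lemma omega_integral : IsIntegral ℤ (QuadraticAlgebra.omega : QK D) := by
  apply IsIntegral.of_pow (n := 2) (by norm_num)
  have h : (QuadraticAlgebra.omega : QK D) ^ 2 = algebraMap ℤ (QK D) D := by
    rw [pow_two, QuadraticAlgebra.omega_mul_omega_eq_mk]
    ext <;> simp
  rw [h]
  exact isIntegral_algebraMap

lemma int_coords (z : QK D) (hz : IsIntegral ℤ z) :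
    ∃ s t : ℤ, (s : ℚ) = 2 * D * z.re ∧ (t : ℚ) = 2 * D * z.im := by
  obtain ⟨m, hm⟩ := int_of_integral (z + star z) (hz.add (star_integral z hz)) (2 * z.re) (by
    ext
    · simp [QuadraticAlgebra.re_ofNat, QuadraticAlgebra.im_ofNat]
      ring
    · simp [QuadraticAlgebra.re_ofNat, QuadraticAlgebra.im_ofNat])
  obtain ⟨k, hk⟩ := int_of_integral ((z - star z) * QuadraticAlgebra.omega)
    ((hz.sub (star_integral z hz)).mul omega_integral) (2 * D * z.im) (by
    ext
    · simp [QuadraticAlgebra.re_ofNat, QuadraticAlgebra.im_ofNat]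
      ring
    · simp [QuadraticAlgebra.re_ofNat, QuadraticAlgebra.im_ofNat])
  refine ⟨D * m, k, ?_, hk⟩
  push_cast
  rw [hm]
  ring

/-- every nonzero integer has a nonzero rational integer multiple -/
lemma coef (τ σ : QK D) (hτ : IsIntegral ℤ τ) (hσ : IsIntegral ℤ σ) (hτ0 : τ ≠ 0) (hσ0 : σ ≠ 0)
    (hD : D ≠ 0) :
    ∃ g : ℤ × ℤ × ℤ, (g.1 ≠ 0 ∨ g.2.1 ≠ 0) ∧ g.2.2 ≠ 0 ∧ ∀ a θ : QK D, τ * a = σ * θ ^ 3 →
      (g.2.2 : QK D) * a = ⟨g.1, g.2.1⟩ * (((2 * D : ℤ) : QK D) * θ) ^ 3 := by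
  obtain ⟨n, hn⟩ := int_of_integral (τ * star τ) (hτ.mul (star_integral τ hτ))
    (QuadraticAlgebra.norm τ) (QuadraticAlgebra.algebraMap_norm_eq_mul_star τ).symm
  have hn0 : n ≠ 0 := by
    rintro rfl
    apply hτ0
    rw [← QuadraticAlgebra.norm_eq_zero_iff_eq_zero, ← hn, Int.cast_zero]
  obtain ⟨p, q, hp, hq⟩ := int_coords (star τ * σ) ((star_integral τ hτ).mul hσ)
  have hD' : (D : ℚ) ≠ 0 := by exact_mod_cast hD
  have e1 : (⟨p, q⟩ : QK D) = ((2 * D : ℤ) : QK D) * (star τ * σ) := by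
    ext
    · rw [hp]
      simp [QuadraticAlgebra.re_ofNat, QuadraticAlgebra.im_ofNat]
    · rw [hq]
      simp [QuadraticAlgebra.re_ofNat, QuadraticAlgebra.im_ofNat]
  refine ⟨(p, q, (2 * D) ^ 4 * n), ?_, ?_, ?_⟩
  · by_contra hcon
    push Not at hcon
    obtain ⟨h1, h2⟩ := hcon
    simp only at h1 h2
    rw [h1, h2] at e1
    have h3 : (⟨((0 : ℤ) : ℚ), ((0 : ℤ) : ℚ)⟩ : QK D) = 0 := by
      ext <;> simp
    rw [h3] at e1
    have h4 : star τ ≠ 0 := by
      intro h
      exact hτ0 (star_eq_zero.1 h)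
    have h5 : ((2 * D : ℤ) : QK D) ≠ 0 := by
      rw [Int.cast_ne_zero]
      omega
    exact mul_ne_zero h5 (mul_ne_zero h4 hσ0) e1.symm
  · exact mul_ne_zero (pow_ne_zero _ (by omega)) hn0
  · intro a θ h
    have e2 : ((n : ℤ) : QK D) = τ * star τ := by
      rw [← QuadraticAlgebra.algebraMap_norm_eq_mul_star, ← hn]
      simp
    simp only
    rw [e1, Int.cast_mul, e2, Int.cast_pow]
    linear_combination ((2 * D : ℤ) : QK D) ^ 4 * star τ * h

end

end Pool.Agent.X95T.SelN
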