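import Mathlib
import Pool.Agent.X95T.HP2

/-!
Descent for `y ^ 2 - D w ^ 2 = X ^ 3`: up to finitely many factors, `y + w √D` is a cube.
-/

set_option autoImplicit false

open IsDedekindDomain NumberField

namespace Pool.Agent.X95T.SelN

lemma prime_mem {R : Type} [CommRing R] (P : Ideal R) (hP : P.IsPrime) (n : ℕ) :
    n ≠ 0 → (n : R) ∈ P → ∃ q : ℕ, q.Prime ∧ q ∣ n ∧ (q : R) ∈ P := by
  induction n using Nat.recOnMul with
  | zero => intro h; exact absurd rfl h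
  | one =>
    intro _ h
    rw [Nat.cast_one] at h
    exact absurd ((Ideal.eq_top_iff_one P).2 h) hP.ne_top
  | prime p hp => intro _ h; exact ⟨p, hp, dvd_rfl, h⟩
  | mul a b ha hb =>
    intro h0 h
    have ha0 : a ≠ 0 := left_ne_zero_of_mul h0
    have hb0 : b ≠ 0 := right_ne_zero_of_mul h0
    rw [Nat.cast_mul] at h
    rcases hP.mem_or_mem h with h | h
    · obtain ⟨q, hq, hqa, hqP⟩ := ha ha0 h
      exact ⟨q, hq, hqa.mul_right b, hqP⟩
    · obtain ⟨q, hq, hqa, hqP⟩ := hb hb0 h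
      exact ⟨q, hq, hqa.mul_left a, hqP⟩

lemma prime_mem_int {R : Type} [CommRing R] (P : Ideal R) (hP : P.IsPrime) (n : ℤ) (hn : n ≠ 0)
    (h : (n : R) ∈ P) : ∃ q : ℕ, q.Prime ∧ (q : ℤ) ∣ n ∧ (q : R) ∈ P := by
  have h1 : (n.natAbs : R) ∈ P := by
    rcases Int.natAbs_eq n with e | e
    · rw [e, Int.cast_natCast] at h
      exact h
    · rw [e, Int.cast_neg, Int.cast_natCast] at h
      exact (neg_mem_iff).1 h
  obtain ⟨q, hq, hqn, hqP⟩ := prime_mem P hP n.natAbs (Int.natAbs_ne_zero.2 hn) h1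
  exact ⟨q, hq, Int.natCast_dvd.2 hqn, hqP⟩

theorem descent (D : ℤ) (hD : ¬ IsSquare D) (S : Finset ℕ) :
    ∃ Γ : Finset (ℤ × ℤ × ℤ), (∀ g ∈ Γ, (g.1 ≠ 0 ∨ g.2.1 ≠ 0) ∧ g.2.2 ≠ 0) ∧
      ∀ X y w : ℤ, y ^ 2 - D * w ^ 2 = X ^ 3 → X ≠ 0 →
        (∀ q : ℕ, q.Prime → (q : ℤ) ∣ X → (q : ℤ) ∣ w → q ∈ S) →
        ∃ g ∈ Γ, ∃ s t : ℤ,
          g.2.2 * y = g.1 * (s ^ 3 + 3 * D * s * t ^ 2) +
            g.2.1 * D * (3 * s ^ 2 * t + D * t ^ 3) ∧
          g.2.2 * w = g.1 * (3 * s ^ 2 * t + D * t ^ 3) +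
            g.2.1 * (s ^ 3 + 3 * D * s * t ^ 2) := by
  classical
  have hf : Fact (∀ r : ℚ, r ^ 2 ≠ (D : ℚ) + 0 * r) := ⟨not_sq_rat hD⟩
  have hD0 : D ≠ 0 := by
    rintro rfl
    exact hD ⟨0, by simp⟩
  obtain ⟨δ, hδ⟩ : ∃ δ : 𝓞 (QK D), (algebraMap (𝓞 (QK D)) (QK D) δ) = QuadraticAlgebra.omega :=
    ⟨⟨_, omega_integral⟩, rfl⟩
  have hinj : Function.Injective (algebraMap (𝓞 (QK D)) (QK D)) :=
    IsFractionRing.injective (𝓞 (QK D)) (QK D)
  have hδ2 : δ ^ 2 = (D : 𝓞 (QK D)) := by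
    apply hinj
    rw [map_pow, hδ, pow_two, QuadraticAlgebra.omega_mul_omega_eq_mk, map_intCast]
    ext <;> simp
  obtain ⟨m, hm⟩ : ∃ m : ℤ, m = 2 * D * ∏ q ∈ S.filter Nat.Prime, (q : ℤ) := ⟨_, rfl⟩
  have hm0 : m ≠ 0 := by
    rw [hm]
    apply mul_ne_zero (mul_ne_zero two_ne_zero hD0)
    rw [Finset.prod_ne_zero_iff]
    intro q hq
    have := (Finset.mem_filter.1 hq).2.ne_zero
    exact_mod_cast this
  obtain ⟨S', hS'⟩ : ∃ S' : Set (HeightOneSpectrum (𝓞 (QK D))),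
      S' = {v | (m : 𝓞 (QK D)) ∈ v.asIdeal} := ⟨_, rfl⟩
  have hS'f : S'.Finite := by
    have h1 : (Ideal.span {(m : 𝓞 (QK D))} : Ideal (𝓞 (QK D))) ≠ 0 := by
      simpa using hm0
    refine (Ideal.finite_factors h1).subset ?_
    intro v hv
    rw [hS'] at hv
    rw [Set.mem_ofPred_eq, Ideal.dvd_span_singleton]
    exact hv
  obtain ⟨T, hT0, hT⟩ := sel_int' 3 (by norm_num) S' hS'f
  have hg : ∀ t : 𝓞 (QK D) × 𝓞 (QK D), ∃ g : ℤ × ℤ × ℤ, t ∈ T → (g.1 ≠ 0 ∨ g.2.1 ≠ 0) ∧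
      g.2.2 ≠ 0 ∧ ∀ a θ : QK D, (algebraMap (𝓞 (QK D)) (QK D) t.1) * a =
        (algebraMap (𝓞 (QK D)) (QK D) t.2) * θ ^ 3 →
      (g.2.2 : QK D) * a = ⟨g.1, g.2.1⟩ * (((2 * D : ℤ) : QK D) * θ) ^ 3 := by
    intro t
    by_cases ht : t ∈ T
    · obtain ⟨h1, h2⟩ := hT0 t ht
      obtain ⟨g, hg1, hg2, hg3⟩ := coef (algebraMap (𝓞 (QK D)) (QK D) t.1)
        (algebraMap (𝓞 (QK D)) (QK D) t.2) (RingOfIntegers.isIntegral_coe t.1)
        (RingOfIntegers.isIntegral_coe t.2) (by simpa using h1) (by simpa using h2) hD0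
      exact ⟨g, fun _ => ⟨hg1, hg2, hg3⟩⟩
    · exact ⟨(0, 0, 0), fun h => absurd h ht⟩
  choose G hG using hg
  refine ⟨T.image G, ?_, ?_⟩
  · intro g hgT
    obtain ⟨t, ht, rfl⟩ := Finset.mem_image.1 hgT
    exact ⟨(hG t ht).1, (hG t ht).2.1⟩
  · intro X y w hXyw hX0 hq
    have hab : ((y : 𝓞 (QK D)) + w * δ) * ((y : 𝓞 (QK D)) - w * δ) = (X : 𝓞 (QK D)) ^ 3 := by
      have h1 : ((y ^ 2 - D * w ^ 2 : ℤ) : 𝓞 (QK D)) = ((X ^ 3 : ℤ) : 𝓞 (QK D)) := by rw [hXyw]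
      push_cast at h1
      rw [← h1, ← hδ2]
      ring
    have hX0' : ((X : 𝓞 (QK D)) ^ 3) ≠ 0 := pow_ne_zero _ (by exact_mod_cast hX0)
    have ha0 : ((y : 𝓞 (QK D)) + w * δ) ≠ 0 := by
      intro h
      rw [h, zero_mul] at hab
      exact hX0' hab.symm
    have hb0 : ((y : 𝓞 (QK D)) - w * δ) ≠ 0 := by
      intro h
      rw [h, mul_zero] at hab
      exact hX0' hab.symm
    obtain ⟨t, ht, θ, hθ⟩ := hT ((y : 𝓞 (QK D)) + w * δ) ha0 (by
      intro v hv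
      apply dvd_count 3 v _ _ (X : 𝓞 (QK D)) ha0 hb0 hab
      rintro ⟨h1, h2⟩
      apply hv
      rw [hS', Set.mem_ofPred_eq]
      have hXP : (X : 𝓞 (QK D)) ∈ v.asIdeal := by
        apply v.isPrime.mem_of_pow_mem 3
        rw [← hab]
        exact v.asIdeal.mul_mem_right _ h1
      have h3 : ((2 * D : ℤ) : 𝓞 (QK D)) * (w : 𝓞 (QK D)) ∈ v.asIdeal := by
        have h4 := v.asIdeal.mul_mem_right δ (v.asIdeal.sub_mem h1 h2)
        have h5 : (((y : 𝓞 (QK D)) + w * δ) - ((y : 𝓞 (QK D)) - w * δ)) * δ =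
            ((2 * D : ℤ) : 𝓞 (QK D)) * (w : 𝓞 (QK D)) := by
          push_cast
          rw [← hδ2]
          ring
        rwa [h5] at h4
      rcases v.isPrime.mem_or_mem h3 with h4 | h4
      · rw [hm, Int.cast_mul]
        exact v.asIdeal.mul_mem_right _ h4
      · obtain ⟨q, hqp, hqX, hqP⟩ := prime_mem_int v.asIdeal v.isPrime X hX0 hXP
        have hqw : (q : ℤ) ∣ w := by
          by_contra hcon
          have hcop : IsCoprime (q : ℤ) w :=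
            (Nat.prime_iff_prime_int.1 hqp).coprime_iff_not_dvd.2 hcon
          obtain ⟨α, β, hαβ⟩ := hcop
          apply v.isPrime.ne_top
          rw [Ideal.eq_top_iff_one]
          have h6 : ((α * q + β * w : ℤ) : 𝓞 (QK D)) = 1 := by rw [hαβ, Int.cast_one]
          rw [← h6]
          push_cast
          exact v.asIdeal.add_mem (v.asIdeal.mul_mem_left _ hqP) (v.asIdeal.mul_mem_left _ h4)
        have hqS := hq q hqp hqX hqw
        have h7 : (q : ℤ) ∣ m := by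
          rw [hm]
          apply Dvd.dvd.mul_left
          exact Finset.dvd_prod_of_mem (fun q : ℕ => (q : ℤ)) (Finset.mem_filter.2 ⟨hqS, hqp⟩)
        obtain ⟨k, hk⟩ := h7
        rw [hk, Int.cast_mul, Int.cast_natCast]
        exact v.asIdeal.mul_mem_right _ hqP)
    refine ⟨G t, Finset.mem_image.2 ⟨t, ht, rfl⟩, ?_⟩
    obtain ⟨s, r, hs, hr⟩ := int_coords (algebraMap (𝓞 (QK D)) (QK D) θ)
      (RingOfIntegers.isIntegral_coe θ)
    refine ⟨s, r, ?_⟩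
    have h1 := (hG t ht).2.2 (algebraMap (𝓞 (QK D)) (QK D) ((y : 𝓞 (QK D)) + w * δ))
      (algebraMap (𝓞 (QK D)) (QK D) θ) (by rw [← map_mul, hθ, map_mul, map_pow])
    have e1 : ((2 * D : ℤ) : QK D) * algebraMap (𝓞 (QK D)) (QK D) θ = ⟨s, r⟩ := by
      ext
      · rw [hs]
        simp [QuadraticAlgebra.re_ofNat, QuadraticAlgebra.im_ofNat]
      · rw [hr]
        simp [QuadraticAlgebra.re_ofNat, QuadraticAlgebra.im_ofNat]
    have e2 : algebraMap (𝓞 (QK D)) (QK D) ((y : 𝓞 (QK D)) + w * δ) = ⟨y, w⟩ := by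
      rw [map_add, map_mul, map_intCast, map_intCast, hδ]
      ext <;> simp
    rw [e1, e2] at h1
    clear hG hθ
    generalize G t = g at h1 ⊢
    obtain ⟨p, q, d⟩ := g
    simp only at h1 ⊢
    have h2 := congrArg QuadraticAlgebra.re h1
    have h3 := congrArg QuadraticAlgebra.im h1
    simp only [pow_succ, pow_zero, one_mul, QuadraticAlgebra.re_mul, QuadraticAlgebra.im_mul,
      QuadraticAlgebra.re_intCast, QuadraticAlgebra.im_intCast, mul_zero, zero_mul, add_zero,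
      zero_add] at h2 h3
    constructor
    · have : ((d * y : ℤ) : ℚ) = ((p * (s ^ 3 + 3 * D * s * r ^ 2) +
            q * D * (3 * s ^ 2 * r + D * r ^ 3) : ℤ) : ℚ) := by
        push_cast
        rw [h2]
        ring
      exact_mod_cast this
    · have : ((d * w : ℤ) : ℚ) = ((p * (3 * s ^ 2 * r + D * r ^ 3) +
            q * (s ^ 3 + 3 * D * s * r ^ 2) : ℤ) : ℚ) := by
        push_cast
        rw [h3]
        ring
      exact_mod_cast this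

end Pool.Agent.X95T.SelN
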