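import Mathlib

/-!
Plane cubics: linear factors, squarefree leading forms.
-/

set_option autoImplicit false

namespace Pool.Agent.X95T.SelN

open MvPolynomial

/-- a polynomial of total degree one in two variables -/
lemma deg_one_form (f : MvPolynomial (Fin 2) ℚ) (h : f.totalDegree = 1) :
    ∃ p q r : ℚ, (p ≠ 0 ∨ q ≠ 0) ∧ f = C p * X 0 + C q * X 1 + C r := by
  classical
  have key : f = C (f.coeff (Finsupp.single 0 1)) * X 0 + C (f.coeff (Finsupp.single 1 1)) * X 1 +
      C (f.coeff 0) := by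
    ext m
    rw [coeff_add, coeff_add, coeff_C_mul, coeff_C_mul, coeff_X, coeff_X, coeff_C]
    have h01 : (Finsupp.single (0 : Fin 2) 1 : Fin 2 →₀ ℕ) ≠ Finsupp.single 1 1 := by
      intro h
      have := DFunLike.congr_fun h 0
      simp at this
    have h00 : (Finsupp.single (0 : Fin 2) 1 : Fin 2 →₀ ℕ) ≠ 0 := by simp
    have h11 : (Finsupp.single (1 : Fin 2) 1 : Fin 2 →₀ ℕ) ≠ 0 := by simp
    by_cases hm0 : m = 0
    · subst hm0
      simp
    by_cases hm1 : m = Finsupp.single 0 1
    · subst hm1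
      rw [if_pos rfl, if_neg (Ne.symm h01), if_neg h00.symm]
      simp
    by_cases hm2 : m = Finsupp.single 1 1
    · subst hm2
      rw [if_pos rfl, if_neg h01, if_neg h11.symm]
      simp
    rw [if_neg (fun h => hm1 h.symm), if_neg (fun h => hm2 h.symm), if_neg (fun h => hm0 h.symm)]
    simp only [mul_zero, add_zero]
    by_contra hc
    have h1 := le_totalDegree (mem_support_iff.2 hc)
    rw [h] at h1
    have h2 : (m.sum fun _ e => e) = m 0 + m 1 := by
      rw [Finsupp.sum_fintype _ _ (fun _ => rfl)]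
      simp
    rw [h2] at h1
    have h3 : m 0 = 0 ∨ m 1 = 0 := by omega
    rcases h3 with h3 | h3
    · rcases Nat.eq_zero_or_pos (m 1) with h4 | h4
      · apply hm0
        ext i
        fin_cases i
        · exact h3
        · exact h4
      · apply hm2
        ext i
        fin_cases i
        · simpa using h3
        · simp
          omega
    · rcases Nat.eq_zero_or_pos (m 0) with h4 | h4
      · apply hm0
        ext i
        fin_cases i
        · exact h4
        · exact h3
      · apply hm1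
        ext i
        fin_cases i
        · simp
          omega
        · simpa using h3
  refine ⟨_, _, _, ?_, key⟩
  by_contra hcon
  push Not at hcon
  obtain ⟨h1, h2⟩ := hcon
  rw [h1, h2] at key
  simp only [map_zero, zero_mul, zero_add] at key
  rw [key, totalDegree_C] at h
  exact zero_ne_one h

/-- a polynomial of total degree one vanishes along a line -/
lemma line_kill (f : MvPolynomial (Fin 2) ℚ) (h : f.totalDegree = 1) :
    ∃ x₀ y₀ x₁ y₁ : ℂ, (x₁ ≠ 0 ∨ y₁ ≠ 0) ∧
      ∀ τ : ℂ, aeval ![x₀ + x₁ * τ, y₀ + y₁ * τ] f = 0 := by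
  obtain ⟨p, q, r, hpq, rfl⟩ := deg_one_form f h
  have hn : p ^ 2 + q ^ 2 ≠ 0 := by
    intro h0
    have h1 : p = 0 := by nlinarith [sq_nonneg p, sq_nonneg q]
    have h2 : q = 0 := by nlinarith [sq_nonneg p, sq_nonneg q]
    rcases hpq with h | h
    · exact h h1
    · exact h h2
  have hn' : (p : ℂ) ^ 2 + (q : ℂ) ^ 2 ≠ 0 := by exact_mod_cast hn
  refine ⟨-r * p / (p ^ 2 + q ^ 2), -r * q / (p ^ 2 + q ^ 2), q, -p, ?_, ?_⟩
  · rcases hpq with h | h
    · right
      simpa using h
    · left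
      exact_mod_cast h
  · intro τ
    simp only [map_add, map_mul, aeval_X, algHom_C, eq_ratCast, Matrix.cons_val_zero,
      Matrix.cons_val_one]
    field_simp
    ring

lemma deg_pos_of_not_unit (f : MvPolynomial (Fin 2) ℚ) (h0 : f ≠ 0) (h : ¬ IsUnit f) :
    1 ≤ f.totalDegree := by
  by_contra hcon
  have h1 : f.totalDegree = 0 := by omega
  rw [totalDegree_eq_zero_iff_eq_C] at h1
  apply h
  rw [h1]
  apply IsUnit.map
  rw [isUnit_iff_ne_zero]
  intro h2
  apply h0
  rw [h1, h2, map_zero]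

/-- a cubic without lines is irreducible -/
lemma irr_of_no_line (F : MvPolynomial (Fin 2) ℚ) (h3 : F.totalDegree = 3)
    (h : ∀ x₀ y₀ x₁ y₁ : ℂ, (x₁ ≠ 0 ∨ y₁ ≠ 0) →
      (∀ τ : ℂ, aeval ![x₀ + x₁ * τ, y₀ + y₁ * τ] F = 0) → False) : Irreducible F := by
  have hF0 : F ≠ 0 := by
    rintro rfl
    rw [totalDegree_zero] at h3
    omega
  have key : ∀ f g : MvPolynomial (Fin 2) ℚ, F = f * g → f.totalDegree ≠ 1 := by
    intro f g hfg hf
    obtain ⟨x₀, y₀, x₁, y₁, hn, hk⟩ := line_kill f hf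
    apply h x₀ y₀ x₁ y₁ hn
    intro τ
    rw [hfg, map_mul, hk, zero_mul]
  constructor
  · intro hu
    obtain ⟨r, hr, hr2⟩ := MvPolynomial.isUnit_iff_eq_C_of_isReduced.1 hu
    rw [hr2, totalDegree_C] at h3
    omega
  · intro f g hfg
    by_contra hcon
    push Not at hcon
    obtain ⟨hf, hg⟩ := hcon
    have hf0 : f ≠ 0 := by
      rintro rfl
      rw [zero_mul] at hfg
      exact hF0 hfg
    have hg0 : g ≠ 0 := by
      rintro rfl
      rw [mul_zero] at hfg
      exact hF0 hfg
    have h1 := deg_pos_of_not_unit f hf0 hf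
    have h2 := deg_pos_of_not_unit g hg0 hg
    have h4 := totalDegree_mul_of_isDomain hf0 hg0
    rw [← hfg, h3] at h4
    have h5 := key f g hfg
    have h6 := key g f (by rw [hfg, mul_comm])
    omega

/-- squarefree leading forms -/
lemma sqfree_form (L : MvPolynomial (Fin 2) ℚ) (h3 : L.totalDegree ≤ 3) (hL : L ≠ 0)
    (h : ∀ x y : ℂ, aeval ![x, y] (pderiv 0 L) = 0 → aeval ![x, y] (pderiv 1 L) = 0 →
      x = 0 ∧ y = 0) : Squarefree L := by
  intro q hq
  by_contra hu
  obtain ⟨m, hm⟩ := hq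
  have hq0 : q ≠ 0 := by
    rintro rfl
    rw [zero_mul, zero_mul] at hm
    exact hL hm
  have hm0 : m ≠ 0 := by
    rintro rfl
    rw [mul_zero] at hm
    exact hL hm
  have h1 := deg_pos_of_not_unit q hq0 hu
  have h4 := totalDegree_mul_of_isDomain (mul_ne_zero hq0 hq0) hm0
  have h5 := totalDegree_mul_of_isDomain hq0 hq0
  rw [← hm, h5] at h4
  obtain ⟨x₀, y₀, x₁, y₁, hn, hk⟩ := line_kill q (by omega)
  have hd : ∀ (i : Fin 2) (τ : ℂ), aeval ![x₀ + x₁ * τ, y₀ + y₁ * τ] (pderiv i L) = 0 := by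
    intro i τ
    rw [hm]
    simp only [Derivation.leibniz, smul_eq_mul, map_add, map_mul, hk]
    ring
  have e0 := h _ _ (hd 0 0) (hd 1 0)
  have e1 := h _ _ (hd 0 1) (hd 1 1)
  simp only [mul_zero, add_zero, mul_one] at e0 e1
  rw [e0.1, e0.2, zero_add, zero_add] at e1
  rcases hn with hn | hn
  · exact hn e1.1
  · exact hn e1.2

end Pool.Agent.X95T.SelN
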