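import Pool.Agent.X95T.E
import Pool.Agent.X95T.HP3
import Pool.Agent.X95T.HP4

/-!
The plane cubic of the descent through a 3-isogeny.
-/

set_option autoImplicit false

namespace Pool.Agent.X95T.SelN

open MvPolynomial
open Pool.Agent.Results.MP_821da1_nt.RepulsionAllCurves (len)

/-- the leading form -/
noncomputable def Lf {R : Type} [CommRing R] (a b D : R) : MvPolynomial (Fin 2) R :=
  C b * X 0 ^ 3 + C (3 * a) * (X 0 ^ 2 * X 1) + C (3 * b * D) * (X 0 * X 1 ^ 2) +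
    C (a * D) * X 1 ^ 3

/-- the cubic -/
noncomputable def Gf {R : Type} [CommRing R] (a b D c e : R) : MvPolynomial (Fin 2) R :=
  Lf a b D + C c * (X 0 ^ 2 - C D * X 1 ^ 2) + C e

lemma map_Gf (a b D c e : ℤ) : map (Int.castRingHom ℚ) (Gf a b D c e) =
    Gf (a : ℚ) b D c e := by
  simp only [Gf, Lf, map_add, map_sub, map_mul, map_pow, map_C, map_X]
  simp

lemma map_Lf (a b D : ℤ) : map (Int.castRingHom ℚ) (Lf a b D) = Lf (a : ℚ) b D := by
  simp only [Lf, map_add, map_mul, map_pow, map_C, map_X]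
  simp

lemma hom_Lf {R : Type} [CommRing R] (a b D : R) : (Lf a b D).IsHomogeneous 3 := by
  have h0 : (X 0 : MvPolynomial (Fin 2) R).IsHomogeneous 1 := isHomogeneous_X _ _
  have h1 : (X 1 : MvPolynomial (Fin 2) R).IsHomogeneous 1 := isHomogeneous_X _ _
  have hC : ∀ c : R, (C c : MvPolynomial (Fin 2) R).IsHomogeneous 0 := isHomogeneous_C _
  exact ((((hC b).mul (h0.pow 3)).add ((hC (3 * a)).mul ((h0.pow 2).mul h1))).add
    ((hC (3 * b * D)).mul (h0.mul (h1.pow 2)))).add ((hC (a * D)).mul (h1.pow 3))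

lemma deg_rest {R : Type} [CommRing R] (D c e : R) :
    (C c * (X 0 ^ 2 - C D * X 1 ^ 2) + C e : MvPolynomial (Fin 2) R).totalDegree ≤ 2 := by
  refine (totalDegree_add _ _).trans (max_le ?_ ?_)
  · refine (totalDegree_mul _ _).trans ?_
    rw [totalDegree_C, zero_add]
    refine (totalDegree_sub _ _).trans (max_le ?_ ?_)
    · refine (totalDegree_pow _ _).trans ?_
      have := (isHomogeneous_X R (0 : Fin 2)).totalDegree_le
      omega
    · refine (totalDegree_mul _ _).trans ?_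
      rw [totalDegree_C, zero_add]
      refine (totalDegree_pow _ _).trans ?_
      have := (isHomogeneous_X R (1 : Fin 2)).totalDegree_le
      omega
  · rw [totalDegree_C]
    omega

lemma hc_Gf {R : Type} [CommRing R] (a b D c e : R) :
    homogeneousComponent 3 (Gf a b D c e) = Lf a b D := by
  rw [Gf, add_assoc, map_add, homogeneousComponent_eq_self (hom_Lf a b D),
    homogeneousComponent_eq_zero _ _ (lt_of_le_of_lt (deg_rest D c e) (by norm_num)), add_zero]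

lemma deg_le_Gf {R : Type} [CommRing R] (a b D c e : R) : (Gf a b D c e).totalDegree ≤ 3 := by
  rw [Gf, add_assoc]
  exact (totalDegree_add _ _).trans (max_le (hom_Lf a b D).totalDegree_le
    ((deg_rest D c e).trans (by norm_num)))

lemma Lf_ne {R : Type} [CommRing R] (a b D : R) (hD : D ≠ 0) [IsDomain R] (h : a ≠ 0 ∨ b ≠ 0) :
    Lf a b D ≠ 0 := by
  intro h0
  have e1 := congrArg (eval ![1, 0]) h0
  have e2 := congrArg (eval ![0, 1]) h0
  simp [Lf] at e1 e2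
  rcases h with h | h
  · exact (e2.resolve_right hD) |> h
  · exact h e1

lemma deg_Gf {R : Type} [CommRing R] [IsDomain R] (a b D c e : R) (hD : D ≠ 0)
    (h : a ≠ 0 ∨ b ≠ 0) : (Gf a b D c e).totalDegree = 3 := by
  apply le_antisymm (deg_le_Gf a b D c e)
  by_contra hcon
  have := homogeneousComponent_eq_zero 3 (Gf a b D c e) (by omega)
  rw [hc_Gf] at this
  exact Lf_ne a b D hD h this

lemma eval_Gf (a b D c e s t : ℤ) : eval ![s, t] (Gf a b D c e) =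
    a * (3 * s ^ 2 * t + D * t ^ 3) + b * (s ^ 3 + 3 * D * s * t ^ 2) +
      c * (s ^ 2 - D * t ^ 2) + e := by
  simp [Gf, Lf]
  ring

lemma len_C_mul (m : Fin 2 →₀ ℕ) (c : ℤ) : len (C c * monomial m 1) ≤ c.natAbs := by
  rw [C_mul_monomial, mul_one]
  exact len_monomial m c

lemma len_Gf (a b D c e : ℤ) : len (Gf a b D c e) ≤ b.natAbs + (3 * a).natAbs +
    (3 * b * D).natAbs + (a * D).natAbs + c.natAbs + (c * D).natAbs + e.natAbs := by
  have e1 : Gf a b D c e = C b * monomial (Finsupp.single 0 3) 1 +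
      C (3 * a) * monomial (Finsupp.single 0 2 + Finsupp.single 1 1) 1 +
      C (3 * b * D) * monomial (Finsupp.single 0 1 + Finsupp.single 1 2) 1 +
      C (a * D) * monomial (Finsupp.single 1 3) 1 +
      C c * monomial (Finsupp.single 0 2) 1 +
      C (-(c * D)) * monomial (Finsupp.single 1 2) 1 + C e * monomial 0 1 := by
    have h0 : ∀ n : ℕ, (monomial (Finsupp.single 0 n) 1 : MvPolynomial (Fin 2) ℤ) = X 0 ^ n :=
      fun n => (X_pow_eq_monomial).symm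
    have h1 : ∀ n : ℕ, (monomial (Finsupp.single 1 n) 1 : MvPolynomial (Fin 2) ℤ) = X 1 ^ n :=
      fun n => (X_pow_eq_monomial).symm
    have h2 : ∀ n m : ℕ, (monomial (Finsupp.single 0 n + Finsupp.single 1 m) 1 :
        MvPolynomial (Fin 2) ℤ) = X 0 ^ n * X 1 ^ m := by
      intro n m
      rw [← h0, ← h1, monomial_mul, one_mul]
    rw [h0, h0, h1, h1, h2, h2, Gf, Lf]
    simp only [map_neg, map_mul]
    have h3 : (monomial 0 1 : MvPolynomial (Fin 2) ℤ) = 1 := rfl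
    rw [h3]
    ring
  rw [e1]
  refine (len_add _ _).trans (Nat.add_le_add ?_ (len_C_mul _ _))
  refine (len_add _ _).trans (Nat.add_le_add ?_ ((len_C_mul _ _).trans (by rw [Int.natAbs_neg])))
  refine (len_add _ _).trans (Nat.add_le_add ?_ (len_C_mul _ _))
  refine (len_add _ _).trans (Nat.add_le_add ?_ (len_C_mul _ _))
  refine (len_add _ _).trans (Nat.add_le_add ?_ (len_C_mul _ _))
  refine (len_add _ _).trans (Nat.add_le_add (len_C_mul _ _) (len_C_mul _ _))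

/-- `a ^ 2 ≠ D b ^ 2` -/
lemma norm_ne {D : ℤ} (hD : ¬ IsSquare D) (a b : ℤ) (h : a ≠ 0 ∨ b ≠ 0) :
    a ^ 2 - D * b ^ 2 ≠ 0 := by
  intro h0
  by_cases hb : b = 0
  · subst hb
    have : a ^ 2 = 0 := by linear_combination h0
    have ha : a = 0 := by simpa using this
    rcases h with h | h
    · exact h ha
    · exact h rfl
  · apply hD
    have h1 : b ^ 2 ∣ a ^ 2 := ⟨D, by linear_combination h0⟩
    rw [Int.pow_dvd_pow_iff (by norm_num)] at h1
    obtain ⟨k, rfl⟩ := h1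
    refine ⟨k, ?_⟩
    have h2 : b ^ 2 * (k ^ 2 - D) = 0 := by linear_combination h0
    have h3 := (mul_eq_zero.1 h2).resolve_left (pow_ne_zero _ hb)
    linear_combination -h3

lemma sqf_Lf {D : ℤ} (hD : ¬ IsSquare D) (a b : ℤ) (h : a ≠ 0 ∨ b ≠ 0) :
    Squarefree (Lf (a : ℚ) b D) := by
  have hD0 : D ≠ 0 := by
    rintro rfl
    exact hD ⟨0, by simp⟩
  have hN := norm_ne hD a b h
  have hN' : (a : ℂ) ^ 2 - D * b ^ 2 ≠ 0 := by exact_mod_cast hN
  apply sqfree_form _ (hom_Lf _ _ _).totalDegree_le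
  · apply Lf_ne
    · exact_mod_cast hD0
    · simpa using h
  · intro x y h0 h1
    have e0 : (b : ℂ) * (x ^ 2 + D * y ^ 2) + 2 * a * (x * y) = 0 := by
      have : aeval ![x, y] (pderiv 0 (Lf (a : ℚ) b D)) =
          3 * ((b : ℂ) * (x ^ 2 + D * y ^ 2) + 2 * a * (x * y)) := by
        simp [Lf, pderiv_X]
        ring
      rw [this] at h0
      exact (mul_eq_zero.1 h0).resolve_left (by norm_num)
    have e1 : (a : ℂ) * (x ^ 2 + D * y ^ 2) + 2 * b * D * (x * y) = 0 := by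
      have : aeval ![x, y] (pderiv 1 (Lf (a : ℚ) b D)) =
          3 * ((a : ℂ) * (x ^ 2 + D * y ^ 2) + 2 * b * D * (x * y)) := by
        simp [Lf, pderiv_X]
        ring
      rw [this] at h1
      exact (mul_eq_zero.1 h1).resolve_left (by norm_num)
    have e2 : ((a : ℂ) ^ 2 - D * b ^ 2) * (x * y) = 0 := by
      linear_combination (a / 2 : ℂ) * e0 - (b / 2 : ℂ) * e1
    have e3 := (mul_eq_zero.1 e2).resolve_left hN'
    have e4 : ((a : ℂ) ^ 2 - D * b ^ 2) * (x ^ 2 + D * y ^ 2) = 0 := by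
      linear_combination (a : ℂ) * e1 - (b : ℂ) * D * e0
    have e5 := (mul_eq_zero.1 e4).resolve_left hN'
    have hD' : (D : ℂ) ≠ 0 := by exact_mod_cast hD0
    rcases mul_eq_zero.1 e3 with h | h
    · rw [h] at e5
      refine ⟨h, ?_⟩
      have : (D : ℂ) * y ^ 2 = 0 := by linear_combination e5
      simpa [hD'] using this
    · rw [h] at e5
      refine ⟨?_, h⟩
      have : x ^ 2 = 0 := by linear_combination e5
      simpa using this

lemma cubic_zero (A B C E : ℂ) (h : ∀ τ : ℂ, A * τ ^ 3 + B * τ ^ 2 + C * τ + E = 0) :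
    A = 0 ∧ B = 0 ∧ C = 0 ∧ E = 0 := by
  have h0 := h 0
  have h1 := h 1
  have h2 := h (-1)
  have h3 := h 2
  have e0 : E = 0 := by linear_combination h0
  have e1 : B = 0 := by linear_combination (1 / 2 : ℂ) * h1 + (1 / 2 : ℂ) * h2 - h0
  have e2 : A = 0 := by
    linear_combination (1 / 6 : ℂ) * h3 - (1 / 2 : ℂ) * h1 + (1 / 2 : ℂ) * h0 -
      (1 / 6 : ℂ) * h2
  refine ⟨e2, e1, ?_, e0⟩
  linear_combination h1 - e0 - e1 - e2

lemma irr_Gf {D : ℤ} (hD : ¬ IsSquare D) (a b c e : ℤ) (h : a ≠ 0 ∨ b ≠ 0)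
    (hdisc : 4 * D * c ^ 3 ≠ 27 * (a ^ 2 - D * b ^ 2) * e) :
    Irreducible (map (Int.castRingHom ℚ) (Gf a b D c e)) := by
  have hD0 : D ≠ 0 := by
    rintro rfl
    exact hD ⟨0, by simp⟩
  have hN := norm_ne hD a b h
  rw [map_Gf]
  apply irr_of_no_line
  · apply deg_Gf
    · exact_mod_cast hD0
    · simpa using h
  · intro x₀ y₀ x₁ y₁ hn hk
    obtain ⟨δ, hδ⟩ := IsAlgClosed.exists_pow_nat_eq (D : ℂ) (n := 2) (by norm_num)
    have hδ0 : δ ≠ 0 := by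
      rintro rfl
      have : (D : ℂ) = 0 := by rw [← hδ]; ring
      exact hD0 (by exact_mod_cast this)
    -- coordinates `ξ = x + y δ`, `η = x - y δ`
    obtain ⟨α, hα⟩ : ∃ α : ℂ, α = a + b * δ := ⟨_, rfl⟩
    obtain ⟨β, hβ⟩ : ∃ β : ℂ, β = -(a - b * δ) := ⟨_, rfl⟩
    have hαβ : α * β = -((a : ℂ) ^ 2 - D * b ^ 2) := by
      rw [hα, hβ, ← hδ]
      ring
    have hN' : (a : ℂ) ^ 2 - D * b ^ 2 ≠ 0 := by exact_mod_cast hN
    have hαβ0 : α * β ≠ 0 := by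
      rw [hαβ]
      exact neg_ne_zero.2 hN'
    have hα0 := left_ne_zero_of_mul hαβ0
    have hβ0 := right_ne_zero_of_mul hαβ0
    obtain ⟨ξ₀, hξ₀⟩ : ∃ ξ₀ : ℂ, ξ₀ = x₀ + y₀ * δ := ⟨_, rfl⟩
    obtain ⟨η₀, hη₀⟩ : ∃ η₀ : ℂ, η₀ = x₀ - y₀ * δ := ⟨_, rfl⟩
    obtain ⟨ξ₁, hξ₁⟩ : ∃ ξ₁ : ℂ, ξ₁ = x₁ + y₁ * δ := ⟨_, rfl⟩
    obtain ⟨η₁, hη₁⟩ : ∃ η₁ : ℂ, η₁ = x₁ - y₁ * δ := ⟨_, rfl⟩
    have hP : ∀ τ : ℂ, α * (ξ₀ + ξ₁ * τ) ^ 3 + β * (η₀ + η₁ * τ) ^ 3 +
        2 * δ * c * ((ξ₀ + ξ₁ * τ) * (η₀ + η₁ * τ)) + 2 * δ * e = 0 := by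
      intro τ
      have h1 := hk τ
      have h2 : aeval ![x₀ + x₁ * τ, y₀ + y₁ * τ] (Gf (a : ℚ) b D c e) =
          a * (3 * (x₀ + x₁ * τ) ^ 2 * (y₀ + y₁ * τ) + D * (y₀ + y₁ * τ) ^ 3) +
          b * ((x₀ + x₁ * τ) ^ 3 + 3 * D * (x₀ + x₁ * τ) * (y₀ + y₁ * τ) ^ 2) +
          c * ((x₀ + x₁ * τ) ^ 2 - D * (y₀ + y₁ * τ) ^ 2) + e := by
        simp [Gf, Lf]
        ring
      rw [h2, ← hδ] at h1
      rw [hα, hβ, hξ₀, hη₀, hξ₁, hη₁]
      linear_combination 2 * δ * h1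
    have hne : ¬ (ξ₁ = 0 ∧ η₁ = 0) := by
      rintro ⟨h1, h2⟩
      rw [hξ₁] at h1
      rw [hη₁] at h2
      have e1 : x₁ = 0 := by linear_combination (1 / 2 : ℂ) * h1 + (1 / 2 : ℂ) * h2
      have e2 : y₁ * δ = 0 := by linear_combination h1 - e1
      rcases hn with hn | hn
      · exact hn e1
      · exact hn ((mul_eq_zero.1 e2).resolve_right hδ0)
    have hlead : α * ξ₁ ^ 3 + β * η₁ ^ 3 = 0 := by
      refine (cubic_zero _ (3 * α * ξ₀ * ξ₁ ^ 2 + 3 * β * η₀ * η₁ ^ 2 + 2 * δ * c * ξ₁ * η₁)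
        (3 * α * ξ₀ ^ 2 * ξ₁ + 3 * β * η₀ ^ 2 * η₁ + 2 * δ * c * (ξ₀ * η₁ + ξ₁ * η₀))
        (α * ξ₀ ^ 3 + β * η₀ ^ 3 + 2 * δ * c * ξ₀ * η₀ + 2 * δ * e) ?_).1
      intro τ
      linear_combination hP τ
    have hη : η₁ ≠ 0 := by
      intro h0
      rw [h0] at hlead
      have h1 : α * ξ₁ ^ 3 = 0 := by linear_combination hlead
      have h2 := (mul_eq_zero.1 h1).resolve_left hα0
      exact hne ⟨by simpa using h2, h0⟩
    have hξ : ξ₁ ≠ 0 := by
      intro h0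
      rw [h0] at hlead
      have h1 : β * η₁ ^ 3 = 0 := by linear_combination hlead
      have h2 := (mul_eq_zero.1 h1).resolve_left hβ0
      exact hne ⟨h0, by simpa using h2⟩
    obtain ⟨ξ', hξ'⟩ : ∃ ξ' : ℂ, ξ' = ξ₀ + ξ₁ * (-η₀ / η₁) := ⟨_, rfl⟩
    have hQ := cubic_zero (α * ξ₁ ^ 3 + β * η₁ ^ 3)
        (3 * α * ξ' * ξ₁ ^ 2 + 2 * δ * c * ξ₁ * η₁)
        (3 * α * ξ' ^ 2 * ξ₁ + 2 * δ * c * ξ' * η₁)
        (α * ξ' ^ 3 + 2 * δ * e) (by
      intro σ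
      have h1 := hP (-η₀ / η₁ + σ)
      have h2 : ξ₀ + ξ₁ * (-η₀ / η₁ + σ) = ξ' + ξ₁ * σ := by rw [hξ']; ring
      have h3 : η₀ + η₁ * (-η₀ / η₁ + σ) = η₁ * σ := by
        field_simp
        ring
      rw [h2, h3] at h1
      linear_combination h1)
    obtain ⟨-, q2, -, q0⟩ := hQ
    have q2' : 3 * α * ξ' * ξ₁ + 2 * δ * c * η₁ = 0 := by
      have h1 : ξ₁ * (3 * α * ξ' * ξ₁ + 2 * δ * c * η₁) = 0 := by linear_combination q2
      exact (mul_eq_zero.1 h1).resolve_left hξ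
    -- `(2 δ c η₁) ^ 3 = - 27 α ^ 3 ξ' ^ 3 ξ₁ ^ 3 = - 27 α (2 δ e) β η₁ ^ 3`
    have k1 : (2 * δ * c * η₁) ^ 3 = -27 * α * β * (2 * δ * e) * η₁ ^ 3 := by
      have h1 : 2 * δ * c * η₁ = -(3 * α * ξ' * ξ₁) := by linear_combination q2'
      have h2 : α * ξ' ^ 3 = -(2 * δ * e) := by linear_combination q0
      have h3 : α * ξ₁ ^ 3 = -(β * η₁ ^ 3) := by linear_combination hlead
      calc (2 * δ * c * η₁) ^ 3 = (-(3 * α * ξ' * ξ₁)) ^ 3 := by rw [h1]
        _ = -27 * α * (α * ξ' ^ 3) * (α * ξ₁ ^ 3) := by ring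
        _ = -27 * α * (-(2 * δ * e)) * (-(β * η₁ ^ 3)) := by rw [h2, h3]
        _ = _ := by ring
    have k2 : 2 * δ * η₁ ^ 3 * (4 * D * (c : ℂ) ^ 3 - 27 * (a ^ 2 - D * b ^ 2) * e) = 0 := by
      have h1 : (2 * δ * c * η₁) ^ 3 = 2 * δ * η₁ ^ 3 * (4 * D * (c : ℂ) ^ 3) := by
        rw [← hδ]
        ring
      have h2 : -27 * α * β * (2 * δ * e) * η₁ ^ 3 =
          2 * δ * η₁ ^ 3 * (27 * (a ^ 2 - D * b ^ 2) * e) := by
        have : -27 * α * β * (2 * δ * e) * η₁ ^ 3 = -27 * (α * β) * (2 * δ * e) * η₁ ^ 3 := by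
          ring
        rw [this, hαβ]
        ring
      rw [h1, h2] at k1
      linear_combination k1
    have k3 := (mul_eq_zero.1 k2).resolve_left
      (mul_ne_zero (mul_ne_zero two_ne_zero hδ0) (pow_ne_zero _ hη))
    apply hdisc
    have k4 : (4 * D * (c : ℂ) ^ 3) = 27 * (a ^ 2 - D * b ^ 2) * e := by linear_combination k3
    exact_mod_cast k4

end Pool.Agent.X95T.SelN
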