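import Pool.Agent.X95T.HP5
import Pool.Agent.H322R2.Final1

/-!
Curves with a 3-isogeny whose kernel is defined over a fixed quadratic field.
-/

set_option autoImplicit false

namespace Pool.Agent.X95T.SelN

open Pool.Agent.Results.MP_821da1_nt.RepulsionAllCurves (len)
open IntermediateField

/-- the 3-division polynomial and the line of inflection -/
lemma get_l (D A B u v : ℤ) (hsq : Squarefree D) (hdisc : 4 * A ^ 3 + 27 * B ^ 2 ≠ 0)
    (hT : u ^ 3 + A * u + B = D * v ^ 2)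
    (hψ : 3 * u ^ 4 + 6 * A * u ^ 2 + 12 * B * u - A ^ 2 = 0) :
    v ≠ 0 ∧ ∃ l : ℤ, 2 * D * v * l = 3 * u ^ 2 + A ∧ D * l ^ 2 = 3 * u := by
  have h1 : (3 * u ^ 2 + A) ^ 2 = 12 * u * D * v ^ 2 := by
    linear_combination 12 * u * hT - hψ
  have hv : v ≠ 0 := by
    rintro rfl
    have h2 : (3 * u ^ 2 + A) ^ 2 = 0 := by rw [h1]; ring
    have h3 : 3 * u ^ 2 + A = 0 := by simpa using h2
    apply hdisc
    have hA : A = -3 * u ^ 2 := by linear_combination h3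
    subst hA
    have hB : B = 2 * u ^ 3 := by linear_combination hT
    subst hB
    ring
  refine ⟨hv, ?_⟩
  have h2 : v ^ 2 ∣ (3 * u ^ 2 + A) ^ 2 := ⟨12 * u * D, by rw [h1]; ring⟩
  rw [Int.pow_dvd_pow_iff (by norm_num)] at h2
  obtain ⟨k, hk⟩ := h2
  have h3 : k ^ 2 = 12 * u * D := by
    have h4 : v ^ 2 * (k ^ 2 - 12 * u * D) = 0 := by
      rw [hk] at h1
      linear_combination h1
    have := (mul_eq_zero.1 h4).resolve_left (pow_ne_zero _ hv)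
    linear_combination this
  have h4 : D ∣ k := by
    rw [← hsq.dvd_pow_iff_dvd (n := 2) (by norm_num), h3]
    exact Dvd.intro_left _ rfl
  obtain ⟨k', rfl⟩ := h4
  have hD0 : D ≠ 0 := hsq.ne_zero
  have h5 : D * k' ^ 2 = 12 * u := by
    have h6 : D * (D * k' ^ 2 - 12 * u) = 0 := by linear_combination h3
    have := (mul_eq_zero.1 h6).resolve_left hD0
    linear_combination this
  have h6 : Even k' := by
    by_contra hodd
    rw [Int.not_even_iff_odd] at hodd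
    obtain ⟨m, rfl⟩ := hodd
    have h7 : (2 : ℤ) * 2 ∣ D := by
      refine ⟨3 * u - D * (m ^ 2 + m), ?_⟩
      linear_combination h5
    have h8 := hsq 2 h7
    rw [Int.isUnit_iff] at h8
    omega
  obtain ⟨l, rfl⟩ := h6
  refine ⟨l, ?_, ?_⟩
  · rw [hk]
    ring
  · have h7 : 4 * (D * l ^ 2) = 4 * (3 * u) := by linear_combination h5
    omega

lemma disc3 (D A B u v l : ℤ) (hT : u ^ 3 + A * u + B = D * v ^ 2)
    (h2 : 2 * D * v * l = 3 * u ^ 2 + A) (h3 : D * l ^ 2 = 3 * u) :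
    4 * A ^ 3 + 27 * B ^ 2 = D ^ 2 * v ^ 3 * (27 * v - 4 * D * l ^ 3) := by
  have hA : A = 2 * D * v * l - 3 * u ^ 2 := by linear_combination -h2
  have hB : B = D * v ^ 2 - u * A - u ^ 3 := by linear_combination hT
  have e : 9 * (27 * (4 * A ^ 3 + 27 * B ^ 2)) =
      9 * (27 * (D ^ 2 * v ^ 3 * (27 * v - 4 * D * l ^ 3))) := by
    have hu : 3 * u = D * l ^ 2 := h3.symm
    have hA3 : 3 * A = 6 * D * v * l - (3 * u) ^ 2 := by rw [hA]; ring
    have hB3 : 27 * B = 27 * D * v ^ 2 - 3 * (3 * u) * (3 * A) - (3 * u) ^ 3 := by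
      rw [hB]; ring
    rw [hu] at hA3
    rw [hu, hA3] at hB3
    calc 9 * (27 * (4 * A ^ 3 + 27 * B ^ 2)) = 36 * (3 * A) ^ 3 + 9 * (27 * B) ^ 2 := by ring
      _ = _ := by
        rw [hA3, hB3]
        ring
  omega

lemma sizes3 (D A B u v l : ℤ) (hD : D ≠ 0) (hdisc : 4 * A ^ 3 + 27 * B ^ 2 ≠ 0)
    (hT : u ^ 3 + A * u + B = D * v ^ 2)
    (h2 : 2 * D * v * l = 3 * u ^ 2 + A) (h3 : D * l ^ 2 = 3 * u) (H : ℕ)
    (hH : H = max A.natAbs B.natAbs) : 1 ≤ H ∧ v.natAbs ≤ 31 * H ^ 3 ∧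
      l.natAbs ≤ 300 * H ^ 3 ∧ u.natAbs ≤ D.natAbs * (l.natAbs * l.natAbs) ∧
      27 * v ≠ 4 * D * l ^ 3 := by
  have hH1 : 1 ≤ H := by
    by_contra h
    have hA : A = 0 := by
      have := le_max_left A.natAbs B.natAbs
      omega
    have hB : B = 0 := by
      have := le_max_right A.natAbs B.natAbs
      omega
    apply hdisc
    rw [hA, hB]
    norm_num
  have hA : A.natAbs ≤ H := by rw [hH]; exact le_max_left _ _
  have hB : B.natAbs ≤ H := by rw [hH]; exact le_max_right _ _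
  have hDH : (4 * A ^ 3 + 27 * B ^ 2).natAbs ≤ 31 * H ^ 3 := by
    refine (Int.natAbs_add_le _ _).trans ?_
    rw [Int.natAbs_mul, Int.natAbs_mul, Int.natAbs_pow, Int.natAbs_pow]
    have e1 : A.natAbs ^ 3 ≤ H ^ 3 := Nat.pow_le_pow_left hA 3
    have e2 : B.natAbs ^ 2 ≤ H ^ 3 :=
      (Nat.pow_le_pow_left hB 2).trans (Nat.pow_le_pow_right hH1 (by norm_num))
    have e3 : (4 : ℤ).natAbs = 4 := rfl
    have e4 : (27 : ℤ).natAbs = 27 := rfl
    rw [e3, e4]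
    omega
  rw [disc3 D A B u v l hT h2 h3] at hdisc hDH
  have hv0 : v ≠ 0 := by
    rintro rfl
    apply hdisc
    ring
  have hw0 : 27 * v - 4 * D * l ^ 3 ≠ 0 := fun h => hdisc (by rw [h, mul_zero])
  rw [Int.natAbs_mul, Int.natAbs_mul, Int.natAbs_pow, Int.natAbs_pow] at hDH
  have hv1 : 1 ≤ v.natAbs := Int.natAbs_pos.2 hv0
  have hd1 : 1 ≤ D.natAbs := Int.natAbs_pos.2 hD
  have hw1 : 1 ≤ (27 * v - 4 * D * l ^ 3).natAbs := Int.natAbs_pos.2 hw0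
  have hd2 : 1 ≤ D.natAbs ^ 2 := Nat.one_le_pow _ _ hd1
  have hv : v.natAbs ≤ 31 * H ^ 3 := by
    calc v.natAbs = 1 * v.natAbs * 1 := by rw [mul_one, one_mul]
      _ ≤ D.natAbs ^ 2 * v.natAbs ^ 3 * (27 * v - 4 * D * l ^ 3).natAbs :=
          Nat.mul_le_mul (Nat.mul_le_mul hd2 (Nat.le_self_pow (by norm_num) _)) hw1
      _ ≤ _ := hDH
  have hw : (27 * v - 4 * D * l ^ 3).natAbs ≤ 31 * H ^ 3 :=
    (Nat.le_mul_of_pos_left _ (by positivity)).trans hDH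
  have hl3 : l.natAbs ^ 3 ≤ 300 * H ^ 3 := by
    have h5 : (4 * D * l ^ 3).natAbs ≤ 31 * H ^ 3 + 27 * (31 * H ^ 3) := by
      omega
    rw [Int.natAbs_mul, Int.natAbs_mul, Int.natAbs_pow] at h5
    have e4 : (4 : ℤ).natAbs = 4 := rfl
    rw [e4] at h5
    have h6 : 4 * 1 * l.natAbs ^ 3 ≤ 4 * D.natAbs * l.natAbs ^ 3 :=
      Nat.mul_le_mul_right _ (Nat.mul_le_mul_left _ hd1)
    omega
  have hl : l.natAbs ≤ 300 * H ^ 3 := (Nat.le_self_pow (by norm_num) _).trans hl3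
  refine ⟨hH1, hv, hl, ?_, ?_⟩
  · have e1 : D.natAbs * (l.natAbs * l.natAbs) = 3 * u.natAbs := by
      have := congrArg Int.natAbs h3
      rw [Int.natAbs_mul, Int.natAbs_mul, Int.natAbs_pow, pow_two] at this
      simpa using this
    omega
  · intro h
    exact hw0 (by rw [h, sub_self])

/-- sizes of the parametrization -/
lemma sizes_fin {D a b d n s t u l X x y : ℤ} {W Z : ℕ} (hW : 20 ≤ W) (hZ : 1 ≤ Z)
    (hDW : D.natAbs ≤ W) (haW : a.natAbs ≤ W) (hbW : b.natAbs ≤ W)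
    (hnW : n.natAbs ≤ W) (hlW : l.natAbs ≤ W) (hd0 : d ≠ 0)
    (hs : s.natAbs ≤ Z) (ht : t.natAbs ≤ Z) (hu : u.natAbs ≤ D.natAbs * (l.natAbs * l.natAbs))
    (hX : d * X = n * (s ^ 2 - D * t ^ 2)) (hx : X = x - u)
    (hy : d * y = a * (s ^ 3 + 3 * D * s * t ^ 2) + b * D * (3 * s ^ 2 * t + D * t ^ 3)) :
    max x.natAbs y.natAbs ≤ W ^ 4 * Z ^ 3 := by
  have hd1 : 1 ≤ d.natAbs := Int.natAbs_pos.2 hd0
  have hs2 : s.natAbs ^ 2 ≤ Z ^ 2 := Nat.pow_le_pow_left hs 2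
  have ht2 : t.natAbs ^ 2 ≤ Z ^ 2 := Nat.pow_le_pow_left ht 2
  have hs3 : s.natAbs ^ 3 ≤ Z ^ 3 := Nat.pow_le_pow_left hs 3
  have ht3 : t.natAbs ^ 3 ≤ Z ^ 3 := Nat.pow_le_pow_left ht 3
  have hst2 : s.natAbs * t.natAbs ^ 2 ≤ Z ^ 3 := by
    calc s.natAbs * t.natAbs ^ 2 ≤ Z * Z ^ 2 := Nat.mul_le_mul hs ht2
      _ = Z ^ 3 := by ring
  have hs2t : s.natAbs ^ 2 * t.natAbs ≤ Z ^ 3 := by
    calc s.natAbs ^ 2 * t.natAbs ≤ Z ^ 2 * Z := Nat.mul_le_mul hs2 ht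
      _ = Z ^ 3 := by ring
  have hZ23 : Z ^ 2 ≤ Z ^ 3 := Nat.pow_le_pow_right hZ (by norm_num)
  have hZ3 : 1 ≤ Z ^ 3 := Nat.one_le_pow _ _ hZ
  have hWW : W ≤ W ^ 2 := Nat.le_self_pow (by norm_num) _
  have hW23 : W ^ 2 ≤ W ^ 3 := Nat.pow_le_pow_right (by omega) (by norm_num)
  have hW34 : 20 * W ^ 3 ≤ W ^ 4 := by
    calc 20 * W ^ 3 ≤ W * W ^ 3 := Nat.mul_le_mul_right _ hW
      _ = W ^ 4 := by ring
  have h34 : 20 * (W ^ 3 * Z ^ 3) ≤ W ^ 4 * Z ^ 3 := by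
    rw [← mul_assoc]
    exact Nat.mul_le_mul_right _ hW34
  apply max_le
  · have hX1 : X.natAbs ≤ W ^ 3 * Z ^ 3 + W ^ 3 * Z ^ 3 := by
      calc X.natAbs ≤ d.natAbs * X.natAbs := Nat.le_mul_of_pos_left _ hd1
        _ = (n * (s ^ 2 - D * t ^ 2)).natAbs := by rw [← Int.natAbs_mul, hX]
        _ = n.natAbs * (s ^ 2 - D * t ^ 2).natAbs := Int.natAbs_mul _ _
        _ ≤ W * (Z ^ 2 + W * Z ^ 2) := by
            apply Nat.mul_le_mul hnW
            refine (Int.natAbs_sub_le _ _).trans ?_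
            rw [Int.natAbs_mul, Int.natAbs_pow, Int.natAbs_pow]
            exact Nat.add_le_add hs2 (Nat.mul_le_mul hDW ht2)
        _ = W * Z ^ 2 + W ^ 2 * Z ^ 2 := by ring
        _ ≤ _ := Nat.add_le_add (Nat.mul_le_mul (hWW.trans hW23) hZ23)
            (Nat.mul_le_mul hW23 hZ23)
    have hu1 : u.natAbs ≤ W ^ 3 * Z ^ 3 := by
      calc u.natAbs ≤ W * (W * W) := hu.trans
            (Nat.mul_le_mul hDW (Nat.mul_le_mul hlW hlW))
        _ = W ^ 3 * 1 := by ring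
        _ ≤ _ := Nat.mul_le_mul_left _ hZ3
    have : x = X + u := by rw [hx]; ring
    rw [this]
    refine (Int.natAbs_add_le _ _).trans ?_
    omega
  · calc y.natAbs ≤ d.natAbs * y.natAbs := Nat.le_mul_of_pos_left _ hd1
      _ = (a * (s ^ 3 + 3 * D * s * t ^ 2) + b * D * (3 * s ^ 2 * t + D * t ^ 3)).natAbs := by
          rw [← Int.natAbs_mul, hy]
      _ ≤ W * (Z ^ 3 + 3 * W * Z ^ 3) + W * W * (3 * Z ^ 3 + W * Z ^ 3) := by
          refine (Int.natAbs_add_le _ _).trans (Nat.add_le_add ?_ ?_)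
          · rw [Int.natAbs_mul]
            apply Nat.mul_le_mul haW
            refine (Int.natAbs_add_le _ _).trans (Nat.add_le_add ?_ ?_)
            · rw [Int.natAbs_pow]
              exact hs3
            · have : 3 * D * s * t ^ 2 = 3 * D * (s * t ^ 2) := by ring
              rw [this, Int.natAbs_mul, Int.natAbs_mul, Int.natAbs_mul, Int.natAbs_pow]
              exact Nat.mul_le_mul (Nat.mul_le_mul_left _ hDW) hst2
          · rw [Int.natAbs_mul, Int.natAbs_mul]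
            apply Nat.mul_le_mul (Nat.mul_le_mul hbW hDW)
            refine (Int.natAbs_add_le _ _).trans (Nat.add_le_add ?_ ?_)
            · have : 3 * s ^ 2 * t = 3 * (s ^ 2 * t) := by ring
              rw [this, Int.natAbs_mul, Int.natAbs_mul, Int.natAbs_pow]
              exact Nat.mul_le_mul_left _ hs2t
            · rw [Int.natAbs_mul, Int.natAbs_pow]
              exact Nat.mul_le_mul hDW ht3
      _ = W * Z ^ 3 + 6 * (W ^ 2 * Z ^ 3) + W ^ 3 * Z ^ 3 := by ring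
      _ ≤ W ^ 3 * Z ^ 3 + 6 * (W ^ 3 * Z ^ 3) + W ^ 3 * Z ^ 3 := by
          refine Nat.add_le_add (Nat.add_le_add ?_ ?_) le_rfl
          · exact Nat.mul_le_mul_right _ (hWW.trans hW23)
          · exact Nat.mul_le_mul_left _ (Nat.mul_le_mul_right _ hW23)
      _ ≤ _ := by omega

lemma len_fin {D a b d n v l : ℤ} {W : ℕ} (hW : 20 ≤ W)
    (hDW : D.natAbs ≤ W) (haW : a.natAbs ≤ W) (hbW : b.natAbs ≤ W)
    (hnW : n.natAbs ≤ W) (hlW : l.natAbs ≤ W) (hdW : d.natAbs ≤ W) (hvW : v.natAbs ≤ W) :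
    (3 + 1) * len (Gf a b D (-(l * n)) (-(d * v))) ≤ W ^ 5 := by
  have h1 := len_Gf a b D (-(l * n)) (-(d * v))
  simp only [neg_mul, Int.natAbs_neg, Int.natAbs_mul] at h1
  have e3 : (3 : ℤ).natAbs = 3 := rfl
  rw [e3] at h1
  have hWW : W ≤ W ^ 2 := Nat.le_self_pow (by norm_num) _
  have hW23 : W ^ 2 ≤ W ^ 3 := Nat.pow_le_pow_right (by omega) (by norm_num)
  have k1 : b.natAbs * D.natAbs ≤ W ^ 2 := by rw [pow_two]; exact Nat.mul_le_mul hbW hDW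
  have k2 : a.natAbs * D.natAbs ≤ W ^ 2 := by rw [pow_two]; exact Nat.mul_le_mul haW hDW
  have k3 : l.natAbs * n.natAbs ≤ W ^ 2 := by rw [pow_two]; exact Nat.mul_le_mul hlW hnW
  have k4 : l.natAbs * n.natAbs * D.natAbs ≤ W ^ 3 := by
    rw [pow_succ]
    exact Nat.mul_le_mul k3 hDW
  have k5 : d.natAbs * v.natAbs ≤ W ^ 2 := by rw [pow_two]; exact Nat.mul_le_mul hdW hvW
  have k6 : 3 * b.natAbs * D.natAbs = 3 * (b.natAbs * D.natAbs) := by ring
  rw [k6] at h1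
  have hlen : len (Gf a b D (-(l * n)) (-(d * v))) ≤ 11 * W ^ 3 := by omega
  calc (3 + 1) * len (Gf a b D (-(l * n)) (-(d * v))) ≤ (3 + 1) * (11 * W ^ 3) :=
        Nat.mul_le_mul_left _ hlen
    _ = 44 * W ^ 3 := by ring
    _ ≤ (W * W) * W ^ 3 := Nat.mul_le_mul_right _ (by nlinarith)
    _ = W ^ 5 := by ring

end Pool.Agent.X95T.SelN
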