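import Pool.Agent.X95T.HP6

/-!
Curves with a 3-isogeny whose kernel is defined over a fixed quadratic field.
-/

set_option autoImplicit false

namespace Pool.Agent.X95T.SelN

open Pool.Agent.Results.MP_821da1_nt.RepulsionAllCurves (len)
open IntermediateField

/-- the dehomogenized leading form -/
noncomputable def slopeP (D a b : ℤ) : Polynomial ℝ :=
  Polynomial.C (b : ℝ) + Polynomial.C (3 * a : ℝ) * Polynomial.X +
    Polynomial.C (3 * b * D : ℝ) * Polynomial.X ^ 2 + Polynomial.C (a * D : ℝ) * Polynomial.X ^ 3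

lemma slopeP_ne (D a b : ℤ) (hD : D ≠ 0) (h : a ≠ 0 ∨ b ≠ 0) : slopeP D a b ≠ 0 := by
  intro h0
  have e0 : (slopeP D a b).coeff 0 = 0 := by rw [h0, Polynomial.coeff_zero]
  have e3 : (slopeP D a b).coeff 3 = 0 := by rw [h0, Polynomial.coeff_zero]
  have e0' : (slopeP D a b).coeff 0 = b := by
    simp only [slopeP, Polynomial.coeff_add, Polynomial.coeff_C_mul, Polynomial.coeff_X_pow,
      Polynomial.coeff_X, Polynomial.coeff_C]
    norm_num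
  have e3' : (slopeP D a b).coeff 3 = a * D := by
    simp only [slopeP, Polynomial.coeff_add, Polynomial.coeff_C_mul, Polynomial.coeff_X_pow,
      Polynomial.coeff_X, Polynomial.coeff_C]
    norm_num
  rw [e0] at e0'
  rw [e3] at e3'
  have hb : b = 0 := by exact_mod_cast e0'.symm
  have ha : a * D = 0 := by exact_mod_cast e3'.symm
  rcases h with h | h
  · exact h ((mul_eq_zero.1 ha).resolve_right hD)
  · exact h hb

lemma arith {Q Dn S cg a b d m σ : ℕ} (hQ : Q = 300 + Dn + S) (h1 : cg ≤ S)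
    (h2 : cg = a + b + d + m + σ) :
    300 ≤ Q ∧ Dn ≤ Q ∧ a ≤ Q ∧ b ≤ Q ∧ d ≤ Q ∧ m ≤ Q ∧ σ ≤ Q := by
  omega

theorem threeIsogeny : ∃ M : ℕ, ∀ D : ℤ, Squarefree D → D ≠ 1 → ∀ S : Finset ℕ, ∃ K : ℕ,
    ∀ A B u v : ℤ, 4 * A ^ 3 + 27 * B ^ 2 ≠ 0 →
      3 * u ^ 4 + 6 * A * u ^ 2 + 12 * B * u - A ^ 2 = 0 →
      u ^ 3 + A * u + B = D * v ^ 2 →
      ∀ x y : ℤ, y ^ 2 = x ^ 3 + A * x + B →
        (∀ q : ℕ, q.Prime → (q : ℤ) ∣ x - u → (q : ℤ) ∣ v → q ∈ S) →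
        max x.natAbs y.natAbs ≤ K * (max A.natAbs B.natAbs) ^ M := by
  classical
  obtain ⟨c, hc1, hc⟩ := Pool.Agent.H322R2.main1
  obtain ⟨E, hE⟩ : ∃ E, E = Pool.Agent.H322R2.kE 3 := ⟨_, rfl⟩
  refine ⟨3 * (4 + 18 * E), ?_⟩
  intro D hsq hD1 S
  have hD : ¬ IsSquare D := by
    rintro ⟨k, rfl⟩
    have h1 := hsq k dvd_rfl
    rw [Int.isUnit_iff] at h1
    rcases h1 with h1 | h1 <;> rw [h1] at hD1 <;> exact hD1 (by norm_num)
  have hD0 : D ≠ 0 := hsq.ne_zero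
  obtain ⟨Γ, hΓ0, hΓ⟩ := descent D hD S
  obtain ⟨cst, hcst⟩ : ∃ cst : ℤ × ℤ × ℤ → ℕ, cst = fun g => g.1.natAbs + g.2.1.natAbs +
    g.2.2.natAbs + g.2.2.natAbs * (g.1 ^ 2 - D * g.2.1 ^ 2).natAbs +
      ∑ t ∈ (slopeP D g.1 g.2.1).roots.toFinset, c ℚ⟮t⟯ := ⟨_, rfl⟩
  obtain ⟨Q, hQ⟩ : ∃ Q : ℕ, Q = 300 + D.natAbs + ∑ g ∈ Γ, cst g := ⟨_, rfl⟩
  refine ⟨Q ^ (4 + 18 * E), ?_⟩
  intro A B u v hdisc hψ hT x y hxy hq
  obtain ⟨hv0, l, h2, h3⟩ := get_l D A B u v hsq hdisc hT hψ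
  obtain ⟨H, hH⟩ : ∃ H : ℕ, H = max A.natAbs B.natAbs := ⟨_, rfl⟩
  rw [← hH]
  obtain ⟨hH1, hvH, hlH, huH, h27⟩ := sizes3 D A B u v l hD0 hdisc hT h2 h3 H hH
  -- the descent
  obtain ⟨X, hX⟩ : ∃ X : ℤ, X = x - u := ⟨_, rfl⟩
  obtain ⟨w, hw⟩ : ∃ w : ℤ, w = l * X + v := ⟨_, rfl⟩
  have hXyw : y ^ 2 - D * w ^ 2 = X ^ 3 := by
    rw [hw, hX]
    linear_combination hxy + hT - (x - u) * h2 - (x - u) ^ 2 * h3
  have hX0 : X ≠ 0 := by
    intro h0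
    rw [h0] at hXyw hw
    by_cases hw0 : w = 0
    · apply hv0
      rw [hw0] at hw
      linear_combination -hw
    · have hn := norm_ne hD y w (Or.inr hw0)
      apply hn
      rw [hXyw]
      norm_num
  obtain ⟨g, hgΓ, s, t, hy', hw'⟩ := hΓ X y w hXyw hX0 (by
    intro q hqp hqX hqw
    apply hq q hqp (hX ▸ hqX)
    have : v = w - l * X := by rw [hw]; ring
    rw [this]
    exact dvd_sub hqw (hqX.mul_left l))
  obtain ⟨hab, hd0⟩ := hΓ0 g hgΓ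
  have hgQ : cst g ≤ ∑ g ∈ Γ, cst g := Finset.single_le_sum (fun _ _ => Nat.zero_le _) hgΓ
  have hcg : cst g = g.1.natAbs + g.2.1.natAbs +
    g.2.2.natAbs + g.2.2.natAbs * (g.1 ^ 2 - D * g.2.1 ^ 2).natAbs +
      ∑ t ∈ (slopeP D g.1 g.2.1).roots.toFinset, c ℚ⟮t⟯ := by rw [hcst]
  generalize cst g = cg at hgQ hcg
  obtain ⟨a, b, d⟩ := g
  simp only at hab hd0 hy' hw' hcg
  obtain ⟨N, hN⟩ : ∃ N : ℤ, N = s ^ 2 - D * t ^ 2 := ⟨_, rfl⟩
  have hnorm : d ^ 2 * X ^ 3 = (a ^ 2 - D * b ^ 2) * N ^ 3 := by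
    calc d ^ 2 * X ^ 3 = (d * y) ^ 2 - D * (d * w) ^ 2 := by rw [← hXyw]; ring
      _ = _ := by rw [hy', hw', hN]; ring
  have hcube : (d * X) ^ 3 = (d * (a ^ 2 - D * b ^ 2)) * N ^ 3 := by
    linear_combination d * hnorm
  have hdX0 : d * X ≠ 0 := mul_ne_zero hd0 hX0
  have hN0 : N ≠ 0 := by
    rintro rfl
    apply pow_ne_zero 3 hdX0
    rw [hcube]
    ring
  have hNd : N ∣ d * X := by
    rw [← Int.pow_dvd_pow_iff (n := 3) (by norm_num), hcube]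
    exact Dvd.intro_left _ rfl
  obtain ⟨n, hn⟩ := hNd
  have hn3 : n ^ 3 = d * (a ^ 2 - D * b ^ 2) := by
    have h1 : N ^ 3 * (n ^ 3 - d * (a ^ 2 - D * b ^ 2)) = 0 := by
      rw [hn] at hcube
      linear_combination hcube
    have := (mul_eq_zero.1 h1).resolve_left (pow_ne_zero _ hN0)
    linear_combination this
  have hn0 : n ≠ 0 := by
    rintro rfl
    rw [mul_zero] at hn
    exact hdX0 hn
  -- the plane cubic
  have hev : MvPolynomial.eval ![s, t] (Gf a b D (-(l * n)) (-(d * v))) = 0 := by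
    rw [eval_Gf]
    have h1 : d * w = l * (d * X) + d * v := by rw [hw]; ring
    rw [hw', hn, hN] at h1
    linear_combination h1
  have hirr : Irreducible (MvPolynomial.map (Int.castRingHom ℚ)
      (Gf a b D (-(l * n)) (-(d * v)))) := by
    apply irr_Gf hD a b _ _ hab
    intro h
    apply h27
    have h1 : n ^ 3 * (27 * v - 4 * D * l ^ 3) = 0 := by
      linear_combination h + 27 * v * hn3
    have := (mul_eq_zero.1 h1).resolve_left (pow_ne_zero _ hn0)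
    linear_combination this
  have hdeg : (Gf a b D (-(l * n)) (-(d * v))).totalDegree = 3 := deg_Gf a b D _ _ hD0 hab
  have hsqf : Squarefree (MvPolynomial.map (Int.castRingHom ℚ)
      (MvPolynomial.homogeneousComponent 3 (Gf a b D (-(l * n)) (-(d * v))))) := by
    rw [hc_Gf, map_Lf]
    exact sqf_Lf hD a b hab
  have hmain := hc _ hirr (by rw [hdeg]) (by rw [hdeg]; exact hsqf) s t hev
  rw [hdeg, ← hE] at hmain
  clear hE hc
  -- sizes
  obtain ⟨hQ1, hQ2, hQ3, hQ4, hQ5, hQ6, hQ7⟩ := arith hQ hgQ hcg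
  obtain ⟨T, hTH⟩ : ∃ T : ℕ, T = H ^ 3 := ⟨_, rfl⟩
  have hT1 : 1 ≤ T := by rw [hTH]; exact Nat.one_le_pow _ _ hH1
  rw [← hTH] at hvH hlH
  obtain ⟨W, hW⟩ : ∃ W : ℕ, W = Q * T := ⟨_, rfl⟩
  have hQW : Q ≤ W := by rw [hW]; exact Nat.le_mul_of_pos_right _ hT1
  have h300 : 300 * T ≤ W := by
    rw [hW]
    exact Nat.mul_le_mul_right _ hQ1
  have hn' : n.natAbs ≤ d.natAbs * (a ^ 2 - D * b ^ 2).natAbs := by
    rw [← Int.natAbs_mul, ← hn3, Int.natAbs_pow]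
    exact Nat.le_self_pow (by norm_num) _
  have hDW := hQ2.trans hQW
  have haW := hQ3.trans hQW
  have hbW := hQ4.trans hQW
  have hdW := hQ5.trans hQW
  have hnW := (hn'.trans hQ6).trans hQW
  have hsW := hQ7.trans hQW
  have hlW : l.natAbs ≤ W := hlH.trans h300
  have hvW : v.natAbs ≤ W :=
    hvH.trans ((Nat.mul_le_mul_right T (by norm_num : 31 ≤ 300)).trans h300)
  have hW20 : 20 ≤ W := (by norm_num : 20 ≤ 300).trans (hQ1.trans hQW)
  have hW1 : 1 ≤ W := (by norm_num : 1 ≤ 20).trans hW20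
  have hlen : (3 + 1) * len (Gf a b D (-(l * n)) (-(d * v))) ≤ W ^ 5 :=
    len_fin hW20 hDW haW hbW hnW hlW hdW hvW
  have hlen' : (3 + 1) * Pool.Agent.H322R2.len (Gf a b D (-(l * n)) (-(d * v))) ≤ W ^ 5 := hlen
  have hst : s.natAbs ≤ (W ^ 6) ^ E ∧ t.natAbs ≤ (W ^ 6) ^ E := by
    rcases hmain with h | ⟨r, hr, -, h⟩
    · have h5 : ((3 + 1) * Pool.Agent.H322R2.len (Gf a b D (-(l * n)) (-(d * v)))) ^ E ≤
          (W ^ 6) ^ E :=
        Nat.pow_le_pow_left (hlen'.trans (Nat.pow_le_pow_right hW1 (by norm_num))) _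
      exact ⟨h.1.trans h5, h.2.trans h5⟩
    · have hroot : r ∈ (slopeP D a b).roots.toFinset := by
        rw [Multiset.mem_toFinset, Polynomial.mem_roots (slopeP_ne D a b hD0 hab),
          Polynomial.IsRoot.def]
        rw [hc_Gf] at hr
        have e1 : MvPolynomial.aeval ![1, r] (Lf a b D) = Polynomial.eval r (slopeP D a b) := by
          simp [Lf, slopeP]
        rw [← e1]
        exact hr
      have hcr : c ℚ⟮r⟯ ≤ ∑ t ∈ (slopeP D a b).roots.toFinset, c ℚ⟮t⟯ :=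
        Finset.single_le_sum (f := fun t => c ℚ⟮t⟯) (fun _ _ => Nat.zero_le _) hroot
      have hcW : c ℚ⟮r⟯ ≤ W := hcr.trans hsW
      have h5 : (c ℚ⟮r⟯ * ((3 + 1) * Pool.Agent.H322R2.len
          (Gf a b D (-(l * n)) (-(d * v))))) ^ E ≤ (W ^ 6) ^ E := by
        apply Nat.pow_le_pow_left
        calc c ℚ⟮r⟯ * ((3 + 1) * Pool.Agent.H322R2.len (Gf a b D (-(l * n)) (-(d * v))))
            ≤ W * W ^ 5 := Nat.mul_le_mul hcW hlen'
          _ = W ^ 6 := by ring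
      exact ⟨h.1.trans h5, h.2.trans h5⟩
  have hZ1 : 1 ≤ (W ^ 6) ^ E := Nat.one_le_pow _ _ (Nat.one_le_pow _ _ hW1)
  have hfin := sizes_fin (D := D) (a := a) (b := b) (d := d) (n := n) (s := s) (t := t) (u := u)
    (l := l) (X := X) (x := x) (y := y) (W := W) (Z := (W ^ 6) ^ E) hW20 hZ1 hDW
    haW hbW hnW hlW hd0 hst.1 hst.2 huH
    (by rw [hn, hN]; ring) hX hy'
  refine hfin.trans (le_of_eq ?_)
  have e1 : Q ^ (4 + 18 * E) * H ^ (3 * (4 + 18 * E)) = W ^ (4 + 18 * E) := by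
    rw [hW, hTH, mul_pow, ← pow_mul]
  rw [e1, ← pow_mul, ← pow_mul, ← pow_add]
  congr 1
  ring

end Pool.Agent.X95T.SelN
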