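import Pool.Agent.X95T.F

set_option autoImplicit false

open IntermediateField

namespace Pool.Agent.X95T

open Pool.Agent.Results.MP_821da1_nt.RepulsionAllCurves (CoordRing AtInfinity OnePlace)

section

variable {K n : ℕ} (hn : 1 ≤ n) (a : ℤ) (ha : a ≠ 0) (F : MvPolynomial (Fin 2) ℤ)
    (hF : ∀ s ∈ (F - MvPolynomial.X 1 ^ K).support, s 1 < K)

include hn ha hF in
/-- the coordinate ring of `F (x, a z ^ n) = 0` is integral over the polynomials in `x`, if `F` is
monic in `y` -/
lemma isIntM : (jx (sub a n F)).IsIntegral := by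
  obtain ⟨G, hG⟩ : ∃ G, G = sub a n F := ⟨_, rfl⟩
  rw [← hG]
  let _ := (jx G).toAlgebra
  obtain ⟨x, hx⟩ : ∃ x : CoordRing G, x = Ideal.Quotient.mk _ (MvPolynomial.X 0) := ⟨_, rfl⟩
  obtain ⟨z, hz⟩ : ∃ z : CoordRing G, z = Ideal.Quotient.mk _ (MvPolynomial.X 1) := ⟨_, rfl⟩
  have hq : (Ideal.Quotient.mk (Ideal.span {MvPolynomial.map (Int.castRingHom ℚ) G}))
      (MvPolynomial.map (Int.castRingHom ℚ) G) = 0 := by
    rw [Ideal.Quotient.eq_zero_iff_mem]
    exact Ideal.mem_span_singleton_self _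
  have hF0 : MvPolynomial.aeval ![x, (a : CoordRing G) * z ^ n] F = 0 := by
    refine (aeval_sub a n F x z).symm.trans ?_
    rw [← hG, hx, hz]
    refine (hom_map (Ideal.Quotient.mk _) G).symm.trans ?_
    exact hq
  obtain ⟨y, hy⟩ : ∃ y : CoordRing G, y = (a : CoordRing G) * z ^ n := ⟨_, rfl⟩
  rw [← hy] at hF0
  obtain ⟨R, hR⟩ : ∃ R, R = F - MvPolynomial.X 1 ^ K := ⟨_, rfl⟩
  rw [← hR] at hF
  have e1 : MvPolynomial.aeval ![x, y] R = - y ^ K := by
    rw [hR, map_sub, hF0, map_pow, MvPolynomial.aeval_X]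
    simp only [Matrix.cons_val_one, Matrix.cons_val_zero]
    ring
  have hjx : algebraMap (Polynomial ℚ) (CoordRing G) Polynomial.X = x := by
    rw [hx]
    show jx G Polynomial.X = _
    rw [jx, Polynomial.coe_eval₂RingHom, Polynomial.eval₂_X]
  have hjC : ∀ q : ℚ, algebraMap (Polynomial ℚ) (CoordRing G) (Polynomial.C q) =
      algebraMap ℚ (CoordRing G) q := by
    intro q
    show jx G (Polynomial.C q) = _
    rw [jx, Polynomial.coe_eval₂RingHom, Polynomial.eval₂_C]
  have hyint : IsIntegral (Polynomial ℚ) y := by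
    refine ⟨(Polynomial.X ^ K + 
      ∑ s ∈ R.support, Polynomial.C ((Polynomial.C ((R.coeff s : ℤ) : ℚ)) *
        (Polynomial.X : Polynomial ℚ) ^ s 0) * Polynomial.X ^ s 1 :
          Polynomial (Polynomial ℚ)), ?_, ?_⟩
    · apply Polynomial.monic_X_pow_add
      rw [← Polynomial.mem_degreeLT]
      apply Submodule.sum_mem
      intro s hs
      rw [Polynomial.mem_degreeLT]
      exact lt_of_le_of_lt (Polynomial.degree_C_mul_X_pow_le _ _) (by exact_mod_cast hF s hs)
    · rw [Polynomial.eval₂_add, Polynomial.eval₂_pow, Polynomial.eval₂_X,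
        Polynomial.eval₂_finsetSum]
      have e2 : ∑ s ∈ R.support, Polynomial.eval₂ (algebraMap (Polynomial ℚ) (CoordRing G)) y
          (Polynomial.C ((Polynomial.C ((R.coeff s : ℤ) : ℚ)) *
            (Polynomial.X : Polynomial ℚ) ^ s 0) *
            Polynomial.X ^ s 1) = MvPolynomial.aeval ![x, y] R := by
        rw [MvPolynomial.aeval_def, MvPolynomial.eval₂_eq']
        apply Finset.sum_congr rfl
        intro s _
        rw [Polynomial.eval₂_mul, Polynomial.eval₂_C, Polynomial.eval₂_pow, Polynomial.eval₂_X,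
          map_mul, map_pow, hjx, hjC, Fin.prod_univ_two]
        simp only [Matrix.cons_val_zero, Matrix.cons_val_one]
        rw [mul_assoc]
        congr 1
      rw [e2, e1]
      ring
  have hzint : IsIntegral (Polynomial ℚ) z := by
    have h1 : z ^ n = algebraMap (Polynomial ℚ) (CoordRing G) (Polynomial.C ((a : ℚ)⁻¹)) * y := by
      rw [hjC, hy, ← mul_assoc]
      have : algebraMap ℚ (CoordRing G) ((a : ℚ)⁻¹) * (a : CoordRing G) = 1 := by
        have h2 : (a : CoordRing G) = algebraMap ℚ (CoordRing G) (a : ℚ) := by simp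
        rw [h2, ← map_mul, inv_mul_cancel₀ (by exact_mod_cast ha), map_one]
      rw [this, one_mul]
    apply IsIntegral.of_pow hn
    rw [h1]
    exact isIntegral_algebraMap.mul hyint
  intro r
  obtain ⟨P, rfl⟩ := Ideal.Quotient.mk_surjective r
  show IsIntegral (Polynomial ℚ) _
  induction P using MvPolynomial.induction_on with
  | C q =>
    have : (Ideal.Quotient.mk (Ideal.span {MvPolynomial.map (Int.castRingHom ℚ) G}))
        (MvPolynomial.C q) = algebraMap (Polynomial ℚ) (CoordRing G) (Polynomial.C q) := by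
      rw [hjC]
      rfl
    rw [this]
    exact isIntegral_algebraMap
  | add p q hp hq => rw [map_add]; exact hp.add hq
  | mul_X p i hp =>
    rw [map_mul]
    apply hp.mul
    fin_cases i
    · show IsIntegral (Polynomial ℚ) (Ideal.Quotient.mk _ (MvPolynomial.X 0))
      rw [← hx, ← hjx]
      exact isIntegral_algebraMap
    · show IsIntegral (Polynomial ℚ) (Ideal.Quotient.mk _ (MvPolynomial.X 1))
      rw [← hz]
      exact hzint

include hn ha hF in
lemma injM (hdom : IsDomain (CoordRing (sub a n F))) {Ω : Type} [Field Ω] [CharZero Ω]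
    (ψ : CoordRing (sub a n F) →+* Ω)
    (hx : ∀ p : Polynomial ℚ, Polynomial.eval₂ (Rat.castHom Ω)
      (ψ (Ideal.Quotient.mk _ (MvPolynomial.X 0))) p = 0 → p = 0) : Function.Injective ψ := by
  rw [RingHom.injective_iff_ker_eq_bot]
  let _ := (jx (sub a n F)).toAlgebra
  have _ : Algebra.IsIntegral (Polynomial ℚ) (CoordRing (sub a n F)) :=
    ⟨fun r => isIntM hn a ha F hF r⟩
  apply Ideal.eq_bot_of_comap_eq_bot (R := Polynomial ℚ)
  rw [eq_bot_iff]
  intro p hp
  rw [Ideal.mem_comap, RingHom.mem_ker] at hp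
  rw [Ideal.mem_bot]
  apply hx
  rw [← hp]
  have h : (Polynomial.eval₂RingHom (Rat.castHom Ω)
      (ψ (Ideal.Quotient.mk _ (MvPolynomial.X 0)))) = ψ.comp (jx (sub a n F)) := by
    apply Polynomial.ringHom_ext
    · intro q
      have h1 : jx (sub a n F) (Polynomial.C q) = algebraMap ℚ _ q := by simp [jx]
      rw [RingHom.comp_apply, h1]
      simp only [Polynomial.coe_eval₂RingHom, Polynomial.eval₂_C]
      exact (eq_ratCast (ψ.comp (algebraMap ℚ (CoordRing (sub a n F)))) q).symm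
    · simp [jx]
  exact DFunLike.congr_fun h p

end

/-- The place at infinity of the curve `F (x, a z ^ n) = 0`, if there is only one, is invariant
under the substitutions `z ↦ ξ z`, `ξ ^ n = 1`. -/
lemma moves {K n : ℕ} (hn : 1 ≤ n) (a : ℤ) (ha : a ≠ 0) (F : MvPolynomial (Fin 2) ℤ)
    (hF : ∀ s ∈ (F - MvPolynomial.X 1 ^ K).support, s 1 < K)
    (hdom : IsDomain (CoordRing (sub a n F)))
    {L : Type} [Field L] [CharZero L] [Algebra (CoordRing (sub a n F)) L]
    [IsFractionRing (CoordRing (sub a n F)) L]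
    (A : ValuationSubring L) (hA : ∀ A' : ValuationSubring L, AtInfinity (sub a n F) L A' ↔ A' = A)
    (hQ : ∀ q : ℚ, (q : L) ∈ A) (x z : L)
    (hx : x = algebraMap (CoordRing (sub a n F)) L (Ideal.Quotient.mk _ (MvPolynomial.X 0)))
    (hz : z = algebraMap (CoordRing (sub a n F)) L (Ideal.Quotient.mk _ (MvPolynomial.X 1)))
    (hvx : 1 < A.valuation x) :
    ∃ W : ValuationSubring (AlgebraicClosure L), (∀ r : ℚ, (r : AlgebraicClosure L) ∈ W) ∧
      (∀ t : L, A.valuation t ≤ 1 → W.valuation (algebraMap L (AlgebraicClosure L) t) ≤ 1) ∧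
      (∀ t : L, A.valuation t < 1 → W.valuation (algebraMap L (AlgebraicClosure L) t) < 1) ∧
      ∀ ξ : AlgebraicClosure L, ξ ^ n = 1 → ∃ σ : L →+* AlgebraicClosure L,
        σ x = algebraMap L (AlgebraicClosure L) x ∧
        σ z = ξ * algebraMap L (AlgebraicClosure L) z ∧
        ∀ t : L, A.valuation t < 1 → W.valuation (σ t) < 1 := by
  obtain ⟨ι, hι⟩ : ∃ ι : CoordRing (sub a n F) →+* L, ι = algebraMap _ L := ⟨_, rfl⟩
  have hcast : ∀ q : ℚ, ι (algebraMap ℚ (CoordRing (sub a n F)) q) = (q : L) := fun q =>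
    eq_ratCast (ι.comp (algebraMap ℚ (CoordRing (sub a n F)))) q
  have hx0 : x ≠ 0 := by rintro rfl; simp at hvx
  have hG0 : ι (Ideal.Quotient.mk _ (MvPolynomial.map (Int.castRingHom ℚ) (sub a n F))) = 0 := by
    rw [Ideal.Quotient.eq_zero_iff_mem.2 (Ideal.mem_span_singleton_self _), map_zero]
  have hF0 : MvPolynomial.aeval ![x, (a : L) * z ^ n] F = 0 := by
    refine (aeval_sub a n F x z).symm.trans ?_
    rw [hx, hz, ← hι]
    exact (hom_map (ι.comp (Ideal.Quotient.mk _)) (sub a n F)).symm.trans hG0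
  obtain ⟨y, hy⟩ : ∃ y : L, y = (a : L) * z ^ n := ⟨_, rfl⟩
  rw [← hy] at hF0
  -- the algebraic closure
  obtain ⟨f, hf⟩ : ∃ f : A →+* AlgebraicClosure L, ∀ t : A, f t = algebraMap L _ (t : L) :=
    ⟨(algebraMap L (AlgebraicClosure L)).comp A.subtype, fun t => rfl⟩
  obtain ⟨W, hW, hloc⟩ := IsLocalRing.exists_factor_valuationRing f
  have hΩ0 : CharZero (AlgebraicClosure L) :=
    charZero_of_injective_algebraMap (algebraMap L (AlgebraicClosure L)).injective
  have hWle : ∀ t : L, A.valuation t ≤ 1 → algebraMap L (AlgebraicClosure L) t ∈ W := by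
    intro t ht
    have := hW ⟨t, (A.valuation_le_one_iff _).1 ht⟩
    rw [hf] at this
    exact this
  have hWlt : ∀ t : L, A.valuation t < 1 →
      W.valuation (algebraMap L (AlgebraicClosure L) t) < 1 := by
    intro t ht
    by_contra hcon
    rw [not_lt] at hcon
    have ht0 : t ≠ 0 := by
      rintro rfl
      rw [map_zero, map_zero] at hcon
      exact absurd hcon (not_le.2 zero_lt_one)
    have htW := hWle t ht.le
    have hinvW : (algebraMap L (AlgebraicClosure L) t)⁻¹ ∈ W := by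
      rw [← W.valuation_le_one_iff, map_inv₀]
      exact inv_le_one_of_one_le₀ hcon
    have htne : algebraMap L (AlgebraicClosure L) t ≠ 0 := by
      rw [Ne, map_eq_zero]; exact ht0
    have hu : IsUnit (f.codRestrict W.toSubring hW ⟨t, (A.valuation_le_one_iff _).1 ht.le⟩) := by
      refine isUnit_iff_exists_inv.2 ⟨⟨_, hinvW⟩, ?_⟩
      apply Subtype.ext
      show f ⟨t, _⟩ * (algebraMap L (AlgebraicClosure L) t)⁻¹ = 1
      rw [hf]
      exact mul_inv_cancel₀ htne
    have hu2 := hloc.map_nonunit _ hu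
    rw [A.valuation_eq_one_iff] at hu2
    exact ht.ne hu2
  have hQW : ∀ r : ℚ, (r : AlgebraicClosure L) ∈ W := by
    intro r
    have := hWle (r : L) ((A.valuation_le_one_iff _).2 (hQ r))
    rwa [map_ratCast] at this
  obtain ⟨x', hx'⟩ : ∃ x', x' = algebraMap L (AlgebraicClosure L) x := ⟨_, rfl⟩
  obtain ⟨z', hz'⟩ : ∃ z', z' = algebraMap L (AlgebraicClosure L) z := ⟨_, rfl⟩
  have hx'1 : 1 < W.valuation x' := by
    have h1 : A.valuation x⁻¹ < 1 := by
      rw [map_inv₀]
      exact inv_lt_one_of_one_lt₀ hvx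
    have h2 := hWlt _ h1
    rw [map_inv₀, map_inv₀, ← hx'] at h2
    have h3 : W.valuation x' ≠ 0 := by
      rw [Valuation.ne_zero_iff, hx', Ne, map_eq_zero]
      exact hx0
    exact (inv_lt_one₀ (zero_lt_iff.2 h3)).1 h2
  refine ⟨W, hQW, fun t ht => (W.valuation_le_one_iff _).2 (hWle t ht), hWlt, ?_⟩
  intro ζ hζ
  -- the second embedding
  obtain ⟨ψ₀, hψ₀0, hψ₀1⟩ : ∃ ψ₀ : MvPolynomial (Fin 2) ℚ →+* AlgebraicClosure L,
      ψ₀ (MvPolynomial.X 0) = x' ∧ ψ₀ (MvPolynomial.X 1) = ζ * z' :=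
    ⟨MvPolynomial.eval₂Hom (Rat.castHom _) ![x', ζ * z'], by simp, by simp⟩
  have hψG : ψ₀ (MvPolynomial.map (Int.castRingHom ℚ) (sub a n F)) = 0 := by
    rw [hom_map, hψ₀0, hψ₀1, aeval_sub]
    have h1 : (a : AlgebraicClosure L) * (ζ * z') ^ n = algebraMap L _ y := by
      rw [mul_pow, hζ, one_mul, hy, hz', map_mul, map_pow, map_intCast]
    rw [h1, hx']
    have h2 : (MvPolynomial.aeval (R := ℤ) ![algebraMap L (AlgebraicClosure L) x,
        algebraMap L (AlgebraicClosure L) y]) F =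
        algebraMap L (AlgebraicClosure L) (MvPolynomial.aeval ![x, y] F) := by
      rw [MvPolynomial.aeval_def, MvPolynomial.aeval_def, MvPolynomial.eval₂_eq',
        MvPolynomial.eval₂_eq', map_sum]
      apply Finset.sum_congr rfl
      intro s _
      simp [Fin.prod_univ_two]
    exact h2.trans (by rw [hF0, map_zero])
  obtain ⟨ψ, hψ⟩ : ∃ ψ : CoordRing (sub a n F) →+* AlgebraicClosure L,
      ∀ P, ψ (Ideal.Quotient.mk _ P) = ψ₀ P :=
    ⟨Ideal.Quotient.lift _ ψ₀ (fun P hP => by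
      obtain ⟨c, rfl⟩ := Ideal.mem_span_singleton.1 hP
      rw [map_mul, hψG, zero_mul]), fun P => Ideal.Quotient.lift_mk _ _ _⟩
  have hψinj : Function.Injective ψ := by
    apply injM hn a ha F hF hdom ψ
    intro p hp
    rw [hψ, hψ₀0] at hp
    exact transc hQW x' hx'1 p hp
  obtain ⟨σ, hσ⟩ : ∃ σ : L →+* AlgebraicClosure L, ∀ r, σ (ι r) = ψ r := by
    refine ⟨IsFractionRing.lift hψinj, fun r => ?_⟩
    rw [hι]
    exact IsFractionRing.lift_algebraMap hψinj r
  have hσx : σ x = x' := by rw [hx, ← hι, hσ, hψ, hψ₀0]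
  have hσz : σ z = ζ * z' := by rw [hz, ← hι, hσ, hψ, hψ₀1]
  have hcomap : W.comap σ = A := by
    apply (hA _).1
    constructor
    · intro r
      rw [ValuationSubring.mem_comap, ← hι, hcast, map_ratCast]
      exact hQW r
    · refine ⟨0, ?_⟩
      rw [ValuationSubring.mem_comap, ← hx, hσx, ← W.valuation_le_one_iff, not_le]
      exact hx'1
  refine ⟨σ, by rw [hσx, hx'], by rw [hσz, hz'], ?_⟩
  intro t ht
  by_contra hcon
  rw [not_lt] at hcon
  have h1 : σ t⁻¹ ∈ W := by
    rw [← W.valuation_le_one_iff, map_inv₀, map_inv₀]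
    exact inv_le_one_of_one_le₀ hcon
  rw [← ValuationSubring.mem_comap, hcomap, ← A.valuation_le_one_iff, map_inv₀] at h1
  have ht0 : A.valuation t ≠ 0 := by
    rw [Valuation.ne_zero_iff]
    rintro rfl
    rw [map_zero, map_zero] at hcon
    exact absurd hcon (not_le.2 zero_lt_one)
  have h2 := (inv_le_one₀ (zero_lt_iff.2 ht0)).1 h1
  exact absurd ht (not_lt.2 h2)

end Pool.Agent.X95T
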