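import Pool.Agent.W7.FH.Gm
import Pool.Agent.W7.FH.N2

/-!
Fermat's equation over number fields: primes at which the solution is degenerate.
-/

set_option autoImplicit false

namespace Pool.Agent.X95T.FS

open NumberField IsDedekindDomain Height Pool.Agent.W7.FH

variable {K : Type} [Field K] [NumberField K]

lemma finite_res (v : FinitePlace K) : Finite (𝓞 K ⧸ v.maximalIdeal.asIdeal) :=
  Ideal.finiteQuotientOfFreeOfNeBot v.maximalIdeal.asIdeal v.maximalIdeal.ne_bot

/-- residue field: an `n`-th root of unity is one -/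
lemma residue_one (v : FinitePlace K) {n : ℕ} (hn : 0 < n) (hc : n.Coprime (nrm v - 1)) {x : K}
    (hx : v x = 1) (h : v (x ^ n - 1) < 1) : v (x - 1) < 1 := by
  obtain ⟨r, ⟨d, hd⟩, hnd⟩ :=
    HeightOneSpectrum.exists_primeCompl_mul_eq_of_integer v.maximalIdeal x (valuation_le_one v hx.le)
  have hd' : d ∉ v.maximalIdeal.asIdeal := hd
  have hvd : v (algebraMap (𝓞 K) K d) = 1 := eq_one_of_not_mem v d hd'
  have hnd' : x * algebraMap (𝓞 K) K d = algebraMap (𝓞 K) K r := hnd
  have h1 : r ^ n - d ^ n ∈ v.maximalIdeal.asIdeal := by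
    rw [mem_iff_lt_one]
    change v (algebraMap (𝓞 K) K (r ^ n - d ^ n)) < 1
    have e : algebraMap (𝓞 K) K (r ^ n - d ^ n) = (x ^ n - 1) * (algebraMap (𝓞 K) K d) ^ n := by
      rw [map_sub, map_pow, map_pow, ← hnd']
      ring
    rw [e, map_mul, map_pow, hvd, one_pow, mul_one]
    exact h
  have hmax : v.maximalIdeal.asIdeal.IsMaximal := v.maximalIdeal.isMaximal
  letI := Ideal.Quotient.field v.maximalIdeal.asIdeal
  have := finite_res v
  letI : Fintype (𝓞 K ⧸ v.maximalIdeal.asIdeal) := Fintype.ofFinite _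
  set A := Ideal.Quotient.mk v.maximalIdeal.asIdeal r with hA
  set N := Ideal.Quotient.mk v.maximalIdeal.asIdeal d with hN
  have hN0 : N ≠ 0 := by
    rw [hN, Ne, Ideal.Quotient.eq_zero_iff_mem]
    exact hd'
  have hAN : A ^ n = N ^ n := by
    rw [hA, hN, ← map_pow, ← map_pow]
    exact (Ideal.Quotient.mk_eq_mk_iff_sub_mem _ _).2 h1
  have hu : (A / N) ^ n = 1 := by rw [div_pow, hAN, div_self (pow_ne_zero _ hN0)]
  have hu0 : A / N ≠ 0 := by
    intro h0
    rw [h0, zero_pow hn.ne'] at hu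
    exact zero_ne_one hu
  have hu' : (A / N) ^ (nrm v - 1) = 1 := by
    have : nrm v = Fintype.card (𝓞 K ⧸ v.maximalIdeal.asIdeal) := by
      rw [← Nat.card_eq_fintype_card]
      rfl
    rw [this]
    exact FiniteField.pow_card_sub_one_eq_one _ hu0
  have hone : A / N = 1 := by
    have := pow_gcd_eq_one.mpr ⟨hu, hu'⟩
    rwa [hc.gcd_eq_one, pow_one] at this
  have hAN1 : A = N := by rwa [div_eq_one_iff_eq hN0] at hone
  have h8 : r - d ∈ v.maximalIdeal.asIdeal := (Ideal.Quotient.mk_eq_mk_iff_sub_mem _ _).1 hAN1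
  rw [mem_iff_lt_one] at h8
  change v (algebraMap (𝓞 K) K (r - d)) < 1 at h8
  have h9 : algebraMap (𝓞 K) K (r - d) = (x - 1) * algebraMap (𝓞 K) K d := by
    rw [map_sub, ← hnd']
    ring
  rw [h9, map_mul, hvd, mul_one] at h8
  exact h8

lemma nat_eq_one (v : FinitePlace K) {n : ℕ} (h1 : n.Coprime (nrm v)) : v (n : K) = 1 := by
  apply le_antisymm (natCast_le_one v n)
  by_contra hcon
  push Not at hcon
  have hn : ((n : ℕ) : 𝓞 K) ∈ v.maximalIdeal.asIdeal := by
    rw [mem_iff_lt_one]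
    push_cast
    exact hcon
  have hN : ((nrm v : ℕ) : 𝓞 K) ∈ v.maximalIdeal.asIdeal := Ideal.absNorm_mem _
  have hb := Nat.isCoprime_iff_coprime.mpr h1
  obtain ⟨s, t, hst⟩ := hb
  have : (1 : 𝓞 K) ∈ v.maximalIdeal.asIdeal := by
    have e : (1 : 𝓞 K) = (s : 𝓞 K) * (n : 𝓞 K) + (t : 𝓞 K) * (nrm v : 𝓞 K) := by
      exact_mod_cast hst.symm
    rw [e]
    exact add_mem (Ideal.mul_mem_left _ _ hn) (Ideal.mul_mem_left _ _ hN)
  exact v.maximalIdeal.isPrime.ne_top ((Ideal.eq_top_iff_one _).mpr this)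

lemma local_main (v : FinitePlace K) {n : ℕ} (hodd : Odd n) (h1 : n.Coprime (nrm v))
    (h2 : n.Coprime (nrm v - 1)) {a b c : K} (hb : b ≠ 0) (h : a ^ n + b ^ n + c ^ n = 0)
    (hlt : v c < v b) : v a = v b ∧ (nrm v : ℝ) ^ n * v (a + b) ≤ v b := by
  have hn0 : n ≠ 0 := hodd.pos.ne'
  have hvb : 0 < v b := FinitePlace.pos_iff.mpr hb
  have e1 : v a = v b := by
    have h3 : a ^ n = -(b ^ n + c ^ n) := by linear_combination h
    have h4 : v a ^ n = v b ^ n := by
      rw [← map_pow, h3, map_neg_eq_map, ← map_pow]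
      apply add_eq_of_lt
      rw [map_pow, map_pow]
      exact pow_lt_pow_left₀ hlt (apply_nonneg _ _) hn0
    exact (pow_left_inj₀ (apply_nonneg _ _) (apply_nonneg _ _) hn0).mp h4
  refine ⟨e1, ?_⟩
  obtain ⟨t, ht⟩ : ∃ t : K, t = -(a + b) / b := ⟨_, rfl⟩
  have hvt : v t = v (a + b) / v b := by
    rw [ht, map_div₀, map_neg_eq_map]
  have h4 : 1 + t = -(a / b) := by rw [ht]; field_simp; ring
  have h3 : (1 + t) ^ n - 1 = (c / b) ^ n := by
    rw [h4, hodd.neg_pow, div_pow, div_pow, eq_div_iff (pow_ne_zero n hb), sub_mul, neg_mul,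
      div_mul_cancel₀ _ (pow_ne_zero n hb)]
    linear_combination -h
  have hx : v (1 + t) = 1 := by
    rw [h4, map_neg_eq_map, map_div₀, e1, div_self hvb.ne']
  have hρ : v (c / b) < 1 := by rw [map_div₀, div_lt_one hvb]; exact hlt
  have hρ0 : 0 ≤ v (c / b) := apply_nonneg _ _
  have hvt1 : v t < 1 := by
    have h5 := residue_one v hodd.pos h2 hx (by
      rw [h3, map_pow]
      exact pow_lt_one₀ hρ0 hρ hn0)
    rwa [add_sub_cancel_left] at h5
  have hvn := nat_eq_one v h1
  have h6 := one_add_pow_gen v n t hvt1 hn0 (by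
    intro p hp hpn
    have hvp : v (p : K) = 1 := nat_eq_one v (Nat.Coprime.coprime_dvd_left hpn h1)
    rw [hvp]
    exact pow_lt_one₀ (apply_nonneg _ _) hvt1 (by have := hp.two_le; omega))
  rw [h3, map_pow, hvn, one_mul] at h6
  have hρ2 := le_inv_nrm v hρ
  have hN := one_lt_nrm' v
  have h7 : (nrm v : ℝ) ^ n * v t ≤ 1 := by
    rw [← h6]
    calc (nrm v : ℝ) ^ n * v (c / b) ^ n ≤ (nrm v : ℝ) ^ n * (((nrm v : ℕ) : ℝ)⁻¹) ^ n := by
          gcongr
      _ = 1 := by rw [← mul_pow, mul_inv_cancel₀ (by positivity), one_pow]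
  have h8 : v (a + b) = v t * v b := by rw [hvt]; field_simp
  calc (nrm v : ℝ) ^ n * v (a + b) = ((nrm v : ℝ) ^ n * v t) * v b := by rw [h8]; ring
    _ ≤ 1 * v b := mul_le_mul_of_nonneg_right h7 hvb.le
    _ = v b := one_mul _

lemma mx_swap (v : FinitePlace K) (a b c : K) : mx v b a c = mx v a b c := by
  unfold mx
  rw [max_comm (v b) (v a)]

/-- at a degenerate prime one of the three sums is very small -/
lemma local_three (v : FinitePlace K) {n : ℕ} (hodd : Odd n) (h1 : n.Coprime (nrm v))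
    (h2 : n.Coprime (nrm v - 1)) {a b c : K} (ha : a ≠ 0) (hb : b ≠ 0) (hc : c ≠ 0)
    (h : a ^ n + b ^ n + c ^ n = 0) (hne : ¬ (v a = v b ∧ v b = v c)) :
    (nrm v : ℝ) ^ n * v (a + b) ≤ mx v a b c ∨ (nrm v : ℝ) ^ n * v (b + c) ≤ mx v a b c ∨
      (nrm v : ℝ) ^ n * v (c + a) ≤ mx v a b c := by
  have key : ∀ {a b c : K}, a ≠ 0 → b ≠ 0 → a ^ n + b ^ n + c ^ n = 0 → v a < v b →
      (nrm v : ℝ) ^ n * v (b + c) ≤ v b := by
    intro a b c ha hb h hlt
    have h3 := (local_main v hodd h1 h2 (a := c) (b := b) (c := a) hb (by linear_combination h) hlt).2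
    rwa [add_comm] at h3
  have hMa : v a ≤ mx v a b c := (le_max_left _ _).trans (le_max_left _ _)
  have hMb : v b ≤ mx v a b c := (le_max_right _ _).trans (le_max_left _ _)
  have hMc : v c ≤ mx v a b c := le_max_right _ _
  rcases lt_trichotomy (v a) (v b) with h3 | h3 | h3
  · right; left
    exact (key ha hb h h3).trans hMb
  · rcases lt_trichotomy (v b) (v c) with h4 | h4 | h4
    · -- b < c : then c + a is small
      right; right
      exact (key hb hc (by linear_combination h) h4).trans hMc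
    · exact absurd ⟨h3, h4⟩ hne
    · -- c < b
      left
      have := key (a := c) (b := b) (c := a) hc hb (by linear_combination h) h4
      rw [add_comm] at this
      exact this.trans hMb
  · -- b < a
    right; right
    have := key (a := b) (b := a) (c := c) hb ha (by linear_combination h) h3
    rw [add_comm] at this
    exact this.trans hMa

theorem prod_main {a b c : K} (ha : a ≠ 0) (hb : b ≠ 0) (hc : c ≠ 0) (hab : a + b ≠ 0)
    (hbc : b + c ≠ 0) (hca : c + a ≠ 0) (T : Finset (FinitePlace K)) (Q : FinitePlace K → ℝ)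
    (hQ : ∀ v, 0 ≤ Q v)
    (h : ∀ v ∈ T, Q v * (v (a + b) * v (b + c) * v (c + a)) ≤ mx v a b c ^ 3) :
    ∏ v ∈ T, Q v ≤ 8 ^ Module.finrank ℚ K * mulHeight ![a, b, c] ^ 3 := by
  classical
  have hx : ![a, b, c] ≠ 0 := fun h0 => ha (congrFun h0 0)
  have hall : ∀ i : Fin 3, ![a, b, c] i ≠ 0 := by
    intro i
    fin_cases i
    · exact ha
    · exact hb
    · exact hc
  obtain ⟨x, hxd⟩ : ∃ x : K, x = (a + b) * (b + c) * (c + a) := ⟨_, rfl⟩
  have hx0 : x ≠ 0 := by rw [hxd]; exact mul_ne_zero (mul_ne_zero hab hbc) hca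
  have h1 := NumberField.mulHeight_eq (K := K) hx
  have hfM : (fun v : FinitePlace K => ⨆ i : Fin 3, v (![a, b, c] i)).HasFiniteMulSupport :=
    .iSup fun i => FinitePlace.hasFiniteMulSupport (hall i)
  have hfx : (fun v : FinitePlace K => v x).HasFiniteMulSupport :=
    FinitePlace.hasFiniteMulSupport hx0
  set S : Finset (FinitePlace K) := T ∪ (hfM.toFinset ∪ hfx.toFinset) with hS
  have e1 : ∏ᶠ v : FinitePlace K, ⨆ i : Fin 3, v (![a, b, c] i) =
      ∏ v ∈ S, mx v a b c := by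
    rw [finprod_eq_prod_of_mulSupport_subset (s := S)]
    · exact Finset.prod_congr rfl fun v _ => iSup_three v a b c
    · intro w hw
      rw [hS, Finset.coe_union, Finset.coe_union]
      right; left
      exact Finset.mem_coe.mpr ((Set.Finite.mem_toFinset hfM).mpr hw)
  have e2 : ∏ᶠ v : FinitePlace K, v x = ∏ v ∈ S, v x := by
    apply finprod_eq_prod_of_mulSupport_subset
    intro w hw
    rw [hS, Finset.coe_union, Finset.coe_union]
    right; right
    exact Finset.mem_coe.mpr ((Set.Finite.mem_toFinset hfx).mpr hw)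
  have hpf := prod_abs_eq_one hx0
  rw [e2] at hpf
  rw [h1, e1]
  have hmx : ∀ v : FinitePlace K, v (a + b) ≤ mx v a b c ∧ v (b + c) ≤ mx v a b c ∧
      v (c + a) ≤ mx v a b c := by
    intro v
    have hMa : v a ≤ mx v a b c := (le_max_left _ _).trans (le_max_left _ _)
    have hMb : v b ≤ mx v a b c := (le_max_right _ _).trans (le_max_left _ _)
    have hMc : v c ≤ mx v a b c := le_max_right _ _
    exact ⟨(FinitePlace.add_le v a b).trans (max_le hMa hMb),
      (FinitePlace.add_le v b c).trans (max_le hMb hMc),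
      (FinitePlace.add_le v c a).trans (max_le hMc hMa)⟩
  have hvx : ∀ v : FinitePlace K, v x = v (a + b) * v (b + c) * v (c + a) := by
    intro v
    rw [hxd, map_mul, map_mul]
  have e3 : ∏ v ∈ T, Q v = ∏ v ∈ S, (if v ∈ T then Q v else 1) := by
    rw [Finset.prod_ite_mem]
    congr 1
    ext v
    simp only [hS, Finset.mem_inter, Finset.mem_union]
    tauto
  have hfin : (∏ v ∈ T, Q v) * ∏ v ∈ S, v x ≤ (∏ v ∈ S, mx v a b c) ^ 3 := by
    rw [e3, ← Finset.prod_mul_distrib, ← Finset.prod_pow]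
    apply Finset.prod_le_prod
    · intro v _
      apply mul_nonneg _ (apply_nonneg _ _)
      split_ifs
      · exact hQ v
      · exact zero_le_one
    · intro v _
      rw [hvx v]
      split_ifs with hv
      · exact h v hv
      · obtain ⟨g1, g2, g3⟩ := hmx v
        have p1 : 0 ≤ v (a + b) := apply_nonneg _ _
        have p2 : 0 ≤ v (b + c) := apply_nonneg _ _
        have p3 : 0 ≤ v (c + a) := apply_nonneg _ _
        have hM0 : 0 ≤ mx v a b c := p1.trans g1
        calc 1 * (v (a + b) * v (b + c) * v (c + a)) ≤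
            1 * (mx v a b c * mx v a b c * mx v a b c) := by gcongr
          _ = _ := by ring
  have hinf : ∏ w : InfinitePlace K, w x ^ w.mult ≤
      8 ^ Module.finrank ℚ K *
        (∏ w : InfinitePlace K, (⨆ i : Fin 3, w (![a, b, c] i)) ^ w.mult) ^ 3 := by
    have h2 : (8 : ℝ) ^ Module.finrank ℚ K = ∏ w : InfinitePlace K, (8 : ℝ) ^ w.mult := by
      rw [Finset.prod_pow_eq_pow_sum, InfinitePlace.sum_mult_eq]
    rw [h2, ← Finset.prod_pow, ← Finset.prod_mul_distrib]
    apply Finset.prod_le_prod (fun w _ => pow_nonneg (apply_nonneg _ _) _)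
    intro w _
    rw [← pow_mul, mul_comm w.mult 3, pow_mul, ← mul_pow]
    apply pow_le_pow_left₀ (apply_nonneg _ _)
    rw [iSup_three w a b c]
    obtain ⟨M, hM⟩ : ∃ M, M = max (max (w a) (w b)) (w c) := ⟨_, rfl⟩
    rw [← hM]
    have h4 : w a ≤ M := by rw [hM]; exact le_max_of_le_left (le_max_left _ _)
    have h5 : w b ≤ M := by rw [hM]; exact le_max_of_le_left (le_max_right _ _)
    have h6 : w c ≤ M := by rw [hM]; exact le_max_right _ _
    have hM0 : 0 ≤ M := (apply_nonneg w a).trans h4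
    have p1 : 0 ≤ w (a + b) := apply_nonneg _ _
    have p2 : 0 ≤ w (b + c) := apply_nonneg _ _
    have p3 : 0 ≤ w (c + a) := apply_nonneg _ _
    have g1 : w (a + b) ≤ 2 * M := (w.1.add_le a b).trans (by
      have : w.1 a = w a := rfl
      have : w.1 b = w b := rfl
      linarith)
    have g2 : w (b + c) ≤ 2 * M := (w.1.add_le b c).trans (by
      have : w.1 b = w b := rfl
      have : w.1 c = w c := rfl
      linarith)
    have g3 : w (c + a) ≤ 2 * M := (w.1.add_le c a).trans (by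
      have : w.1 c = w c := rfl
      have : w.1 a = w a := rfl
      linarith)
    rw [hxd, map_mul, map_mul]
    calc w (a + b) * w (b + c) * w (c + a) ≤ (2 * M) * (2 * M) * (2 * M) := by gcongr
      _ = 8 * M ^ 3 := by ring
  have hP0 : 0 ≤ ∏ v ∈ S, v x := Finset.prod_nonneg fun v _ => apply_nonneg _ _
  have hT0 : 0 ≤ ∏ v ∈ T, Q v := Finset.prod_nonneg fun v _ => hQ v
  have hI0 : 0 ≤ ∏ w : InfinitePlace K, w x ^ w.mult :=
    Finset.prod_nonneg fun w _ => pow_nonneg (apply_nonneg _ _) _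
  calc ∏ v ∈ T, Q v = (∏ w : InfinitePlace K, w x ^ w.mult) * ((∏ v ∈ T, Q v) * ∏ v ∈ S, v x) := by
        rw [mul_left_comm, hpf, mul_one]
    _ ≤ (8 ^ Module.finrank ℚ K *
          (∏ w : InfinitePlace K, (⨆ i : Fin 3, w (![a, b, c] i)) ^ w.mult) ^ 3) *
          (∏ v ∈ S, mx v a b c) ^ 3 :=
        mul_le_mul hinf hfin (by positivity) (hI0.trans hinf)
    _ = _ := by ring

theorem part_one {n : ℕ} (hodd : Odd n) {a b c : K} (ha : a ≠ 0) (hb : b ≠ 0) (hc : c ≠ 0)
    (h : a ^ n + b ^ n + c ^ n = 0) (T : Finset (FinitePlace K))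
    (hT : ∀ v ∈ T, n.Coprime (nrm v) ∧ n.Coprime (nrm v - 1) ∧ ¬ (v a = v b ∧ v b = v c)) :
    (∏ v ∈ T, (nrm v : ℝ) ^ n ≤ 8 ^ Module.finrank ℚ K * mulHeight ![a, b, c] ^ 3) ∧
    ∀ v ∈ T, (nrm v : ℝ) ^ n ≤ 2 ^ Module.finrank ℚ K * mulHeight ![a, b, c] := by
  have hab : a + b ≠ 0 := add_ne_zero_of_fermat hodd hc h
  have hbc : b + c ≠ 0 := add_ne_zero_of_fermat hodd ha (by linear_combination h)
  have hca : c + a ≠ 0 := add_ne_zero_of_fermat hodd hb (by linear_combination h)
  constructor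
  · apply prod_main ha hb hc hab hbc hca T (fun v => (nrm v : ℝ) ^ n) (fun v => by positivity)
    intro v hv
    obtain ⟨h1, h2, h3⟩ := hT v hv
    have hMa : v a ≤ mx v a b c := (le_max_left _ _).trans (le_max_left _ _)
    have hMb : v b ≤ mx v a b c := (le_max_right _ _).trans (le_max_left _ _)
    have hMc : v c ≤ mx v a b c := le_max_right _ _
    have g1 := (FinitePlace.add_le v a b).trans (max_le hMa hMb)
    have g2 := (FinitePlace.add_le v b c).trans (max_le hMb hMc)
    have g3 := (FinitePlace.add_le v c a).trans (max_le hMc hMa)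
    have p1 : 0 ≤ v (a + b) := apply_nonneg _ _
    have p2 : 0 ≤ v (b + c) := apply_nonneg _ _
    have p3 : 0 ≤ v (c + a) := apply_nonneg _ _
    have hM0 : 0 ≤ mx v a b c := p1.trans g1
    obtain ⟨M, hM⟩ : ∃ M, M = mx v a b c := ⟨_, rfl⟩
    rw [← hM] at g1 g2 g3 hM0 ⊢
    obtain ⟨q, hq⟩ : ∃ q : ℝ, q = (nrm v : ℝ) ^ n := ⟨_, rfl⟩
    have hq0 : 0 ≤ q := by rw [hq]; positivity
    have h4 := local_three v hodd h1 h2 ha hb hc h h3
    rw [← hM, ← hq] at h4
    show (nrm v : ℝ) ^ n * _ ≤ _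
    rw [← hq]
    rcases h4 with h5 | h5 | h5
    · calc q * (v (a + b) * v (b + c) * v (c + a)) = (q * v (a + b)) * v (b + c) * v (c + a) := by ring
        _ ≤ M * M * M := by gcongr
        _ = M ^ 3 := by ring
    · calc q * (v (a + b) * v (b + c) * v (c + a)) = (q * v (b + c)) * v (a + b) * v (c + a) := by ring
        _ ≤ M * M * M := by gcongr
        _ = M ^ 3 := by ring
    · calc q * (v (a + b) * v (b + c) * v (c + a)) = (q * v (c + a)) * v (a + b) * v (b + c) := by ring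
        _ ≤ M * M * M := by gcongr
        _ = M ^ 3 := by ring
  · intro v hv
    obtain ⟨h1, h2, h3⟩ := hT v hv
    have hq0 : (0 : ℝ) ≤ (nrm v : ℝ) ^ n := by positivity
    rcases local_three v hodd h1 h2 ha hb hc h h3 with h5 | h5 | h5
    · exact height_ge ha hb hc hab v hq0 h5
    · rw [← mx_rot] at h5
      have := height_ge hb hc ha hbc v hq0 h5
      rwa [mulHeight_rot] at this
    · rw [← mx_rot, ← mx_rot] at h5
      have := height_ge hc ha hb hca v hq0 h5
      rwa [mulHeight_rot, mulHeight_rot] at this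

/-- at a prime of norm two every solution is degenerate -/
lemma two_deg (v : FinitePlace K) (h2 : nrm v = 2) {n : ℕ} {a b c : K}
    (hb : b ≠ 0) (h : a ^ n + b ^ n + c ^ n = 0) :
    ¬ (v a = v b ∧ v b = v c) := by
  rintro ⟨h3, h4⟩
  have hvb : 0 < v b := FinitePlace.pos_iff.mpr hb
  have h5 : v ((a / b) ^ n) = 1 := by rw [map_pow, map_div₀, h3, div_self hvb.ne', one_pow]
  have h6 : v ((c / b) ^ n) = 1 := by rw [map_pow, map_div₀, h4, div_self (h4 ▸ hvb.ne'), one_pow]
  have h7 := sub_one_lt v h2 h5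
  have h8 := sub_one_lt v h2 h6
  have hv2 : v (2 : K) < 1 := by
    have h11 : ((2 : ℕ) : 𝓞 K) ∈ v.maximalIdeal.asIdeal := by
      have := Ideal.absNorm_mem v.maximalIdeal.asIdeal
      change ((nrm v : ℕ) : 𝓞 K) ∈ _ at this
      rwa [h2] at this
    rw [mem_iff_lt_one] at h11
    have e : (((2 : ℕ) : 𝓞 K) : K) = 2 := by push_cast; rfl
    rwa [e] at h11
  have e : (1 : K) = -(((a / b) ^ n - 1) + (((c / b) ^ n - 1) + 2)) := by
    have : (a / b) ^ n + 1 + (c / b) ^ n = 0 := by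
      rw [div_pow, div_pow]
      field_simp
      linear_combination h
    linear_combination this
  have h9 : v (1 : K) < 1 := by
    rw [e, map_neg_eq_map]
    refine (FinitePlace.add_le v _ _).trans_lt (max_lt h7 ?_)
    exact (FinitePlace.add_le v _ _).trans_lt (max_lt h8 hv2)
  rw [map_one] at h9
  exact lt_irrefl _ h9

lemma place_ne (q : HeightOneSpectrum (𝓞 K)) {x y : K}
    (h : FinitePlace.mk q x = FinitePlace.mk q y) : q.valuation K x = q.valuation K y := by
  rw [FinitePlace.mk_apply, FinitePlace.mk_apply, FinitePlace.norm_embedding,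
    FinitePlace.norm_embedding, HeightOneSpectrum.adicAbv_def, HeightOneSpectrum.adicAbv_def] at h
  have h1 : WithZeroMulInt.toNNReal (HeightOneSpectrum.absNorm_ne_zero q) (q.valuation K x) =
      WithZeroMulInt.toNNReal (HeightOneSpectrum.absNorm_ne_zero q) (q.valuation K y) := by
    exact_mod_cast h
  exact (WithZeroMulInt.toNNReal_strictMono (HeightOneSpectrum.one_lt_absNorm_nnreal q)).injective h1

theorem part_one' {n : ℕ} (hodd : Odd n) {a b c : K} (ha : a ≠ 0) (hb : b ≠ 0) (hc : c ≠ 0)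
    (h : a ^ n + b ^ n + c ^ n = 0) (T : Finset (HeightOneSpectrum (𝓞 K)))
    (hT : ∀ q ∈ T, Ideal.absNorm q.asIdeal = 2 ∨
      (n.Coprime (Ideal.absNorm q.asIdeal * (Ideal.absNorm q.asIdeal - 1)) ∧
        ¬ (q.valuation K a = q.valuation K b ∧ q.valuation K b = q.valuation K c))) :
    (∏ q ∈ T, (Ideal.absNorm q.asIdeal : ℝ) ^ n ≤
      8 ^ Module.finrank ℚ K * mulHeight ![a, b, c] ^ 3) ∧
    ∀ q ∈ T, (Ideal.absNorm q.asIdeal : ℝ) ^ n ≤
      2 ^ Module.finrank ℚ K * mulHeight ![a, b, c] := by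
  have hinj : Function.Injective (fun q : HeightOneSpectrum (𝓞 K) => FinitePlace.mk q) := by
    intro q q' hq
    have := congrArg FinitePlace.maximalIdeal hq
    simpa only [FinitePlace.maximalIdeal_mk] using this
  have hnrm : ∀ q : HeightOneSpectrum (𝓞 K), nrm (FinitePlace.mk q) = Ideal.absNorm q.asIdeal := by
    intro q
    rw [nrm, FinitePlace.maximalIdeal_mk]
  have h1 := part_one hodd ha hb hc h (T.map ⟨_, hinj⟩) (by
    intro v hv
    rw [Finset.mem_map] at hv
    obtain ⟨q, hq, rfl⟩ := hv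
    simp only [Function.Embedding.coeFn_mk]
    rcases hT q hq with h2 | ⟨h2, h3⟩
    · have h2' : nrm (FinitePlace.mk q) = 2 := by rw [hnrm, h2]
      refine ⟨?_, ?_, two_deg _ h2' hb h⟩
      · rw [h2']
        exact hodd.coprime_two_right
      · rw [h2']
        exact Nat.coprime_one_right n
    · rw [hnrm]
      refine ⟨h2.coprime_mul_right_right, h2.coprime_mul_left_right, ?_⟩
      rintro ⟨h4, h5⟩
      exact h3 ⟨place_ne q h4, place_ne q h5⟩)
  constructor
  · have h2 := h1.1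
    rw [Finset.prod_map] at h2
    simp only [Function.Embedding.coeFn_mk, hnrm] at h2
    exact h2
  · intro q hq
    have h2 := h1.2 (FinitePlace.mk q) (Finset.mem_map.mpr ⟨q, hq, rfl⟩)
    rwa [hnrm] at h2

lemma exists_unit {x y : K} (hx : x ≠ 0) (hy : y ≠ 0) (h : ∀ v : FinitePlace K, v x = v y) :
    ∃ u : (𝓞 K)ˣ, x = algebraMap (𝓞 K) K u * y := by
  have h1 : IsIntegral ℤ (x / y) := isIntegral_of_le _ fun v => by
    rw [map_div₀, h v, div_self (FinitePlace.pos_iff.mpr hy).ne']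
  have h2 : IsIntegral ℤ (y / x) := isIntegral_of_le _ fun v => by
    rw [map_div₀, h v, div_self (FinitePlace.pos_iff.mpr hy).ne']
  obtain ⟨A, hA⟩ : ∃ A : 𝓞 K, algebraMap (𝓞 K) K A = x / y := ⟨⟨_, h1⟩, rfl⟩
  obtain ⟨B, hB⟩ : ∃ B : 𝓞 K, algebraMap (𝓞 K) K B = y / x := ⟨⟨_, h2⟩, rfl⟩
  have hAB : A * B = 1 := by
    apply FaithfulSMul.algebraMap_injective (𝓞 K) K
    rw [map_mul, hA, hB, map_one]
    field_simp
  refine ⟨⟨A, B, hAB, by rw [mul_comm]; exact hAB⟩, ?_⟩
  show x = algebraMap (𝓞 K) K A * y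
  rw [hA]
  field_simp

theorem part_two {p : ℕ} (hp : p.Prime) (h5 : 5 ≤ p) (hpd : 2 * Module.finrank ℚ K ≤ p)
    {a b c : K} (ha : a ≠ 0) (hb : b ≠ 0) (hc : c ≠ 0) (h : a ^ p + b ^ p + c ^ p = 0)
    (hH : 2 ^ Module.finrank ℚ K * mulHeight ![a, b, c] < 2 ^ p) :
    ∃ (u v : (𝓞 K)ˣ) (s : 𝓞 K), c + a = algebraMap (𝓞 K) K u * (a + b) ∧
      b + c = algebraMap (𝓞 K) K v * (a + b) ∧
      a + b + c = algebraMap (𝓞 K) K s * (a + b) ∧ 1 + (u : 𝓞 K) + v = 2 * s ∧
      (¬ (p : ℤ) ∣ discr K → (p : 𝓞 K) ∣ s) ∧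
      ∀ q : HeightOneSpectrum (𝓞 K), Ideal.absNorm q.asIdeal - 1 ∣ p - 1 → s ∈ q.asIdeal := by
  have hodd : Odd p := hp.odd_of_ne_two (by omega)
  have hab : a + b ≠ 0 := add_ne_zero_of_fermat hodd hc h
  have hbc : b + c ≠ 0 := add_ne_zero_of_fermat hodd ha (by linear_combination h)
  have hca : c + a ≠ 0 := add_ne_zero_of_fermat hodd hb (by linear_combination h)
  have hm : ∀ q : ℕ, q.Prime → q ∣ p → Module.finrank ℚ K + 1 < q := by
    intro q hq hqp
    rw [(Nat.prime_dvd_prime_iff_eq hq hp).mp hqp]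
    omega
  have hunits := units_of_small (by omega) hm ha hb hc h (Q := (2 : ℝ) ^ p) (by positivity)
    (fun w => by
      apply pow_le_pow_left₀ (by norm_num)
      have := one_lt_nrm w
      exact_mod_cast this) (by
      rw [hp.minFac_eq]
      have := pow_bound (d := Module.finrank ℚ K) (l := p) (n := p) (by omega) hpd (by omega)
        dvd_rfl
      exact_mod_cast this) hH
  obtain ⟨u, hu⟩ := exists_unit hca hab fun v => by rw [(hunits v).2.2, (hunits v).1]
  obtain ⟨v, hv⟩ := exists_unit hbc hab fun v => by rw [(hunits v).2.1, (hunits v).1]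
  have hint : ∀ x : K, (∀ w : FinitePlace K, w x ≤ mx w a b c) → IsIntegral ℤ (x / (a + b)) := by
    intro x hx
    apply isIntegral_of_le
    intro w
    rw [map_div₀, (hunits w).1]
    have hpos : 0 < mx w a b c := by rw [← (hunits w).1]; exact FinitePlace.pos_iff.mpr hab
    rw [div_le_one hpos]
    exact hx w
  obtain ⟨A, hA⟩ : ∃ A : 𝓞 K, algebraMap (𝓞 K) K A = a / (a + b) :=
    ⟨⟨_, hint a fun w => (le_max_left _ _).trans (le_max_left _ _)⟩, rfl⟩
  obtain ⟨B, hB⟩ : ∃ A : 𝓞 K, algebraMap (𝓞 K) K A = b / (a + b) :=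
    ⟨⟨_, hint b fun w => (le_max_right _ _).trans (le_max_left _ _)⟩, rfl⟩
  obtain ⟨C, hC⟩ : ∃ A : 𝓞 K, algebraMap (𝓞 K) K A = c / (a + b) :=
    ⟨⟨_, hint c fun w => le_max_right _ _⟩, rfl⟩
  have hsum : A ^ p + B ^ p + C ^ p = 0 := by
    apply FaithfulSMul.algebraMap_injective (𝓞 K) K
    simp only [map_add, map_pow, map_zero]
    rw [hA, hB, hC, div_pow, div_pow, div_pow, ← add_div, ← add_div, h, zero_div]
  have hs : a + b + c = algebraMap (𝓞 K) K (A + B + C) * (a + b) := by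
    simp only [map_add]
    rw [hA, hB, hC]
    field_simp
  refine ⟨u, v, A + B + C, hu, hv, hs, ?_, ?_, ?_⟩
  · apply FaithfulSMul.algebraMap_injective (𝓞 K) K
    apply mul_right_cancel₀ hab
    have e : algebraMap (𝓞 K) K (2 * (A + B + C)) * (a + b) = 2 * (a + b + c) := by
      rw [map_mul, mul_assoc, ← hs]
      congr 1
    rw [e, map_add, map_add, add_mul, add_mul, ← hu, ← hv, map_one]
    ring
  · intro hd
    have h1 : (p : 𝓞 K) ∣ (A + B + C) ^ p := by
      obtain ⟨r, hr⟩ := exists_add_pow_prime_eq hp (A + B) C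
      obtain ⟨t, ht⟩ := exists_add_pow_prime_eq hp A B
      rw [hr, ht]
      have : A ^ p + B ^ p + ↑p * A * B * t + C ^ p + ↑p * (A + B) * C * r =
          (A ^ p + B ^ p + C ^ p) + p * (A * B * t + (A + B) * C * r) := by ring
      rw [this, hsum, zero_add]
      exact dvd_mul_right _ _
    exact dvd_of_dvd_pow hp hd h1
  · intro q hq
    have hmax : q.asIdeal.IsMaximal := q.isMaximal
    letI := Ideal.Quotient.field q.asIdeal
    have : Finite (𝓞 K ⧸ q.asIdeal) := Ideal.finiteQuotientOfFreeOfNeBot q.asIdeal q.ne_bot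
    letI : Fintype (𝓞 K ⧸ q.asIdeal) := Fintype.ofFinite _
    have hcard : Fintype.card (𝓞 K ⧸ q.asIdeal) = Ideal.absNorm q.asIdeal := by
      rw [← Nat.card_eq_fintype_card]
      rfl
    have hfer : ∀ x : 𝓞 K ⧸ q.asIdeal, x ^ p = x := by
      intro x
      rcases eq_or_ne x 0 with rfl | hx
      · exact zero_pow hp.ne_zero
      · have h1 := FiniteField.pow_card_sub_one_eq_one x hx
        rw [hcard] at h1
        obtain ⟨k, hk⟩ := hq
        have h2 : p = (Ideal.absNorm q.asIdeal - 1) * k + 1 := by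
          have := hp.one_lt
          omega
        rw [h2, pow_succ, pow_mul, h1, one_pow, one_mul]
    rw [← Ideal.Quotient.eq_zero_iff_mem]
    have h3 := congrArg (Ideal.Quotient.mk q.asIdeal) hsum
    simp only [map_add, map_pow, map_zero, hfer] at h3
    simpa only [map_add] using h3

end Pool.Agent.X95T.FS
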