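import Pool.Agent.X95T.J

set_option autoImplicit false

open IntermediateField

namespace Pool.Agent.X95T

open Pool.Agent.Results.MP_821da1_nt.RepulsionAllCurves (CoordRing AtInfinity OnePlace)

/-- the leading behaviour at infinity, for a leading form of degree two -/
lemma lead2 {L : Type} [Field L] {Γ : Type} [LinearOrderedCommGroupWithZero Γ]
    (v : Valuation L Γ) {N k : ℕ} (hN : 1 ≤ N) (hk : 1 ≤ k) (hZ : ∀ c : ℤ, v (c : L) ≤ 1)
    (α β : ℤ) (hβ : v (β : L) = 1) (F : MvPolynomial (Fin 2) ℤ)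
    (hF : ∀ s ∈ (F - MvPolynomial.X 1 ^ (2 * k) -
      MvPolynomial.C α * MvPolynomial.X 1 ^ k * MvPolynomial.X 0 ^ N -
      MvPolynomial.C β * MvPolynomial.X 0 ^ (2 * N)).support, k * s 0 + N * s 1 < 2 * N * k)
    (x y : L) (hxy : 1 < v x ∨ 1 < v y) (h0 : MvPolynomial.aeval ![x, y] F = 0) :
    1 < v x ∧ 1 < v y ∧ v x ^ N = v y ^ k ∧
      v ((y ^ k / x ^ N) ^ 2 + α * (y ^ k / x ^ N) + β) < 1 := by
  obtain ⟨R, hR⟩ : ∃ R, R = F - MvPolynomial.X 1 ^ (2 * k) -
      MvPolynomial.C α * MvPolynomial.X 1 ^ k * MvPolynomial.X 0 ^ N -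
      MvPolynomial.C β * MvPolynomial.X 0 ^ (2 * N) := ⟨_, rfl⟩
  rw [← hR] at hF
  have e1 : MvPolynomial.aeval ![x, y] R = - ((y ^ k) ^ 2 + α * y ^ k * x ^ N + β * (x ^ N) ^ 2) := by
    rw [hR, map_sub, map_sub, map_sub, h0]
    simp only [map_mul, map_pow, MvPolynomial.aeval_X, Matrix.cons_val_zero, Matrix.cons_val_one,
      eq_intCast, map_intCast]
    ring
  rcases lt_trichotomy (v x ^ N) (v y ^ k) with hlt | heq | hgt
  · exfalso
    have hy : 1 < v y := by
      by_contra h
      rw [not_lt] at h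
      have hx : 1 < v x := hxy.resolve_right (not_lt.2 h)
      have h1 : v y ^ k ≤ 1 := pow_le_one₀ zero_le h
      have h2 : 1 < v x ^ N := one_lt_pow₀ hx (by omega)
      exact absurd (hlt.trans_le h1) (not_lt.2 h2.le)
    have huy : v y ≠ 0 := (lt_trans zero_lt_one hy).ne'
    have h1 : v (MvPolynomial.aeval ![x, y] R) < v y ^ (2 * k) := by
      apply sum_small v hZ R x y _ (pow_ne_zero _ huy)
      intro s hs
      have h2 := hF s hs
      refine lt_of_pow_lt_pow_left₀ N zero_le ?_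
      calc (v x ^ s 0 * v y ^ s 1) ^ N = (v x ^ N) ^ s 0 * v y ^ (N * s 1) := by
            rw [mul_pow, ← pow_mul, ← pow_mul, ← pow_mul, mul_comm N (s 0), mul_comm N (s 1)]
        _ ≤ (v y ^ k) ^ s 0 * v y ^ (N * s 1) := mul_le_mul_left (pow_le_pow_left₀ zero_le hlt.le _) _
        _ = v y ^ (k * s 0 + N * s 1) := by rw [← pow_mul, ← pow_add]
        _ < v y ^ (2 * N * k) := pow_lt_pow_right₀ hy h2
        _ = (v y ^ (2 * k)) ^ N := by rw [← pow_mul]; congr 1; ring
    have h2 : v (α * y ^ k * x ^ N) < v y ^ (2 * k) := by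
      rw [map_mul, map_mul, map_pow, map_pow]
      calc v (α : L) * v y ^ k * v x ^ N ≤ 1 * v y ^ k * v x ^ N := by
            gcongr
            exact hZ α
        _ = v y ^ k * v x ^ N := by rw [one_mul]
        _ < v y ^ k * v y ^ k := by
            apply mul_lt_mul_of_pos_left hlt
            exact pow_pos (zero_lt_iff.2 huy) _
        _ = v y ^ (2 * k) := by rw [← pow_add]; congr 1; ring
    have h3 : v (β * (x ^ N) ^ 2) < v y ^ (2 * k) := by
      rw [map_mul, map_pow, map_pow, hβ, one_mul]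
      calc (v x ^ N) ^ 2 < (v y ^ k) ^ 2 := pow_lt_pow_left₀ hlt zero_le (by norm_num)
        _ = v y ^ (2 * k) := by rw [← pow_mul]; congr 1; ring
    have h4 : v ((y ^ k) ^ 2) < v y ^ (2 * k) := by
      have e2 : (y ^ k) ^ 2 = - (MvPolynomial.aeval ![x, y] R + α * y ^ k * x ^ N +
          β * (x ^ N) ^ 2) := by
        rw [e1]; ring
      rw [e2, Valuation.map_neg]
      exact Valuation.map_add_lt _ (Valuation.map_add_lt _ h1 h2) h3
    rw [map_pow, map_pow, ← pow_mul, mul_comm k 2] at h4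
    exact lt_irrefl _ h4
  · have hx : 1 < v x := by
      by_contra h
      rw [not_lt] at h
      have hy : 1 < v y := hxy.resolve_left (not_lt.2 h)
      have h1 : v x ^ N ≤ 1 := pow_le_one₀ zero_le h
      have h2 : 1 < v y ^ k := one_lt_pow₀ hy (by omega)
      rw [heq] at h1
      exact absurd h2 (not_lt.2 h1)
    have hy : 1 < v y := by
      by_contra h
      rw [not_lt] at h
      have h1 : v y ^ k ≤ 1 := pow_le_one₀ zero_le h
      have h2 : 1 < v x ^ N := one_lt_pow₀ hx (by omega)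
      rw [← heq] at h1
      exact absurd h2 (not_lt.2 h1)
    refine ⟨hx, hy, heq, ?_⟩
    have hux : v x ≠ 0 := (lt_trans zero_lt_one hx).ne'
    have hx0 : x ≠ 0 := by rintro rfl; simp at hx
    have h1 : v (MvPolynomial.aeval ![x, y] R) < v x ^ (2 * N) := by
      apply sum_small v hZ R x y _ (pow_ne_zero _ hux)
      intro s hs
      have h2 := hF s hs
      refine lt_of_pow_lt_pow_left₀ k (zero_le) ?_
      calc (v x ^ s 0 * v y ^ s 1) ^ k = v x ^ (k * s 0) * (v y ^ k) ^ s 1 := by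
            rw [mul_pow, ← pow_mul, ← pow_mul, ← pow_mul, mul_comm k (s 0), mul_comm k (s 1)]
        _ = v x ^ (k * s 0) * (v x ^ N) ^ s 1 := by rw [heq]
        _ = v x ^ (k * s 0 + N * s 1) := by rw [← pow_mul, ← pow_add]
        _ < v x ^ (2 * N * k) := pow_lt_pow_right₀ hx h2
        _ = (v x ^ (2 * N)) ^ k := by rw [← pow_mul]
    have e2 : (y ^ k / x ^ N) ^ 2 + α * (y ^ k / x ^ N) + β =
        - MvPolynomial.aeval ![x, y] R / x ^ (2 * N) := by
      rw [e1, neg_neg, mul_comm 2 N, pow_mul]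
      have := pow_ne_zero N hx0
      field_simp
    rw [e2, map_div₀, map_pow, Valuation.map_neg]
    exact (div_lt_one₀ (zero_lt_iff.2 (pow_ne_zero _ hux))).2 h1
  · exfalso
    have hx : 1 < v x := by
      by_contra h
      rw [not_lt] at h
      have hy : 1 < v y := hxy.resolve_left (not_lt.2 h)
      have h1 : v x ^ N ≤ 1 := pow_le_one₀ zero_le h
      have h2 : 1 < v y ^ k := one_lt_pow₀ hy (by omega)
      exact absurd (hgt.trans_le h1) (not_lt.2 h2.le)
    have hux : v x ≠ 0 := (lt_trans zero_lt_one hx).ne'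
    have h1 : v (MvPolynomial.aeval ![x, y] R) < v x ^ (2 * N) := by
      apply sum_small v hZ R x y _ (pow_ne_zero _ hux)
      intro s hs
      have h2 := hF s hs
      refine lt_of_pow_lt_pow_left₀ k (zero_le) ?_
      calc (v x ^ s 0 * v y ^ s 1) ^ k = v x ^ (k * s 0) * (v y ^ k) ^ s 1 := by
            rw [mul_pow, ← pow_mul, ← pow_mul, ← pow_mul, mul_comm k (s 0), mul_comm k (s 1)]
        _ ≤ v x ^ (k * s 0) * (v x ^ N) ^ s 1 :=
            mul_le_mul_right (pow_le_pow_left₀ zero_le hgt.le _) _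
        _ = v x ^ (k * s 0 + N * s 1) := by rw [← pow_mul, ← pow_add]
        _ < v x ^ (2 * N * k) := pow_lt_pow_right₀ hx h2
        _ = (v x ^ (2 * N)) ^ k := by rw [← pow_mul]
    have h2 : v (α * y ^ k * x ^ N) < v x ^ (2 * N) := by
      rw [map_mul, map_mul, map_pow, map_pow]
      calc v (α : L) * v y ^ k * v x ^ N ≤ 1 * v y ^ k * v x ^ N := by
            gcongr
            exact hZ α
        _ = v y ^ k * v x ^ N := by rw [one_mul]
        _ < v x ^ N * v x ^ N := by
            apply mul_lt_mul_of_pos_right hgt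
            exact pow_pos (zero_lt_iff.2 hux) _
        _ = v x ^ (2 * N) := by rw [← pow_add]; congr 1; ring
    have h3 : v ((y ^ k) ^ 2) < v x ^ (2 * N) := by
      rw [map_pow, map_pow]
      calc (v y ^ k) ^ 2 < (v x ^ N) ^ 2 := pow_lt_pow_left₀ hgt zero_le (by norm_num)
        _ = v x ^ (2 * N) := by rw [← pow_mul]; congr 1; ring
    have h4 : v (β * (x ^ N) ^ 2) < v x ^ (2 * N) := by
      have e2 : β * (x ^ N) ^ 2 = - (MvPolynomial.aeval ![x, y] R + α * y ^ k * x ^ N +
          (y ^ k) ^ 2) := by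
        rw [e1]; ring
      rw [e2, Valuation.map_neg]
      exact Valuation.map_add_lt _ (Valuation.map_add_lt _ h1 h2) h3
    rw [map_mul, hβ, one_mul, map_pow, map_pow, ← pow_mul, mul_comm N 2] at h4
    exact lt_irrefl _ h4

lemma supp2 {N k : ℕ} (hN : 1 ≤ N) (hk : 1 ≤ k) (α β : ℤ) (F : MvPolynomial (Fin 2) ℤ)
    (hF : ∀ s ∈ (F - MvPolynomial.X 1 ^ (2 * k) -
      MvPolynomial.C α * MvPolynomial.X 1 ^ k * MvPolynomial.X 0 ^ N -
      MvPolynomial.C β * MvPolynomial.X 0 ^ (2 * N)).support, k * s 0 + N * s 1 < 2 * N * k) :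
    (∀ s ∈ (F - MvPolynomial.X 1 ^ (2 * k)).support, s 1 < 2 * k) ∧
    (∀ s ∈ F.support, s 0 ≤ 2 * N ∧ s 1 ≤ 2 * k) := by
  classical
  obtain ⟨R, hR⟩ : ∃ R, R = F - MvPolynomial.X 1 ^ (2 * k) -
      MvPolynomial.C α * MvPolynomial.X 1 ^ k * MvPolynomial.X 0 ^ N -
      MvPolynomial.C β * MvPolynomial.X 0 ^ (2 * N) := ⟨_, rfl⟩
  rw [← hR] at hF
  have hRs : ∀ s ∈ R.support, s 0 ≤ 2 * N ∧ s 1 < 2 * k := by
    intro s hs
    have h4 := hF s hs
    constructor
    · by_contra h5
      rw [not_le] at h5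
      have := Nat.mul_le_mul_left k h5.le
      have e : k * (2 * N) = 2 * N * k := by ring
      omega
    · by_contra h5
      rw [not_lt] at h5
      have := Nat.mul_le_mul_left N h5
      have e : N * (2 * k) = 2 * N * k := by ring
      omega
  have hmid : ∀ s ∈ (MvPolynomial.C α * MvPolynomial.X 1 ^ k * MvPolynomial.X 0 ^ N :
      MvPolynomial (Fin 2) ℤ).support, s 0 = N ∧ s 1 = k := by
    intro s hs
    have e : (MvPolynomial.C α * MvPolynomial.X 1 ^ k * MvPolynomial.X 0 ^ N :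
        MvPolynomial (Fin 2) ℤ) = MvPolynomial.monomial (Finsupp.single 1 k + Finsupp.single 0 N) α := by
      rw [MvPolynomial.X_pow_eq_monomial, MvPolynomial.X_pow_eq_monomial,
        MvPolynomial.C_mul_monomial, MvPolynomial.monomial_mul, mul_one, mul_one]
    rw [e] at hs
    have h1 := MvPolynomial.support_monomial_subset hs
    rw [Finset.mem_singleton] at h1
    subst h1
    simp
  have hlow : ∀ s ∈ (MvPolynomial.C β * MvPolynomial.X 0 ^ (2 * N) :
      MvPolynomial (Fin 2) ℤ).support, s 0 = 2 * N ∧ s 1 = 0 := by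
    intro s hs
    have e : (MvPolynomial.C β * MvPolynomial.X 0 ^ (2 * N) :
        MvPolynomial (Fin 2) ℤ) = MvPolynomial.monomial (Finsupp.single 0 (2 * N)) β := by
      rw [MvPolynomial.X_pow_eq_monomial, MvPolynomial.C_mul_monomial, mul_one]
    rw [e] at hs
    have h1 := MvPolynomial.support_monomial_subset hs
    rw [Finset.mem_singleton] at h1
    subst h1
    simp
  have htop : ∀ s ∈ (MvPolynomial.X 1 ^ (2 * k) : MvPolynomial (Fin 2) ℤ).support,
      s 0 = 0 ∧ s 1 = 2 * k := by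
    intro s hs
    rw [MvPolynomial.X_pow_eq_monomial] at hs
    have h1 := MvPolynomial.support_monomial_subset hs
    rw [Finset.mem_singleton] at h1
    subst h1
    simp
  have h1 : ∀ s ∈ (F - MvPolynomial.X 1 ^ (2 * k)).support, s 0 ≤ 2 * N ∧ s 1 < 2 * k := by
    intro s hs
    have e : F - MvPolynomial.X 1 ^ (2 * k) = R + MvPolynomial.C α * MvPolynomial.X 1 ^ k *
        MvPolynomial.X 0 ^ N + MvPolynomial.C β * MvPolynomial.X 0 ^ (2 * N) := by
      rw [hR]; ring
    rw [e] at hs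
    rcases Finset.mem_union.1 (MvPolynomial.support_add hs) with h | h
    · rcases Finset.mem_union.1 (MvPolynomial.support_add h) with h | h
      · exact hRs s h
      · have := hmid s h
        omega
    · have := hlow s h
      omega
  refine ⟨fun s hs => (h1 s hs).2, ?_⟩
  intro s hs
  have e : F = (F - MvPolynomial.X 1 ^ (2 * k)) + MvPolynomial.X 1 ^ (2 * k) := by ring
  rw [e] at hs
  rcases Finset.mem_union.1 (MvPolynomial.support_add hs) with h | h
  · have := h1 s h
    omega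
  · have := htop s h
    omega

end Pool.Agent.X95T
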