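import Mathlib

/-!
# Weighted quartics with at least two square variables: algebra
-/

set_option autoImplicit false
set_option linter.unusedSectionVars false

open MvPolynomial

namespace Pool.Agent.X95T.WQ

variable {K : Type} [Field K] [CharZero K]

/-- clearing denominators in the composition of a polynomial with a rational map -/
lemma clear {σ τ : Type} (φ : σ → MvPolynomial τ K) (D : MvPolynomial τ K)
    (g : MvPolynomial σ K) : ∃ (N : ℕ) (G : MvPolynomial τ K),
      ∀ (k : Type) [Field k] [Algebra K k] (y : τ → k), aeval y D ≠ 0 →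
        aeval y G = (aeval y D) ^ N * aeval (fun i => aeval y (φ i) / aeval y D) g := by
  induction g using MvPolynomial.induction_on with
  | C c =>
    refine ⟨0, C c, fun k _ _ y _ => ?_⟩
    simp
  | add p q hp hq =>
    obtain ⟨N, G, hG⟩ := hp
    obtain ⟨M, H, hH⟩ := hq
    refine ⟨N + M, G * D ^ M + H * D ^ N, fun k _ _ y hy => ?_⟩
    rw [map_add, map_mul, map_mul, map_pow, map_pow, hG k y hy, hH k y hy, map_add]
    ring
  | mul_X p i hp =>
    obtain ⟨N, G, hG⟩ := hp
    refine ⟨N + 1, G * φ i, fun k _ _ y hy => ?_⟩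
    rw [map_mul, hG k y hy, map_mul, aeval_X]
    field_simp
    ring

/-- the diagonal bilinear form -/
def bl {A ι : Type} [Fintype ι] [CommRing A] [Algebra K A] (a : ι → K) (u w : ι → A) : A :=
  ∑ i, algebraMap K A (a i) * u i * w i

section bl

variable {A ι : Type} [Fintype ι] [CommRing A] [Algebra K A] (a : ι → K)

lemma bl_comm (u w : ι → A) : bl a u w = bl a w u :=
  Finset.sum_congr rfl fun i _ => by ring

lemma bl_add (u v w : ι → A) : bl a u (fun i => v i + w i) = bl a u v + bl a u w := by
  unfold bl
  rw [← Finset.sum_add_distrib]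
  exact Finset.sum_congr rfl fun i _ => by ring

lemma bl_smul (s : A) (u w : ι → A) : bl a u (fun i => s * w i) = s * bl a u w := by
  unfold bl
  rw [Finset.mul_sum]
  exact Finset.sum_congr rfl fun i _ => by ring

lemma bl_sub (u v w : ι → A) : bl a u (fun i => v i - w i) = bl a u v - bl a u w := by
  unfold bl
  rw [← Finset.sum_sub_distrib]
  exact Finset.sum_congr rfl fun i _ => by ring

lemma bl_map {B : Type} [CommRing B] [Algebra K B] (φ : A →ₐ[K] B) (u w : ι → A) :
    φ (bl a u w) = bl a (fun i => φ (u i)) (fun i => φ (w i)) := by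
  unfold bl
  rw [map_sum]
  exact Finset.sum_congr rfl fun i _ => by rw [map_mul, map_mul, AlgHom.commutes]

/-- the value of the form at a sum of three vectors -/
lemma bl_three (u v w : ι → A) (t : A) :
    bl a (fun i => u i + t * v i + t ^ 2 * w i) (fun i => u i + t * v i + t ^ 2 * w i) =
      bl a u u + 2 * t * bl a u v + t ^ 2 * (2 * bl a u w + bl a v v) +
        2 * t ^ 3 * bl a v w + t ^ 4 * bl a w w := by
  unfold bl
  simp only [Finset.mul_sum, ← Finset.sum_add_distrib]
  exact Finset.sum_congr rfl fun i _ => by ring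

end bl

section tay

variable {κ : Type}

/-- the generic line -/
noncomputable def tay (f : MvPolynomial κ K) (z : κ → K) : Polynomial (MvPolynomial κ K) :=
  aeval (fun j => Polynomial.C (C (z j)) + Polynomial.C (X j) * Polynomial.X) f

/-- the Taylor coefficients -/
noncomputable def tc (f : MvPolynomial κ K) (z : κ → K) (i : ℕ) : MvPolynomial κ K :=
  (tay f z).coeff i

lemma tay_deg (f : MvPolynomial κ K) (z : κ → K) : (tay f z).natDegree ≤ f.totalDegree := by
  classical
  rw [tay, aeval_def, eval₂_eq]
  refine Polynomial.natDegree_sum_le_of_forall_le _ _ fun d hd => ?_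
  have h0 : (algebraMap K (Polynomial (MvPolynomial κ K)) (coeff d f)) =
      Polynomial.C (C (coeff d f)) := rfl
  rw [h0]
  refine (Polynomial.natDegree_C_mul_le _ _).trans ?_
  refine (Polynomial.natDegree_prod_le _ _).trans ?_
  have h1 : ∑ i ∈ d.support, d i ≤ f.totalDegree := le_totalDegree hd
  refine le_trans (Finset.sum_le_sum fun i _ => ?_) h1
  refine (Polynomial.natDegree_pow_le).trans ?_
  have h2 : (Polynomial.C (C (z i)) + Polynomial.C (X i) * Polynomial.X :
      Polynomial (MvPolynomial κ K)).natDegree ≤ 1 := by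
    compute_degree
  calc d i * _ ≤ d i * 1 := Nat.mul_le_mul_left _ h2
    _ = d i := mul_one _

lemma tay_map {k : Type} [Field k] [Algebra K k] (f : MvPolynomial κ K) (z : κ → K) (e : κ → k)
    (t : k) : ((tay f z).map (aeval e : MvPolynomial κ K →ₐ[K] k).toRingHom).eval t =
      aeval (fun j => algebraMap K k (z j) + t * e j) f := by
  unfold tay
  induction f using MvPolynomial.induction_on with
  | C c =>
    rw [aeval_C, aeval_C]
    have h0 : (algebraMap K (Polynomial (MvPolynomial κ K)) c) = Polynomial.C (C c) := rfl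
    rw [h0]
    simp
  | add p q hp hq => rw [map_add, Polynomial.map_add, Polynomial.eval_add, hp, hq, map_add]
  | mul_X p j hp =>
    rw [map_mul, Polynomial.map_mul, Polynomial.eval_mul, hp, map_mul, aeval_X, aeval_X]
    simp
    ring_nf
    simp

/-- the Taylor expansion -/
lemma tay_eval {k : Type} [Field k] [Algebra K k] {f : MvPolynomial κ K} (hf : f.totalDegree ≤ 4)
    (z : κ → K) (e : κ → k) (t : k) :
    aeval (fun j => algebraMap K k (z j) + t * e j) f =
      algebraMap K k (eval z f) + aeval e (tc f z 1) * t + aeval e (tc f z 2) * t ^ 2 +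
        aeval e (tc f z 3) * t ^ 3 + aeval e (tc f z 4) * t ^ 4 := by
  have key : ∀ s : k, aeval (fun j => algebraMap K k (z j) + s * e j) f =
      aeval e (tc f z 0) + aeval e (tc f z 1) * s + aeval e (tc f z 2) * s ^ 2 +
        aeval e (tc f z 3) * s ^ 3 + aeval e (tc f z 4) * s ^ 4 := by
    intro s
    rw [← tay_map]
    have hd : ((tay f z).map (aeval e : MvPolynomial κ K →ₐ[K] k).toRingHom).natDegree < 5 := by
      refine lt_of_le_of_lt Polynomial.natDegree_map_le ?_
      have := (tay_deg f z).trans hf
      omega
    rw [Polynomial.eval_eq_sum_range' hd]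
    simp only [Finset.sum_range_succ, Finset.sum_range_zero, Polynomial.coeff_map, tc]
    simp
  have h0 : aeval e (tc f z 0) = algebraMap K k (eval z f) := by
    have h := key 0
    simp only [zero_mul, add_zero, mul_zero, ne_eq, OfNat.ofNat_ne_zero, not_false_eq_true,
      zero_pow] at h
    rw [← h]
    exact (aeval_algebraMap_apply k z f).trans (by rw [aeval_eq_eval])
  rw [key t, h0]

end tay

end Pool.Agent.X95T.WQ
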