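import Pool.Agent.X95T.KA1

/-!
# Weighted quartics with at least two square variables: the parametrization
-/

set_option autoImplicit false
set_option linter.unusedSectionVars false

open MvPolynomial

namespace Pool.Agent.X95T.WQ

/-- a diagonal quadratic form, a polynomial and a point -/
structure Dat (K ι κ : Type) [Field K] where
  /-- the coefficients of the form -/
  a : ι → K
  /-- the polynomial -/
  f : MvPolynomial κ K
  /-- the point, first part -/
  w0 : ι → K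
  /-- the point, second part -/
  z0 : κ → K

namespace Dat

variable {K ι κ : Type} [Field K] [CharZero K] [Fintype ι] (d : Dat K ι κ)

/-- the value -/
noncomputable def c0 : K := eval d.z0 d.f

/-- the point lies on the variety, off `f = 0`, and `f` has degree at most four -/
structure Ok : Prop where
  deg : d.f.totalDegree ≤ 4
  ne : d.c0 ≠ 0
  eq : bl d.a d.w0 d.w0 = d.c0

section gen

variable {A : Type} [CommRing A] [Algebra K A]

/-- the point -/
def W0 (A : Type) [CommRing A] [Algebra K A] : ι → A := fun i => algebraMap K A (d.w0 i)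

lemma W0_bl (h : d.Ok) : bl d.a (d.W0 A) (d.W0 A) = algebraMap K A d.c0 := by
  rw [← h.eq]
  unfold bl W0
  rw [map_sum]
  exact Finset.sum_congr rfl fun i _ => by
    rw [map_mul, map_mul]
    rfl

/-- the linear term -/
noncomputable def w1 (v : κ → A) (h1 : ι → A) : ι → A := fun i =>
  h1 i + (algebraMap K A (2 * d.c0)⁻¹ * (aeval v (tc d.f d.z0 1) - 2 * bl d.a (d.W0 A) h1)) *
    d.W0 A i

/-- the quadratic term -/
noncomputable def w2 (v : κ → A) (h1 h2 : ι → A) : ι → A := fun i =>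
  h2 i + (algebraMap K A (2 * d.c0)⁻¹ * (aeval v (tc d.f d.z0 2) -
    bl d.a (d.w1 v h1) (d.w1 v h1) - 2 * bl d.a (d.W0 A) h2)) * d.W0 A i

/-- the coefficient of `t ^ 3` -/
noncomputable def F3 (v : κ → A) (h1 h2 : ι → A) : A :=
  2 * bl d.a (d.w1 v h1) (d.w2 v h1 h2) - aeval v (tc d.f d.z0 3)

/-- the coefficient of `t ^ 4` -/
noncomputable def F4 (v : κ → A) (h1 h2 : ι → A) : A :=
  bl d.a (d.w2 v h1 h2) (d.w2 v h1 h2) - aeval v (tc d.f d.z0 4)

lemma inv_mul (h : d.Ok) (x : A) :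
    2 * ((algebraMap K A (2 * d.c0)⁻¹ * x) * algebraMap K A d.c0) = x := by
  have h1 : algebraMap K A (2 * d.c0)⁻¹ * algebraMap K A d.c0 * 2 = 1 := by
    have h2 : (2 : A) = algebraMap K A 2 := (map_ofNat (algebraMap K A) 2).symm
    rw [h2, ← map_mul, ← map_mul]
    have h3 : (2 * d.c0)⁻¹ * d.c0 * 2 = 1 := by
      have := h.ne
      field_simp
    rw [h3, map_one]
  calc _ = (algebraMap K A (2 * d.c0)⁻¹ * algebraMap K A d.c0 * 2) * x := by ring
    _ = x := by rw [h1, one_mul]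

lemma eq1 (h : d.Ok) (v : κ → A) (h1 : ι → A) :
    2 * bl d.a (d.W0 A) (d.w1 v h1) = aeval v (tc d.f d.z0 1) := by
  unfold w1
  rw [bl_add, bl_smul, d.W0_bl h, mul_add, d.inv_mul h]
  ring

lemma eq2 (h : d.Ok) (v : κ → A) (h1 h2 : ι → A) :
    2 * bl d.a (d.W0 A) (d.w2 v h1 h2) + bl d.a (d.w1 v h1) (d.w1 v h1) =
      aeval v (tc d.f d.z0 2) := by
  unfold w2
  rw [bl_add, bl_smul, d.W0_bl h, mul_add, d.inv_mul h]
  ring

/-- naturality -/
lemma w1_map {B : Type} [CommRing B] [Algebra K B] (φ : A →ₐ[K] B) (v : κ → A) (h1 : ι → A)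
    (i : ι) : φ (d.w1 v h1 i) = d.w1 (fun j => φ (v j)) (fun j => φ (h1 j)) i := by
  unfold w1 W0
  simp only [map_add, map_mul, map_sub, AlgHom.commutes, bl_map, map_ofNat, comp_aeval_apply]

lemma w2_map {B : Type} [CommRing B] [Algebra K B] (φ : A →ₐ[K] B) (v : κ → A) (h1 h2 : ι → A)
    (i : ι) : φ (d.w2 v h1 h2 i) =
      d.w2 (fun j => φ (v j)) (fun j => φ (h1 j)) (fun j => φ (h2 j)) i := by
  unfold w2 W0
  simp only [map_add, map_mul, map_sub, AlgHom.commutes, bl_map, map_ofNat, comp_aeval_apply,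
    w1_map]

lemma F3_map {B : Type} [CommRing B] [Algebra K B] (φ : A →ₐ[K] B) (v : κ → A) (h1 h2 : ι → A) :
    φ (d.F3 v h1 h2) = d.F3 (fun j => φ (v j)) (fun j => φ (h1 j)) (fun j => φ (h2 j)) := by
  unfold F3
  simp only [map_mul, map_sub, bl_map, map_ofNat, comp_aeval_apply, w1_map, w2_map]

lemma F4_map {B : Type} [CommRing B] [Algebra K B] (φ : A →ₐ[K] B) (v : κ → A) (h1 h2 : ι → A) :
    φ (d.F4 v h1 h2) = d.F4 (fun j => φ (v j)) (fun j => φ (h1 j)) (fun j => φ (h2 j)) := by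
  unfold F4
  simp only [map_sub, bl_map, comp_aeval_apply, w2_map]

end gen

section pts

variable {k : Type} [Field k] [Algebra K k]

/-- the difference of the two sides along the path -/
lemma path (h : d.Ok) (v : κ → k) (h1 h2 : ι → k) (t : k) :
    bl d.a (fun i => d.W0 k i + t * d.w1 v h1 i + t ^ 2 * d.w2 v h1 h2 i)
        (fun i => d.W0 k i + t * d.w1 v h1 i + t ^ 2 * d.w2 v h1 h2 i) -
      aeval (fun j => algebraMap K k (d.z0 j) + t * v j) d.f =
      t ^ 3 * (d.F3 v h1 h2 + t * d.F4 v h1 h2) := by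
  rw [bl_three, tay_eval h.deg, d.W0_bl h, ← d.eq1 h v h1, ← d.eq2 h v h1 h2]
  unfold F3 F4 c0
  ring

/-- the parametrized points lie on the variety -/
lemma on_V (h : d.Ok) (v : κ → k) (h1 h2 : ι → k) (hF : d.F4 v h1 h2 ≠ 0) :
    bl d.a (fun i => d.W0 k i + (-d.F3 v h1 h2 / d.F4 v h1 h2) * d.w1 v h1 i +
          (-d.F3 v h1 h2 / d.F4 v h1 h2) ^ 2 * d.w2 v h1 h2 i)
        (fun i => d.W0 k i + (-d.F3 v h1 h2 / d.F4 v h1 h2) * d.w1 v h1 i +
          (-d.F3 v h1 h2 / d.F4 v h1 h2) ^ 2 * d.w2 v h1 h2 i) =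
      aeval (fun j => algebraMap K k (d.z0 j) + (-d.F3 v h1 h2 / d.F4 v h1 h2) * v j) d.f := by
  have h3 := d.path h v h1 h2 (-d.F3 v h1 h2 / d.F4 v h1 h2)
  rw [← sub_eq_zero, h3, div_mul_cancel₀ _ hF]
  ring

end pts

section poly

variable {κ : Type} (d : Dat K ι κ)

/-- the numerators -/
noncomputable def phi : ι ⊕ κ → MvPolynomial (κ ⊕ (ι ⊕ ι)) K
  | Sum.inl i => d.W0 _ i * d.F4 (fun j => X (Sum.inl j)) (fun j => X (Sum.inr (Sum.inl j)))
        (fun j => X (Sum.inr (Sum.inr j))) ^ 2 -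
      d.F3 (fun j => X (Sum.inl j)) (fun j => X (Sum.inr (Sum.inl j)))
        (fun j => X (Sum.inr (Sum.inr j))) *
      d.F4 (fun j => X (Sum.inl j)) (fun j => X (Sum.inr (Sum.inl j)))
        (fun j => X (Sum.inr (Sum.inr j))) *
      d.w1 (fun j => X (Sum.inl j)) (fun j => X (Sum.inr (Sum.inl j))) i +
      d.F3 (fun j => X (Sum.inl j)) (fun j => X (Sum.inr (Sum.inl j)))
        (fun j => X (Sum.inr (Sum.inr j))) ^ 2 *
      d.w2 (fun j => X (Sum.inl j)) (fun j => X (Sum.inr (Sum.inl j)))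
        (fun j => X (Sum.inr (Sum.inr j))) i
  | Sum.inr j => algebraMap K _ (d.z0 j) * d.F4 (fun j => X (Sum.inl j))
        (fun j => X (Sum.inr (Sum.inl j))) (fun j => X (Sum.inr (Sum.inr j))) ^ 2 -
      d.F3 (fun j => X (Sum.inl j)) (fun j => X (Sum.inr (Sum.inl j)))
        (fun j => X (Sum.inr (Sum.inr j))) *
      d.F4 (fun j => X (Sum.inl j)) (fun j => X (Sum.inr (Sum.inl j)))
        (fun j => X (Sum.inr (Sum.inr j))) * X (Sum.inl j)

/-- the denominator -/
noncomputable def den : MvPolynomial (κ ⊕ (ι ⊕ ι)) K :=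
  d.F4 (fun j => X (Sum.inl j)) (fun j => X (Sum.inr (Sum.inl j)))
        (fun j => X (Sum.inr (Sum.inr j))) ^ 2

variable {k : Type} [Field k] [Algebra K k]

lemma den_eval (y : κ ⊕ (ι ⊕ ι) → k) : aeval y d.den =
    d.F4 (fun j => y (Sum.inl j)) (fun j => y (Sum.inr (Sum.inl j)))
      (fun j => y (Sum.inr (Sum.inr j))) ^ 2 := by
  unfold den
  rw [map_pow, F4_map]
  simp only [aeval_X]

lemma phi_inl (y : κ ⊕ (ι ⊕ ι) → k) (hy : aeval y d.den ≠ 0) (i : ι) :
    aeval y (d.phi (Sum.inl i)) / aeval y d.den =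
      d.W0 k i + (-d.F3 (fun j => y (Sum.inl j)) (fun j => y (Sum.inr (Sum.inl j)))
          (fun j => y (Sum.inr (Sum.inr j))) /
        d.F4 (fun j => y (Sum.inl j)) (fun j => y (Sum.inr (Sum.inl j)))
          (fun j => y (Sum.inr (Sum.inr j)))) *
        d.w1 (fun j => y (Sum.inl j)) (fun j => y (Sum.inr (Sum.inl j))) i +
      (-d.F3 (fun j => y (Sum.inl j)) (fun j => y (Sum.inr (Sum.inl j)))
          (fun j => y (Sum.inr (Sum.inr j))) /
        d.F4 (fun j => y (Sum.inl j)) (fun j => y (Sum.inr (Sum.inl j)))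
          (fun j => y (Sum.inr (Sum.inr j)))) ^ 2 *
        d.w2 (fun j => y (Sum.inl j)) (fun j => y (Sum.inr (Sum.inl j)))
          (fun j => y (Sum.inr (Sum.inr j))) i := by
  rw [den_eval] at hy ⊢
  have hF : d.F4 (fun j => y (Sum.inl j)) (fun j => y (Sum.inr (Sum.inl j)))
      (fun j => y (Sum.inr (Sum.inr j))) ≠ 0 := fun h0 => hy (by rw [h0]; ring)
  simp only [phi, map_add, map_sub, map_mul, map_pow, F3_map, F4_map, w1_map, w2_map, aeval_X]
  have hW : aeval y (d.W0 (MvPolynomial (κ ⊕ (ι ⊕ ι)) K) i) = d.W0 k i := by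
    unfold W0
    rw [AlgHom.commutes]
  rw [hW]
  field_simp
  ring

lemma phi_inr (y : κ ⊕ (ι ⊕ ι) → k) (hy : aeval y d.den ≠ 0) (j : κ) :
    aeval y (d.phi (Sum.inr j)) / aeval y d.den =
      algebraMap K k (d.z0 j) +
        (-d.F3 (fun j => y (Sum.inl j)) (fun j => y (Sum.inr (Sum.inl j)))
          (fun j => y (Sum.inr (Sum.inr j))) /
        d.F4 (fun j => y (Sum.inl j)) (fun j => y (Sum.inr (Sum.inl j)))
          (fun j => y (Sum.inr (Sum.inr j)))) * y (Sum.inl j) := by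
  rw [den_eval] at hy ⊢
  have hF : d.F4 (fun j => y (Sum.inl j)) (fun j => y (Sum.inr (Sum.inl j)))
      (fun j => y (Sum.inr (Sum.inr j))) ≠ 0 := fun h0 => hy (by rw [h0]; ring)
  simp only [phi, map_sub, map_mul, map_pow, F3_map, F4_map, aeval_X, AlgHom.commutes]
  field_simp
  ring

end poly

end Dat

end Pool.Agent.X95T.WQ
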