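import Pool.Agent.X95T.KA2

/-!
# Weighted quartics with at least two square variables: dominance of the parametrization
-/

set_option autoImplicit false
set_option linter.unusedSectionVars false

open MvPolynomial

namespace Pool.Agent.X95T.WQ

section more

variable {K A ι : Type} [Field K] [Fintype ι] [CommRing A] [Algebra K A] (a : ι → K)

lemma bl_lin (s t : A) (u v w : ι → A) :
    bl a u (fun i => s * v i + t * w i) = s * bl a u v + t * bl a u w := by
  unfold bl
  rw [Finset.mul_sum, Finset.mul_sum, ← Finset.sum_add_distrib]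
  exact Finset.sum_congr rfl fun i _ => by ring

lemma bl_sub_two (u v w : ι → A) :
    bl a u (fun i => v i - w i) = bl a u v - bl a u w := by
  unfold bl
  rw [← Finset.sum_sub_distrib]
  exact Finset.sum_congr rfl fun i _ => by ring

lemma bl_sub_three (x y z : ι → A) :
    bl a (fun i => x i - y i - z i) (fun i => x i - y i - z i) =
      bl a x x + bl a y y + bl a z z - 2 * bl a x y - 2 * bl a x z + 2 * bl a y z := by
  unfold bl
  simp only [Finset.mul_sum, ← Finset.sum_add_distrib, ← Finset.sum_sub_distrib]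
  exact Finset.sum_congr rfl fun i _ => by ring

lemma bl_sub_sub (x y z u : ι → A) :
    bl a u (fun i => x i - y i - z i) = bl a u x - bl a u y - bl a u z := by
  unfold bl
  simp only [← Finset.sum_sub_distrib]
  exact Finset.sum_congr rfl fun i _ => by ring

lemma bl_sub_smul (x y : ι → A) (s : A) :
    bl a (fun i => x i - s * y i) (fun i => x i - s * y i) =
      bl a x x - 2 * s * bl a y x + s ^ 2 * bl a y y := by
  unfold bl
  simp only [Finset.mul_sum, ← Finset.sum_add_distrib, ← Finset.sum_sub_distrib]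
  exact Finset.sum_congr rfl fun i _ => by ring

end more

namespace Dat

variable {K ι κ : Type} [Field K] [CharZero K] [Fintype ι] (d : Dat K ι κ)

/-- a vector orthogonal to the point and not isotropic -/
lemma exists_perp [Nontrivial ι] (h : d.Ok) (ha : ∀ i, d.a i ≠ 0) :
    ∃ u : ι → K, bl d.a d.w0 u = 0 ∧ bl d.a u u ≠ 0 := by
  classical
  by_contra hcon
  push Not at hcon
  have hc := h.ne
  have e1 : ∀ (x : ι → K) (j : ι), bl d.a x (Pi.single j 1) = d.a j * x j := by
    intro x j
    unfold bl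
    rw [Finset.sum_eq_single j]
    · simp
    · intro i _ hi
      rw [Pi.single_eq_of_ne hi, mul_zero]
    · intro h
      exact absurd (Finset.mem_univ j) h
  have e2 : ∀ j, d.a j * d.w0 j ^ 2 = d.c0 := by
    intro j
    have h1 := hcon (fun i => (Pi.single j (1 : K) : ι → K) i - (d.a j * d.w0 j / d.c0) * d.w0 i)
      (by rw [bl_sub, bl_smul, e1, h.eq]; field_simp; ring)
    rw [bl_sub_smul, e1, e1, h.eq] at h1
    have haj := ha j
    rw [Pi.single_eq_same] at h1
    field_simp at h1
    have h2 : d.a j * (d.c0 - d.a j * d.w0 j ^ 2) = 0 := by linear_combination h1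
    have h3 := (mul_eq_zero.1 h2).resolve_left haj
    linear_combination -h3
  have e3 : d.c0 = (Fintype.card ι : K) * d.c0 := by
    have h1 : bl d.a d.w0 d.w0 = ∑ _i : ι, d.c0 := by
      unfold bl
      refine Finset.sum_congr rfl fun i _ => ?_
      rw [← e2 i]
      show d.a i * d.w0 i * d.w0 i = _
      ring
    rw [h.eq, Finset.sum_const, Finset.card_univ, nsmul_eq_mul] at h1
    exact h1
  have e4 : ((Fintype.card ι : K) - 1) * d.c0 = 0 := by linear_combination -e3
  have e5 := (mul_eq_zero.1 e4).resolve_right hc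
  have e6 : (Fintype.card ι : K) = 1 := by linear_combination e5
  have e7 : Fintype.card ι = 1 := by exact_mod_cast e6
  have e8 := Fintype.one_lt_card (α := ι)
  omega

/-- the polynomial which detects the points reached by the parametrization -/
noncomputable def psi : MvPolynomial (ι ⊕ κ) K :=
  algebraMap K _ d.c0 * (4 * algebraMap K _ d.c0 +
      3 * aeval (fun j => X (Sum.inr j) - algebraMap K _ (d.z0 j)) (tc d.f d.z0 1) +
      2 * aeval (fun j => X (Sum.inr j) - algebraMap K _ (d.z0 j)) (tc d.f d.z0 2) +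
      aeval (fun j => X (Sum.inr j) - algebraMap K _ (d.z0 j)) (tc d.f d.z0 3)) -
    (4 * algebraMap K _ d.c0 +
      aeval (fun j => X (Sum.inr j) - algebraMap K _ (d.z0 j)) (tc d.f d.z0 1)) *
      bl d.a (d.W0 _) (fun i => X (Sum.inl i))

variable {k : Type} [Field k] [Algebra K k]

lemma psi_eval (Z : ι ⊕ κ → k) : aeval Z d.psi =
    algebraMap K k d.c0 * (4 * algebraMap K k d.c0 +
      3 * aeval (fun j => Z (Sum.inr j) - algebraMap K k (d.z0 j)) (tc d.f d.z0 1) +
      2 * aeval (fun j => Z (Sum.inr j) - algebraMap K k (d.z0 j)) (tc d.f d.z0 2) +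
      aeval (fun j => Z (Sum.inr j) - algebraMap K k (d.z0 j)) (tc d.f d.z0 3)) -
    (4 * algebraMap K k d.c0 +
      aeval (fun j => Z (Sum.inr j) - algebraMap K k (d.z0 j)) (tc d.f d.z0 1)) *
      bl d.a (d.W0 k) (fun i => Z (Sum.inl i)) := by
  unfold psi W0
  simp only [map_add, map_sub, map_mul, AlgHom.commutes, bl_map, map_ofNat, comp_aeval_apply,
    aeval_X]

/-- **Every point with `psi ≠ 0` is reached, over an algebraically closed field.** -/
theorem reach [Nontrivial ι] [IsAlgClosed k] [CharZero k] (h : d.Ok) (ha : ∀ i, d.a i ≠ 0)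
    (Z : ι ⊕ κ → k)
    (hZ : bl d.a (fun i => Z (Sum.inl i)) (fun i => Z (Sum.inl i)) =
      aeval (fun j => Z (Sum.inr j)) d.f) (hpsi : aeval Z d.psi ≠ 0) :
    ∃ y : κ ⊕ (ι ⊕ ι) → k, aeval y d.den ≠ 0 ∧
      (fun s => aeval y (d.phi s) / aeval y d.den) = Z := by
  obtain ⟨u, hu1, hu2⟩ := d.exists_perp h ha
  set v : κ → k := fun j => Z (Sum.inr j) - algebraMap K k (d.z0 j) with hv
  set T1 := aeval v (tc d.f d.z0 1) with hT1
  set T2 := aeval v (tc d.f d.z0 2) with hT2
  set T3 := aeval v (tc d.f d.z0 3) with hT3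
  set T4 := aeval v (tc d.f d.z0 4) with hT4
  set c := algebraMap K k d.c0 with hc
  have hc0 : c ≠ 0 := by
    rw [hc, Ne, map_eq_zero]
    exact h.ne
  set Bw := bl d.a (d.W0 k) (fun i => Z (Sum.inl i)) with hBw
  set U : ι → k := fun i => algebraMap K k (u i) with hU
  have hU1 : bl d.a (d.W0 k) U = 0 := by
    have := congrArg (algebraMap K k) hu1
    rw [map_zero] at this
    rw [← this]
    unfold bl W0
    rw [map_sum]
    exact Finset.sum_congr rfl fun i _ => by rw [map_mul, map_mul]; rfl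
  have hU2 : bl d.a U U ≠ 0 := by
    have : bl d.a U U = algebraMap K k (bl d.a u u) := by
      unfold bl
      rw [map_sum]
      exact Finset.sum_congr rfl fun i _ => by rw [map_mul, map_mul]; rfl
    rw [this, Ne, map_eq_zero]
    exact hu2
  set qU := bl d.a U U with hqU
  set ZU := bl d.a (fun i => Z (Sum.inl i)) U with hZU
  obtain ⟨s, hs⟩ := IsAlgClosed.exists_pow_nat_eq ((T2 + T1 - 2 * (Bw - c) - T1 ^ 2 / (4 * c)) / qU)
    (n := 2) (by norm_num)
  -- the value of the form at `Z`
  have hqZ : bl d.a (fun i => Z (Sum.inl i)) (fun i => Z (Sum.inl i)) =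
      c + T1 + T2 + T3 + T4 := by
    have e := tay_eval (k := k) h.deg d.z0 v 1
    have e1 : (fun j => algebraMap K k (d.z0 j) + 1 * v j) = fun j => Z (Sum.inr j) := by
      funext j
      rw [hv]
      ring
    rw [e1, ← hZ] at e
    rw [e, hc, hT1, hT2, hT3, hT4]
    unfold c0
    ring
  have hW0 : bl d.a (d.W0 k) (d.W0 k) = c := d.W0_bl h
  -- the parameters
  have key : ∀ ε : k, ε ^ 2 = s ^ 2 → ∃ y : κ ⊕ (ι ⊕ ι) → k,
      (∀ j, y (Sum.inl j) = v j) ∧
      d.F4 (fun j => y (Sum.inl j)) (fun j => y (Sum.inr (Sum.inl j)))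
        (fun j => y (Sum.inr (Sum.inr j))) =
        4 * c + 3 * T1 + 2 * T2 + T3 - (4 + T1 / c) * Bw - 2 * ε * ZU ∧
      (fun i => d.W0 k i + 1 * d.w1 (fun j => y (Sum.inl j)) (fun j => y (Sum.inr (Sum.inl j))) i +
        1 ^ 2 * d.w2 (fun j => y (Sum.inl j)) (fun j => y (Sum.inr (Sum.inl j)))
          (fun j => y (Sum.inr (Sum.inr j))) i) = fun i => Z (Sum.inl i) := by
    intro ε hε
    set h1 : ι → k := fun i => T1 / (2 * c) * d.W0 k i + ε * U i with hh1
    set h2 : ι → k := fun i => (Z (Sum.inl i) - d.W0 k i) - h1 i with hh2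
    refine ⟨Sum.elim v (Sum.elim h1 h2), fun j => rfl, ?_⟩
    have b1 : bl d.a (d.W0 k) h1 = T1 / 2 := by
      rw [hh1, bl_lin, hU1, hW0]
      field_simp
      ring
    have b2 : bl d.a U h1 = ε * qU := by
      rw [hh1, bl_lin, bl_comm d.a U (d.W0 k), hU1, ← hqU]
      ring
    have b3 : bl d.a h1 h1 = T2 + T1 - 2 * (Bw - c) := by
      have : bl d.a h1 h1 = T1 / (2 * c) * bl d.a h1 (d.W0 k) + ε * bl d.a h1 U := by
        rw [← bl_lin]
      rw [this, bl_comm d.a h1 (d.W0 k), bl_comm d.a h1 U, b1, b2]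
      have e : ε * (ε * qU) = s ^ 2 * qU := by rw [← hε]; ring
      rw [e, hs]
      field_simp
      ring
    have b4 : bl d.a (fun i => Z (Sum.inl i)) h1 = T1 / (2 * c) * Bw + ε * ZU := by
      rw [hh1, bl_lin, bl_comm d.a _ (d.W0 k), ← hBw, ← hZU]
    have b5 : bl d.a (d.W0 k) h2 = Bw - c - T1 / 2 := by
      rw [hh2, bl_sub_sub, b1, hW0, ← hBw]
    have w1e : d.w1 v h1 = h1 := by
      funext i
      unfold w1
      rw [b1, ← hT1]
      ring
    have w2e : d.w2 v h1 h2 = h2 := by
      funext i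
      unfold w2
      rw [w1e, b3, b5, ← hT2]
      ring
    have b6 : bl d.a h2 h2 = 4 * c + 3 * T1 + 2 * T2 + T3 - (4 + T1 / c) * Bw - 2 * ε * ZU + T4 := by
      rw [hh2, bl_sub_three, hqZ, hW0, b3, b4, b1, bl_comm d.a (fun i => Z (Sum.inl i)) (d.W0 k),
        ← hBw]
      field_simp
      ring
    constructor
    · show d.F4 v h1 h2 = _
      unfold F4
      rw [w2e, b6, ← hT4]
      ring
    · show (fun i => d.W0 k i + 1 * d.w1 v h1 i + 1 ^ 2 * d.w2 v h1 h2 i) = _
      rw [w1e, w2e]
      funext i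
      rw [hh2]
      ring
  have hex : ∃ ε : k, ε ^ 2 = s ^ 2 ∧
      4 * c + 3 * T1 + 2 * T2 + T3 - (4 + T1 / c) * Bw - 2 * ε * ZU ≠ 0 := by
    by_contra hcon
    push Not at hcon
    have g1 := hcon s rfl
    have g2 := hcon (-s) (by ring)
    apply hpsi
    rw [psi_eval]
    show c * (4 * c + 3 * T1 + 2 * T2 + T3) - (4 * c + T1) * Bw = 0
    have g3 : 4 * c + 3 * T1 + 2 * T2 + T3 - (4 + T1 / c) * Bw = 0 := by
      linear_combination (g1 + g2) / 2
    have g4 : c * (4 * c + 3 * T1 + 2 * T2 + T3) - (4 * c + T1) * Bw =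
        c * (4 * c + 3 * T1 + 2 * T2 + T3 - (4 + T1 / c) * Bw) := by
      field_simp
    rw [g4, g3, mul_zero]
  obtain ⟨ε, hε, hne⟩ := hex
  obtain ⟨y, hy1, hy2, hy3⟩ := key ε hε
  rw [← hy2] at hne
  have hden : aeval y d.den ≠ 0 := by
    rw [den_eval]
    exact pow_ne_zero 2 hne
  have hv' : (fun j => y (Sum.inl j)) = v := funext hy1
  have hp := d.path (k := k) h (fun j => y (Sum.inl j)) (fun j => y (Sum.inr (Sum.inl j)))
    (fun j => y (Sum.inr (Sum.inr j))) 1
  have e1 : (fun j => algebraMap K k (d.z0 j) + 1 * y (Sum.inl j)) = fun j => Z (Sum.inr j) := by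
    funext j
    rw [hy1 j, hv]
    ring
  rw [hy3, e1, hZ, sub_self] at hp
  have ht : -d.F3 (fun j => y (Sum.inl j)) (fun j => y (Sum.inr (Sum.inl j)))
          (fun j => y (Sum.inr (Sum.inr j))) /
        d.F4 (fun j => y (Sum.inl j)) (fun j => y (Sum.inr (Sum.inl j)))
          (fun j => y (Sum.inr (Sum.inr j))) = 1 := by
    rw [div_eq_one_iff_eq hne]
    linear_combination hp
  refine ⟨y, hden, ?_⟩
  funext i
  rcases i with i | j
  · rw [d.phi_inl y hden, ht]
    exact congrFun hy3 i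
  · rw [d.phi_inr y hden, ht]
    exact congrFun e1 j

end Dat

end Pool.Agent.X95T.WQ
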