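import Pool.Agent.X95T.KA3

/-!
# Weighted quartics with at least two square variables: elimination of a coordinate
-/

set_option autoImplicit false
set_option linter.unusedSectionVars false

open MvPolynomial

namespace Pool.Agent.X95T.WQ

section elim

variable {K ι κ : Type} [Field K] [CharZero K] [Fintype ι] [DecidableEq ι] (a : ι → K)
  (f : MvPolynomial κ K) (i0 : ι)

/-- the other coordinates -/
def rz {k : Type} (Z : ι ⊕ κ → k) : {i // i ≠ i0} ⊕ κ → k :=
  Sum.elim (fun i => Z (Sum.inl i.1)) fun j => Z (Sum.inr j)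

/-- the square of the distinguished coordinate -/
noncomputable def Dt : MvPolynomial ({i // i ≠ i0} ⊕ κ) K :=
  C (a i0)⁻¹ * (rename Sum.inr f - ∑ i : {i // i ≠ i0}, C (a i) * X (Sum.inl i) ^ 2)

variable {k : Type} [Field k] [Algebra K k]

lemma Dt_eval (e : {i // i ≠ i0} ⊕ κ → k) : aeval e (Dt a f i0) =
    algebraMap K k (a i0)⁻¹ * (aeval (fun j => e (Sum.inr j)) f -
      ∑ i : {i // i ≠ i0}, algebraMap K k (a i) * e (Sum.inl i) ^ 2) := by
  unfold Dt
  rw [map_mul, map_sub, map_sum, aeval_C, aeval_rename]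
  simp only [map_mul, map_pow, aeval_C, aeval_X]
  rfl

lemma on_V_iff (ha : a i0 ≠ 0) (Z : ι ⊕ κ → k) :
    bl a (fun i => Z (Sum.inl i)) (fun i => Z (Sum.inl i)) = aeval (fun j => Z (Sum.inr j)) f ↔
      Z (Sum.inl i0) ^ 2 = aeval (rz i0 Z) (Dt a f i0) := by
  have h1 : bl a (fun i => Z (Sum.inl i)) (fun i => Z (Sum.inl i)) =
      algebraMap K k (a i0) * Z (Sum.inl i0) ^ 2 +
        ∑ i : {i // i ≠ i0}, algebraMap K k (a i) * Z (Sum.inl i.1) ^ 2 := by
    unfold bl
    rw [Fintype.sum_eq_add_sum_subtype_ne _ i0]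
    congr 1
    · ring
    · exact Finset.sum_congr rfl fun i _ => by ring
  have h2 : algebraMap K k (a i0) ≠ 0 := by
    rw [Ne, map_eq_zero]
    exact ha
  rw [h1, Dt_eval, map_inv₀]
  show _ ↔ _ = _ * (aeval (fun j => Z (Sum.inr j)) f -
    ∑ i : {i // i ≠ i0}, algebraMap K k (a i) * Z (Sum.inl i.1) ^ 2)
  rw [eq_inv_mul_iff_mul_eq₀ h2]
  constructor
  · intro h
    linear_combination h
  · intro h
    linear_combination h

lemma split (g : MvPolynomial (ι ⊕ κ) K) : ∃ g0 g1 : MvPolynomial ({i // i ≠ i0} ⊕ κ) K,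
    ∀ (k : Type) [Field k] [Algebra K k] (Z : ι ⊕ κ → k),
      Z (Sum.inl i0) ^ 2 = aeval (rz i0 Z) (Dt a f i0) →
      aeval Z g = aeval (rz i0 Z) g0 + aeval (rz i0 Z) g1 * Z (Sum.inl i0) := by
  induction g using MvPolynomial.induction_on with
  | C c =>
    refine ⟨C c, 0, fun k _ _ Z _ => ?_⟩
    simp
  | add p q hp hq =>
    obtain ⟨p0, p1, hp⟩ := hp
    obtain ⟨q0, q1, hq⟩ := hq
    refine ⟨p0 + q0, p1 + q1, fun k _ _ Z hZ => ?_⟩
    rw [map_add, hp k Z hZ, hq k Z hZ, map_add, map_add]
    ring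
  | mul_X p s hp =>
    obtain ⟨p0, p1, hp⟩ := hp
    rcases s with i | j
    · by_cases hi : i = i0
      · subst hi
        refine ⟨p1 * Dt a f i, p0, fun k _ _ Z hZ => ?_⟩
        rw [map_mul, hp k Z hZ, map_mul, aeval_X, ← hZ]
        ring
      · refine ⟨p0 * X (Sum.inl ⟨i, hi⟩), p1 * X (Sum.inl ⟨i, hi⟩), fun k _ _ Z hZ => ?_⟩
        rw [map_mul, hp k Z hZ, map_mul, map_mul, aeval_X, aeval_X]
        show _ = _ * Z (Sum.inl i) + _ * Z (Sum.inl i) * _
        ring
    · refine ⟨p0 * X (Sum.inr j), p1 * X (Sum.inr j), fun k _ _ Z hZ => ?_⟩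
      rw [map_mul, hp k Z hZ, map_mul, map_mul, aeval_X, aeval_X]
      show _ = _ * Z (Sum.inr j) + _ * Z (Sum.inr j) * _
      ring

/-- the square of the distinguished coordinate is not a square -/
lemma nonsq (hf : f ≠ 0) (ha : ∀ i, a i ≠ 0) {i1 : ι} (hi : i1 ≠ i0)
    {u w : MvPolynomial ({i // i ≠ i0} ⊕ κ) K} (h : u ^ 2 = w ^ 2 * Dt a f i0) : w = 0 := by
  classical
  by_contra hw
  set I1 : {i // i ≠ i0} := ⟨i1, hi⟩ with hI1
  set Ep : MvPolynomial ({i // i ≠ i0} ⊕ κ) K :=
    rename Sum.inr f - ∑ i ∈ Finset.univ.erase I1, C (a i.1) * X (Sum.inl i) ^ 2 with hEp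
  have hEp0 : Ep ≠ 0 := by
    intro h0
    obtain ⟨z, hz⟩ : ∃ z : κ → K, eval z f ≠ 0 := by
      by_contra hc
      push Not at hc
      exact hf (MvPolynomial.funext fun z => by rw [hc z, map_zero])
    have h1 := congrArg (eval (Sum.elim (fun _ => (0 : K)) z)) h0
    rw [hEp, map_sub, map_sum, eval_rename, map_zero] at h1
    apply hz
    have h2 : ∑ i ∈ Finset.univ.erase I1, eval (Sum.elim (fun _ => (0 : K)) z)
        (C (a i.1) * X (Sum.inl i) ^ 2) = 0 := by
      refine Finset.sum_eq_zero fun i _ => ?_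
      simp
    rw [h2, sub_zero] at h1
    exact h1
  obtain ⟨e, he⟩ : ∃ e, eval e (w * Ep) ≠ 0 := by
    by_contra hc
    push Not at hc
    exact mul_ne_zero hw hEp0 (MvPolynomial.funext fun z => by rw [hc z, map_zero])
  rw [map_mul, mul_ne_zero_iff] at he
  obtain ⟨he1, he2⟩ := he
  let kb := AlgebraicClosure K
  let ρ : MvPolynomial ({i // i ≠ i0} ⊕ κ) K →ₐ[K] Polynomial kb :=
    aeval fun t => if t = Sum.inl I1 then Polynomial.X else Polynomial.C (algebraMap K kb (e t))
  have hρv : ∀ g, (ρ g).eval (algebraMap K kb (e (Sum.inl I1))) = algebraMap K kb (eval e g) := by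
    intro g
    induction g using MvPolynomial.induction_on with
    | C c =>
      show ((aeval _ (C c) : Polynomial kb)).eval _ = _
      rw [aeval_C, eval_C]
      have h0 : (algebraMap K (Polynomial kb) c) = Polynomial.C (algebraMap K kb c) := rfl
      rw [h0, Polynomial.eval_C]
    | add p q hp hq => rw [map_add, Polynomial.eval_add, hp, hq, map_add, map_add]
    | mul_X p s hp =>
      rw [map_mul, Polynomial.eval_mul, hp, map_mul, map_mul, eval_X]
      congr 1
      show ((aeval _ (X s) : Polynomial kb)).eval _ = _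
      rw [aeval_X]
      split_ifs with hs
      · rw [Polynomial.eval_X, hs]
      · rw [Polynomial.eval_C]
  have hρC : ∀ c : K, ρ (C c) = Polynomial.C (algebraMap K kb c) := by
    intro c
    show (aeval _ (C c) : Polynomial kb) = _
    rw [aeval_C]
    rfl
  -- polynomials not involving the variable
  have hρE : ρ Ep = Polynomial.C (algebraMap K kb (eval e Ep)) := by
    have h1 : ∀ g : MvPolynomial κ K, ρ (rename Sum.inr g) =
        Polynomial.C (algebraMap K kb (eval e (rename Sum.inr g))) := by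
      intro g
      induction g using MvPolynomial.induction_on with
      | C c => rw [rename_C, hρC, eval_C]
      | add p q hp hq => simp only [map_add, hp, hq]
      | mul_X p s hp =>
        rw [map_mul, map_mul, hp, rename_X, map_mul, map_mul, eval_X, Polynomial.C_mul]
        congr 1
        show (aeval _ (X (Sum.inr s)) : Polynomial kb) = _
        rw [aeval_X, if_neg (by simp)]
    have h2 : ∀ i ∈ Finset.univ.erase I1, ρ (C (a i.1) * X (Sum.inl i) ^ 2) =
        Polynomial.C (algebraMap K kb (eval e (C (a i.1) * X (Sum.inl i) ^ 2))) := by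
      intro i hi'
      have hne : i ≠ I1 := Finset.ne_of_mem_erase hi'
      rw [map_mul, hρC, map_pow]
      have h3 : ρ (X (Sum.inl i)) = Polynomial.C (algebraMap K kb (e (Sum.inl i))) := by
        show (aeval _ (X (Sum.inl i)) : Polynomial kb) = _
        rw [aeval_X, if_neg (by simpa using hne)]
      rw [h3, map_mul, map_pow, eval_C, eval_X, map_mul, map_pow, Polynomial.C_mul,
        Polynomial.C_pow]
    rw [hEp, map_sub, map_sum, h1, Finset.sum_congr rfl h2, map_sub, map_sum, map_sub, map_sum,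
      Polynomial.C_sub, map_sum]
  obtain ⟨r, hr⟩ := IsAlgClosed.exists_pow_nat_eq
    (algebraMap K kb (eval e Ep) / algebraMap K kb (a i1)) (n := 2) (by norm_num)
  have hb : algebraMap K kb (a i1) ≠ 0 := by
    rw [Ne, map_eq_zero]
    exact ha i1
  have hE' : algebraMap K kb (eval e Ep) ≠ 0 := by
    rw [Ne, map_eq_zero]
    exact he2
  have hr0 : r ≠ 0 := by
    rintro rfl
    rw [zero_pow two_ne_zero] at hr
    exact (div_ne_zero hE' hb) hr.symm
  have hDt : Dt a f i0 = C (a i0)⁻¹ * (Ep - C (a i1) * X (Sum.inl I1) ^ 2) := by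
    unfold Dt
    rw [hEp, ← Finset.add_sum_erase Finset.univ (fun i : {i // i ≠ i0} =>
      C (a i.1) * (X (Sum.inl i) : MvPolynomial ({i // i ≠ i0} ⊕ κ) K) ^ 2) (Finset.mem_univ I1)]
    ring
  have hρD : ρ (Dt a f i0) = Polynomial.C (-(algebraMap K kb (a i0)⁻¹ * algebraMap K kb (a i1))) *
      ((Polynomial.X - Polynomial.C r) * (Polynomial.X + Polynomial.C r)) := by
    have h3 : ρ (X (Sum.inl I1)) = Polynomial.X := by
      show (aeval _ (X (Sum.inl I1)) : Polynomial kb) = _
      rw [aeval_X, if_pos rfl]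
    have h4 : algebraMap K kb (eval e Ep) = algebraMap K kb (a i1) * r ^ 2 := by
      rw [hr, mul_comm, div_mul_cancel₀ _ hb]
    rw [hDt, map_mul, map_sub, map_mul, map_pow, hρC, hρC, hρE, h3, h4]
    simp only [Polynomial.C_mul, Polynomial.C_neg, Polynomial.C_pow]
    ring
  have hρw : ρ w ≠ 0 := by
    intro h0
    have h1 := hρv w
    rw [h0, Polynomial.eval_zero] at h1
    exact he1 ((map_eq_zero _).1 h1.symm)
  have hc : -(algebraMap K kb (a i0)⁻¹ * algebraMap K kb (a i1)) ≠ 0 := by
    rw [neg_ne_zero]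
    refine mul_ne_zero ?_ hb
    rw [Ne, map_eq_zero]
    exact inv_ne_zero (ha i0)
  have hX1 : (Polynomial.X - Polynomial.C r) ≠ 0 := Polynomial.X_sub_C_ne_zero r
  have hX2 : (Polynomial.X + Polynomial.C r) ≠ 0 := Polynomial.X_add_C_ne_zero r
  have hu := congrArg ρ h
  rw [map_pow, map_mul, map_pow, hρD] at hu
  have hroots := congrArg (fun p => Multiset.count r (Polynomial.roots p)) hu
  rw [Polynomial.roots_pow, Polynomial.roots_mul (mul_ne_zero (pow_ne_zero 2 hρw)
    (mul_ne_zero (Polynomial.C_ne_zero.2 hc) (mul_ne_zero hX1 hX2))), Polynomial.roots_pow,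
    Polynomial.roots_C_mul _ hc, Polynomial.roots_mul (mul_ne_zero hX1 hX2),
    Polynomial.roots_X_sub_C, Polynomial.roots_X_add_C, Multiset.count_add, Multiset.count_add,
    Multiset.count_nsmul, Multiset.count_nsmul, Multiset.count_singleton_self,
    Multiset.count_singleton, if_neg] at hroots
  · omega
  · intro h0
    apply hr0
    have : (2 : kb) * r = 0 := by linear_combination h0
    exact (mul_eq_zero.1 this).resolve_left two_ne_zero

/-- A product of two functions on the variety vanishes only if a factor does. -/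
theorem elim (hf : f ≠ 0) (ha : ∀ i, a i ≠ 0) {i1 : ι} (hi : i1 ≠ i0)
    (g p : MvPolynomial (ι ⊕ κ) K)
    (hgp : ∀ Z : ι ⊕ κ → AlgebraicClosure K,
      bl a (fun i => Z (Sum.inl i)) (fun i => Z (Sum.inl i)) = aeval (fun j => Z (Sum.inr j)) f →
      aeval Z g * aeval Z p = 0)
    (Z0 : ι ⊕ κ → K)
    (hZ0 : bl a (fun i => Z0 (Sum.inl i)) (fun i => Z0 (Sum.inl i)) =
      aeval (fun j => Z0 (Sum.inr j)) f) (hp : aeval Z0 p ≠ 0) (Z : ι ⊕ κ → K)
    (hZ : bl a (fun i => Z (Sum.inl i)) (fun i => Z (Sum.inl i)) =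
      aeval (fun j => Z (Sum.inr j)) f) : aeval Z g = 0 := by
  obtain ⟨g0, g1, hg⟩ := split a f i0 g
  obtain ⟨p0, p1, hp'⟩ := split a f i0 p
  have key : (g0 ^ 2 - g1 ^ 2 * Dt a f i0) * (p0 ^ 2 - p1 ^ 2 * Dt a f i0) = 0 := by
    apply MvPolynomial.funext
    intro e
    rw [map_zero]
    obtain ⟨s, hs⟩ := IsAlgClosed.exists_pow_nat_eq
      (algebraMap K (AlgebraicClosure K) (eval e (Dt a f i0))) (n := 2) (by norm_num)
    -- the points above `e`
    have hpt : ∀ s' : AlgebraicClosure K, s' ^ 2 = s ^ 2 →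
        (algebraMap K (AlgebraicClosure K) (eval e g0) +
          algebraMap K (AlgebraicClosure K) (eval e g1) * s') *
        (algebraMap K (AlgebraicClosure K) (eval e p0) +
          algebraMap K (AlgebraicClosure K) (eval e p1) * s') = 0 := by
      intro s' hs'
      set Z' : ι ⊕ κ → AlgebraicClosure K := Sum.elim
        (fun i => if h : i = i0 then s' else algebraMap K _ (e (Sum.inl ⟨i, h⟩)))
        (fun j => algebraMap K _ (e (Sum.inr j))) with hZ'
      have h1 : rz i0 Z' = fun t => algebraMap K _ (e t) := by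
        funext t
        rcases t with t | t
        · show (if h : t.1 = i0 then s' else algebraMap K _ (e (Sum.inl ⟨t.1, h⟩))) = _
          rw [dif_neg t.2]
        · rfl
      have h2 : ∀ q : MvPolynomial ({i // i ≠ i0} ⊕ κ) K, aeval (rz i0 Z') q =
          algebraMap K (AlgebraicClosure K) (eval e q) := by
        intro q
        rw [h1]
        exact (aeval_algebraMap_apply (AlgebraicClosure K) e q).trans (by rw [aeval_eq_eval])
      have h3 : Z' (Sum.inl i0) = s' := by
        show (if h : i0 = i0 then s' else _) = s'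
        rw [dif_pos rfl]
      have h4 : Z' (Sum.inl i0) ^ 2 = aeval (rz i0 Z') (Dt a f i0) := by
        rw [h3, hs', hs, h2]
      have h5 := hgp Z' ((on_V_iff a f i0 (ha i0) Z').2 h4)
      rw [hg _ Z' h4, hp' _ Z' h4, h2, h2, h2, h2, h3] at h5
      exact h5
    have e1 := hpt s rfl
    have e2 := hpt (-s) (by ring)
    apply (algebraMap K (AlgebraicClosure K)).injective
    simp only [map_zero, map_mul, map_sub, map_pow]
    rw [← hs]
    linear_combination (algebraMap K (AlgebraicClosure K) (eval e g0) -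
          algebraMap K (AlgebraicClosure K) (eval e g1) * s) *
        (algebraMap K (AlgebraicClosure K) (eval e p0) -
          algebraMap K (AlgebraicClosure K) (eval e p1) * s) * e1
  rcases mul_eq_zero.1 key with h | h
  · have h1 : g1 = 0 := nonsq a f i0 hf ha hi (u := g0) (by linear_combination h)
    have h0 : g0 = 0 := by
      rw [h1] at h
      have : g0 ^ 2 = 0 := by linear_combination h
      exact pow_eq_zero_iff two_ne_zero |>.1 this
    rw [hg K Z ((on_V_iff a f i0 (ha i0) Z).1 hZ), h0, h1]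
    simp
  · exfalso
    have h1 : p1 = 0 := nonsq a f i0 hf ha hi (u := p0) (by linear_combination h)
    have h0 : p0 = 0 := by
      rw [h1] at h
      have : p0 ^ 2 = 0 := by linear_combination h
      exact pow_eq_zero_iff two_ne_zero |>.1 this
    apply hp
    rw [hp' K Z0 ((on_V_iff a f i0 (ha i0) Z0).1 hZ0), h0, h1]
    simp

end elim

end Pool.Agent.X95T.WQ
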