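import Pool.Agent.X95T.KA4
import Pool.Agent.Y718.FQ.Vals

/-!
# Weighted quartics with at least two square variables: rational functions with values in flat sets
-/

set_option autoImplicit false
set_option linter.unusedSectionVars false

open MvPolynomial Pool.Agent.Y718.FQ

namespace Pool.Agent.X95T.WQ

variable {K : Type} [Field K] [CharZero K] {O : Set K}

/-- a set with a dominant rational parametrization, off a hypersurface -/
theorem unirat (hO : Pool.Agent.TH783.CE.Flat O) {σ τ : Type} [Fintype τ]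
    (φ : σ → MvPolynomial τ K) (D : MvPolynomial τ K) (g0 : MvPolynomial σ K) {X : Set (σ → K)}
    (hne : X.Nonempty)
    (h1 : ∀ y : τ → K, aeval y D ≠ 0 → aeval (fun s => aeval y (φ s) / aeval y D) g0 ≠ 0 →
      (fun s => aeval y (φ s) / aeval y D) ∈ X)
    (h0 : ∀ x ∈ X, aeval x g0 ≠ 0)
    (h2 : ∀ g : MvPolynomial σ K, (∀ y : τ → K, aeval y D ≠ 0 →
      aeval (fun s => aeval y (φ s) / aeval y D) g = 0) → ∀ x ∈ X, aeval x g = 0) : CP O X := by
  obtain ⟨x0, hx0⟩ := hne
  have hD : D ≠ 0 := by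
    rintro rfl
    have := h2 1 (fun y hy => absurd (map_zero _) hy) x0 hx0
    rw [map_one] at this
    exact one_ne_zero this
  have hz : ∀ (g : MvPolynomial σ K) (N : ℕ) (G : MvPolynomial τ K),
      (∀ (k : Type) [Field k] [Algebra K k] (y : τ → k), aeval y D ≠ 0 →
        aeval y G = (aeval y D) ^ N * aeval (fun i => aeval y (φ i) / aeval y D) g) → G = 0 →
      ∀ x ∈ X, aeval x g = 0 := by
    rintro g N G hG rfl
    refine h2 g fun y hy => ?_
    have := hG K y hy
    rw [map_zero] at this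
    exact (mul_eq_zero.1 this.symm).resolve_left (pow_ne_zero _ hy)
  obtain ⟨N0, G0, hG0⟩ := clear φ D g0
  have hG00 : G0 ≠ 0 := fun h => h0 x0 hx0 (hz g0 N0 G0 hG0 h x0 hx0)
  have hpt : ∀ y : τ → K, aeval y D ≠ 0 → aeval y G0 ≠ 0 →
      (fun s => aeval y (φ s) / aeval y D) ∈ X := by
    intro y hy hy0
    refine h1 y hy fun h => hy0 ?_
    rw [hG0 K y hy, h, mul_zero]
  refine ⟨⟨x0, hx0⟩, ?_, ?_⟩
  · intro g h hgh
    obtain ⟨N, G, hG⟩ := clear φ D g
    obtain ⟨M, H, hH⟩ := clear φ D h
    have h3 : G * H * (G0 * D) = 0 := by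
      apply MvPolynomial.funext
      intro y
      rw [map_zero, ← aeval_eq_eval]
      by_cases hy : aeval y D = 0
      · rw [map_mul, map_mul (aeval y) G0, hy, mul_zero, mul_zero]
      by_cases hy0 : aeval y G0 = 0
      · rw [map_mul, map_mul (aeval y) G0, hy0, zero_mul, mul_zero]
      rcases hgh _ (hpt y hy hy0) with h4 | h4
      · rw [← aeval_eq_eval] at h4
        rw [map_mul, map_mul, hG K y hy, h4]
        ring
      · rw [← aeval_eq_eval] at h4
        rw [map_mul, map_mul, hH K y hy, h4]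
        ring
    rcases mul_eq_zero.1 ((mul_eq_zero.1 h3).resolve_right (mul_ne_zero hG00 hD)) with h4 | h4
    · left
      intro x hx
      rw [← aeval_eq_eval]
      exact hz g N G hG h4 x hx
    · right
      intro x hx
      rw [← aeval_eq_eval]
      exact hz h M H hH h4 x hx
  · rintro p q hpq ⟨x1, hx1, hq1⟩
    obtain ⟨N, P, hP⟩ := clear φ D p
    obtain ⟨M, Q, hQ⟩ := clear φ D q
    have hQ0 : Q ≠ 0 := by
      intro h
      apply hq1
      rw [← aeval_eq_eval]
      exact hz q M Q hQ h x1 hx1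
    obtain ⟨c, hc⟩ := Pool.Agent.Y349.FQ.mvf K O hO τ (P * D ^ M) (Q * D ^ N) (D * G0)
      (mul_ne_zero hQ0 (pow_ne_zero _ hD)) (mul_ne_zero hD hG00) (by
        intro y hy1 hy2
        rw [← aeval_eq_eval] at hy1 hy2
        rw [map_mul, mul_ne_zero_iff] at hy1 hy2
        have hx := hpt y hy2.1 hy2.2
        have hqx : aeval (fun s => aeval y (φ s) / aeval y D) q ≠ 0 := by
          intro h
          apply hy1.1
          rw [hQ K y hy2.1, h, mul_zero]
        have h3 := hpq _ hx (by rw [← aeval_eq_eval]; exact hqx)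
        rw [← aeval_eq_eval] at h3
        rw [← aeval_eq_eval, map_mul, map_mul, map_pow, map_pow, hP K y hy2.1,
          hQ K y hy2.1]
        have hDy := hy2.1
        have e : (aeval y D ^ N * aeval (fun s => aeval y (φ s) / aeval y D) p * aeval y D ^ M) /
            (aeval y D ^ M * aeval (fun s => aeval y (φ s) / aeval y D) q * aeval y D ^ N) =
            aeval (fun s => aeval y (φ s) / aeval y D) p /
              aeval (fun s => aeval y (φ s) / aeval y D) q := by
          field_simp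
        rw [e]
        exact h3)
    refine ⟨c, fun x hx => ?_⟩
    have h4 := h2 (p - C c * q) (fun y hy => by
      have h5 := congrArg (aeval y) hc
      rw [map_mul, map_mul, map_mul, map_pow, map_pow, hP K y hy, hQ K y hy, aeval_C] at h5
      rw [map_sub, map_mul, aeval_C]
      have h6 : aeval y D ^ N * aeval y D ^ M * (aeval (fun s => aeval y (φ s) / aeval y D) p -
          algebraMap K K c * aeval (fun s => aeval y (φ s) / aeval y D) q) = 0 := by
        linear_combination h5
      exact (mul_eq_zero.1 h6).resolve_left (mul_ne_zero (pow_ne_zero _ hy) (pow_ne_zero _ hy)))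
      x hx
    rw [map_sub, map_mul, aeval_C, sub_eq_zero] at h4
    rw [← aeval_eq_eval]
    exact h4

lemma tay_zero {κ : Type} (f : MvPolynomial κ K) (z : κ → K) :
    (tay f z).map (aeval (fun _ => (0 : K)) : MvPolynomial κ K →ₐ[K] K).toRingHom =
      Polynomial.C (eval z f) := by
  unfold tay
  induction f using MvPolynomial.induction_on with
  | C c =>
    rw [aeval_C, eval_C]
    have h0 : (algebraMap K (Polynomial (MvPolynomial κ K)) c) = Polynomial.C (C c) := rfl
    rw [h0]
    simp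
  | add p q hp hq => rw [map_add, Polynomial.map_add, hp, hq, map_add, Polynomial.C_add]
  | mul_X p j hp =>
    rw [map_mul, Polynomial.map_mul, hp, map_mul, aeval_X, eval_X, Polynomial.C_mul]
    congr 1
    simp

lemma tc_zero {κ : Type} (f : MvPolynomial κ K) (z : κ → K) {i : ℕ} (hi : i ≠ 0) :
    aeval (fun _ => (0 : K)) (tc f z i) = 0 := by
  have h := congrArg (fun p => Polynomial.coeff p i) (tay_zero f z)
  simp only [Polynomial.coeff_map, Polynomial.coeff_C, if_neg hi] at h
  exact h

section main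

variable {ι κ : Type} [Fintype ι] [Fintype κ]

/-- a function which vanishes on the parametrized points vanishes on the variety -/
theorem closure [Nontrivial ι] (d : Dat K ι κ) (h : d.Ok) (ha : ∀ i, d.a i ≠ 0)
    (g : MvPolynomial (ι ⊕ κ) K)
    (hg : ∀ y : κ ⊕ (ι ⊕ ι) → K, aeval y d.den ≠ 0 →
      aeval (fun s => aeval y (d.phi s) / aeval y d.den) g = 0)
    (Z : ι ⊕ κ → K)
    (hZ : bl d.a (fun i => Z (Sum.inl i)) (fun i => Z (Sum.inl i)) =
      aeval (fun j => Z (Sum.inr j)) d.f) : aeval Z g = 0 := by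
  classical
  obtain ⟨i0, i1, hi⟩ := exists_pair_ne ι
  have hf : d.f ≠ 0 := by
    intro h0
    apply h.ne
    unfold Dat.c0
    rw [h0, map_zero]
  obtain ⟨N, G, hG⟩ := clear d.phi d.den g
  have hGd : G * d.den = 0 := by
    apply MvPolynomial.funext
    intro y
    rw [map_zero, ← aeval_eq_eval, map_mul]
    by_cases hy : aeval y d.den = 0
    · rw [hy, mul_zero]
    · rw [hG K y hy, hg y hy, mul_zero, zero_mul]
  refine elim d.a d.f i0 hf ha hi.symm g d.psi ?_
    (Sum.elim (fun i => -d.w0 i) d.z0) ?_ ?_ Z hZ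
  · intro Z' hZ'
    by_cases hpsi : aeval Z' d.psi = 0
    · rw [hpsi, mul_zero]
    · obtain ⟨y, hy, hyZ⟩ := d.reach h ha Z' hZ' hpsi
      have hden : d.den ≠ 0 := by
        intro h0
        rw [h0, map_zero] at hy
        exact hy rfl
      have hG0 : G = 0 := (mul_eq_zero.1 hGd).resolve_right hden
      have h5 := hG _ y hy
      rw [hG0, map_zero, hyZ] at h5
      rw [(mul_eq_zero.1 h5.symm).resolve_left (pow_ne_zero _ hy), zero_mul]
  · show bl d.a (fun i => -d.w0 i) (fun i => -d.w0 i) = aeval (fun j => d.z0 j) d.f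
    have e1 : bl d.a (fun i => -d.w0 i) (fun i => -d.w0 i) = bl d.a d.w0 d.w0 := by
      unfold bl
      exact Finset.sum_congr rfl fun i _ => by ring
    rw [e1, h.eq, aeval_eq_eval]
    rfl
  · rw [d.psi_eval]
    have e0 : (fun j => (Sum.elim (fun i => -d.w0 i) d.z0 : ι ⊕ κ → K) (Sum.inr j) -
        algebraMap K K (d.z0 j)) = fun _ => (0 : K) := by
      funext j
      show d.z0 j - d.z0 j = 0
      ring
    rw [e0, tc_zero _ _ (by norm_num), tc_zero _ _ (by norm_num), tc_zero _ _ (by norm_num)]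
    have e1 : bl d.a (d.W0 K) (fun i => (Sum.elim (fun i => -d.w0 i) d.z0 : ι ⊕ κ → K)
        (Sum.inl i)) = -d.c0 := by
      rw [← h.eq]
      unfold bl Dat.W0
      rw [← Finset.sum_neg_distrib]
      refine Finset.sum_congr rfl fun i _ => ?_
      show d.a i * d.w0 i * -d.w0 i = -(d.a i * d.w0 i * d.w0 i)
      ring
    rw [e1]
    have hc := h.ne
    show d.c0 * (4 * d.c0 + 3 * 0 + 2 * 0 + 0) - (4 * d.c0 + 0) * -d.c0 ≠ 0
    have : d.c0 * (4 * d.c0 + 3 * 0 + 2 * 0 + 0) - (4 * d.c0 + 0) * -d.c0 = 8 * d.c0 ^ 2 := by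
      ring
    rw [this]
    exact mul_ne_zero (by norm_num) (pow_ne_zero 2 hc)

/-- **Rational functions with values in a flat set on a weighted quartic are constant.** -/
theorem cp [Nontrivial ι] (hO : Pool.Agent.TH783.CE.Flat O) (a : ι → K) (ha : ∀ i, a i ≠ 0)
    (f : MvPolynomial κ K) (hf : f.totalDegree ≤ 4)
    (hne : {Z : ι ⊕ κ → K | bl a (fun i => Z (Sum.inl i)) (fun i => Z (Sum.inl i)) =
      aeval (fun j => Z (Sum.inr j)) f ∧ aeval (fun j => Z (Sum.inr j)) f ≠ 0}.Nonempty) :
    CP O {Z : ι ⊕ κ → K | bl a (fun i => Z (Sum.inl i)) (fun i => Z (Sum.inl i)) =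
      aeval (fun j => Z (Sum.inr j)) f ∧ aeval (fun j => Z (Sum.inr j)) f ≠ 0} := by
  obtain ⟨P, hP1, hP2⟩ := hne
  let d : Dat K ι κ := ⟨a, f, fun i => P (Sum.inl i), fun j => P (Sum.inr j)⟩
  have hd : d.Ok := by
    refine ⟨hf, ?_, ?_⟩
    · show eval (fun j => P (Sum.inr j)) f ≠ 0
      rw [← aeval_eq_eval]
      exact hP2
    · show bl a (fun i => P (Sum.inl i)) (fun i => P (Sum.inl i)) =
        eval (fun j => P (Sum.inr j)) f
      rw [← aeval_eq_eval]
      exact hP1
  have hg0 : ∀ Z : ι ⊕ κ → K, aeval Z (rename Sum.inr f : MvPolynomial (ι ⊕ κ) K) =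
      aeval (fun j => Z (Sum.inr j)) f := by
    intro Z
    rw [aeval_rename]
    rfl
  refine unirat hO d.phi d.den (rename Sum.inr f) ⟨P, hP1, hP2⟩ ?_ ?_ ?_
  · intro y hy hy0
    rw [hg0] at hy0
    refine ⟨?_, hy0⟩
    have hF : d.F4 (fun j => y (Sum.inl j)) (fun j => y (Sum.inr (Sum.inl j)))
        (fun j => y (Sum.inr (Sum.inr j))) ≠ 0 := by
      intro h0
      apply hy
      rw [d.den_eval, h0]
      ring
    have h1 := d.on_V (k := K) hd _ _ _ hF
    have e1 : (fun i => (fun s => aeval y (d.phi s) / aeval y d.den) (Sum.inl i : ι ⊕ κ)) =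
        _ := funext fun i => d.phi_inl y hy i
    have e2 : (fun j => (fun s => aeval y (d.phi s) / aeval y d.den) (Sum.inr j : ι ⊕ κ)) =
        _ := funext fun j => d.phi_inr y hy j
    rw [e1, e2]
    exact h1
  · intro x hx
    rw [hg0]
    exact hx.2
  · intro g hg x hx
    exact closure d hd ha g hg x hx.1

end main

end Pool.Agent.X95T.WQ
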