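import Pool.Agent.X95T.KA5

/-!
# Blocks: values of rational functions in flat sets
-/

set_option autoImplicit false
set_option linter.unusedSectionVars false

open MvPolynomial Pool.Agent.Y718.FQ

namespace Pool.Agent.X95T.WQ

lemma tdeg {K σ τ : Type} [Field K] (e : σ → τ) (he : Function.Injective e)
    (p : MvPolynomial σ K) : p.totalDegree ≤ (rename e p).totalDegree := by
  classical
  refine Finset.sup_le fun m hm => ?_
  have h1 : Finsupp.mapDomain e m ∈ (rename e p).support := by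
    rw [support_rename_of_injective he]
    exact Finset.mem_image_of_mem _ hm
  refine le_trans (le_of_eq ?_) (Finset.le_sup (f := fun s => Finsupp.sum s fun _ e => e) h1)
  exact (Finsupp.sum_mapDomain_index (h := fun _ e => e) (fun _ => rfl)
    (fun _ _ _ => rfl)).symm

/-- the weighted quartics -/
def IsWQ {K : Type} [Field K] {n : ℕ} (S : Set (Fin (n + 1) → K)) : Prop :=
  ∃ (I : Finset (Fin (n + 1))) (a : Fin (n + 1) → K) (f : MvPolynomial (Fin (n + 1)) K),
    2 ≤ I.card ∧ (∀ i ∈ I, a i ≠ 0) ∧ f.totalDegree ≤ 4 ∧ (∀ i ∈ I, i ∉ f.vars) ∧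
    S = {y | ∑ i ∈ I, a i * y i ^ 2 = eval y f ∧ eval y f ≠ 0}

variable {K : Type} [Field K] [CharZero K] {O : Set K}

theorem IsWQ.fcp (hO : Pool.Agent.TH783.CE.Flat O) {n : ℕ} {S : Set (Fin (n + 1) → K)}
    (hS : IsWQ S) : FCP O S := by
  classical
  obtain ⟨I, a, f, hI, ha, hf, hv, rfl⟩ := hS
  by_cases hne : ({y | ∑ i ∈ I, a i * y i ^ 2 = eval y f ∧ eval y f ≠ 0} :
      Set (Fin (n + 1) → K)).Nonempty
  swap
  · rw [Set.not_nonempty_iff_eq_empty] at hne
    rw [hne]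
    exact FCP.of_finite Set.finite_empty
  obtain ⟨f', hf'⟩ := exists_rename_eq_of_vars_subset_range f
    (Subtype.val : {i : Fin (n + 1) // ¬ i ∈ I} → Fin (n + 1)) Subtype.val_injective (by
      intro i hi
      exact ⟨⟨i, fun h => hv i h hi⟩, rfl⟩)
  have hdeg : f'.totalDegree ≤ 4 := by
    refine (tdeg _ Subtype.val_injective f').trans ?_
    rw [hf']
    exact hf
  have : Nontrivial {i : Fin (n + 1) // i ∈ I} := by
    obtain ⟨x, hx, y, hy, hxy⟩ := Finset.one_lt_card.1 hI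
    exact ⟨⟨x, hx⟩, ⟨y, hy⟩, fun h => hxy (congrArg Subtype.val h)⟩
  have e1 : ∀ y : Fin (n + 1) → K,
      bl (fun i : {i : Fin (n + 1) // i ∈ I} => a i) (fun i => y i) (fun i => y i) =
        ∑ i ∈ I, a i * y i ^ 2 := by
    intro y
    unfold bl
    rw [← Finset.sum_coe_sort I]
    refine Finset.sum_congr rfl fun i _ => ?_
    show a i * y i * y i = a i * y i ^ 2
    ring
  have e2 : ∀ y : Fin (n + 1) → K,
      aeval (fun j : {i : Fin (n + 1) // ¬ i ∈ I} => y j) f' = eval y f := by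
    intro y
    rw [← hf', eval_rename, aeval_eq_eval]
    rfl
  have hset : {y : Fin (n + 1) → K | ∑ i ∈ I, a i * y i ^ 2 = eval y f ∧ eval y f ≠ 0} =
      {y : Fin (n + 1) → K | (fun i => y (Equiv.sumCompl (fun i => i ∈ I) i)) ∈
        {Z : {i : Fin (n + 1) // i ∈ I} ⊕ {i : Fin (n + 1) // ¬ i ∈ I} → K |
          bl (fun i : {i : Fin (n + 1) // i ∈ I} => a i) (fun i => Z (Sum.inl i))
            (fun i => Z (Sum.inl i)) = aeval (fun j => Z (Sum.inr j)) f' ∧
          aeval (fun j => Z (Sum.inr j)) f' ≠ 0}} := by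
    ext y
    show _ ↔ bl (fun i : {i : Fin (n + 1) // i ∈ I} => a i) (fun i => y i) (fun i => y i) =
      aeval (fun j : {i : Fin (n + 1) // ¬ i ∈ I} => y j) f' ∧
      aeval (fun j : {i : Fin (n + 1) // ¬ i ∈ I} => y j) f' ≠ 0
    rw [e1, e2]
    rfl
  rw [hset]
  refine FCP.reindex (CP.fcp (cp (ι := {i : Fin (n + 1) // i ∈ I}) hO (fun i => a i)
    (fun i => ha i.1 i.2) f' hdeg ?_)) _
  obtain ⟨y, hy1, hy2⟩ := hne
  refine ⟨Sum.elim (fun i => y i) (fun j => y j), ?_⟩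
  show bl (fun i : {i : Fin (n + 1) // i ∈ I} => a i) (fun i => y i) (fun i => y i) =
      aeval (fun j : {i : Fin (n + 1) // ¬ i ∈ I} => y j) f' ∧
      aeval (fun j : {i : Fin (n + 1) // ¬ i ∈ I} => y j) f' ≠ 0
  rw [e1, e2]
  exact ⟨hy1, hy2⟩

/-- the image of an irreducible set under a dominant rational map -/
theorem CP.dom {σ τ : Type} {X : Set (τ → K)} (hX : CP O X) (φ : σ → MvPolynomial τ K)
    (D : MvPolynomial τ K) {T : Set (σ → K)} (hne : T.Nonempty)
    (h1 : ∀ y ∈ X, eval y D ≠ 0 → (fun s => eval y (φ s) / eval y D) ∈ T)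
    (h2 : ∀ g : MvPolynomial σ K, (∀ y ∈ X, eval y D ≠ 0 →
      eval (fun s => eval y (φ s) / eval y D) g = 0) → ∀ x ∈ T, eval x g = 0) : CP O T := by
  obtain ⟨x0, hx0⟩ := hne
  have hD : ¬ ∀ y ∈ X, eval y D = 0 := by
    intro h
    have := h2 1 (fun y hy hy' => absurd (h y hy) hy') x0 hx0
    rw [map_one] at this
    exact one_ne_zero this
  have hcl : ∀ g : MvPolynomial σ K, ∃ (N : ℕ) (G : MvPolynomial τ K), ∀ y : τ → K,
      eval y D ≠ 0 → eval y G = (eval y D) ^ N * eval (fun i => eval y (φ i) / eval y D) g := by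
    intro g
    obtain ⟨N, G, hG⟩ := clear φ D g
    refine ⟨N, G, fun y hy => ?_⟩
    have := hG K y (by rw [aeval_eq_eval]; exact hy)
    simpa only [aeval_eq_eval] using this
  have hz : ∀ (g : MvPolynomial σ K) (N : ℕ) (G : MvPolynomial τ K), (∀ y : τ → K,
      eval y D ≠ 0 → eval y G = (eval y D) ^ N * eval (fun i => eval y (φ i) / eval y D) g) →
      (∀ y ∈ X, eval y G = 0) → ∀ x ∈ T, eval x g = 0 := by
    intro g N G hG hG0
    refine h2 g fun y hy hy' => ?_
    have := hG y hy'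
    rw [hG0 y hy] at this
    exact (mul_eq_zero.1 this.symm).resolve_left (pow_ne_zero _ hy')
  refine ⟨⟨x0, hx0⟩, ?_, ?_⟩
  · intro g h hgh
    obtain ⟨N, G, hG⟩ := hcl g
    obtain ⟨M, H, hH⟩ := hcl h
    rcases hX.irr G (H * D) (fun y hy => by
      by_cases hy' : eval y D = 0
      · right
        rw [map_mul, hy', mul_zero]
      · rcases hgh _ (h1 y hy hy') with h3 | h3
        · left
          rw [hG y hy', h3, mul_zero]
        · right
          rw [map_mul, hH y hy', h3, mul_zero, zero_mul]) with h3 | h3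
    · exact Or.inl (hz g N G hG h3)
    · right
      refine hz h M H hH ?_
      refine (hX.irr H D fun y hy => ?_).resolve_right hD
      have := h3 y hy
      rw [map_mul] at this
      exact mul_eq_zero.1 this
  · rintro p q hpq ⟨x1, hx1, hq1⟩
    obtain ⟨N, P, hP⟩ := hcl p
    obtain ⟨M, Q, hQ⟩ := hcl q
    have hQ0 : ¬ ∀ y ∈ X, eval y Q = 0 := fun h => hq1 (hz q M Q hQ h x1 hx1)
    have hQD : ¬ ∀ y ∈ X, eval y (Q * D) = 0 := by
      intro h
      rcases hX.irr Q D (fun y hy => by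
        have := h y hy
        rw [map_mul] at this
        exact mul_eq_zero.1 this) with h3 | h3
      · exact hQ0 h3
      · exact hD h3
    push Not at hQD
    obtain ⟨y1, hy1, hy1'⟩ := hQD
    rw [map_mul, mul_ne_zero_iff] at hy1'
    obtain ⟨c, hc⟩ := hX.const (P * D ^ M * D) (Q * D ^ N * D) (by
      intro y hy hy'
      rw [map_mul, map_mul, map_pow] at hy'
      have hyD : eval y D ≠ 0 := right_ne_zero_of_mul hy'
      have hyQ : eval y Q ≠ 0 := left_ne_zero_of_mul (left_ne_zero_of_mul hy')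
      have hqx : eval (fun s => eval y (φ s) / eval y D) q ≠ 0 := by
        intro h
        apply hyQ
        rw [hQ y hyD, h, mul_zero]
      have h3 := hpq _ (h1 y hy hyD) hqx
      rw [map_mul, map_mul, map_pow, map_mul, map_mul, map_pow, hP y hyD, hQ y hyD]
      have e : (eval y D ^ N * eval (fun s => eval y (φ s) / eval y D) p * eval y D ^ M *
            eval y D) /
          (eval y D ^ M * eval (fun s => eval y (φ s) / eval y D) q * eval y D ^ N *
            eval y D) =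
          eval (fun s => eval y (φ s) / eval y D) p /
            eval (fun s => eval y (φ s) / eval y D) q := by
        field_simp
      rw [e]
      exact h3) ⟨y1, hy1, by
        rw [map_mul, map_mul, map_pow]
        exact mul_ne_zero (mul_ne_zero hy1'.1 (pow_ne_zero _ hy1'.2)) hy1'.2⟩
    refine ⟨c, fun x hx => ?_⟩
    have h4 := h2 (p - C c * q) (fun y hy hy' => by
      have h5 := hc y hy
      rw [map_mul, map_mul, map_pow, map_mul, map_mul, map_pow, hP y hy', hQ y hy'] at h5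
      rw [map_sub, map_mul, eval_C]
      have h6 : eval y D ^ N * eval y D ^ M * eval y D *
          (eval (fun s => eval y (φ s) / eval y D) p -
          c * eval (fun s => eval y (φ s) / eval y D) q) = 0 := by
        linear_combination h5
      exact (mul_eq_zero.1 h6).resolve_left
        (mul_ne_zero (mul_ne_zero (pow_ne_zero _ hy') (pow_ne_zero _ hy')) hy')) x hx
    rw [map_sub, map_mul, eval_C, sub_eq_zero] at h4
    exact h4

/-- the image of a finite union of irreducible sets under a dominant rational map -/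
theorem FCP.dom {σ τ : Type} {X : Set (τ → K)} (hX : FCP O X) (φ : σ → MvPolynomial τ K)
    (D : MvPolynomial τ K) {T : Set (σ → K)}
    (h1 : ∀ y ∈ X, eval y D ≠ 0 → (fun s => eval y (φ s) / eval y D) ∈ T)
    (h2 : ∀ g : MvPolynomial σ K, (∀ y ∈ X, eval y D ≠ 0 →
      eval (fun s => eval y (φ s) / eval y D) g = 0) → ∀ x ∈ T, eval x g = 0) : FCP O T := by
  classical
  obtain ⟨𝒴, hf, hC, rfl⟩ := hX
  let TT : Set (τ → K) → Set (σ → K) := fun Y => {x | x ∈ T ∧ ∀ g : MvPolynomial σ K,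
    (∀ y ∈ Y, eval y D ≠ 0 → eval (fun s => eval y (φ s) / eval y D) g = 0) → eval x g = 0}
  refine ⟨{Z | (∃ Y ∈ 𝒴, TT Y = Z) ∧ Z.Nonempty}, (hf.image TT).subset ?_, ?_, ?_⟩
  · rintro Z ⟨⟨Y, hY, rfl⟩, -⟩
    exact ⟨Y, hY, rfl⟩
  · rintro Z ⟨⟨Y, hY, rfl⟩, hne⟩
    refine CP.dom (hC Y hY) φ D hne ?_ ?_
    · intro y hy hy'
      exact ⟨h1 y ⟨Y, hY, hy⟩ hy', fun g hg => hg y hy hy'⟩
    · intro g hg x hx
      exact hx.2 g hg
  · ext x
    constructor
    · intro hx
      by_contra hcon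
      have h3 : ∀ Y ∈ 𝒴, ∃ g : MvPolynomial σ K,
          (∀ y ∈ Y, eval y D ≠ 0 → eval (fun s => eval y (φ s) / eval y D) g = 0) ∧
          eval x g ≠ 0 := by
        intro Y hY
        by_contra h4
        push Not at h4
        exact hcon ⟨TT Y, ⟨⟨Y, hY, rfl⟩, ⟨x, hx, h4⟩⟩, hx, h4⟩
      choose! g hg1 hg2 using h3
      have h5 := h2 (∏ Y ∈ hf.toFinset, g Y) (by
        rintro y ⟨Y, hY, hy⟩ hy'
        rw [map_prod]
        exact Finset.prod_eq_zero (hf.mem_toFinset.2 hY) (hg1 Y hY y hy hy')) x hx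
      rw [map_prod, Finset.prod_eq_zero_iff] at h5
      obtain ⟨Y, hY, hY'⟩ := h5
      exact hg2 Y (hf.mem_toFinset.1 hY) hY'
    · rintro ⟨Z, ⟨⟨Y, hY, rfl⟩, -⟩, hx⟩
      exact hx.1

/-- the basic sets -/
def Bs {K : Type} [Field K] {n : ℕ} (S : Set (Fin (n + 1) → K)) : Prop :=
  S = Set.univ ∨
  (2 ≤ n ∧ ∃ F : MvPolynomial (Fin (n + 1)) K, F.IsHomogeneous 4 ∧
    (∀ y : Fin (n + 1) → AlgebraicClosure K, (∀ i, aeval y (pderiv i F) = 0) → y = 0) ∧
    S = {y | y 0 ^ 2 = eval (Function.update y 0 1) F ∧ y 0 ≠ 0}) ∨ IsWQ S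

theorem Bs.fcp (hO : Pool.Agent.TH783.CE.Flat O) (φ : K →+* ℂ) {n : ℕ}
    {S : Set (Fin (n + 1) → K)} (hS : Bs S) : FCP O S := by
  rcases hS with hS | hS | hS
  · exact Blk.fcp Pool.Agent.Y48.FQ.seq Pool.Agent.Y349.FQ.mvf Pool.Agent.Y67.FQ.line bd hO φ
      (Or.inl hS)
  · exact Blk.fcp Pool.Agent.Y48.FQ.seq Pool.Agent.Y349.FQ.mvf Pool.Agent.Y67.FQ.line bd hO φ
      (Or.inr hS)
  · exact hS.fcp hO

/-- the blocks: the sets dominated by products of basic sets -/
def Bk {K : Type} [Field K] {m : ℕ} (T : Set (Fin (m + 1) → K)) : Prop :=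
  ∃ (r : ℕ) (n : Fin r → ℕ) (S : ∀ j, Set (Fin (n j + 1) → K))
    (F : Fin (m + 1) → MvPolynomial ((j : Fin r) × Fin (n j + 1)) K)
    (D : MvPolynomial ((j : Fin r) × Fin (n j + 1)) K), (∀ j, Bs (S j)) ∧
    (∀ x : (j : Fin r) × Fin (n j + 1) → K, (∀ j, (fun i => x ⟨j, i⟩) ∈ S j) →
      eval x D ≠ 0 → (fun i => eval x (F i) / eval x D) ∈ T) ∧
    ∀ g : MvPolynomial (Fin (m + 1)) K,
      (∀ x : (j : Fin r) × Fin (n j + 1) → K, (∀ j, (fun i => x ⟨j, i⟩) ∈ S j) →
        eval x D ≠ 0 → eval (fun i => eval x (F i) / eval x D) g = 0) →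
      ∀ y ∈ T, eval y g = 0

theorem Bk.fcp (hO : Pool.Agent.TH783.CE.Flat O) (φ : K →+* ℂ) {n : ℕ}
    {S : Set (Fin (n + 1) → K)} (hS : Bk S) : FCP O S := by
  obtain ⟨r, n, S, F, D, hS, h1, h2⟩ := hS
  exact FCP.dom (FCP.pi Pool.Agent.Y394.FQ.pi fun j => (hS j).fcp hO φ) F D h1 h2

/-- **The set of the values of a rational function at the points of a product of blocks is finite if
it is contained in a flat set.** -/
theorem fin_vals (hO : Pool.Agent.TH783.CE.Flat O) (φ : K →+* ℂ) {b : ℕ} {n : Fin b → ℕ}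
    {S : ∀ j, Set (Fin (n j + 1) → K)} (hS : ∀ j, Bk (S j))
    (p q : MvPolynomial ((j : Fin b) × Fin (n j + 1)) K)
    (h : ∀ t, (∃ x : (j : Fin b) × Fin (n j + 1) → K, (∀ j, (fun r => x ⟨j, r⟩) ∈ S j) ∧
      eval x q ≠ 0 ∧ t = eval x p / eval x q) → t ∈ O) :
    {t | ∃ x : (j : Fin b) × Fin (n j + 1) → K, (∀ j, (fun r => x ⟨j, r⟩) ∈ S j) ∧
      eval x q ≠ 0 ∧ t = eval x p / eval x q}.Finite :=
  (FCP.pi Pool.Agent.Y394.FQ.pi fun j => (hS j).fcp hO φ).values p q
    fun x hx hq => h _ ⟨x, hx, hq, rfl⟩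

end Pool.Agent.X95T.WQ
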