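import Pool.Agent.X95T.KA5

/-!
# Cubic hypersurfaces: plane-like singular cubics
-/

set_option autoImplicit false
set_option linter.unusedSectionVars false

open MvPolynomial Pool.Agent.Y718.FQ

namespace Pool.Agent.X95T.CH

open Pool.Agent.X95T.WQ

variable {K : Type} [Field K] [CharZero K] {σ : Type} [Fintype σ]

/-- evaluation of the generic line -/
lemma tay_ev (ψ : MvPolynomial σ K) (x v : σ → K) (s : K) :
    ((tay ψ x).map (eval v)).eval s = eval (fun j => x j + s * v j) ψ := by
  have h := tay_map (k := K) ψ x v s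
  have e : (aeval v : MvPolynomial σ K →ₐ[K] K).toRingHom = eval v := by
    ext <;> simp
  rw [e] at h
  rw [h, aeval_eq_eval]
  rfl

lemma tay_mul (p q : MvPolynomial σ K) (x : σ → K) : tay (p * q) x = tay p x * tay q x := by
  unfold tay
  exact map_mul _ _ _

lemma tay_add (p q : MvPolynomial σ K) (x : σ → K) : tay (p + q) x = tay p x + tay q x := by
  unfold tay
  exact map_add _ _ _

lemma tay_C (c : K) (x : σ → K) : tay (C c : MvPolynomial σ K) x = Polynomial.C (C c) := by
  unfold tay
  rw [aeval_C]
  rfl

lemma tay_X (j : σ) (x : σ → K) : tay (X j : MvPolynomial σ K) x =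
    Polynomial.C (C (x j)) + Polynomial.C (X j) * Polynomial.X := by
  unfold tay
  rw [aeval_X]

lemma tc_zero' (φ : MvPolynomial σ K) (x : σ → K) : tc φ x 0 = C (eval x φ) := by
  unfold tc
  induction φ using MvPolynomial.induction_on with
  | C c => rw [tay_C, eval_C, Polynomial.coeff_C_zero]
  | add p q hp hq => rw [tay_add, Polynomial.coeff_add, hp, hq, map_add, map_add]
  | mul_X p j hp =>
    rw [tay_mul, Polynomial.mul_coeff_zero, hp, tay_X, map_mul, map_mul, eval_X]
    simp

lemma tc_one (φ : MvPolynomial σ K) (x : σ → K) :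
    tc φ x 1 = ∑ i, C (eval x (pderiv i φ)) * X i := by
  classical
  unfold tc
  induction φ using MvPolynomial.induction_on with
  | C c =>
    rw [tay_C, Polynomial.coeff_C]
    simp
  | add p q hp hq =>
    rw [tay_add, Polynomial.coeff_add, hp, hq, ← Finset.sum_add_distrib]
    exact Finset.sum_congr rfl fun i _ => by rw [map_add, map_add, map_add, add_mul]
  | mul_X p j hp =>
    have h1 : (tay (p * X j) x).coeff 1 = (tay p x).coeff 1 * C (x j) +
        (tay p x).coeff 0 * X j := by
      rw [tay_mul, tay_X, mul_add, Polynomial.coeff_add, Polynomial.coeff_mul_C,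
        ← mul_assoc, Polynomial.coeff_mul_X, Polynomial.coeff_mul_C]
    have h2 : (tay p x).coeff 0 = C (eval x p) := tc_zero' p x
    rw [h1, hp, h2, Finset.sum_mul]
    have h3 : C (eval x p) * X j = ∑ i, C (eval x p * (Pi.single j (1 : K) : σ → K) i) *
        (X i : MvPolynomial σ K) := by
      rw [Finset.sum_eq_single j]
      · simp
      · intro b _ hb
        rw [Pi.single_eq_of_ne hb]
        simp
      · simp
    rw [h3, ← Finset.sum_add_distrib]
    refine Finset.sum_congr rfl fun i _ => ?_
    rw [Derivation.leibniz, pderiv_X, map_add, smul_eq_mul, smul_eq_mul, map_mul (eval x) p,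
      map_mul (eval x) (X j), eval_X]
    have h4 : eval x ((Pi.single i (1 : MvPolynomial σ K) : σ → MvPolynomial σ K) j) =
        (Pi.single j (1 : K) : σ → K) i := by
      by_cases hij : i = j
      · subst hij
        simp
      · rw [Pi.single_eq_of_ne (Ne.symm hij), Pi.single_eq_of_ne hij, map_zero]
    rw [h4, map_add, map_mul, map_mul]
    ring

/-- the Taylor expansion at a singular point of a cubic -/
lemma tay_cub (φ : MvPolynomial σ K) (x : σ → K) (hd : φ.totalDegree ≤ 3) (h0 : eval x φ = 0)
    (h1 : ∀ i, eval x (pderiv i φ) = 0) : tay φ x =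
      Polynomial.C (tc φ x 2) * Polynomial.X ^ 2 + Polynomial.C (tc φ x 3) * Polynomial.X ^ 3 := by
  have hdeg : (tay φ x).natDegree < 4 := lt_of_le_of_lt ((tay_deg φ x).trans hd) (by norm_num)
  have e0 : (tay φ x).coeff 0 = 0 := by
    have := tc_zero' φ x
    rw [h0, map_zero] at this
    exact this
  have e1 : (tay φ x).coeff 1 = 0 := by
    have := tc_one φ x
    rw [Finset.sum_eq_zero fun i _ => by rw [h1 i, map_zero, zero_mul]] at this
    exact this
  conv_lhs => rw [Polynomial.as_sum_range_C_mul_X_pow' _ hdeg]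
  simp only [Finset.sum_range_succ, Finset.sum_range_zero, e0, e1]
  simp [tc]

lemma tc_smul (φ : MvPolynomial σ K) (x v : σ → K) (s : K) (k : ℕ) :
    eval (fun i => s * v i) (tc φ x k) = s ^ k * eval v (tc φ x k) := by
  have h1 : (tay φ x).map (eval fun i => s * v i) =
      ((tay φ x).map (eval v)).comp (Polynomial.C s * Polynomial.X) := by
    apply Polynomial.funext
    intro t
    rw [tay_ev, Polynomial.eval_comp, Polynomial.eval_mul, Polynomial.eval_C, Polynomial.eval_X,
      tay_ev]
    have e : (fun j => x j + t * (s * v j)) = fun j => x j + s * t * v j := by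
      funext j
      ring
    rw [e]
  have h2 := congrArg (fun p => Polynomial.coeff p k) h1
  simp only [Polynomial.coeff_map, Polynomial.comp_C_mul_X_coeff] at h2
  unfold tc
  rw [h2]
  ring

/-- translation -/
noncomputable def tr (x : σ → K) : MvPolynomial σ K →ₐ[K] MvPolynomial σ K :=
  aeval fun i => X i + C (x i)

lemma tay_one (ψ : MvPolynomial σ K) (x : σ → K) : (tay ψ x).eval 1 = tr x ψ := by
  induction ψ using MvPolynomial.induction_on with
  | C c =>
    rw [tay_C, Polynomial.eval_C]
    exact ((tr x).commutes c).symm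
  | add p q hp hq => rw [tay_add, Polynomial.eval_add, hp, hq, map_add]
  | mul_X p j hp =>
    rw [tay_mul, Polynomial.eval_mul, hp, map_mul, tay_X]
    congr 1
    unfold tr
    rw [aeval_X]
    simp
    ring

lemma tr_neg (ψ : MvPolynomial σ K) (x : σ → K) : tr (fun i => -x i) (tr x ψ) = ψ := by
  induction ψ using MvPolynomial.induction_on with
  | C c =>
    have h1 : ∀ y : σ → K, tr y (C c) = C c := fun y => (tr y).commutes c
    rw [h1, h1]
  | add p q hp hq => rw [map_add, map_add, hp, hq]
  | mul_X p j hp =>
    rw [map_mul, map_mul, hp]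
    congr 1
    unfold tr
    rw [aeval_X, map_add, aeval_X]
    have : aeval (fun i => X i + C (-x i)) (C (x j) : MvPolynomial σ K) =
        (C (x j) : MvPolynomial σ K) := aeval_C _ _
    rw [this, map_neg]
    ring

/-- pseudodivision by a linear polynomial -/
lemma pseudo {R : Type} [CommRing R] (a b : R) (P : Polynomial R) : ∃ (N : ℕ) (Q : Polynomial R)
    (r : R), Polynomial.C (a ^ N) * P =
      (Polynomial.C a * Polynomial.X + Polynomial.C b) * Q + Polynomial.C r := by
  induction P using Polynomial.induction_on with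
  | C c => exact ⟨0, 0, c, by simp⟩
  | add p q hp hq =>
    obtain ⟨N, Q, r, h⟩ := hp
    obtain ⟨M, Q', r', h'⟩ := hq
    refine ⟨N + M, Polynomial.C (a ^ M) * Q + Polynomial.C (a ^ N) * Q', a ^ M * r + a ^ N * r', ?_⟩
    rw [pow_add, map_mul, map_add, map_mul, map_mul]
    linear_combination Polynomial.C (a ^ M) * h + Polynomial.C (a ^ N) * h'
  | monomial n c h =>
    obtain ⟨N, Q, r, h⟩ := h
    refine ⟨N + 1, Polynomial.C a * Polynomial.X * Q + Polynomial.C r, -(b * r), ?_⟩
    rw [pow_succ, map_mul, map_neg, map_mul, pow_succ]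
    linear_combination Polynomial.C a * Polynomial.X * h

/-- **Polynomials vanishing on a singular cubic.** -/
theorem A_dvd {φ : MvPolynomial σ K} {x : σ → K} {H C3 : MvPolynomial σ K}
    (hφ : tay φ x = Polynomial.C H * Polynomial.X ^ 2 + Polynomial.C C3 * Polynomial.X ^ 3)
    (hC : C3 ≠ 0) (hr : IsRelPrime C3 H) {ψ : MvPolynomial σ K}
    (hψ : ∀ v : σ → K, eval v C3 ≠ 0 →
      eval (fun i => x i - eval v H / eval v C3 * v i) ψ = 0) : φ ∣ ψ := by
  obtain ⟨N, Q, r, h⟩ := pseudo C3 H (tay ψ x)
  have hr0 : r = 0 := by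
    have h1 : r * C3 = 0 := by
      apply MvPolynomial.funext
      intro v
      rw [map_zero, map_mul]
      by_cases hv : eval v C3 = 0
      · rw [hv, mul_zero]
      · have h2 := congrArg (fun P => ((P.map (eval v)).eval (-(eval v H / eval v C3)))) h
        simp only [Polynomial.map_mul, Polynomial.map_add, Polynomial.map_C, Polynomial.map_X,
          Polynomial.eval_mul, Polynomial.eval_add, Polynomial.eval_C, Polynomial.eval_X] at h2
        rw [tay_ev] at h2
        have h3 : (fun j => x j + -(eval v H / eval v C3) * v j) =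
            fun i => x i - eval v H / eval v C3 * v i := by
          funext i
          ring
        rw [h3, hψ v hv, mul_zero] at h2
        have h4 : eval v C3 * -(eval v H / eval v C3) + eval v H = 0 := by
          field_simp
          ring
        rw [h4, zero_mul, zero_add] at h2
        rw [← h2, zero_mul]
    exact (mul_eq_zero.1 h1).resolve_right hC
  rw [hr0, map_zero, add_zero] at h
  have hirr := Polynomial.irreducible_C_mul_X_add_C hC hr
  have hdvd : (Polynomial.C C3 * Polynomial.X + Polynomial.C H) ∣
      Polynomial.C (C3 ^ N) * tay ψ x := ⟨Q, h⟩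
  rcases hirr.prime.dvd_or_dvd hdvd with h1 | h1
  · exfalso
    have h2 := Polynomial.natDegree_le_of_dvd h1 (by
      rw [Ne, Polynomial.C_eq_zero]
      exact pow_ne_zero _ hC)
    rw [Polynomial.natDegree_C, Polynomial.natDegree_linear hC] at h2
    omega
  · obtain ⟨W, hW⟩ := h1
    have h2 := congrArg (Polynomial.eval 1) hW
    have h3 := congrArg (Polynomial.eval 1) hφ
    rw [tay_one] at h2 h3
    simp only [Polynomial.eval_mul, Polynomial.eval_add, Polynomial.eval_C, Polynomial.eval_X,
      Polynomial.eval_pow, one_pow, mul_one] at h2 h3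
    have h4 : tr x φ ∣ tr x ψ := ⟨W.eval 1, by rw [h2, h3, add_comm C3 H]⟩
    have h5 := map_dvd (tr fun i => -x i) h4
    rwa [tr_neg, tr_neg] at h5

end Pool.Agent.X95T.CH
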