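import Pool.Agent.X95T.LA1

/-!
# Cubic hypersurfaces: coprime binary forms
-/

set_option autoImplicit false
set_option linter.unusedSectionVars false

open MvPolynomial Pool.Agent.Y718.FQ

namespace Pool.Agent.X95T.CH

open Pool.Agent.X95T.WQ

variable {K : Type} [Field K] [CharZero K] {σ : Type} [Fintype σ]

lemma tc_hom (φ : MvPolynomial σ K) (x : σ → K) : ∀ k, (tc φ x k).IsHomogeneous k := by
  unfold tc
  induction φ using MvPolynomial.induction_on with
  | C c =>
    intro k
    rw [tay_C, Polynomial.coeff_C]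
    split_ifs with hk
    · rw [hk]
      exact isHomogeneous_C _ _
    · exact isHomogeneous_zero _ _ _
  | add p q hp hq =>
    intro k
    rw [tay_add, Polynomial.coeff_add]
    exact (hp k).add (hq k)
  | mul_X p j hp =>
    intro k
    rw [tay_mul, tay_X, mul_add, Polynomial.coeff_add, Polynomial.coeff_mul_C]
    refine IsHomogeneous.add ?_ ?_
    · have := (hp k).mul (isHomogeneous_C σ (x j))
      simpa using this
    · rw [← mul_assoc]
      cases k with
      | zero =>
        rw [Polynomial.mul_coeff_zero]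
        simpa using isHomogeneous_zero σ K 0
      | succ k =>
        rw [Polynomial.coeff_mul_X, Polynomial.coeff_mul_C]
        exact (hp k).mul (isHomogeneous_X K j)

lemma monom {S : Type} [CommRing S] [IsDomain S] {A B : Polynomial S} {a : S} {n : ℕ}
    (ha : a ≠ 0) (h : A * B = Polynomial.C a * Polynomial.X ^ n) :
    ∃ (b : S) (m : ℕ), A = Polynomial.C b * Polynomial.X ^ m := by
  have hne : Polynomial.C a * Polynomial.X ^ n ≠ (0 : Polynomial S) :=
    mul_ne_zero (by rwa [Ne, Polynomial.C_eq_zero]) (pow_ne_zero _ Polynomial.X_ne_zero)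
  have hA : A ≠ 0 := by
    rintro rfl
    rw [zero_mul] at h
    exact hne h.symm
  have hB : B ≠ 0 := by
    rintro rfl
    rw [mul_zero] at h
    exact hne h.symm
  have h1 := Polynomial.natDegree_mul hA hB
  have h2 := Polynomial.natTrailingDegree_mul hA hB
  have h5 : (Polynomial.C a * Polynomial.X ^ n : Polynomial S) = Polynomial.monomial n a :=
    Polynomial.C_mul_X_pow_eq_monomial
  rw [h, h5] at h1 h2
  rw [Polynomial.natDegree_monomial_eq _ ha] at h1
  rw [Polynomial.natTrailingDegree_monomial ha] at h2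
  have h3 := Polynomial.natTrailingDegree_le_natDegree A
  have h4 := Polynomial.natTrailingDegree_le_natDegree B
  have h6 : A.natTrailingDegree = A.natDegree := by omega
  refine ⟨A.leadingCoeff, A.natDegree, ?_⟩
  ext k
  rw [Polynomial.coeff_C_mul_X_pow]
  split_ifs with hk
  · rw [hk]
    rfl
  · rcases lt_or_gt_of_ne hk with h7 | h7
    · exact Polynomial.coeff_eq_zero_of_lt_natTrailingDegree (by omega)
    · exact Polynomial.coeff_eq_zero_of_natDegree_lt h7

/-- restriction to a line -/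
noncomputable def rl (e1 e2 : σ → K) (G : MvPolynomial σ K) : Polynomial K :=
  (tay G e2).map (eval e1)

lemma rl_ev (e1 e2 : σ → K) (G : MvPolynomial σ K) (t : K) :
    (rl e1 e2 G).eval t = eval (fun j => e2 j + t * e1 j) G := tay_ev _ _ _ _

lemma rl_mul (e1 e2 : σ → K) (G G' : MvPolynomial σ K) :
    rl e1 e2 (G * G') = rl e1 e2 G * rl e1 e2 G' := by
  unfold rl
  rw [tay_mul, Polynomial.map_mul]

lemma hom_smul {G : MvPolynomial σ K} {k : ℕ} (hG : G.IsHomogeneous k) (v : σ → K) (s : K) :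
    eval (fun i => s * v i) G = s ^ k * eval v G := by
  rw [eval_eq, eval_eq, Finset.mul_sum]
  refine Finset.sum_congr rfl fun d hd => ?_
  have h1 : ∑ i ∈ d.support, d i = k := by
    have := hG (mem_support_iff.1 hd)
    simpa [Finsupp.weight_apply, Finsupp.sum] using this
  rw [← h1, ← Finset.prod_pow_eq_pow_sum]
  have h2 : ∏ i ∈ d.support, (s * v i) ^ d i =
      (∏ i ∈ d.support, s ^ d i) * ∏ i ∈ d.support, v i ^ d i := by
    rw [← Finset.prod_mul_distrib]
    exact Finset.prod_congr rfl fun i _ => mul_pow _ _ _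
  rw [h2]
  ring

lemma rl_two {G : MvPolynomial σ K} (hG : G.IsHomogeneous 2) (e1 e2 : σ → K) :
    rl e1 e2 G = Polynomial.C (eval e1 G) * Polynomial.X ^ 2 +
      Polynomial.C (eval (fun i => e2 i + e1 i) G - eval e1 G - eval e2 G) * Polynomial.X +
      Polynomial.C (eval e2 G) := by
  have key : ∀ u w : σ → K, ∃ k0 k1 k2 : K, rl u w G = Polynomial.C k2 * Polynomial.X ^ 2 +
      Polynomial.C k1 * Polynomial.X + Polynomial.C k0 ∧ k0 = eval w G := by
    intro u w
    have hd : (rl u w G).natDegree < 3 := lt_of_le_of_lt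
      (Polynomial.natDegree_map_le.trans ((tay_deg G w).trans hG.totalDegree_le)) (by norm_num)
    refine ⟨(rl u w G).coeff 0, (rl u w G).coeff 1, (rl u w G).coeff 2, ?_, ?_⟩
    · conv_lhs => rw [Polynomial.as_sum_range_C_mul_X_pow' _ hd]
      simp only [Finset.sum_range_succ, Finset.sum_range_zero]
      ring
    · rw [Polynomial.coeff_zero_eq_eval_zero, rl_ev]
      simp
  obtain ⟨k0, k1, k2, h1, h2⟩ := key e1 e2
  obtain ⟨l0, l1, l2, h3, h4⟩ := key e2 e1
  have hF : ∀ t : K, eval (fun j => e2 j + t * e1 j) G = k2 * t ^ 2 + k1 * t + k0 := by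
    intro t
    rw [← rl_ev, h1]
    simp
  have hF' : ∀ t : K, eval (fun j => e1 j + t * e2 j) G = l2 * t ^ 2 + l1 * t + l0 := by
    intro t
    rw [← rl_ev, h3]
    simp
  have hs : ∀ t : K, t ≠ 0 → k2 * t ^ 2 + k1 * t + k0 = t ^ 2 * (l2 * t⁻¹ ^ 2 + l1 * t⁻¹ + l0) := by
    intro t ht
    rw [← hF, ← hF', ← hom_smul hG]
    congr 2
    funext j
    field_simp
    ring
  have e1' := hs 1 one_ne_zero
  have e2' := hs (-1) (by norm_num)
  have e3' := hs 2 two_ne_zero
  have hk2 : k2 = l0 := by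
    have e4 : (2 : K) ^ 2 * (l2 * (2 : K)⁻¹ ^ 2 + l1 * (2 : K)⁻¹ + l0) = l2 + 2 * l1 + 4 * l0 := by
      field_simp
      ring
    rw [e4] at e3'
    have e5 : ((-1 : K))⁻¹ = -1 := by norm_num
    rw [e5] at e2'
    rw [inv_one] at e1'
    have : (3 : K) * k2 = 3 * l0 := by
      linear_combination e3' - 3 / 2 * e1' + 1 / 2 * e2'
    exact mul_left_cancel₀ (by norm_num) this
  have hk1 : k1 = eval (fun i => e2 i + e1 i) G - k2 - k0 := by
    have := hF 1
    simp only [one_mul] at this
    rw [this]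
    ring
  rw [h1, hk1, h2, hk2, h4]

lemma rl_three {G : MvPolynomial σ K} (hG : G.IsHomogeneous 3) (e1 e2 : σ → K) :
    rl e1 e2 G = Polynomial.C (eval e1 G) * Polynomial.X ^ 3 +
      Polynomial.C ((eval (fun i => e2 i + e1 i) G + eval (fun i => e2 i - e1 i) G) / 2 -
        eval e2 G) * Polynomial.X ^ 2 +
      Polynomial.C ((eval (fun i => e2 i + e1 i) G - eval (fun i => e2 i - e1 i) G) / 2 -
        eval e1 G) * Polynomial.X +
      Polynomial.C (eval e2 G) := by
  have key : ∀ u w : σ → K, ∃ k0 k1 k2 k3 : K, rl u w G = Polynomial.C k3 * Polynomial.X ^ 3 +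
      Polynomial.C k2 * Polynomial.X ^ 2 +
      Polynomial.C k1 * Polynomial.X + Polynomial.C k0 ∧ k0 = eval w G := by
    intro u w
    have hd : (rl u w G).natDegree < 4 := lt_of_le_of_lt
      (Polynomial.natDegree_map_le.trans ((tay_deg G w).trans hG.totalDegree_le)) (by norm_num)
    refine ⟨(rl u w G).coeff 0, (rl u w G).coeff 1, (rl u w G).coeff 2, (rl u w G).coeff 3, ?_, ?_⟩
    · conv_lhs => rw [Polynomial.as_sum_range_C_mul_X_pow' _ hd]
      simp only [Finset.sum_range_succ, Finset.sum_range_zero]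
      ring
    · rw [Polynomial.coeff_zero_eq_eval_zero, rl_ev]
      simp
  obtain ⟨k0, k1, k2, k3, h1, h2⟩ := key e1 e2
  obtain ⟨l0, l1, l2, l3, h3, h4⟩ := key e2 e1
  have hF : ∀ t : K, eval (fun j => e2 j + t * e1 j) G =
      k3 * t ^ 3 + k2 * t ^ 2 + k1 * t + k0 := by
    intro t
    rw [← rl_ev, h1]
    simp
  have hF' : ∀ t : K, eval (fun j => e1 j + t * e2 j) G =
      l3 * t ^ 3 + l2 * t ^ 2 + l1 * t + l0 := by
    intro t
    rw [← rl_ev, h3]
    simp
  have hs : ∀ t : K, t ≠ 0 → k3 * t ^ 3 + k2 * t ^ 2 + k1 * t + k0 =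
      t ^ 3 * (l3 * t⁻¹ ^ 3 + l2 * t⁻¹ ^ 2 + l1 * t⁻¹ + l0) := by
    intro t ht
    rw [← hF, ← hF', ← hom_smul hG]
    congr 2
    funext j
    field_simp
    ring
  have e1' := hs 1 one_ne_zero
  have e2' := hs (-1) (by norm_num)
  have e3' := hs 2 two_ne_zero
  have e4' := hs (-2) (by norm_num)
  have hk3 : k3 = l0 := by
    have e4 : (2 : K) ^ 3 * (l3 * (2 : K)⁻¹ ^ 3 + l2 * (2 : K)⁻¹ ^ 2 + l1 * (2 : K)⁻¹ + l0) =
        l3 + 2 * l2 + 4 * l1 + 8 * l0 := by
      field_simp
      ring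
    have e4'' : (-2 : K) ^ 3 * (l3 * (-2 : K)⁻¹ ^ 3 + l2 * (-2 : K)⁻¹ ^ 2 + l1 * (-2 : K)⁻¹ + l0) =
        l3 - 2 * l2 + 4 * l1 - 8 * l0 := by
      field_simp
      ring
    rw [e4] at e3'
    rw [e4''] at e4'
    have e5 : ((-1 : K))⁻¹ = -1 := by norm_num
    rw [e5] at e2'
    rw [inv_one] at e1'
    have : (6 : K) * k3 = 6 * l0 := by
      linear_combination 1 / 2 * (e3' - e4') - (e1' - e2')
    exact mul_left_cancel₀ (by norm_num) this
  have f1 := hF 1
  have f2 := hF (-1)
  have g1 : (fun j => e2 j + 1 * e1 j) = fun i => e2 i + e1 i := by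
    funext i
    ring
  have g2 : (fun j => e2 j + -1 * e1 j) = fun i => e2 i - e1 i := by
    funext i
    ring
  rw [g1] at f1
  rw [g2] at f2
  have hk2 : k2 = (eval (fun i => e2 i + e1 i) G + eval (fun i => e2 i - e1 i) G) / 2 - k0 := by
    rw [f1, f2]
    ring
  have hk1 : k1 = (eval (fun i => e2 i + e1 i) G - eval (fun i => e2 i - e1 i) G) / 2 - k3 := by
    rw [f1, f2]
    ring
  rw [h1, hk2, hk1, h2, hk3, h4]

/-- first coefficient of the remainder -/
def al {S : Type} [CommRing S] (h2 h1 h0 c3 c2 c1 : S) : S :=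
  h2 ^ 2 * c1 - h2 * h1 * c2 - h2 * h0 * c3 + h1 ^ 2 * c3

/-- second coefficient of the remainder -/
def be {S : Type} [CommRing S] (h2 h1 h0 c3 c2 c0 : S) : S :=
  h2 ^ 2 * c0 - h2 * h0 * c2 + h0 * h1 * c3

/-- the resultant, up to a factor -/
def rs {S : Type} [CommRing S] (h2 h1 h0 c3 c2 c1 c0 : S) : S :=
  (al h2 h1 h0 c3 c2 c1) ^ 2 * h0 - al h2 h1 h0 c3 c2 c1 * be h2 h1 h0 c3 c2 c0 * h1 +
    (be h2 h1 h0 c3 c2 c0) ^ 2 * h2

lemma rs_bezout {S : Type} [CommRing S] (h2 h1 h0 c3 c2 c1 c0 : S) (T : S) :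
    rs h2 h1 h0 c3 c2 c1 c0 =
      (h2 * T ^ 2 + h1 * T + h0) * ((al h2 h1 h0 c3 c2 c1) ^ 2 +
        (h2 * c3 * T + h2 * c2 - c3 * h1) * (al h2 h1 h0 c3 c2 c1 * h2 * T +
          al h2 h1 h0 c3 c2 c1 * h1 - be h2 h1 h0 c3 c2 c0 * h2)) -
      (c3 * T ^ 3 + c2 * T ^ 2 + c1 * T + c0) * (h2 ^ 2 * (al h2 h1 h0 c3 c2 c1 * h2 * T +
          al h2 h1 h0 c3 c2 c1 * h1 - be h2 h1 h0 c3 c2 c0 * h2)) := by
  unfold rs al be
  ring

/-- coprime forms from coprime restrictions -/
theorem relprime {H G : MvPolynomial σ K} (hH : H.IsHomogeneous 2) {e1 e2 : σ → K}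
    (hHe : eval e1 H ≠ 0) {A B : Polynomial K} {r : K} (hr : r ≠ 0)
    (hb : rl e1 e2 H * A + rl e1 e2 G * B = Polynomial.C r) : IsRelPrime G H := by
  intro d hdG hdH
  have hH0 : H ≠ 0 := by
    rintro rfl
    exact hHe (map_zero _)
  obtain ⟨d', hd'⟩ := hdH
  have hd0 : d ≠ 0 := by
    rintro rfl
    exact hH0 (by rw [hd', zero_mul])
  -- homogeneity of the divisor
  have htH : tay H (fun _ => 0) = Polynomial.C H * Polynomial.X ^ 2 := by
    apply Polynomial.ext
    intro n
    apply MvPolynomial.funext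
    intro v
    have h1 : (tay H (fun _ => (0 : K))).map (eval v) =
        (Polynomial.C H * Polynomial.X ^ 2 : Polynomial (MvPolynomial σ K)).map (eval v) := by
      apply Polynomial.funext
      intro s
      rw [tay_ev]
      simp only [Polynomial.map_mul, Polynomial.map_C, Polynomial.map_pow, Polynomial.map_X,
        Polynomial.eval_mul, Polynomial.eval_C, Polynomial.eval_pow, Polynomial.eval_X, zero_add]
      rw [hom_smul hH]
      ring
    have h2 := congrArg (fun p => Polynomial.coeff p n) h1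
    simp only [Polynomial.coeff_map] at h2
    exact h2
  obtain ⟨a, δ, ha⟩ := monom hH0 (by rw [← htH, hd', tay_mul] :
    tay d (fun _ => 0) * tay d' (fun _ => 0) = Polynomial.C H * Polynomial.X ^ 2)
  have hdsm : ∀ (v : σ → K) (s : K), eval (fun i => s * v i) d = s ^ δ * eval v a := by
    intro v s
    have h1 := tay_ev d (fun _ => 0) v s
    rw [ha] at h1
    simp only [Polynomial.map_mul, Polynomial.map_C, Polynomial.map_pow, Polynomial.map_X,
      Polynomial.eval_mul, Polynomial.eval_C, Polynomial.eval_pow, Polynomial.eval_X,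
      zero_add] at h1
    rw [← h1]
    ring
  have hda : ∀ v : σ → K, eval v d = eval v a := by
    intro v
    have := hdsm v 1
    simpa using this
  have hds : rl e1 e2 d ∣ Polynomial.C r := by
    obtain ⟨d'', hd''⟩ := hdG
    rw [← hb, hd', hd'', rl_mul, rl_mul]
    exact dvd_add ((Dvd.intro _ rfl).mul_right _) ((Dvd.intro _ rfl).mul_right _)
  have hdeg : (rl e1 e2 d).natDegree = 0 := by
    have := Polynomial.natDegree_le_of_dvd hds (by rwa [Ne, Polynomial.C_eq_zero])
    rw [Polynomial.natDegree_C] at this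
    omega
  obtain ⟨κ, hκ⟩ := Polynomial.natDegree_eq_zero.1 hdeg
  rcases Nat.eq_zero_or_pos δ with hδ | hδ
  · have h1 : d = C (eval (fun _ => (0 : K)) d) := by
      apply MvPolynomial.funext
      intro v
      rw [eval_C, hda]
      have := hdsm v 0
      rw [hδ, pow_zero, one_mul] at this
      rw [← this]
      congr 2
      funext i
      ring
    rw [h1]
    refine (isUnit_iff_ne_zero.2 ?_ : IsUnit (eval (fun _ => (0 : K)) d)).map (C : K →+* _)
    intro h2
    rw [h2, map_zero] at h1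
    exact hd0 h1
  · exfalso
    apply hHe
    have h2 : ∀ t : K, t ≠ 0 → (rl e2 e1 d).eval t = κ * t ^ δ := by
      intro t ht
      have h3 := rl_ev e1 e2 d t⁻¹
      rw [← hκ, Polynomial.eval_C] at h3
      rw [rl_ev, h3, hda fun j => e2 j + t⁻¹ * e1 j, mul_comm, ← hdsm]
      congr 2
      funext j
      field_simp
      ring
    have h3 : rl e2 e1 d * Polynomial.X = Polynomial.C κ * Polynomial.X ^ δ * Polynomial.X := by
      apply Polynomial.funext
      intro t
      simp only [Polynomial.eval_mul, Polynomial.eval_C, Polynomial.eval_X, Polynomial.eval_pow]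
      by_cases ht : t = 0
      · rw [ht]
        ring
      · rw [h2 t ht]
    have h4 := mul_right_cancel₀ Polynomial.X_ne_zero h3
    have h5 := congrArg (Polynomial.eval 0) h4
    rw [rl_ev] at h5
    simp only [zero_mul, add_zero, Polynomial.eval_mul, Polynomial.eval_C, Polynomial.eval_X,
      Polynomial.eval_pow, zero_pow hδ.ne', mul_zero] at h5
    rw [hd', map_mul, h5, zero_mul]

end Pool.Agent.X95T.CH
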