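import Pool.Agent.X95T.LA2

/-!
# Cubic hypersurfaces: singular cubics
-/

set_option autoImplicit false
set_option linter.unusedSectionVars false

open MvPolynomial Pool.Agent.Y718.FQ

namespace Pool.Agent.X95T.CH

open Pool.Agent.X95T.WQ

variable {K : Type} [Field K] [CharZero K] {σ : Type} [Fintype σ] {O : Set K}

/-- a cubic with a double point at `x` and coprime forms -/
structure Sg (φ : MvPolynomial σ K) (x : σ → K) : Prop where
  deg : φ.totalDegree ≤ 3
  zero : eval x φ = 0
  pd : ∀ i, eval x (pderiv i φ) = 0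
  ne : tc φ x 3 ≠ 0
  rp : IsRelPrime (tc φ x 3) (tc φ x 2)

namespace Sg

variable {φ : MvPolynomial σ K} {x : σ → K} (h : Sg φ x)

include h

lemma tay_eq : tay φ x =
    Polynomial.C (tc φ x 2) * Polynomial.X ^ 2 + Polynomial.C (tc φ x 3) * Polynomial.X ^ 3 :=
  tay_cub φ x h.deg h.zero h.pd

lemma ev (v : σ → K) : eval (fun j => x j + v j) φ = eval v (tc φ x 2) + eval v (tc φ x 3) := by
  have h1 := tay_ev φ x v 1
  rw [h.tay_eq] at h1
  simp only [Polynomial.map_add, Polynomial.map_mul, Polynomial.map_C, Polynomial.map_pow,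
    Polynomial.map_X, Polynomial.eval_mul, Polynomial.eval_add, Polynomial.eval_C,
    Polynomial.eval_pow, Polynomial.eval_X, one_pow, mul_one, one_mul] at h1
  exact h1.symm

/-- the points of the parametrization are on the cubic -/
lemma on (v : σ → K) (hv : eval v (tc φ x 3) ≠ 0) :
    eval (fun i => x i - eval v (tc φ x 2) / eval v (tc φ x 3) * v i) φ = 0 := by
  have h1 := tay_ev φ x v (-(eval v (tc φ x 2) / eval v (tc φ x 3)))
  have e : (fun j => x j + -(eval v (tc φ x 2) / eval v (tc φ x 3)) * v j) =
      fun i => x i - eval v (tc φ x 2) / eval v (tc φ x 3) * v i := by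
    funext i
    ring
  rw [e, h.tay_eq] at h1
  rw [← h1]
  simp only [Polynomial.map_add, Polynomial.map_mul, Polynomial.map_C, Polynomial.map_pow,
    Polynomial.map_X, Polynomial.eval_mul, Polynomial.eval_add, Polynomial.eval_C,
    Polynomial.eval_pow, Polynomial.eval_X]
  field_simp
  ring

/-- density of the zeros with coordinates in `K` -/
lemma dvd {ψ : MvPolynomial σ K} (hψ : ∀ y : σ → K, eval y φ = 0 → eval y ψ = 0) : φ ∣ ψ :=
  A_dvd h.tay_eq h.ne h.rp fun v hv => hψ _ (h.on v hv)

/-- **the zeros of a singular cubic** -/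
theorem cp (hO : Pool.Agent.TH783.CE.Flat O) : CP O {y : σ → K | eval y φ = 0} := by
  refine unirat hO (fun i => C (x i) * tc φ x 3 - tc φ x 2 * X i) (tc φ x 3) 1
    ⟨x, h.zero⟩ ?_ ?_ ?_
  · intro y hy _
    rw [aeval_eq_eval] at hy
    have e : (fun s => aeval y (C (x s) * tc φ x 3 - tc φ x 2 * X s) / aeval y (tc φ x 3)) =
        fun i => x i - eval y (tc φ x 2) / eval y (tc φ x 3) * y i := by
      funext i
      rw [aeval_eq_eval]
      show eval y _ / eval y _ = _
      rw [map_sub, map_mul, map_mul, eval_C, eval_X]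
      field_simp
    show eval _ φ = 0
    rw [e]
    exact h.on y hy
  · intro x _
    rw [map_one]
    exact one_ne_zero
  · intro g hg y hy
    have h1 : φ ∣ g := by
      refine A_dvd h.tay_eq h.ne h.rp fun v hv => ?_
      have h2 := hg v (by rw [aeval_eq_eval]; exact hv)
      have e : (fun s => aeval v (C (x s) * tc φ x 3 - tc φ x 2 * X s) / aeval v (tc φ x 3)) =
          fun i => x i - eval v (tc φ x 2) / eval v (tc φ x 3) * v i := by
        funext i
        rw [aeval_eq_eval]
        show eval v _ / eval v _ = _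
        rw [map_sub, map_mul, map_mul, eval_C, eval_X]
        field_simp
      rw [e, aeval_eq_eval] at h2
      exact h2
    obtain ⟨g', rfl⟩ := h1
    rw [aeval_eq_eval]
    show eval y _ = 0
    rw [map_mul]
    have : eval y φ = 0 := hy
    rw [this, zero_mul]

/-- **the cubic is prime** -/
theorem prime : Prime φ := by
  have hflat : Pool.Agent.TH783.CE.Flat (∅ : Set K) := by
    intro p₀ p₁ hp hs
    exfalso
    obtain ⟨s, hs'⟩ : ∃ s, p₀.eval s ≠ 0 := by
      by_contra hc
      push Not at hc
      exact hp (Polynomial.funext fun s => by rw [hc s, Polynomial.eval_zero])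
    exact hs s hs'
  have hcp := h.cp hflat
  have hne : φ ≠ 0 := by
    rintro rfl
    apply h.ne
    unfold tc tay
    rw [map_zero, Polynomial.coeff_zero]
  refine ⟨hne, ?_, ?_⟩
  · intro hu
    have h1 := hu.map (eval x)
    rw [h.zero] at h1
    exact not_isUnit_zero h1
  · rintro a b ⟨c, hc⟩
    rcases hcp.irr a b (fun y hy => by
      have h1 : eval y (a * b) = 0 := by
        rw [hc, map_mul, show eval y φ = 0 from hy, zero_mul]
      rw [map_mul] at h1
      exact mul_eq_zero.1 h1) with h1 | h1
    · exact Or.inl (h.dvd h1)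
    · exact Or.inr (h.dvd h1)

omit h in
lemma tdeg_pd [DecidableEq σ] (ψ : MvPolynomial σ K) (i : σ) (hi : pderiv i ψ ≠ 0) :
    (pderiv i ψ).totalDegree < ψ.totalDegree := by
  have h1 : ∀ m ∈ (pderiv i ψ).support, (m.sum fun _ e => e) + 1 ≤ ψ.totalDegree := by
    intro m hm
    rw [mem_support_iff] at hm
    have h2 : coeff (m + Finsupp.single i 1) ψ ≠ 0 := by
      intro h3
      apply hm
      rw [coeff_pderiv, h3, zero_mul]
    have h3 := le_totalDegree (mem_support_iff.2 h2)
    refine le_trans (le_of_eq ?_) h3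
    rw [Finsupp.sum_add_index' (fun _ => rfl) (fun _ _ _ => rfl), Finsupp.sum_single_index rfl]
  obtain ⟨m, hm⟩ : (pderiv i ψ).support.Nonempty := by
    rw [Finset.nonempty_iff_ne_empty, Ne, support_eq_empty]
    exact hi
  have h3 : (pderiv i ψ).totalDegree + 1 ≤ ψ.totalDegree := by
    have h4 : (pderiv i ψ).totalDegree ≤ ψ.totalDegree - 1 :=
      Finset.sup_le fun m hm => by have := h1 m hm; omega
    have := h1 m hm
    omega
  omega

/-- a partial derivative is not divisible by the cubic -/
lemma not_dvd : ∃ i, ¬ φ ∣ pderiv i φ := by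
  classical
  by_contra hc
  push Not at hc
  have h1 : ∀ i, pderiv i φ = 0 := by
    intro i
    by_contra h2
    obtain ⟨c, hc'⟩ := hc i
    have h3 := tdeg_pd φ i h2
    rw [hc'] at h2 h3
    rw [totalDegree_mul_of_isDomain (left_ne_zero_of_mul h2) (right_ne_zero_of_mul h2)] at h3
    omega
  have h2 : φ = C (coeff 0 φ) := by
    ext m
    rw [coeff_C]
    split_ifs with hm
    · rw [hm]
    · have h3 : ∃ i, m i ≠ 0 := by
        by_contra h4
        push Not at h4
        exact hm (Finsupp.ext fun i => by simp [h4 i])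
      obtain ⟨i, hi⟩ := h3
      have h4 : coeff (m - Finsupp.single i 1) (pderiv i φ) = 0 := by rw [h1 i, coeff_zero]
      rw [coeff_pderiv] at h4
      have h5 : m - Finsupp.single i 1 + Finsupp.single i 1 = m := by
        ext j
        by_cases hj : j = i
        · subst hj
          simp
          omega
        · simp [Ne.symm hj]
      rw [h5] at h4
      rcases mul_eq_zero.1 h4 with h6 | h6
      · exact h6
      · exfalso
        have h7 : (((m - Finsupp.single i 1 : σ →₀ ℕ) i : ℕ) : K) + 1 ≠ 0 :=
          Nat.cast_add_one_ne_zero _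
        exact h7 h6
  have h3 := h.zero
  rw [h2, eval_C] at h3
  rw [h3, map_zero] at h2
  exact h.prime.ne_zero h2

end Sg

end Pool.Agent.X95T.CH
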