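import Pool.Agent.X95T.LA3

/-!
# Cubic hypersurfaces: density of the points on tangent sections
-/

set_option autoImplicit false
set_option linter.unusedSectionVars false

open MvPolynomial Pool.Agent.Y718.FQ

namespace Pool.Agent.X95T.CH

open Pool.Agent.X95T.WQ

/-- elimination -/
lemma elim_poly {R : Type} [CommRing R] [IsDomain R] [UniqueFactorizationMonoid R]
    {F G : Polynomial R} (hF : Prime F) (hd : F.natDegree ≠ 0) (hG : ¬ F ∣ G) :
    ∃ (A B : Polynomial R) (r : R), r ≠ 0 ∧ A * F + B * G = Polynomial.C r := by
  classical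
  let L := FractionRing R
  have hinj : Function.Injective (algebraMap R L) := IsFractionRing.injective R L
  have hprim : F.IsPrimitive := by
    intro r hr
    obtain ⟨q, hq⟩ := hr
    rcases hF.irreducible.isUnit_or_isUnit hq with h1 | h1
    · exact Polynomial.isUnit_C.1 h1
    · exfalso
      apply hd
      rw [hq]
      have h2 := Polynomial.natDegree_eq_zero_of_isUnit h1
      have h3 := Polynomial.natDegree_C_mul_le r q
      omega
  have hirr : Irreducible (F.map (algebraMap R L)) :=
    hprim.irreducible_iff_irreducible_map_fraction_map.1 hF.irreducible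
  have hcop : IsCoprime (F.map (algebraMap R L)) (G.map (algebraMap R L)) := by
    rw [hirr.coprime_iff_not_dvd]
    rintro ⟨q, hq⟩
    obtain ⟨b, hb, hb'⟩ := IsLocalization.integerNormalization_spec (nonZeroDivisors R) q
    have hb0 : b ≠ 0 := nonZeroDivisors.ne_zero hb
    set q' := IsLocalization.integerNormalization (nonZeroDivisors R) q
    have h1 : Polynomial.C b * G = F * q' := by
      apply Polynomial.map_injective _ hinj
      rw [Polynomial.map_mul, Polynomial.map_mul, hb', hq, Polynomial.map_C,
        Algebra.smul_def]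
      show _ = _ * (Polynomial.C (algebraMap R L b) * q)
      ring
    rcases hF.dvd_or_dvd (⟨q', h1⟩ : F ∣ Polynomial.C b * G) with h2 | h2
    · have h3 := Polynomial.natDegree_le_of_dvd h2 (by rwa [Ne, Polynomial.C_eq_zero])
      rw [Polynomial.natDegree_C] at h3
      omega
    · exact hG h2
  obtain ⟨u, v, huv⟩ := hcop
  obtain ⟨b, hb, hb'⟩ := IsLocalization.integerNormalization_spec (nonZeroDivisors R) u
  obtain ⟨c, hc, hc'⟩ := IsLocalization.integerNormalization_spec (nonZeroDivisors R) v
  have hb0 : b ≠ 0 := nonZeroDivisors.ne_zero hb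
  have hc0 : c ≠ 0 := nonZeroDivisors.ne_zero hc
  set u' := IsLocalization.integerNormalization (nonZeroDivisors R) u
  set v' := IsLocalization.integerNormalization (nonZeroDivisors R) v
  refine ⟨Polynomial.C c * u', Polynomial.C b * v', b * c, mul_ne_zero hb0 hc0, ?_⟩
  apply Polynomial.map_injective _ hinj
  have e1 : u'.map (algebraMap R L) = Polynomial.C (algebraMap R L b) * u := by
    rw [hb', Algebra.smul_def]
    rfl
  have e2 : v'.map (algebraMap R L) = Polynomial.C (algebraMap R L c) * v := by
    rw [hc', Algebra.smul_def]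
    rfl
  rw [Polynomial.map_add, Polynomial.map_mul, Polynomial.map_mul, Polynomial.map_mul,
    Polynomial.map_mul, e1, e2, Polynomial.map_C, Polynomial.map_C, Polynomial.map_C, map_mul,
    map_mul]
  linear_combination Polynomial.C (algebraMap R L b) * Polynomial.C (algebraMap R L c) * huv

variable {K : Type} [Field K] [CharZero K] {σ : Type} [Fintype σ] {O : Set K}

/-- restriction to a graph -/
noncomputable def sub (l : MvPolynomial σ K) :
    MvPolynomial (Option σ) K →ₐ[K] MvPolynomial σ K :=
  aeval fun o => o.elim l X

/-- point of the graph -/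
def pt (x : σ → K) (t : K) : Option σ → K := fun o => o.elim t x

lemma sub_rename (l a : MvPolynomial σ K) : sub l (rename some a) = a := by
  unfold sub
  rw [aeval_rename]
  have : ((fun o : Option σ => o.elim l X) ∘ some) = (X : σ → MvPolynomial σ K) := rfl
  rw [this, aeval_X_left_apply]

lemma eval_sub (l : MvPolynomial σ K) (g : MvPolynomial (Option σ) K) (x : σ → K) :
    eval x (sub l g) = eval (pt x (eval x l)) g := by
  unfold sub
  induction g using MvPolynomial.induction_on with
  | C c =>
    rw [aeval_C, eval_C]
    exact eval_C _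
  | add p q hp hq => rw [map_add, map_add, hp, hq, map_add]
  | mul_X p o hp =>
    rw [map_mul, map_mul, hp, map_mul, aeval_X, eval_X]
    congr 1
    cases o with
    | none => rfl
    | some i => exact eval_X _

lemma pderiv_sub [DecidableEq σ] (l : MvPolynomial σ K) (g : MvPolynomial (Option σ) K) (i : σ) :
    pderiv i (sub l g) = sub l (pderiv (some i) g) + sub l (pderiv none g) * pderiv i l := by
  induction g using MvPolynomial.induction_on with
  | C c =>
    have h1 : sub l (C c) = C c := (sub l).commutes c
    rw [h1, pderiv_C, pderiv_C, pderiv_C, map_zero]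
    ring
  | add p q hp hq =>
    rw [map_add, map_add, hp, hq, map_add, map_add, map_add, map_add]
    ring
  | mul_X p o hp =>
    rw [map_mul, Derivation.leibniz, hp, Derivation.leibniz, Derivation.leibniz]
    simp only [smul_eq_mul]
    rw [map_add, map_mul, map_mul, map_add, map_mul, map_mul]
    cases o with
    | none =>
      have h1 : sub l (X none) = l := by
        unfold sub
        rw [aeval_X]
        rfl
      have h2 : pderiv (some i) (X none : MvPolynomial (Option σ) K) = 0 :=
        pderiv_X_of_ne (by simp)
      rw [h1, h2, pderiv_X_self, map_zero, map_one]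
      ring
    | some j =>
      have h1 : sub l (X (some j)) = X j := by
        unfold sub
        rw [aeval_X]
        rfl
      have h2 : pderiv none (X (some j) : MvPolynomial (Option σ) K) = 0 :=
        pderiv_X_of_ne (by simp)
      have h3 : sub l (pderiv (some i) (X (some j) : MvPolynomial (Option σ) K)) =
          pderiv i (X j) := by
        by_cases hij : j = i
        · subst hij
          rw [pderiv_X_self, pderiv_X_self, map_one]
        · rw [pderiv_X_of_ne hij, pderiv_X_of_ne (by simpa using hij), map_zero]
      rw [h1, h2, h3, map_zero]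
      ring

/-- elimination of the last variable -/
lemma elim_mv {f h : MvPolynomial (Option σ) K} (hf : Prime f) (hf' : pderiv none f ≠ 0)
    (hh : ¬ f ∣ h) : ∃ (A B : MvPolynomial (Option σ) K) (r : MvPolynomial σ K), r ≠ 0 ∧
      A * f + B * h = rename some r := by
  classical
  let E := optionEquivLeft K σ
  have hCE : ∀ a : MvPolynomial σ K, E.symm (Polynomial.C a) = rename some a := by
    intro a
    rw [AlgEquiv.symm_apply_eq]
    induction a using MvPolynomial.induction_on with
    | C c =>
      rw [rename_C]
      exact (optionEquivLeft_C K σ c).symm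
    | add p q hp hq => rw [Polynomial.C_add, hp, hq, map_add, map_add]
    | mul_X p j hp =>
      rw [Polynomial.C_mul, hp, map_mul, map_mul, rename_X]
      congr 1
      exact (optionEquivLeft_X_some K σ j).symm
  have hE : Prime (E f) := (MulEquiv.prime_iff E.toMulEquiv).2 hf
  have hd : (E f).natDegree ≠ 0 := by
    intro h0
    obtain ⟨a, ha⟩ := Polynomial.natDegree_eq_zero.1 h0
    apply hf'
    have h1 : f = rename some a := by
      rw [← hCE a, ha, AlgEquiv.symm_apply_apply]
    rw [h1]
    clear h1 ha
    induction a using MvPolynomial.induction_on with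
    | C c => rw [rename_C, pderiv_C]
    | add p q hp hq => rw [map_add, map_add, hp, hq, add_zero]
    | mul_X p j hp =>
      rw [map_mul, Derivation.leibniz, hp, rename_X, pderiv_X_of_ne (by simp), smul_zero,
        smul_zero, add_zero]
  have hG : ¬ E f ∣ E h := by
    rintro ⟨c, hc⟩
    apply hh
    refine ⟨E.symm c, ?_⟩
    apply E.injective
    rw [map_mul, hc, AlgEquiv.apply_symm_apply]
  obtain ⟨A, B, r, hr, h1⟩ := elim_poly hE hd hG
  refine ⟨E.symm A, E.symm B, r, hr, ?_⟩
  rw [← hCE r, ← h1, map_add, map_mul, map_mul, AlgEquiv.symm_apply_apply,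
    AlgEquiv.symm_apply_apply]

/-- **Density.** A polynomial which vanishes on many tangent sections is divisible by the cubic. -/
theorem dens {f h : MvPolynomial (Option σ) K} (hf : Prime f) (hf' : pderiv none f ≠ 0)
    {l0 : MvPolynomial σ K} {x0 : σ → K} (hs : Sg (sub l0 f) x0) {E : MvPolynomial σ K}
    (hE : eval x0 E ≠ 0)
    (h1 : ∀ x, eval x (sub l0 f) = 0 → eval x E ≠ 0 → ∃ l : MvPolynomial σ K,
      Sg (sub l f) x ∧ sub l f ∣ sub l h) : f ∣ h := by
  classical
  by_contra hcon
  obtain ⟨A, B, r, hr, hAB⟩ := elim_mv hf hf' hcon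
  have key : ∀ l : MvPolynomial σ K, sub l f ∣ sub l h → sub l f ∣ r := by
    intro l hl
    have h2 := congrArg (sub l) hAB
    rw [sub_rename, map_add, map_mul, map_mul] at h2
    rw [← h2]
    exact dvd_add (dvd_mul_left _ _) (hl.mul_left _)
  obtain ⟨k, r', hr', hk⟩ := WfDvdMonoid.max_power_factor hr hs.prime.irreducible
  obtain ⟨i, hi⟩ := hs.not_dvd
  have hEd : ¬ sub l0 f ∣ E := by
    rintro ⟨c, rfl⟩
    rw [map_mul, hs.zero, zero_mul] at hE
    exact hE rfl
  have h3 : sub l0 f ∣ E * r' * pderiv i (sub l0 f) := by
    refine hs.dvd fun x hx => ?_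
    rw [map_mul, map_mul]
    by_cases hx1 : eval x E = 0
    · rw [hx1]
      ring
    by_cases hx2 : eval x r' = 0
    · rw [hx2]
      ring
    obtain ⟨l, hl1, hl2⟩ := h1 x hx hx1
    have h4 := key l hl2
    rw [hk] at h4
    rcases hl1.prime.dvd_or_dvd h4 with h5 | h5
    · obtain ⟨c, hc⟩ := hl1.prime.dvd_of_dvd_pow h5
      have h6 : eval x (pderiv i (sub l0 f)) = 0 := by
        rw [hc, Derivation.leibniz, smul_eq_mul, smul_eq_mul, map_add, map_mul, map_mul, hl1.zero,
          hl1.pd i]
        ring
      rw [h6, mul_zero]
    · obtain ⟨c, hc⟩ := h5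
      exfalso
      apply hx2
      rw [hc, map_mul, hl1.zero, zero_mul]
  rcases hs.prime.dvd_or_dvd h3 with h4 | h4
  · rcases hs.prime.dvd_or_dvd h4 with h5 | h5
    · exact hEd h5
    · exact hr' h5
  · exact hi h4

end Pool.Agent.X95T.CH
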