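import Pool.Agent.X95T.LA4

/-!
# Cubic hypersurfaces: tangent sections
-/

set_option autoImplicit false
set_option linter.unusedSectionVars false

open MvPolynomial Pool.Agent.Y718.FQ

namespace Pool.Agent.X95T.CH

open Pool.Agent.X95T.WQ

variable {K : Type} [Field K] [CharZero K] {σ : Type} [Fintype σ] {O : Set K}

lemma tdeg_sub {l : MvPolynomial σ K} (hl : l.totalDegree ≤ 1) (g : MvPolynomial (Option σ) K) :
    (sub l g).totalDegree ≤ g.totalDegree := by
  classical
  unfold sub
  rw [aeval_def, eval₂_eq]
  refine totalDegree_finsetSum_le fun d hd => ?_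
  refine (totalDegree_mul _ _).trans ?_
  have h0 : (algebraMap K (MvPolynomial σ K) (coeff d g)).totalDegree = 0 := totalDegree_C _
  rw [h0, zero_add]
  refine (totalDegree_finsetProd _ _).trans ?_
  refine le_trans (Finset.sum_le_sum fun o _ => ?_) (le_totalDegree hd)
  refine (totalDegree_pow _ _).trans ?_
  have h1 : (o.elim l X : MvPolynomial σ K).totalDegree ≤ 1 := by
    cases o with
    | none => exact hl
    | some i => exact (totalDegree_X i).le
  calc d o * _ ≤ d o * 1 := Nat.mul_le_mul_left _ h1
    _ = d o := mul_one _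

variable (f : MvPolynomial (Option σ) K)

/-- the tangent hyperplane as a graph -/
noncomputable def lam (P : Option σ → K) : MvPolynomial σ K :=
  C (P none) - ∑ i, C (eval P (pderiv (some i) f) / eval P (pderiv none f)) *
    (X i - C (P (some i)))

lemma lam_deg (P : Option σ → K) : (lam f P).totalDegree ≤ 1 := by
  classical
  unfold lam
  refine (totalDegree_sub _ _).trans (max_le ?_ ?_)
  · rw [totalDegree_C]
    exact zero_le_one
  · refine totalDegree_finsetSum_le fun i _ => ?_
    refine (totalDegree_mul _ _).trans ?_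
    rw [totalDegree_C, zero_add]
    refine (totalDegree_sub _ _).trans (max_le (totalDegree_X i).le ?_)
    rw [totalDegree_C]
    exact zero_le_one

lemma lam_eval (P : Option σ → K) (u : σ → K) :
    eval (fun i => P (some i) + u i) (lam f P) =
      P none - ∑ i, eval P (pderiv (some i) f) / eval P (pderiv none f) * u i := by
  unfold lam
  rw [map_sub, eval_C, map_sum]
  congr 1
  refine Finset.sum_congr rfl fun i _ => ?_
  rw [map_mul, map_sub, eval_C, eval_X, eval_C]
  ring

lemma lam_self (P : Option σ → K) : eval (fun i => P (some i)) (lam f P) = P none := by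
  have h := lam_eval f P (fun _ => 0)
  simp only [add_zero, mul_zero, Finset.sum_const_zero, sub_zero] at h
  exact h

lemma pt_self (P : Option σ → K) : pt (fun i => P (some i)) (P none) = P := by
  funext o
  cases o <;> rfl

lemma phi_zero {P : Option σ → K} (hP : eval P f = 0) :
    eval (fun i => P (some i)) (sub (lam f P) f) = 0 := by
  rw [eval_sub, lam_self, pt_self, hP]

lemma phi_pd [DecidableEq σ] {P : Option σ → K} (hD : eval P (pderiv none f) ≠ 0) (i : σ) :
    eval (fun i => P (some i)) (pderiv i (sub (lam f P) f)) = 0 := by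
  rw [pderiv_sub, map_add, map_mul, eval_sub, eval_sub, lam_self, pt_self]
  have h1 : pderiv i (lam f P) = -C (eval P (pderiv (some i) f) / eval P (pderiv none f)) := by
    unfold lam
    rw [map_sub, pderiv_C, map_sum, Finset.sum_eq_single i]
    · rw [pderiv_C_mul, map_sub, pderiv_X_self, pderiv_C]
      ring
    · intro j _ hj
      rw [pderiv_C_mul, map_sub, pderiv_X_of_ne hj, pderiv_C]
      ring
    · intro h
      exact absurd (Finset.mem_univ i) h
  rw [h1, map_neg, eval_C]
  field_simp
  ring

/-- the value on the tangent hyperplane -/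
noncomputable def Fv (v : σ → K) : MvPolynomial (Option σ) K :=
  aeval (fun o : Option σ => o.elim (X none - ∑ i, C (v i) * pderiv (some i) f)
    (fun i => X (some i) + C (v i) * pderiv none f)) f

lemma Fv_eval {P : Option σ → K} (hD : eval P (pderiv none f) ≠ 0) (v : σ → K) :
    eval P (Fv f v) = eval (fun i => P (some i) + eval P (pderiv none f) * v i)
      (sub (lam f P) f) := by
  have h0 : ∀ (w : Option σ → MvPolynomial (Option σ) K) (g : MvPolynomial (Option σ) K),
      eval P (aeval w g) = eval (fun o => eval P (w o)) g := by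
    intro w g
    induction g using MvPolynomial.induction_on with
    | C c =>
      rw [aeval_C, eval_C]
      exact eval_C _
    | add p q hp hq => rw [map_add, map_add, hp, hq, map_add]
    | mul_X p o hp => rw [map_mul, map_mul, hp, map_mul, aeval_X, eval_X]
  unfold Fv
  rw [h0, eval_sub, lam_eval f P fun i => eval P (pderiv none f) * v i]
  congr 2
  funext o
  cases o with
  | none =>
    show eval P (X none - ∑ i, C (v i) * pderiv (some i) f) = _
    rw [map_sub, eval_X, map_sum]
    show _ = P none - _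
    congr 1
    refine Finset.sum_congr rfl fun i _ => ?_
    rw [map_mul, eval_C]
    field_simp
  | some i =>
    show eval P (X (some i) + C (v i) * pderiv none f) = _
    rw [map_add, eval_X, map_mul, eval_C]
    show _ = P (some i) + _
    ring

/-- twice the quadratic part -/
noncomputable def Hv (v : σ → K) : MvPolynomial (Option σ) K := Fv f v + Fv f (fun i => -v i)

/-- twice the cubic part -/
noncomputable def Cv (v : σ → K) : MvPolynomial (Option σ) K := Fv f v - Fv f (fun i => -v i)

section ev

variable {f} {P : Option σ → K} (hd : f.totalDegree ≤ 3) (hP : eval P f = 0)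
  (hD : eval P (pderiv none f) ≠ 0)

include hd hP hD

lemma phi_tay : tay (sub (lam f P) f) (fun i => P (some i)) =
    Polynomial.C (tc (sub (lam f P) f) (fun i => P (some i)) 2) * Polynomial.X ^ 2 +
    Polynomial.C (tc (sub (lam f P) f) (fun i => P (some i)) 3) * Polynomial.X ^ 3 := by
  classical
  exact tay_cub _ _ ((tdeg_sub (lam_deg f P) f).trans hd) (phi_zero f hP) (phi_pd f hD)

lemma phi_ev (v : σ → K) (s : K) : eval (fun i => P (some i) + s * v i) (sub (lam f P) f) =
    s ^ 2 * eval v (tc (sub (lam f P) f) (fun i => P (some i)) 2) +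
    s ^ 3 * eval v (tc (sub (lam f P) f) (fun i => P (some i)) 3) := by
  rw [← tay_ev, phi_tay hd hP hD]
  simp only [Polynomial.map_add, Polynomial.map_mul, Polynomial.map_C, Polynomial.map_pow,
    Polynomial.map_X, Polynomial.eval_mul, Polynomial.eval_add, Polynomial.eval_C,
    Polynomial.eval_pow, Polynomial.eval_X]
  ring

lemma Fv_ev (v : σ → K) : eval P (Fv f v) =
    eval P (pderiv none f) ^ 2 * eval v (tc (sub (lam f P) f) (fun i => P (some i)) 2) +
    eval P (pderiv none f) ^ 3 * eval v (tc (sub (lam f P) f) (fun i => P (some i)) 3) := by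
  rw [Fv_eval f hD, phi_ev hd hP hD]

lemma Fv_ev' (v : σ → K) : eval P (Fv f fun i => -v i) =
    eval P (pderiv none f) ^ 2 * eval v (tc (sub (lam f P) f) (fun i => P (some i)) 2) -
    eval P (pderiv none f) ^ 3 * eval v (tc (sub (lam f P) f) (fun i => P (some i)) 3) := by
  have e : (fun i => P (some i) + eval P (pderiv none f) * -v i) =
      fun i => P (some i) + (-eval P (pderiv none f)) * v i := by
    funext i
    ring
  rw [Fv_eval f hD, e, phi_ev hd hP hD]
  ring

lemma Hv_ev (v : σ → K) : eval P (Hv f v) = 2 * eval P (pderiv none f) ^ 2 *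
    eval v (tc (sub (lam f P) f) (fun i => P (some i)) 2) := by
  unfold Hv
  rw [map_add, Fv_ev hd hP hD, Fv_ev' hd hP hD]
  ring

lemma Cv_ev (v : σ → K) : eval P (Cv f v) = 2 * eval P (pderiv none f) ^ 3 *
    eval v (tc (sub (lam f P) f) (fun i => P (some i)) 3) := by
  unfold Cv
  rw [map_sub, Fv_ev hd hP hD, Fv_ev' hd hP hD]
  ring

end ev

/-- the condition for a good point -/
noncomputable def gd (e1 e2 : σ → K) : MvPolynomial (Option σ) K :=
  pderiv none f * Hv f e1 * rs (Hv f e1) (Hv f (fun i => e2 i + e1 i) - Hv f e1 - Hv f e2)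
    (Hv f e2) (Cv f e1)
    (C (1 / 2) * (Cv f (fun i => e2 i + e1 i) + Cv f (fun i => e2 i - e1 i)) - Cv f e2)
    (C (1 / 2) * (Cv f (fun i => e2 i + e1 i) - Cv f (fun i => e2 i - e1 i)) - Cv f e1)
    (Cv f e2)

lemma rs_map {S T : Type} [CommRing S] [CommRing T] (g : S →+* T) (h2 h1 h0 c3 c2 c1 c0 : S) :
    g (rs h2 h1 h0 c3 c2 c1 c0) = rs (g h2) (g h1) (g h0) (g c3) (g c2) (g c1) (g c0) := by
  unfold rs al be
  simp only [map_add, map_sub, map_mul, map_pow]

lemma rs_scale {S : Type} [CommRing S] (k m h2 h1 h0 c3 c2 c1 c0 : S) :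
    rs (k * h2) (k * h1) (k * h0) (m * c3) (m * c2) (m * c1) (m * c0) =
      k ^ 5 * m ^ 2 * rs h2 h1 h0 c3 c2 c1 c0 := by
  unfold rs al be
  ring

/-- the value of the condition -/
lemma gd_ev {P : Option σ → K} (hd : f.totalDegree ≤ 3) (hP : eval P f = 0)
    (hD : eval P (pderiv none f) ≠ 0) (e1 e2 : σ → K) {H G : MvPolynomial σ K}
    (hH : H = tc (sub (lam f P) f) (fun i => P (some i)) 2)
    (hG : G = tc (sub (lam f P) f) (fun i => P (some i)) 3) :
    eval P (gd f e1 e2) = eval P (pderiv none f) * (2 * eval P (pderiv none f) ^ 2 * eval e1 H) *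
      ((2 * eval P (pderiv none f) ^ 2) ^ 5 * (2 * eval P (pderiv none f) ^ 3) ^ 2 *
      rs (eval e1 H) (eval (fun i => e2 i + e1 i) H - eval e1 H - eval e2 H) (eval e2 H)
        (eval e1 G)
        ((eval (fun i => e2 i + e1 i) G + eval (fun i => e2 i - e1 i) G) / 2 - eval e2 G)
        ((eval (fun i => e2 i + e1 i) G - eval (fun i => e2 i - e1 i) G) / 2 - eval e1 G)
        (eval e2 G)) := by
  subst hH hG
  rw [← rs_scale]
  unfold gd
  rw [map_mul, map_mul, rs_map]
  simp only [map_sub, map_mul, map_add, eval_C]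
  simp only [Hv_ev hd hP hD, Cv_ev hd hP hD]
  congr 1
  congr 1 <;> ring

lemma bez {H G : MvPolynomial σ K} (hH : H.IsHomogeneous 2) (hG : G.IsHomogeneous 3)
    (e1 e2 : σ → K) : ∃ A B : Polynomial K, rl e1 e2 H * A + rl e1 e2 G * B =
      Polynomial.C (rs (eval e1 H) (eval (fun i => e2 i + e1 i) H - eval e1 H - eval e2 H)
        (eval e2 H) (eval e1 G)
        ((eval (fun i => e2 i + e1 i) G + eval (fun i => e2 i - e1 i) G) / 2 - eval e2 G)
        ((eval (fun i => e2 i + e1 i) G - eval (fun i => e2 i - e1 i) G) / 2 - eval e1 G)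
        (eval e2 G)) := by
  rw [rl_two hH, rl_three hG, rs_map (Polynomial.C : K →+* Polynomial K),
    rs_bezout _ _ _ _ _ _ _ Polynomial.X]
  exact ⟨_, _, (sub_eq_add_neg _ _ |>.trans (congrArg _ (mul_neg _ _).symm)).symm⟩

/-- **good points** -/
theorem good {P : Option σ → K} (hd : f.totalDegree ≤ 3) (hP : eval P f = 0) {e1 e2 : σ → K}
    (hg : eval P (gd f e1 e2) ≠ 0) : Sg (sub (lam f P) f) (fun i => P (some i)) := by
  classical
  have hD : eval P (pderiv none f) ≠ 0 := by
    intro h
    apply hg
    unfold gd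
    rw [map_mul, map_mul, h, zero_mul, zero_mul]
  set H := tc (sub (lam f P) f) (fun i => P (some i)) 2 with hH
  set G := tc (sub (lam f P) f) (fun i => P (some i)) 3 with hG
  rw [gd_ev f hd hP hD e1 e2 hH hG] at hg
  have hr := right_ne_zero_of_mul (right_ne_zero_of_mul hg)
  have hh : eval e1 H ≠ 0 := right_ne_zero_of_mul (right_ne_zero_of_mul (left_ne_zero_of_mul hg))
  refine ⟨(tdeg_sub (lam_deg f P) f).trans hd, phi_zero f hP, phi_pd f hD, ?_, ?_⟩
  · intro h0
    apply hr
    have h1 : G = 0 := h0
    rw [h1]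
    unfold rs al be
    simp
  · obtain ⟨A, B, hAB⟩ := bez (tc_hom _ _ 2) (tc_hom _ _ 3) e1 e2
    exact relprime (tc_hom _ _ 2) hh hr hAB

end Pool.Agent.X95T.CH
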