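import Pool.Agent.X95T.LA5

/-!
# Cubic hypersurfaces: rational functions with values in flat sets
-/

set_option autoImplicit false
set_option linter.unusedSectionVars false

open MvPolynomial Pool.Agent.Y718.FQ

namespace Pool.Agent.X95T.CH

open Pool.Agent.X95T.WQ

variable {K : Type} [Field K] [CharZero K] {σ : Type} [Fintype σ] {O : Set K}

/-- a cubic polynomial with a good point is prime -/
theorem prime_of {f : MvPolynomial (Option σ) K} (hd : f.totalDegree ≤ 3) {l : MvPolynomial σ K}
    (hl : l.totalDegree ≤ 1) {x : σ → K} (hs : Sg (sub l f) x) : Prime f := by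
  have hne : f ≠ 0 := by
    rintro rfl
    exact hs.prime.ne_zero (map_zero _)
  have h3 : 3 ≤ (sub l f).totalDegree := by
    refine le_trans ?_ (tay_deg (sub l f) x)
    exact Polynomial.le_natDegree_of_ne_zero hs.ne
  refine Irreducible.prime ⟨?_, ?_⟩
  · intro hu
    exact hs.prime.not_isUnit (hu.map (sub l))
  · have key : ∀ a b : MvPolynomial (Option σ) K, f = a * b → sub l f ∣ sub l a → IsUnit b := by
      intro a b hab hdv
      have ha : a ≠ 0 := by
        rintro rfl
        rw [zero_mul] at hab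
        exact hne hab
      have hb : b ≠ 0 := by
        rintro rfl
        rw [mul_zero] at hab
        exact hne hab
      have h4 : sub l a ≠ 0 := by
        intro h5
        apply hs.prime.ne_zero
        rw [hab, map_mul, h5, zero_mul]
      have h5 : 3 ≤ (sub l a).totalDegree := by
        obtain ⟨c, hc⟩ := hdv
        rw [hc] at h4 ⊢
        rw [totalDegree_mul_of_isDomain (left_ne_zero_of_mul h4) (right_ne_zero_of_mul h4)]
        omega
      have h6 := tdeg_sub hl a
      have h7 : f.totalDegree = a.totalDegree + b.totalDegree := by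
        rw [hab, totalDegree_mul_of_isDomain ha hb]
      have h8 : b.totalDegree = 0 := by omega
      rw [totalDegree_eq_zero_iff_eq_C] at h8
      rw [h8] at hb ⊢
      refine (isUnit_iff_ne_zero.2 ?_ : IsUnit (coeff 0 b)).map (C : K →+* _)
      intro h9
      apply hb
      rw [h9, map_zero]
    intro a b hab
    have h4 : sub l f ∣ sub l a * sub l b := by rw [← map_mul, ← hab]
    rcases hs.prime.dvd_or_dvd h4 with h5 | h5
    · exact Or.inr (key a b hab h5)
    · exact Or.inl (key b a (by rw [hab, mul_comm]) h5)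

section main

variable {f : MvPolynomial (Option σ) K} (hd : f.totalDegree ≤ 3) {e1 e2 : σ → K}
  {P0 : Option σ → K} (hP0 : eval P0 f = 0) (hg0 : eval P0 (gd f e1 e2) ≠ 0)

include hd hP0 hg0

lemma prime_f : Prime f := prime_of hd (lam_deg f P0) (good f hd hP0 hg0)

omit hd hP0 in
lemma pd_ne : pderiv none f ≠ 0 := by
  intro h
  apply hg0
  unfold gd
  rw [h, zero_mul, zero_mul, map_zero]

/-- a polynomial vanishing at all points with coordinates in `K` is a multiple -/
theorem dvd_of {g : MvPolynomial (Option σ) K}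
    (hg : ∀ P : Option σ → K, eval P f = 0 → eval P g = 0) : f ∣ g := by
  refine dens (prime_f hd hP0 hg0) (pd_ne hg0) (good f hd hP0 hg0)
    (E := sub (lam f P0) (gd f e1 e2)) ?_ ?_
  · rw [eval_sub, lam_self, pt_self]
    exact hg0
  · intro x hx hE
    rw [eval_sub] at hx hE
    have h1 := good f hd hx hE
    refine ⟨lam f (pt x (eval x (lam f P0))), h1, h1.dvd fun y hy => ?_⟩
    rw [eval_sub] at hy ⊢
    exact hg _ hy

/-- **rational functions with values in a flat set on a cubic hypersurface** -/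
theorem cp_cubic (hO : Pool.Agent.TH783.CE.Flat O) :
    CP O {P : Option σ → K | eval P f = 0} := by
  have hpf := prime_f hd hP0 hg0
  have hmem : ∀ g : MvPolynomial (Option σ) K, f ∣ g → ∀ P ∈ {P : Option σ → K | eval P f = 0},
      eval P g = 0 := by
    rintro _ ⟨c, rfl⟩ P hP
    rw [map_mul, show eval P f = 0 from hP, zero_mul]
  refine ⟨⟨P0, hP0⟩, ?_, ?_⟩
  · intro g h hgh
    have h1 : f ∣ g * h := dvd_of hd hP0 hg0 fun P hP => by
      rw [map_mul]
      exact mul_eq_zero.2 (hgh P hP)
    rcases hpf.dvd_or_dvd h1 with h2 | h2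
    · exact Or.inl (hmem g h2)
    · exact Or.inr (hmem h h2)
  · rintro p q hpq ⟨Z, hZ, hqZ⟩
    obtain ⟨P1, hP1, hP1'⟩ : ∃ P : Option σ → K, eval P f = 0 ∧
        eval P (gd f e1 e2 * q) ≠ 0 := by
      by_contra hc
      push Not at hc
      rcases hpf.dvd_or_dvd (dvd_of hd hP0 hg0 hc) with h2 | h2
      · exact hg0 (hmem _ h2 P0 hP0)
      · exact hqZ (hmem _ h2 Z hZ)
    rw [map_mul, mul_ne_zero_iff] at hP1'
    -- the function is constant on the tangent sections
    have hcon : ∀ P : Option σ → K, eval P f = 0 → eval P (gd f e1 e2) ≠ 0 → eval P q ≠ 0 →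
        ∀ y : σ → K, eval y (sub (lam f P) f) = 0 →
          eval y (sub (lam f P) p) * eval P q = eval P p * eval y (sub (lam f P) q) := by
      intro P hP hPg hPq y hy
      have h1 := good f hd hP hPg
      obtain ⟨c, hc⟩ := (h1.cp hO).const (sub (lam f P) p) (sub (lam f P) q) (by
        intro y hy hy'
        have hy1 : eval y (sub (lam f P) f) = 0 := hy
        rw [eval_sub] at hy1 hy'
        rw [eval_sub, eval_sub]
        exact hpq _ hy1 hy') ⟨fun i => P (some i), h1.zero, by
          rw [eval_sub, lam_self, pt_self]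
          exact hPq⟩
      have h2 := hc _ h1.zero
      rw [eval_sub, eval_sub, lam_self, pt_self] at h2
      rw [hc y hy, h2]
      ring
    have hdv : f ∣ C (eval P1 q) * p - C (eval P1 p) * q := by
      refine dens hpf (pd_ne hg0) (good f hd hP1 hP1'.1)
        (E := sub (lam f P1) (gd f e1 e2 * q)) ?_ ?_
      · rw [eval_sub, lam_self, pt_self, map_mul]
        exact mul_ne_zero hP1'.1 hP1'.2
      · intro x hx hE
        have hx' := hx
        rw [eval_sub] at hx' hE
        rw [map_mul, mul_ne_zero_iff] at hE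
        have h1 := good f hd hx' hE.1
        refine ⟨lam f (pt x (eval x (lam f P1))), h1, h1.dvd fun y hy => ?_⟩
        have h2 := hcon _ hx' hE.1 hE.2 y hy
        have h3 := hcon P1 hP1 hP1'.1 hP1'.2 x hx
        rw [eval_sub, eval_sub] at h3
        rw [map_sub, map_mul, map_mul, map_sub, map_mul, map_mul]
        have h4 : ∀ c : K, ∀ l : MvPolynomial σ K, sub l (C c) = C c := fun c l =>
          (sub l).commutes c
        rw [h4, h4, eval_C, eval_C]
        have h5 : eval (pt x (eval x (lam f P1))) q *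
            (eval P1 q * eval y (sub (lam f (pt x (eval x (lam f P1)))) p) -
              eval P1 p * eval y (sub (lam f (pt x (eval x (lam f P1)))) q)) = 0 := by
          linear_combination eval P1 q * h2 +
            eval y (sub (lam f (pt x (eval x (lam f P1)))) q) * h3
        exact (mul_eq_zero.1 h5).resolve_left hE.2
    refine ⟨eval P1 p / eval P1 q, fun P hP => ?_⟩
    have h6 := hmem _ hdv P hP
    rw [map_sub, map_mul, map_mul, eval_C, eval_C, sub_eq_zero] at h6
    have := hP1'.2
    field_simp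
    linear_combination h6

end main

/-- a good point from a plane section -/
theorem good_of {f : MvPolynomial (Option σ) K} (hd : f.totalDegree ≤ 3)
    {P v w : Option σ → K} (hD : eval P (pderiv none f) ≠ 0) {h2 h1 h0 c3 c2 c1 c0 : K}
    (hh : h2 ≠ 0)
    (hcop : IsCoprime (Polynomial.C h2 * Polynomial.X ^ 2 + Polynomial.C h1 * Polynomial.X +
      Polynomial.C h0) (Polynomial.C c3 * Polynomial.X ^ 3 + Polynomial.C c2 * Polynomial.X ^ 2 +
      Polynomial.C c1 * Polynomial.X + Polynomial.C c0))
    (hf : ∀ s t : K, eval (fun i => P i + s * v i + t * w i) f =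
      (h2 * s ^ 2 + h1 * s * t + h0 * t ^ 2) +
      (c3 * s ^ 3 + c2 * s ^ 2 * t + c1 * s * t ^ 2 + c0 * t ^ 3)) :
    eval P f = 0 ∧ eval P (gd f (fun i => v (some i)) (fun i => w (some i))) ≠ 0 := by
  classical
  have hP : eval P f = 0 := by
    have h := hf 0 0
    simpa using h
  refine ⟨hP, ?_⟩
  -- tangency
  have htan : ∀ (u : Option σ → K) (a b : K), (∀ s : K, eval (fun i => P i + s * u i) f =
      a * s ^ 2 + b * s ^ 3) → eval P (pderiv none f) * u none =
        -∑ i, eval P (pderiv (some i) f) * u (some i) := by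
    intro u a b hu
    have e1 : (tay f P).map (eval u) = Polynomial.C a * Polynomial.X ^ 2 +
        Polynomial.C b * Polynomial.X ^ 3 := by
      apply Polynomial.funext
      intro s
      rw [tay_ev, hu]
      simp
    have e2 := congrArg (fun p => Polynomial.coeff p 1) e1
    simp only [Polynomial.coeff_map, Polynomial.coeff_add, Polynomial.coeff_C_mul_X_pow] at e2
    have e3 := tc_one f P
    unfold tc at e3
    rw [e3, map_sum, Fintype.sum_option] at e2
    simp only [map_mul, eval_C, eval_X] at e2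
    have e4 : (if (1 : ℕ) = 2 then a else 0) + (if (1 : ℕ) = 3 then b else 0) = 0 := by norm_num
    rw [e4] at e2
    linear_combination e2
  have hv := htan v h2 c3 (fun s => by
    have := hf s 0
    simp only [zero_mul, add_zero] at this
    rw [this]
    ring)
  have hw := htan w h0 c0 (fun s => by
    have := hf 0 s
    simp only [zero_mul, add_zero] at this
    rw [this]
    ring)
  have hlin : ∀ s t : K, P none - ∑ i, eval P (pderiv (some i) f) / eval P (pderiv none f) *
      (s * v (some i) + t * w (some i)) = P none + s * v none + t * w none := by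
    intro s t
    have e1 : ∑ i, eval P (pderiv (some i) f) / eval P (pderiv none f) *
        (s * v (some i) + t * w (some i)) = (s * ∑ i, eval P (pderiv (some i) f) * v (some i) +
          t * ∑ i, eval P (pderiv (some i) f) * w (some i)) / eval P (pderiv none f) := by
      rw [Finset.mul_sum, Finset.mul_sum, ← Finset.sum_add_distrib, Finset.sum_div]
      refine Finset.sum_congr rfl fun i _ => ?_
      field_simp
    rw [e1]
    have e2 : ∑ i, eval P (pderiv (some i) f) * v (some i) =
        -(eval P (pderiv none f) * v none) := by rw [hv, neg_neg]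
    have e3 : ∑ i, eval P (pderiv (some i) f) * w (some i) =
        -(eval P (pderiv none f) * w none) := by rw [hw, neg_neg]
    rw [e2, e3]
    field_simp
    ring
  set H := tc (sub (lam f P) f) (fun i => P (some i)) 2 with hH
  set G := tc (sub (lam f P) f) (fun i => P (some i)) 3 with hG
  have hsum : ∀ s t : K, eval (fun i => s * v (some i) + t * w (some i)) H +
      eval (fun i => s * v (some i) + t * w (some i)) G =
      (h2 * s ^ 2 + h1 * s * t + h0 * t ^ 2) +
      (c3 * s ^ 3 + c2 * s ^ 2 * t + c1 * s * t ^ 2 + c0 * t ^ 3) := by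
    intro s t
    have e1 := phi_ev hd hP hD (fun i => s * v (some i) + t * w (some i)) 1
    simp only [one_mul, one_pow] at e1
    rw [← e1, eval_sub, lam_eval f P fun i => s * v (some i) + t * w (some i), hlin, ← hf s t]
    congr 2
    funext o
    cases o with
    | none => rfl
    | some i =>
      show P (some i) + (s * v (some i) + t * w (some i)) = _
      ring
  have hev : ∀ s t : K, eval (fun i => s * v (some i) + t * w (some i)) H =
      h2 * s ^ 2 + h1 * s * t + h0 * t ^ 2 := by
    intro s t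
    have e1 := hsum s t
    have e2 := hsum (-s) (-t)
    have e3 : (fun i => -s * v (some i) + -t * w (some i)) =
        fun i => (-1 : K) * (s * v (some i) + t * w (some i)) := by
      funext i
      ring
    rw [e3, hom_smul (tc_hom _ _ 2 : H.IsHomogeneous 2),
      hom_smul (tc_hom _ _ 3 : G.IsHomogeneous 3)] at e2
    linear_combination 1 / 2 * (e1 + e2)
  have hod : ∀ s t : K, eval (fun i => s * v (some i) + t * w (some i)) G =
      c3 * s ^ 3 + c2 * s ^ 2 * t + c1 * s * t ^ 2 + c0 * t ^ 3 := by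
    intro s t
    have e1 := hsum s t
    rw [hev] at e1
    linear_combination e1
  have a1 : ∀ g : MvPolynomial σ K, eval (fun i => v (some i)) g =
      eval (fun i => (1 : K) * v (some i) + 0 * w (some i)) g := by
    intro g
    congr 2
    funext i
    ring
  have a2 : ∀ g : MvPolynomial σ K, eval (fun i => w (some i)) g =
      eval (fun i => (0 : K) * v (some i) + 1 * w (some i)) g := by
    intro g
    congr 2
    funext i
    ring
  have a3 : ∀ g : MvPolynomial σ K, eval (fun i => w (some i) + v (some i)) g =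
      eval (fun i => (1 : K) * v (some i) + 1 * w (some i)) g := by
    intro g
    congr 2
    funext i
    ring
  have a4 : ∀ g : MvPolynomial σ K, eval (fun i => w (some i) - v (some i)) g =
      eval (fun i => (-1 : K) * v (some i) + 1 * w (some i)) g := by
    intro g
    congr 2
    funext i
    ring
  rw [gd_ev f hd hP hD _ _ hH hG, a1, a1, a2, a2, a3, a3, a4, hev, hev, hev, hod, hod, hod, hod]
  have b1 : rs (h2 * 1 ^ 2 + h1 * 1 * 0 + h0 * 0 ^ 2)
      (h2 * 1 ^ 2 + h1 * 1 * 1 + h0 * 1 ^ 2 - (h2 * 1 ^ 2 + h1 * 1 * 0 + h0 * 0 ^ 2) -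
        (h2 * 0 ^ 2 + h1 * 0 * 1 + h0 * 1 ^ 2)) (h2 * 0 ^ 2 + h1 * 0 * 1 + h0 * 1 ^ 2)
      (c3 * 1 ^ 3 + c2 * 1 ^ 2 * 0 + c1 * 1 * 0 ^ 2 + c0 * 0 ^ 3)
      ((c3 * 1 ^ 3 + c2 * 1 ^ 2 * 1 + c1 * 1 * 1 ^ 2 + c0 * 1 ^ 3 +
        (c3 * (-1) ^ 3 + c2 * (-1) ^ 2 * 1 + c1 * (-1) * 1 ^ 2 + c0 * 1 ^ 3)) / 2 -
        (c3 * 0 ^ 3 + c2 * 0 ^ 2 * 1 + c1 * 0 * 1 ^ 2 + c0 * 1 ^ 3))
      ((c3 * 1 ^ 3 + c2 * 1 ^ 2 * 1 + c1 * 1 * 1 ^ 2 + c0 * 1 ^ 3 -
        (c3 * (-1) ^ 3 + c2 * (-1) ^ 2 * 1 + c1 * (-1) * 1 ^ 2 + c0 * 1 ^ 3)) / 2 -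
        (c3 * 1 ^ 3 + c2 * 1 ^ 2 * 0 + c1 * 1 * 0 ^ 2 + c0 * 0 ^ 3))
      (c3 * 0 ^ 3 + c2 * 0 ^ 2 * 1 + c1 * 0 * 1 ^ 2 + c0 * 1 ^ 3) =
      rs h2 h1 h0 c3 c2 c1 c0 := by
    congr 1 <;> ring
  rw [b1]
  have b2 : h2 * 1 ^ 2 + h1 * 1 * 0 + h0 * 0 ^ 2 = h2 := by ring
  rw [b2]
  have hrs : rs h2 h1 h0 c3 c2 c1 c0 ≠ 0 := by
    intro h0'
    obtain ⟨A, B, hAB⟩ := hcop
    have hB := fun T : K => rs_bezout h2 h1 h0 c3 c2 c1 c0 T
    by_cases ha : al h2 h1 h0 c3 c2 c1 = 0
    · have hb : be h2 h1 h0 c3 c2 c0 = 0 := by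
        have : (be h2 h1 h0 c3 c2 c0) ^ 2 * h2 = 0 := by
          have h3 := h0'
          unfold rs at h3
          rw [ha] at h3
          linear_combination h3
        exact pow_eq_zero_iff (two_ne_zero) |>.1 ((mul_eq_zero.1 this).resolve_right hh)
      -- the quadratic divides the cubic
      have h3 : (Polynomial.C h2 * Polynomial.X ^ 2 + Polynomial.C h1 * Polynomial.X +
          Polynomial.C h0) ∣ Polynomial.C (h2 ^ 2) * (Polynomial.C c3 * Polynomial.X ^ 3 +
          Polynomial.C c2 * Polynomial.X ^ 2 + Polynomial.C c1 * Polynomial.X +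
          Polynomial.C c0) := by
        refine ⟨Polynomial.C (h2 * c3) * Polynomial.X + Polynomial.C (h2 * c2 - c3 * h1), ?_⟩
        have h4 : Polynomial.C (al h2 h1 h0 c3 c2 c1) = (0 : Polynomial K) := by rw [ha, map_zero]
        have h5 : Polynomial.C (be h2 h1 h0 c3 c2 c0) = (0 : Polynomial K) := by rw [hb, map_zero]
        unfold al at h4
        unfold be at h5
        simp only [map_add, map_sub, map_mul, map_pow] at h4 h5 ⊢
        linear_combination Polynomial.X * h4 + h5
      have h4 : (Polynomial.C h2 * Polynomial.X ^ 2 + Polynomial.C h1 * Polynomial.X +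
          Polynomial.C h0) ∣ Polynomial.C (h2 ^ 2) := by
        have h5 : Polynomial.C (h2 ^ 2) = Polynomial.C (h2 ^ 2) * (A * (Polynomial.C h2 *
            Polynomial.X ^ 2 + Polynomial.C h1 * Polynomial.X + Polynomial.C h0)) +
            B * (Polynomial.C (h2 ^ 2) * (Polynomial.C c3 * Polynomial.X ^ 3 +
            Polynomial.C c2 * Polynomial.X ^ 2 + Polynomial.C c1 * Polynomial.X +
            Polynomial.C c0)) := by
          linear_combination -Polynomial.C (h2 ^ 2) * hAB
        rw [h5]
        exact dvd_add ((Dvd.intro_left _ rfl).mul_left _) (h3.mul_left _)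
      have h5 := Polynomial.natDegree_le_of_dvd h4 (by
        rw [Ne, Polynomial.C_eq_zero]
        exact pow_ne_zero _ hh)
      rw [Polynomial.natDegree_C, Polynomial.natDegree_quadratic hh] at h5
      omega
    · -- a common root
      set T := be h2 h1 h0 c3 c2 c0 / -al h2 h1 h0 c3 c2 c1 with hT
      have hT' : al h2 h1 h0 c3 c2 c1 * T + be h2 h1 h0 c3 c2 c0 = 0 := by
        rw [hT]
        field_simp
        ring
      have h3 : h2 * T ^ 2 + h1 * T + h0 = 0 := by
        have h4 : (al h2 h1 h0 c3 c2 c1) ^ 2 * (h2 * T ^ 2 + h1 * T + h0) = 0 := by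
          have h5 : (al h2 h1 h0 c3 c2 c1) ^ 2 * (h2 * T ^ 2 + h1 * T + h0) =
              (al h2 h1 h0 c3 c2 c1 * T + be h2 h1 h0 c3 c2 c0) *
                (al h2 h1 h0 c3 c2 c1 * h2 * T + al h2 h1 h0 c3 c2 c1 * h1 -
                  be h2 h1 h0 c3 c2 c0 * h2) + rs h2 h1 h0 c3 c2 c1 c0 := by
            unfold rs
            ring
          rw [h5, hT', h0']
          ring
        exact (mul_eq_zero.1 h4).resolve_left (pow_ne_zero _ ha)
      have h4 : c3 * T ^ 3 + c2 * T ^ 2 + c1 * T + c0 = 0 := by
        have h5 : h2 ^ 2 * (c3 * T ^ 3 + c2 * T ^ 2 + c1 * T + c0) =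
            (h2 * c3 * T + h2 * c2 - c3 * h1) * (h2 * T ^ 2 + h1 * T + h0) +
              (al h2 h1 h0 c3 c2 c1 * T + be h2 h1 h0 c3 c2 c0) := by
          unfold al be
          ring
        rw [h3, hT', mul_zero, add_zero] at h5
        exact (mul_eq_zero.1 h5).resolve_left (pow_ne_zero _ hh)
      have h5 := congrArg (Polynomial.eval T) hAB
      simp only [Polynomial.eval_add, Polynomial.eval_mul, Polynomial.eval_C, Polynomial.eval_X,
        Polynomial.eval_pow, Polynomial.eval_one] at h5
      rw [h3, h4] at h5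
      simp at h5
  exact mul_ne_zero (mul_ne_zero hD (mul_ne_zero (mul_ne_zero two_ne_zero (pow_ne_zero _ hD)) hh))
    (mul_ne_zero (mul_ne_zero (pow_ne_zero _ (mul_ne_zero two_ne_zero (pow_ne_zero _ hD)))
      (pow_ne_zero _ (mul_ne_zero two_ne_zero (pow_ne_zero _ hD)))) hrs)

end Pool.Agent.X95T.CH
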