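import Pool.Agent.X95T.KA6
import Pool.Agent.X95T.LA6

/-!
# Blocks: cubic hypersurfaces
-/

set_option autoImplicit false
set_option linter.unusedSectionVars false

open MvPolynomial Pool.Agent.Y718.FQ

namespace Pool.Agent.X95T.CH

open Pool.Agent.X95T.WQ

/-- the cubic polynomials with a good plane section -/
def HasSec {K : Type} [Field K] {n : ℕ} (f : MvPolynomial (Fin (n + 1)) K) : Prop :=
  ∃ (P v w : Fin (n + 1) → K) (h2 h1 h0 c3 c2 c1 c0 : K),
    (∃ i, eval P (pderiv i f) ≠ 0) ∧ h2 ≠ 0 ∧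
    IsCoprime (Polynomial.C h2 * Polynomial.X ^ 2 + Polynomial.C h1 * Polynomial.X +
      Polynomial.C h0) (Polynomial.C c3 * Polynomial.X ^ 3 + Polynomial.C c2 * Polynomial.X ^ 2 +
      Polynomial.C c1 * Polynomial.X + Polynomial.C c0) ∧
    ∀ s t : K, eval (fun i => P i + s * v i + t * w i) f =
      (h2 * s ^ 2 + h1 * s * t + h0 * t ^ 2) +
      (c3 * s ^ 3 + c2 * s ^ 2 * t + c1 * s * t ^ 2 + c0 * t ^ 3)

variable {K : Type} [Field K] [CharZero K] {O : Set K}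

/-- **cubic hypersurfaces** -/
theorem cubic_cp (hO : Pool.Agent.TH783.CE.Flat O) {n : ℕ} {f : MvPolynomial (Fin (n + 1)) K}
    (hd : f.totalDegree ≤ 3) (hs : HasSec f) : CP O {y : Fin (n + 1) → K | eval y f = 0} := by
  classical
  obtain ⟨P, v, w, h2, h1, h0, c3, c2, c1, c0, ⟨i0, hi0⟩, hh, hcop, hf⟩ := hs
  let e : Option {i : Fin (n + 1) // i ≠ i0} ≃ Fin (n + 1) := Equiv.optionSubtypeNe i0
  have he : e none = i0 := Equiv.optionSubtypeNe_none i0
  have hev : ∀ (g : MvPolynomial (Fin (n + 1)) K) (y : Fin (n + 1) → K),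
      eval (fun o => y (e o)) (rename e.symm g) = eval y g := by
    intro g y
    rw [eval_rename]
    congr 2
    funext i
    simp
  have hpd : pderiv none (rename e.symm f) = rename e.symm (pderiv i0 f) := by
    rw [← pderiv_rename e.symm.injective]
    congr 2
    exact (e.symm_apply_eq.2 he.symm).symm
  have hd' : (rename e.symm f).totalDegree ≤ 3 := (totalDegree_rename_le _ _).trans hd
  obtain ⟨g1, g2⟩ := good_of (f := rename e.symm f) hd' (P := fun o => P (e o))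
    (v := fun o => v (e o)) (w := fun o => w (e o)) (by rw [hpd, hev]; exact hi0) hh hcop
    (fun s t => by
      rw [← hf s t, ← hev f])
  have h3 := (cp_cubic hd' g1 g2 hO).reindex e
  have h4 : {x : Fin (n + 1) → K | (fun i => x (e i)) ∈
      {P : Option {i : Fin (n + 1) // i ≠ i0} → K | eval P (rename e.symm f) = 0}} =
      {y : Fin (n + 1) → K | eval y f = 0} := by
    ext y
    show eval (fun o => y (e o)) (rename e.symm f) = 0 ↔ _
    rw [hev]
    rfl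
  rw [h4] at h3
  exact h3

/-- the basic sets -/
def Bs {K : Type} [Field K] {n : ℕ} (S : Set (Fin (n + 1) → K)) : Prop :=
  S = Set.univ ∨
  (2 ≤ n ∧ ∃ F : MvPolynomial (Fin (n + 1)) K, F.IsHomogeneous 4 ∧
    (∀ y : Fin (n + 1) → AlgebraicClosure K, (∀ i, aeval y (pderiv i F) = 0) → y = 0) ∧
    S = {y | y 0 ^ 2 = eval (Function.update y 0 1) F ∧ y 0 ≠ 0}) ∨ IsWQ S ∨
  ∃ f : MvPolynomial (Fin (n + 1)) K, f.totalDegree ≤ 3 ∧ HasSec f ∧ S = {y | eval y f = 0}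

theorem Bs.fcp (hO : Pool.Agent.TH783.CE.Flat O) (φ : K →+* ℂ) {n : ℕ}
    {S : Set (Fin (n + 1) → K)} (hS : Bs S) : FCP O S := by
  rcases hS with hS | hS | hS | ⟨f, hf, hs, rfl⟩
  · exact Blk.fcp Pool.Agent.Y48.FQ.seq Pool.Agent.Y349.FQ.mvf Pool.Agent.Y67.FQ.line bd hO φ
      (Or.inl hS)
  · exact Blk.fcp Pool.Agent.Y48.FQ.seq Pool.Agent.Y349.FQ.mvf Pool.Agent.Y67.FQ.line bd hO φ
      (Or.inr hS)
  · exact hS.fcp hO
  · exact (cubic_cp hO hf hs).fcp

/-- the blocks: the sets dominated by products of basic sets -/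
def Bk {K : Type} [Field K] {m : ℕ} (T : Set (Fin (m + 1) → K)) : Prop :=
  ∃ (r : ℕ) (n : Fin r → ℕ) (S : ∀ j, Set (Fin (n j + 1) → K))
    (F : Fin (m + 1) → MvPolynomial ((j : Fin r) × Fin (n j + 1)) K)
    (D : MvPolynomial ((j : Fin r) × Fin (n j + 1)) K), (∀ j, Bs (S j)) ∧
    (∀ x : (j : Fin r) × Fin (n j + 1) → K, (∀ j, (fun i => x ⟨j, i⟩) ∈ S j) →
      eval x D ≠ 0 → (fun i => eval x (F i) / eval x D) ∈ T) ∧
    ∀ g : MvPolynomial (Fin (m + 1)) K,
      (∀ x : (j : Fin r) × Fin (n j + 1) → K, (∀ j, (fun i => x ⟨j, i⟩) ∈ S j) →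
        eval x D ≠ 0 → eval (fun i => eval x (F i) / eval x D) g = 0) →
      ∀ y ∈ T, eval y g = 0

theorem Bk.fcp (hO : Pool.Agent.TH783.CE.Flat O) (φ : K →+* ℂ) {n : ℕ}
    {S : Set (Fin (n + 1) → K)} (hS : Bk S) : FCP O S := by
  obtain ⟨r, n, S, F, D, hS, h1, h2⟩ := hS
  exact WQ.FCP.dom (FCP.pi Pool.Agent.Y394.FQ.pi fun j => (hS j).fcp hO φ) F D h1 h2

/-- **The set of the values of a rational function at the points of a product of blocks is finite if
it is contained in a flat set.** -/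
theorem fin_vals (hO : Pool.Agent.TH783.CE.Flat O) (φ : K →+* ℂ) {b : ℕ} {n : Fin b → ℕ}
    {S : ∀ j, Set (Fin (n j + 1) → K)} (hS : ∀ j, Bk (S j))
    (p q : MvPolynomial ((j : Fin b) × Fin (n j + 1)) K)
    (h : ∀ t, (∃ x : (j : Fin b) × Fin (n j + 1) → K, (∀ j, (fun r => x ⟨j, r⟩) ∈ S j) ∧
      eval x q ≠ 0 ∧ t = eval x p / eval x q) → t ∈ O) :
    {t | ∃ x : (j : Fin b) × Fin (n j + 1) → K, (∀ j, (fun r => x ⟨j, r⟩) ∈ S j) ∧
      eval x q ≠ 0 ∧ t = eval x p / eval x q}.Finite :=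
  (FCP.pi Pool.Agent.Y394.FQ.pi fun j => (hS j).fcp hO φ).values p q
    fun x hx hq => h _ ⟨x, hx, hq, rfl⟩

end Pool.Agent.X95T.CH
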