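import Pool.Agent.X95T.K

set_option autoImplicit false

open IntermediateField

namespace Pool.Agent.X95T

open Pool.Agent.Results.MP_821da1_nt.RepulsionAllCurves (CoordRing AtInfinity OnePlace)

/-- If `F (x, a z ^ n) = 0` has only one place at infinity, its residue field contains a subfield of
degree at least three (leading form of degree two without rational factors). -/
theorem key2 {n k δ : ℕ} (hn : 2 ≤ n) (hk : 1 ≤ k) (hδ : 1 ≤ δ) (hkn : Nat.Coprime k n)
    (a : ℤ) (ha : a ≠ 0) (α β : ℤ) (hαβ : ∀ q : ℚ, q ^ 2 + α * q + β ≠ 0)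
    (F : MvPolynomial (Fin 2) ℤ)
    (hF : ∀ s ∈ (F - MvPolynomial.X 1 ^ (2 * k) -
      MvPolynomial.C α * MvPolynomial.X 1 ^ k * MvPolynomial.X 0 ^ (n * δ) -
      MvPolynomial.C β * MvPolynomial.X 0 ^ (2 * (n * δ))).support,
      k * s 0 + (n * δ) * s 1 < 2 * (n * δ) * k)
    (hirr : Irreducible (MvPolynomial.map (Int.castRingHom ℚ) (sub a n F)))
    (g : Polynomial ℚ) (hG : OnePlace (sub a n F) g) (η : ℝ) (hη : Polynomial.aeval η g = 0) :
    ∃ θ : ℝ, ((a : ℝ) ^ k * θ ^ n) ^ 2 + α * ((a : ℝ) ^ k * θ ^ n) + β = 0 ∧ θ ∈ ℚ⟮η⟯ ∧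
      3 ≤ Module.finrank ℚ ℚ⟮θ⟯ := by
  obtain ⟨hgm, hgi, L, fL, aL, frL, A, hA, ⟨e⟩⟩ := hG
  have hβ0 : β ≠ 0 := by
    rintro rfl
    exact hαβ 0 (by simp)
  have hprime : (Ideal.span {MvPolynomial.map (Int.castRingHom ℚ) (sub a n F)}).IsPrime :=
    (Ideal.span_singleton_prime hirr.ne_zero).2 hirr.prime
  have hdom : IsDomain (CoordRing (sub a n F)) := Ideal.Quotient.isDomain _
  obtain ⟨ι, hι⟩ : ∃ ι : CoordRing (sub a n F) →+* L, ι = algebraMap _ L := ⟨_, rfl⟩
  have hc0 : CharZero L := charZero_of_injective_ringHom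
    (f := ι.comp (algebraMap ℚ (CoordRing (sub a n F)))) (RingHom.injective _)
  have hcast : ∀ q : ℚ, ι (algebraMap ℚ (CoordRing (sub a n F)) q) = (q : L) := fun q =>
    eq_ratCast (ι.comp (algebraMap ℚ (CoordRing (sub a n F)))) q
  obtain ⟨x, hx⟩ : ∃ x : L, x = ι (Ideal.Quotient.mk _ (MvPolynomial.X 0)) := ⟨_, rfl⟩
  obtain ⟨z, hz⟩ : ∃ z : L, z = ι (Ideal.Quotient.mk _ (MvPolynomial.X 1)) := ⟨_, rfl⟩
  have hAI : AtInfinity (sub a n F) L A := (hA A).2 rfl
  have hQ : ∀ q : ℚ, (q : L) ∈ A := fun q => by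
    rw [← hcast, hι]
    exact hAI.1 q
  -- the equation
  have hG0 : ι (Ideal.Quotient.mk _ (MvPolynomial.map (Int.castRingHom ℚ) (sub a n F))) = 0 := by
    rw [Ideal.Quotient.eq_zero_iff_mem.2 (Ideal.mem_span_singleton_self _), map_zero]
  have hF0 : MvPolynomial.aeval ![x, (a : L) * z ^ n] F = 0 := by
    refine (aeval_sub a n F x z).symm.trans ?_
    rw [hx, hz]
    exact (hom_map (ι.comp (Ideal.Quotient.mk _)) (sub a n F)).symm.trans hG0
  obtain ⟨y, hy⟩ : ∃ y : L, y = (a : L) * z ^ n := ⟨_, rfl⟩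
  rw [← hy] at hF0
  have hvI : ∀ c : ℤ, c ≠ 0 → A.valuation (c : L) = 1 := by
    intro c hc
    have h1 : ((c : ℚ) : L) = (c : L) := by simp
    rw [← h1]
    exact val_rat hQ (by exact_mod_cast hc)
  have hva : A.valuation (a : L) = 1 := hvI a ha
  have hZ : ∀ c : ℤ, A.valuation (c : L) ≤ 1 := by
    intro c
    have : ((c : ℚ) : L) = (c : L) := by simp
    rw [← this]
    exact (A.valuation_le_one_iff _).2 (hQ _)
  have hvy : A.valuation y = A.valuation z ^ n := by rw [hy, map_mul, hva, one_mul, map_pow]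
  have hN : 1 ≤ n * δ := Nat.mul_pos (by omega) hδ
  have hxy : 1 < A.valuation x ∨ 1 < A.valuation y := by
    obtain ⟨i, hi⟩ := hAI.2
    rw [← hι] at hi
    fin_cases i
    · left
      rw [← not_le, A.valuation_le_one_iff, hx]
      exact hi
    · right
      rw [hvy]
      apply one_lt_pow₀ _ (by omega)
      rw [← not_le, A.valuation_le_one_iff, hz]
      exact hi
  obtain ⟨hvx1, hvy1, hveq, hlead⟩ := lead2 A.valuation hN hk hZ α β (hvI β hβ0) F hF x y hxy hF0
  have hx0 : x ≠ 0 := by rintro rfl; simp at hvx1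
  have hy0 : y ≠ 0 := by rintro rfl; simp at hvy1
  have hz0 : z ≠ 0 := by
    rintro rfl
    rw [hvy, map_zero, zero_pow (by omega)] at hvy1
    exact absurd hvy1 (not_lt.2 zero_le)
  have haL0 : (a : L) ≠ 0 := by exact_mod_cast ha
  obtain ⟨h, hh⟩ : ∃ h : L, h = z ^ k / x ^ δ := ⟨_, rfl⟩
  have hhn : (a : L) ^ k * h ^ n = y ^ k / x ^ (n * δ) := by
    rw [hh, hy, div_pow, ← pow_mul, ← pow_mul, mul_pow, ← pow_mul, mul_comm δ n, mul_comm k n,
      mul_div_assoc]
  rw [← hhn] at hlead
  have hvh : A.valuation h = 1 := by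
    have h1 : A.valuation (h ^ n) = 1 := by
      have h2 : A.valuation ((a : L) ^ k * h ^ n) = 1 := by
        rw [hhn, map_div₀, map_pow, map_pow, ← hveq]
        have : A.valuation x ≠ 0 := (lt_trans zero_lt_one hvx1).ne'
        exact div_self (pow_ne_zero _ this)
      rwa [map_mul, map_pow, hva, one_pow, one_mul] at h2
    rw [map_pow] at h1
    exact pow_one (by omega) h1
  have hhA : h ∈ A := (A.valuation_le_one_iff _).1 hvh.le
  obtain ⟨hA1, hhA1⟩ : ∃ t : A, t = ⟨h, hhA⟩ := ⟨_, rfl⟩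
  have hres : ((a : IsLocalRing.ResidueField A) ^ k * IsLocalRing.residue A hA1 ^ n) ^ 2 +
      α * ((a : IsLocalRing.ResidueField A) ^ k * IsLocalRing.residue A hA1 ^ n) + β = 0 := by
    have h1 : IsLocalRing.residue A (((a : A) ^ k * hA1 ^ n) ^ 2 + α * ((a : A) ^ k * hA1 ^ n) + β)
        = 0 := by
      rw [IsLocalRing.residue_eq_zero_iff, A.valuation_lt_one_iff, hhA1]
      push_cast
      exact hlead
    simpa using h1
  obtain ⟨φ, hφ⟩ : ∃ φ : AdjoinRoot g →+* ℝ, φ = AdjoinRoot.lift (algebraMap ℚ ℝ) η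
      (by rw [← Polynomial.aeval_def]; exact hη) := ⟨_, rfl⟩
  obtain ⟨Φ, hΦ⟩ : ∃ Φ : IsLocalRing.ResidueField A →+* ℝ, Φ = φ.comp e.toRingHom := ⟨_, rfl⟩
  obtain ⟨θ, hθ⟩ : ∃ θ : ℝ, θ = Φ (IsLocalRing.residue A hA1) := ⟨_, rfl⟩
  have hθn : ((a : ℝ) ^ k * θ ^ n) ^ 2 + α * ((a : ℝ) ^ k * θ ^ n) + β = 0 := by
    have h1 := congrArg Φ hres
    rw [hθ]
    simpa using h1
  refine ⟨θ, hθn, ?_, ?_⟩
  · obtain ⟨p, hp⟩ := AdjoinRoot.mk_surjective (e (IsLocalRing.residue A hA1))
    have h1 : θ = Polynomial.aeval η p := by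
      rw [hθ, hΦ, RingHom.comp_apply]
      show φ (e (IsLocalRing.residue A hA1)) = _
      rw [← hp, hφ, AdjoinRoot.lift_mk, Polynomial.aeval_def]
    rw [h1]
    exact IntermediateField.algebra_adjoin_le_adjoin ℚ {η}
      (Polynomial.aeval_mem_adjoin_singleton ℚ η)
  · -- `θ` is algebraic
    have hθ0 : θ ≠ 0 := by
      intro h
      rw [hθ] at h
      have h1 : IsLocalRing.residue A hA1 = 0 := Φ.injective (by rw [h, map_zero])
      rw [IsLocalRing.residue_eq_zero_iff, A.valuation_lt_one_iff, hhA1] at h1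
      exact absurd hvh h1.ne
    have hint : IsIntegral ℚ θ := by
      have haR : (a : ℝ) ≠ 0 := by exact_mod_cast ha
      have hw : IsIntegral ℚ ((a : ℝ) ^ k * θ ^ n) := by
        refine ⟨Polynomial.X ^ 2 + (Polynomial.C (α : ℚ) * Polynomial.X + Polynomial.C (β : ℚ)),
          ?_, ?_⟩
        · apply Polynomial.monic_X_pow_add
          exact lt_of_le_of_lt Polynomial.degree_linear_le (by norm_num)
        · rw [Polynomial.eval₂_add, Polynomial.eval₂_pow, Polynomial.eval₂_X, Polynomial.eval₂_add,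
            Polynomial.eval₂_mul, Polynomial.eval₂_C, Polynomial.eval₂_C, Polynomial.eval₂_X,
            eq_ratCast, eq_ratCast, ← hθn]
          push_cast
          ring
      have hθn' : IsIntegral ℚ (θ ^ n) := by
        have h1 : θ ^ n = algebraMap ℚ ℝ (((a : ℚ) ^ k)⁻¹) * ((a : ℝ) ^ k * θ ^ n) := by
          rw [← mul_assoc]
          have : algebraMap ℚ ℝ (((a : ℚ) ^ k)⁻¹) * (a : ℝ) ^ k = 1 := by
            rw [eq_ratCast]
            push_cast
            exact inv_mul_cancel₀ (pow_ne_zero _ haR)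
          rw [this, one_mul]
        rw [h1]
        exact isIntegral_algebraMap.mul hw
      exact hθn'.of_pow (by omega)
    rw [IntermediateField.adjoin.finrank hint]
    by_contra hdeg
    rw [not_le] at hdeg
    obtain ⟨μ, hμ⟩ : ∃ μ, μ = minpoly ℚ θ := ⟨_, rfl⟩
    have hμm : μ.Monic := by rw [hμ]; exact minpoly.monic hint
    have hμd : 0 < μ.natDegree := by rw [hμ]; exact minpoly.natDegree_pos hint
    rw [← hμ] at hdeg
    have hμ0 : Polynomial.aeval θ μ = 0 := by rw [hμ]; exact minpoly.aeval ℚ θ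
    -- the valuation of `μ(h)`
    obtain ⟨cA, hcA⟩ : ∃ cA : ℚ →+* A, ∀ r, ((cA r : A) : L) = (r : L) :=
      ⟨{ toFun := fun r => ⟨(r : L), hQ r⟩
         map_one' := Subtype.ext (by simp)
         map_mul' := fun r s => Subtype.ext (by simp)
         map_zero' := Subtype.ext (by simp)
         map_add' := fun r s => Subtype.ext (by simp) }, fun r => rfl⟩
    have hμh : A.valuation (Polynomial.eval₂ (Rat.castHom L) h μ) < 1 := by
      have h1 : IsLocalRing.residue A (Polynomial.eval₂ cA hA1 μ) = 0 := by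
        apply Φ.injective
        rw [map_zero, Polynomial.hom_eval₂, Polynomial.hom_eval₂, ← hθ]
        have h2 : Φ.comp ((IsLocalRing.residue A).comp cA) = algebraMap ℚ ℝ :=
          RingHom.ext fun q => by
            rw [eq_ratCast, eq_ratCast]
        rw [h2, ← Polynomial.aeval_def]
        exact hμ0
      rw [IsLocalRing.residue_eq_zero_iff, A.valuation_lt_one_iff] at h1
      have h2 : ((Polynomial.eval₂ cA hA1 μ : A) : L) = Polynomial.eval₂ (Rat.castHom L) h μ := by
        have h3 : ((Polynomial.eval₂ cA hA1 μ : A) : L) = A.subtype (Polynomial.eval₂ cA hA1 μ) := rfl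
        rw [h3, Polynomial.hom_eval₂]
        have h4 : A.subtype.comp cA = Rat.castHom L := RingHom.ext fun q => by
          rw [eq_ratCast, eq_ratCast]
        have h5 : A.subtype hA1 = h := by rw [hhA1]; rfl
        rw [h4, h5]
      rw [h2] at h1
      exact h1
    obtain ⟨W, hQW, hWle, hWlt, hmov⟩ := moves (by omega) a ha F (supp2 hN hk α β F hF).1 hdom A hA hQ x z
      (by rw [hx, hι]) (by rw [hz, hι]) hvx1
    have hΩ0 : CharZero (AlgebraicClosure L) :=
      charZero_of_injective_algebraMap (algebraMap L (AlgebraicClosure L)).injective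
    obtain ⟨h', hh'⟩ : ∃ h', h' = algebraMap L (AlgebraicClosure L) h := ⟨_, rfl⟩
    have hev : ∀ σ : L →+* AlgebraicClosure L, σ (Polynomial.eval₂ (Rat.castHom L) h μ) =
        Polynomial.eval₂ (Rat.castHom (AlgebraicClosure L)) (σ h) μ := by
      intro σ
      rw [Polynomial.hom_eval₂]
      congr 1
      exact RingHom.ext fun q => by rw [eq_ratCast, eq_ratCast]
    have hroot : ∀ ξ : AlgebraicClosure L, ξ ^ n = 1 →
        W.valuation (Polynomial.eval₂ (Rat.castHom (AlgebraicClosure L)) (ξ ^ k * h') μ) < 1 := by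
      intro ξ hξ
      obtain ⟨σ, hσx, hσz, hσ⟩ := hmov ξ hξ
      have h1 := hσ _ hμh
      rw [hev] at h1
      have h2 : σ h = ξ ^ k * h' := by
        rw [hh', hh, map_div₀, map_div₀, map_pow, map_pow, map_pow, map_pow, hσx, hσz, mul_pow,
          mul_div_assoc]
      rwa [h2] at h1
    have hvh' : W.valuation h' = 1 := by
      have h1 : W.valuation h' ≤ 1 := by
        rw [hh']
        exact hWle h hvh.le
      have h2 : W.valuation h'⁻¹ ≤ 1 := by
        rw [hh', ← map_inv₀]
        apply hWle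
        rw [map_inv₀, hvh, inv_one]
      have h3 : W.valuation h' ≠ 0 := by
        rw [Valuation.ne_zero_iff, hh', Ne, map_eq_zero]
        rintro rfl
        rw [map_zero] at hvh
        exact zero_ne_one hvh
      rw [map_inv₀, inv_le_one₀ (zero_lt_iff.2 h3)] at h2
      exact le_antisymm h1 h2
    -- the primitive root of unity
    have hn0 : (n : AlgebraicClosure L) ≠ 0 := by exact_mod_cast (by omega : n ≠ 0)
    obtain ⟨ζ, hζ⟩ : ∃ ζ : AlgebraicClosure L, IsPrimitiveRoot ζ n := by
      have : NeZero (n : AlgebraicClosure L) := ⟨hn0⟩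
      obtain ⟨ζ, hζ⟩ := IsAlgClosed.exists_root (Polynomial.cyclotomic n (AlgebraicClosure L))
        (Polynomial.degree_cyclotomic_pos n _ (by omega)).ne'
      exact ⟨ζ, Polynomial.isRoot_cyclotomic_iff.1 hζ⟩
    obtain ⟨ξ, hξ⟩ : ∃ ξ, ξ = ζ ^ k := ⟨_, rfl⟩
    have hξp : IsPrimitiveRoot ξ n := by
      rw [hξ]
      exact hζ.pow_of_coprime k hkn
    have hr1 := hroot 1 (one_pow n)
    have hr2 := hroot ζ hζ.pow_eq_one
    have hr3 := hroot (ζ ^ 2) (by rw [← pow_mul, mul_comm, pow_mul, hζ.pow_eq_one, one_pow])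
    rw [one_pow, one_mul] at hr1
    rw [← hξ] at hr2
    have e3 : (ζ ^ 2) ^ k = ξ ^ 2 := by rw [hξ, ← pow_mul, ← pow_mul, mul_comm]
    rw [e3] at hr3
    have hunit : ∀ ρ : AlgebraicClosure L, ρ ^ n = 1 → ρ ≠ 1 → W.valuation (ρ - 1) = 1 := by
      intro ρ hρ hρ1
      have h1 : ¬ W.valuation (ρ - 1) < 1 := root_one hQW (by omega) ρ hρ hρ1
      have h2 : W.valuation ρ = 1 := by
        have := congrArg W.valuation hρ
        rw [map_pow, map_one] at this
        exact pow_one (by omega) this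
      apply le_antisymm _ (not_lt.1 h1)
      refine (Valuation.map_sub _ _ _).trans ?_
      rw [h2, map_one, max_self]
    have hξ1 : W.valuation (ξ - 1) = 1 := hunit ξ hξp.pow_eq_one (hξp.ne_one (by omega))
    have hvξ : W.valuation ξ = 1 := by
      have := congrArg W.valuation hξp.pow_eq_one
      rw [map_pow, map_one] at this
      exact pow_one (by omega) this
    have hdiv : ∀ s t : AlgebraicClosure L, W.valuation s = 1 → W.valuation (s * t) < 1 →
        W.valuation t < 1 := by
      intro s t hs hst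
      rwa [map_mul, hs, one_mul] at hst
    have hrat : ∀ q : ℚ, W.valuation (q : AlgebraicClosure L) < 1 → q = 0 := by
      intro q hq
      by_contra hne
      rw [val_rat hQW hne] at hq
      exact lt_irrefl _ hq
    rcases (by omega : μ.natDegree = 1 ∨ μ.natDegree = 2) with hd | hd
    · -- `θ` rational
      obtain ⟨u, hu⟩ : ∃ u : ℚ, μ = Polynomial.X + Polynomial.C u := by
        refine ⟨μ.coeff 0, ?_⟩
        have h1 := hμm.eq_X_add_C hd
        exact h1
      have h1 : θ = ((-u : ℚ) : ℝ) := by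
        rw [hu] at hμ0
        simp at hμ0
        push_cast
        linarith
      apply hαβ ((a : ℚ) ^ k * (-u) ^ n)
      rw [h1] at hθn
      exact_mod_cast hθn
    · obtain ⟨u, v, huv⟩ : ∃ u v : ℚ, μ = Polynomial.X ^ 2 + Polynomial.C u * Polynomial.X +
          Polynomial.C v := by
        refine ⟨μ.coeff 1, μ.coeff 0, ?_⟩
        have h1 := Polynomial.eq_quadratic_of_degree_le_two (p := μ)
          (by rw [Polynomial.degree_eq_natDegree hμm.ne_zero, hd]; norm_num)
        have h2 : μ.coeff 2 = 1 := by rw [← hd]; exact hμm.coeff_natDegree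
        rw [h2, map_one, one_mul] at h1
        exact h1
      have hE : ∀ t : AlgebraicClosure L, Polynomial.eval₂ (Rat.castHom (AlgebraicClosure L)) t μ =
          t ^ 2 + u * t + v := by
        intro t
        rw [huv]
        simp
      rw [hE] at hr1 hr2 hr3
      have hD1 : W.valuation ((ξ + 1) * h' + u) < 1 := by
        have h1 := Valuation.map_sub_lt _ hr2 hr1
        have e1 : (ξ * h') ^ 2 + u * (ξ * h') + v - (h' ^ 2 + u * h' + v) =
            ((ξ - 1) * h') * ((ξ + 1) * h' + u) := by ring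
        rw [e1] at h1
        exact hdiv _ _ (by rw [map_mul, hξ1, hvh', one_mul]) h1
      rcases (by omega : n = 2 ∨ 3 ≤ n) with h2 | h3
      · subst h2
        have hξm : ξ = -1 := by
          have h1 : (ξ - 1) * (ξ + 1) = 0 := by
            have := hξp.pow_eq_one
            linear_combination this
          rcases mul_eq_zero.1 h1 with h | h
          · exact absurd (sub_eq_zero.1 h) (hξp.ne_one (by omega))
          · linear_combination h
        rw [hξm, neg_add_cancel, zero_mul, zero_add] at hD1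
        have hu0 := hrat u hD1
        have h1 : θ ^ 2 = ((-v : ℚ) : ℝ) := by
          rw [huv, hu0] at hμ0
          simp at hμ0
          push_cast
          linarith
        apply hαβ ((a : ℚ) ^ k * (-v))
        rw [h1] at hθn
        exact_mod_cast hθn
      · have hξ2 : ξ ^ 2 ≠ 1 := by
          intro h
          have := (hξp.pow_eq_one_iff_dvd 2).1 h
          have := Nat.le_of_dvd (by norm_num) this
          omega
        have hv2 := hunit (ξ ^ 2) (by rw [← pow_mul, mul_comm, pow_mul, hξp.pow_eq_one, one_pow]) hξ2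
        have hD2 : W.valuation ((ξ ^ 2 + 1) * h' + u) < 1 := by
          have h1 := Valuation.map_sub_lt _ hr3 hr1
          have e1 : (ξ ^ 2 * h') ^ 2 + u * (ξ ^ 2 * h') + v - (h' ^ 2 + u * h' + v) =
              ((ξ ^ 2 - 1) * h') * ((ξ ^ 2 + 1) * h' + u) := by ring
          rw [e1] at h1
          exact hdiv _ _ (by rw [map_mul, hv2, hvh', one_mul]) h1
        have h1 := Valuation.map_sub_lt _ hD2 hD1
        have e1 : (ξ ^ 2 + 1) * h' + u - ((ξ + 1) * h' + u) = ξ * ((ξ - 1) * h') := by ring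
        rw [e1, map_mul, map_mul, hvξ, hξ1, hvh', one_mul, one_mul] at h1
        exact lt_irrefl _ h1

end Pool.Agent.X95T
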