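import Pool.Agent.X95T.KA5

/-!
# Weighted quartics: local density of the rational points
-/

set_option autoImplicit false
set_option linter.unusedSectionVars false

open MvPolynomial Topology

namespace Pool.Agent.X95T.WQ

section elim

variable {K ι κ : Type} [Field K] [CharZero K] [Fintype ι] [DecidableEq ι] (a : ι → K)
  (f : MvPolynomial κ K) (i0 : ι)

/-- A product of two functions on the variety vanishes only if a factor does. -/
theorem elim' (hf : f ≠ 0) (ha : ∀ i, a i ≠ 0) {i1 : ι} (hi : i1 ≠ i0)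
    (g p : MvPolynomial (ι ⊕ κ) K)
    (hgp : ∀ Z : ι ⊕ κ → AlgebraicClosure K,
      bl a (fun i => Z (Sum.inl i)) (fun i => Z (Sum.inl i)) = aeval (fun j => Z (Sum.inr j)) f →
      aeval Z g * aeval Z p = 0)
    (Z0 : ι ⊕ κ → K)
    (hZ0 : bl a (fun i => Z0 (Sum.inl i)) (fun i => Z0 (Sum.inl i)) =
      aeval (fun j => Z0 (Sum.inr j)) f) (hp : aeval Z0 p ≠ 0) (k : Type) [Field k] [Algebra K k]
    (Z : ι ⊕ κ → k)
    (hZ : bl a (fun i => Z (Sum.inl i)) (fun i => Z (Sum.inl i)) =
      aeval (fun j => Z (Sum.inr j)) f) : aeval Z g = 0 := by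
  obtain ⟨g0, g1, hg⟩ := split a f i0 g
  obtain ⟨p0, p1, hp'⟩ := split a f i0 p
  have key : (g0 ^ 2 - g1 ^ 2 * Dt a f i0) * (p0 ^ 2 - p1 ^ 2 * Dt a f i0) = 0 := by
    apply MvPolynomial.funext
    intro e
    rw [map_zero]
    obtain ⟨s, hs⟩ := IsAlgClosed.exists_pow_nat_eq
      (algebraMap K (AlgebraicClosure K) (eval e (Dt a f i0))) (n := 2) (by norm_num)
    -- the points above `e`
    have hpt : ∀ s' : AlgebraicClosure K, s' ^ 2 = s ^ 2 →
        (algebraMap K (AlgebraicClosure K) (eval e g0) +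
          algebraMap K (AlgebraicClosure K) (eval e g1) * s') *
        (algebraMap K (AlgebraicClosure K) (eval e p0) +
          algebraMap K (AlgebraicClosure K) (eval e p1) * s') = 0 := by
      intro s' hs'
      set Z' : ι ⊕ κ → AlgebraicClosure K := Sum.elim
        (fun i => if h : i = i0 then s' else algebraMap K _ (e (Sum.inl ⟨i, h⟩)))
        (fun j => algebraMap K _ (e (Sum.inr j))) with hZ'
      have h1 : rz i0 Z' = fun t => algebraMap K _ (e t) := by
        funext t
        rcases t with t | t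
        · show (if h : t.1 = i0 then s' else algebraMap K _ (e (Sum.inl ⟨t.1, h⟩))) = _
          rw [dif_neg t.2]
        · rfl
      have h2 : ∀ q : MvPolynomial ({i // i ≠ i0} ⊕ κ) K, aeval (rz i0 Z') q =
          algebraMap K (AlgebraicClosure K) (eval e q) := by
        intro q
        rw [h1]
        exact (aeval_algebraMap_apply (AlgebraicClosure K) e q).trans (by rw [aeval_eq_eval])
      have h3 : Z' (Sum.inl i0) = s' := by
        show (if h : i0 = i0 then s' else _) = s'
        rw [dif_pos rfl]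
      have h4 : Z' (Sum.inl i0) ^ 2 = aeval (rz i0 Z') (Dt a f i0) := by
        rw [h3, hs', hs, h2]
      have h5 := hgp Z' ((on_V_iff a f i0 (ha i0) Z').2 h4)
      rw [hg _ Z' h4, hp' _ Z' h4, h2, h2, h2, h2, h3] at h5
      exact h5
    have e1 := hpt s rfl
    have e2 := hpt (-s) (by ring)
    apply (algebraMap K (AlgebraicClosure K)).injective
    simp only [map_zero, map_mul, map_sub, map_pow]
    rw [← hs]
    linear_combination (algebraMap K (AlgebraicClosure K) (eval e g0) -
          algebraMap K (AlgebraicClosure K) (eval e g1) * s) *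
        (algebraMap K (AlgebraicClosure K) (eval e p0) -
          algebraMap K (AlgebraicClosure K) (eval e p1) * s) * e1
  rcases mul_eq_zero.1 key with h | h
  · have h1 : g1 = 0 := nonsq a f i0 hf ha hi (u := g0) (by linear_combination h)
    have h0 : g0 = 0 := by
      rw [h1] at h
      have : g0 ^ 2 = 0 := by linear_combination h
      exact pow_eq_zero_iff two_ne_zero |>.1 this
    rw [hg k Z ((on_V_iff a f i0 (ha i0) Z).1 hZ), h0, h1]
    simp
  · exfalso
    have h1 : p1 = 0 := nonsq a f i0 hf ha hi (u := p0) (by linear_combination h)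
    have h0 : p0 = 0 := by
      rw [h1] at h
      have : p0 ^ 2 = 0 := by linear_combination h
      exact pow_eq_zero_iff two_ne_zero |>.1 this
    apply hp
    rw [hp' K Z0 ((on_V_iff a f i0 (ha i0) Z0).1 hZ0), h0, h1]
    simp

end elim

section main

variable {K ι κ : Type} [Field K] [CharZero K] [Fintype ι] [Fintype κ]

/-- a function which vanishes on the parametrized points vanishes on the variety -/
theorem closure' [Nontrivial ι] (d : Dat K ι κ) (h : d.Ok) (ha : ∀ i, d.a i ≠ 0)
    (g : MvPolynomial (ι ⊕ κ) K)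
    (hg : ∀ y : κ ⊕ (ι ⊕ ι) → K, aeval y d.den ≠ 0 →
      aeval (fun s => aeval y (d.phi s) / aeval y d.den) g = 0)
    (k : Type) [Field k] [Algebra K k] (Z : ι ⊕ κ → k)
    (hZ : bl d.a (fun i => Z (Sum.inl i)) (fun i => Z (Sum.inl i)) =
      aeval (fun j => Z (Sum.inr j)) d.f) : aeval Z g = 0 := by
  classical
  obtain ⟨i0, i1, hi⟩ := exists_pair_ne ι
  have hf : d.f ≠ 0 := by
    intro h0
    apply h.ne
    unfold Dat.c0
    rw [h0, map_zero]
  obtain ⟨N, G, hG⟩ := clear d.phi d.den g
  have hGd : G * d.den = 0 := by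
    apply MvPolynomial.funext
    intro y
    rw [map_zero, ← aeval_eq_eval, map_mul]
    by_cases hy : aeval y d.den = 0
    · rw [hy, mul_zero]
    · rw [hG K y hy, hg y hy, mul_zero, zero_mul]
  refine elim' d.a d.f i0 hf ha hi.symm g d.psi ?_
    (Sum.elim (fun i => -d.w0 i) d.z0) ?_ ?_ k Z hZ
  · intro Z' hZ'
    by_cases hpsi : aeval Z' d.psi = 0
    · rw [hpsi, mul_zero]
    · obtain ⟨y, hy, hyZ⟩ := d.reach h ha Z' hZ' hpsi
      have hden : d.den ≠ 0 := by
        intro h0
        rw [h0, map_zero] at hy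
        exact hy rfl
      have hG0 : G = 0 := (mul_eq_zero.1 hGd).resolve_right hden
      have h5 := hG _ y hy
      rw [hG0, map_zero, hyZ] at h5
      rw [(mul_eq_zero.1 h5.symm).resolve_left (pow_ne_zero _ hy), zero_mul]
  · show bl d.a (fun i => -d.w0 i) (fun i => -d.w0 i) = aeval (fun j => d.z0 j) d.f
    have e1 : bl d.a (fun i => -d.w0 i) (fun i => -d.w0 i) = bl d.a d.w0 d.w0 := by
      unfold bl
      exact Finset.sum_congr rfl fun i _ => by ring
    rw [e1, h.eq, aeval_eq_eval]
    rfl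
  · rw [d.psi_eval]
    have e0 : (fun j => (Sum.elim (fun i => -d.w0 i) d.z0 : ι ⊕ κ → K) (Sum.inr j) -
        algebraMap K K (d.z0 j)) = fun _ => (0 : K) := by
      funext j
      show d.z0 j - d.z0 j = 0
      ring
    rw [e0, tc_zero _ _ (by norm_num), tc_zero _ _ (by norm_num), tc_zero _ _ (by norm_num)]
    have e1 : bl d.a (d.W0 K) (fun i => (Sum.elim (fun i => -d.w0 i) d.z0 : ι ⊕ κ → K)
        (Sum.inl i)) = -d.c0 := by
      rw [← h.eq]
      unfold bl Dat.W0
      rw [← Finset.sum_neg_distrib]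
      refine Finset.sum_congr rfl fun i _ => ?_
      show d.a i * d.w0 i * -d.w0 i = -(d.a i * d.w0 i * d.w0 i)
      ring
    rw [e1]
    have hc := h.ne
    show d.c0 * (4 * d.c0 + 3 * 0 + 2 * 0 + 0) - (4 * d.c0 + 0) * -d.c0 ≠ 0
    have : d.c0 * (4 * d.c0 + 3 * 0 + 2 * 0 + 0) - (4 * d.c0 + 0) * -d.c0 = 8 * d.c0 ^ 2 := by
      ring
    rw [this]
    exact mul_ne_zero (by norm_num) (pow_ne_zero 2 hc)

end main

section top

variable {K : Type} [Field K] {L : Type} [NontriviallyNormedField L] (σ : K →+* L)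

lemma ev2 {τ : Type} (y : τ → K) (p : MvPolynomial τ K) :
    eval₂ σ (fun i => σ (y i)) p = σ (eval y p) := by
  induction p using MvPolynomial.induction_on with
  | C c => rw [eval₂_C, eval_C]
  | add p q hp hq => rw [eval₂_add, hp, hq, map_add, map_add]
  | mul_X p i hp => rw [eval₂_mul, hp, eval₂_X, map_mul, map_mul, eval_X]

lemma cont2 {τ : Type} (p : MvPolynomial τ K) : Continuous fun x : τ → L => eval₂ σ x p := by
  have h : (fun x : τ → L => eval₂ σ x p) = fun x => eval x (map σ p) := by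
    funext x
    rw [eval_map]
  rw [h]
  exact MvPolynomial.continuous_eval _

variable {σ}

lemma inf_near (hσ : DenseRange σ) {V : Set L} (hV : V ∈ 𝓝 (0 : L)) :
    {s : K | σ s ∈ V}.Infinite := by
  intro hfin
  have h1 : (σ '' {s : K | σ s ∈ V} \ {0}).Finite := (hfin.image σ).subset fun _ h => h.1
  have h2 : IsClosed (σ '' {s : K | σ s ∈ V} \ {0}) := h1.isClosed
  have h3 : interior V ∩ (σ '' {s : K | σ s ∈ V} \ {0})ᶜ ∈ 𝓝 (0 : L) := by
    refine Filter.inter_mem (interior_mem_nhds.2 hV) (h2.isOpen_compl.mem_nhds ?_)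
    exact fun h => h.2 rfl
  -- the punctured neighbourhood
  have h4 : (interior V ∩ (σ '' {s : K | σ s ∈ V} \ {0})ᶜ ∩ {0}ᶜ).Nonempty := by
    have h5 : interior V ∩ (σ '' {s : K | σ s ∈ V} \ {0})ᶜ ∩ {0}ᶜ ∈ 𝓝[≠] (0 : L) :=
      Filter.inter_mem (mem_nhdsWithin_of_mem_nhds h3) self_mem_nhdsWithin
    exact Filter.nonempty_of_mem h5
  have h5 : IsOpen (interior V ∩ (σ '' {s : K | σ s ∈ V} \ {0})ᶜ ∩ ({0}ᶜ : Set L)) :=
    (isOpen_interior.inter h2.isOpen_compl).inter isOpen_compl_singleton
  obtain ⟨s, hs⟩ := hσ.exists_mem_open h5 h4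
  have h6 : σ s ∈ V := interior_subset hs.1.1
  exact hs.1.2 ⟨⟨s, h6, rfl⟩, hs.2⟩

omit [NontriviallyNormedField L] in
lemma aev_poly {τ : Type} (w : τ → Polynomial K) (G : MvPolynomial τ K) (s : K) :
    (aeval w G).eval s = eval (fun i => (w i).eval s) G := by
  induction G using MvPolynomial.induction_on with
  | C c =>
    rw [aeval_C, eval_C]
    exact Polynomial.eval_C
  | add p q hp hq => rw [map_add, Polynomial.eval_add, hp, hq, map_add]
  | mul_X p i hp => rw [map_mul, Polynomial.eval_mul, hp, aeval_X, map_mul, eval_X]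

/-- a polynomial vanishing at the `K`-points in an open set -/
lemma zero_of_nhds {τ : Type} [Finite τ] [CharZero K] (hσ : DenseRange σ) {x : τ → L}
    {U : Set (τ → L)} (hU : U ∈ 𝓝 x) {G : MvPolynomial τ K}
    (hG : ∀ y : τ → K, (fun i => σ (y i)) ∈ U → eval y G = 0) : G = 0 := by
  have hden : DenseRange fun y : τ → K => fun i => σ (y i) := by
    have := DenseRange.piMap (fun _ : τ => hσ)
    exact this
  obtain ⟨y1, hy1⟩ := hden.exists_mem_open isOpen_interior ⟨x, mem_interior_iff_mem_nhds.2 hU⟩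
  apply MvPolynomial.funext
  intro v
  rw [map_zero]
  -- the line
  have hP : ∀ s : K, (aeval (fun i => Polynomial.C (y1 i) + Polynomial.C (v i - y1 i) *
      Polynomial.X) G).eval s = eval (fun i => y1 i + s * (v i - y1 i)) G := by
    intro s
    rw [aev_poly]
    congr 2
    funext i
    simp
    ring
  have hcont : Continuous fun s : L => fun i => σ (y1 i) + s * σ (v i - y1 i) := by fun_prop
  have h1 : (fun s : L => fun i => σ (y1 i) + s * σ (v i - y1 i)) ⁻¹' interior U ∈ 𝓝 (0 : L) := by
    refine hcont.continuousAt.preimage_mem_nhds (isOpen_interior.mem_nhds ?_)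
    simpa using hy1
  have h2 := inf_near hσ h1
  have h3 : (aeval (fun i => Polynomial.C (y1 i) + Polynomial.C (v i - y1 i) *
      Polynomial.X) G : Polynomial K) = 0 := by
    refine Polynomial.eq_zero_of_infinite_isRoot _ (h2.mono fun s hs => ?_)
    show (aeval (fun i => Polynomial.C (y1 i) + Polynomial.C (v i - y1 i) *
      Polynomial.X) G : Polynomial K).eval s = 0
    rw [hP]
    refine hG _ (interior_subset ?_)
    have h4 : (fun i => σ (y1 i) + σ s * σ (v i - y1 i)) ∈ interior U := hs
    have h5 : (fun i => σ (y1 i + s * (v i - y1 i))) =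
        fun i => σ (y1 i) + σ s * σ (v i - y1 i) := by
      funext i
      rw [map_add, map_mul]
    rw [h5]
    exact h4
  have h4 := hP 1
  rw [h3, Polynomial.eval_zero] at h4
  rw [h4]
  congr 2
  funext i
  ring

end top

end Pool.Agent.X95T.WQ
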