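import Pool.Agent.X95T.MA1

/-!
# Weighted quartics: local density of the rational points
-/

set_option autoImplicit false
set_option linter.unusedSectionVars false

open MvPolynomial Topology

namespace Pool.Agent.X95T.WQ

variable {K : Type} [Field K] [CharZero K] {L : Type} [NontriviallyNormedField L] {σ : K →+* L}
  {ι κ : Type} [Fintype ι] [Fintype κ]

/-- **Local density.** The `K`-points near a `K`-point with `f ≠ 0` are Zariski dense. -/
theorem locdens [Nontrivial ι] (hσ : DenseRange σ) (d : Dat K ι κ) (h : d.Ok)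
    (ha : ∀ i, d.a i ≠ 0) {U : Set (ι ⊕ κ → L)}
    (hU : U ∈ 𝓝 (fun s => σ ((Sum.elim d.w0 d.z0 : ι ⊕ κ → K) s))) (g : MvPolynomial (ι ⊕ κ) K)
    (hg : ∀ Z : ι ⊕ κ → K, bl d.a (fun i => Z (Sum.inl i)) (fun i => Z (Sum.inl i)) =
      aeval (fun j => Z (Sum.inr j)) d.f → (fun s => σ (Z s)) ∈ U → aeval Z g = 0)
    (k : Type) [Field k] [Algebra K k] (Z : ι ⊕ κ → k)
    (hZ : bl d.a (fun i => Z (Sum.inl i)) (fun i => Z (Sum.inl i)) =
      aeval (fun j => Z (Sum.inr j)) d.f) : aeval Z g = 0 := by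
  classical
  obtain ⟨u, hu0, hu1⟩ := d.exists_perp h ha
  set y0 : κ ⊕ (ι ⊕ ι) → K := Sum.elim (fun _ => 0) (Sum.elim (fun _ => 0) u) with hy0
  have hW : d.W0 K = d.w0 := rfl
  have hbl0 : ∀ b : ι → K, bl d.a b (fun _ => (0 : K)) = 0 := by
    intro b
    unfold bl
    exact Finset.sum_eq_zero fun i _ => by ring
  have hw1 : d.w1 (fun _ => (0 : K)) (fun _ => (0 : K)) = fun _ => (0 : K) := by
    funext i
    unfold Dat.w1
    rw [tc_zero _ _ (by norm_num), hbl0]
    ring
  have hw2 : d.w2 (fun _ => (0 : K)) (fun _ => (0 : K)) u = u := by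
    funext i
    unfold Dat.w2
    rw [tc_zero _ _ (by norm_num), hw1, hbl0, hW, hu0]
    ring
  have hF3 : d.F3 (fun _ => (0 : K)) (fun _ => (0 : K)) u = 0 := by
    unfold Dat.F3
    rw [tc_zero _ _ (by norm_num), hw1, bl_comm, hbl0]
    ring
  have hF4 : d.F4 (fun _ => (0 : K)) (fun _ => (0 : K)) u = bl d.a u u := by
    unfold Dat.F4
    rw [tc_zero _ _ (by norm_num), hw2]
    ring
  have hden0 : aeval y0 d.den ≠ 0 := by
    rw [d.den_eval]
    show d.F4 (fun _ => (0 : K)) (fun _ => (0 : K)) u ^ 2 ≠ 0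
    rw [hF4]
    exact pow_ne_zero _ hu1
  have himg : (fun s => aeval y0 (d.phi s) / aeval y0 d.den) = Sum.elim d.w0 d.z0 := by
    funext s
    rcases s with i | j
    · rw [d.phi_inl y0 hden0 i]
      show d.W0 K i + (-d.F3 (fun _ => (0 : K)) (fun _ => (0 : K)) u /
        d.F4 (fun _ => (0 : K)) (fun _ => (0 : K)) u) * d.w1 (fun _ => (0 : K))
          (fun _ => (0 : K)) i + (-d.F3 (fun _ => (0 : K)) (fun _ => (0 : K)) u /
        d.F4 (fun _ => (0 : K)) (fun _ => (0 : K)) u) ^ 2 * d.w2 (fun _ => (0 : K))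
          (fun _ => (0 : K)) u i = d.w0 i
      rw [hF3, hW]
      ring
    · rw [d.phi_inr y0 hden0 j]
      show algebraMap K K (d.z0 j) + (-d.F3 (fun _ => (0 : K)) (fun _ => (0 : K)) u /
        d.F4 (fun _ => (0 : K)) (fun _ => (0 : K)) u) * 0 = d.z0 j
      rw [mul_zero, add_zero]
      rfl
  -- continuity
  have hden1 : eval₂ σ (fun i => σ (y0 i)) d.den ≠ 0 := by
    rw [ev2, ← aeval_eq_eval]
    exact fun h0 => hden0 ((map_eq_zero σ).1 h0)
  have hcont : ContinuousAt (fun x : κ ⊕ (ι ⊕ ι) → L => fun s =>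
      eval₂ σ x (d.phi s) / eval₂ σ x d.den) (fun i => σ (y0 i)) := by
    refine continuousAt_pi.2 fun s => ?_
    exact (cont2 σ _).continuousAt.div (cont2 σ _).continuousAt hden1
  have hval : ∀ y : κ ⊕ (ι ⊕ ι) → K, (fun s => eval₂ σ (fun i => σ (y i)) (d.phi s) /
      eval₂ σ (fun i => σ (y i)) d.den) = fun s => σ (aeval y (d.phi s) / aeval y d.den) := by
    intro y
    funext s
    rw [ev2, ev2, map_div₀, aeval_eq_eval]
  have hN1 : (fun x : κ ⊕ (ι ⊕ ι) → L => fun s =>
      eval₂ σ x (d.phi s) / eval₂ σ x d.den) ⁻¹' U ∈ 𝓝 (fun i => σ (y0 i)) := by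
    refine hcont.preimage_mem_nhds ?_
    rw [hval y0]
    have h1 : (fun s => σ (aeval y0 (d.phi s) / aeval y0 d.den)) =
        fun s => σ ((Sum.elim d.w0 d.z0 : ι ⊕ κ → K) s) := by
      funext s
      exact congrArg σ (congrFun himg s)
    rw [h1]
    exact hU
  obtain ⟨N, G, hG⟩ := clear d.phi d.den g
  have hGd : G * d.den = 0 := by
    refine zero_of_nhds hσ hN1 fun y hy => ?_
    rw [← aeval_eq_eval, map_mul]
    by_cases hyd : aeval y d.den = 0
    · rw [hyd, mul_zero]
    · have hF : d.F4 (fun j => y (Sum.inl j)) (fun j => y (Sum.inr (Sum.inl j)))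
          (fun j => y (Sum.inr (Sum.inr j))) ≠ 0 := by
        intro h0
        apply hyd
        rw [d.den_eval, h0]
        ring
      have h1 := d.on_V (k := K) h _ _ _ hF
      have e1 : (fun i => (fun s => aeval y (d.phi s) / aeval y d.den) (Sum.inl i : ι ⊕ κ)) =
          _ := funext fun i => d.phi_inl y hyd i
      have e2 : (fun j => (fun s => aeval y (d.phi s) / aeval y d.den) (Sum.inr j : ι ⊕ κ)) =
          _ := funext fun j => d.phi_inr y hyd j
      have h2 : (fun s => σ (aeval y (d.phi s) / aeval y d.den)) ∈ U := by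
        rw [← hval]
        exact hy
      have h3 := hg (fun s => aeval y (d.phi s) / aeval y d.den) (by
        rw [e1, e2]
        exact h1) h2
      rw [hG K y hyd, h3]
      ring
  have hden : d.den ≠ 0 := by
    intro h0
    rw [h0, map_zero] at hden0
    exact hden0 rfl
  have hG0 : G = 0 := (mul_eq_zero.1 hGd).resolve_right hden
  refine closure' d h ha g (fun y hy => ?_) k Z hZ
  have h1 := hG K y hy
  rw [hG0, map_zero] at h1
  exact (mul_eq_zero.1 h1.symm).resolve_left (pow_ne_zero _ hy)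

end Pool.Agent.X95T.WQ
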