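import Pool.Agent.X95T.MA2
import Pool.Agent.X95T.LA2

/-!
# Weighted quartics as projective varieties
-/

set_option autoImplicit false
set_option linter.unusedSectionVars false

open MvPolynomial Topology

namespace Pool.Agent.X95T.WQ

/-- the ideal of the local Zariski closure at `x` -/
def loc {ι K L : Type} [Field K] [NontriviallyNormedField L] (σ : K →+* L)
    (S : Set (MvPolynomial ι K)) (x : ι → L) : Set (MvPolynomial ι K) :=
  {f | ∃ U ∈ nhds x, ∀ y : ι → K, y ≠ 0 → (∀ g ∈ S, eval y g = 0) →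
    (∃ c : L, c ≠ 0 ∧ (fun i => c * σ (y i)) ∈ U) → ∀ t : K, eval (t • y) f = 0}

/-- the equations -/
def eqs {K : Type} [Field K] {m n : ℕ} (a : Fin m → K)
    (q : MvPolynomial (Fin (n + 1) × Fin (n + 1)) K) :
    Set (MvPolynomial (Fin m ⊕ Fin (n + 1) × Fin (n + 1)) K) :=
  {g | (∃ i j, g = X (Sum.inr (i, j)) - X (Sum.inr (j, i))) ∨
    (∃ i j k l, g = X (Sum.inr (i, j)) * X (Sum.inr (k, l)) -
      X (Sum.inr (i, k)) * X (Sum.inr (j, l))) ∨
    g = ∑ i, C (a i) * X (Sum.inl i) ^ 2 - rename Sum.inr q}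

/-- the quartic form -/
noncomputable def qf {K : Type} [Field K] {n : ℕ} (q : MvPolynomial (Fin (n + 1) × Fin (n + 1)) K) :
    MvPolynomial (Fin (n + 1)) K := aeval (fun p => X p.1 * X p.2) q

section eqs

variable {K : Type} [Field K] {m n : ℕ} (a : Fin m → K)
  (q : MvPolynomial (Fin (n + 1) × Fin (n + 1)) K)

/-- the points -/
structure On {k : Type} [Field k] (τ : K →+* k) (z : Fin m ⊕ Fin (n + 1) × Fin (n + 1) → k) :
    Prop where
  sym : ∀ i j, z (Sum.inr (i, j)) = z (Sum.inr (j, i))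
  min : ∀ i j k l, z (Sum.inr (i, j)) * z (Sum.inr (k, l)) =
    z (Sum.inr (i, k)) * z (Sum.inr (j, l))
  eq : ∑ i, τ (a i) * z (Sum.inl i) ^ 2 = eval₂ τ (fun p => z (Sum.inr p)) q

lemma on_iff {k : Type} [Field k] (τ : K →+* k) (z : Fin m ⊕ Fin (n + 1) × Fin (n + 1) → k) :
    (∀ g ∈ eqs a q, eval₂ τ z g = 0) ↔ On a q τ z := by
  have h3 : eval₂ τ z (∑ i, C (a i) * X (Sum.inl i) ^ 2 - rename Sum.inr q) =
      ∑ i, τ (a i) * z (Sum.inl i) ^ 2 - eval₂ τ (fun p => z (Sum.inr p)) q := by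
    rw [eval₂_sub, eval₂_rename, eval₂_sum]
    congr 1
    refine Finset.sum_congr rfl fun i _ => ?_
    rw [eval₂_mul, eval₂_C, eval₂_pow, eval₂_X]
  constructor
  · intro h
    refine ⟨fun i j => ?_, fun i j k l => ?_, ?_⟩
    · have := h _ (Or.inl ⟨i, j, rfl⟩)
      rw [eval₂_sub, eval₂_X, eval₂_X] at this
      exact sub_eq_zero.1 this
    · have := h _ (Or.inr (Or.inl ⟨i, j, k, l, rfl⟩))
      rw [eval₂_sub, eval₂_mul, eval₂_mul, eval₂_X, eval₂_X, eval₂_X, eval₂_X] at this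
      exact sub_eq_zero.1 this
    · have := h _ (Or.inr (Or.inr rfl))
      rw [h3] at this
      exact sub_eq_zero.1 this
  · rintro h g (⟨i, j, rfl⟩ | ⟨i, j, k, l, rfl⟩ | rfl)
    · rw [eval₂_sub, eval₂_X, eval₂_X, h.sym, sub_self]
    · rw [eval₂_sub, eval₂_mul, eval₂_mul, eval₂_X, eval₂_X, eval₂_X, eval₂_X, h.min, sub_self]
    · rw [h3, h.eq, sub_self]

lemma on_iff' (z : Fin m ⊕ Fin (n + 1) × Fin (n + 1) → K) :
    (∀ g ∈ eqs a q, eval z g = 0) ↔ On a q (RingHom.id K) z := on_iff a q (RingHom.id K) z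

lemma ev_hom {k : Type} [Field k] (τ : K →+* k) {ι : Type} {g : MvPolynomial ι K} {d : ℕ}
    (hg : g.IsHomogeneous d) (s : k) (v : ι → k) :
    eval₂ τ (fun i => s * v i) g = s ^ d * eval₂ τ v g := by
  rw [eval₂_eq, eval₂_eq, Finset.mul_sum]
  refine Finset.sum_congr rfl fun e he => ?_
  have h1 : ∑ i ∈ e.support, e i = d := by
    have := hg (mem_support_iff.1 he)
    simpa [Finsupp.weight_apply, Finsupp.sum] using this
  rw [← h1, ← Finset.prod_pow_eq_pow_sum]
  have h2 : ∏ i ∈ e.support, (s * v i) ^ e i =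
      (∏ i ∈ e.support, s ^ e i) * ∏ i ∈ e.support, v i ^ e i := by
    rw [← Finset.prod_mul_distrib]
    exact Finset.prod_congr rfl fun i _ => mul_pow _ _ _
  rw [h2]
  ring

variable {a q}

lemma On.smul {k : Type} [Field k] {τ : K →+* k} (hq : q.IsHomogeneous 2)
    {z : Fin m ⊕ Fin (n + 1) × Fin (n + 1) → k} (h : On a q τ z) (s : k) :
    On a q τ (fun i => s * z i) := by
  refine ⟨fun i j => by rw [h.sym], fun i j k l => ?_, ?_⟩
  · linear_combination s ^ 2 * h.min i j k l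
  · have h1 := ev_hom τ hq s fun p => z (Sum.inr p)
    rw [h1, ← h.eq, Finset.mul_sum]
    exact Finset.sum_congr rfl fun i _ => by ring

/-- symmetric matrices of rank one -/
lemma On.rank {k : Type} [Field k] {τ : K →+* k} {z : Fin m ⊕ Fin (n + 1) × Fin (n + 1) → k}
    (h : On a q τ z) (hz : (fun p => z (Sum.inr p)) ≠ 0) : ∃ i, z (Sum.inr (i, i)) ≠ 0 ∧
      ∀ k l, z (Sum.inr (i, i)) * z (Sum.inr (k, l)) = z (Sum.inr (i, k)) * z (Sum.inr (i, l)) := by
  have h1 : ∃ i, z (Sum.inr (i, i)) ≠ 0 := by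
    by_contra hc
    push Not at hc
    apply hz
    funext ⟨k, l⟩
    have h2 := h.min k k l l
    rw [hc k, zero_mul] at h2
    exact mul_self_eq_zero.1 h2.symm
  obtain ⟨i, hi⟩ := h1
  exact ⟨i, hi, fun k l => h.min i i k l⟩

lemma qf_eval {k : Type} [Field k] (τ : K →+* k) (y : Fin (n + 1) → k) :
    eval₂ τ y (qf q) = eval₂ τ (fun p => y p.1 * y p.2) q := by
  unfold qf
  induction q using MvPolynomial.induction_on with
  | C c =>
    rw [aeval_C, eval₂_C]
    exact eval₂_C _ _ _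
  | add p r hp hr => rw [map_add, eval₂_add, hp, hr, eval₂_add]
  | mul_X p i hp => rw [map_mul, eval₂_mul, hp, aeval_X, eval₂_mul, eval₂_mul, eval₂_X, eval₂_X,
      eval₂_X]

lemma qf_deg (hq : q.IsHomogeneous 2) : (qf q).IsHomogeneous 4 := by
  have h := hq.aeval (S := K) (n := 2) (fun p : Fin (n + 1) × Fin (n + 1) =>
    (X p.1 * X p.2 : MvPolynomial (Fin (n + 1)) K)) fun p =>
      (isHomogeneous_X K p.1).mul (isHomogeneous_X K p.2)
  exact h

end eqs

section loc

variable {K : Type} [Field K] [CharZero K] {L : Type} [NontriviallyNormedField L] {σ : K →+* L}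
  {m n : ℕ} {a : Fin m → K} {q : MvPolynomial (Fin (n + 1) × Fin (n + 1)) K}

/-- the point with coordinates `W`, `y` -/
def em {k : Type} [Field k] (Z : Fin m ⊕ Fin (n + 1) → k) :
    Fin m ⊕ Fin (n + 1) × Fin (n + 1) → k :=
  Sum.elim (fun i => Z (Sum.inl i)) fun p => Z (Sum.inr p.1) * Z (Sum.inr p.2)

lemma em_on {k : Type} [Field k] [Algebra K k] {Z : Fin m ⊕ Fin (n + 1) → k}
    (h : bl a (fun i => Z (Sum.inl i)) (fun i => Z (Sum.inl i)) =
      aeval (fun j => Z (Sum.inr j)) (qf q)) : On a q (algebraMap K k) (em Z) := by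
  refine ⟨fun i j => ?_, fun i j k l => ?_, ?_⟩
  · show Z (Sum.inr i) * Z (Sum.inr j) = Z (Sum.inr j) * Z (Sum.inr i)
    ring
  · show Z (Sum.inr i) * Z (Sum.inr j) * (Z (Sum.inr k) * Z (Sum.inr l)) =
      Z (Sum.inr i) * Z (Sum.inr k) * (Z (Sum.inr j) * Z (Sum.inr l))
    ring
  · rw [aeval_def, qf_eval] at h
    have h1 : ∑ i, algebraMap K k (a i) * em Z (Sum.inl i) ^ 2 =
        bl a (fun i => Z (Sum.inl i)) (fun i => Z (Sum.inl i)) := by
      unfold bl
      refine Finset.sum_congr rfl fun i _ => ?_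
      show algebraMap K k (a i) * Z (Sum.inl i) ^ 2 = _
      ring
    rw [h1, h]
    rfl

lemma on_em {k : Type} [Field k] [Algebra K k] {Z : Fin m ⊕ Fin (n + 1) → k}
    (h : On a q (algebraMap K k) (em Z)) :
    bl a (fun i => Z (Sum.inl i)) (fun i => Z (Sum.inl i)) =
      aeval (fun j => Z (Sum.inr j)) (qf q) := by
  rw [aeval_def, qf_eval]
  have h1 : ∑ i, algebraMap K k (a i) * em Z (Sum.inl i) ^ 2 =
      bl a (fun i => Z (Sum.inl i)) (fun i => Z (Sum.inl i)) := by
    unfold bl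
    refine Finset.sum_congr rfl fun i _ => ?_
    show algebraMap K k (a i) * Z (Sum.inl i) ^ 2 = _
    ring
  rw [← h1]
  exact h.eq

/-- pullback of a polynomial -/
noncomputable def pb (f : MvPolynomial (Fin m ⊕ Fin (n + 1) × Fin (n + 1)) K) :
    MvPolynomial (Fin m ⊕ Fin (n + 1)) K :=
  aeval (Sum.elim (fun i => X (Sum.inl i)) fun p => X (Sum.inr p.1) * X (Sum.inr p.2)) f

lemma pb_eval {k : Type} [Field k] [Algebra K k] (Z : Fin m ⊕ Fin (n + 1) → k)
    (f : MvPolynomial (Fin m ⊕ Fin (n + 1) × Fin (n + 1)) K) : aeval Z (pb f) = aeval (em Z) f := by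
  unfold pb
  induction f using MvPolynomial.induction_on with
  | C c =>
    rw [aeval_C, aeval_C]
    exact aeval_C _ _
  | add p r hp hr => rw [map_add, map_add, hp, hr, map_add]
  | mul_X p i hp =>
    rw [map_mul, map_mul, hp, aeval_X, map_mul, aeval_X]
    congr 1
    rcases i with i | p
    · exact aeval_X _ _
    · show aeval Z (X (Sum.inr p.1) * X (Sum.inr p.2)) = _
      rw [map_mul, aeval_X, aeval_X]
      rfl

/-- **Local density on the projective variety.** -/
theorem loc_dens (hm : 2 ≤ m) (ha : ∀ i, a i ≠ 0) (hq : q.IsHomogeneous 2) (hσ : DenseRange σ)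
    {z : Fin m ⊕ Fin (n + 1) × Fin (n + 1) → K} (hz : On a q (RingHom.id K) z)
    (hqz : eval (fun p => z (Sum.inr p)) q ≠ 0) {c : L}
    {U : Set (Fin m ⊕ Fin (n + 1) × Fin (n + 1) → L)} (hU : U ∈ 𝓝 (fun i => c * σ (z i)))
    {f : MvPolynomial (Fin m ⊕ Fin (n + 1) × Fin (n + 1)) K}
    (hf : ∀ z' : Fin m ⊕ Fin (n + 1) × Fin (n + 1) → K, z' ≠ 0 → On a q (RingHom.id K) z' →
      (fun i => c * σ (z' i)) ∈ U → ∀ t : K, eval (t • z') f = 0)
    {z' : Fin m ⊕ Fin (n + 1) × Fin (n + 1) → AlgebraicClosure K}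
    (hz' : On a q (algebraMap K (AlgebraicClosure K)) z') : aeval z' f = 0 := by
  classical
  have : Nontrivial (Fin m) := Fin.nontrivial_iff_two_le.2 hm
  have hq0 : eval (fun _ => (0 : K)) q = 0 := by
    have h1 := ev_hom (RingHom.id K) hq 0 fun _ => (0 : K)
    simp only [zero_mul] at h1
    rw [zero_pow two_ne_zero, zero_mul] at h1
    exact h1
  have hs : (fun p => z (Sum.inr p)) ≠ 0 := by
    intro h0
    apply hqz
    rw [h0]
    exact hq0
  have hz0 : z ≠ 0 := by
    rintro rfl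
    exact hs rfl
  obtain ⟨i0, hi0, hr⟩ := hz.rank hs
  set μ : K := z (Sum.inr (i0, i0)) with hμ
  have hf0 : eval (0 : Fin m ⊕ Fin (n + 1) × Fin (n + 1) → K) f = 0 := by
    have h1 := hf z hz0 hz (mem_of_mem_nhds hU) 0
    rwa [zero_smul] at h1
  -- the affine point
  set Z0 : Fin m ⊕ Fin (n + 1) → K := Sum.elim (fun i => μ * z (Sum.inl i))
    (fun k => z (Sum.inr (i0, k))) with hZ0
  have hem0 : em Z0 = fun i => μ * z i := by
    funext i
    rcases i with i | ⟨k, l⟩
    · rfl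
    · exact (hr k l).symm
  have hV0 : bl a (fun i => Z0 (Sum.inl i)) (fun i => Z0 (Sum.inl i)) =
      aeval (fun j => Z0 (Sum.inr j)) (qf q) := by
    refine on_em (k := K) ?_
    rw [hem0]
    exact hz.smul hq μ
  have hF0 : aeval (fun j => Z0 (Sum.inr j)) (qf q) ≠ 0 := by
    rw [aeval_def, qf_eval]
    have h1 : (fun p : Fin (n + 1) × Fin (n + 1) => Z0 (Sum.inr p.1) * Z0 (Sum.inr p.2)) =
        fun p => μ * z (Sum.inr p) := by
      funext ⟨k, l⟩
      exact (hr k l).symm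
    rw [h1, ev_hom _ hq]
    exact mul_ne_zero (pow_ne_zero _ hi0) hqz
  let d : Dat K (Fin m) (Fin (n + 1)) :=
    ⟨a, qf q, fun i => Z0 (Sum.inl i), fun j => Z0 (Sum.inr j)⟩
  have hd : d.Ok := by
    refine ⟨(qf_deg hq).totalDegree_le, ?_, ?_⟩
    · show eval (fun j => Z0 (Sum.inr j)) (qf q) ≠ 0
      rw [← aeval_eq_eval]
      exact hF0
    · show bl a (fun i => Z0 (Sum.inl i)) (fun i => Z0 (Sum.inl i)) =
        eval (fun j => Z0 (Sum.inr j)) (qf q)
      rw [← aeval_eq_eval]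
      exact hV0
  have hd0 : (Sum.elim d.w0 d.z0 : Fin m ⊕ Fin (n + 1) → K) = Z0 := by
    funext s
    rcases s with s | s <;> rfl
  -- continuity
  have hcont : Continuous fun x : Fin m ⊕ Fin (n + 1) → L => fun i => c * (σ μ⁻¹ * em x i) := by
    refine continuous_pi fun i => ?_
    rcases i with i | p
    · show Continuous fun x : Fin m ⊕ Fin (n + 1) → L => c * (σ μ⁻¹ * x (Sum.inl i))
      fun_prop
    · show Continuous fun x : Fin m ⊕ Fin (n + 1) → L =>
        c * (σ μ⁻¹ * (x (Sum.inr p.1) * x (Sum.inr p.2)))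
      fun_prop
  have hsem : ∀ Z : Fin m ⊕ Fin (n + 1) → K, em (fun s => σ (Z s)) = fun i => σ (em Z i) := by
    intro Z
    funext i
    rcases i with i | p
    · rfl
    · exact (map_mul σ _ _).symm
  have hN : (fun x : Fin m ⊕ Fin (n + 1) → L => fun i => c * (σ μ⁻¹ * em x i)) ⁻¹' U ∈
      𝓝 (fun s => σ ((Sum.elim d.w0 d.z0 : Fin m ⊕ Fin (n + 1) → K) s)) := by
    refine hcont.continuousAt.preimage_mem_nhds ?_
    rw [hd0, hsem, hem0]
    have h1 : (fun i => c * (σ μ⁻¹ * σ (μ * z i))) = fun i => c * σ (z i) := by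
      funext i
      rw [← map_mul, ← mul_assoc, inv_mul_cancel₀ hi0, one_mul]
    rw [h1]
    exact hU
  have hmain := locdens hσ d hd ha hN (pb f) (fun Z hZ hZU => by
    rw [pb_eval]
    have h1 : On a q (algebraMap K K) (em Z) := em_on hZ
    have h2 := h1.smul hq μ⁻¹
    by_cases h0 : (fun i => μ⁻¹ * em Z i) = 0
    · have h3 : em Z = 0 := by
        funext i
        exact (mul_eq_zero.1 (congrFun h0 i)).resolve_left (inv_ne_zero hi0)
      rw [h3, aeval_eq_eval]
      exact hf0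
    · have h4 : (fun i => c * (σ μ⁻¹ * em (fun s => σ (Z s)) i)) ∈ U := hZU
      rw [hsem] at h4
      have h3 := hf _ h0 h2 (by
        have h5 : (fun i => c * σ (μ⁻¹ * em Z i)) = fun i => c * (σ μ⁻¹ * σ (em Z i)) := by
          funext i
          rw [map_mul]
        rw [h5]
        exact h4) μ
      have h6 : μ • (fun i => μ⁻¹ * em Z i) = em Z := by
        funext i
        show μ * (μ⁻¹ * em Z i) = em Z i
        rw [← mul_assoc, mul_inv_cancel₀ hi0, one_mul]
      rw [h6] at h3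
      rw [aeval_eq_eval]
      exact h3) (AlgebraicClosure K)
  -- all points over the algebraic closure
  by_cases hs' : (fun p => z' (Sum.inr p)) = 0
  · set Z : Fin m ⊕ Fin (n + 1) → AlgebraicClosure K :=
      Sum.elim (fun i => z' (Sum.inl i)) fun _ => 0 with hZ
    have h1 : em Z = z' := by
      funext i
      rcases i with i | p
      · rfl
      · show (0 : AlgebraicClosure K) * 0 = z' (Sum.inr p)
        rw [mul_zero]
        exact (congrFun hs' p).symm
    have h2 := hmain Z (on_em (by rw [h1]; exact hz'))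
    rw [pb_eval, h1] at h2
    exact h2
  · obtain ⟨i1, hi1, hr1⟩ := hz'.rank hs'
    obtain ⟨r, hr2⟩ := IsAlgClosed.exists_pow_nat_eq (z' (Sum.inr (i1, i1))) (n := 2) (by norm_num)
    have hr0 : r ≠ 0 := by
      rintro rfl
      rw [zero_pow two_ne_zero] at hr2
      exact hi1 hr2.symm
    set Z : Fin m ⊕ Fin (n + 1) → AlgebraicClosure K :=
      Sum.elim (fun i => z' (Sum.inl i)) fun k => z' (Sum.inr (i1, k)) / r with hZ
    have h1 : em Z = z' := by
      funext i
      rcases i with i | ⟨k, l⟩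
      · rfl
      · show z' (Sum.inr (i1, k)) / r * (z' (Sum.inr (i1, l)) / r) = z' (Sum.inr (k, l))
        have h2 := hr1 k l
        rw [← hr2] at h2
        field_simp
        linear_combination -h2
    have h2 := hmain Z (on_em (by rw [h1]; exact hz'))
    rw [pb_eval, h1] at h2
    exact h2

end loc

end Pool.Agent.X95T.WQ
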