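import Pool.Agent.X95T.MA3

/-!
# Weighted quartics as projective varieties: Mazur's question
-/

set_option autoImplicit false
set_option linter.unusedSectionVars false

open MvPolynomial Topology

namespace Pool.Agent.X95T.WQ

/-- the ideals of the local Zariski closures -/
def mazur {ι K L : Type} [Field K] [NontriviallyNormedField L] (σ : K →+* L)
    (S : Set (MvPolynomial ι K)) : Set (Set (MvPolynomial ι K)) :=
  {J | ∃ x : ι → L, x ≠ 0 ∧ (∀ g ∈ S, eval₂ σ x g = 0) ∧ J = loc σ S x}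

/-- the ideal of the variety -/
def idl {ι K : Type} [Field K] (S : Set (MvPolynomial ι K)) : Set (MvPolynomial ι K) :=
  {f | ∀ z : ι → AlgebraicClosure K, (∀ g ∈ S, aeval z g = 0) → aeval z f = 0}

variable {K : Type} [Field K] [CharZero K] {L : Type} [NontriviallyNormedField L] {σ : K →+* L}
  {m n : ℕ} {a : Fin m → K} {q : MvPolynomial (Fin (n + 1) × Fin (n + 1)) K}

lemma up {ι : Type} (y : ι → K) (g : MvPolynomial ι K) :
    aeval (fun i => algebraMap K (AlgebraicClosure K) (y i)) g =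
      algebraMap K (AlgebraicClosure K) (eval y g) :=
  (aeval_algebraMap_apply (AlgebraicClosure K) y g).trans (by rw [aeval_eq_eval])

lemma on_cone (hq : q.IsHomogeneous 2) {y : Fin m ⊕ Fin (n + 1) × Fin (n + 1) → K}
    (hy : ∀ g ∈ eqs a q, eval y g = 0) (t : K) : ∀ g ∈ eqs a q, eval (t • y) g = 0 :=
  (on_iff' a q _).2 (((on_iff' a q _).1 hy).smul hq t)

/-- the ideal of the variety is contained in all local ideals -/
lemma idl_le (hq : q.IsHomogeneous 2) (x : Fin m ⊕ Fin (n + 1) × Fin (n + 1) → L) :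
    idl (eqs a q) ⊆ loc σ (eqs a q) x := by
  intro f hf
  refine ⟨Set.univ, Filter.univ_mem, fun y _ hy _ t => ?_⟩
  have h1 := on_cone hq hy t
  have h2 := hf (fun i => algebraMap K (AlgebraicClosure K) ((t • y) i)) fun g hg => by
    rw [up, h1 g hg, map_zero]
  rw [up] at h2
  exact (map_eq_zero _).1 h2

/-- general position -/
lemma loc_gen (hm : 2 ≤ m) (ha : ∀ i, a i ≠ 0) (hq : q.IsHomogeneous 2) (hσ : DenseRange σ)
    {x : Fin m ⊕ Fin (n + 1) × Fin (n + 1) → L}
    (hx : ∀ U ∈ 𝓝 x, ∃ y : Fin m ⊕ Fin (n + 1) × Fin (n + 1) → K,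
      (∀ g ∈ eqs a q, eval y g = 0) ∧ eval (fun p => y (Sum.inr p)) q ≠ 0 ∧
      ∃ c : L, c ≠ 0 ∧ (fun i => c * σ (y i)) ∈ U) :
    loc σ (eqs a q) x = idl (eqs a q) := by
  refine Set.Subset.antisymm ?_ (idl_le hq x)
  rintro f ⟨U, hU, hf⟩
  obtain ⟨y, hy, hqy, c, hc, hcU⟩ := hx (interior U) (interior_mem_nhds.2 hU)
  intro z hz
  refine loc_dens (σ := σ) hm ha hq hσ ((on_iff' a q _).1 hy) hqy (c := c) (U := U)
    (mem_interior_iff_mem_nhds.1 hcU) ?_ ((on_iff a q _ _).1 hz)
  intro z' hz'0 hz' hcz'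
  exact hf z' hz'0 ((on_iff' a q _).2 hz') ⟨c, hc, hcz'⟩

/-- (2) -/
theorem dich (hm : 2 ≤ m) (ha : ∀ i, a i ≠ 0) (hq : q.IsHomogeneous 2) (hσ : DenseRange σ)
    (x : Fin m ⊕ Fin (n + 1) × Fin (n + 1) → L) :
    loc σ (eqs a q) x = idl (eqs a q) ∨
      loc σ (eqs a q) x = loc σ (eqs a q ∪ {rename Sum.inr q}) x := by
  by_cases h : ∀ U ∈ 𝓝 x, ∃ y : Fin m ⊕ Fin (n + 1) × Fin (n + 1) → K,
      (∀ g ∈ eqs a q, eval y g = 0) ∧ eval (fun p => y (Sum.inr p)) q ≠ 0 ∧
      ∃ c : L, c ≠ 0 ∧ (fun i => c * σ (y i)) ∈ U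
  · exact Or.inl (loc_gen hm ha hq hσ h)
  · right
    push Not at h
    obtain ⟨U0, hU0, h0⟩ := h
    ext f
    constructor
    · rintro ⟨U, hU, hf⟩
      exact ⟨U, hU, fun y hy0 hy => hf y hy0 fun g hg => hy g (Or.inl hg)⟩
    · rintro ⟨U, hU, hf⟩
      refine ⟨U ∩ U0, Filter.inter_mem hU hU0, ?_⟩
      rintro y hy0 hy ⟨c, hc, hcU⟩ t
      refine hf y hy0 ?_ ⟨c, hc, hcU.1⟩ t
      rintro g (hg | hg)
      · exact hy g hg
      · rw [Set.mem_singleton_iff.1 hg, eval_rename]
        by_contra hne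
        exact h0 y hy hne c hc hcU.2

/-- (3) -/
theorem red (hm : 2 ≤ m) (ha : ∀ i, a i ≠ 0) (hq : q.IsHomogeneous 2) (hσ : DenseRange σ)
    (hB : (mazur σ (eqs a q ∪ {rename Sum.inr q})).Finite) : (mazur σ (eqs a q)).Finite := by
  refine ((hB.union (Set.finite_singleton Set.univ)).union
    (Set.finite_singleton (idl (eqs a q)))).subset ?_
  rintro _ ⟨x, hx0, hx, rfl⟩
  rcases dich hm ha hq hσ x with h | h
  · exact Or.inr h
  · left
    by_cases hqx : eval₂ σ x (rename Sum.inr q) = 0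
    · left
      refine ⟨x, hx0, ?_, h⟩
      rintro g (hg | hg)
      · exact hx g hg
      · rw [Set.mem_singleton_iff.1 hg]
        exact hqx
    · right
      rw [h, Set.mem_singleton_iff, Set.eq_univ_iff_forall]
      intro f
      refine ⟨{u | eval₂ σ u (rename Sum.inr q) ≠ 0},
        ((isOpen_ne_fun (cont2 σ _) continuous_const).mem_nhds hqx), ?_⟩
      rintro y hy0 hy ⟨c, hc, hcU⟩
      exfalso
      apply hcU
      have h1 := hy _ (Or.inr (Set.mem_singleton _))
      have h2 := ev_hom σ (hq.rename_isHomogeneous (f := Sum.inr (α := Fin m))) c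
        fun i => σ (y i)
      rw [h2, ev2, h1, map_zero, mul_zero]

/-- pullback to the quartic hypersurface -/
noncomputable def pF (f : MvPolynomial (Fin m ⊕ Fin (n + 1) × Fin (n + 1)) K) :
    MvPolynomial (Fin (n + 1)) K :=
  aeval (Sum.elim (fun _ => 0) fun p => X p.1 * X p.2) f

lemma pF_eval (Y : Fin (n + 1) → K)
    (f : MvPolynomial (Fin m ⊕ Fin (n + 1) × Fin (n + 1)) K) :
    eval Y (pF f) = eval (Sum.elim (fun _ => 0) fun p => Y p.1 * Y p.2) f := by
  unfold pF
  induction f using MvPolynomial.induction_on with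
  | C c =>
    rw [aeval_C, eval_C]
    exact eval_C _
  | add p r hp hr => rw [map_add, map_add, hp, hr, map_add]
  | mul_X p i hp =>
    rw [map_mul, map_mul, hp, aeval_X, map_mul, eval_X]
    congr 1
    rcases i with i | p
    · exact map_zero _
    · show eval Y (X p.1 * X p.2) = _
      rw [map_mul, eval_X, eval_X]
      rfl

/-- (4) -/
theorem aniso (hm : 2 ≤ m) (ha : ∀ i, a i ≠ 0) (hq : q.IsHomogeneous 2) (hσ : DenseRange σ)
    (han : ∀ W : Fin m → K, ∑ i, a i * W i ^ 2 = 0 → W = 0)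
    (hF : (mazur σ {qf q}).Finite) : (mazur σ (eqs a q)).Finite := by
  have : CharZero L := charZero_of_injective_ringHom σ.injective
  refine red hm ha hq hσ (((hF.image fun J : Set (MvPolynomial (Fin (n + 1)) K) =>
    {f : MvPolynomial (Fin m ⊕ Fin (n + 1) × Fin (n + 1)) K | pF f ∈ J}).union
    (Set.finite_singleton Set.univ)).subset ?_)
  rintro _ ⟨x, hx0, hx, rfl⟩
  have hxX : On a q σ x := (on_iff a q _ _).1 fun g hg => hx g (Or.inl hg)
  have hxq : eval₂ σ (fun p => x (Sum.inr p)) q = 0 := by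
    have h1 := hx _ (Or.inr (Set.mem_singleton _))
    rw [eval₂_rename] at h1
    exact h1
  -- the points over `K`
  have hKB : ∀ y : Fin m ⊕ Fin (n + 1) × Fin (n + 1) → K,
      (∀ g ∈ eqs a q ∪ {rename Sum.inr q}, eval y g = 0) →
      On a q (RingHom.id K) y ∧ (∀ i, y (Sum.inl i) = 0) ∧
        eval (fun p => y (Sum.inr p)) q = 0 := by
    intro y hy
    have h1 : On a q (RingHom.id K) y := (on_iff' a q _).1 fun g hg => hy g (Or.inl hg)
    have h2 : eval (fun p => y (Sum.inr p)) q = 0 := by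
      have h3 := hy _ (Or.inr (Set.mem_singleton _))
      rw [eval_rename] at h3
      exact h3
    refine ⟨h1, fun i => ?_, h2⟩
    have h3 : ∑ i, a i * y (Sum.inl i) ^ 2 = 0 := by
      rw [← h2]
      exact h1.eq
    exact congrFun (han _ h3) i
  by_cases hw : ∃ i, x (Sum.inl i) ≠ 0
  · right
    obtain ⟨i, hi⟩ := hw
    rw [Set.mem_singleton_iff, Set.eq_univ_iff_forall]
    intro f
    refine ⟨{u | u (Sum.inl i) ≠ 0},
      ((isOpen_ne_fun (continuous_apply _) continuous_const).mem_nhds hi), ?_⟩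
    rintro y hy0 hy ⟨c, hc, hcU⟩
    exfalso
    apply hcU
    show c * σ (y (Sum.inl i)) = 0
    rw [(hKB y hy).2.1 i, map_zero, mul_zero]
  · left
    push Not at hw
    have hs : (fun p => x (Sum.inr p)) ≠ 0 := by
      intro h0
      apply hx0
      funext i
      rcases i with i | p
      · exact hw i
      · exact congrFun h0 p
    obtain ⟨i0, hi0, hr⟩ := hxX.rank hs
    set v : Fin (n + 1) → L := fun k => x (Sum.inr (i0, k)) with hv
    have hv0 : v ≠ 0 := fun h0 => hi0 (congrFun h0 i0)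
    have hFv : eval₂ σ v (qf q) = 0 := by
      rw [qf_eval]
      have h1 : (fun p : Fin (n + 1) × Fin (n + 1) => v p.1 * v p.2) =
          fun p => x (Sum.inr (i0, i0)) * x (Sum.inr p) := by
        funext ⟨k, l⟩
        exact (hr k l).symm
      rw [h1, ev_hom σ hq, hxq, mul_zero]
    refine ⟨loc σ {qf q} v, ⟨v, hv0, fun g hg => by
      rw [Set.mem_singleton_iff.1 hg]
      exact hFv, rfl⟩, ?_⟩
    ext f
    constructor
    · rintro ⟨U', hU', hf⟩
      have hcont : Continuous fun u : Fin m ⊕ Fin (n + 1) × Fin (n + 1) → L =>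
          fun k => u (Sum.inr (i0, k)) := by fun_prop
      have hN : (fun u : Fin m ⊕ Fin (n + 1) × Fin (n + 1) → L =>
          fun k => u (Sum.inr (i0, k))) ⁻¹' U' ∈ 𝓝 x :=
        hcont.continuousAt.preimage_mem_nhds hU'
      have hN' : {u : Fin m ⊕ Fin (n + 1) × Fin (n + 1) → L | u (Sum.inr (i0, i0)) ≠ 0} ∈ 𝓝 x :=
        (isOpen_ne_fun (continuous_apply _) continuous_const).mem_nhds hi0
      refine ⟨_, Filter.inter_mem hN hN', ?_⟩
      rintro y hy0 hy ⟨c, hc, hcU, hcU'⟩ t
      obtain ⟨hy1, hy2, hy3⟩ := hKB y hy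
      have hyi : y (Sum.inr (i0, i0)) ≠ 0 := by
        intro h0
        apply hcU'
        show c * σ (y (Sum.inr (i0, i0))) = 0
        rw [h0, map_zero, mul_zero]
      set μ := y (Sum.inr (i0, i0)) with hμ
      set Y : Fin (n + 1) → K := fun k => y (Sum.inr (i0, k)) with hY
      have hmn : ∀ k l, Y k * Y l = μ * y (Sum.inr (k, l)) := fun k l => (hy1.min i0 i0 k l).symm
      have hY0 : Y ≠ 0 := fun h0 => hyi (congrFun h0 i0)
      have hFY : eval Y (qf q) = 0 := by
        have h1 := qf_eval (q := q) (RingHom.id K) Y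
        have h2 : (fun p : Fin (n + 1) × Fin (n + 1) => Y p.1 * Y p.2) =
            fun p => μ * y (Sum.inr p) := by
          funext ⟨k, l⟩
          exact hmn k l
        rw [h2, ev_hom _ hq] at h1
        have h3 : eval₂ (RingHom.id K) (fun p => y (Sum.inr p)) q = 0 := hy3
        rw [h3, mul_zero] at h1
        exact h1
      have h1 := hf Y hY0 (fun g hg => by
        rw [Set.mem_singleton_iff.1 hg]
        exact hFY) ⟨c, hc, hcU⟩
      -- the polynomial on the line
      have h2 : ∀ t : K, eval ((t ^ 2 * μ) • y) f = 0 := by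
        intro t
        have h3 := h1 t
        rw [pF_eval] at h3
        have h4 : (Sum.elim (fun _ => (0 : K)) fun p : Fin (n + 1) × Fin (n + 1) =>
            (t • Y) p.1 * (t • Y) p.2 : Fin m ⊕ Fin (n + 1) × Fin (n + 1) → K) =
            (t ^ 2 * μ) • y := by
          funext i
          rcases i with i | ⟨k, l⟩
          · show (0 : K) = t ^ 2 * μ * y (Sum.inl i)
            rw [hy2 i, mul_zero]
          · show t * Y k * (t * Y l) = t ^ 2 * μ * y (Sum.inr (k, l))
            linear_combination t ^ 2 * hmn k l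
        rw [h4] at h3
        exact h3
      have hP : ∀ s : K, (aeval (fun i => Polynomial.C (y i) * Polynomial.X) f).eval s =
          eval (s • y) f := by
        intro s
        rw [aev_poly]
        congr 2
        funext i
        show (Polynomial.C (y i) * Polynomial.X).eval s = s * y i
        rw [Polynomial.eval_mul, Polynomial.eval_C, Polynomial.eval_X, mul_comm]
      have h3 : (aeval (fun i => Polynomial.C (y i) * Polynomial.X) f : Polynomial K) = 0 := by
        have h4 : (Set.range fun j : ℕ => ((j : K) ^ 2 * μ)).Infinite := by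
          refine Set.infinite_range_of_injective fun i j hij => ?_
          have h5 := mul_right_cancel₀ hyi hij
          have h6 : ((i ^ 2 : ℕ) : K) = ((j ^ 2 : ℕ) : K) := by
            push_cast
            exact h5
          exact Nat.pow_left_injective (by norm_num : 2 ≠ 0) (Nat.cast_injective h6)
        refine Polynomial.eq_zero_of_infinite_isRoot _ (h4.mono ?_)
        rintro _ ⟨j, rfl⟩
        show (aeval (fun i => Polynomial.C (y i) * Polynomial.X) f : Polynomial K).eval _ = 0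
        rw [hP]
        exact h2 j
      rw [← hP t, h3, Polynomial.eval_zero]
    · rintro ⟨U, hU, hf⟩
      have hcont : Continuous fun u : Fin (n + 1) → L =>
          (Sum.elim (fun _ => 0) fun p => (x (Sum.inr (i0, i0)))⁻¹ * (u p.1 * u p.2) :
            Fin m ⊕ Fin (n + 1) × Fin (n + 1) → L) := by
        refine continuous_pi fun i => ?_
        rcases i with i | p
        · exact continuous_const
        · show Continuous fun u : Fin (n + 1) → L => (x (Sum.inr (i0, i0)))⁻¹ * (u p.1 * u p.2)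
          fun_prop
      have hxv : (Sum.elim (fun _ => 0) fun p => (x (Sum.inr (i0, i0)))⁻¹ * (v p.1 * v p.2) :
            Fin m ⊕ Fin (n + 1) × Fin (n + 1) → L) = x := by
        funext i
        rcases i with i | ⟨k, l⟩
        · exact (hw i).symm
        · show (x (Sum.inr (i0, i0)))⁻¹ * (v k * v l) = x (Sum.inr (k, l))
          have h1 := hr k l
          rw [hv]
          show (x (Sum.inr (i0, i0)))⁻¹ * (x (Sum.inr (i0, k)) * x (Sum.inr (i0, l))) = _
          rw [← h1, ← mul_assoc, inv_mul_cancel₀ hi0, one_mul]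
      have hN : (fun u : Fin (n + 1) → L =>
          (Sum.elim (fun _ => 0) fun p => (x (Sum.inr (i0, i0)))⁻¹ * (u p.1 * u p.2) :
            Fin m ⊕ Fin (n + 1) × Fin (n + 1) → L)) ⁻¹' U ∈ 𝓝 v := by
        refine hcont.continuousAt.preimage_mem_nhds ?_
        rw [hxv]
        exact hU
      refine ⟨_, hN, ?_⟩
      rintro Y hY0 hY ⟨c, hc, hcU⟩ t
      have hFY : eval Y (qf q) = 0 := hY _ (Set.mem_singleton _)
      set y : Fin m ⊕ Fin (n + 1) × Fin (n + 1) → K :=
        Sum.elim (fun _ => 0) fun p => Y p.1 * Y p.2 with hy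
      have hqy : eval (fun p => y (Sum.inr p)) q = 0 := by
        have h1 := qf_eval (q := q) (RingHom.id K) Y
        have h2 : eval₂ (RingHom.id K) Y (qf q) = 0 := hFY
        rw [h2] at h1
        exact h1.symm
      have hyX : On a q (RingHom.id K) y := by
        refine ⟨fun i j => ?_, fun i j k l => ?_, ?_⟩
        · show Y i * Y j = Y j * Y i
          ring
        · show Y i * Y j * (Y k * Y l) = Y i * Y k * (Y j * Y l)
          ring
        · have h1 : eval₂ (RingHom.id K) (fun p => y (Sum.inr p)) q = 0 := hqy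
          rw [h1]
          refine Finset.sum_eq_zero fun i _ => ?_
          show a i * (0 : K) ^ 2 = 0
          ring
      have hy0 : y ≠ 0 := by
        intro h0
        apply hY0
        funext k
        exact mul_self_eq_zero.1 (congrFun h0 (Sum.inr (k, k)))
      have h1 := hf y hy0 (by
        rintro g (hg | hg)
        · exact (on_iff' a q _).2 hyX g hg
        · rw [Set.mem_singleton_iff.1 hg, eval_rename]
          exact hqy) ⟨(x (Sum.inr (i0, i0)))⁻¹ * c ^ 2, mul_ne_zero (inv_ne_zero hi0)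
            (pow_ne_zero _ hc), by
        have h2 : (Sum.elim (fun _ => 0) fun p => (x (Sum.inr (i0, i0)))⁻¹ *
            ((c * σ (Y p.1)) * (c * σ (Y p.2))) : Fin m ⊕ Fin (n + 1) × Fin (n + 1) → L) ∈ U := hcU
        have h3 : (fun i => (x (Sum.inr (i0, i0)))⁻¹ * c ^ 2 * σ (y i)) =
            (Sum.elim (fun _ => 0) fun p => (x (Sum.inr (i0, i0)))⁻¹ *
            ((c * σ (Y p.1)) * (c * σ (Y p.2))) : Fin m ⊕ Fin (n + 1) × Fin (n + 1) → L) := by
          funext i
          rcases i with i | p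
          · show _ * σ 0 = 0
            rw [map_zero, mul_zero]
          · show (x (Sum.inr (i0, i0)))⁻¹ * c ^ 2 * σ (Y p.1 * Y p.2) =
              (x (Sum.inr (i0, i0)))⁻¹ * ((c * σ (Y p.1)) * (c * σ (Y p.2)))
            rw [map_mul]
            ring
        rw [h3]
        exact h2⟩ (t ^ 2)
      rw [pF_eval]
      have h4 : (Sum.elim (fun _ => (0 : K)) fun p : Fin (n + 1) × Fin (n + 1) =>
            (t • Y) p.1 * (t • Y) p.2 : Fin m ⊕ Fin (n + 1) × Fin (n + 1) → K) =
            t ^ 2 • y := by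
        funext i
        rcases i with i | ⟨k, l⟩
        · show (0 : K) = t ^ 2 * 0
          ring
        · show t * Y k * (t * Y l) = t ^ 2 * (Y k * Y l)
          ring
      rw [h4]
      exact h1

/-- (5) -/
theorem fin_pts {F : MvPolynomial (Fin (n + 1)) K} {d : ℕ} (hF : F.IsHomogeneous d)
    {B : Set (Fin (n + 1) → K)} (hB : B.Finite)
    (hB' : ∀ Y : Fin (n + 1) → K, eval Y F = 0 → ∃ t ∈ B, ∃ c : K, Y = c • t) :
    (mazur σ {F}).Finite := by
  refine (hB.finite_subsets.image fun S : Set (Fin (n + 1) → K) =>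
    {f : MvPolynomial (Fin (n + 1)) K | ∀ b ∈ S, b ≠ 0 → eval b F = 0 → ∀ a : K,
      eval (a • b) f = 0}).subset ?_
  rintro _ ⟨x, -, -, rfl⟩
  set S : Set (Fin (n + 1) → K) := {b | b ∈ B ∧ ∀ U ∈ 𝓝 x, ∃ c : L, c ≠ 0 ∧
    (fun i => c * σ (b i)) ∈ U} with hS
  refine ⟨S, fun b hb => hb.1, ?_⟩
  have hU₁ : ∃ U₁ ∈ 𝓝 x, ∀ b ∈ B, b ∉ S → ∀ c : L, c ≠ 0 → (fun i => c * σ (b i)) ∉ U₁ := by
    have h1 : ∀ b ∈ B, ∃ U ∈ 𝓝 x, b ∉ S → ∀ c : L, c ≠ 0 → (fun i => c * σ (b i)) ∉ U := by
      intro b hb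
      by_cases hbS : b ∈ S
      · exact ⟨Set.univ, Filter.univ_mem, fun h => absurd hbS h⟩
      · have h2 : ¬ ∀ U ∈ 𝓝 x, ∃ c : L, c ≠ 0 ∧ (fun i => c * σ (b i)) ∈ U :=
          fun h => hbS ⟨hb, h⟩
        push Not at h2
        obtain ⟨U, hU, h3⟩ := h2
        exact ⟨U, hU, fun _ c hc => h3 c hc⟩
    choose! U hU hU' using h1
    refine ⟨⋂ b ∈ B, U b, (Filter.biInter_mem hB).2 hU, fun b hb hbS c hc hmem => ?_⟩
    exact hU' b hb hbS c hc (Set.mem_iInter₂.1 hmem b hb)
  obtain ⟨U₁, hU₁, hU₁'⟩ := hU₁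
  ext f
  constructor
  · intro hf
    refine ⟨U₁, hU₁, ?_⟩
    rintro Y hY hFY ⟨c, hc, hcU⟩ a
    have hFY : eval Y F = 0 := hFY _ (Set.mem_singleton _)
    obtain ⟨t, ht, d', rfl⟩ := hB' Y hFY
    have hd : d' ≠ 0 := by
      rintro rfl
      exact hY (zero_smul _ _)
    have ht0 : t ≠ 0 := by
      rintro rfl
      exact hY (smul_zero _)
    have htS : t ∈ S := by
      by_contra htS
      apply hU₁' t ht htS (c * σ d') (mul_ne_zero hc ((map_ne_zero σ).2 hd))
      convert hcU using 2 with i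
      rw [Pi.smul_apply, smul_eq_mul, map_mul]; ring
    rw [smul_smul]
    refine hf t htS ht0 ?_ (a * d')
    have h1 : d' • t = fun i => d' * t i := rfl
    rw [h1, Pool.Agent.X95T.CH.hom_smul hF, mul_eq_zero] at hFY
    exact hFY.resolve_left (pow_ne_zero _ hd)
  · rintro ⟨U, hU, hf⟩ b hb hb0 hFb a
    obtain ⟨c, hc, hcU⟩ := hb.2 U hU
    exact hf b hb0 (fun g hg => by rw [Set.mem_singleton_iff.1 hg]; exact hFb) ⟨c, hc, hcU⟩ a

end Pool.Agent.X95T.WQ
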