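import Pool.Agent.X95T.MA4

/-!
# Weighted quartics with an isotropic form
-/

set_option autoImplicit false
set_option linter.unusedSectionVars false

open MvPolynomial Topology

namespace Pool.Agent.X95T.WQ

variable {K : Type} [Field K] [CharZero K] {L : Type} [NontriviallyNormedField L] {σ : K →+* L}
  {m n : ℕ} {a : Fin m → K} {q : MvPolynomial (Fin (n + 1) × Fin (n + 1)) K}

/-- an isotropic vector which is not orthogonal to a given vector -/
lemma exists_iso (ha : ∀ i, a i ≠ 0) {W0 : Fin m → K} (hW0 : W0 ≠ 0)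
    (hQ : ∑ i, a i * W0 i ^ 2 = 0) {w : Fin m → L} (hw : w ≠ 0) :
    ∃ W1 : Fin m → K, ∑ i, a i * W1 i ^ 2 = 0 ∧ ∑ i, σ (a i) * w i * σ (W1 i) ≠ 0 := by
  classical
  by_cases h0 : ∑ i, σ (a i) * w i * σ (W0 i) = 0
  swap
  · exact ⟨W0, hQ, h0⟩
  obtain ⟨i, hi⟩ := Function.ne_iff.1 hw
  obtain ⟨j, hj⟩ := Function.ne_iff.1 hW0
  have hi : w i ≠ 0 := hi
  have hj : W0 j ≠ 0 := hj
  have key : ∀ u : Fin m → K, ∑ i, a i * W0 i * u i ≠ 0 → ∑ i, σ (a i) * w i * σ (u i) ≠ 0 →
      ∃ W1 : Fin m → K, ∑ i, a i * W1 i ^ 2 = 0 ∧ ∑ i, σ (a i) * w i * σ (W1 i) ≠ 0 := by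
    intro u hu1 hu2
    set B := ∑ i, a i * W0 i * u i with hB
    set A := ∑ i, a i * u i ^ 2 with hA
    refine ⟨fun i => u i - A / (2 * B) * W0 i, ?_, ?_⟩
    · have hexp : ∀ c : K, ∑ i, a i * (u i - c * W0 i) ^ 2 =
          A - 2 * c * B + c ^ 2 * ∑ i, a i * W0 i ^ 2 := by
        intro c
        rw [hA, hB, Finset.mul_sum, Finset.mul_sum, ← Finset.sum_sub_distrib,
          ← Finset.sum_add_distrib]
        exact Finset.sum_congr rfl fun i _ => by ring
      rw [hexp, hQ]
      field_simp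
      ring
    · have hexp : ∀ c : K, ∑ i, σ (a i) * w i * σ (u i - c * W0 i) =
          ∑ i, σ (a i) * w i * σ (u i) - σ c * ∑ i, σ (a i) * w i * σ (W0 i) := by
        intro c
        rw [Finset.mul_sum, ← Finset.sum_sub_distrib]
        refine Finset.sum_congr rfl fun i _ => ?_
        rw [map_sub, map_mul]
        ring
      rw [hexp, h0, mul_zero, sub_zero]
      exact hu2
  have s1 : ∀ k, ∑ i, a i * W0 i * (Pi.single k (1 : K) : Fin m → K) i = a k * W0 k := by
    intro k
    rw [Finset.sum_eq_single k]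
    · simp
    · intro b _ hb
      simp [Pi.single_eq_of_ne hb]
    · intro h
      exact absurd (Finset.mem_univ k) h
  have s2 : ∀ k, ∑ i, σ (a i) * w i * σ ((Pi.single k (1 : K) : Fin m → K) i) =
      σ (a k) * w k := by
    intro k
    rw [Finset.sum_eq_single k]
    · simp
    · intro b _ hb
      simp [Pi.single_eq_of_ne hb]
    · intro h
      exact absurd (Finset.mem_univ k) h
  by_cases h1 : W0 i = 0
  · by_cases h2 : w j = 0
    · refine key (Pi.single i 1 + Pi.single j 1) ?_ ?_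
      · have : ∑ k, a k * W0 k * (Pi.single i (1 : K) + Pi.single j (1 : K) : Fin m → K) k =
            a i * W0 i + a j * W0 j := by
          rw [← s1, ← s1, ← Finset.sum_add_distrib]
          exact Finset.sum_congr rfl fun k _ => by rw [Pi.add_apply]; ring
        rw [this, h1, mul_zero, zero_add]
        exact mul_ne_zero (ha j) hj
      · have : ∑ k, σ (a k) * w k * σ ((Pi.single i (1 : K) + Pi.single j (1 : K) :
            Fin m → K) k) = σ (a i) * w i + σ (a j) * w j := by
          rw [← s2, ← s2, ← Finset.sum_add_distrib]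
          exact Finset.sum_congr rfl fun k _ => by rw [Pi.add_apply, map_add]; ring
        rw [this, h2, mul_zero, add_zero]
        exact mul_ne_zero ((map_ne_zero σ).2 (ha i)) hi
    · refine key (Pi.single j 1) ?_ ?_
      · rw [s1]
        exact mul_ne_zero (ha j) hj
      · rw [s2]
        exact mul_ne_zero ((map_ne_zero σ).2 (ha j)) h2
  · refine key (Pi.single i 1) ?_ ?_
    · rw [s1]
      exact mul_ne_zero (ha i) h1
    · rw [s2]
      exact mul_ne_zero ((map_ne_zero σ).2 (ha i)) hi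

/-- approximation at the points with `w ≠ 0` -/
lemma approx_aux (ha : ∀ i, a i ≠ 0) (hq : q.IsHomogeneous 2) (hF : qf q ≠ 0)
    (hσ : DenseRange σ) {W0 : Fin m → K} (hW0 : W0 ≠ 0) (hQ : ∑ i, a i * W0 i ^ 2 = 0)
    {x : Fin m ⊕ Fin (n + 1) × Fin (n + 1) → L} (hx : On a q σ x)
    (hw : (fun i => x (Sum.inl i)) ≠ 0)
    {U : Set (Fin m ⊕ Fin (n + 1) × Fin (n + 1) → L)} (hU : U ∈ 𝓝 x) :
    ∃ y : Fin m ⊕ Fin (n + 1) × Fin (n + 1) → K,
      (∀ g ∈ eqs a q, eval y g = 0) ∧ eval (fun p => y (Sum.inr p)) q ≠ 0 ∧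
      ∃ c : L, c ≠ 0 ∧ (fun i => c * σ (y i)) ∈ U := by
  classical
  obtain ⟨W1, hW1, hW1x⟩ := exists_iso (σ := σ) ha hW0 hQ hw
  -- a parametrization of the symmetric matrix
  obtain ⟨l0, v, hlv⟩ : ∃ (l0 : L) (v : Fin (n + 1) → L), ∀ k l, x (Sum.inr (k, l)) =
      l0 * (v k * v l) := by
    by_cases hs : (fun p => x (Sum.inr p)) = 0
    · exact ⟨0, 0, fun k l => by rw [zero_mul]; exact congrFun hs (k, l)⟩
    · obtain ⟨i, hi, hr⟩ := hx.rank hs
      refine ⟨(x (Sum.inr (i, i)))⁻¹, fun k => x (Sum.inr (i, k)), fun k l => ?_⟩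
      rw [← hr k l, ← mul_assoc, inv_mul_cancel₀ hi, one_mul]
  -- the parameters: `none`, the entries of the matrix, the vector
  let P : Type := Option (Fin (n + 1) ⊕ Fin m)
  let x0 : P → L := fun o => o.elim l0 (Sum.elim v fun i => x (Sum.inl i))
  let den : (P → L) → L := fun u => 2 * ∑ i, σ (a i) * u (some (Sum.inr i)) * σ (W1 i)
  let num : (P → L) → L := fun u =>
    u none ^ 2 * eval₂ σ (fun k => u (some (Sum.inl k))) (qf q) -
      ∑ i, σ (a i) * u (some (Sum.inr i)) ^ 2
  let Φ : (P → L) → Fin m ⊕ Fin (n + 1) × Fin (n + 1) → L := fun u =>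
    Sum.elim (fun i => u (some (Sum.inr i)) + num u / den u * σ (W1 i))
      fun p => u none * (u (some (Sum.inl p.1)) * u (some (Sum.inl p.2)))
  have : CharZero L := charZero_of_injective_ringHom σ.injective
  have hden0 : den x0 ≠ 0 := mul_ne_zero two_ne_zero hW1x
  have hnum0 : num x0 = 0 := by
    show l0 ^ 2 * eval₂ σ v (qf q) - ∑ i, σ (a i) * x (Sum.inl i) ^ 2 = 0
    rw [hx.eq, qf_eval, ← ev_hom σ hq]
    have h1 : (fun p : Fin (n + 1) × Fin (n + 1) => l0 * (v p.1 * v p.2)) =
        fun p => x (Sum.inr p) := by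
      funext ⟨k, l⟩
      exact (hlv k l).symm
    rw [h1, sub_self]
  have hΦ0 : Φ x0 = x := by
    funext i
    rcases i with i | ⟨k, l⟩
    · show x (Sum.inl i) + num x0 / den x0 * σ (W1 i) = x (Sum.inl i)
      rw [hnum0, zero_div, zero_mul, add_zero]
    · exact (hlv k l).symm
  have hcden : Continuous den := by fun_prop
  have hcnum : Continuous num := by
    refine Continuous.sub ((by fun_prop : Continuous fun u : P → L => u none ^ 2).mul
      ((cont2 σ (qf q)).comp (by fun_prop))) (by fun_prop)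
  have hcΦ : ContinuousAt Φ x0 := by
    refine continuousAt_pi.2 fun i => ?_
    rcases i with i | p
    · show ContinuousAt (fun u : P → L => u (some (Sum.inr i)) + num u / den u * σ (W1 i)) x0
      exact (by fun_prop : Continuous fun u : P → L => u (some (Sum.inr i))).continuousAt.add
        ((hcnum.continuousAt.div hcden.continuousAt hden0).mul continuousAt_const)
    · show ContinuousAt (fun u : P → L =>
        u none * (u (some (Sum.inl p.1)) * u (some (Sum.inl p.2)))) x0
      exact (by fun_prop : Continuous fun u : P → L =>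
        u none * (u (some (Sum.inl p.1)) * u (some (Sum.inl p.2)))).continuousAt
  have hN : Φ ⁻¹' U ∈ 𝓝 x0 := hcΦ.preimage_mem_nhds (by rw [hΦ0]; exact hU)
  -- a good point over `K`
  have hW1n : ∃ i, W1 i ≠ 0 := by
    by_contra hc
    push Not at hc
    exact hW1x (Finset.sum_eq_zero fun i _ => by rw [hc i, map_zero, mul_zero])
  let G : MvPolynomial P K := X none * rename (fun k => some (Sum.inl k)) (qf q) *
    ∑ i, C (a i * W1 i) * X (some (Sum.inr i))
  have hG : G ≠ 0 := by
    refine mul_ne_zero (mul_ne_zero (X_ne_zero _) ?_) ?_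
    · intro h0
      apply hF
      refine rename_injective (fun k : Fin (n + 1) => (some (Sum.inl k) : P)) ?_ ?_
      · intro k l hkl
        exact Sum.inl_injective (Option.some_injective _ hkl)
      · rw [h0, map_zero]
    · intro h0
      obtain ⟨i, hi⟩ := hW1n
      have h1 := congrArg (eval fun o : P => o.elim 0 (Sum.elim (fun _ => 0)
        (Pi.single i (1 : K)))) h0
      rw [map_sum, map_zero, Finset.sum_eq_single i] at h1
      · rw [map_mul, eval_C, eval_X] at h1
        have h2 : a i * W1 i * (Pi.single i (1 : K) : Fin m → K) i = 0 := h1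
        rw [Pi.single_eq_same, mul_one] at h2
        exact mul_ne_zero (ha i) hi h2
      · intro j _ hj
        rw [map_mul, eval_C, eval_X]
        show a j * W1 j * (Pi.single i (1 : K) : Fin m → K) j = 0
        rw [Pi.single_eq_of_ne hj, mul_zero]
      · intro h
        exact absurd (Finset.mem_univ i) h
  obtain ⟨u, huU, huG⟩ : ∃ u : P → K, (fun i => σ (u i)) ∈ Φ ⁻¹' U ∧ eval u G ≠ 0 := by
    by_contra hc
    push Not at hc
    exact hG (zero_of_nhds hσ hN hc)
  have hG1 : eval u G = u none * eval (fun k => u (some (Sum.inl k))) (qf q) *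
      ∑ i, a i * W1 i * u (some (Sum.inr i)) := by
    show eval u (X none * rename (fun k => some (Sum.inl k)) (qf q) *
      ∑ i, C (a i * W1 i) * X (some (Sum.inr i))) = _
    rw [map_mul, map_mul, eval_X, eval_rename, map_sum]
    congr 1
    refine Finset.sum_congr rfl fun i _ => ?_
    rw [map_mul, eval_C, eval_X]
  rw [hG1] at huG
  have hu1 : u none ≠ 0 := left_ne_zero_of_mul (left_ne_zero_of_mul huG)
  have hu2 : eval (fun k => u (some (Sum.inl k))) (qf q) ≠ 0 :=
    right_ne_zero_of_mul (left_ne_zero_of_mul huG)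
  have hu3 : ∑ i, a i * W1 i * u (some (Sum.inr i)) ≠ 0 := right_ne_zero_of_mul huG
  set D : K := 2 * ∑ i, a i * u (some (Sum.inr i)) * W1 i with hD
  have hD0 : D ≠ 0 := by
    refine mul_ne_zero two_ne_zero ?_
    have : ∑ i, a i * u (some (Sum.inr i)) * W1 i = ∑ i, a i * W1 i * u (some (Sum.inr i)) :=
      Finset.sum_congr rfl fun i _ => by ring
    rw [this]
    exact hu3
  set N : K := u none ^ 2 * eval (fun k => u (some (Sum.inl k))) (qf q) -
      ∑ i, a i * u (some (Sum.inr i)) ^ 2 with hNd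
  let y : Fin m ⊕ Fin (n + 1) × Fin (n + 1) → K :=
    Sum.elim (fun i => u (some (Sum.inr i)) + N / D * W1 i)
      fun p => u none * (u (some (Sum.inl p.1)) * u (some (Sum.inl p.2)))
  have hyq : eval (fun p => y (Sum.inr p)) q =
      u none ^ 2 * eval (fun k => u (some (Sum.inl k))) (qf q) := by
    have h1 := ev_hom (RingHom.id K) hq (u none) fun p : Fin (n + 1) × Fin (n + 1) =>
      u (some (Sum.inl p.1)) * u (some (Sum.inl p.2))
    have h2 := qf_eval (q := q) (RingHom.id K) fun k => u (some (Sum.inl k))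
    rw [← h2] at h1
    exact h1
  refine ⟨y, (on_iff' a q _).2 ⟨fun i j => ?_, fun i j k l => ?_, ?_⟩, ?_, 1, one_ne_zero, ?_⟩
  · show u none * (u (some (Sum.inl i)) * u (some (Sum.inl j))) =
      u none * (u (some (Sum.inl j)) * u (some (Sum.inl i)))
    ring
  · show u none * (u (some (Sum.inl i)) * u (some (Sum.inl j))) *
        (u none * (u (some (Sum.inl k)) * u (some (Sum.inl l)))) =
      u none * (u (some (Sum.inl i)) * u (some (Sum.inl k))) *
        (u none * (u (some (Sum.inl j)) * u (some (Sum.inl l))))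
    ring
  · have h1 : eval₂ (RingHom.id K) (fun p => y (Sum.inr p)) q =
        u none ^ 2 * eval (fun k => u (some (Sum.inl k))) (qf q) := hyq
    rw [h1]
    show ∑ i, a i * (u (some (Sum.inr i)) + N / D * W1 i) ^ 2 = _
    have h2 : ∑ i, a i * (u (some (Sum.inr i)) + N / D * W1 i) ^ 2 =
        ∑ i, a i * u (some (Sum.inr i)) ^ 2 + N / D * D + (N / D) ^ 2 *
          ∑ i, a i * W1 i ^ 2 := by
      rw [hD, Finset.mul_sum, Finset.mul_sum, Finset.mul_sum, ← Finset.sum_add_distrib,
        ← Finset.sum_add_distrib]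
      rw [← Finset.mul_sum, ← hD]
      exact Finset.sum_congr rfl fun i _ => by ring
    rw [h2, hW1, div_mul_cancel₀ _ hD0, hNd]
    ring
  · rw [hyq]
    exact mul_ne_zero (pow_ne_zero _ hu1) hu2
  · have h1 : (fun i => (1 : L) * σ (y i)) = Φ fun i => σ (u i) := by
      funext i
      rw [one_mul]
      rcases i with i | p
      · show σ (u (some (Sum.inr i)) + N / D * W1 i) = σ (u (some (Sum.inr i))) +
          num (fun i => σ (u i)) / den (fun i => σ (u i)) * σ (W1 i)
        have h2 : num (fun i => σ (u i)) = σ N := by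
          show σ (u none) ^ 2 * eval₂ σ (fun k => σ (u (some (Sum.inl k)))) (qf q) -
            ∑ i, σ (a i) * σ (u (some (Sum.inr i))) ^ 2 = σ N
          rw [ev2, hNd, map_sub, map_mul, map_pow, map_sum]
          congr 1
          exact Finset.sum_congr rfl fun i _ => by rw [map_mul, map_pow]
        have h3 : den (fun i => σ (u i)) = σ D := by
          show 2 * ∑ i, σ (a i) * σ (u (some (Sum.inr i))) * σ (W1 i) = σ D
          rw [hD, map_mul, map_sum, map_ofNat]
          congr 1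
          exact Finset.sum_congr rfl fun i _ => by rw [map_mul, map_mul]
        rw [h2, h3, map_add, map_mul, map_div₀]
      · show σ (u none * (u (some (Sum.inl p.1)) * u (some (Sum.inl p.2)))) = _
        rw [map_mul, map_mul]
        rfl
    rw [h1]
    exact huU

/-- approximation at all points -/
lemma approx (ha : ∀ i, a i ≠ 0) (hq : q.IsHomogeneous 2) (hF : qf q ≠ 0)
    (hσ : DenseRange σ) {W0 : Fin m → K} (hW0 : W0 ≠ 0) (hQ : ∑ i, a i * W0 i ^ 2 = 0)
    {x : Fin m ⊕ Fin (n + 1) × Fin (n + 1) → L} (hx : On a q σ x)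
    {U : Set (Fin m ⊕ Fin (n + 1) × Fin (n + 1) → L)} (hU : U ∈ 𝓝 x) :
    ∃ y : Fin m ⊕ Fin (n + 1) × Fin (n + 1) → K,
      (∀ g ∈ eqs a q, eval y g = 0) ∧ eval (fun p => y (Sum.inr p)) q ≠ 0 ∧
      ∃ c : L, c ≠ 0 ∧ (fun i => c * σ (y i)) ∈ U := by
  classical
  by_cases hw : (fun i => x (Sum.inl i)) = 0
  swap
  · exact approx_aux ha hq hF hσ hW0 hQ hx hw hU
  -- move to a point with `w ≠ 0`
  let ψ : L → Fin m ⊕ Fin (n + 1) × Fin (n + 1) → L := fun s =>
    Sum.elim (fun i => s * σ (W0 i)) fun p => x (Sum.inr p)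
  have hψc : Continuous ψ := by
    refine continuous_pi fun i => ?_
    rcases i with i | p
    · show Continuous fun s : L => s * σ (W0 i)
      fun_prop
    · exact continuous_const
  have hψ0 : ψ 0 = x := by
    funext i
    rcases i with i | p
    · show 0 * σ (W0 i) = x (Sum.inl i)
      rw [zero_mul]
      exact (congrFun hw i).symm
    · rfl
  have hN : ψ ⁻¹' (interior U) ∈ 𝓝 (0 : L) :=
    hψc.continuousAt.preimage_mem_nhds (by rw [hψ0]; exact interior_mem_nhds.2 hU)
  obtain ⟨s, hs, hs0⟩ : ∃ s, s ∈ ψ ⁻¹' (interior U) ∧ s ≠ 0 := by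
    have h1 : ψ ⁻¹' (interior U) ∩ {0}ᶜ ∈ 𝓝[≠] (0 : L) :=
      Filter.inter_mem (mem_nhdsWithin_of_mem_nhds hN) self_mem_nhdsWithin
    obtain ⟨s, hs⟩ := Filter.nonempty_of_mem h1
    exact ⟨s, hs.1, hs.2⟩
  have hon : On a q σ (ψ s) := by
    refine ⟨fun i j => hx.sym i j, fun i j k l => hx.min i j k l, ?_⟩
    show ∑ i, σ (a i) * (s * σ (W0 i)) ^ 2 = eval₂ σ (fun p => x (Sum.inr p)) q
    rw [← hx.eq]
    have h1 : ∑ i, σ (a i) * x (Sum.inl i) ^ 2 = 0 :=
      Finset.sum_eq_zero fun i _ => by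
        have : x (Sum.inl i) = 0 := congrFun hw i
        rw [this]
        ring
    have h2 : ∑ i, σ (a i) * (s * σ (W0 i)) ^ 2 = s ^ 2 * σ (∑ i, a i * W0 i ^ 2) := by
      rw [map_sum, Finset.mul_sum]
      exact Finset.sum_congr rfl fun i _ => by rw [map_mul, map_pow]; ring
    rw [h1, h2, hQ, map_zero, mul_zero]
  refine approx_aux ha hq hF hσ hW0 hQ hon ?_ (mem_interior_iff_mem_nhds.1 hs)
  intro h0
  obtain ⟨i, hi⟩ := Function.ne_iff.1 hW0
  have h1 : s * σ (W0 i) = 0 := congrFun h0 i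
  exact mul_ne_zero hs0 ((map_ne_zero σ).2 hi) h1

/-- isotropic forms -/
theorem iso_loc (hm : 2 ≤ m) (ha : ∀ i, a i ≠ 0) (hq : q.IsHomogeneous 2) (hF : qf q ≠ 0)
    (hσ : DenseRange σ) (hiso : ∃ W0 : Fin m → K, W0 ≠ 0 ∧ ∑ i, a i * W0 i ^ 2 = 0)
    {x : Fin m ⊕ Fin (n + 1) × Fin (n + 1) → L} (hx : ∀ g ∈ eqs a q, eval₂ σ x g = 0) :
    loc σ (eqs a q) x = idl (eqs a q) := by
  obtain ⟨W0, hW0, hQ⟩ := hiso
  exact loc_gen hm ha hq hσ fun U hU =>
    approx ha hq hF hσ hW0 hQ ((on_iff a q _ _).1 hx) hU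

/-- **reduction to the quartic hypersurface** -/
theorem red_all (hm : 2 ≤ m) (ha : ∀ i, a i ≠ 0) (hq : q.IsHomogeneous 2) (hF : qf q ≠ 0)
    (hσ : DenseRange σ) (hfin : (mazur σ {qf q}).Finite) : (mazur σ (eqs a q)).Finite := by
  by_cases hiso : ∃ W0 : Fin m → K, W0 ≠ 0 ∧ ∑ i, a i * W0 i ^ 2 = 0
  · refine (Set.finite_singleton (idl (eqs a q))).subset ?_
    rintro _ ⟨x, -, hx, rfl⟩
    exact iso_loc hm ha hq hF hσ hiso hx
  · push Not at hiso
    exact aniso hm ha hq hσ (fun W hW => by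
      by_contra h
      exact hiso W h hW) hfin

end Pool.Agent.X95T.WQ
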