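import Pool.Agent.X95T.MA5
import Pool.Agent.TH729.CV.Trans

/-!
# Weighted quartics: reducible quartic forms
-/

set_option autoImplicit false
set_option linter.unusedSectionVars false

open MvPolynomial Topology

namespace Pool.Agent.X95T.WQ

variable {K : Type} [Field K] [CharZero K] {L : Type} [NontriviallyNormedField L] {σ : K →+* L}

/-- points off the hypersurface -/
lemma loc_off {ι : Type} {F : MvPolynomial ι K} {d : ℕ} (hF : F.IsHomogeneous d) {x : ι → L}
    (hx : eval₂ σ x F ≠ 0) : loc σ {F} x = Set.univ := by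
  rw [Set.eq_univ_iff_forall]
  intro f
  refine ⟨{u | eval₂ σ u F ≠ 0}, (isOpen_ne_fun (cont2 σ _) continuous_const).mem_nhds hx, ?_⟩
  rintro y hy0 hy ⟨c, hc, hcU⟩
  exfalso
  apply hcU
  show eval₂ σ (fun i => c * σ (y i)) F = 0
  rw [ev_hom σ hF, ev2, hy _ (Set.mem_singleton _), map_zero, mul_zero]

/-- products -/
lemma mazur_mul {ι : Type} {F G : MvPolynomial ι K} {d e : ℕ} (hF : F.IsHomogeneous d)
    (hG : G.IsHomogeneous e) (h1 : (mazur σ {F}).Finite) (h2 : (mazur σ {G}).Finite) :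
    (mazur σ {F * G}).Finite := by
  have h3 := (h1.union (Set.finite_singleton Set.univ)).prod
    (h2.union (Set.finite_singleton Set.univ))
  refine (h3.image fun T => T.1 ∩ T.2).subset ?_
  rintro _ ⟨x, hx0, -, rfl⟩
  refine ⟨(loc σ {F} x, loc σ {G} x), ⟨?_, ?_⟩, ?_⟩
  · by_cases hx : eval₂ σ x F = 0
    · exact Or.inl ⟨x, hx0, fun g hg => by rw [Set.mem_singleton_iff.1 hg]; exact hx, rfl⟩
    · exact Or.inr (loc_off hF hx)
  · by_cases hx : eval₂ σ x G = 0
    · exact Or.inl ⟨x, hx0, fun g hg => by rw [Set.mem_singleton_iff.1 hg]; exact hx, rfl⟩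
    · exact Or.inr (loc_off hG hx)
  ext f
  constructor
  · rintro ⟨⟨U, hU, hf⟩, ⟨V, hV, hg⟩⟩
    refine ⟨U ∩ V, Filter.inter_mem hU hV, ?_⟩
    rintro y hy0 hy ⟨c, hc, hcU⟩
    have h4 := hy _ (Set.mem_singleton _)
    rw [map_mul] at h4
    rcases mul_eq_zero.1 h4 with h5 | h5
    · exact hf y hy0 (fun g hg => by rw [Set.mem_singleton_iff.1 hg]; exact h5) ⟨c, hc, hcU.1⟩
    · exact hg y hy0 (fun g hg => by rw [Set.mem_singleton_iff.1 hg]; exact h5) ⟨c, hc, hcU.2⟩
  · rintro ⟨U, hU, hf⟩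
    refine ⟨⟨U, hU, fun y hy0 hy hc => hf y hy0 (fun g hg => ?_) hc⟩,
      ⟨U, hU, fun y hy0 hy hc => hf y hy0 (fun g hg => ?_) hc⟩⟩
    · rw [Set.mem_singleton_iff.1 hg, map_mul, hy _ (Set.mem_singleton _), zero_mul]
    · rw [Set.mem_singleton_iff.1 hg, map_mul, hy _ (Set.mem_singleton _), mul_zero]

/-- degree at most three -/
lemma mazur_cub {K : Type} [Field K] [NumberField K] {L : Type} [NontriviallyNormedField L]
    [CompleteSpace L] (σ : K →+* L) (hσ : DenseRange σ) {n d : ℕ}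
    {F : MvPolynomial (Fin (n + 1)) K} (hF : F.IsHomogeneous d) (hd : d ≤ 3) :
    (mazur σ {F}).Finite := by
  have : CharZero L := charZero_of_injective_ringHom σ.injective
  have : ProperSpace L := Pool.Agent.W279.Tri.properSpace_of_denseRange σ hσ
  refine (Pool.Agent.TH729.CV.fin_ideals σ hσ hF hd).subset ?_
  rintro _ ⟨x, hx0, hx, rfl⟩
  refine ⟨x, hx0, hx _ (Set.mem_singleton _), ?_⟩
  ext f
  constructor
  · rintro ⟨U, hU, hf⟩
    exact ⟨U, hU, fun y hy0 hy hc => hf y hy0 (fun g hg => by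
      rw [Set.mem_singleton_iff.1 hg]
      exact hy) hc⟩
  · rintro ⟨U, hU, hf⟩
    exact ⟨U, hU, fun y hy0 hy hc => hf y hy0 (hy _ (Set.mem_singleton _)) hc⟩

end Pool.Agent.X95T.WQ
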