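import Pool.Agent.X95T.MA6
import Mathlib.RingTheory.Nullstellensatz

/-!
# Weighted quartics: the ideal of the projective variety is prime
-/

set_option autoImplicit false
set_option linter.unusedSectionVars false

open MvPolynomial Topology

namespace Pool.Agent.X95T.WQ

section elim

variable {K ι κ : Type} [Field K] [CharZero K] [Fintype ι] [DecidableEq ι] (a : ι → K)
  (f : MvPolynomial κ K) (i0 : ι)

/-- A product of two functions on the variety vanishes only if a factor does. -/
theorem elimS (hf : f ≠ 0) (ha : ∀ i, a i ≠ 0) {i1 : ι} (hi : i1 ≠ i0)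
    (g p : MvPolynomial (ι ⊕ κ) K)
    (hgp : ∀ Z : ι ⊕ κ → AlgebraicClosure K,
      bl a (fun i => Z (Sum.inl i)) (fun i => Z (Sum.inl i)) = aeval (fun j => Z (Sum.inr j)) f →
      aeval Z g * aeval Z p = 0) :
    (∀ Z : ι ⊕ κ → AlgebraicClosure K, bl a (fun i => Z (Sum.inl i)) (fun i => Z (Sum.inl i)) =
      aeval (fun j => Z (Sum.inr j)) f → aeval Z g = 0) ∨
    (∀ Z : ι ⊕ κ → AlgebraicClosure K, bl a (fun i => Z (Sum.inl i)) (fun i => Z (Sum.inl i)) =
      aeval (fun j => Z (Sum.inr j)) f → aeval Z p = 0) := by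
  obtain ⟨g0, g1, hg⟩ := split a f i0 g
  obtain ⟨p0, p1, hp'⟩ := split a f i0 p
  have key : (g0 ^ 2 - g1 ^ 2 * Dt a f i0) * (p0 ^ 2 - p1 ^ 2 * Dt a f i0) = 0 := by
    apply MvPolynomial.funext
    intro e
    rw [map_zero]
    obtain ⟨s, hs⟩ := IsAlgClosed.exists_pow_nat_eq
      (algebraMap K (AlgebraicClosure K) (eval e (Dt a f i0))) (n := 2) (by norm_num)
    -- the points above `e`
    have hpt : ∀ s' : AlgebraicClosure K, s' ^ 2 = s ^ 2 →
        (algebraMap K (AlgebraicClosure K) (eval e g0) +
          algebraMap K (AlgebraicClosure K) (eval e g1) * s') *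
        (algebraMap K (AlgebraicClosure K) (eval e p0) +
          algebraMap K (AlgebraicClosure K) (eval e p1) * s') = 0 := by
      intro s' hs'
      set Z' : ι ⊕ κ → AlgebraicClosure K := Sum.elim
        (fun i => if h : i = i0 then s' else algebraMap K _ (e (Sum.inl ⟨i, h⟩)))
        (fun j => algebraMap K _ (e (Sum.inr j))) with hZ'
      have h1 : rz i0 Z' = fun t => algebraMap K _ (e t) := by
        funext t
        rcases t with t | t
        · show (if h : t.1 = i0 then s' else algebraMap K _ (e (Sum.inl ⟨t.1, h⟩))) = _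
          rw [dif_neg t.2]
        · rfl
      have h2 : ∀ q : MvPolynomial ({i // i ≠ i0} ⊕ κ) K, aeval (rz i0 Z') q =
          algebraMap K (AlgebraicClosure K) (eval e q) := by
        intro q
        rw [h1]
        exact (aeval_algebraMap_apply (AlgebraicClosure K) e q).trans (by rw [aeval_eq_eval])
      have h3 : Z' (Sum.inl i0) = s' := by
        show (if h : i0 = i0 then s' else _) = s'
        rw [dif_pos rfl]
      have h4 : Z' (Sum.inl i0) ^ 2 = aeval (rz i0 Z') (Dt a f i0) := by
        rw [h3, hs', hs, h2]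
      have h5 := hgp Z' ((on_V_iff a f i0 (ha i0) Z').2 h4)
      rw [hg _ Z' h4, hp' _ Z' h4, h2, h2, h2, h2, h3] at h5
      exact h5
    have e1 := hpt s rfl
    have e2 := hpt (-s) (by ring)
    apply (algebraMap K (AlgebraicClosure K)).injective
    simp only [map_zero, map_mul, map_sub, map_pow]
    rw [← hs]
    linear_combination (algebraMap K (AlgebraicClosure K) (eval e g0) -
          algebraMap K (AlgebraicClosure K) (eval e g1) * s) *
        (algebraMap K (AlgebraicClosure K) (eval e p0) -
          algebraMap K (AlgebraicClosure K) (eval e p1) * s) * e1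
  rcases mul_eq_zero.1 key with h | h
  · left
    intro Z hZ
    have h1 : g1 = 0 := nonsq a f i0 hf ha hi (u := g0) (by linear_combination h)
    have h0 : g0 = 0 := by
      rw [h1] at h
      have : g0 ^ 2 = 0 := by linear_combination h
      exact pow_eq_zero_iff two_ne_zero |>.1 this
    rw [hg _ Z ((on_V_iff a f i0 (ha i0) Z).1 hZ), h0, h1]
    simp
  · right
    intro Z hZ
    have h1 : p1 = 0 := nonsq a f i0 hf ha hi (u := p0) (by linear_combination h)
    have h0 : p0 = 0 := by
      rw [h1] at h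
      have : p0 ^ 2 = 0 := by linear_combination h
      exact pow_eq_zero_iff two_ne_zero |>.1 this
    rw [hp' _ Z ((on_V_iff a f i0 (ha i0) Z).1 hZ), h0, h1]
    simp

end elim

variable {K : Type} [Field K] [CharZero K]
  {m n : ℕ} {a : Fin m → K} {q : MvPolynomial (Fin (n + 1) × Fin (n + 1)) K}

/-- all points over the algebraic closure come from the affine variety -/
lemma em_surj {z' : Fin m ⊕ Fin (n + 1) × Fin (n + 1) → AlgebraicClosure K}
    (hz' : On a q (algebraMap K (AlgebraicClosure K)) z') :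
    ∃ Z : Fin m ⊕ Fin (n + 1) → AlgebraicClosure K, em Z = z' := by
  by_cases hs' : (fun p => z' (Sum.inr p)) = 0
  · refine ⟨Sum.elim (fun i => z' (Sum.inl i)) fun _ => 0, ?_⟩
    funext i
    rcases i with i | p
    · rfl
    · show (0 : AlgebraicClosure K) * 0 = z' (Sum.inr p)
      rw [mul_zero]
      exact (congrFun hs' p).symm
  · obtain ⟨i1, hi1, hr1⟩ := hz'.rank hs'
    obtain ⟨r, hr2⟩ := IsAlgClosed.exists_pow_nat_eq (z' (Sum.inr (i1, i1))) (n := 2) (by norm_num)
    have hr0 : r ≠ 0 := by
      rintro rfl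
      rw [zero_pow two_ne_zero] at hr2
      exact hi1 hr2.symm
    refine ⟨Sum.elim (fun i => z' (Sum.inl i)) fun k => z' (Sum.inr (i1, k)) / r, ?_⟩
    funext i
    rcases i with i | ⟨k, l⟩
    · rfl
    · show z' (Sum.inr (i1, k)) / r * (z' (Sum.inr (i1, l)) / r) = z' (Sum.inr (k, l))
      have h2 := hr1 k l
      rw [← hr2] at h2
      field_simp
      linear_combination -h2

/-- **the variety is irreducible over the algebraic closure** -/
theorem rad_prime (hm : 2 ≤ m) (ha : ∀ i, a i ≠ 0) (hq : q.IsHomogeneous 2) (hF : qf q ≠ 0) :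
    (Ideal.span (eqs a q)).radical.IsPrime := by
  classical
  have : Nontrivial (Fin m) := Fin.nontrivial_iff_two_le.2 hm
  rw [← vanishingIdeal_zeroLocus_eq_radical (K := AlgebraicClosure K), zeroLocus_span]
  have hmem : ∀ f : MvPolynomial (Fin m ⊕ Fin (n + 1) × Fin (n + 1)) K,
      f ∈ vanishingIdeal K {x : Fin m ⊕ Fin (n + 1) × Fin (n + 1) → AlgebraicClosure K |
        ∀ p ∈ eqs a q, aeval x p = 0} ↔
      ∀ Z : Fin m ⊕ Fin (n + 1) → AlgebraicClosure K,
        bl a (fun i => Z (Sum.inl i)) (fun i => Z (Sum.inl i)) =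
          aeval (fun j => Z (Sum.inr j)) (qf q) → aeval Z (pb f) = 0 := by
    intro f
    constructor
    · intro hf Z hZ
      rw [pb_eval]
      exact hf _ ((on_iff a q _ _).2 (em_on hZ))
    · intro hf x hx
      have hx' : On a q (algebraMap K (AlgebraicClosure K)) x := (on_iff a q _ _).1 hx
      obtain ⟨Z, rfl⟩ := em_surj hx'
      rw [← pb_eval]
      exact hf Z (on_em hx')
  refine Ideal.isPrime_iff.2 ⟨?_, ?_⟩
  · rw [Ne, Ideal.eq_top_iff_one, hmem]
    push Not
    refine ⟨fun _ => 0, ?_, ?_⟩
    · have h1 : aeval (fun _ => (0 : AlgebraicClosure K)) (qf q) = 0 := by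
        have h2 := ev_hom (algebraMap K (AlgebraicClosure K)) (qf_deg hq) 0
          fun _ => (0 : AlgebraicClosure K)
        simp only [zero_mul] at h2
        rw [zero_pow four_ne_zero, zero_mul] at h2
        exact h2
      rw [h1]
      unfold bl
      exact Finset.sum_eq_zero fun i _ => by ring
    · rw [pb_eval, map_one]
      exact one_ne_zero
  · intro f g hfg
    rw [hmem, hmem]
    rw [hmem] at hfg
    obtain ⟨i0, i1, hi⟩ := exists_pair_ne (Fin m)
    refine elimS a (qf q) i0 hF ha hi.symm (pb f) (pb g) fun Z hZ => ?_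
    have h1 := hfg Z hZ
    rw [pb_eval, map_mul] at h1
    rw [pb_eval, pb_eval]
    exact h1

/-- the ideal of the variety -/
lemma idl_rad (S : Set (MvPolynomial (Fin m ⊕ Fin (n + 1) × Fin (n + 1)) K)) :
    idl S = (Ideal.span S).radical := by
  rw [← vanishingIdeal_zeroLocus_eq_radical (K := AlgebraicClosure K), zeroLocus_span]
  ext f
  rfl

end Pool.Agent.X95T.WQ
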