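import Pool.Agent.X95T.MA7

/-!
# Weighted quartics: products of forms, binary forms
-/

set_option autoImplicit false
set_option linter.unusedSectionVars false

open MvPolynomial Topology

namespace Pool.Agent.X95T.WQ

/-- finitely many zeros up to scalars -/
def FZ {K : Type} [Field K] {n : ℕ} (F : MvPolynomial (Fin (n + 1)) K) : Prop :=
  ∃ B : Finset (Fin (n + 1) → K), ∀ Y : Fin (n + 1) → K, eval Y F = 0 →
    ∃ t ∈ B, ∃ c : K, Y = c • t

lemma FZ.fin {K : Type} [Field K] [CharZero K] {L : Type} [NontriviallyNormedField L]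
    {σ : K →+* L} {n d : ℕ} {F : MvPolynomial (Fin (n + 1)) K} (hF : F.IsHomogeneous d)
    (h : FZ F) : (mazur σ {F}).Finite := by
  obtain ⟨B, hB⟩ := h
  exact fin_pts hF B.finite_toSet fun Y hY => by
    obtain ⟨t, ht, c, hc⟩ := hB Y hY
    exact ⟨t, ht, c, hc⟩

/-- products of forms -/
lemma mazur_prod {K : Type} [Field K] [NumberField K] {L : Type} [NontriviallyNormedField L]
    [CompleteSpace L] (σ : K →+* L) (hσ : DenseRange σ) {n : ℕ} :
    ∀ (N : ℕ) (G : Fin N → MvPolynomial (Fin (n + 1)) K) (d : Fin N → ℕ),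
      (∀ i, (G i).IsHomogeneous (d i)) → (∀ i, d i ≤ 3 ∨ FZ (G i)) →
      (mazur σ {∏ i, G i}).Finite := by
  intro N
  induction N with
  | zero =>
    intro G d _ _
    rw [Finset.univ_eq_empty, Finset.prod_empty]
    exact mazur_cub σ hσ (isHomogeneous_one (Fin (n + 1)) K) (by norm_num)
  | succ N ih =>
    intro G d hG hd
    rw [Fin.prod_univ_succ]
    have h1 : (∏ i : Fin N, G i.succ).IsHomogeneous (∑ i : Fin N, d i.succ) :=
      IsHomogeneous.prod _ _ _ fun i _ => hG i.succ
    refine mazur_mul (hG 0) h1 ?_ (ih (fun i => G i.succ) (fun i => d i.succ)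
      (fun i => hG i.succ) fun i => hd i.succ)
    rcases hd 0 with h | h
    · exact mazur_cub σ hσ (hG 0) h
    · exact h.fin (hG 0)

/-- forms in at most two variables -/
lemma fz_bin {K : Type} [Field K] [CharZero K] {n d : ℕ} (hn : n ≤ 1)
    {F : MvPolynomial (Fin (n + 1)) K} (hF : F.IsHomogeneous d) (hF0 : F ≠ 0) : FZ F := by
  classical
  have hom : ∀ (s : K) (v : Fin (n + 1) → K), eval (fun i => s * v i) F = s ^ d * eval v F :=
    fun s v => ev_hom (RingHom.id K) hF s v
  -- the restriction to the line of the points `(x, 1)`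
  set g : Polynomial K := aeval (fun i : Fin (n + 1) => if i = 0 then Polynomial.X else 1) F
    with hg
  have hge : ∀ x : K, g.eval x = eval (fun i : Fin (n + 1) => if i = 0 then x else 1) F := by
    intro x
    rw [hg, aev_poly]
    congr 2
    funext i
    by_cases h : i = 0
    · simp [h]
    · simp [h]
  have hcase : ∀ Y : Fin (n + 1) → K, ∀ t : K, t ≠ 0 → (∀ i, i ≠ 0 → Y i = t) →
      Y = t • (fun i : Fin (n + 1) => if i = 0 then Y 0 / t else 1) := by
    intro Y t ht hY
    funext i
    show Y i = t * (if i = 0 then Y 0 / t else 1)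
    by_cases h : i = 0
    · rw [if_pos h, h, mul_div_cancel₀ _ ht]
    · rw [if_neg h, mul_one, hY i h]
  -- all other coordinates are equal
  have hlast : ∀ Y : Fin (n + 1) → K, ∀ i, i ≠ 0 → Y i = Y (Fin.last n) := by
    intro Y i hi
    congr 1
    ext
    have h1 : (i : ℕ) ≠ 0 := fun h => hi (Fin.ext h)
    have h2 := i.isLt
    show (i : ℕ) = n
    omega
  by_cases hg0 : g = 0
  · exfalso
    apply hF0
    have h1 : F * X (Fin.last n) = 0 := by
      apply MvPolynomial.funext
      intro Y
      rw [map_zero, map_mul, eval_X]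
      by_cases ht : Y (Fin.last n) = 0
      · rw [ht, mul_zero]
      · rw [hcase Y _ ht (hlast Y)]
        have h2 := hom (Y (Fin.last n)) fun i => if i = 0 then Y 0 / Y (Fin.last n) else 1
        have h3 : (Y (Fin.last n) • fun i : Fin (n + 1) =>
          if i = 0 then Y 0 / Y (Fin.last n) else 1) = fun i => Y (Fin.last n) *
            (if i = 0 then Y 0 / Y (Fin.last n) else 1) := rfl
        rw [h3, h2, ← hge, hg0, Polynomial.eval_zero, mul_zero, zero_mul]
    exact (mul_eq_zero.1 h1).resolve_right (X_ne_zero _)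
  · refine ⟨insert (fun i : Fin (n + 1) => if i = 0 then 1 else 0)
      (g.roots.toFinset.image fun x => fun i : Fin (n + 1) => if i = 0 then x else 1), ?_⟩
    intro Y hY
    by_cases ht : Y (Fin.last n) = 0
    · refine ⟨_, Finset.mem_insert_self _ _, Y 0, ?_⟩
      funext i
      show Y i = Y 0 * (if i = 0 then 1 else 0)
      by_cases h : i = 0
      · rw [if_pos h, h, mul_one]
      · rw [if_neg h, mul_zero, hlast Y i h, ht]
    · refine ⟨fun i => if i = 0 then Y 0 / Y (Fin.last n) else 1,
        Finset.mem_insert_of_mem (Finset.mem_image.2 ⟨Y 0 / Y (Fin.last n), ?_, rfl⟩),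
        Y (Fin.last n), hcase Y _ ht (hlast Y)⟩
      rw [Multiset.mem_toFinset, Polynomial.mem_roots hg0]
      show g.eval _ = 0
      rw [hge]
      rw [hcase Y _ ht (hlast Y)] at hY
      have h2 := hom (Y (Fin.last n)) fun i => if i = 0 then Y 0 / Y (Fin.last n) else 1
      have h3 : eval (fun i : Fin (n + 1) => Y (Fin.last n) *
            (if i = 0 then Y 0 / Y (Fin.last n) else 1)) F = 0 := hY
      rw [h3] at h2
      exact (mul_eq_zero.1 h2.symm).resolve_left (pow_ne_zero _ ht)

end Pool.Agent.X95T.WQ
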