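import Mathlib

/-!
# Conic bundles of degree six: curves with contact of order five
-/

set_option autoImplicit false
set_option linter.unusedSectionVars false

open MvPolynomial Topology

namespace Pool.Agent.X95T.SX

section form

variable {k ι : Type} [Field k] [Fintype ι]

/-- the diagonal bilinear form -/
def B (a u w : ι → k) : k := ∑ i, a i * u i * w i

variable (a : ι → k)

lemma B_comm (u w : ι → k) : B a u w = B a w u :=
  Finset.sum_congr rfl fun i _ => by ring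

lemma B_lin (u w : ι → k) (s : k) (v : ι → k) :
    B a v (fun i => s * u i + w i) = s * B a v u + B a v w := by
  unfold B
  rw [Finset.mul_sum, ← Finset.sum_add_distrib]
  exact Finset.sum_congr rfl fun i _ => by ring

lemma B_lin' (u w : ι → k) (s : k) (v : ι → k) :
    B a (fun i => s * u i + w i) v = s * B a u v + B a w v := by
  rw [B_comm, B_lin, B_comm a v u, B_comm a v w]

lemma B_four (w0 w1 w2 w3 : ι → k) (t : k) :
    B a (fun i => w0 i + t * w1 i + t ^ 2 * w2 i + t ^ 3 * w3 i)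
      (fun i => w0 i + t * w1 i + t ^ 2 * w2 i + t ^ 3 * w3 i) =
    B a w0 w0 + t * (2 * B a w0 w1) + t ^ 2 * (B a w1 w1 + 2 * B a w0 w2) +
      t ^ 3 * (2 * B a w0 w3 + 2 * B a w1 w2) + t ^ 4 * (2 * B a w1 w3 + B a w2 w2) +
      t ^ 5 * (2 * B a w2 w3) + t ^ 6 * B a w3 w3 := by
  unfold B
  simp only [Finset.mul_sum, ← Finset.sum_add_distrib]
  exact Finset.sum_congr rfl fun i _ => by ring

lemma B_map {k' : Type} [Field k'] (τ : k →+* k') (u w : ι → k) :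
    τ (B a u w) = B (fun i => τ (a i)) (fun i => τ (u i)) (fun i => τ (w i)) := by
  unfold B
  rw [map_sum]
  exact Finset.sum_congr rfl fun i _ => by rw [map_mul, map_mul]

/-- the data -/
structure D (k ι : Type) where
  /-- the coefficients of the form -/
  a : ι → k
  /-- the Taylor coefficients -/
  F : ℕ → k
  /-- the point -/
  w0 : ι → k
  /-- the parameters -/
  h1 : ι → k
  /-- the parameters -/
  h2 : ι → k
  /-- the parameters -/
  h3 : ι → k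

namespace D

variable (d : D k ι)

/-- first coefficient -/
def w1 : ι → k := fun i => (d.F 1 / 2 - B d.a d.w0 d.h1) / d.F 0 * d.w0 i + d.h1 i

/-- second coefficient -/
def w2 : ι → k := fun i =>
  ((d.F 2 - B d.a d.w1 d.w1) / 2 - B d.a d.w0 d.h2) / d.F 0 * d.w0 i + d.h2 i

/-- the Gram determinant -/
def Dl : k := d.F 0 * B d.a d.w1 d.w1 - B d.a d.w0 d.w1 ^ 2

/-- auxiliary -/
def p : k := d.F 3 / 2 - B d.a d.w1 d.w2 - B d.a d.w0 d.h3

/-- auxiliary -/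
def q : k := (d.F 4 - B d.a d.w2 d.w2) / 2 - B d.a d.w1 d.h3

/-- third coefficient -/
def w3 : ι → k := fun i =>
  (d.p * B d.a d.w1 d.w1 - B d.a d.w0 d.w1 * d.q) / d.Dl * d.w0 i +
    ((d.F 0 * d.q - B d.a d.w0 d.w1 * d.p) / d.Dl * d.w1 i + d.h3 i)

/-- the fifth coefficient of the equation -/
def E5 : k := 2 * B d.a d.w2 d.w3 - d.F 5

/-- the sixth coefficient of the equation -/
def E6 : k := B d.a d.w3 d.w3 - d.F 6

/-- the remaining intersection -/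
def t : k := -d.E5 / d.E6

/-- the new point -/
def w : ι → k := fun i => d.w0 i + d.t * d.w1 i + d.t ^ 2 * d.w2 i + d.t ^ 3 * d.w3 i

variable {d}

lemma e1 [CharZero k] (h0 : B d.a d.w0 d.w0 = d.F 0) (hc : d.F 0 ≠ 0) :
    2 * B d.a d.w0 d.w1 = d.F 1 := by
  have : B d.a d.w0 d.w1 = (d.F 1 / 2 - B d.a d.w0 d.h1) / d.F 0 * B d.a d.w0 d.w0 +
      B d.a d.w0 d.h1 := B_lin _ _ _ _ _
  rw [this, h0]
  field_simp
  ring

lemma e2 [CharZero k] (h0 : B d.a d.w0 d.w0 = d.F 0) (hc : d.F 0 ≠ 0) :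
    B d.a d.w1 d.w1 + 2 * B d.a d.w0 d.w2 = d.F 2 := by
  have : B d.a d.w0 d.w2 = ((d.F 2 - B d.a d.w1 d.w1) / 2 - B d.a d.w0 d.h2) / d.F 0 *
      B d.a d.w0 d.w0 + B d.a d.w0 d.h2 := B_lin _ _ _ _ _
  rw [this, h0]
  field_simp
  ring

lemma b03 : B d.a d.w0 d.w3 = (d.p * B d.a d.w1 d.w1 - B d.a d.w0 d.w1 * d.q) / d.Dl *
    B d.a d.w0 d.w0 + ((d.F 0 * d.q - B d.a d.w0 d.w1 * d.p) / d.Dl * B d.a d.w0 d.w1 +
      B d.a d.w0 d.h3) := by
  have : B d.a d.w0 d.w3 = (d.p * B d.a d.w1 d.w1 - B d.a d.w0 d.w1 * d.q) / d.Dl *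
    B d.a d.w0 d.w0 + B d.a d.w0 (fun i => (d.F 0 * d.q - B d.a d.w0 d.w1 * d.p) / d.Dl * d.w1 i +
      d.h3 i) := B_lin _ _ _ _ _
  rw [this, B_lin]

lemma b13 : B d.a d.w1 d.w3 = (d.p * B d.a d.w1 d.w1 - B d.a d.w0 d.w1 * d.q) / d.Dl *
    B d.a d.w1 d.w0 + ((d.F 0 * d.q - B d.a d.w0 d.w1 * d.p) / d.Dl * B d.a d.w1 d.w1 +
      B d.a d.w1 d.h3) := by
  have : B d.a d.w1 d.w3 = (d.p * B d.a d.w1 d.w1 - B d.a d.w0 d.w1 * d.q) / d.Dl *
    B d.a d.w1 d.w0 + B d.a d.w1 (fun i => (d.F 0 * d.q - B d.a d.w0 d.w1 * d.p) / d.Dl * d.w1 i +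
      d.h3 i) := B_lin _ _ _ _ _
  rw [this, B_lin]

lemma e3 [CharZero k] (h0 : B d.a d.w0 d.w0 = d.F 0) (hD : d.Dl ≠ 0) :
    2 * B d.a d.w0 d.w3 + 2 * B d.a d.w1 d.w2 = d.F 3 := by
  have h1 : B d.a d.w0 d.w3 = d.p + B d.a d.w0 d.h3 := by
    rw [b03, h0]
    have hD' : d.F 0 * B d.a d.w1 d.w1 - B d.a d.w0 d.w1 ^ 2 = d.Dl := rfl
    field_simp
    linear_combination (d.p) * hD'
  rw [h1]
  unfold p
  ring

lemma e4 [CharZero k] (h0 : B d.a d.w0 d.w0 = d.F 0) (hD : d.Dl ≠ 0) :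
    2 * B d.a d.w1 d.w3 + B d.a d.w2 d.w2 = d.F 4 := by
  have h1 : B d.a d.w1 d.w3 = d.q + B d.a d.w1 d.h3 := by
    rw [b13, B_comm d.a d.w1 d.w0]
    have hD' : d.F 0 * B d.a d.w1 d.w1 - B d.a d.w0 d.w1 ^ 2 = d.Dl := rfl
    field_simp
    linear_combination (d.q) * hD'
  rw [h1]
  unfold q
  ring

/-- the new point is on the fibre -/
theorem on [CharZero k] (h0 : B d.a d.w0 d.w0 = d.F 0) (hc : d.F 0 ≠ 0) (hD : d.Dl ≠ 0)
    (h6 : d.E6 ≠ 0) : B d.a d.w d.w = d.F 0 + d.F 1 * d.t + d.F 2 * d.t ^ 2 + d.F 3 * d.t ^ 3 +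
      d.F 4 * d.t ^ 4 + d.F 5 * d.t ^ 5 + d.F 6 * d.t ^ 6 := by
  have h1 : d.t * d.E6 = -d.E5 := div_mul_cancel₀ _ h6
  have h2 : B d.a d.w d.w = _ := B_four d.a d.w0 d.w1 d.w2 d.w3 d.t
  rw [h2, e1 h0 hc, e2 h0 hc, e3 h0 hD, e4 h0 hD, h0]
  have h5 : 2 * B d.a d.w2 d.w3 = d.E5 + d.F 5 := by unfold E5; ring
  have h6' : B d.a d.w3 d.w3 = d.E6 + d.F 6 := by unfold E6; ring
  rw [h5, h6']
  linear_combination d.t ^ 5 * h1

/-- base change -/
def map {k' : Type} (τ : k → k') (d : D k ι) : D k' ι :=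
  ⟨fun i => τ (d.a i), fun j => τ (d.F j), fun i => τ (d.w0 i), fun i => τ (d.h1 i),
    fun i => τ (d.h2 i), fun i => τ (d.h3 i)⟩

section

variable {k' : Type} [Field k'] (τ : k →+* k') (d)

lemma map_w1 : (d.map τ).w1 = fun i => τ (d.w1 i) := by
  funext i
  show (τ (d.F 1) / 2 - B (fun i => τ (d.a i)) (fun i => τ (d.w0 i)) (fun i => τ (d.h1 i))) /
    τ (d.F 0) * τ (d.w0 i) + τ (d.h1 i) = τ ((d.F 1 / 2 - B d.a d.w0 d.h1) / d.F 0 * d.w0 i + d.h1 i)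
  rw [← B_map]
  simp only [map_add, map_mul, map_div₀, map_sub, map_ofNat]

lemma map_w2 : (d.map τ).w2 = fun i => τ (d.w2 i) := by
  funext i
  show ((τ (d.F 2) - B (fun i => τ (d.a i)) (d.map τ).w1 (d.map τ).w1) / 2 -
    B (fun i => τ (d.a i)) (fun i => τ (d.w0 i)) (fun i => τ (d.h2 i))) / τ (d.F 0) * τ (d.w0 i) +
      τ (d.h2 i) = τ (((d.F 2 - B d.a d.w1 d.w1) / 2 - B d.a d.w0 d.h2) / d.F 0 * d.w0 i + d.h2 i)
  rw [map_w1, ← B_map, ← B_map]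
  simp only [map_add, map_mul, map_div₀, map_sub, map_ofNat]

lemma map_Dl : (d.map τ).Dl = τ d.Dl := by
  show τ (d.F 0) * B (fun i => τ (d.a i)) (d.map τ).w1 (d.map τ).w1 -
    B (fun i => τ (d.a i)) (fun i => τ (d.w0 i)) (d.map τ).w1 ^ 2 =
      τ (d.F 0 * B d.a d.w1 d.w1 - B d.a d.w0 d.w1 ^ 2)
  rw [map_w1, ← B_map, ← B_map]
  simp only [map_mul, map_pow, map_sub]

lemma map_p : (d.map τ).p = τ d.p := by
  show τ (d.F 3) / 2 - B (fun i => τ (d.a i)) (d.map τ).w1 (d.map τ).w2 -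
    B (fun i => τ (d.a i)) (fun i => τ (d.w0 i)) (fun i => τ (d.h3 i)) =
      τ (d.F 3 / 2 - B d.a d.w1 d.w2 - B d.a d.w0 d.h3)
  rw [map_w1, map_w2, ← B_map, ← B_map]
  simp only [map_div₀, map_sub, map_ofNat]

lemma map_q : (d.map τ).q = τ d.q := by
  show (τ (d.F 4) - B (fun i => τ (d.a i)) (d.map τ).w2 (d.map τ).w2) / 2 -
    B (fun i => τ (d.a i)) (d.map τ).w1 (fun i => τ (d.h3 i)) =
      τ ((d.F 4 - B d.a d.w2 d.w2) / 2 - B d.a d.w1 d.h3)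
  rw [map_w1, map_w2, ← B_map, ← B_map]
  simp only [map_div₀, map_sub, map_ofNat]

lemma map_w3 : (d.map τ).w3 = fun i => τ (d.w3 i) := by
  funext i
  show ((d.map τ).p * B (fun i => τ (d.a i)) (d.map τ).w1 (d.map τ).w1 -
      B (fun i => τ (d.a i)) (fun i => τ (d.w0 i)) (d.map τ).w1 * (d.map τ).q) / (d.map τ).Dl *
        τ (d.w0 i) + ((τ (d.F 0) * (d.map τ).q -
          B (fun i => τ (d.a i)) (fun i => τ (d.w0 i)) (d.map τ).w1 * (d.map τ).p) / (d.map τ).Dl *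
            (d.map τ).w1 i + τ (d.h3 i)) = τ (d.w3 i)
  rw [map_p, map_q, map_Dl, map_w1, ← B_map, ← B_map]
  unfold w3
  simp only [map_add, map_mul, map_div₀, map_sub]

lemma map_E5 : (d.map τ).E5 = τ d.E5 := by
  show 2 * B (fun i => τ (d.a i)) (d.map τ).w2 (d.map τ).w3 - τ (d.F 5) =
    τ (2 * B d.a d.w2 d.w3 - d.F 5)
  rw [map_w2, map_w3, ← B_map]
  simp only [map_mul, map_sub, map_ofNat]

lemma map_E6 : (d.map τ).E6 = τ d.E6 := by
  show B (fun i => τ (d.a i)) (d.map τ).w3 (d.map τ).w3 - τ (d.F 6) =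
    τ (B d.a d.w3 d.w3 - d.F 6)
  rw [map_w3, ← B_map]
  simp only [map_sub]

lemma map_t : (d.map τ).t = τ d.t := by
  unfold t
  rw [map_E5, map_E6, map_div₀, map_neg]

lemma map_w : (d.map τ).w = fun i => τ (d.w i) := by
  funext i
  unfold w
  rw [map_t, map_w1, map_w2, map_w3]
  simp only [map_add, map_mul, map_pow]
  rfl

end

end D

end form

/-- classes of functions closed under the field operations -/
structure Reg {X L : Type} [Field L] (x0 : X) (R : (X → L) → Prop) : Prop where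
  const : ∀ c, R fun _ => c
  add : ∀ f g, R f → R g → R fun x => f x + g x
  mul : ∀ f g, R f → R g → R fun x => f x * g x
  div : ∀ f g, R f → R g → g x0 ≠ 0 → R fun x => f x / g x

section reg

variable {X L ι : Type} [Field L] [CharZero L] [Fintype ι] {x0 : X} {R : (X → L) → Prop}
  (hR : Reg x0 R)

include hR

lemma Reg.neg (f : X → L) (hf : R f) : R fun x => -f x := by
  have := hR.mul _ _ (hR.const (-1)) hf
  simpa only [neg_one_mul] using this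

lemma Reg.sub (f g : X → L) (hf : R f) (hg : R g) : R fun x => f x - g x := by
  have := hR.add _ _ hf (hR.neg _ hg)
  simpa only [sub_eq_add_neg] using this

lemma Reg.sum (f : ι → X → L) (s : Finset ι) (hf : ∀ i, R (f i)) : R fun x => ∑ i ∈ s, f i x := by
  classical
  induction s using Finset.induction_on with
  | empty => simpa only [Finset.sum_empty] using hR.const 0
  | insert i s hi ih =>
    have := hR.add _ _ (hf i) ih
    simpa only [Finset.sum_insert hi] using this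

lemma Reg.pow (f : X → L) (n : ℕ) (hf : R f) : R fun x => f x ^ n := by
  induction n with
  | zero => simpa only [pow_zero] using hR.const 1
  | succ n ih =>
    have := hR.mul _ _ ih hf
    simpa only [pow_succ] using this

lemma Reg.B (a u w : X → ι → L) (ha : ∀ i, R fun x => a x i) (hu : ∀ i, R fun x => u x i)
    (hw : ∀ i, R fun x => w x i) : R fun x => B (a x) (u x) (w x) :=
  hR.sum _ _ fun i => hR.mul _ _ (hR.mul _ _ (ha i) (hu i)) (hw i)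

/-- regular families of data -/
structure RD (R : (X → L) → Prop) (d : X → D L ι) : Prop where
  a : ∀ i, R fun x => (d x).a i
  F : ∀ j, R fun x => (d x).F j
  w0 : ∀ i, R fun x => (d x).w0 i
  h1 : ∀ i, R fun x => (d x).h1 i
  h2 : ∀ i, R fun x => (d x).h2 i
  h3 : ∀ i, R fun x => (d x).h3 i

variable {d : X → D L ι} (hd : RD R d) (hc : (d x0).F 0 ≠ 0)

include hd hc

lemma RD.w1 (i : ι) : R fun x => (d x).w1 i :=
  hR.add _ _ (hR.mul _ _ (hR.div _ _ (hR.sub _ _ (hR.div _ _ (hd.F 1) (hR.const 2) two_ne_zero)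
    (hR.B _ _ _ hd.a hd.w0 hd.h1)) (hd.F 0) hc) (hd.w0 i)) (hd.h1 i)

lemma RD.w2 (i : ι) : R fun x => (d x).w2 i :=
  hR.add _ _ (hR.mul _ _ (hR.div _ _ (hR.sub _ _ (hR.div _ _ (hR.sub _ _ (hd.F 2)
    (hR.B _ _ _ hd.a (hd.w1 hR hc) (hd.w1 hR hc))) (hR.const 2) two_ne_zero)
    (hR.B _ _ _ hd.a hd.w0 hd.h2)) (hd.F 0) hc) (hd.w0 i)) (hd.h2 i)

lemma RD.Dl : R fun x => (d x).Dl :=
  hR.sub _ _ (hR.mul _ _ (hd.F 0) (hR.B _ _ _ hd.a (hd.w1 hR hc) (hd.w1 hR hc)))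
    (hR.pow _ 2 (hR.B _ _ _ hd.a hd.w0 (hd.w1 hR hc)))

lemma RD.p : R fun x => (d x).p :=
  hR.sub _ _ (hR.sub _ _ (hR.div _ _ (hd.F 3) (hR.const 2) two_ne_zero)
    (hR.B _ _ _ hd.a (hd.w1 hR hc) (hd.w2 hR hc))) (hR.B _ _ _ hd.a hd.w0 hd.h3)

lemma RD.q : R fun x => (d x).q :=
  hR.sub _ _ (hR.div _ _ (hR.sub _ _ (hd.F 4) (hR.B _ _ _ hd.a (hd.w2 hR hc) (hd.w2 hR hc)))
    (hR.const 2) two_ne_zero) (hR.B _ _ _ hd.a (hd.w1 hR hc) hd.h3)

variable (hD : (d x0).Dl ≠ 0)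

include hD

lemma RD.w3 (i : ι) : R fun x => (d x).w3 i :=
  hR.add _ _ (hR.mul _ _ (hR.div _ _ (hR.sub _ _ (hR.mul _ _ (hd.p hR hc)
    (hR.B _ _ _ hd.a (hd.w1 hR hc) (hd.w1 hR hc))) (hR.mul _ _
      (hR.B _ _ _ hd.a hd.w0 (hd.w1 hR hc)) (hd.q hR hc))) (hd.Dl hR hc) hD) (hd.w0 i))
    (hR.add _ _ (hR.mul _ _ (hR.div _ _ (hR.sub _ _ (hR.mul _ _ (hd.F 0) (hd.q hR hc))
      (hR.mul _ _ (hR.B _ _ _ hd.a hd.w0 (hd.w1 hR hc)) (hd.p hR hc))) (hd.Dl hR hc) hD)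
        (hd.w1 hR hc i)) (hd.h3 i))

lemma RD.E5 : R fun x => (d x).E5 :=
  hR.sub _ _ (hR.mul _ _ (hR.const 2) (hR.B _ _ _ hd.a (hd.w2 hR hc) (hd.w3 hR hc hD))) (hd.F 5)

lemma RD.E6 : R fun x => (d x).E6 :=
  hR.sub _ _ (hR.B _ _ _ hd.a (hd.w3 hR hc hD) (hd.w3 hR hc hD)) (hd.F 6)

variable (h6 : (d x0).E6 ≠ 0)

include h6

lemma RD.t : R fun x => (d x).t :=
  hR.div _ _ (hR.neg _ (hd.E5 hR hc hD)) (hd.E6 hR hc hD) h6

lemma RD.w (i : ι) : R fun x => (d x).w i :=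
  hR.add _ _ (hR.add _ _ (hR.add _ _ (hd.w0 i) (hR.mul _ _ (hd.t hR hc hD h6) (hd.w1 hR hc i)))
    (hR.mul _ _ (hR.pow _ 2 (hd.t hR hc hD h6)) (hd.w2 hR hc i)))
    (hR.mul _ _ (hR.pow _ 3 (hd.t hR hc hD h6)) (hd.w3 hR hc hD i))

end reg

end Pool.Agent.X95T.SX
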