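import Pool.Agent.X95T.NA1

/-!
# Conic bundles of degree six: the moves
-/

set_option autoImplicit false
set_option linter.unusedSectionVars false

open MvPolynomial Topology

namespace Pool.Agent.X95T.SX

section tay

variable {K κ : Type} [Field K]

/-- the generic line -/
noncomputable def G (f : MvPolynomial κ K) : Polynomial (MvPolynomial (κ ⊕ κ) K) :=
  aeval (fun j => Polynomial.C (X (Sum.inl j)) + Polynomial.C (X (Sum.inr j)) * Polynomial.X) f

/-- the Taylor coefficients -/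
noncomputable def Fc (f : MvPolynomial κ K) (i : ℕ) : MvPolynomial (κ ⊕ κ) K := (G f).coeff i

lemma G_deg (f : MvPolynomial κ K) : (G f).natDegree ≤ f.totalDegree := by
  classical
  rw [G, aeval_def, eval₂_eq]
  refine Polynomial.natDegree_sum_le_of_forall_le _ _ fun d hd => ?_
  have h0 : (algebraMap K (Polynomial (MvPolynomial (κ ⊕ κ) K)) (coeff d f)) =
      Polynomial.C (C (coeff d f)) := rfl
  rw [h0]
  refine (Polynomial.natDegree_C_mul_le _ _).trans ?_
  refine (Polynomial.natDegree_prod_le _ _).trans ?_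
  have h1 : ∑ i ∈ d.support, d i ≤ f.totalDegree := le_totalDegree hd
  refine le_trans (Finset.sum_le_sum fun i _ => ?_) h1
  refine (Polynomial.natDegree_pow_le).trans ?_
  have h2 : (Polynomial.C (X (Sum.inl i)) + Polynomial.C (X (Sum.inr i)) * Polynomial.X :
      Polynomial (MvPolynomial (κ ⊕ κ) K)).natDegree ≤ 1 := by
    compute_degree
  calc d i * _ ≤ d i * 1 := Nat.mul_le_mul_left _ h2
    _ = d i := mul_one _

variable {k : Type} [Field k] (τ : K →+* k) (z v : κ → k)

lemma G_map (f : MvPolynomial κ K) (t : k) :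
    ((G f).map (eval₂Hom τ (Sum.elim z v))).eval t = eval₂ τ (fun j => z j + t * v j) f := by
  unfold G
  induction f using MvPolynomial.induction_on with
  | C c =>
    rw [aeval_C, eval₂_C]
    have h0 : (algebraMap K (Polynomial (MvPolynomial (κ ⊕ κ) K)) c) = Polynomial.C (C c) := rfl
    rw [h0]
    simp
  | add p q hp hq => rw [map_add, Polynomial.map_add, Polynomial.eval_add, hp, hq, eval₂_add]
  | mul_X p j hp =>
    rw [map_mul, Polynomial.map_mul, Polynomial.eval_mul, hp, eval₂_mul, aeval_X, eval₂_X]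
    simp
    ring_nf
    simp

/-- the value of a Taylor coefficient -/
noncomputable def Fv (f : MvPolynomial κ K) (j : ℕ) : k := eval₂ τ (Sum.elim z v) (Fc f j)

/-- the Taylor expansion -/
lemma tay {f : MvPolynomial κ K} (hf : f.totalDegree ≤ 6) (t : k) :
    eval₂ τ (fun j => z j + t * v j) f = Fv τ z v f 0 + Fv τ z v f 1 * t + Fv τ z v f 2 * t ^ 2 +
      Fv τ z v f 3 * t ^ 3 + Fv τ z v f 4 * t ^ 4 + Fv τ z v f 5 * t ^ 5 + Fv τ z v f 6 * t ^ 6 := by
  rw [← G_map]
  have hd : ((G f).map (eval₂Hom τ (Sum.elim z v))).natDegree < 7 := by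
    refine lt_of_le_of_lt Polynomial.natDegree_map_le ?_
    exact lt_of_le_of_lt (G_deg f) (by omega)
  rw [Polynomial.eval_eq_sum_range' hd]
  simp only [Finset.sum_range_succ, Finset.sum_range_zero, Polynomial.coeff_map, pow_zero, mul_one,
    pow_one, zero_add]
  rfl

lemma Fv_zero {f : MvPolynomial κ K} (hf : f.totalDegree ≤ 6) :
    Fv τ z v f 0 = eval₂ τ z f := by
  have h1 := tay τ z v hf 0
  simp only [zero_mul, add_zero] at h1
  rw [h1]
  ring

lemma Fv_dir (f : MvPolynomial κ K) {j : ℕ} (hj : j ≠ 0) : Fv τ z 0 f j = 0 := by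
  have h1 : (G f).map (eval₂Hom τ (Sum.elim z 0)) = Polynomial.C (eval₂ τ z f) := by
    unfold G
    induction f using MvPolynomial.induction_on with
    | C c =>
      rw [aeval_C, eval₂_C]
      have h0 : (algebraMap K (Polynomial (MvPolynomial (κ ⊕ κ) K)) c) = Polynomial.C (C c) := rfl
      rw [h0]
      simp
    | add p q hp hq => rw [map_add, Polynomial.map_add, hp, hq, eval₂_add, map_add]
    | mul_X p j hp =>
      rw [map_mul, Polynomial.map_mul, hp, eval₂_mul, aeval_X, eval₂_X]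
      simp
  have h2 := congrArg (fun P => Polynomial.coeff P j) h1
  simp only [Polynomial.coeff_map, Polynomial.coeff_C_ne_zero hj] at h2
  exact h2

lemma Fv_map {k' : Type} [Field k'] (ρ : k →+* k') (f : MvPolynomial κ K) (j : ℕ) :
    Fv (ρ.comp τ) (fun i => ρ (z i)) (fun i => ρ (v i)) f j = ρ (Fv τ z v f j) := by
  unfold Fv
  rw [← RingHom.coe_coe ρ, eval₂_comp_left]
  congr 1
  funext s
  rcases s with s | s <;> rfl

lemma tay' {f : MvPolynomial κ K}
    (hf : ((G f).map (eval₂Hom τ (Sum.elim z v))).natDegree ≤ 6) (t : k) :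
    eval₂ τ (fun j => z j + t * v j) f = Fv τ z v f 0 + Fv τ z v f 1 * t + Fv τ z v f 2 * t ^ 2 +
      Fv τ z v f 3 * t ^ 3 + Fv τ z v f 4 * t ^ 4 + Fv τ z v f 5 * t ^ 5 + Fv τ z v f 6 * t ^ 6 := by
  rw [← G_map]
  have hd : ((G f).map (eval₂Hom τ (Sum.elim z v))).natDegree < 7 := by omega
  rw [Polynomial.eval_eq_sum_range' hd]
  simp only [Finset.sum_range_succ, Finset.sum_range_zero, Polynomial.coeff_map, pow_zero, mul_one,
    pow_one, zero_add]
  rfl

lemma Fv_zero' (f : MvPolynomial κ K) : Fv τ z v f 0 = eval₂ τ z f := by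
  have h1 := G_map τ z v f 0
  simp only [zero_mul, add_zero] at h1
  rw [← h1, ← Polynomial.coeff_zero_eq_eval_zero, Polynomial.coeff_map]
  rfl

lemma G_dir [DecidableEq κ] (j : κ) (s : k) (f : MvPolynomial κ K) :
    ((G f).map (eval₂Hom τ (Sum.elim z (Pi.single j s)))).natDegree ≤ f.degreeOf j := by
  rw [G, aeval_def, eval₂_eq, Polynomial.map_sum]
  refine Polynomial.natDegree_sum_le_of_forall_le _ _ fun d hd => ?_
  have h0 : (algebraMap K (Polynomial (MvPolynomial (κ ⊕ κ) K)) (coeff d f)) =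
      Polynomial.C (C (coeff d f)) := rfl
  rw [h0, Polynomial.map_mul, Polynomial.map_C]
  refine (Polynomial.natDegree_C_mul_le _ _).trans ?_
  rw [Polynomial.map_prod]
  refine (Polynomial.natDegree_prod_le _ _).trans ?_
  have h1 : d j ≤ f.degreeOf j := degreeOf_le_iff.1 le_rfl d hd
  refine le_trans ?_ h1
  have h2 : ∀ i ∈ d.support, (Polynomial.map (eval₂Hom τ (Sum.elim z (Pi.single j s)))
      ((Polynomial.C (X (Sum.inl i)) + Polynomial.C (X (Sum.inr i)) * Polynomial.X :
        Polynomial (MvPolynomial (κ ⊕ κ) K)) ^ d i)).natDegree ≤ if i = j then d j else 0 := by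
    intro i _
    rw [Polynomial.map_pow, Polynomial.map_add, Polynomial.map_mul, Polynomial.map_C,
      Polynomial.map_C, Polynomial.map_X]
    have h3 : eval₂Hom τ (Sum.elim z (Pi.single j s)) (X (Sum.inr i) :
        MvPolynomial (κ ⊕ κ) K) = (Pi.single j s : κ → k) i := by
      rw [coe_eval₂Hom, eval₂_X]
      rfl
    rw [h3]
    by_cases hij : i = j
    · subst hij
      rw [if_pos rfl]
      refine Polynomial.natDegree_pow_le.trans ?_
      have h4 : (Polynomial.C (eval₂Hom τ (Sum.elim z (Pi.single i s)) (X (Sum.inl i) :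
          MvPolynomial (κ ⊕ κ) K)) + Polynomial.C ((Pi.single i s : κ → k) i) *
            Polynomial.X).natDegree ≤ 1 := by
        compute_degree
      calc d i * _ ≤ d i * 1 := Nat.mul_le_mul_left _ h4
        _ = d i := mul_one _
    · rw [if_neg hij, Pi.single_eq_of_ne hij, map_zero, zero_mul, add_zero, ← Polynomial.C_pow,
        Polynomial.natDegree_C]
  refine (Finset.sum_le_sum h2).trans ?_
  rw [Finset.sum_ite_eq']
  split_ifs
  · exact le_rfl
  · exact Nat.zero_le _

end tay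

section mv

variable {K ι κ : Type} [Field K] [CharZero K] [Fintype ι] (a : ι → K) (f : MvPolynomial κ K)

/-- the variety -/
def On {k : Type} [Field k] (τ : K →+* k) (x : ι ⊕ κ → k) : Prop :=
  B (fun i => τ (a i)) (fun i => x (Sum.inl i)) (fun i => x (Sum.inl i)) =
    eval₂ τ (fun j => x (Sum.inr j)) f

/-- the parameters of a move -/
abbrev Pr (ι κ : Type) : Type := κ ⊕ (ι ⊕ (ι ⊕ ι))

/-- the data of a move -/
noncomputable def dt {k : Type} [Field k] (τ : K →+* k) (x : ι ⊕ κ → k) (u : Pr ι κ → k) : D k ι :=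
  ⟨fun i => τ (a i), fun j => Fv τ (fun j => x (Sum.inr j)) (fun j => u (Sum.inl j)) f j,
    fun i => x (Sum.inl i), fun i => u (Sum.inr (Sum.inl i)),
    fun i => u (Sum.inr (Sum.inr (Sum.inl i))), fun i => u (Sum.inr (Sum.inr (Sum.inr i)))⟩

/-- the move -/
noncomputable def mv {k : Type} [Field k] (τ : K →+* k) (x : ι ⊕ κ → k) (u : Pr ι κ → k) :
    ι ⊕ κ → k :=
  Sum.elim (dt a f τ x u).w fun j => x (Sum.inr j) + (dt a f τ x u).t * u (Sum.inl j)

/-- the move is defined -/
def ok {k : Type} [Field k] (τ : K →+* k) (x : ι ⊕ κ → k) (u : Pr ι κ → k) : Prop :=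
  (dt a f τ x u).F 0 ≠ 0 ∧ (dt a f τ x u).Dl ≠ 0 ∧ (dt a f τ x u).E6 ≠ 0

variable {a f}

lemma mv_on {k : Type} [Field k] [CharZero k] (hf : f.totalDegree ≤ 6) (τ : K →+* k)
    {x : ι ⊕ κ → k} {u : Pr ι κ → k} (hx : On a f τ x) (hu : ok a f τ x u) :
    On a f τ (mv a f τ x u) := by
  have h0 : B (dt a f τ x u).a (dt a f τ x u).w0 (dt a f τ x u).w0 = (dt a f τ x u).F 0 :=
    hx.trans (Fv_zero τ _ _ hf).symm
  have h1 := D.on h0 hu.1 hu.2.1 hu.2.2
  have h2 := tay τ (fun j => x (Sum.inr j)) (fun j => u (Sum.inl j)) hf (dt a f τ x u).t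
  exact h1.trans h2.symm

lemma dt_map {k k' : Type} [Field k] [Field k'] (τ : K →+* k) (ρ : k →+* k') (x : ι ⊕ κ → k)
    (u : Pr ι κ → k) : dt a f (ρ.comp τ) (fun s => ρ (x s)) (fun s => ρ (u s)) =
      (dt a f τ x u).map ρ := by
  unfold dt D.map
  congr 1
  funext j
  exact Fv_map τ _ _ ρ f j

lemma mv_map {k k' : Type} [Field k] [Field k'] (τ : K →+* k) (ρ : k →+* k') (x : ι ⊕ κ → k)
    (u : Pr ι κ → k) : mv a f (ρ.comp τ) (fun s => ρ (x s)) (fun s => ρ (u s)) =
      fun s => ρ (mv a f τ x u s) := by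
  unfold mv
  rw [dt_map, D.map_w, D.map_t]
  funext s
  rcases s with s | s
  · rfl
  · show ρ (x (Sum.inr s)) + ρ _ * ρ (u (Sum.inl s)) = ρ (x (Sum.inr s) + _ * u (Sum.inl s))
    rw [map_add, map_mul]

lemma ok_map {k k' : Type} [Field k] [Field k'] (τ : K →+* k) (ρ : k →+* k') (x : ι ⊕ κ → k)
    (u : Pr ι κ → k) : ok a f (ρ.comp τ) (fun s => ρ (x s)) (fun s => ρ (u s)) ↔
      ok a f τ x u := by
  unfold ok
  rw [dt_map, D.map_Dl, D.map_E6]
  show (ρ _ ≠ 0 ∧ ρ _ ≠ 0 ∧ ρ _ ≠ 0) ↔ _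
  rw [map_ne_zero, map_ne_zero, map_ne_zero]

/-- reflection in the vector `g` -/
noncomputable def rf (a : ι → K) {k : Type} [Field k] (τ : K →+* k) (x : ι ⊕ κ → k) (g : ι → k) :
    ι ⊕ κ → k :=
  Sum.elim (fun i => -(2 * B (fun i => τ (a i)) (fun i => x (Sum.inl i)) g /
    B (fun i => τ (a i)) g g) * g i + x (Sum.inl i)) fun j => x (Sum.inr j)

lemma rf_on {k : Type} [Field k] (τ : K →+* k) {x : ι ⊕ κ → k} {g : ι → k} (hx : On a f τ x)
    (hg : B (fun i => τ (a i)) g g ≠ 0) : On a f τ (rf a τ x g) := by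
  have h1 : B (fun i => τ (a i)) (fun i => rf a τ x g (Sum.inl i))
      (fun i => rf a τ x g (Sum.inl i)) = B (fun i => τ (a i)) (fun i => x (Sum.inl i))
        (fun i => x (Sum.inl i)) := by
    show B (fun i => τ (a i)) (fun i => _ * g i + x (Sum.inl i))
      (fun i => _ * g i + x (Sum.inl i)) = _
    rw [B_lin, B_lin', B_lin', B_comm _ g fun i => x (Sum.inl i)]
    field_simp
    ring
  exact h1.trans hx

lemma rf_map {k k' : Type} [Field k] [Field k'] (τ : K →+* k) (ρ : k →+* k') (x : ι ⊕ κ → k)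
    (g : ι → k) : rf a (ρ.comp τ) (fun s => ρ (x s)) (fun s => ρ (g s)) =
      fun s => ρ (rf a τ x g s) := by
  funext s
  rcases s with s | s
  · show -(2 * B (fun i => ρ (τ (a i))) (fun i => ρ (x (Sum.inl i))) (fun s => ρ (g s)) /
      B (fun i => ρ (τ (a i))) (fun s => ρ (g s)) (fun s => ρ (g s))) * ρ (g s) +
        ρ (x (Sum.inl s)) = ρ (-(2 * B (fun i => τ (a i)) (fun i => x (Sum.inl i)) g /
          B (fun i => τ (a i)) g g) * g s + x (Sum.inl s))
    rw [map_add, map_mul, map_neg, map_div₀, map_mul, map_ofNat, B_map, B_map]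
  · rfl

end mv

end Pool.Agent.X95T.SX
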