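import Pool.Agent.X95T.NA2

/-!
# Conic bundles of degree six: the closure is stable under moves and reflections
-/

set_option autoImplicit false
set_option linter.unusedSectionVars false

open MvPolynomial Topology

namespace Pool.Agent.X95T.SX

section cont

variable {L : Type} [NontriviallyNormedField L] {X : Type} [TopologicalSpace X]

lemma cont2 {K ι : Type} [Field K] (σ : K →+* L) (g : MvPolynomial ι K) :
    Continuous fun u : ι → L => eval₂ σ u g := by
  have h1 := MvPolynomial.continuous_eval (map σ g)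
  simpa only [eval_map] using h1

lemma reg_cont (x0 : X) : Reg x0 fun f : X → L => ContinuousAt f x0 :=
  ⟨fun _ => continuousAt_const, fun _ _ hf hg => hf.add hg, fun _ _ hf hg => hf.mul hg,
    fun _ _ hf hg h => hf.div₀ hg h⟩

end cont

section one

variable {K ι κ : Type} [Field K] [Fintype ι] (a : ι → K) (f : MvPolynomial κ K)
  {L : Type} [NontriviallyNormedField L] [CharZero L] (τ : K →+* L)

lemma rd_cont (p0 : (ι ⊕ κ → L) × (Pr ι κ → L)) :
    RD (fun g : (ι ⊕ κ → L) × (Pr ι κ → L) → L => ContinuousAt g p0)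
      (fun p => dt a f τ p.1 p.2) := by
  refine ⟨fun i => continuousAt_const, fun j => ?_, fun i => ?_, fun i => ?_, fun i => ?_,
    fun i => ?_⟩
  · have h1 : Continuous fun p : (ι ⊕ κ → L) × (Pr ι κ → L) =>
        (Sum.elim (fun j => p.1 (Sum.inr j)) fun j => p.2 (Sum.inl j) : κ ⊕ κ → L) := by
      refine continuous_pi fun s => ?_
      rcases s with s | s
      · exact (continuous_apply (Sum.inr s)).comp continuous_fst
      · exact (continuous_apply (Sum.inl s)).comp continuous_snd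
    exact ((cont2 τ (Fc f j)).comp h1).continuousAt
  · exact ((continuous_apply (Sum.inl i)).comp continuous_fst).continuousAt
  · exact ((continuous_apply (Sum.inr (Sum.inl i))).comp continuous_snd).continuousAt
  · exact ((continuous_apply (Sum.inr (Sum.inr (Sum.inl i)))).comp continuous_snd).continuousAt
  · exact ((continuous_apply (Sum.inr (Sum.inr (Sum.inr i)))).comp continuous_snd).continuousAt

variable {a f τ}

lemma mv_cont {p0 : (ι ⊕ κ → L) × (Pr ι κ → L)} (h : ok a f τ p0.1 p0.2) :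
    ContinuousAt (fun p : (ι ⊕ κ → L) × (Pr ι κ → L) => mv a f τ p.1 p.2) p0 := by
  have hd := rd_cont a f τ p0
  refine continuousAt_pi.2 fun s => ?_
  rcases s with s | s
  · exact hd.w (reg_cont p0) h.1 h.2.1 h.2.2 s
  · have h1 := hd.t (reg_cont p0) h.1 h.2.1 h.2.2
    exact (((continuous_apply (Sum.inr s)).comp continuous_fst).continuousAt).add
      (h1.mul ((continuous_apply (Sum.inl s)).comp continuous_snd).continuousAt)

lemma ok_nhds {p0 : (ι ⊕ κ → L) × (Pr ι κ → L)} (h : ok a f τ p0.1 p0.2) :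
    {p : (ι ⊕ κ → L) × (Pr ι κ → L) | ok a f τ p.1 p.2} ∈ 𝓝 p0 := by
  have hd := rd_cont a f τ p0
  have h1 := (hd.F 0).eventually_ne h.1
  have h2 := (hd.Dl (reg_cont p0) h.1).eventually_ne h.2.1
  have h3 := (hd.E6 (reg_cont p0) h.1 h.2.1).eventually_ne h.2.2
  filter_upwards [h1, h2, h3] with p h1 h2 h3 using ⟨h1, h2, h3⟩

lemma rf_cont {p0 : (ι ⊕ κ → L) × (ι → L)} (h : B (fun i => τ (a i)) p0.2 p0.2 ≠ 0) :
    ContinuousAt (fun p : (ι ⊕ κ → L) × (ι → L) => rf a τ p.1 p.2) p0 := by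
  have hR := reg_cont (L := L) p0
  have hx : ∀ s, ContinuousAt (fun p : (ι ⊕ κ → L) × (ι → L) => p.1 s) p0 := fun s =>
    ((continuous_apply s).comp continuous_fst).continuousAt
  have hg : ∀ s, ContinuousAt (fun p : (ι ⊕ κ → L) × (ι → L) => p.2 s) p0 := fun s =>
    ((continuous_apply s).comp continuous_snd).continuousAt
  refine continuousAt_pi.2 fun s => ?_
  rcases s with s | s
  · exact hR.add _ _ (hR.mul _ _ (hR.neg _ (hR.div _ _ (hR.mul _ _ (hR.const 2)
      (hR.B _ _ _ (fun i => hR.const _) (fun i => hx (Sum.inl i)) hg))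
      (hR.B _ _ _ (fun i => hR.const _) hg hg) h)) (hg s)) (hx (Sum.inl s))
  · exact hx (Sum.inr s)

lemma rf_nhds {p0 : (ι ⊕ κ → L) × (ι → L)} (h : B (fun i => τ (a i)) p0.2 p0.2 ≠ 0) :
    {p : (ι ⊕ κ → L) × (ι → L) | B (fun i => τ (a i)) p.2 p.2 ≠ 0} ∈ 𝓝 p0 := by
  have hR := reg_cont (L := L) p0
  have hg : ∀ s, ContinuousAt (fun p : (ι ⊕ κ → L) × (ι → L) => p.2 s) p0 := fun s =>
    ((continuous_apply s).comp continuous_snd).continuousAt
  have h1 : ContinuousAt (fun p : (ι ⊕ κ → L) × (ι → L) => B (fun i => τ (a i)) p.2 p.2) p0 :=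
    hR.B _ _ _ (fun i => hR.const _) hg hg
  exact h1.eventually_ne h

end one

section closure

variable {K ι κ S : Type} [Field K] [CharZero K] [Fintype ι] (a : ι → K) (f : MvPolynomial κ K)
  {L : S → Type} [∀ v, NontriviallyNormedField (L v)] (σ : ∀ v, K →+* L v)

/-- the rational points -/
def KP : Set (∀ v, ι ⊕ κ → L v) :=
  {x | ∃ y : ι ⊕ κ → K, On a f (RingHom.id K) y ∧ x = fun v s => σ v (y s)}

variable {a f σ}

lemma dens_vec (hσ : DenseRange fun (x : K) (v : S) => σ v x) (θ : Type) :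
    DenseRange fun (u : θ → K) (v : S) (s : θ) => σ v (u s) := by
  have h1 : DenseRange (Pi.map fun (_ : θ) (x : K) (v : S) => σ v x) :=
    DenseRange.piMap fun _ => hσ
  have h2 : Continuous fun (m : θ → ∀ v, L v) (v : S) (s : θ) => m s v :=
    continuous_pi fun v => continuous_pi fun s => (continuous_apply v).comp (continuous_apply s)
  have h3 : Function.Surjective fun (m : θ → ∀ v, L v) (v : S) (s : θ) => m s v :=
    fun m => ⟨fun s v => m v s, rfl⟩
  exact h3.denseRange.comp h1 h2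

/-- the closure is stable under rational operations -/
lemma op (hσ : DenseRange fun (x : K) (v : S) => σ v x) {θ : Type}
    (RL : ∀ v, (ι ⊕ κ → L v) → (θ → L v) → ι ⊕ κ → L v)
    (RK : (ι ⊕ κ → K) → (θ → K) → ι ⊕ κ → K) (v0 : S)
    (good : Set ((ι ⊕ κ → L v0) × (θ → L v0))) {x : ∀ v, ι ⊕ κ → L v} {u : ∀ v, θ → L v}
    (hx : x ∈ closure (KP a f σ))
    (hcont : ∀ v, ContinuousAt (fun p : (ι ⊕ κ → L v) × (θ → L v) => RL v p.1 p.2) (x v, u v))
    (hgood : good ∈ 𝓝 (x v0, u v0))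
    (h : ∀ (y : ι ⊕ κ → K) (w : θ → K), On a f (RingHom.id K) y →
      ((fun s => σ v0 (y s)), fun s => σ v0 (w s)) ∈ good → On a f (RingHom.id K) (RK y w) ∧
        ∀ v, RL v (fun s => σ v (y s)) (fun s => σ v (w s)) = fun s => σ v (RK y w s)) :
    (fun v => RL v (x v) (u v)) ∈ closure (KP a f σ) := by
  set UP : Set (∀ v, θ → L v) := Set.range fun (u : θ → K) (v : S) (s : θ) => σ v (u s) with hUP
  have hmem : (x, u) ∈ closure (KP a f σ ×ˢ UP) := by
    rw [closure_prod_eq]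
    exact ⟨hx, dens_vec hσ θ u⟩
  have hne := mem_closure_iff_nhdsWithin_neBot.1 hmem
  have hT : Filter.Tendsto (fun (p : (∀ v, ι ⊕ κ → L v) × (∀ v, θ → L v)) v =>
      RL v (p.1 v) (p.2 v)) (𝓝[KP a f σ ×ˢ UP] (x, u)) (𝓝 fun v => RL v (x v) (u v)) := by
    refine tendsto_pi_nhds.2 fun v => ?_
    have h1 : Continuous fun p : (∀ v, ι ⊕ κ → L v) × (∀ v, θ → L v) => (p.1 v, p.2 v) :=
      ((continuous_apply v).comp continuous_fst).prodMk ((continuous_apply v).comp continuous_snd)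
    have h2 : Filter.Tendsto (fun p : (∀ v, ι ⊕ κ → L v) × (∀ v, θ → L v) => (p.1 v, p.2 v))
        (𝓝 (x, u)) (𝓝 (x v, u v)) := h1.tendsto (x, u)
    exact ((hcont v).tendsto.comp h2).mono_left nhdsWithin_le_nhds
  refine mem_closure_of_tendsto hT ?_
  have h1 : Continuous fun p : (∀ v, ι ⊕ κ → L v) × (∀ v, θ → L v) => (p.1 v0, p.2 v0) :=
    ((continuous_apply v0).comp continuous_fst).prodMk ((continuous_apply v0).comp continuous_snd)
  have h2 : ∀ᶠ p in 𝓝[KP a f σ ×ˢ UP] (x, u), (p.1 v0, p.2 v0) ∈ good :=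
    nhdsWithin_le_nhds (h1.tendsto (x, u) hgood)
  filter_upwards [h2, self_mem_nhdsWithin] with p hp hp2
  obtain ⟨⟨y, hy, hy2⟩, ⟨w, hw⟩⟩ := hp2
  rw [hy2] at hp ⊢
  rw [← hw] at hp ⊢
  obtain ⟨k1, k2⟩ := h y w hy hp
  exact ⟨RK y w, k1, funext k2⟩

/-- moves -/
lemma mv_mem [Nonempty S] (hf : f.totalDegree ≤ 6) (hσ : DenseRange fun (x : K) (v : S) => σ v x)
    {x : ∀ v, ι ⊕ κ → L v} {u : ∀ v, Pr ι κ → L v} (hx : x ∈ closure (KP a f σ))
    (hu : ∀ v, ok a f (σ v) (x v) (u v)) :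
    (fun v => mv a f (σ v) (x v) (u v)) ∈ closure (KP a f σ) := by
  have hch : ∀ v, CharZero (L v) := fun v => charZero_of_injective_ringHom (σ v).injective
  obtain ⟨v0⟩ := ‹Nonempty S›
  refine op hσ (fun v => mv a f (σ v)) (mv a f (RingHom.id K)) v0
    {p | ok a f (σ v0) p.1 p.2} hx (fun v => mv_cont (p0 := (x v, u v)) (hu v))
    (ok_nhds (p0 := (x v0, u v0)) (hu v0)) fun y w hy hw => ?_
  have h1 : ok a f (RingHom.id K) y w := (ok_map (RingHom.id K) (σ v0) y w).1 hw
  exact ⟨mv_on hf _ hy h1, fun v => mv_map (RingHom.id K) (σ v) y w⟩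

/-- reflections -/
lemma rf_mem [Nonempty S] (hσ : DenseRange fun (x : K) (v : S) => σ v x)
    {x : ∀ v, ι ⊕ κ → L v} {g : ∀ v, ι → L v} (hx : x ∈ closure (KP a f σ))
    (hg : ∀ v, B (fun i => σ v (a i)) (g v) (g v) ≠ 0) :
    (fun v => rf a (σ v) (x v) (g v)) ∈ closure (KP a f σ) := by
  have hch : ∀ v, CharZero (L v) := fun v => charZero_of_injective_ringHom (σ v).injective
  obtain ⟨v0⟩ := ‹Nonempty S›
  refine op hσ (fun v => rf a (σ v)) (rf a (RingHom.id K)) v0
    {p | B (fun i => σ v0 (a i)) p.2 p.2 ≠ 0} hx (fun v => rf_cont (p0 := (x v, g v)) (hg v))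
    (rf_nhds (p0 := (x v0, g v0)) (hg v0)) fun y w hy hw => ?_
  have h1 : B (fun i => RingHom.id K (a i)) w w ≠ 0 := by
    have h2 : B (fun i => σ v0 (a i)) (fun s => σ v0 (w s)) (fun s => σ v0 (w s)) ≠ 0 := hw
    rw [← B_map, map_ne_zero] at h2
    exact h2
  exact ⟨rf_on _ hy h1, fun v => rf_map (RingHom.id K) (σ v) y w⟩

/-- the points of the closure are on the variety -/
lemma on_of_mem {x : ∀ v, ι ⊕ κ → L v} (hx : x ∈ closure (KP a f σ)) (v : S) :
    On a f (σ v) (x v) := by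
  have hR := fun x0 : ι ⊕ κ → L v => reg_cont (L := L v) x0
  have : CharZero (L v) := charZero_of_injective_ringHom (σ v).injective
  have h1 : IsClosed {x : ι ⊕ κ → L v | On a f (σ v) x} := by
    refine isClosed_eq ?_ ?_
    · refine continuous_iff_continuousAt.2 fun x0 => ?_
      exact (hR x0).B _ _ _ (fun i => (hR x0).const _)
        (fun i => (continuous_apply (Sum.inl i)).continuousAt)
        (fun i => (continuous_apply (Sum.inl i)).continuousAt)
    · exact (cont2 (σ v) f).comp (continuous_pi fun j => continuous_apply (Sum.inr j))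
  have h2 : IsClosed {x : ∀ v, ι ⊕ κ → L v | On a f (σ v) (x v)} :=
    h1.preimage (f := fun x : ∀ v, ι ⊕ κ → L v => x v) (continuous_apply v)
  refine closure_minimal ?_ h2 hx
  rintro _ ⟨y, hy, rfl⟩
  show B (fun i => σ v (a i)) (fun i => σ v (y (Sum.inl i))) (fun i => σ v (y (Sum.inl i))) =
    eval₂ (σ v) (fun j => σ v (y (Sum.inr j))) f
  rw [← B_map]
  have h3 : B a (fun i => y (Sum.inl i)) (fun i => y (Sum.inl i)) =
    eval₂ (RingHom.id K) (fun j => y (Sum.inr j)) f := hy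
  rw [h3, ← RingHom.coe_coe (σ v), eval₂_comp_left]
  rfl

end closure

end Pool.Agent.X95T.SX
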