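import Pool.Agent.X95T.NA3

/-!
# Conic bundles of degree six: the local step
-/

set_option autoImplicit false
set_option linter.unusedSectionVars false

open MvPolynomial Topology

namespace Pool.Agent.X95T.SX

section perp

variable {L ι : Type} [Field L] [CharZero L] [Fintype ι] (a : ι → L)

lemma B_single [DecidableEq ι] (w : ι → L) (j : ι) : B a w (Pi.single j 1) = a j * w j := by
  unfold B
  rw [Finset.sum_eq_single j]
  · simp
  · intro b _ hb
    rw [Pi.single_eq_of_ne hb, mul_zero]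
  · intro h
    exact absurd (Finset.mem_univ j) h

lemma B_smul (s : L) (u v : ι → L) : B a v (fun i => s * u i) = s * B a v u := by
  unfold B
  rw [Finset.mul_sum]
  exact Finset.sum_congr rfl fun i _ => by ring

lemma exists_perp [Nontrivial ι] (ha : ∀ i, a i ≠ 0) {w : ι → L} (hw : B a w w ≠ 0) :
    ∃ g : ι → L, B a w g = 0 ∧ B a g g ≠ 0 := by
  classical
  obtain ⟨j, hj⟩ : ∃ j, a j * w j * w j ≠ B a w w := by
    by_contra h
    push Not at h
    have h1 : B a w w = Fintype.card ι * B a w w := by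
      conv_lhs => unfold B
      rw [Finset.sum_congr rfl fun i _ => h i, Finset.sum_const, nsmul_eq_mul, Finset.card_univ]
    have h2 : ((Fintype.card ι : L) - 1) * B a w w = 0 := by linear_combination -h1
    have h3 := (mul_eq_zero.1 h2).resolve_right hw
    have h4 : (Fintype.card ι : L) = (1 : ℕ) := by
      rw [Nat.cast_one]
      linear_combination h3
    have h5 := Nat.cast_injective h4
    have h6 := Fintype.one_lt_card (α := ι)
    omega
  refine ⟨fun i => -(a j * w j / B a w w) * w i + (Pi.single j (1 : L) : ι → L) i, ?_, ?_⟩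
  · rw [B_lin, B_single]
    field_simp
    ring
  · have h1 : B a (Pi.single j 1) w = a j * w j := by rw [B_comm, B_single]
    have h2 : B a (Pi.single j 1) (Pi.single j 1) = a j := by
      rw [B_single, Pi.single_eq_same, mul_one]
    rw [B_lin, B_lin', B_lin', B_single, h1, h2]
    have h3 : -(a j * w j / B a w w) * (-(a j * w j / B a w w) * B a w w + a j * w j) +
        (-(a j * w j / B a w w) * (a j * w j) + a j) =
          a j * (B a w w - a j * w j * w j) / B a w w := by
      field_simp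
      ring
    rw [h3]
    exact div_ne_zero (mul_ne_zero (ha j) (sub_ne_zero.2 hj.symm)) hw

lemma pick (β : L) : ∃ l : L, l ≠ 0 ∧ 3 * β / 4 - l ^ 2 ≠ 0 ∧
    l ^ 4 / 4 + 9 / 8 * β * l ^ 2 + β ^ 2 / 64 ≠ 0 := by
  have h1 : (Polynomial.X ^ 2 - Polynomial.C (3 * β / 4) : Polynomial L) ≠ 0 := by
    intro h
    have := congrArg (fun P => Polynomial.coeff P 2) h
    simp [Polynomial.coeff_X_pow, Polynomial.coeff_C] at this
  have h2 : (Polynomial.C (1 / 4) * Polynomial.X ^ 4 + Polynomial.C (9 / 8 * β) * Polynomial.X ^ 2 +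
      Polynomial.C (β ^ 2 / 64) : Polynomial L) ≠ 0 := by
    intro h
    have := congrArg (fun P => Polynomial.coeff P 4) h
    simp only [Polynomial.coeff_add, Polynomial.coeff_C_mul, Polynomial.coeff_X_pow,
      Polynomial.coeff_C, Polynomial.coeff_zero] at this
    norm_num at this
  by_contra hc
  push Not at hc
  apply mul_ne_zero (mul_ne_zero Polynomial.X_ne_zero h1) h2
  apply Polynomial.funext
  intro l
  simp only [Polynomial.eval_mul, Polynomial.eval_X, Polynomial.eval_sub, Polynomial.eval_pow,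
    Polynomial.eval_C, Polynomial.eval_add, Polynomial.eval_zero]
  by_cases k1 : l = 0
  · rw [k1]; ring
  by_cases k2 : 3 * β / 4 - l ^ 2 = 0
  · have : l ^ 2 - 3 * β / 4 = 0 := by linear_combination -k2
    rw [this]; ring
  have k3 := hc l k1 k2
  have : 1 / 4 * l ^ 4 + 9 / 8 * β * l ^ 2 + β ^ 2 / 64 = 0 := by linear_combination k3
  rw [this]; ring

/-- two reflections -/
lemma two_refl [Nontrivial ι] (ha : ∀ i, a i ≠ 0) {w w' : ι → L} (h : B a w w = B a w' w')
    (h0 : B a w' w' ≠ 0) : ∃ g g' : ι → L, B a g g ≠ 0 ∧ B a g' g' ≠ 0 ∧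
      (fun i => -(2 * B a (fun i => -(2 * B a w g / B a g g) * g i + w i) g' / B a g' g') * g' i +
        (-(2 * B a w g / B a g g) * g i + w i)) = w' := by
  have e1 : ∀ s : L, B a (fun i => s * w' i + w i) (fun i => s * w' i + w i) =
      s ^ 2 * B a w' w' + 2 * s * B a w w' + B a w w := by
    intro s
    rw [B_lin, B_lin', B_lin', B_comm a w' w]
    ring
  have e2 : ∀ s : L, B a w (fun i => s * w' i + w i) = s * B a w w' + B a w w := by
    intro s
    rw [B_lin]
  by_cases h1 : B a (fun i => (-1) * w' i + w i) (fun i => (-1) * w' i + w i) = 0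
  · -- `w + w'`
    have h2 : B a w w' = B a w' w' := by
      rw [e1, h] at h1
      have : 2 * (B a w' w' - B a w w') = 0 := by linear_combination h1
      exact (sub_eq_zero.1 ((mul_eq_zero.1 this).resolve_left two_ne_zero)).symm
    have h3 : B a (fun i => 1 * w' i + w i) (fun i => 1 * w' i + w i) = 4 * B a w' w' := by
      rw [e1, h, h2]; ring
    have h4 : B a w (fun i => 1 * w' i + w i) = 2 * B a w' w' := by
      rw [e2, h, h2]; ring
    have h5 : (fun i => -(2 * B a w (fun i => 1 * w' i + w i) /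
        B a (fun i => 1 * w' i + w i) (fun i => 1 * w' i + w i)) * (1 * w' i + w i) + w i) =
          fun i => (-1) * w' i := by
      funext i
      rw [h3, h4]
      field_simp
      ring
    refine ⟨fun i => 1 * w' i + w i, w', ?_, h0, ?_⟩
    · rw [h3]
      exact mul_ne_zero (by norm_num) h0
    · rw [h5]
      have h6 : B a (fun i => (-1) * w' i) w' = -B a w' w' := by
        rw [B_comm, B_smul]; ring
      rw [h6]
      funext i
      have h7 := congrFun h5 i
      rw [h7]
      field_simp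
      ring
  · obtain ⟨g', hg, hg'⟩ := exists_perp a ha h0
    have h3 : B a (fun i => (-1) * w' i + w i) (fun i => (-1) * w' i + w i) =
        2 * (B a w' w' - B a w w') := by
      rw [e1, h]; ring
    have h4 : B a w (fun i => (-1) * w' i + w i) = B a w' w' - B a w w' := by
      rw [e2, h]; ring
    have h3' : B a w' w' - B a w w' ≠ 0 := by
      intro h5
      rw [h3, h5, mul_zero] at h1
      exact h1 rfl
    have h5 : (fun i => -(2 * B a w (fun i => (-1) * w' i + w i) /
        B a (fun i => (-1) * w' i + w i) (fun i => (-1) * w' i + w i)) * ((-1) * w' i + w i) +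
          w i) = w' := by
      funext i
      rw [h3, h4]
      field_simp
      ring
    refine ⟨fun i => (-1) * w' i + w i, g', h1, hg', ?_⟩
    rw [h5, hg]
    funext i
    have h7 := congrFun h5 i
    rw [h7]
    ring

end perp

section loc

variable {K ι κ : Type} [Field K] [Fintype ι] [Fintype κ] {a : ι → K} {f : MvPolynomial κ K}
  {L : Type} [NontriviallyNormedField L] [CompleteSpace L] [CharZero L] {τ : K →+* L}

lemma reg_an {E : Type} [NormedAddCommGroup E] [NormedSpace L E] (x0 : E) :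
    Reg x0 fun f : E → L => AnalyticAt L f x0 :=
  ⟨fun _ => analyticAt_const, fun _ _ hf hg => hf.add hg, fun _ _ hf hg => hf.mul hg,
    fun _ _ hf hg h => hf.div hg h⟩

lemma eval_reg {X θ : Type} {x0 : X} {R : (X → L) → Prop} (hR : Reg x0 R) (y : X → θ → L)
    (hy : ∀ s, R fun x => y x s) (p : MvPolynomial θ K) : R fun x => eval₂ τ (y x) p := by
  induction p using MvPolynomial.induction_on with
  | C c =>
    simp only [eval₂_C]
    exact hR.const _
  | add p q hp hq =>
    simp only [eval₂_add]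
    exact hR.add _ _ hp hq
  | mul_X p s hp =>
    simp only [eval₂_mul, eval₂_X]
    exact hR.mul _ _ hp (hy s)

/-- the special parameters -/
def su (g : ι → L) (l : L) (v : κ → L) : Pr ι κ → L :=
  Sum.elim v (Sum.elim g (Sum.elim (fun i => l * g i) fun _ => 0))

lemma rd_an (x : ι ⊕ κ → L) (g : ι → L) (l : L) :
    RD (fun h : (κ → L) → L => AnalyticAt L h 0) (fun v => dt a f τ x (su g l v)) := by
  have hR := reg_an (L := L) (0 : κ → L)
  refine ⟨fun i => hR.const _, fun j => ?_, fun i => hR.const _, fun i => hR.const _,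
    fun i => hR.const _, fun i => hR.const _⟩
  refine eval_reg hR (fun (v : κ → L) => Sum.elim (fun j => x (Sum.inr j)) v) ?_ (Fc f j)
  rintro (s | s)
  · exact hR.const _
  · exact (ContinuousLinearMap.proj (R := L) (φ := fun _ : κ => L) s).analyticAt 0

lemma comp0 {x : ι ⊕ κ → L} {g : ι → L} (l : L) (hx : On a f τ x)
    (h0 : eval₂ τ (fun j => x (Sum.inr j)) f ≠ 0)
    (hg : B (fun i => τ (a i)) (fun i => x (Sum.inl i)) g = 0)
    (hg' : B (fun i => τ (a i)) g g ≠ 0)
    (hl : l ≠ 0)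
    (hl2 : 3 * (B (fun i => τ (a i)) g g / eval₂ τ (fun j => x (Sum.inr j)) f) / 4 - l ^ 2 ≠ 0)
    (hl3 : l ^ 4 / 4 + 9 / 8 * (B (fun i => τ (a i)) g g / eval₂ τ (fun j => x (Sum.inr j)) f) *
      l ^ 2 + (B (fun i => τ (a i)) g g / eval₂ τ (fun j => x (Sum.inr j)) f) ^ 2 / 64 ≠ 0) :
    ok a f τ x (su g l 0) ∧ (dt a f τ x (su g l 0)).t ≠ 0 := by
  set d := dt a f τ x (su g l 0) with hd
  set c := eval₂ τ (fun j => x (Sum.inr j)) f with hcdef
  set γ := B (fun i => τ (a i)) g g with hγ
  have hF0 : d.F 0 = c := Fv_zero' τ _ _ f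
  have hF : ∀ j, j ≠ 0 → d.F j = 0 := fun j hj => Fv_dir τ (fun j => x (Sum.inr j)) f hj
  have hB0 : B d.a d.w0 d.w0 = c := hx
  have hg0 : B d.a d.w0 g = 0 := hg
  have hg0' : B d.a g d.w0 = 0 := by rw [B_comm]; exact hg
  have hgg : B d.a g g = γ := rfl
  have w1 : d.w1 = g := by
    funext i
    show (d.F 1 / 2 - B d.a d.w0 g) / d.F 0 * d.w0 i + g i = g i
    rw [hF 1 one_ne_zero, hg0]
    ring
  have hl0 : B d.a d.w0 (fun i => l * g i) = 0 := by rw [B_smul, hg0, mul_zero]
  have w2 : d.w2 = fun i => (-γ / (2 * c)) * d.w0 i + l * g i := by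
    funext i
    show ((d.F 2 - B d.a d.w1 d.w1) / 2 - B d.a d.w0 (fun i => l * g i)) / d.F 0 * d.w0 i +
      l * g i = _
    rw [hF 2 two_ne_zero, w1, hl0, hgg, hF0]
    field_simp
    ring
  have b02 : B d.a d.w0 d.w2 = -γ / 2 := by
    rw [w2, B_lin, hB0, hl0]
    field_simp
    ring
  have b12 : B d.a d.w1 d.w2 = l * γ := by
    rw [w1, w2, B_lin, hg0', B_smul, hgg]
    ring
  have b2g : B d.a g d.w2 = l * γ := by
    rw [w2, B_lin, hg0', B_smul, hgg]
    ring
  have b22 : B d.a d.w2 d.w2 = γ ^ 2 / (4 * c) + l ^ 2 * γ := by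
    conv_lhs => rw [w2]
    rw [B_lin, B_comm d.a _ d.w0, B_comm d.a _ (fun i => l * g i)]
    have h1 : B d.a d.w0 (fun i => (-γ / (2 * c)) * d.w0 i + l * g i) = -γ / 2 := by
      rw [← w2]; exact b02
    have h2 : B d.a (fun i => l * g i) (fun i => (-γ / (2 * c)) * d.w0 i + l * g i) =
        l * (l * γ) := by
      rw [← w2, B_comm, B_smul, B_comm, b2g]
    rw [h1, h2]
    field_simp
    ring
  have hp : d.p = -(l * γ) := by
    have h3 : B d.a d.w0 d.h3 = 0 := by
      show B d.a d.w0 (fun _ => 0) = 0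
      unfold B
      simp
    unfold D.p
    rw [hF 3 three_ne_zero, b12, h3]
    ring
  have hq : d.q = -(γ ^ 2 / (4 * c) + l ^ 2 * γ) / 2 := by
    have h3 : B d.a d.w1 d.h3 = 0 := by
      show B d.a d.w1 (fun _ => 0) = 0
      unfold B
      simp
    unfold D.q
    rw [hF 4 four_ne_zero, b22, h3]
    ring
  have b01 : B d.a d.w0 d.w1 = 0 := by rw [w1]; exact hg0
  have b11 : B d.a d.w1 d.w1 = γ := by rw [w1, hgg]
  have hDl : d.Dl = c * γ := by
    unfold D.Dl
    rw [hF0, b11, b01]
    ring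
  have w3 : d.w3 = fun i => (d.p / c) * d.w0 i + (d.q / γ) * g i := by
    funext i
    show (d.p * B d.a d.w1 d.w1 - B d.a d.w0 d.w1 * d.q) / d.Dl * d.w0 i +
      ((d.F 0 * d.q - B d.a d.w0 d.w1 * d.p) / d.Dl * d.w1 i + 0) = _
    rw [b11, b01, hDl, hF0, w1]
    field_simp
    ring
  have b3g : B d.a g d.w3 = d.q := by
    rw [w3, B_lin, hg0', B_smul, hgg]
    field_simp
    ring
  have b03 : B d.a d.w0 d.w3 = d.p := by
    rw [w3, B_lin, hB0, B_smul, hg0]
    field_simp
    ring
  have b23 : B d.a d.w2 d.w3 = -γ / (2 * c) * d.p + l * d.q := by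
    have : B d.a d.w2 d.w3 = B d.a (fun i => (-γ / (2 * c)) * d.w0 i + l * g i) d.w3 := by
      rw [w2]
    rw [this, B_lin', b03, B_comm d.a (fun i => l * g i), B_smul, B_comm, b3g]
  have b33 : B d.a d.w3 d.w3 = d.p / c * d.p + d.q / γ * d.q := by
    have : B d.a d.w3 d.w3 = B d.a (fun i => (d.p / c) * d.w0 i + (d.q / γ) * g i) d.w3 := by
      conv_lhs => rw [w3]
      rw [← w3]
    rw [this, B_lin', b03, B_comm d.a (fun i => d.q / γ * g i), B_smul, B_comm, b3g]
  have hE5 : d.E5 = l * γ * (3 * (γ / c) / 4 - l ^ 2) := by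
    unfold D.E5
    rw [b23, hF 5 (by norm_num), hp, hq]
    field_simp
    ring
  have hE6 : d.E6 = γ * (l ^ 4 / 4 + 9 / 8 * (γ / c) * l ^ 2 + (γ / c) ^ 2 / 64) := by
    unfold D.E6
    rw [b33, hF 6 (by norm_num), hp, hq]
    field_simp
    ring
  have n5 : d.E5 ≠ 0 := by
    rw [hE5]
    exact mul_ne_zero (mul_ne_zero hl hg') hl2
  have n6 : d.E6 ≠ 0 := by
    rw [hE6]
    exact mul_ne_zero hg' hl3
  refine ⟨⟨?_, ?_, n6⟩, ?_⟩
  · show d.F 0 ≠ 0
    rw [hF0]
    exact h0
  · show d.Dl ≠ 0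
    rw [hDl]
    exact mul_ne_zero h0 hg'
  · exact div_ne_zero (neg_ne_zero.2 n5) n6

/-- **the local step** -/
theorem step [Nontrivial ι] (hf : f.totalDegree ≤ 6) (ha : ∀ i, a i ≠ 0) {x : ι ⊕ κ → L}
    (hx : On a f τ x) (h0 : eval₂ τ (fun j => x (Sum.inr j)) f ≠ 0) :
    ∀ᶠ z in 𝓝 (fun j => x (Sum.inr j)), ∃ u : Pr ι κ → L, ok a f τ x u ∧
      (fun j => mv a f τ x u (Sum.inr j)) = z := by
  have ha' : ∀ i, τ (a i) ≠ 0 := fun i => (map_ne_zero τ).2 (ha i)
  have hB : B (fun i => τ (a i)) (fun i => x (Sum.inl i)) (fun i => x (Sum.inl i)) ≠ 0 := by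
    have : B (fun i => τ (a i)) (fun i => x (Sum.inl i)) (fun i => x (Sum.inl i)) =
      eval₂ τ (fun j => x (Sum.inr j)) f := hx
    rw [this]
    exact h0
  obtain ⟨g, hg, hg'⟩ := exists_perp _ ha' hB
  obtain ⟨l, hl, hl2, hl3⟩ := pick (B (fun i => τ (a i)) g g /
    eval₂ τ (fun j => x (Sum.inr j)) f)
  obtain ⟨hok, ht⟩ := comp0 l hx h0 hg hg' hl hl2 hl3
  have hd := rd_an (a := a) (f := f) (τ := τ) x g l
  have hR := reg_an (L := L) (0 : κ → L)
  -- the move is defined close to zero
  have hgood : {v : κ → L | ok a f τ x (su g l v)} ∈ 𝓝 (0 : κ → L) := by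
    have h1 := (hd.F 0).continuousAt.eventually_ne hok.1
    have h2 := (hd.Dl hR hok.1).continuousAt.eventually_ne hok.2.1
    have h3 := (hd.E6 hR hok.1 hok.2.1).continuousAt.eventually_ne hok.2.2
    filter_upwards [h1, h2, h3] with p h1 h2 h3 using ⟨h1, h2, h3⟩
  have hta := (hd.t hR hok.1 hok.2.1 hok.2.2).hasStrictFDerivAt
  have hH := hta.smul (hasStrictFDerivAt_id (0 : κ → L))
  have hsurj : LinearMap.range (((dt a f τ x (su g l 0)).t • ContinuousLinearMap.id L (κ → L) +
      (fderiv L (fun v : κ → L => (dt a f τ x (su g l v)).t) 0).smulRight (id (0 : κ → L)) :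
        (κ → L) →L[L] (κ → L)) : (κ → L) →ₗ[L] (κ → L)) = ⊤ := by
    rw [LinearMap.range_eq_top]
    intro y
    refine ⟨(dt a f τ x (su g l 0)).t⁻¹ • y, ?_⟩
    simp [smul_smul, inv_mul_cancel₀ ht]
  have hmap := hH.map_nhds_eq_of_surj hsurj
  have h2 : ((fun v : κ → L => (dt a f τ x (su g l v)).t) • id) (0 : κ → L) = 0 := by
    simp
  rw [h2] at hmap
  have himg := Filter.image_mem_map (m := (fun v : κ → L => (dt a f τ x (su g l v)).t) • id) hgood
  rw [hmap] at himg
  have hc : Filter.Tendsto (fun z : κ → L => z - fun j => x (Sum.inr j))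
      (𝓝 fun j => x (Sum.inr j)) (𝓝 0) := by
    have h3 : Continuous fun z : κ → L => z - fun j => x (Sum.inr j) :=
      continuous_id.sub continuous_const
    have h4 := h3.tendsto (fun j : κ => x (Sum.inr j))
    rw [sub_self] at h4
    exact h4
  filter_upwards [hc himg] with z hz
  obtain ⟨v, hv, hvz⟩ := hz
  refine ⟨su g l v, hv, ?_⟩
  funext j
  show x (Sum.inr j) + (dt a f τ x (su g l v)).t * v j = z j
  have h3 : (dt a f τ x (su g l v)).t * v j = z j - x (Sum.inr j) := congrFun hvz j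
  rw [h3]
  ring

end loc

end Pool.Agent.X95T.SX
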