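import Pool.Agent.X95T.NA4

/-!
# Conic bundles of degree six: the closure of the rational points is open
-/

set_option autoImplicit false
set_option linter.unusedSectionVars false

open MvPolynomial Topology

namespace Pool.Agent.X95T.SX

variable {K ι κ S : Type} [Field K] [CharZero K] [Fintype ι] {a : ι → K} {f : MvPolynomial κ K}
  {L : S → Type} [∀ v, NontriviallyNormedField (L v)] {σ : ∀ v, K →+* L v}

/-- the fibres -/
theorem fibre [Nonempty S] [Nontrivial ι] (hσ : DenseRange fun (x : K) (v : S) => σ v x)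
    (ha : ∀ i, a i ≠ 0) {x y : ∀ v, ι ⊕ κ → L v} (hx : x ∈ closure (KP a f σ))
    (hy : ∀ v, On a f (σ v) (y v)) (h0 : ∀ v, eval₂ (σ v) (fun j => y v (Sum.inr j)) f ≠ 0)
    (hxy : ∀ v, (fun j => x v (Sum.inr j)) = fun j => y v (Sum.inr j)) :
    y ∈ closure (KP a f σ) := by
  have hch : ∀ v, CharZero (L v) := fun v => charZero_of_injective_ringHom (σ v).injective
  have key : ∀ v, ∃ g g' : ι → L v, B (fun i => σ v (a i)) g g ≠ 0 ∧
      B (fun i => σ v (a i)) g' g' ≠ 0 ∧ rf a (σ v) (rf a (σ v) (x v) g) g' = y v := by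
    intro v
    have h1 : B (fun i => σ v (a i)) (fun i => x v (Sum.inl i)) (fun i => x v (Sum.inl i)) =
        eval₂ (σ v) (fun j => x v (Sum.inr j)) f := on_of_mem hx v
    have h2 : B (fun i => σ v (a i)) (fun i => y v (Sum.inl i)) (fun i => y v (Sum.inl i)) =
        eval₂ (σ v) (fun j => y v (Sum.inr j)) f := hy v
    have h3 : B (fun i => σ v (a i)) (fun i => y v (Sum.inl i)) (fun i => y v (Sum.inl i)) ≠ 0 := by
      rw [h2]
      exact h0 v
    obtain ⟨g, g', hg, hg', h4⟩ := two_refl (fun i => σ v (a i))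
      (fun i => (map_ne_zero (σ v)).2 (ha i)) (w := fun i => x v (Sum.inl i))
      (w' := fun i => y v (Sum.inl i)) (by rw [h1, h2, hxy v]) h3
    refine ⟨g, g', hg, hg', ?_⟩
    funext s
    rcases s with s | s
    · exact congrFun h4 s
    · exact congrFun (hxy v) s
  choose g g' hg hg' hgy using key
  have h1 := rf_mem hσ (rf_mem hσ hx hg) hg'
  have h2 : (fun v => rf a (σ v) (rf a (σ v) (x v) (g v)) (g' v)) = y := funext hgy
  rw [h2] at h1
  exact h1

/-- **the closure is open** -/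
theorem open_closure [Finite S] [Nonempty S] [Nontrivial ι] [Fintype κ]
    [∀ v, CompleteSpace (L v)] (hf : f.totalDegree ≤ 6)
    (hσ : DenseRange fun (x : K) (v : S) => σ v x) (ha : ∀ i, a i ≠ 0)
    {x : ∀ v, ι ⊕ κ → L v} (hx : x ∈ closure (KP a f σ))
    (h0 : ∀ v, eval₂ (σ v) (fun j => x v (Sum.inr j)) f ≠ 0) :
    ∃ U ∈ 𝓝 (fun v j => x v (Sum.inr j)), ∀ y : ∀ v, ι ⊕ κ → L v, (∀ v, On a f (σ v) (y v)) →
      (fun v j => y v (Sum.inr j)) ∈ U → y ∈ closure (KP a f σ) := by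
  have hch : ∀ v, CharZero (L v) := fun v => charZero_of_injective_ringHom (σ v).injective
  have hon : ∀ v, On a f (σ v) (x v) := fun v => on_of_mem hx v
  let U : ∀ v, Set (κ → L v) := fun v =>
    {z | (∃ u : Pr ι κ → L v, ok a f (σ v) (x v) u ∧
      (fun j => mv a f (σ v) (x v) u (Sum.inr j)) = z) ∧ eval₂ (σ v) z f ≠ 0}
  have hU : ∀ v, U v ∈ 𝓝 (fun j => x v (Sum.inr j)) := by
    intro v
    have h1 := step hf ha (hon v) (h0 v)
    have h2 : ∀ᶠ z in 𝓝 (fun j => x v (Sum.inr j)), eval₂ (σ v) z f ≠ 0 :=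
      (cont2 (σ v) f).continuousAt.eventually_ne (h0 v)
    filter_upwards [h1, h2] with z h1 h2 using ⟨h1, h2⟩
  refine ⟨Set.univ.pi U, set_pi_mem_nhds Set.finite_univ fun v _ => hU v, fun y hy hyU => ?_⟩
  have h1 : ∀ v, (fun j => y v (Sum.inr j)) ∈ U v := fun v => hyU v (Set.mem_univ v)
  choose u hu hu' using fun v => (h1 v).1
  exact fibre hσ ha (mv_mem hf hσ hx hu) hy (fun v => (h1 v).2) hu'

end Pool.Agent.X95T.SX
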