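import Pool.Agent.X95T.NA5

/-!
# Weak approximation for finitely many different completions
-/

set_option autoImplicit false
set_option linter.unusedSectionVars false

open MvPolynomial Topology

namespace Pool.Agent.X95T.SX

section wa

variable {K S : Type} [Field K] {L : S → Type} [∀ v, NontriviallyNormedField (L v)]
  (σ : ∀ v, K →+* L v)

/-- the absolute values -/
def av (v : S) : AbsoluteValue K ℝ where
  toFun x := ‖σ v x‖
  map_mul' x y := by rw [map_mul, norm_mul]
  nonneg' x := norm_nonneg _
  eq_zero' x := by rw [norm_eq_zero, map_eq_zero]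
  add_le' x y := by rw [map_add]; exact norm_add_le _ _

lemma norm_av (v : S) (x : WithAbs (av σ v)) : ‖x‖ = ‖σ v x.ofAbs‖ := rfl

variable {σ}

/-- weak approximation -/
theorem dense_diag [Finite S] (hσ : ∀ v, DenseRange (σ v))
    (hne : ∀ v v', v ≠ v' → ∃ x : K, ‖σ v x‖ < 1 ∧ 1 ≤ ‖σ v' x‖) :
    DenseRange fun (x : K) (v : S) => σ v x := by
  have hnt : ∀ v, (av σ v).IsNontrivial := by
    intro v
    obtain ⟨y, hy⟩ := NormedField.exists_one_lt_norm (L v)
    have h1 : {z : L v | 1 < ‖z‖} ∈ 𝓝 y := (continuous_norm.continuousAt).eventually_const_lt hy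
    obtain ⟨x, hx⟩ := (hσ v).exists_mem_open isOpen_interior ⟨y, mem_interior_iff_mem_nhds.2 h1⟩
    have hx : σ v x ∈ {z : L v | 1 < ‖z‖} := interior_subset hx
    have hx : 1 < ‖σ v x‖ := hx
    refine ⟨x, ?_, ne_of_gt hx⟩
    rintro rfl
    rw [map_zero, norm_zero] at hx
    linarith
  have h1 := AbsoluteValue.denseRange_algebraMap_pi (v := av σ) hnt fun v v' hv h => by
    obtain ⟨x, h2, h3⟩ := hne v v' hv
    exact absurd (h.lt_one_iff.1 h2) (not_lt.2 h3)
  have h2 : DenseRange (Pi.map fun (v : S) (x : WithAbs (av σ v)) => σ v x.ofAbs) := by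
    refine DenseRange.piMap fun v => ?_
    have h3 : Function.Surjective fun x : WithAbs (av σ v) => x.ofAbs := fun x => ⟨WithAbs.toAbs _ x, rfl⟩
    have h4 : Set.range (fun x : WithAbs (av σ v) => σ v x.ofAbs) = Set.range (σ v) :=
      h3.range_comp (σ v)
    show Dense (Set.range fun x : WithAbs (av σ v) => σ v x.ofAbs)
    rw [h4]
    exact hσ v
  have h3 : Continuous (Pi.map fun (v : S) (x : WithAbs (av σ v)) => σ v x.ofAbs) := by
    refine continuous_pi fun v => ?_
    have h4 : Isometry fun x : WithAbs (av σ v) => σ v x.ofAbs := by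
      refine Isometry.of_dist_eq fun x y => ?_
      rw [dist_eq_norm, dist_eq_norm, norm_av, WithAbs.ofAbs_sub, map_sub]
    exact h4.continuous.comp (continuous_apply v)
  exact h2.comp h1 h3

end wa

end Pool.Agent.X95T.SX
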