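import Pool.Agent.X95T.NA6

/-!
# Conic bundles of degree six in each variable
-/

set_option autoImplicit false
set_option linter.unusedSectionVars false

open MvPolynomial Topology

namespace Pool.Agent.X95T.SX

section mv

variable {K ι κ : Type} [Field K] [CharZero K] [Fintype ι] [DecidableEq κ] {a : ι → K}
  {f : MvPolynomial κ K}

/-- the parameters of a move in the direction of a coordinate -/
abbrev Q (ι : Type) : Type := Unit ⊕ (ι ⊕ (ι ⊕ ι))

/-- the parameters with direction along the coordinate `j` -/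
def ex (j : κ) {k : Type} [Field k] (u : Q ι → k) : Pr ι κ → k :=
  Sum.elim (Pi.single j (u (Sum.inl ()))) fun s => u (Sum.inr s)

lemma mv_on' {k : Type} [Field k] [CharZero k] {j : κ} (hf : f.degreeOf j ≤ 6) (τ : K →+* k)
    {x : ι ⊕ κ → k} {u : Q ι → k} (hx : On a f τ x) (hu : ok a f τ x (ex j u)) :
    On a f τ (mv a f τ x (ex j u)) := by
  have h0 : B (dt a f τ x (ex j u)).a (dt a f τ x (ex j u)).w0 (dt a f τ x (ex j u)).w0 =
      (dt a f τ x (ex j u)).F 0 := hx.trans (Fv_zero' τ _ _ f).symm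
  have h1 := D.on h0 hu.1 hu.2.1 hu.2.2
  have h2 := tay' τ (fun j => x (Sum.inr j)) (Pi.single j (u (Sum.inl ())))
    ((G_dir τ (fun j => x (Sum.inr j)) j (u (Sum.inl ())) f).trans hf) (dt a f τ x (ex j u)).t
  exact h1.trans h2.symm

lemma ex_map {k k' : Type} [Field k] [Field k'] (ρ : k →+* k') (j : κ) (u : Q ι → k) :
    ex j (fun s => ρ (u s)) = fun s => ρ (ex (ι := ι) j u s) := by
  funext s
  rcases s with s | s
  · show (Pi.single j (ρ (u (Sum.inl ()))) : κ → k') s = ρ ((Pi.single j (u (Sum.inl ())) :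
      κ → k) s)
    by_cases hs : s = j
    · subst hs
      rw [Pi.single_eq_same, Pi.single_eq_same]
    · rw [Pi.single_eq_of_ne hs, Pi.single_eq_of_ne hs, map_zero]
  · rfl

variable {S : Type} {L : S → Type} [∀ v, NontriviallyNormedField (L v)] {σ : ∀ v, K →+* L v}

lemma ex_cont {L : Type} [NontriviallyNormedField L] (j : κ) :
    Continuous fun p : (ι ⊕ κ → L) × (Q ι → L) => (p.1, ex (ι := ι) j p.2) := by
  refine continuous_fst.prodMk (continuous_pi fun s => ?_)
  rcases s with s | s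
  · show Continuous fun p : (ι ⊕ κ → L) × (Q ι → L) => (Pi.single j (p.2 (Sum.inl ())) : κ → L) s
    by_cases hs : s = j
    · subst hs
      simp only [Pi.single_eq_same]
      exact (continuous_apply _).comp continuous_snd
    · simp only [Pi.single_eq_of_ne hs]
      exact continuous_const
  · show Continuous fun p : (ι ⊕ κ → L) × (Q ι → L) => p.2 (Sum.inr s)
    exact (continuous_apply _).comp continuous_snd

/-- moves along a coordinate -/
lemma mv_mem' [Nonempty S] {j : κ} (hf : f.degreeOf j ≤ 6)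
    (hσ : DenseRange fun (x : K) (v : S) => σ v x)
    {x : ∀ v, ι ⊕ κ → L v} {u : ∀ v, Q ι → L v} (hx : x ∈ closure (KP a f σ))
    (hu : ∀ v, ok a f (σ v) (x v) (ex j (u v))) :
    (fun v => mv a f (σ v) (x v) (ex j (u v))) ∈ closure (KP a f σ) := by
  have hch : ∀ v, CharZero (L v) := fun v => charZero_of_injective_ringHom (σ v).injective
  obtain ⟨v0⟩ := ‹Nonempty S›
  refine op hσ (fun v x u => mv a f (σ v) x (ex j u)) (fun x u => mv a f (RingHom.id K) x (ex j u))
    v0 {p | ok a f (σ v0) p.1 (ex j p.2)} hx (fun v => ?_) ?_ fun y w hy hw => ?_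
  · exact ContinuousAt.comp (f := fun p : (ι ⊕ κ → L v) × (Q ι → L v) => (p.1, ex j p.2))
      (g := fun p : (ι ⊕ κ → L v) × (Pr ι κ → L v) => mv a f (σ v) p.1 p.2) (x := (x v, u v))
      (mv_cont (p0 := (x v, ex j (u v))) (hu v)) (ex_cont j).continuousAt
  · exact (ex_cont (ι := ι) (L := L v0) j).continuousAt.preimage_mem_nhds (x := (x v0, u v0))
      (ok_nhds (p0 := (x v0, ex j (u v0))) (hu v0))
  · have h1 : ok a f (RingHom.id K) y (ex j w) := by
      have h2 : ok a f (σ v0) (fun s => σ v0 (y s)) (ex j fun s => σ v0 (w s)) := hw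
      rw [ex_map] at h2
      exact (ok_map (RingHom.id K) (σ v0) y (ex j w)).1 h2
    refine ⟨mv_on' hf _ hy h1, fun v => ?_⟩
    rw [ex_map]
    exact mv_map (RingHom.id K) (σ v) y (ex j w)

/-- sequences of moves -/
def Rch (a : ι → K) (f : MvPolynomial κ K) {k : Type} [Field k] (τ : K →+* k) :
    List κ → (ι ⊕ κ → k) → (ι ⊕ κ → k) → Prop
  | [], x, y => x = y
  | j :: l, x, y => ∃ u : Q ι → k, ok a f τ x (ex j u) ∧ Rch a f τ l (mv a f τ x (ex j u)) y

lemma rch_mem [Nonempty S] (hf : ∀ j, f.degreeOf j ≤ 6)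
    (hσ : DenseRange fun (x : K) (v : S) => σ v x) (l : List κ) :
    ∀ {x y : ∀ v, ι ⊕ κ → L v}, x ∈ closure (KP a f σ) →
      (∀ v, Rch a f (σ v) l (x v) (y v)) → y ∈ closure (KP a f σ) := by
  induction l with
  | nil =>
    intro x y hx hxy
    have : x = y := funext hxy
    rw [← this]
    exact hx
  | cons j l ih =>
    intro x y hx hxy
    choose u hu hu' using hxy
    exact ih (mv_mem' (hf j) hσ hx hu) hu'

end mv

section an

variable {K ι κ : Type} [Field K] [Fintype ι] [Fintype κ] [DecidableEq κ] {a : ι → K}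
  {f : MvPolynomial κ K} {L : Type} [NontriviallyNormedField L] [CompleteSpace L] [CharZero L]
  {τ : K →+* L}

/-- the special parameters -/
def sq (g : ι → L) (l s : L) : Q ι → L :=
  Sum.elim (fun _ => s) (Sum.elim g (Sum.elim (fun i => l * g i) fun _ => 0))

lemma ex_sq (j : κ) (g : ι → L) (l s : L) : ex j (sq g l s) = su g l (Pi.single j s) := rfl

/-- families of points -/
theorem fam [CharZero K] [Nontrivial ι] (hf : ∀ j, f.degreeOf j ≤ 6) (ha : ∀ i, a i ≠ 0)
    (l : List κ) :
    l.Nodup → ∀ x : (κ → L) → ι ⊕ κ → L, (∀ s, AnalyticAt L (fun v => x v s) 0) →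
      (∀ᶠ v in 𝓝 (0 : κ → L), On a f τ (x v)) →
      eval₂ τ (fun j => x 0 (Sum.inr j)) f ≠ 0 →
      ∃ (y : (κ → L) → ι ⊕ κ → L) (T : κ → (κ → L) → L), (∀ i, AnalyticAt L (T i) 0) ∧
        (∀ᶠ v in 𝓝 (0 : κ → L), Rch a f τ l (x v) (y v)) ∧ (∀ i ∈ l, T i 0 ≠ 0) ∧
        (∀ i, i ∉ l → T i = fun _ => 0) ∧
        ∀ v i, y v (Sum.inr i) = x v (Sum.inr i) + T i v * v i := by
  have hR := reg_an (L := L) (0 : κ → L)
  induction l with
  | nil =>
    intro _ x hx hon h0
    refine ⟨x, fun _ _ => 0, fun i => analyticAt_const, Filter.Eventually.of_forall fun v => rfl,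
      fun i hi => ?_, fun i _ => rfl, fun v i => by ring⟩
    exact absurd hi List.not_mem_nil
  | cons j l ih =>
    intro hnd x hx hon h0
    have hj : j ∉ l := (List.nodup_cons.1 hnd).1
    have hon0 : On a f τ (x 0) := hon.self_of_nhds
    have ha' : ∀ i, τ (a i) ≠ 0 := fun i => (map_ne_zero τ).2 (ha i)
    have hB : B (fun i => τ (a i)) (fun i => x 0 (Sum.inl i)) (fun i => x 0 (Sum.inl i)) ≠ 0 := by
      have : B (fun i => τ (a i)) (fun i => x 0 (Sum.inl i)) (fun i => x 0 (Sum.inl i)) =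
        eval₂ τ (fun j => x 0 (Sum.inr j)) f := hon0
      rw [this]
      exact h0
    obtain ⟨g, hg, hg'⟩ := exists_perp _ ha' hB
    obtain ⟨c, hl, hl2, hl3⟩ := pick (B (fun i => τ (a i)) g g /
      eval₂ τ (fun j => x 0 (Sum.inr j)) f)
    obtain ⟨hok, ht⟩ := comp0 c hon0 h0 hg hg' hl hl2 hl3
    have e0 : ex j (sq g c ((0 : κ → L) j)) = su g c (0 : κ → L) := by
      rw [ex_sq, Pi.zero_apply, Pi.single_zero]
    rw [← e0] at hok ht
    have hv : ∀ i, AnalyticAt L (fun v : κ → L => (Pi.single j (v j) : κ → L) i) 0 := by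
      intro i
      by_cases hi : i = j
      · subst hi
        simp only [Pi.single_eq_same]
        exact (ContinuousLinearMap.proj (R := L) (φ := fun _ : κ => L) i).analyticAt 0
      · simp only [Pi.single_eq_of_ne hi]
        exact analyticAt_const
    have hd : RD (fun h : (κ → L) → L => AnalyticAt L h 0)
        (fun v => dt a f τ (x v) (ex j (sq g c (v j)))) := by
      refine ⟨fun i => hR.const _, fun i => ?_, fun i => hx (Sum.inl i), fun i => hR.const _,
        fun i => hR.const _, fun i => hR.const _⟩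
      refine eval_reg hR (fun (v : κ → L) => Sum.elim (fun j => x v (Sum.inr j))
        (Pi.single j (v j))) ?_ (Fc f i)
      rintro (s | s)
      · exact hx (Sum.inr s)
      · exact hv s
    have hgood : ∀ᶠ v in 𝓝 (0 : κ → L), ok a f τ (x v) (ex j (sq g c (v j))) := by
      have h1 := (hd.F 0).continuousAt.eventually_ne hok.1
      have h2 := (hd.Dl hR hok.1).continuousAt.eventually_ne hok.2.1
      have h3 := (hd.E6 hR hok.1 hok.2.1).continuousAt.eventually_ne hok.2.2
      filter_upwards [h1, h2, h3] with p h1 h2 h3 using ⟨h1, h2, h3⟩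
    have hta := hd.t hR hok.1 hok.2.1 hok.2.2
    set tt : (κ → L) → L := fun v => (dt a f τ (x v) (ex j (sq g c (v j)))).t with htt
    set x1 : (κ → L) → ι ⊕ κ → L := fun v => mv a f τ (x v) (ex j (sq g c (v j))) with hx1
    have hz1 : ∀ v i, x1 v (Sum.inr i) = x v (Sum.inr i) + tt v * (Pi.single j (v j) : κ → L) i :=
      fun v i => rfl
    have h1 : ∀ s, AnalyticAt L (fun v => x1 v s) 0 := by
      rintro (s | s)
      · exact hd.w hR hok.1 hok.2.1 hok.2.2 s
      · exact (hx (Sum.inr s)).add (hta.mul (hv s))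
    have h2 : ∀ᶠ v in 𝓝 (0 : κ → L), On a f τ (x1 v) := by
      filter_upwards [hon, hgood] with v h1 h2 using mv_on' (hf j) τ h1 h2
    have h3 : eval₂ τ (fun j => x1 0 (Sum.inr j)) f ≠ 0 := by
      have h4 : (fun i => x1 0 (Sum.inr i)) = fun i => x 0 (Sum.inr i) := by
        funext i
        rw [hz1, Pi.zero_apply, Pi.single_zero, Pi.zero_apply, mul_zero, add_zero]
      rw [h4]
      exact h0
    obtain ⟨y, T', hT', hr, hT1, hT2, hz⟩ := ih (List.nodup_cons.1 hnd).2 x1 h1 h2 h3
    refine ⟨y, fun i => if i = j then tt else T' i, fun i => ?_, ?_, fun i hi => ?_, fun i hi => ?_,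
      fun v i => ?_⟩
    · show AnalyticAt L (if i = j then tt else T' i) 0
      by_cases hi : i = j
      · rw [if_pos hi]
        exact hta
      · rw [if_neg hi]
        exact hT' i
    · filter_upwards [hr, hgood] with v h1 h2 using ⟨sq g c (v j), h2, h1⟩
    · show (if i = j then tt else T' i) 0 ≠ 0
      by_cases hij : i = j
      · rw [if_pos hij]
        exact ht
      · rw [if_neg hij]
        exact hT1 i ((List.mem_cons.1 hi).resolve_left hij)
    · have hij : i ≠ j := fun h => hi (h ▸ List.mem_cons_self)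
      show (if i = j then tt else T' i) = _
      rw [if_neg hij]
      exact hT2 i fun h => hi (List.mem_cons_of_mem _ h)
    · show y v (Sum.inr i) = x v (Sum.inr i) + (if i = j then tt else T' i) v * v i
      rw [hz, hz1]
      by_cases hij : i = j
      · subst hij
        rw [if_pos rfl, Pi.single_eq_same, hT2 i hj]
        ring
      · rw [if_neg hij, Pi.single_eq_of_ne hij]
        ring

/-- **the local step** -/
theorem step' [CharZero K] [Nontrivial ι] (hf : ∀ j, f.degreeOf j ≤ 6) (ha : ∀ i, a i ≠ 0)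
    {x : ι ⊕ κ → L} (hx : On a f τ x) (h0 : eval₂ τ (fun j => x (Sum.inr j)) f ≠ 0) :
    ∀ᶠ z in 𝓝 (fun j => x (Sum.inr j)), ∃ y : ι ⊕ κ → L,
      Rch a f τ (Finset.univ : Finset κ).toList x y ∧ (fun j => y (Sum.inr j)) = z := by
  obtain ⟨y, T, hT, hr, hT1, -, hz⟩ := fam (τ := τ) hf ha (Finset.univ : Finset κ).toList
    (Finset.nodup_toList _) (fun _ => x) (fun s => analyticAt_const)
    (Filter.Eventually.of_forall fun _ => hx) h0
  have hT0 : ∀ i, T i 0 ≠ 0 := fun i => hT1 i (Finset.mem_toList.2 (Finset.mem_univ i))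
  have hH : HasStrictFDerivAt (fun (v : κ → L) i => T i v * v i)
      (ContinuousLinearMap.pi fun i => T i 0 • ContinuousLinearMap.proj (R := L)
        (φ := fun _ : κ => L) i) 0 := by
    rw [hasStrictFDerivAt_pi]
    intro i
    have h1 := (hT i).hasStrictFDerivAt
    have h2 := (ContinuousLinearMap.proj (R := L) (φ := fun _ : κ => L) i).hasStrictFDerivAt
      (x := 0)
    have h3 := h1.mul h2
    refine h3.congr_fderiv ?_
    ext w
    simp
  have hsurj : LinearMap.range ((ContinuousLinearMap.pi fun i => T i 0 •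
      ContinuousLinearMap.proj (R := L) (φ := fun _ : κ => L) i : (κ → L) →L[L] (κ → L)) :
        (κ → L) →ₗ[L] (κ → L)) = ⊤ := by
    rw [LinearMap.range_eq_top]
    intro w
    refine ⟨fun i => (T i 0)⁻¹ * w i, ?_⟩
    funext i
    show T i 0 * ((T i 0)⁻¹ * w i) = w i
    rw [← mul_assoc, mul_inv_cancel₀ (hT0 i), one_mul]
  have hmap := hH.map_nhds_eq_of_surj hsurj
  have h2 : (fun i => T i 0 * (0 : κ → L) i) = 0 := by
    funext i
    simp
  rw [h2] at hmap
  have himg := Filter.image_mem_map (m := fun (v : κ → L) i => T i v * v i) hr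
  rw [hmap] at himg
  have hc : Filter.Tendsto (fun z : κ → L => z - fun j => x (Sum.inr j))
      (𝓝 fun j => x (Sum.inr j)) (𝓝 0) := by
    have h3 : Continuous fun z : κ → L => z - fun j => x (Sum.inr j) :=
      continuous_id.sub continuous_const
    have h4 := h3.tendsto (fun j : κ => x (Sum.inr j))
    rw [sub_self] at h4
    exact h4
  filter_upwards [hc himg] with z hz'
  obtain ⟨v, hv, hvz⟩ := hz'
  refine ⟨y v, hv, ?_⟩
  funext i
  have h3 : T i v * v i = z i - x (Sum.inr i) := congrFun hvz i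
  rw [hz, h3]
  ring

end an

section final

variable {K ι κ S : Type} [Field K] [CharZero K] [Fintype ι] [Fintype κ] {a : ι → K}
  {f : MvPolynomial κ K} {L : S → Type} [∀ v, NontriviallyNormedField (L v)]
  {σ : ∀ v, K →+* L v}

/-- **the image of the closure is open** -/
theorem base [Finite S] [Nonempty S] [Nontrivial ι] [∀ v, CompleteSpace (L v)]
    (hf : ∀ j, f.degreeOf j ≤ 6) (hσ : DenseRange fun (x : K) (v : S) => σ v x)
    (ha : ∀ i, a i ≠ 0) :
    IsOpen {z : ∀ v, κ → L v | (∀ v, eval₂ (σ v) (z v) f ≠ 0) ∧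
      ∃ y ∈ closure (KP a f σ), (fun v j => y v (Sum.inr j)) = z} := by
  classical
  have hch : ∀ v, CharZero (L v) := fun v => charZero_of_injective_ringHom (σ v).injective
  rw [isOpen_iff_mem_nhds]
  rintro _ ⟨h0, x, hx, rfl⟩
  let U : ∀ v, Set (κ → L v) := fun v =>
    {z | (∃ y : ι ⊕ κ → L v, Rch a f (σ v) (Finset.univ : Finset κ).toList (x v) y ∧
      (fun j => y (Sum.inr j)) = z) ∧ eval₂ (σ v) z f ≠ 0}
  have hU : ∀ v, U v ∈ 𝓝 (fun j => x v (Sum.inr j)) := by
    intro v
    have h1 := step' hf ha (on_of_mem hx v) (h0 v)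
    have h2 : ∀ᶠ z in 𝓝 (fun j => x v (Sum.inr j)), eval₂ (σ v) z f ≠ 0 :=
      (cont2 (σ v) f).continuousAt.eventually_ne (h0 v)
    filter_upwards [h1, h2] with z h1 h2 using ⟨h1, h2⟩
  refine Filter.mem_of_superset (set_pi_mem_nhds (s := U) Set.finite_univ fun v _ => hU v) ?_
  intro z hz
  have h1 : ∀ v, z v ∈ U v := fun v => hz v (Set.mem_univ v)
  choose y hy hy' using fun v => (h1 v).1
  exact ⟨fun v => (h1 v).2, y, rch_mem hf hσ _ hx hy, funext hy'⟩

end final

end Pool.Agent.X95T.SX
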