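import Pool.Agent.X95T.NB1

/-!
# Conic bundles of degree six: connected sets
-/

set_option autoImplicit false
set_option linter.unusedSectionVars false

open MvPolynomial Topology

namespace Pool.Agent.X95T.SX

section sqrt

variable {L : Type} [NontriviallyNormedField L] [CompleteSpace L] [CharZero L]

/-- numbers close to one are squares of numbers close to one -/
lemma sq_nhds {N : Set L} (hN : N ∈ 𝓝 (1 : L)) : {u : L | ∃ s ∈ N, s ^ 2 = u} ∈ 𝓝 (1 : L) := by
  have h1 : HasStrictDerivAt (fun x : L => x ^ 2) (2 : L) 1 := by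
    have := hasStrictDerivAt_pow 2 (1 : L)
    simpa using this
  have h2 := h1.map_nhds_eq two_ne_zero
  rw [one_pow] at h2
  rw [← h2]
  exact Filter.image_mem_map hN

variable {K ι κ : Type} [Field K] [Fintype ι] {a : ι → K} {f : MvPolynomial κ K} {τ : K →+* L}

/-- local sections -/
lemma sec {y : ι ⊕ κ → L} (hy : On a f τ y) (h0 : eval₂ τ (fun j => y (Sum.inr j)) f ≠ 0)
    {N : Set (ι ⊕ κ → L)} (hN : N ∈ 𝓝 y) :
    ∀ᶠ z in 𝓝 (fun j => y (Sum.inr j)), eval₂ τ z f ≠ 0 ∧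
      ∃ y' ∈ N, On a f τ y' ∧ (fun j => y' (Sum.inr j)) = z := by
  -- the family of points
  let Φ : L × (κ → L) → ι ⊕ κ → L := fun p => Sum.elim (fun i => p.1 * y (Sum.inl i)) p.2
  have hΦ : Continuous Φ := by
    refine continuous_pi fun s => ?_
    rcases s with s | s
    · exact continuous_fst.mul continuous_const
    · exact (continuous_apply s).comp continuous_snd
  have hΦ0 : Φ (1, fun j => y (Sum.inr j)) = y := by
    funext s
    rcases s with s | s
    · exact one_mul _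
    · rfl
  have h1 : Φ ⁻¹' N ∈ 𝓝 ((1 : L), fun j => y (Sum.inr j)) :=
    hΦ.continuousAt.preimage_mem_nhds (by rw [hΦ0]; exact hN)
  obtain ⟨N1, hN1, N2, hN2, h12⟩ := mem_nhds_prod_iff.1 h1
  have h3 : Filter.Tendsto (fun z : κ → L => eval₂ τ z f / eval₂ τ (fun j => y (Sum.inr j)) f)
      (𝓝 fun j => y (Sum.inr j)) (𝓝 1) := by
    have h4 := ((cont2 τ f).div_const (eval₂ τ (fun j => y (Sum.inr j)) f)).tendsto
      (fun j => y (Sum.inr j))
    rwa [div_self h0] at h4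
  have h5 : ∀ᶠ z in 𝓝 (fun j => y (Sum.inr j)), eval₂ τ z f ≠ 0 :=
    (cont2 τ f).continuousAt.eventually_ne h0
  filter_upwards [h5, hN2, h3 (sq_nhds hN1)] with z h5 h6 h7
  obtain ⟨s, hs, hs2⟩ := h7
  refine ⟨h5, Φ (s, z), h12 ⟨hs, h6⟩, ?_, rfl⟩
  show B (fun i => τ (a i)) (fun i => s * y (Sum.inl i)) (fun i => s * y (Sum.inl i)) =
    eval₂ τ z f
  have h8 : B (fun i => τ (a i)) (fun i => y (Sum.inl i)) (fun i => y (Sum.inl i)) =
    eval₂ τ (fun j => y (Sum.inr j)) f := hy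
  rw [B_smul, B_comm, B_smul, h8]
  have h9 : s ^ 2 * eval₂ τ (fun j => y (Sum.inr j)) f = eval₂ τ z f := by
    rw [hs2, div_mul_cancel₀ _ h0]
  linear_combination h9

end sqrt

section final

variable {K ι κ S : Type} [Field K] [CharZero K] [Fintype ι] [Fintype κ] {a : ι → K}
  {f : MvPolynomial κ K} {L : S → Type} [∀ v, NontriviallyNormedField (L v)]
  {σ : ∀ v, K →+* L v}

/-- the complement of the image is open -/
theorem base_compl [Finite S] [∀ v, CompleteSpace (L v)] :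
    IsOpen {z : ∀ v, κ → L v | (∀ v, eval₂ (σ v) (z v) f ≠ 0) ∧
      ∃ y : ∀ v, ι ⊕ κ → L v, (∀ v, On a f (σ v) (y v)) ∧ y ∉ closure (KP a f σ) ∧
        (fun v j => y v (Sum.inr j)) = z} := by
  have hch : ∀ v, CharZero (L v) := fun v => by
    exact charZero_of_injective_ringHom (σ v).injective
  rw [isOpen_iff_mem_nhds]
  rintro _ ⟨h0, y, hy, hyC, rfl⟩
  have h1 : (closure (KP a f σ))ᶜ ∈ 𝓝 y := isClosed_closure.isOpen_compl.mem_nhds hyC
  rw [nhds_pi, Filter.mem_pi] at h1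
  obtain ⟨I, -, t, ht, hI⟩ := h1
  have h2 := fun v => sec (hy v) (h0 v) (ht v)
  refine Filter.mem_of_superset (set_pi_mem_nhds Set.finite_univ fun v _ => h2 v) ?_
  intro z hz
  have h3 := fun v => hz v (Set.mem_univ v)
  choose y' hy1 hy2 hy3 using fun v => (h3 v).2
  exact ⟨fun v => (h3 v).1, y', hy2, hI fun v _ => hy1 v, funext hy3⟩

/-- **connected sets** -/
theorem conn [Finite S] [Nonempty S] [Nontrivial ι] [∀ v, CompleteSpace (L v)]
    (hf : ∀ j, f.degreeOf j ≤ 6) (hσ : DenseRange fun (x : K) (v : S) => σ v x)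
    (ha : ∀ i, a i ≠ 0) {A : ∀ v, Set (κ → L v)} (hA : ∀ v, IsPreconnected (A v))
    (hA1 : ∀ v, ∀ z ∈ A v, eval₂ (σ v) z f ≠ 0 ∧ ∃ y : ι ⊕ κ → L v, On a f (σ v) y ∧
      (fun j => y (Sum.inr j)) = z) {x y : ∀ v, ι ⊕ κ → L v} (hx : x ∈ closure (KP a f σ))
    (hy : ∀ v, On a f (σ v) (y v)) (hxA : ∀ v, (fun j => x v (Sum.inr j)) ∈ A v)
    (hyA : ∀ v, (fun j => y v (Sum.inr j)) ∈ A v) : y ∈ closure (KP a f σ) := by
  have h1 := (isPreconnected_univ_pi hA).subset_left_of_subset_union (base hf hσ ha)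
    (base_compl (a := a) (f := f) (σ := σ)) ?_ ?_ ?_
  · obtain ⟨h2, y', hy', h3⟩ := h1 (show (fun v j => y v (Sum.inr j)) ∈ Set.univ.pi A from
      fun v _ => hyA v)
    exact fibre hσ ha hy' hy h2 fun v => congrFun h3 v
  · rw [Set.disjoint_left]
    rintro _ ⟨h2, y1, hy1, rfl⟩ ⟨-, y2, hy2, hy3, h3⟩
    exact hy3 (fibre hσ ha hy1 hy2 (fun v => by
      have h4 : (fun j => y2 v (Sum.inr j)) = fun j => y1 v (Sum.inr j) := congrFun h3 v
      rw [h4]
      exact h2 v) fun v => (congrFun h3 v).symm)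
  · intro z hz
    have h2 := fun v => hA1 v (z v) (hz v (Set.mem_univ v))
    choose y' hy1 hy2 using fun v => (h2 v).2
    by_cases h3 : y' ∈ closure (KP a f σ)
    · exact Or.inl ⟨fun v => (h2 v).1, y', h3, funext hy2⟩
    · exact Or.inr ⟨fun v => (h2 v).1, y', hy1, h3, funext hy2⟩
  · exact ⟨_, fun v _ => hxA v, fun v => (hA1 v _ (hxA v)).1, x, hx, rfl⟩

end final

section complex

variable {K ι κ : Type} [Field K] [CharZero K] [Fintype ι] [Fintype κ] {a : ι → K}
  {f : MvPolynomial κ K} {σ : K →+* ℂ}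

/-- lines in the complement of a hypersurface -/
lemma line {z z' : κ → ℂ} (hz : eval₂ σ z f ≠ 0) (hz' : eval₂ σ z' f ≠ 0) :
    ∃ A : Set (κ → ℂ), IsPreconnected A ∧ (∀ u ∈ A, eval₂ σ u f ≠ 0) ∧ z ∈ A ∧ z' ∈ A := by
  set P : Polynomial ℂ := (G f).map (eval₂Hom σ (Sum.elim z (z' - z))) with hP
  have hPe : ∀ t : ℂ, P.eval t = eval₂ σ (fun j => z j + t * (z' - z) j) f := fun t =>
    G_map σ z (z' - z) f t
  have hP0 : P ≠ 0 := by
    intro h
    apply hz
    have h1 := hPe 0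
    rw [h, Polynomial.eval_zero] at h1
    have h2 : (fun j => z j + 0 * (z' - z) j) = z := by
      funext j
      ring
    rw [h2] at h1
    exact h1.symm
  have h1 : IsPathConnected ({t : ℂ | P.eval t = 0}ᶜ) := by
    refine Set.Countable.isPathConnected_compl_of_one_lt_rank ?_ ?_
    · rw [Complex.rank_real_complex]
      exact Cardinal.one_lt_two
    · exact (Polynomial.finite_setOf_isRoot hP0).countable
  have h2 : Continuous fun (t : ℂ) j => z j + t * (z' - z) j :=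
    continuous_pi fun j => by fun_prop
  refine ⟨_, h1.isConnected.isPreconnected.image _ h2.continuousOn, ?_, ⟨0, ?_, ?_⟩, ⟨1, ?_, ?_⟩⟩
  · rintro _ ⟨t, ht, rfl⟩
    rw [← hPe]
    exact ht
  · show P.eval 0 ≠ 0
    rw [hPe]
    have h3 : (fun j => z j + 0 * (z' - z) j) = z := by
      funext j
      ring
    rw [h3]
    exact hz
  · funext j
    ring
  · show P.eval 1 ≠ 0
    rw [hPe]
    have h3 : (fun j => z j + 1 * (z' - z) j) = z' := by
      funext j
      rw [Pi.sub_apply]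
      ring
    rw [h3]
    exact hz'
  · funext j
    show z j + 1 * (z' j - z j) = z' j
    ring

/-- the fibres over the complex numbers are not empty -/
lemma fib_c [Nonempty ι] (ha : ∀ i, a i ≠ 0) (z : κ → ℂ) :
    ∃ y : ι ⊕ κ → ℂ, On a f σ y ∧ (fun j => y (Sum.inr j)) = z := by
  classical
  obtain ⟨i0⟩ := ‹Nonempty ι›
  obtain ⟨s, hs⟩ := IsAlgClosed.exists_pow_nat_eq (eval₂ σ z f / σ (a i0)) (n := 2) (by norm_num)
  refine ⟨Sum.elim (fun i => s * (Pi.single i0 (1 : ℂ) : ι → ℂ) i) z, ?_, rfl⟩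
  show B (fun i => σ (a i)) (fun i => s * (Pi.single i0 (1 : ℂ) : ι → ℂ) i)
    (fun i => s * (Pi.single i0 (1 : ℂ) : ι → ℂ) i) = eval₂ σ z f
  rw [B_smul, B_comm, B_smul, B_single, Pi.single_eq_same]
  have h1 : σ (a i0) ≠ 0 := (map_ne_zero σ).2 (ha i0)
  have h2 : s ^ 2 * σ (a i0) = eval₂ σ z f := by
    rw [hs, div_mul_cancel₀ _ h1]
  linear_combination h2

end complex

end Pool.Agent.X95T.SX

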