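import Pool.Agent.X95T.NB2
import Pool.Agent.X95T.MA1

/-!
# Conic bundles of degree six: Zariski density of the rational points
-/

set_option autoImplicit false
set_option linter.unusedSectionVars false

open MvPolynomial Topology

namespace Pool.Agent.X95T.SX

open Pool.Agent.X95T.WQ (rz Dt Dt_eval on_V_iff split nonsq bl zero_of_nhds)

variable {K ι κ : Type} [Field K] [CharZero K] [Fintype ι] [Fintype κ] {a : ι → K}
  {f : MvPolynomial κ K} {L : Type} [NontriviallyNormedField L] [CompleteSpace L] {σ : K →+* L}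

/-- local points near a rational point are limits of rational points -/
lemma near [Nontrivial ι] (hf : ∀ j, f.degreeOf j ≤ 6) (hσ : DenseRange σ) (ha : ∀ i, a i ≠ 0)
    {P : ι ⊕ κ → K} (hP : On a f (RingHom.id K) P) (hP0 : eval (fun j => P (Sum.inr j)) f ≠ 0) :
    ∀ᶠ y in 𝓝 (fun s => σ (P s)), On a f σ y →
      y ∈ closure {x : ι ⊕ κ → L | ∃ q : ι ⊕ κ → K, On a f (RingHom.id K) q ∧
        x = fun s => σ (q s)} := by
  have hd := dense_diag (S := Unit) (L := fun _ => L) (σ := fun _ => σ) (fun _ => hσ)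
    fun v v' h => absurd rfl h
  have hW := base (S := Unit) (L := fun _ => L) (σ := fun _ => σ) hf hd ha
  have h0 : eval₂ σ (fun j => σ (P (Sum.inr j))) f ≠ 0 := by
    have h3 : eval₂ σ (fun j => σ (P (Sum.inr j))) f = σ (eval (fun j => P (Sum.inr j)) f) := by
      rw [eval, coe_eval₂Hom, ← RingHom.coe_coe σ, eval₂_comp_left]
      rfl
    rw [h3]
    exact (map_ne_zero σ).2 hP0
  have hc : Continuous fun (y : ι ⊕ κ → L) (_ : Unit) (j : κ) => y (Sum.inr j) :=
    continuous_pi fun _ => continuous_pi fun j => continuous_apply (Sum.inr j)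
  have hmem := hW.mem_nhds (x := fun (_ : Unit) (j : κ) => σ (P (Sum.inr j)))
    ⟨fun _ => h0, fun _ s => σ (P s), subset_closure ⟨P, hP, rfl⟩, rfl⟩
  have h1 := hc.continuousAt.preimage_mem_nhds (x := fun s => σ (P s)) hmem
  filter_upwards [h1] with y hy hon
  obtain ⟨h2, y', hy', h3⟩ := hy
  have h4 := fibre (S := Unit) (L := fun _ => L) (σ := fun _ => σ) (y := fun _ => y) hd ha hy'
    (fun _ => hon) h2 fun v => congrFun h3 v
  refine map_mem_closure (f := fun x : (∀ _ : Unit, ι ⊕ κ → L) => x ()) (continuous_apply ()) h4 ?_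
  rintro _ ⟨q, hq, rfl⟩
  exact ⟨q, hq, rfl⟩

/-- **local Zariski density** -/
theorem zd [Nontrivial ι] (hf : ∀ j, f.degreeOf j ≤ 6) (hσ : DenseRange σ) (ha : ∀ i, a i ≠ 0)
    {P : ι ⊕ κ → K} (hP : On a f (RingHom.id K) P) (hP0 : eval (fun j => P (Sum.inr j)) f ≠ 0)
    {U : Set (ι ⊕ κ → L)} (hU : U ∈ 𝓝 (fun s => σ (P s))) {g : MvPolynomial (ι ⊕ κ) K}
    (hg : ∀ y : ι ⊕ κ → K, On a f (RingHom.id K) y → (fun s => σ (y s)) ∈ U → eval y g = 0)
    (k : Type) [Field k] [Algebra K k] (Z : ι ⊕ κ → k) (hZ : On a f (algebraMap K k) Z) :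
    aeval Z g = 0 := by
  classical
  have hch : CharZero L := charZero_of_injective_ringHom σ.injective
  letI : Algebra K L := σ.toAlgebra
  -- the values at local points
  have h1 : ∀ᶠ y in 𝓝 (fun s => σ (P s)), On a f σ y → eval₂ σ y g = 0 := by
    filter_upwards [near hf hσ ha hP hP0, interior_mem_nhds.2 hU] with y hy hyU hon
    by_contra hne
    have h2 : {x : ι ⊕ κ → L | eval₂ σ x g ≠ 0} ∈ 𝓝 y :=
      (cont2 σ g).continuousAt.eventually_ne hne
    obtain ⟨x, ⟨hx1, hx2⟩, q, hq, rfl⟩ := mem_closure_iff_nhds.1 (hy hon) _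
      (Filter.inter_mem h2 (mem_interior_iff_mem_nhds.1 hyU))
    apply hx1
    have h3 : eval₂ σ (fun s => σ (q s)) g = σ (eval q g) := by
      rw [eval, coe_eval₂Hom, ← RingHom.coe_coe σ, eval₂_comp_left]
      rfl
    rw [h3, hg q hq hx2, map_zero]
  -- a coordinate which is not zero
  have hf0 : f ≠ 0 := by
    rintro rfl
    exact hP0 (map_zero _)
  have hB : ∑ i, a i * P (Sum.inl i) * P (Sum.inl i) ≠ 0 := by
    have h2 : ∑ i, a i * P (Sum.inl i) * P (Sum.inl i) = eval (fun j => P (Sum.inr j)) f := hP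
    rw [h2]
    exact hP0
  obtain ⟨i0, -, hi0⟩ := Finset.exists_ne_zero_of_sum_ne_zero hB
  have hi0 : P (Sum.inl i0) ≠ 0 := right_ne_zero_of_mul hi0
  obtain ⟨i1, hi1⟩ := exists_ne i0
  obtain ⟨g0, g1, hgg⟩ := split a f i0 g
  -- elimination
  have hPL : On a f σ fun s => σ (P s) := by
    have h2 : B a (fun i => P (Sum.inl i)) (fun i => P (Sum.inl i)) =
      eval₂ (RingHom.id K) (fun j => P (Sum.inr j)) f := hP
    show B (fun i => σ (a i)) (fun i => σ (P (Sum.inl i))) (fun i => σ (P (Sum.inl i))) =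
      eval₂ σ (fun j => σ (P (Sum.inr j))) f
    rw [← B_map, h2, ← RingHom.coe_coe σ, eval₂_comp_left]
    rfl
  have hD0 : σ (P (Sum.inl i0)) ^ 2 = aeval (rz i0 fun s => σ (P s)) (Dt a f i0) :=
    (on_V_iff a f i0 (ha i0) fun s => σ (P s)).1 hPL
  have hD0' : aeval (rz i0 fun s => σ (P s)) (Dt a f i0) ≠ 0 := by
    rw [← hD0]
    exact pow_ne_zero _ ((map_ne_zero σ).2 hi0)
  let Φ : L × ({i // i ≠ i0} ⊕ κ → L) → ι ⊕ κ → L := fun p =>
    Sum.elim (fun i => if h : i = i0 then p.1 * σ (P (Sum.inl i0)) else p.2 (Sum.inl ⟨i, h⟩))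
      fun j => p.2 (Sum.inr j)
  have hΦ : Continuous Φ := by
    refine continuous_pi fun s => ?_
    rcases s with s | s
    · show Continuous fun p : L × ({i // i ≠ i0} ⊕ κ → L) =>
        if h : s = i0 then p.1 * σ (P (Sum.inl i0)) else p.2 (Sum.inl ⟨s, h⟩)
      by_cases h : s = i0
      · simp only [dif_pos h]
        exact continuous_fst.mul continuous_const
      · simp only [dif_neg h]
        exact (continuous_apply _).comp continuous_snd
    · exact (continuous_apply (Sum.inr s)).comp continuous_snd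
  have hΦ0 : Φ (1, rz i0 fun s => σ (P s)) = fun s => σ (P s) := by
    funext s
    rcases s with s | s
    · show (if h : s = i0 then 1 * σ (P (Sum.inl i0)) else σ (P (Sum.inl s))) = _
      by_cases h : s = i0
      · rw [dif_pos h, h, one_mul]
      · rw [dif_neg h]
    · rfl
  have h2 : Φ ⁻¹' {y | On a f σ y → eval₂ σ y g = 0} ∈ 𝓝 ((1 : L), rz i0 fun s => σ (P s)) :=
    hΦ.continuousAt.preimage_mem_nhds (by rw [hΦ0]; exact h1)
  obtain ⟨N1, hN1, N2, hN2, h12⟩ := mem_nhds_prod_iff.1 h2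
  have hcD : Continuous fun e : {i // i ≠ i0} ⊕ κ → L => aeval e (Dt a f i0) := cont2 σ _
  have h3 : Filter.Tendsto (fun e : {i // i ≠ i0} ⊕ κ → L => aeval e (Dt a f i0) /
      aeval (rz i0 fun s => σ (P s)) (Dt a f i0)) (𝓝 (rz i0 fun s => σ (P s))) (𝓝 1) := by
    have h4 := (hcD.div_const (aeval (rz i0 fun s => σ (P s)) (Dt a f i0))).tendsto
      (rz i0 fun s => σ (P s))
    rwa [div_self hD0'] at h4
  have h5 : {e : {i // i ≠ i0} ⊕ κ → L | aeval e (g0 ^ 2 - g1 ^ 2 * Dt a f i0) = 0} ∈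
      𝓝 (rz i0 fun s => σ (P s)) := by
    filter_upwards [hN2, h3 (sq_nhds hN1)] with e he1 he2
    obtain ⟨s, hs, hs2⟩ := he2
    have hi : Φ (s, e) (Sum.inl i0) = s * σ (P (Sum.inl i0)) := dif_pos rfl
    have hrz : rz i0 (Φ (s, e)) = e := by
      funext t
      rcases t with t | t
      · show (if h : t.1 = i0 then s * σ (P (Sum.inl i0)) else e (Sum.inl ⟨t.1, h⟩)) = _
        rw [dif_neg t.2]
      · rfl
    have h6 : Φ (s, e) (Sum.inl i0) ^ 2 = aeval (rz i0 (Φ (s, e))) (Dt a f i0) := by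
      rw [hi, hrz, mul_pow, hD0, hs2, div_mul_cancel₀ _ hD0']
    have h7 : On a f σ (Φ (s, e)) := (on_V_iff a f i0 (ha i0) _).2 h6
    have h8 : aeval (Φ (s, e)) g = 0 := h12 (Set.mk_mem_prod hs he1) h7
    rw [hgg L _ h6, hrz] at h8
    rw [hrz] at h6
    show aeval e (g0 ^ 2 - g1 ^ 2 * Dt a f i0) = 0
    rw [map_sub, map_mul, map_pow, map_pow, ← h6]
    linear_combination (aeval e g0 - aeval e g1 * Φ (s, e) (Sum.inl i0)) * h8
  have h6 : g0 ^ 2 - g1 ^ 2 * Dt a f i0 = 0 := by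
    refine zero_of_nhds hσ h5 fun e he => ?_
    have h7 : eval₂ σ (fun i => σ (e i)) (g0 ^ 2 - g1 ^ 2 * Dt a f i0) = 0 := he
    have h8 : eval₂ σ (fun i => σ (e i)) (g0 ^ 2 - g1 ^ 2 * Dt a f i0) =
        σ (eval e (g0 ^ 2 - g1 ^ 2 * Dt a f i0)) := by
      rw [eval, coe_eval₂Hom, ← RingHom.coe_coe σ, eval₂_comp_left]
      rfl
    rw [h8] at h7
    exact (map_eq_zero σ).1 h7
  have hg1 : g1 = 0 := nonsq a f i0 hf0 ha hi1 (u := g0) (by linear_combination h6)
  have hg0 : g0 = 0 := by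
    rw [hg1] at h6
    have : g0 ^ 2 = 0 := by linear_combination h6
    exact pow_eq_zero_iff two_ne_zero |>.1 this
  rw [hgg k Z ((on_V_iff a f i0 (ha i0) Z).1 hZ), hg0, hg1]
  simp

end Pool.Agent.X95T.SX
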