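import Mathlib

/-!
# Contact of order seven with a polynomial of degree eight: the explicit solution
-/

set_option autoImplicit false

namespace Pool.Agent.X95T.OC

variable {K : Type} [Field K] [CharZero K]

/-- coefficients: `a`, `g 2, ..., g 8`, parameter `s` -/
def x2 (a : K) (g : ℕ → K) (s : K) : K := (g 2 + a * s ^ 2) / 2
def rr (a : K) (g : ℕ → K) (s : K) : K := s * (g 2 - a * s ^ 2) / 4
def EE (a : K) (g : ℕ → K) (s : K) : K := g 3 * (a * s ^ 2 - g 2) / 2 + g 5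
def CC (a : K) (g : ℕ → K) (s : K) : K :=
  a * s ^ 2 * x2 a g s ^ 2 + x2 a g s * g 4 - x2 a g s ^ 3 + g 3 ^ 2 / 4 - g 6 -
    a * (s * (x2 a g s + a * s ^ 2) / 2) ^ 2
def tt (a : K) (g : ℕ → K) (s : K) : K := -(s * CC a g s) / EE a g s
def x3 (a : K) (g : ℕ → K) (s : K) : K := g 3 / 2 + a * s * tt a g s
def x4 (a : K) (g : ℕ → K) (s : K) : K :=
  (g 4 - x2 a g s ^ 2 + a * tt a g s ^ 2) / 2 + a * s * rr a g s
def y4 (a : K) (g : ℕ → K) (s : K) : K :=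
  (x2 a g s * g 3 - g 5) / (2 * (a * s)) + tt a g s * (x2 a g s + a * s ^ 2) / 2
def AA (a : K) (g : ℕ → K) (s : K) : K :=
  2 * x3 a g s * x4 a g s - 2 * a * rr a g s * y4 a g s - g 7
def BB (a : K) (g : ℕ → K) (s : K) : K := x4 a g s ^ 2 - a * y4 a g s ^ 2 - g 8

lemma h5 {a : K} {g : ℕ → K} {s : K} (ha : a ≠ 0) (hs : s ≠ 0) :
    2 * x2 a g s * x3 a g s - a * (2 * s * y4 a g s + 2 * tt a g s * rr a g s) = g 5 := by
  unfold x3 y4 rr x2
  field_simp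
  ring

lemma h6 {a : K} {g : ℕ → K} {s : K} (ha : a ≠ 0) (hs : s ≠ 0) (hE : EE a g s ≠ 0) :
    2 * x2 a g s * x4 a g s + x3 a g s ^ 2 - a * (2 * tt a g s * y4 a g s + rr a g s ^ 2) =
      g 6 := by
  have h1 : tt a g s * EE a g s = -(s * CC a g s) := by
    unfold tt
    field_simp
  have h2 : s * (2 * x2 a g s * x4 a g s + x3 a g s ^ 2 - a * (2 * tt a g s * y4 a g s + rr a g s ^ 2) - g 6) =
      tt a g s * EE a g s + s * CC a g s := by
    unfold x4 x3 y4 CC EE rr x2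
    generalize tt a g s = t
    field_simp
    ring
  rw [h1] at h2
  have h3 : s * (2 * x2 a g s * x4 a g s + x3 a g s ^ 2 -
      a * (2 * tt a g s * y4 a g s + rr a g s ^ 2) - g 6) = 0 := by
    rw [h2]
    ring
  rcases mul_eq_zero.1 h3 with h | h
  · exact absurd h hs
  · linear_combination h

/-- the norm -/
theorem core {a : K} {g : ℕ → K} {s τ : K} (ha : a ≠ 0) (hs : s ≠ 0) (hE : EE a g s ≠ 0)
    (hτ : AA a g s + BB a g s * τ = 0) :
    (1 + x2 a g s * τ ^ 2 + x3 a g s * τ ^ 3 + x4 a g s * τ ^ 4) ^ 2 -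
      a * (s * τ + tt a g s * τ ^ 2 + rr a g s * τ ^ 3 + y4 a g s * τ ^ 4) ^ 2 =
    1 + g 2 * τ ^ 2 + g 3 * τ ^ 3 + g 4 * τ ^ 4 + g 5 * τ ^ 5 + g 6 * τ ^ 6 + g 7 * τ ^ 7 +
      g 8 * τ ^ 8 := by
  have e2 : 2 * x2 a g s - a * s ^ 2 = g 2 := by unfold x2; ring
  have e3 : 2 * x3 a g s - 2 * a * s * tt a g s = g 3 := by unfold x3; ring
  have e4 : 2 * x4 a g s + x2 a g s ^ 2 - a * (tt a g s ^ 2 + 2 * s * rr a g s) = g 4 := by
    unfold x4; ring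
  have e5 := h5 (g := g) ha hs
  have e6 := h6 ha hs hE
  unfold AA BB at hτ
  linear_combination τ ^ 2 * e2 + τ ^ 3 * e3 + τ ^ 4 * e4 + τ ^ 5 * e5 + τ ^ 6 * e6 + τ ^ 7 * hτ

end Pool.Agent.X95T.OC
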