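import Pool.Agent.X95T.OA1

/-!
# Contact of order seven with a polynomial of degree eight: infinitely many values
-/

set_option autoImplicit false

open Polynomial

namespace Pool.Agent.X95T.OC

variable {K : Type} [Field K] [CharZero K]

def Dm (P : K[X]) (d : ℕ) (c : K) : Prop := P.natDegree ≤ d ∧ P.coeff d = c

omit [CharZero K] in
lemma Dm.mul {P Q : K[X]} {d e : ℕ} {c c' : K} (h : Dm P d c) (h' : Dm Q e c') :
    Dm (P * Q) (d + e) (c * c') :=
  ⟨natDegree_mul_le_of_le h.1 h'.1, by rw [coeff_mul_add_eq_of_natDegree_le h.1 h'.1, h.2, h'.2]⟩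

omit [CharZero K] in
lemma Dm.add {P Q : K[X]} {d : ℕ} {c c' : K} (h : Dm P d c) (h' : Dm Q d c') :
    Dm (P + Q) d (c + c') :=
  ⟨natDegree_add_le_of_degree_le h.1 h'.1, by rw [coeff_add, h.2, h'.2]⟩

omit [CharZero K] in
lemma Dm.neg {P : K[X]} {d : ℕ} {c : K} (h : Dm P d c) : Dm (-P) d (-c) :=
  ⟨by rw [natDegree_neg]; exact h.1, by rw [coeff_neg, h.2]⟩

omit [CharZero K] in
lemma Dm.sub {P Q : K[X]} {d : ℕ} {c c' : K} (h : Dm P d c) (h' : Dm Q d c') :
    Dm (P - Q) d (c - c') := by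
  rw [sub_eq_add_neg, sub_eq_add_neg]
  exact h.add h'.neg

omit [CharZero K] in
lemma Dm.low {Q : K[X]} {d e : ℕ} (h : Q.natDegree ≤ e) (he : e < d) : Dm Q d 0 :=
  ⟨h.trans he.le, coeff_eq_zero_of_natDegree_lt (lt_of_le_of_lt h he)⟩

omit [CharZero K] in
lemma Dm.C (c : K) : Dm (C c) 0 c := ⟨(natDegree_C c).le, coeff_C_zero⟩

omit [CharZero K] in
lemma Dm.X : Dm (X : K[X]) 1 1 := ⟨natDegree_X_le, coeff_X_one⟩

omit [CharZero K] in
lemma Dm.ne {P : K[X]} {d : ℕ} {c : K} (h : Dm P d c) (hc : c ≠ 0) : P ≠ 0 := by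
  rintro rfl
  exact hc (by rw [← h.2, coeff_zero])

omit [CharZero K] in
lemma Dm.mono {P : K[X]} {d d' : ℕ} {c c' : K} (h : Dm P d c) (hd : d = d') (hc : c = c') :
    Dm P d' c' := by subst hd hc; exact h

noncomputable section

variable (a : K) (g : ℕ → K)

def P2 : K[X] := C (g 2 / 2) + C (a / 2) * (X * X)
def PR : K[X] := C (g 2 / 4) * X - C (a / 4) * (X * (X * X))
def PE : K[X] := C (g 5 - g 3 * g 2 / 2) + C (a * g 3 / 2) * (X * X)
def PC : K[X] := C a * (X * X) * (P2 a g * P2 a g) + C (g 4) * P2 a g - P2 a g * (P2 a g * P2 a g) +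
  C (g 3 ^ 2 / 4 - g 6) - C (a / 4) * ((X * (P2 a g + C a * (X * X))) *
    (X * (P2 a g + C a * (X * X))))
def PT : K[X] := -(X * PC a g)
def P3 : K[X] := C (g 3 / 2) * PE a g + C a * (X * PT a g)
def P4 : K[X] := C (1 / 2) * (PE a g * PE a g * (C (g 4) - P2 a g * P2 a g +
  C (2 * a) * (X * PR a g)) + C a * (PT a g * PT a g))
def PY : K[X] := C (1 / 2) * (PE a g * (C (g 3) * P2 a g - C (g 5)) +
  C a * (X * (PT a g * (P2 a g + C a * (X * X)))))
def QA : K[X] := C (2 * a) * (X * (P3 a g * P4 a g)) -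
  C (2 * a) * (PE a g * PE a g * (PR a g * PY a g)) -
  C (a * g 7) * (X * (PE a g * (PE a g * PE a g)))
def QB : K[X] := C (a ^ 2) * ((X * P4 a g) * (X * P4 a g)) -
  C a * ((PE a g * PY a g) * (PE a g * PY a g)) -
  C (a ^ 2 * g 8) * ((X * (PE a g * PE a g)) * (X * (PE a g * PE a g)))

end

variable (a : K) (g : ℕ → K)

lemma e_P2 (s : K) : (P2 a g).eval s = x2 a g s := by unfold P2 x2; simp; ring
lemma e_PR (s : K) : (PR a g).eval s = rr a g s := by unfold PR rr; simp; ring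
lemma e_PE (s : K) : (PE a g).eval s = EE a g s := by unfold PE EE; simp; ring
lemma e_PC (s : K) : (PC a g).eval s = CC a g s := by
  unfold PC CC
  simp only [eval_add, eval_sub, eval_mul, eval_C, eval_X, e_P2]
  ring
lemma e_PT {s : K} (hE : EE a g s ≠ 0) : (PT a g).eval s = EE a g s * tt a g s := by
  unfold PT tt
  simp only [eval_neg, eval_mul, eval_X, e_PC]
  field_simp
lemma e_P3 {s : K} (hE : EE a g s ≠ 0) : (P3 a g).eval s = EE a g s * x3 a g s := by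
  unfold P3 x3
  simp only [eval_add, eval_mul, eval_X, eval_C, e_PE, e_PT a g hE]
  ring
lemma e_P4 {s : K} (hE : EE a g s ≠ 0) : (P4 a g).eval s = EE a g s ^ 2 * x4 a g s := by
  unfold P4 x4
  simp only [eval_add, eval_sub, eval_mul, eval_X, eval_C, e_PE, e_PT a g hE, e_P2, e_PR]
  ring
lemma e_PY {s : K} (ha : a ≠ 0) (hs : s ≠ 0) (hE : EE a g s ≠ 0) :
    (PY a g).eval s = a * s * EE a g s * y4 a g s := by
  unfold PY y4
  simp only [eval_add, eval_sub, eval_mul, eval_X, eval_C, e_PE, e_PT a g hE, e_P2]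
  field_simp
lemma e_QA {s : K} (ha : a ≠ 0) (hs : s ≠ 0) (hE : EE a g s ≠ 0) :
    (QA a g).eval s = EE a g s ^ 3 * (a * s) * AA a g s := by
  unfold QA AA
  simp only [eval_sub, eval_mul, eval_X, eval_C, e_PE, e_P3 a g hE, e_P4 a g hE,
    e_PY a g ha hs hE, e_PR]
  ring
lemma e_QB {s : K} (ha : a ≠ 0) (hs : s ≠ 0) (hE : EE a g s ≠ 0) :
    (QB a g).eval s = EE a g s ^ 4 * (a * s) ^ 2 * BB a g s := by
  unfold QB BB
  simp only [eval_sub, eval_mul, eval_X, eval_C, e_PE, e_P4 a g hE, e_PY a g ha hs hE]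
  ring

omit [CharZero K] in
lemma XX : Dm (X * X : K[X]) 2 1 := (Dm.X.mul Dm.X).mono rfl (by ring)
lemma d_P2 : Dm (P2 a g) 2 (a / 2) := by
  unfold P2
  exact ((Dm.low (Dm.C _).1 (by norm_num)).add ((Dm.C (a / 2)).mul XX)).mono rfl (by ring)
lemma d_PE : (PE a g).natDegree ≤ 2 := by
  unfold PE
  exact ((Dm.low (Dm.C _).1 (by norm_num)).add ((Dm.C (a * g 3 / 2)).mul XX)).1
lemma d_PR : (PR a g).natDegree ≤ 3 := by
  unfold PR
  exact ((Dm.low ((Dm.C (g 2 / 4)).mul Dm.X).1 (by norm_num)).sub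
    ((Dm.C (a / 4)).mul (Dm.X.mul XX))).1
lemma d_P2' : Dm (P2 a g + C a * (X * X)) 2 (3 * a / 2) :=
  ((d_P2 a g).add ((Dm.C a).mul XX)).mono rfl (by ring)
lemma d_PC : Dm (PC a g) 6 (-7 * a ^ 3 / 16) := by
  unfold PC
  have h1 := ((Dm.C a).mul XX).mul ((d_P2 a g).mul (d_P2 a g))
  have h2 : Dm (C (g 4) * P2 a g) 6 0 := Dm.low ((Dm.C (g 4)).mul (d_P2 a g)).1 (by norm_num)
  have h3 := (d_P2 a g).mul ((d_P2 a g).mul (d_P2 a g))
  have h4 : Dm (C (g 3 ^ 2 / 4 - g 6)) 6 0 := Dm.low (Dm.C _).1 (by norm_num)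
  have h5 := (Dm.C (a / 4)).mul ((Dm.X.mul (d_P2' a g)).mul (Dm.X.mul (d_P2' a g)))
  exact ((((h1.add h2).sub h3).add h4).sub h5).mono rfl (by ring)
lemma d_PT : Dm (PT a g) 7 (7 * a ^ 3 / 16) := by
  unfold PT
  exact (Dm.X.mul (d_PC a g)).neg.mono rfl (by ring)
lemma d_P3 : Dm (P3 a g) 8 (7 * a ^ 4 / 16) := by
  unfold P3
  have h1 : Dm (C (g 3 / 2) * PE a g) 8 0 :=
    Dm.low (natDegree_mul_le_of_le (Dm.C _).1 (d_PE a g)) (by norm_num)
  exact (h1.add ((Dm.C a).mul (Dm.X.mul (d_PT a g)))).mono rfl (by ring)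
lemma d_P4 : Dm (P4 a g) 14 (a * (7 * a ^ 3 / 16) ^ 2 / 2) := by
  unfold P4
  have h0 : (C (g 4) - P2 a g * P2 a g + C (2 * a) * (X * PR a g)).natDegree ≤ 4 := by
    refine natDegree_add_le_of_degree_le ((natDegree_sub_le_of_le (Dm.C (g 4)).1
      (natDegree_mul_le_of_le (d_P2 a g).1 (d_P2 a g).1)).trans (by norm_num)) ?_
    exact (natDegree_mul_le_of_le (Dm.C _).1 (natDegree_mul_le_of_le Dm.X.1 (d_PR a g)))
  have h1 : Dm (PE a g * PE a g * (C (g 4) - P2 a g * P2 a g + C (2 * a) * (X * PR a g))) 14 0 :=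
    Dm.low (natDegree_mul_le_of_le (natDegree_mul_le_of_le (d_PE a g) (d_PE a g)) h0) (by norm_num)
  exact ((Dm.C (1 / 2)).mul (h1.add ((Dm.C a).mul ((d_PT a g).mul (d_PT a g))))).mono rfl (by ring)
lemma d_PY : (PY a g).natDegree ≤ 10 := by
  unfold PY
  have h0 : (C (g 3) * P2 a g - C (g 5)).natDegree ≤ 2 :=
    (natDegree_sub_le_of_le (natDegree_mul_le_of_le (Dm.C _).1 (d_P2 a g).1)
      (Dm.C (g 5)).1).trans (by norm_num)
  have h1 : (PE a g * (C (g 3) * P2 a g - C (g 5))).natDegree ≤ 10 :=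
    (natDegree_mul_le_of_le (d_PE a g) h0).trans (by norm_num)
  have h2 := ((Dm.C a).mul (Dm.X.mul ((d_PT a g).mul (d_P2' a g)))).1
  exact natDegree_mul_le_of_le (Dm.C _).1 (natDegree_add_le_of_degree_le h1 h2)
lemma d_QA : Dm (QA a g) 23 (a ^ 3 * (7 * a ^ 3 / 16) ^ 3) := by
  unfold QA
  have h1 := (Dm.C (2 * a)).mul (Dm.X.mul ((d_P3 a g).mul (d_P4 a g)))
  have h2 : Dm (C (2 * a) * (PE a g * PE a g * (PR a g * PY a g))) 23 0 :=
    Dm.low (natDegree_mul_le_of_le (Dm.C _).1 (natDegree_mul_le_of_le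
      (natDegree_mul_le_of_le (d_PE a g) (d_PE a g)) (natDegree_mul_le_of_le (d_PR a g)
        (d_PY a g)))) (by norm_num)
  have h3 : Dm (C (a * g 7) * (X * (PE a g * (PE a g * PE a g)))) 23 0 :=
    Dm.low (natDegree_mul_le_of_le (Dm.C _).1 (natDegree_mul_le_of_le Dm.X.1
      (natDegree_mul_le_of_le (d_PE a g) (natDegree_mul_le_of_le (d_PE a g) (d_PE a g)))))
        (by norm_num)
  exact ((h1.sub h2).sub h3).mono rfl (by ring)
lemma d_QB : Dm (QB a g) 30 (a ^ 2 * (a * (7 * a ^ 3 / 16) ^ 2 / 2) ^ 2) := by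
  unfold QB
  have h1 := (Dm.C (a ^ 2)).mul ((Dm.X.mul (d_P4 a g)).mul (Dm.X.mul (d_P4 a g)))
  have h4 := natDegree_mul_le_of_le (d_PE a g) (d_PY a g)
  have h2 : Dm (C a * ((PE a g * PY a g) * (PE a g * PY a g))) 30 0 :=
    Dm.low (natDegree_mul_le_of_le (Dm.C _).1 (natDegree_mul_le_of_le h4 h4)) (by norm_num)
  have h5 := natDegree_mul_le_of_le Dm.X.1 (natDegree_mul_le_of_le (d_PE a g) (d_PE a g))
  have h3 : Dm (C (a ^ 2 * g 8) * ((X * (PE a g * PE a g)) * (X * (PE a g * PE a g)))) 30 0 :=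
    Dm.low (natDegree_mul_le_of_le (Dm.C _).1 (natDegree_mul_le_of_le h5 h5)) (by norm_num)
  exact ((h1.sub h2).sub h3).mono rfl (by ring)

/-- the set of values -/
theorem inf (ha : a ≠ 0) (hg : g 3 ≠ 0 ∨ g 5 ≠ 0) :
    {τ : K | ∃ x y : K, x ^ 2 - a * y ^ 2 = 1 + g 2 * τ ^ 2 + g 3 * τ ^ 3 + g 4 * τ ^ 4 +
      g 5 * τ ^ 5 + g 6 * τ ^ 6 + g 7 * τ ^ 7 + g 8 * τ ^ 8}.Infinite := by
  have hE : PE a g ≠ 0 := by
    intro h
    have h0 : g 3 = 0 := by
      have h1 := congrArg (fun P => P.coeff 2) h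
      simp only [PE, coeff_add, coeff_zero] at h1
      rw [show (X * X : K[X]) = X ^ 2 by ring, coeff_C_mul_X_pow, if_pos rfl,
        coeff_C_of_ne_zero (by norm_num), zero_add] at h1
      have h2 : a * g 3 = 0 := by linear_combination 2 * h1
      exact (mul_eq_zero.1 h2).resolve_left ha
    have h5 : g 5 = 0 := by
      have h1 := congrArg (fun P => P.eval 0) h
      simp only [PE, eval_add, eval_mul, eval_C, eval_X, eval_zero] at h1
      rw [h0] at h1
      linear_combination h1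
    exact hg.elim (fun h => h h0) (fun h => h h5)
  have hQB : QB a g ≠ 0 := (d_QB a g).ne (by
    refine mul_ne_zero (pow_ne_zero _ ha) (pow_ne_zero _ (div_ne_zero (mul_ne_zero ha
      (pow_ne_zero _ (div_ne_zero (mul_ne_zero (by norm_num) (pow_ne_zero _ ha)) (by norm_num))))
        (by norm_num))))
  have hQA : QA a g ≠ 0 := (d_QA a g).ne (by
    refine mul_ne_zero (pow_ne_zero _ ha) (pow_ne_zero _ (div_ne_zero (mul_ne_zero (by norm_num)
      (pow_ne_zero _ ha)) (by norm_num))))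
  have hQ : ∀ τ : K, PE a g * (C a * X) * QA a g + C τ * QB a g ≠ 0 := by
    intro τ
    by_cases hτ : τ = 0
    · rw [hτ, C_0, zero_mul, add_zero]
      exact mul_ne_zero (mul_ne_zero hE (mul_ne_zero (C_ne_zero.2 ha) X_ne_zero)) hQA
    · have h1 : Dm (PE a g * (C a * X) * QA a g) 30 0 :=
        Dm.low (natDegree_mul_le_of_le (natDegree_mul_le_of_le (d_PE a g)
          (natDegree_mul_le_of_le (Dm.C a).1 Dm.X.1)) (d_QA a g).1) (by norm_num)
      refine (h1.add ((Dm.C τ).mul (d_QB a g))).ne ?_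
      rw [zero_add]
      refine mul_ne_zero hτ (mul_ne_zero (pow_ne_zero _ ha) (pow_ne_zero _ (div_ne_zero
        (mul_ne_zero ha (pow_ne_zero _ (div_ne_zero (mul_ne_zero (by norm_num)
          (pow_ne_zero _ ha)) (by norm_num)))) (by norm_num))))
  intro hfin
  have hcov : (Set.univ : Set K) ⊆ {s | (X * PE a g * QB a g).IsRoot s} ∪
      ⋃ τ ∈ {τ : K | ∃ x y : K, x ^ 2 - a * y ^ 2 = 1 + g 2 * τ ^ 2 + g 3 * τ ^ 3 + g 4 * τ ^ 4 +
      g 5 * τ ^ 5 + g 6 * τ ^ 6 + g 7 * τ ^ 7 + g 8 * τ ^ 8},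
        {s | (PE a g * (C a * X) * QA a g + C τ * QB a g).IsRoot s} := by
    intro s _
    by_cases h1 : (X * PE a g * QB a g).IsRoot s
    · exact Or.inl h1
    · right
      rw [IsRoot.def, eval_mul, eval_mul, eval_X, e_PE] at h1
      have hs : s ≠ 0 := fun h => h1 (by rw [h]; ring)
      have hEs : EE a g s ≠ 0 := fun h => h1 (by rw [h]; ring)
      rw [e_QB a g ha hs hEs] at h1
      have hB : BB a g s ≠ 0 := fun h => h1 (by rw [h]; ring)
      have h2 : AA a g s + BB a g s * (-AA a g s / BB a g s) = 0 := by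
        field_simp
        ring
      refine Set.mem_biUnion (x := -AA a g s / BB a g s) ⟨_, _, core ha hs hEs h2⟩ ?_
      show IsRoot _ s
      rw [IsRoot.def]
      simp only [eval_add, eval_mul, eval_C, eval_X, e_PE, e_QA a g ha hs hEs, e_QB a g ha hs hEs]
      linear_combination EE a g s ^ 4 * (a * s) ^ 2 * h2
  have h1 : {s | (X * PE a g * QB a g).IsRoot s}.Finite := by
    have h2 : X * PE a g * QB a g ≠ 0 := mul_ne_zero (mul_ne_zero X_ne_zero hE) hQB
    exact (X * PE a g * QB a g).rootSet_finite K |>.subset fun s hs => by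
      rw [mem_rootSet]
      exact ⟨h2, by rw [aeval_def, Algebra.algebraMap_self, eval₂_id]; exact hs⟩
  have h3 := h1.union (hfin.biUnion (t := fun τ =>
    {s | (PE a g * (C a * X) * QA a g + C τ * QB a g).IsRoot s}) fun τ _ =>
      (PE a g * (C a * X) * QA a g + C τ * QB a g).rootSet_finite K |>.subset fun s hs => by
        rw [mem_rootSet]
        exact ⟨hQ τ, by rw [aeval_def, Algebra.algebraMap_self, eval₂_id]; exact hs⟩)
  exact Set.infinite_univ (h3.subset hcov)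

end Pool.Agent.X95T.OC
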