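import Pool.Agent.X95T.OA2

/-!
# Polynomials of degree eight with a value which is a norm: infinitely many values
-/

set_option autoImplicit false

open Polynomial

namespace Pool.Agent.X95T.OC

variable {K : Type} [Field K] [CharZero K]

/-- the invariants -/
def J3 {R : Type} [CommRing R] (c : ℕ → R) : R :=
  7 * c 1 ^ 3 - 24 * c 0 * c 1 * c 2 + 32 * c 0 ^ 2 * c 3
def J5 {R : Type} [CommRing R] (c : ℕ → R) : R :=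
  7 * c 1 ^ 5 - 40 * c 0 * c 1 ^ 3 * c 2 + 160 * c 0 ^ 2 * c 1 ^ 2 * c 3 -
    512 * c 0 ^ 3 * c 1 * c 4 + 1024 * c 0 ^ 4 * c 5

/-- the normalized coefficients -/
def nc (c : ℕ → K) : ℕ → K
  | 2 => 28 * (-c 1 / (8 * c 0)) ^ 2 + 7 * (-c 1 / (8 * c 0)) * (c 1 / c 0) + c 2 / c 0
  | 3 => 56 * (-c 1 / (8 * c 0)) ^ 3 + 21 * (-c 1 / (8 * c 0)) ^ 2 * (c 1 / c 0) +
      6 * (-c 1 / (8 * c 0)) * (c 2 / c 0) + c 3 / c 0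
  | 4 => 70 * (-c 1 / (8 * c 0)) ^ 4 + 35 * (-c 1 / (8 * c 0)) ^ 3 * (c 1 / c 0) +
      15 * (-c 1 / (8 * c 0)) ^ 2 * (c 2 / c 0) + 5 * (-c 1 / (8 * c 0)) * (c 3 / c 0) + c 4 / c 0
  | 5 => 56 * (-c 1 / (8 * c 0)) ^ 5 + 35 * (-c 1 / (8 * c 0)) ^ 4 * (c 1 / c 0) +
      20 * (-c 1 / (8 * c 0)) ^ 3 * (c 2 / c 0) + 10 * (-c 1 / (8 * c 0)) ^ 2 * (c 3 / c 0) +
      4 * (-c 1 / (8 * c 0)) * (c 4 / c 0) + c 5 / c 0
  | 6 => 28 * (-c 1 / (8 * c 0)) ^ 6 + 21 * (-c 1 / (8 * c 0)) ^ 5 * (c 1 / c 0) +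
      15 * (-c 1 / (8 * c 0)) ^ 4 * (c 2 / c 0) + 10 * (-c 1 / (8 * c 0)) ^ 3 * (c 3 / c 0) +
      6 * (-c 1 / (8 * c 0)) ^ 2 * (c 4 / c 0) + 3 * (-c 1 / (8 * c 0)) * (c 5 / c 0) + c 6 / c 0
  | 7 => 8 * (-c 1 / (8 * c 0)) ^ 7 + 7 * (-c 1 / (8 * c 0)) ^ 6 * (c 1 / c 0) +
      6 * (-c 1 / (8 * c 0)) ^ 5 * (c 2 / c 0) + 5 * (-c 1 / (8 * c 0)) ^ 4 * (c 3 / c 0) +
      4 * (-c 1 / (8 * c 0)) ^ 3 * (c 4 / c 0) + 3 * (-c 1 / (8 * c 0)) ^ 2 * (c 5 / c 0) +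
      2 * (-c 1 / (8 * c 0)) * (c 6 / c 0) + c 7 / c 0
  | 8 => (-c 1 / (8 * c 0)) ^ 8 + (-c 1 / (8 * c 0)) ^ 7 * (c 1 / c 0) +
      (-c 1 / (8 * c 0)) ^ 6 * (c 2 / c 0) + (-c 1 / (8 * c 0)) ^ 5 * (c 3 / c 0) +
      (-c 1 / (8 * c 0)) ^ 4 * (c 4 / c 0) + (-c 1 / (8 * c 0)) ^ 3 * (c 5 / c 0) +
      (-c 1 / (8 * c 0)) ^ 2 * (c 6 / c 0) + (-c 1 / (8 * c 0)) * (c 7 / c 0) + c 8 / c 0
  | _ => 0

lemma nc3 (c : ℕ → K) (h0 : c 0 ≠ 0) : 32 * c 0 ^ 3 * nc c 3 = J3 c := by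
  have e : -c 1 / (8 * c 0) = -(c 1 / c 0) / 8 := by field_simp
  have k1 : c 1 = c 1 / c 0 * c 0 := by field_simp
  have k2 : c 2 = c 2 / c 0 * c 0 := by field_simp
  have k3 : c 3 = c 3 / c 0 * c 0 := by field_simp
  have e3 : nc c 3 = 56 * (-c 1 / (8 * c 0)) ^ 3 + 21 * (-c 1 / (8 * c 0)) ^ 2 * (c 1 / c 0) +
      6 * (-c 1 / (8 * c 0)) * (c 2 / c 0) + c 3 / c 0 := rfl
  rw [e3]
  unfold J3
  rw [e]
  set d1 := c 1 / c 0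
  set d2 := c 2 / c 0
  set d3 := c 3 / c 0
  rw [k1, k2, k3]
  ring

lemma nc5 (c : ℕ → K) (h0 : c 0 ≠ 0) : 1024 * c 0 ^ 5 * nc c 5 = J5 c := by
  have e : -c 1 / (8 * c 0) = -(c 1 / c 0) / 8 := by field_simp
  have k1 : c 1 = c 1 / c 0 * c 0 := by field_simp
  have k2 : c 2 = c 2 / c 0 * c 0 := by field_simp
  have k3 : c 3 = c 3 / c 0 * c 0 := by field_simp
  have k4 : c 4 = c 4 / c 0 * c 0 := by field_simp
  have k5 : c 5 = c 5 / c 0 * c 0 := by field_simp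
  have e5 : nc c 5 = 56 * (-c 1 / (8 * c 0)) ^ 5 + 35 * (-c 1 / (8 * c 0)) ^ 4 * (c 1 / c 0) +
      20 * (-c 1 / (8 * c 0)) ^ 3 * (c 2 / c 0) + 10 * (-c 1 / (8 * c 0)) ^ 2 * (c 3 / c 0) +
      4 * (-c 1 / (8 * c 0)) * (c 4 / c 0) + c 5 / c 0 := rfl
  rw [e5]
  unfold J5
  rw [e]
  set d1 := c 1 / c 0
  set d2 := c 2 / c 0
  set d3 := c 3 / c 0
  set d4 := c 4 / c 0
  set d5 := c 5 / c 0
  rw [k1, k2, k3, k4, k5]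
  ring

lemma nc_poly (c : ℕ → K) (h0 : c 0 ≠ 0) (T γ : K) (hγ : γ = -c 1 / (8 * c 0)) :
    c 0 * (1 + nc c 2 * T ^ 2 + nc c 3 * T ^ 3 + nc c 4 * T ^ 4 + nc c 5 * T ^ 5 +
      nc c 6 * T ^ 6 + nc c 7 * T ^ 7 + nc c 8 * T ^ 8) =
    c 0 * (1 + γ * T) ^ 8 + c 1 * T * (1 + γ * T) ^ 7 + c 2 * T ^ 2 * (1 + γ * T) ^ 6 +
      c 3 * T ^ 3 * (1 + γ * T) ^ 5 + c 4 * T ^ 4 * (1 + γ * T) ^ 4 +
      c 5 * T ^ 5 * (1 + γ * T) ^ 3 + c 6 * T ^ 6 * (1 + γ * T) ^ 2 +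
      c 7 * T ^ 7 * (1 + γ * T) + c 8 * T ^ 8 := by
  have h1 : c 1 = -8 * γ * c 0 := by
    rw [hγ]
    field_simp
  have hk : ∀ k, c k = c k / c 0 * c 0 := fun k => by field_simp
  unfold nc
  rw [← hγ]
  have e1 : c 1 / c 0 = -8 * γ := by
    rw [h1]
    field_simp
  simp only [e1]
  rw [h1, hk 2, hk 3, hk 4, hk 5, hk 6, hk 7, hk 8]
  simp only [mul_div_assoc, div_self h0, mul_one]
  ring

theorem oct {a : K} (ha : a ≠ 0) {F : K[X]} (hF : F.natDegree ≤ 8) (h0 : F.coeff 0 ≠ 0)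
    (hI : J3 F.coeff ≠ 0 ∨ J5 F.coeff ≠ 0) :
    {τ : K | ∃ x y : K, F.eval τ = F.coeff 0 * (x ^ 2 - a * y ^ 2)}.Infinite := by
  have hg : nc F.coeff 3 ≠ 0 ∨ nc F.coeff 5 ≠ 0 := by
    rcases hI with h | h
    · left
      intro h3
      apply h
      rw [← nc3 _ h0, h3, mul_zero]
    · right
      intro h3
      apply h
      rw [← nc5 _ h0, h3, mul_zero]
  have h1 := inf a (nc F.coeff) ha hg
  set γ : K := -F.coeff 1 / (8 * F.coeff 0) with hγ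
  have h2 : {T : K | 1 + γ * T = 0}.Finite := by
    by_cases hγ0 : γ = 0
    · refine Set.finite_empty.subset fun T hT => ?_
      have : (1 : K) + γ * T = 0 := hT
      rw [hγ0] at this
      simp at this
    · refine (Set.finite_singleton (-1 / γ)).subset fun T hT => ?_
      have : (1 : K) + γ * T = 0 := hT
      show T = -1 / γ
      field_simp
      linear_combination this
  have h3 := (h1.sdiff h2).image (f := fun T : K => T / (1 + γ * T)) (by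
    rintro T ⟨-, hT⟩ T' ⟨-, hT'⟩ h
    have hT : 1 + γ * T ≠ 0 := hT
    have hT' : 1 + γ * T' ≠ 0 := hT'
    have h : T / (1 + γ * T) = T' / (1 + γ * T') := h
    rw [div_eq_div_iff hT hT'] at h
    linear_combination h)
  refine h3.mono ?_
  rintro _ ⟨T, ⟨⟨x, y, hxy⟩, hT⟩, rfl⟩
  have hT : 1 + γ * T ≠ 0 := hT
  refine ⟨x / (1 + γ * T) ^ 4, y / (1 + γ * T) ^ 4, ?_⟩
  have hd : F.natDegree < 9 := by omega
  have h4 := nc_poly F.coeff h0 T γ hγ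
  rw [← hxy] at h4
  rw [eval_eq_sum_range' hd]
  simp only [Finset.sum_range_succ, Finset.sum_range_zero, pow_zero, mul_one, pow_one, zero_add]
  have h5 : F.coeff 0 * ((x / (1 + γ * T) ^ 4) ^ 2 - a * (y / (1 + γ * T) ^ 4) ^ 2) =
      F.coeff 0 * (x ^ 2 - a * y ^ 2) / (1 + γ * T) ^ 8 := by
    field_simp
  rw [h5, h4, eq_div_iff (pow_ne_zero 8 hT)]
  have key : ∀ (c : ℕ → K) (u q : K), (c 0 + c 1 * q + c 2 * q ^ 2 + c 3 * q ^ 3 + c 4 * q ^ 4 +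
      c 5 * q ^ 5 + c 6 * q ^ 6 + c 7 * q ^ 7 + c 8 * q ^ 8) * u ^ 8 =
      c 0 * u ^ 8 + c 1 * (q * u) * u ^ 7 + c 2 * (q * u) ^ 2 * u ^ 6 +
      c 3 * (q * u) ^ 3 * u ^ 5 + c 4 * (q * u) ^ 4 * u ^ 4 + c 5 * (q * u) ^ 5 * u ^ 3 +
      c 6 * (q * u) ^ 6 * u ^ 2 + c 7 * (q * u) ^ 7 * u + c 8 * (q * u) ^ 8 := by
    intro c u q
    ring
  have h6 := key F.coeff (1 + γ * T) (T / (1 + γ * T))
  rw [div_mul_cancel₀ _ hT] at h6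
  exact h6

end Pool.Agent.X95T.OC
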