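import Pool.Agent.X95T.OA3

/-!
# Density by moves along the coordinates
-/

set_option autoImplicit false

open MvPolynomial

namespace Pool.Agent.X95T.OC

section dens

variable {K κ : Type} [Field K] [DecidableEq κ]

/-- restriction to a coordinate line: the polynomial `f (z + T e_j)` -/
noncomputable def line (f : MvPolynomial κ K) (z : κ → K) (j : κ) : Polynomial K :=
  aeval (fun l => Polynomial.C (z l) + if l = j then Polynomial.X else 0) f

lemma line_eval (f : MvPolynomial κ K) (z : κ → K) (j : κ) (t : K) :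
    (line f z j).eval t = eval (Function.update z j (z j + t)) f := by
  unfold line
  induction f using MvPolynomial.induction_on with
  | C c =>
    rw [aeval_C, eval_C]
    exact Polynomial.eval_C
  | add p q hp hq => rw [map_add, Polynomial.eval_add, hp, hq, map_add]
  | mul_X p i hp =>
    rw [map_mul, Polynomial.eval_mul, hp, aeval_X, map_mul, eval_X]
    congr 1
    by_cases h : i = j
    · subst h
      simp
    · simp [h]

/-- the generic coordinate line -/
noncomputable def gl (f : MvPolynomial κ K) (j : κ) : Polynomial (MvPolynomial κ K) :=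
  aeval (fun l => Polynomial.C (X l) + if l = j then Polynomial.X else 0) f

lemma gl_map (f : MvPolynomial κ K) (z : κ → K) (j : κ) :
    (gl f j).map (eval z) = line f z j := by
  unfold gl line
  induction f using MvPolynomial.induction_on with
  | C c =>
    rw [aeval_C, aeval_C]
    have h0 : (algebraMap K (Polynomial (MvPolynomial κ K)) c) = Polynomial.C (C c) := rfl
    have h1 : (algebraMap K (Polynomial K) c) = Polynomial.C c := rfl
    rw [h0, h1, Polynomial.map_C, eval_C]
  | add p q hp hq => rw [map_add, Polynomial.map_add, hp, hq, map_add]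
  | mul_X p i hp =>
    rw [map_mul, Polynomial.map_mul, hp, aeval_X, map_mul, aeval_X]
    congr 1
    by_cases h : i = j
    · subst h
      simp
    · simp [h]

lemma coeff_line (f : MvPolynomial κ K) (z : κ → K) (j : κ) (i : ℕ) :
    (line f z j).coeff i = eval z ((gl f j).coeff i) := by
  rw [← gl_map, Polynomial.coeff_map]

lemma line_deg (f : MvPolynomial κ K) (z : κ → K) (j : κ) :
    (line f z j).natDegree ≤ f.degreeOf j := by
  rw [line, aeval_def, eval₂_eq]
  refine Polynomial.natDegree_sum_le_of_forall_le _ _ fun d hd => ?_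
  have h0 : (algebraMap K (Polynomial K) (coeff d f)) = Polynomial.C (coeff d f) := rfl
  rw [h0]
  refine (Polynomial.natDegree_C_mul_le _ _).trans ?_
  refine (Polynomial.natDegree_prod_le _ _).trans ?_
  have h1 : d j ≤ f.degreeOf j := degreeOf_le_iff.1 le_rfl d hd
  refine le_trans ?_ h1
  have h2 : ∀ i ∈ d.support, ((Polynomial.C (z i) + if i = j then Polynomial.X else 0) ^ d i :
      Polynomial K).natDegree ≤ if i = j then d j else 0 := by
    intro i _
    by_cases hij : i = j
    · subst hij
      rw [if_pos rfl, if_pos rfl]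
      refine Polynomial.natDegree_pow_le.trans ?_
      have h4 : (Polynomial.C (z i) + Polynomial.X).natDegree ≤ 1 := by compute_degree
      calc d i * _ ≤ d i * 1 := Nat.mul_le_mul_left _ h4
        _ = d i := mul_one _
    · rw [if_neg hij, if_neg hij, add_zero, ← Polynomial.C_pow, Polynomial.natDegree_C]
  refine (Finset.sum_le_sum h2).trans ?_
  rw [Finset.sum_ite_eq']
  split_ifs
  · exact le_rfl
  · exact Nat.zero_le _

/-- the zeros on a coordinate line -/
lemma fin_line {f : MvPolynomial κ K} {z : κ → K} {j : κ} {t0 : K}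
    (h : eval (Function.update z j t0) f ≠ 0) :
    {t : K | eval (Function.update z j t) f = 0}.Finite := by
  have h1 : line f z j ≠ 0 := by
    intro h2
    apply h
    have h3 := line_eval f z j (t0 - z j)
    rw [h2, Polynomial.eval_zero, add_sub_cancel] at h3
    exact h3.symm
  have h2 : ((line f z j).rootSet K).Finite := Polynomial.rootSet_finite _ _
  refine (h2.image fun t => z j + t).subset fun t ht => ?_
  refine ⟨t - z j, ?_, by show z j + (t - z j) = t; ring⟩
  rw [Polynomial.mem_rootSet]
  refine ⟨h1, ?_⟩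
  rw [Polynomial.aeval_def, Algebra.algebraMap_self, Polynomial.eval₂_id, line_eval,
    add_sub_cancel]
  exact ht

/-- a set with infinitely many points on all the coordinate lines through its points is dense -/
theorem dense_of_moves [Fintype κ] [Infinite K] {S : Set (κ → K)} (hne : S.Nonempty)
    (hS : ∀ z ∈ S, ∀ j, {t | Function.update z j t ∈ S}.Infinite) {h : MvPolynomial κ K}
    (h0 : h ≠ 0) : ∃ z ∈ S, eval z h ≠ 0 := by
  obtain ⟨y, hy⟩ : ∃ y, eval y h ≠ 0 := by
    by_contra hc
    push Not at hc
    exact h0 (MvPolynomial.funext fun y => by rw [hc, map_zero])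
  have key : ∀ T : Finset κ, ∃ z ∈ S, eval (T.piecewise z y) h ≠ 0 := by
    intro T
    induction T using Finset.induction_on with
    | empty =>
      obtain ⟨z, hz⟩ := hne
      exact ⟨z, hz, by rw [Finset.piecewise_empty]; exact hy⟩
    | insert j T hj ih =>
      obtain ⟨z, hz, hzT⟩ := ih
      have h1 : eval (Function.update (T.piecewise z y) j ((T.piecewise z y) j)) h ≠ 0 := by
        rw [Function.update_eq_self]
        exact hzT
      obtain ⟨t, ht, ht'⟩ := ((hS z hz j).sdiff (fin_line h1)).nonempty
      refine ⟨_, ht, ?_⟩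
      have h2 : (insert j T).piecewise (Function.update z j t) y =
          Function.update (T.piecewise z y) j t := by
        funext l
        by_cases hl : l = j
        · subst hl
          simp
        · by_cases hlT : l ∈ T
          · rw [Function.update_of_ne hl, Finset.piecewise_eq_of_mem _ _ _ hlT,
              Finset.piecewise_eq_of_mem _ _ _ (Finset.mem_insert_of_mem hlT),
              Function.update_of_ne hl]
          · rw [Function.update_of_ne hl, Finset.piecewise_eq_of_notMem _ _ _ hlT,
              Finset.piecewise_eq_of_notMem _ _ _ (by simp [hl, hlT])]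
      rw [h2]
      exact ht'
  obtain ⟨z, hz, hz'⟩ := key Finset.univ
  rw [Finset.piecewise_univ] at hz'
  exact ⟨z, hz, hz'⟩

end dens

section base

variable {K ι κ : Type} [Field K] [CharZero K] [Fintype ι] [Fintype κ] [DecidableEq κ]
  {a : ι → K} {f : MvPolynomial κ K}

/-- an orthogonal vector of nonzero norm -/
lemma orth [Nontrivial ι] (ha : ∀ i, a i ≠ 0) {w : ι → K} (hw : ∑ i, a i * w i ^ 2 ≠ 0) :
    ∃ v : ι → K, ∑ i, a i * w i * v i = 0 ∧ ∑ i, a i * v i ^ 2 ≠ 0 := by
  classical
  set N := ∑ i, a i * w i ^ 2 with hN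
  obtain ⟨i, hi⟩ : ∃ i, N ≠ a i * w i ^ 2 := by
    by_contra hc
    push Not at hc
    have h1 : N = ∑ i : ι, N := by
      rw [hN]
      exact Finset.sum_congr rfl fun i _ => (hc i).symm
    rw [Finset.sum_const, Finset.card_univ, nsmul_eq_mul] at h1
    have h2 : ((Fintype.card ι : K) - 1) * N = 0 := by linear_combination -h1
    rcases mul_eq_zero.1 h2 with h3 | h3
    · have h4 : (Fintype.card ι : K) = ((1 : ℕ) : K) := by
        rw [Nat.cast_one]
        linear_combination h3
      have h5 := Nat.cast_injective (R := K) h4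
      have h6 := Fintype.one_lt_card (α := ι)
      omega
    · exact hw h3
  refine ⟨fun l => (if l = i then N else 0) - a i * w i * w l, ?_, ?_⟩
  · have h1 : ∀ l, a l * w l * ((if l = i then N else 0) - a i * w i * w l) =
        (if l = i then a l * w l * N else 0) - a i * w i * (a l * w l ^ 2) := by
      intro l
      split_ifs <;> ring
    simp only [h1]
    rw [Finset.sum_sub_distrib, Finset.sum_ite_eq' Finset.univ i, if_pos (Finset.mem_univ i),
      ← Finset.mul_sum, ← hN]
    ring
  · have h1 : ∀ l, a l * ((if l = i then N else 0) - a i * w i * w l) ^ 2 =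
        (if l = i then a l * N ^ 2 - 2 * a l * N * (a i * w i * w l) else 0) +
          (a i * w i) ^ 2 * (a l * w l ^ 2) := by
      intro l
      split_ifs <;> ring
    simp only [h1]
    rw [Finset.sum_add_distrib, Finset.sum_ite_eq' Finset.univ i, if_pos (Finset.mem_univ i),
      ← Finset.mul_sum, ← hN]
    have h2 : a i * N ^ 2 - 2 * a i * N * (a i * w i * w i) + (a i * w i) ^ 2 * N =
        a i * N * (N - a i * w i ^ 2) := by ring
    rw [h2]
    exact mul_ne_zero (mul_ne_zero (ha i) hw) (sub_ne_zero.2 hi)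

/-- the values of `f` which are represented, on a coordinate line -/
lemma inf_line [Nontrivial ι] (ha : ∀ i, a i ≠ 0) {z : κ → K} {j : κ} (hf : f.degreeOf j ≤ 8)
    (h0 : eval z f ≠ 0) (hw : ∃ w : ι → K, ∑ i, a i * w i ^ 2 = eval z f)
    (hI : J3 (line f z j).coeff ≠ 0 ∨ J5 (line f z j).coeff ≠ 0) :
    {t : K | ∃ w : ι → K, ∑ i, a i * w i ^ 2 = eval (Function.update z j t) f}.Infinite := by
  obtain ⟨w, hw⟩ := hw
  obtain ⟨v, hv, hv'⟩ := orth ha (w := w) (by rw [hw]; exact h0)
  have hc0 : (line f z j).coeff 0 = eval z f := by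
    rw [Polynomial.coeff_zero_eq_eval_zero, line_eval, add_zero, Function.update_eq_self]
  have h1 := oct (a := -(∑ i, a i * v i ^ 2) / eval z f)
    (div_ne_zero (neg_ne_zero.2 hv') h0) ((line_deg f z j).trans hf) (by rw [hc0]; exact h0) hI
  refine (h1.image (f := fun t => z j + t) (fun x _ y _ h => add_left_cancel h)).mono ?_
  rintro _ ⟨t, ⟨x, y, hxy⟩, rfl⟩
  refine ⟨fun i => x * w i + y * v i, ?_⟩
  show _ = eval (Function.update z j (z j + t)) f
  rw [← line_eval, hxy, hc0]
  have h2 : ∀ i, a i * (x * w i + y * v i) ^ 2 = x ^ 2 * (a i * w i ^ 2) +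
      2 * x * y * (a i * w i * v i) + y ^ 2 * (a i * v i ^ 2) := fun i => by ring
  simp only [h2]
  rw [Finset.sum_add_distrib, Finset.sum_add_distrib, ← Finset.mul_sum, ← Finset.mul_sum,
    ← Finset.mul_sum, hw, hv]
  field_simp
  ring

/-- the good base points -/
def SA (a : ι → K) (f : MvPolynomial κ K) : Set (κ → K) :=
  {z | eval z f ≠ 0 ∧ (∀ j, J3 (line f z j).coeff ≠ 0 ∨ J5 (line f z j).coeff ≠ 0) ∧
    ∃ w : ι → K, ∑ i, a i * w i ^ 2 = eval z f}

lemma J3_poly (z : κ → K) (j : κ) : J3 (line f z j).coeff = eval z (J3 (gl f j).coeff) := by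
  unfold J3
  simp only [coeff_line, map_add, map_sub, map_mul, map_pow, map_ofNat]

lemma J5_poly (z : κ → K) (j : κ) : J5 (line f z j).coeff = eval z (J5 (gl f j).coeff) := by
  unfold J5
  simp only [coeff_line, map_add, map_sub, map_mul, map_pow, map_ofNat]

lemma SA_moves [Nontrivial ι] (ha : ∀ i, a i ≠ 0) (hf : ∀ j, f.degreeOf j ≤ 8) {z : κ → K}
    (hz : z ∈ SA a f) (j : κ) : {t | Function.update z j t ∈ SA a f}.Infinite := by
  obtain ⟨h0, hI, hw⟩ := hz
  have h1 := inf_line ha (hf j) h0 hw (hI j)
  -- the invariants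
  have h2 : ∀ l, ∃ D : MvPolynomial κ K, eval z D ≠ 0 ∧ ∀ y : κ → K, eval y D ≠ 0 →
      J3 (line f y l).coeff ≠ 0 ∨ J5 (line f y l).coeff ≠ 0 := by
    intro l
    rcases hI l with h | h
    · exact ⟨J3 (gl f l).coeff, by rw [← J3_poly]; exact h, fun y hy => Or.inl (by
        rw [J3_poly]; exact hy)⟩
    · exact ⟨J5 (gl f l).coeff, by rw [← J5_poly]; exact h, fun y hy => Or.inr (by
        rw [J5_poly]; exact hy)⟩
  choose D hD hD' using h2
  have h3 : eval (Function.update z j (z j)) (f * ∏ l, D l) ≠ 0 := by
    rw [Function.update_eq_self, map_mul, map_prod]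
    exact mul_ne_zero h0 (Finset.prod_ne_zero_iff.2 fun l _ => hD l)
  refine (h1.sdiff (fin_line h3)).mono ?_
  rintro t ⟨ht, ht'⟩
  have ht' : eval (Function.update z j t) (f * ∏ l, D l) ≠ 0 := ht'
  rw [map_mul, map_prod] at ht'
  refine ⟨left_ne_zero_of_mul ht', fun l => hD' l _ ?_, ht⟩
  exact Finset.prod_ne_zero_iff.1 (right_ne_zero_of_mul ht') l (Finset.mem_univ l)

end base

end Pool.Agent.X95T.OC
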