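import Pool.Agent.X95T.OA4
import Pool.Agent.X95T.KA4

/-!
# Zariski density of the rational points
-/

set_option autoImplicit false
set_option linter.unusedSectionVars false

open MvPolynomial

namespace Pool.Agent.X95T.OC

open Pool.Agent.X95T.WQ (rz Dt Dt_eval on_V_iff split nonsq bl)

section fib

variable {K ι : Type} [Field K] [CharZero K] [Fintype ι] [DecidableEq ι] {a : ι → K}

/-- rational points of a conic -/
lemma conic {p q s : K} (e : K) (hp : p ≠ 0) (hq : q ≠ 0) (hs : s ≠ 0) :
    {y : K | ∃ x, x ≠ 0 ∧ p * x ^ 2 + q * y ^ 2 = p * s ^ 2 + q * e ^ 2}.Infinite := by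
  intro hfin
  let A : Polynomial K := Polynomial.C p * Polynomial.X ^ 2 + Polynomial.C q
  let B : Polynomial K := Polynomial.C s * A - 2 * Polynomial.X *
    (Polynomial.C (p * s) * Polynomial.X + Polynomial.C (q * e))
  let D : K → Polynomial K := fun y => Polynomial.C (y - e) * A +
    2 * (Polynomial.C (p * s) * Polynomial.X + Polynomial.C (q * e))
  have eA : ∀ u, A.eval u = p * u ^ 2 + q := fun u => by simp [A]
  have eB : ∀ u, B.eval u = s * (p * u ^ 2 + q) - 2 * u * (p * s * u + q * e) := fun u => by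
    simp [B, eA]
  have eD : ∀ y u, (D y).eval u = (y - e) * (p * u ^ 2 + q) + 2 * (p * s * u + q * e) :=
    fun y u => by simp [D, eA]
  have hA : A ≠ 0 := by
    intro h
    have h1 := eA 0
    rw [h, Polynomial.eval_zero] at h1
    exact hq (by linear_combination -h1)
  have hB : B ≠ 0 := by
    intro h
    have h1 := eB 0
    rw [h, Polynomial.eval_zero] at h1
    have h2 : s * q = 0 := by linear_combination -h1
    exact (mul_ne_zero hs hq) h2
  have hD : ∀ y, D y ≠ 0 := by
    intro y h
    have h1 := eD y 1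
    have h2 := eD y (-1)
    rw [h, Polynomial.eval_zero] at h1 h2
    have h3 : 4 * (p * s) = 0 := by linear_combination h2 - h1
    exact (mul_ne_zero (by norm_num : (4 : K) ≠ 0) (mul_ne_zero hp hs)) h3
  have hr : ∀ P : Polynomial K, P ≠ 0 → {u | P.eval u = 0}.Finite := by
    intro P hP
    have h2 : (P.rootSet K).Finite := Polynomial.rootSet_finite _ _
    refine h2.subset fun u hu => ?_
    rw [Polynomial.mem_rootSet]
    exact ⟨hP, by rw [Polynomial.aeval_def, Algebra.algebraMap_self, Polynomial.eval₂_id]; exact hu⟩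
  have hcov : (Set.univ : Set K) ⊆ {u | A.eval u = 0} ∪ {u | B.eval u = 0} ∪
      ⋃ y ∈ {y : K | ∃ x, x ≠ 0 ∧ p * x ^ 2 + q * y ^ 2 = p * s ^ 2 + q * e ^ 2},
        {u | (D y).eval u = 0} := by
    intro u _
    by_cases h1 : A.eval u = 0
    · exact Or.inl (Or.inl h1)
    by_cases h2 : B.eval u = 0
    · exact Or.inl (Or.inr h2)
    right
    rw [eA] at h1
    rw [eB] at h2
    obtain ⟨l, hl⟩ : ∃ l, l * (p * u ^ 2 + q) = -2 * (p * s * u + q * e) :=
      ⟨-2 * (p * s * u + q * e) / (p * u ^ 2 + q), div_mul_cancel₀ _ h1⟩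
    refine Set.mem_biUnion (x := e + l) ⟨s + l * u, ?_, ?_⟩ ?_
    · intro h3
      apply h2
      linear_combination (p * u ^ 2 + q) * h3 - u * hl
    · linear_combination l * hl
    · show (D (e + l)).eval u = 0
      rw [eD]
      linear_combination hl
  exact Set.infinite_univ ((((hr A hA).union (hr B hB)).union
    (hfin.biUnion fun y _ => hr _ (hD y))).subset hcov)

/-- the good points of a fibre -/
def SF (a : ι → K) (i0 : ι) (c : K) : Set ({i // i ≠ i0} → K) :=
  {e | ∃ s : K, s ≠ 0 ∧ a i0 * s ^ 2 + ∑ i : {i // i ≠ i0}, a i * e i ^ 2 = c}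

lemma sum_upd {I : Type} [Fintype I] [DecidableEq I] (b e : I → K) (i : I) (y : K) :
    ∑ l, b l * (Function.update e i y l) ^ 2 = ∑ l, b l * e l ^ 2 + (b i * y ^ 2 - b i * e i ^ 2) := by
  have h1 : ∀ l, b l * (Function.update e i y l) ^ 2 = b l * e l ^ 2 +
      if l = i then b i * y ^ 2 - b i * e i ^ 2 else 0 := by
    intro l
    by_cases h : l = i
    · subst h
      rw [if_pos rfl, Function.update_self]
      ring
    · rw [if_neg h, Function.update_of_ne h, add_zero]
  simp only [h1]
  rw [Finset.sum_add_distrib, Finset.sum_ite_eq' Finset.univ i, if_pos (Finset.mem_univ i)]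

lemma SF_moves (ha : ∀ i, a i ≠ 0) {i0 : ι} {c : K} {e : {i // i ≠ i0} → K} (he : e ∈ SF a i0 c)
    (i : {i // i ≠ i0}) : {t | Function.update e i t ∈ SF a i0 c}.Infinite := by
  obtain ⟨s, hs, h⟩ := he
  refine (conic (e i) (ha i0) (ha i.1) hs).mono ?_
  rintro y ⟨x, hx, hxy⟩
  refine ⟨x, hx, ?_⟩
  have h1 := sum_upd (fun l : {i // i ≠ i0} => a l) e i y
  rw [h1]
  linear_combination h + hxy

lemma SF_ne (ha : ∀ i, a i ≠ 0) {i0 : ι} {c : K} (hc : c ≠ 0) {w : ι → K}
    (hw : ∑ i, a i * w i ^ 2 = c) : (SF a i0 c).Nonempty := by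
  by_cases h0 : w i0 = 0
  · have hB : ∑ i, a i * w i ^ 2 ≠ 0 := by rw [hw]; exact hc
    obtain ⟨i, -, hi⟩ := Finset.exists_ne_zero_of_sum_ne_zero hB
    have hi1 : w i ≠ 0 := fun h => hi (by rw [h]; ring)
    have hi2 : i ≠ i0 := fun h => hi1 (by rw [h]; exact h0)
    obtain ⟨y, ⟨x, hx, hxy⟩, hy⟩ := ((conic 0 (ha i) (ha i0) hi1).sdiff
      (Set.finite_singleton 0)).nonempty
    have hy : y ≠ 0 := hy
    refine ⟨Function.update (fun l => w l.1) ⟨i, hi2⟩ x, y, hy, ?_⟩
    rw [sum_upd (fun l : {i // i ≠ i0} => a l)]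
    rw [Fintype.sum_eq_add_sum_subtype_ne _ i0, h0] at hw
    linear_combination hw + hxy
  · refine ⟨fun l => w l.1, w i0, h0, ?_⟩
    rw [Fintype.sum_eq_add_sum_subtype_ne _ i0] at hw
    exact hw

end fib

variable {K ι κ : Type} [Field K] [CharZero K] [Fintype ι] [Fintype κ] [DecidableEq κ]
  {a : ι → K} {f : MvPolynomial κ K}

/-- **Zariski density** -/
theorem zden [Nontrivial ι] (ha : ∀ i, a i ≠ 0) (hf : ∀ j, f.degreeOf j ≤ 8) {w0 : ι → K}
    {z0 : κ → K} (hw0 : ∑ i, a i * w0 i ^ 2 = eval z0 f) (h0 : eval z0 f ≠ 0)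
    (hI : ∀ j, J3 (line f z0 j).coeff ≠ 0 ∨ J5 (line f z0 j).coeff ≠ 0)
    {g : MvPolynomial (ι ⊕ κ) K}
    (hg : ∀ (w : ι → K) (z : κ → K), ∑ i, a i * w i ^ 2 = eval z f → eval z f ≠ 0 →
      eval (Sum.elim w z) g = 0)
    (k : Type) [Field k] [Algebra K k] (w' : ι → k) (z' : κ → k)
    (hZ : ∑ i, algebraMap K k (a i) * w' i ^ 2 = aeval z' f) :
    aeval (Sum.elim w' z') g = 0 := by
  classical
  obtain ⟨i0, i1, hi1⟩ := exists_pair_ne ι
  have hf0 : f ≠ 0 := by
    rintro rfl
    exact h0 (map_zero _)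
  obtain ⟨g0, g1, hgg⟩ := split a f i0 g
  have h6 : g0 ^ 2 - g1 ^ 2 * Dt a f i0 = 0 := by
    by_contra hne
    set H := g0 ^ 2 - g1 ^ 2 * Dt a f i0 with hH
    obtain ⟨y, hy⟩ : ∃ y, eval y H ≠ 0 := by
      by_contra hc
      push Not at hc
      exact hne (MvPolynomial.funext fun y => by rw [hc, map_zero])
    -- the base
    have hsub : ∀ (τ : Type) (u : {i // i ≠ i0} ⊕ κ → MvPolynomial τ K) (v : τ → K),
        eval v (aeval u H) = eval (fun t => eval v (u t)) H := by
      intro τ u v
      generalize H = H'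
      induction H' using MvPolynomial.induction_on with
      | C c => rw [aeval_C, eval_C]; exact eval_C c
      | add p q hp hq => rw [map_add, map_add, hp, hq, map_add]
      | mul_X p i hp => rw [map_mul, map_mul, hp, aeval_X, map_mul, eval_X]
    have e1 : ∀ z : κ → K, eval z (aeval (Sum.elim (fun i => C (y (Sum.inl i))) X) H) =
        eval (Sum.elim (fun i => y (Sum.inl i)) z) H := by
      intro z
      rw [hsub]
      congr 2
      funext t
      rcases t with t | t
      · exact eval_C _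
      · exact eval_X _
    have h1 : (aeval (Sum.elim (fun i => C (y (Sum.inl i))) X) H : MvPolynomial κ K) ≠ 0 := by
      intro h
      have h2 := e1 fun j => y (Sum.inr j)
      rw [h, map_zero] at h2
      apply hy
      have h3 : Sum.elim (fun i => y (Sum.inl i)) (fun j => y (Sum.inr j)) = y := by
        funext t
        rcases t with t | t <;> rfl
      rw [h3] at h2
      exact h2.symm
    obtain ⟨z, hz, hz1⟩ := dense_of_moves (S := SA a f) ⟨z0, h0, hI, w0, hw0⟩
      (fun z hz j => SA_moves ha hf hz j) h1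
    rw [e1] at hz1
    obtain ⟨hz0, -, w, hw⟩ := hz
    have e2 : ∀ e : {i // i ≠ i0} → K, eval e (aeval (Sum.elim X (fun j => C (z j))) H) =
        eval (Sum.elim e z) H := by
      intro e
      rw [hsub]
      congr 2
      funext t
      rcases t with t | t
      · exact eval_X _
      · exact eval_C _
    have h2 : (aeval (Sum.elim X (fun j => C (z j))) H : MvPolynomial {i // i ≠ i0} K) ≠ 0 := by
      intro h
      have h3 := e2 fun i => y (Sum.inl i)
      rw [h, map_zero] at h3
      exact hz1 h3.symm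
    obtain ⟨e, he, he1⟩ := dense_of_moves (S := SF a i0 (eval z f)) (SF_ne ha hz0 hw)
      (fun e he i => SF_moves ha he i) h2
    rw [e2] at he1
    obtain ⟨s, hs, hse⟩ := he
    -- the point
    let W : ι → K := fun i => if h : i = i0 then s else e ⟨i, h⟩
    have hW0 : W i0 = s := dif_pos rfl
    have hW1 : ∀ i : {i // i ≠ i0}, W i = e i := fun i => dif_neg i.2
    have hW : ∑ i, a i * W i ^ 2 = eval z f := by
      rw [Fintype.sum_eq_add_sum_subtype_ne _ i0, hW0, ← hse]
      congr 1
      exact Finset.sum_congr rfl fun i _ => by rw [hW1]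
    have hrz : rz i0 (Sum.elim W z) = Sum.elim e z := by
      funext t
      rcases t with t | t
      · exact hW1 t
      · rfl
    have hon : (Sum.elim W z : ι ⊕ κ → K) (Sum.inl i0) ^ 2 =
        aeval (rz i0 (Sum.elim W z)) (Dt a f i0) := by
      rw [← on_V_iff a f i0 (ha i0)]
      have hev : aeval (fun j => (Sum.elim W z : ι ⊕ κ → K) (Sum.inr j)) f = eval z f := by
        rw [aeval_eq_eval]
        rfl
      refine Eq.trans ?_ (hW.trans hev.symm)
      exact Finset.sum_congr rfl fun i _ => by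
        show algebraMap K K (a i) * W i * W i = _
        rw [Algebra.algebraMap_self]
        show a i * W i * W i = _
        ring
    have h7 := hg W z hW hz0
    have h8 := hgg K _ hon
    rw [aeval_eq_eval, aeval_eq_eval] at h8
    rw [h8, hrz] at h7
    rw [hrz] at hon
    apply he1
    rw [hH, map_sub, map_mul, map_pow, map_pow]
    have h9 : eval (Sum.elim e z) (Dt a f i0) = W i0 ^ 2 := by
      rw [← aeval_eq_eval]
      exact hon.symm
    rw [h9]
    have h7 : eval (Sum.elim e z) g0 + eval (Sum.elim e z) g1 * W i0 = 0 := h7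
    linear_combination (eval (Sum.elim e z) g0 - eval (Sum.elim e z) g1 * W i0) * h7
  have hg1 : g1 = 0 := nonsq a f i0 hf0 ha hi1.symm (u := g0) (by linear_combination h6)
  have hg0 : g0 = 0 := by
    rw [hg1] at h6
    have : g0 ^ 2 = 0 := by linear_combination h6
    exact pow_eq_zero_iff two_ne_zero |>.1 this
  have hon : (Sum.elim w' z' : ι ⊕ κ → k) (Sum.inl i0) ^ 2 =
      aeval (rz i0 (Sum.elim w' z')) (Dt a f i0) := by
    rw [← on_V_iff a f i0 (ha i0)]
    show ∑ i, _ = aeval z' f
    rw [← hZ]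
    exact Finset.sum_congr rfl fun i _ => by
      show algebraMap K k (a i) * w' i * w' i = _
      ring
  rw [hgg k _ hon, hg0, hg1]
  simp

end Pool.Agent.X95T.OC
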