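import Pool.Agent.X95T.OA3

/-!
# The generic curve of contact order seven
-/

set_option autoImplicit false
set_option linter.unusedSectionVars false
set_option linter.unusedSimpArgs false

open Polynomial

namespace Pool.Agent.X95T.OC

section mp

variable {K F : Type} [Field K] [CharZero K] [Field F] [CharZero F] (φ : K →+* F) (a : K)
  (g : ℕ → K)

omit [CharZero K] [CharZero F] in
lemma m2 : φ 2 = 2 := map_ofNat φ 2
omit [CharZero K] [CharZero F] in
lemma m4 : φ 4 = 4 := map_ofNat φ 4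
lemma m_P2 : (P2 a g).map φ = P2 (φ a) fun i => φ (g i) := by
  simp [m2 φ, m4 φ, P2]
lemma m_PR : (PR a g).map φ = PR (φ a) fun i => φ (g i) := by
  simp [m2 φ, m4 φ, PR]
lemma m_PE : (PE a g).map φ = PE (φ a) fun i => φ (g i) := by
  simp [m2 φ, m4 φ, PE]
lemma m_PC : (PC a g).map φ = PC (φ a) fun i => φ (g i) := by
  simp [m2 φ, m4 φ, PC, m_P2]
lemma m_PT : (PT a g).map φ = PT (φ a) fun i => φ (g i) := by
  simp [m2 φ, m4 φ, PT, m_PC]
lemma m_P3 : (P3 a g).map φ = P3 (φ a) fun i => φ (g i) := by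
  simp [m2 φ, m4 φ, P3, m_PE, m_PT]
lemma m_P4 : (P4 a g).map φ = P4 (φ a) fun i => φ (g i) := by
  simp [m2 φ, m4 φ, P4, m_PE, m_PT, m_P2, m_PR]
lemma m_PY : (PY a g).map φ = PY (φ a) fun i => φ (g i) := by
  simp [m2 φ, m4 φ, PY, m_PE, m_PT, m_P2]
lemma m_QA : (QA a g).map φ = QA (φ a) fun i => φ (g i) := by
  simp [m2 φ, m4 φ, QA, m_PE, m_P3, m_P4, m_PR, m_PY]
lemma m_QB : (QB a g).map φ = QB (φ a) fun i => φ (g i) := by
  simp [m2 φ, m4 φ, QB, m_PE, m_P4, m_PY]

end mp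

section ne

variable {K : Type} [Field K] [CharZero K] (a : K) (g : ℕ → K)

lemma n_PE (ha : a ≠ 0) (hg : g 3 ≠ 0 ∨ g 5 ≠ 0) : PE a g ≠ 0 := by
  intro h
  have h0 : g 3 = 0 := by
    have h1 := congrArg (fun P => P.coeff 2) h
    simp only [PE, coeff_add, coeff_zero] at h1
    rw [show (X * X : K[X]) = X ^ 2 by ring, coeff_C_mul_X_pow, if_pos rfl,
      coeff_C_of_ne_zero (by norm_num), zero_add] at h1
    have h2 : a * g 3 = 0 := by linear_combination 2 * h1
    exact (mul_eq_zero.1 h2).resolve_left ha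
  have h5 : g 5 = 0 := by
    have h1 := congrArg (fun P => P.eval 0) h
    simp only [PE, eval_add, eval_mul, eval_C, eval_X, eval_zero] at h1
    rw [h0] at h1
    linear_combination h1
  exact hg.elim (fun h => h h0) (fun h => h h5)

lemma n_QB (ha : a ≠ 0) : QB a g ≠ 0 := (d_QB a g).ne (by
  refine mul_ne_zero (pow_ne_zero _ ha) (pow_ne_zero _ (div_ne_zero (mul_ne_zero ha
    (pow_ne_zero _ (div_ne_zero (mul_ne_zero (by norm_num) (pow_ne_zero _ ha)) (by norm_num))))
      (by norm_num))))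

lemma n_QA (ha : a ≠ 0) : QA a g ≠ 0 := (d_QA a g).ne (by
  refine mul_ne_zero (pow_ne_zero _ ha) (pow_ne_zero _ (div_ne_zero (mul_ne_zero (by norm_num)
    (pow_ne_zero _ ha)) (by norm_num))))

lemma n_Q (ha : a ≠ 0) (hg : g 3 ≠ 0 ∨ g 5 ≠ 0) (τ : K) :
    PE a g * (C a * X) * QA a g + C τ * QB a g ≠ 0 := by
  by_cases hτ : τ = 0
  · rw [hτ, C_0, zero_mul, add_zero]
    exact mul_ne_zero (mul_ne_zero (n_PE a g ha hg) (mul_ne_zero (C_ne_zero.2 ha) X_ne_zero))
      (n_QA a g ha)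
  · have h1 : Dm (PE a g * (C a * X) * QA a g) 30 0 :=
      Dm.low (natDegree_mul_le_of_le (natDegree_mul_le_of_le (d_PE a g)
        (natDegree_mul_le_of_le (Dm.C a).1 Dm.X.1)) (d_QA a g).1) (by norm_num)
    refine (h1.add ((Dm.C τ).mul (d_QB a g))).ne ?_
    rw [zero_add]
    refine mul_ne_zero hτ (mul_ne_zero (pow_ne_zero _ ha) (pow_ne_zero _ (div_ne_zero
      (mul_ne_zero ha (pow_ne_zero _ (div_ne_zero (mul_ne_zero (by norm_num)
        (pow_ne_zero _ ha)) (by norm_num)))) (by norm_num))))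

end ne

/-- the generic value -/
theorem gen {K F : Type} [Field K] [CharZero K] [Field F] [Algebra K F] {s : F}
    (hs : Transcendental K s) {a : K} (ha : a ≠ 0) {g : ℕ → K} (hg : g 3 ≠ 0 ∨ g 5 ≠ 0) :
    ∃ τ x y : F, x ^ 2 - algebraMap K F a * y ^ 2 = 1 + algebraMap K F (g 2) * τ ^ 2 +
      algebraMap K F (g 3) * τ ^ 3 + algebraMap K F (g 4) * τ ^ 4 + algebraMap K F (g 5) * τ ^ 5 +
      algebraMap K F (g 6) * τ ^ 6 + algebraMap K F (g 7) * τ ^ 7 + algebraMap K F (g 8) * τ ^ 8 ∧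
      Transcendental K τ := by
  have hF : CharZero F := charZero_of_injective_algebraMap (algebraMap K F).injective
  -- the algebraic closure of `K` in `F`
  let A := algebraicClosure K F
  have hA : CharZero A := charZero_of_injective_algebraMap (algebraMap K A).injective
  have hsA : Transcendental A s := by
    intro h
    exact hs (h.restrictScalars K)
  let a' : A := algebraMap K A a
  let g' : ℕ → A := fun i => algebraMap K A (g i)
  have ha' : a' ≠ 0 := (_root_.map_ne_zero _).2 ha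
  have hg' : g' 3 ≠ 0 ∨ g' 5 ≠ 0 := hg.imp (fun h => (_root_.map_ne_zero _).2 h) fun h =>
    (_root_.map_ne_zero _).2 h
  have hev : ∀ P : A[X], P ≠ 0 → (P.map (algebraMap A F)).eval s ≠ 0 := by
    intro P hP h
    rw [eval_map_algebraMap] at h
    exact hsA ⟨P, hP, h⟩
  have haF : algebraMap A F a' = algebraMap K F a := rfl
  have hgF : (fun i => algebraMap A F (g' i)) = fun i => algebraMap K F (g i) := rfl
  set b : F := algebraMap K F a with hb
  set h : ℕ → F := fun i => algebraMap K F (g i) with hh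
  have hb0 : b ≠ 0 := (_root_.map_ne_zero _).2 ha
  have hs0 : s ≠ 0 := by
    rintro rfl
    exact hs isAlgebraic_zero
  have hE : EE b h s ≠ 0 := by
    have h1 := hev _ (n_PE a' g' ha' hg')
    rw [m_PE, haF, hgF, e_PE] at h1
    exact h1
  have hB : BB b h s ≠ 0 := by
    have h1 := hev _ (n_QB a' g' ha')
    rw [m_QB, haF, hgF, e_QB b h hb0 hs0 hE] at h1
    exact right_ne_zero_of_mul h1
  obtain ⟨τ, hτ⟩ : ∃ τ, AA b h s + BB b h s * τ = 0 :=
    ⟨-AA b h s / BB b h s, by field_simp; ring⟩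
  refine ⟨τ, _, _, core hb0 hs0 hE hτ, ?_⟩
  intro halg
  let τ' : A := ⟨τ, (mem_algebraicClosure_iff).2 halg⟩
  have h1 := hev _ (n_Q a' g' ha' hg' τ')
  apply h1
  have h2 : algebraMap A F τ' = τ := rfl
  rw [Polynomial.map_add, Polynomial.map_mul, Polynomial.map_mul, Polynomial.map_mul,
    Polynomial.map_mul, map_C, map_C, map_X, m_PE, m_QA, m_QB, haF, hgF, h2]
  simp only [eval_add, eval_mul, eval_C, eval_X, e_PE, e_QA b h hb0 hs0 hE, e_QB b h hb0 hs0 hE]
  linear_combination EE b h s ^ 4 * (b * s) ^ 2 * hτ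

end Pool.Agent.X95T.OC
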