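import Pool.Agent.X95T.OB1

/-!
# Rational curves on conic bundles of degree eight
-/

set_option autoImplicit false
set_option linter.unusedSectionVars false

open Polynomial

namespace Pool.Agent.X95T.OC

lemma m_nc {K F : Type} [Field K] [Field F] (φ : K →+* F) (c : ℕ → K) (i : ℕ) :
    φ (nc c i) = nc (fun j => φ (c j)) i := by
  unfold nc
  split <;> simp only [map_add, map_mul, map_pow, map_div₀, map_neg, map_ofNat, map_zero]

theorem genF {K F : Type} [Field K] [CharZero K] [Field F] [Algebra K F] {s : F}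
    (hs : Transcendental K s) {a : K} (ha : a ≠ 0) {P : K[X]} (hP : P.natDegree ≤ 8)
    {z0 w1 w2 : K} (hw : w1 ^ 2 - a * w2 ^ 2 = P.eval z0) (h0 : P.eval z0 ≠ 0)
    (hI : J3 (taylor z0 P).coeff ≠ 0 ∨ J5 (taylor z0 P).coeff ≠ 0) :
    ∃ z x y : F, x ^ 2 - algebraMap K F a * y ^ 2 = aeval z P ∧ Transcendental K z := by
  have hF : CharZero F := charZero_of_injective_algebraMap (algebraMap K F).injective
  set Q := taylor z0 P with hQ
  have hc0 : Q.coeff 0 = P.eval z0 := taylor_coeff_zero _ _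
  have hQ0 : Q.coeff 0 ≠ 0 := by rw [hc0]; exact h0
  have hg : nc Q.coeff 3 ≠ 0 ∨ nc Q.coeff 5 ≠ 0 := by
    rcases hI with h | h
    · left
      intro h3
      apply h
      rw [← nc3 _ hQ0, h3, mul_zero]
    · right
      intro h3
      apply h
      rw [← nc5 _ hQ0, h3, mul_zero]
  obtain ⟨T, x, y, hxy, hT⟩ := gen hs ha hg
  set γ : K := -Q.coeff 1 / (8 * Q.coeff 0) with hγ
  set φ := algebraMap K F with hφ
  have hu : 1 + φ γ * T ≠ 0 := by
    intro h
    by_cases hγ0 : γ = 0
    · rw [hγ0, map_zero] at h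
      simp at h
    · apply hT
      have h1 : T = φ (-1 / γ) := by
        have h2 : φ γ ≠ 0 := (_root_.map_ne_zero _).2 hγ0
        rw [map_div₀, map_neg, map_one, eq_div_iff h2]
        linear_combination h
      rw [h1]
      exact isAlgebraic_algebraMap _
  have hγ' : φ γ = -(fun j => φ (Q.coeff j)) 1 / (8 * (fun j => φ (Q.coeff j)) 0) := by
    rw [hγ, map_div₀, map_neg, map_mul, map_ofNat]
  have h4 := nc_poly (fun j => φ (Q.coeff j)) ((_root_.map_ne_zero φ).2 hQ0) T (φ γ) hγ'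
  simp only [m_nc] at hxy
  rw [← hxy] at h4
  have hd : Q.natDegree < 9 := by rw [hQ, natDegree_taylor]; omega
  have key : ∀ (c : ℕ → F) (u q : F), (c 0 + c 1 * q + c 2 * q ^ 2 + c 3 * q ^ 3 + c 4 * q ^ 4 +
      c 5 * q ^ 5 + c 6 * q ^ 6 + c 7 * q ^ 7 + c 8 * q ^ 8) * u ^ 8 =
      c 0 * u ^ 8 + c 1 * (q * u) * u ^ 7 + c 2 * (q * u) ^ 2 * u ^ 6 +
      c 3 * (q * u) ^ 3 * u ^ 5 + c 4 * (q * u) ^ 4 * u ^ 4 + c 5 * (q * u) ^ 5 * u ^ 3 +
      c 6 * (q * u) ^ 6 * u ^ 2 + c 7 * (q * u) ^ 7 * u + c 8 * (q * u) ^ 8 := by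
    intro c u q
    ring
  have h6 := key (fun j => φ (Q.coeff j)) (1 + φ γ * T) (T / (1 + φ γ * T))
  rw [div_mul_cancel₀ _ hu] at h6
  have h7 : aeval (T / (1 + φ γ * T)) Q * (1 + φ γ * T) ^ 8 =
      φ (Q.coeff 0) * (x ^ 2 - φ a * y ^ 2) := by
    rw [h4, aeval_def, eval₂_eq_sum_range' _ hd]
    simp only [Finset.sum_range_succ, Finset.sum_range_zero, pow_zero, mul_one, pow_one, zero_add]
    exact h6
  have h8 : aeval (T / (1 + φ γ * T)) Q = aeval (T / (1 + φ γ * T) + φ z0) P := by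
    rw [hQ, taylor_apply, aeval_comp]
    simp [hφ]
  refine ⟨T / (1 + φ γ * T) + φ z0, (φ w1 * x + φ a * φ w2 * y) / (1 + φ γ * T) ^ 4,
    (φ w1 * y + φ w2 * x) / (1 + φ γ * T) ^ 4, ?_, ?_⟩
  · rw [← h8]
    have h9 : φ w1 ^ 2 - φ a * φ w2 ^ 2 = φ (Q.coeff 0) := by
      rw [hc0, ← hw, map_sub, map_mul, map_pow, map_pow]
    have h10 : ((φ w1 * x + φ a * φ w2 * y) / (1 + φ γ * T) ^ 4) ^ 2 -
        φ a * ((φ w1 * y + φ w2 * x) / (1 + φ γ * T) ^ 4) ^ 2 =
        (φ w1 ^ 2 - φ a * φ w2 ^ 2) * (x ^ 2 - φ a * y ^ 2) / (1 + φ γ * T) ^ 8 := by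
      field_simp
      ring
    rw [h10, h9, div_eq_iff (pow_ne_zero 8 hu)]
    exact h7.symm
  · intro h
    apply hT
    have h1 : IsAlgebraic K (T / (1 + φ γ * T)) := by
      have h2 := h.sub (isAlgebraic_algebraMap (A := F) z0)
      rwa [add_sub_cancel_right] at h2
    set τ := T / (1 + φ γ * T) with hτ
    have h2 : T * (1 - φ γ * τ) = τ := by
      have h3 : τ * (1 + φ γ * T) = T := div_mul_cancel₀ _ hu
      linear_combination -h3
    have h3 : 1 - φ γ * τ ≠ 0 := by
      intro h4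
      rw [h4, mul_zero] at h2
      rw [← h2, mul_zero, sub_zero] at h4
      exact one_ne_zero h4
    have h5 : T = τ / (1 - φ γ * τ) := by
      rw [eq_div_iff h3, h2]
    rw [h5, div_eq_mul_inv]
    exact h1.mul ((isAlgebraic_one.sub ((isAlgebraic_algebraMap γ).mul h1)).inv)

/-- the norm one torus -/
theorem rot {K F : Type} [Field K] [CharZero K] [Field F] [Algebra K F] {u : F}
    (hu : Transcendental K u) {a x y : K} (ha : a ≠ 0) (hxy : x ^ 2 - a * y ^ 2 ≠ 0) :
    ∃ x' y' : F, x' ^ 2 - algebraMap K F a * y' ^ 2 = algebraMap K F (x ^ 2 - a * y ^ 2) ∧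
      Transcendental K y' := by
  have hF : CharZero F := charZero_of_injective_algebraMap (algebraMap K F).injective
  set φ := algebraMap K F with hφ
  let A := algebraicClosure K F
  have huA : Transcendental A u := by
    intro h
    exact hu (h.restrictScalars K)
  have hd : u ^ 2 - φ a ≠ 0 := by
    intro h
    apply hu
    refine ⟨X ^ 2 - C a, X_pow_sub_C_ne_zero (by norm_num) a, ?_⟩
    simp only [map_sub, map_pow, aeval_X, aeval_C]
    exact h
  refine ⟨((u ^ 2 + φ a) * φ x + 2 * φ a * u * φ y) / (u ^ 2 - φ a),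
    (2 * u * φ x + (u ^ 2 + φ a) * φ y) / (u ^ 2 - φ a), ?_, ?_⟩
  · rw [map_sub, map_mul, map_pow, map_pow]
    field_simp
    ring
  · intro halg
    set y' := (2 * u * φ x + (u ^ 2 + φ a) * φ y) / (u ^ 2 - φ a) with hy'
    have h1 : y' * (u ^ 2 - φ a) = 2 * u * φ x + (u ^ 2 + φ a) * φ y := div_mul_cancel₀ _ hd
    let η : A := ⟨y', mem_algebraicClosure_iff.2 halg⟩
    let R : A[X] := C (η - algebraMap K A y) * X ^ 2 - C (2 * algebraMap K A x) * X -
      C (algebraMap K A a * (η + algebraMap K A y))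
    have hR : R = 0 := by
      by_contra hne
      apply huA
      refine ⟨R, hne, ?_⟩
      have e1 : algebraMap A F η = y' := rfl
      have e2 : ∀ c : K, algebraMap A F (algebraMap K A c) = φ c := fun c => rfl
      simp only [R, map_sub, map_mul, map_add, map_pow, aeval_X, aeval_C, e1, e2, map_ofNat]
      linear_combination h1
    have cc : ∀ p q r : A, (C p * X ^ 2 - C q * X - C r : A[X]).coeff 1 = -q ∧
        (C p * X ^ 2 - C q * X - C r : A[X]).coeff 2 = p ∧
        (C p * X ^ 2 - C q * X - C r : A[X]).coeff 0 = -r := by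
      intro p q r
      refine ⟨?_, ?_, ?_⟩
      · simp [coeff_X_pow]
      · simp
      · simp
    have c1 : R.coeff 1 = -(2 * algebraMap K A x) := (cc _ _ _).1
    have c2 : R.coeff 2 = η - algebraMap K A y := (cc _ _ _).2.1
    have c0 : R.coeff 0 = -(algebraMap K A a * (η + algebraMap K A y)) := (cc _ _ _).2.2
    rw [hR, coeff_zero] at c0 c1 c2
    have hA : CharZero A := charZero_of_injective_algebraMap (algebraMap K A).injective
    have hx : x = 0 := by
      have h2 : (2 : A) * algebraMap K A x = 0 := by linear_combination c1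
      have h3 := (mul_eq_zero.1 h2).resolve_left two_ne_zero
      exact (map_eq_zero _).1 h3
    have hη : η = algebraMap K A y := by linear_combination -c2
    have hy : y = 0 := by
      rw [hη] at c0
      have h2 : (2 : A) * (algebraMap K A a * algebraMap K A y) = 0 := by linear_combination c0
      have h3 := (mul_eq_zero.1 h2).resolve_left two_ne_zero
      have h4 := (mul_eq_zero.1 h3).resolve_left ((_root_.map_ne_zero _).2 ha)
      exact (map_eq_zero _).1 h4
    apply hxy
    rw [hx, hy]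
    ring

end Pool.Agent.X95T.OC
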