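import Pool.Agent.X95T.OB2
import Pool.Agent.Y200.QB.Ind
import Pool.Agent.Y200.QB.Pt

/-!
# Unirationality of threefolds fibred in conics
-/

set_option autoImplicit false
set_option linter.unusedSectionVars false

open Polynomial

namespace Pool.Agent.X95T.OC

open Pool.Agent.Y200.QB (indep_split indep_cons tsen_point)

lemma hasse_map {R S : Type} [CommRing R] [CommRing S] (φ : R →+* S) (n : ℕ) (f : R[X]) :
    (hasseDeriv n f).map φ = hasseDeriv n (f.map φ) := by
  ext i
  rw [coeff_map, hasseDeriv_coeff, hasseDeriv_coeff, coeff_map, map_mul, map_natCast]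

theorem top {k : Type} [Field k] [IsAlgClosed k] [CharZero k] {a : k[X]} (ha : a ≠ 0)
    {f : k[X][X]} (hf : f.natDegree ≤ 8) (hJ : J3 (fun i => hasseDeriv i f) ≠ 0) :
    ∃ v z y w : FractionRing (MvPolynomial (Fin 3) k),
      w ^ 2 - aeval v a * y ^ 2 = (f.map (aeval v : k[X] →ₐ[k] _).toRingHom).eval z ∧
      AlgebraicIndependent k ![v, z, y] := by
  classical
  obtain ⟨S, hS⟩ : ∃ S : Fin 3 → FractionRing (MvPolynomial (Fin 3) k),
      AlgebraicIndependent k S := by
    have h := MvPolynomial.algebraicIndependent_X (σ := Fin 3) (R := k)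
    exact ⟨_, h.map' (f := IsScalarTower.toAlgHom k (MvPolynomial (Fin 3) k)
      (FractionRing (MvPolynomial (Fin 3) k)))
      (IsFractionRing.injective (MvPolynomial (Fin 3) k) (FractionRing (MvPolynomial (Fin 3) k)))⟩
  obtain ⟨hv, hS1⟩ := indep_split S hS
  obtain ⟨hs, hS2⟩ := indep_split (fun i : Fin 2 => S i.succ) hS1
  obtain ⟨hu, -⟩ := indep_split (fun i : Fin 1 => S i.succ.succ) hS2
  let K := IntermediateField.adjoin k {S 0}
  let F1 := IntermediateField.adjoin K {S (0 : Fin 2).succ}
  have hK : CharZero K := charZero_of_injective_algebraMap (algebraMap k K).injective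
  have hF1 : CharZero F1 := charZero_of_injective_algebraMap (algebraMap K F1).injective
  let vK : K := ⟨S 0, IntermediateField.subset_adjoin _ _ rfl⟩
  have hvK : Transcendental k vK := fun h => hv (h.algebraMap (A := FractionRing (MvPolynomial (Fin 3) k)))
  let φ : k[X] →ₐ[k] K := aeval vK
  have hφ : Function.Injective φ := transcendental_iff_injective.1 hvK
  have haK : φ a ≠ 0 := (map_ne_zero_iff _ hφ).2 ha
  let P : K[X] := f.map φ.toRingHom
  have hPd : P.natDegree ≤ 8 := natDegree_map_le.trans hf
  have hJP : J3 (fun i => hasseDeriv i P) = (J3 (fun i => hasseDeriv i f)).map φ.toRingHom := by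
    unfold J3
    simp only [Polynomial.map_add, Polynomial.map_sub, Polynomial.map_mul, Polynomial.map_pow,
      Polynomial.map_ofNat, hasse_map]
    rfl
  have hJ' : J3 (fun i => hasseDeriv i P) ≠ 0 := by
    rw [hJP]
    exact (Polynomial.map_ne_zero_iff hφ).2 hJ
  have hP0 : P ≠ 0 := by
    intro h
    apply hJ'
    rw [h]
    unfold J3
    simp
  obtain ⟨c, hc⟩ : ∃ c : k, (J3 (fun i => hasseDeriv i P) * P).eval (algebraMap k K c) ≠ 0 := by
    by_contra hcon
    push Not at hcon
    apply mul_ne_zero hJ' hP0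
    refine eq_zero_of_infinite_isRoot _ ?_
    exact (Set.infinite_range_of_injective (algebraMap k K).injective).mono (by
      rintro _ ⟨c, rfl⟩
      exact hcon c)
  rw [eval_mul] at hc
  have hc1 : J3 (taylor (algebraMap k K c) P).coeff ≠ 0 := by
    have h1 : J3 (taylor (algebraMap k K c) P).coeff =
        (J3 (fun i => hasseDeriv i P)).eval (algebraMap k K c) := by
      unfold J3
      simp only [taylor_coeff, eval_add, eval_sub, eval_mul, eval_pow, eval_ofNat]
    rw [h1]
    exact left_ne_zero_of_mul hc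
  have hc2 : P.eval (algebraMap k K c) ≠ 0 := right_ne_zero_of_mul hc
  obtain ⟨t0, y0, hty⟩ := tsen_point (S 0) hv (φ a) 0 (P.eval (algebraMap k K c)) haK
  let sF : F1 := ⟨S (0 : Fin 2).succ, IntermediateField.subset_adjoin _ _ rfl⟩
  have hsF : Transcendental K sF :=
    fun h => hs (h.algebraMap (A := FractionRing (MvPolynomial (Fin 3) k)))
  obtain ⟨z, x, y, hxy, hz⟩ := genF hsF haK hPd (z0 := algebraMap k K c) (w1 := y0) (w2 := t0)
    (by rw [hty]; ring) hc2 (Or.inl hc1)
  have hzP : x ^ 2 - algebraMap K F1 (φ a) * y ^ 2 ≠ 0 := by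
    rw [hxy]
    intro h
    exact hz ⟨P, hP0, h⟩
  obtain ⟨x', y', hxy', hy'⟩ := rot hu ((_root_.map_ne_zero (algebraMap K F1)).2 haK) hzP
  have i1 : AlgebraicIndependent F1 (fun _ : Fin 1 => y') := by
    rw [algebraicIndependent_unique_type_iff]
    exact hy'
  have i2 := indep_cons (F := K) (F' := F1) z hz (fun _ : Fin 1 => y') i1
  have i3 := indep_cons (F := k) (F' := K) vK hvK _ i2
  refine ⟨S 0, (z : FractionRing (MvPolynomial (Fin 3) k)), y', x', ?_, ?_⟩
  · have e1 : algebraMap F1 (FractionRing (MvPolynomial (Fin 3) k)) (algebraMap K F1 (φ a)) =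
        aeval (S 0) a := by
      show algebraMap K (FractionRing (MvPolynomial (Fin 3) k)) (aeval vK a) = _
      rw [← aeval_algebraMap_apply]
      rfl
    rw [e1] at hxy'
    rw [hxy', hxy]
    show algebraMap F1 (FractionRing (MvPolynomial (Fin 3) k)) (aeval z P) = _
    rw [← aeval_algebraMap_apply, aeval_def, ← eval_map, Polynomial.map_map]
    congr 2
    refine RingHom.ext fun q => ?_
    show algebraMap K (FractionRing (MvPolynomial (Fin 3) k)) (aeval vK q) = aeval (S 0) q
    rw [← aeval_algebraMap_apply]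
    rfl
  · have i4 : (![S 0, (z : FractionRing (MvPolynomial (Fin 3) k)), y'] :
        Fin 3 → FractionRing (MvPolynomial (Fin 3) k)) =
        Fin.cons (algebraMap K (FractionRing (MvPolynomial (Fin 3) k)) vK)
          (Fin.cons (algebraMap F1 (FractionRing (MvPolynomial (Fin 3) k)) z)
            fun _ : Fin 1 => y') := by
      funext i
      fin_cases i <;> rfl
    rw [i4]
    exact i3

end Pool.Agent.X95T.OC
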