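import Pool.Agent.X95T.OB3

/-!
# Unirationality of threefolds fibred in conics: the kernel
-/

set_option autoImplicit false
set_option linter.unusedSectionVars false

namespace Pool.Agent.X95T.OC

open Pool.Agent.Y200.QB (kernel)
open MvPolynomial

variable {k : Type} [Field k]

/-- the polynomial `a(x) v² + f(x, y)` -/
noncomputable def rhs (a : Polynomial k) (f : Polynomial (Polynomial k)) :
    MvPolynomial (Fin 3) k :=
  Polynomial.aeval (X 0) a * X 2 ^ 2 +
    Polynomial.eval₂ (Polynomial.aeval (X 0 : MvPolynomial (Fin 3) k)).toRingHom (X 1) f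

lemma rhs_eval (a : Polynomial k) (f : Polynomial (Polynomial k)) {A : Type} [CommRing A]
    [Algebra k A] (w : Fin 3 → A) :
    aeval w (rhs a f) = Polynomial.aeval (w 0) a * w 2 ^ 2 +
      (f.map (Polynomial.aeval (w 0) : Polynomial k →ₐ[k] A).toRingHom).eval (w 1) := by
  unfold rhs
  have h1 : ∀ q : Polynomial k, aeval w (Polynomial.aeval (X 0 : MvPolynomial (Fin 3) k) q) =
      Polynomial.aeval (w 0) q := by
    intro q
    rw [← Polynomial.aeval_algHom_apply, aeval_X]
  rw [map_add, map_mul, map_pow, aeval_X, h1, Polynomial.eval_map]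
  congr 1
  have h2 := Polynomial.hom_eval₂ f
    (Polynomial.aeval (X 0 : MvPolynomial (Fin 3) k)).toRingHom
    (aeval w : MvPolynomial (Fin 3) k →ₐ[k] A).toRingHom (X 1)
  have h3 : (aeval w : MvPolynomial (Fin 3) k →ₐ[k] A).toRingHom (X 1) = w 1 := aeval_X _ _
  rw [h3] at h2
  refine Eq.trans h2 ?_
  congr 1
  refine RingHom.ext fun q => h1 q

lemma rhs_nonsq [IsAlgClosed k] [CharZero k] {a : Polynomial k} {f : Polynomial (Polynomial k)}
    (ha : a ≠ 0) (hf : f ≠ 0) (c : MvPolynomial (Fin 3) k) : c ^ 2 ≠ rhs a f := by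
  intro hc
  obtain ⟨n, hn⟩ : ∃ n, f.coeff n ≠ 0 := by
    by_contra h
    push Not at h
    exact hf (Polynomial.ext h)
  obtain ⟨x0, hx0⟩ : ∃ x0, (a * f.coeff n).eval x0 ≠ 0 := by
    by_contra h
    push Not at h
    exact mul_ne_zero ha hn (Polynomial.funext fun x => by rw [h, Polynomial.eval_zero])
  rw [Polynomial.eval_mul] at hx0
  have hfx : f.map (Polynomial.aeval x0 : Polynomial k →ₐ[k] k).toRingHom ≠ 0 := by
    intro h
    have h1 := congrArg (fun P => P.coeff n) h
    simp only [Polynomial.coeff_map, Polynomial.coeff_zero] at h1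
    exact right_ne_zero_of_mul hx0 h1
  obtain ⟨y0, hy0⟩ : ∃ y0, (f.map (Polynomial.aeval x0 : Polynomial k →ₐ[k] k).toRingHom).eval y0 ≠
      0 := by
    by_contra h
    push Not at h
    exact hfx (Polynomial.funext fun x => by rw [h, Polynomial.eval_zero])
  -- restriction to a line
  set h : Polynomial k := aeval ![Polynomial.C x0, Polynomial.C y0, Polynomial.X] c with hh
  have hev : ∀ t : k, h.eval t ^ 2 = a.eval x0 * t ^ 2 +
      (f.map (Polynomial.aeval x0 : Polynomial k →ₐ[k] k).toRingHom).eval y0 := by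
    intro t
    have h1 : h.eval t = aeval ![x0, y0, t] c := by
      have h2 := MvPolynomial.comp_aeval_apply (R := k) ![Polynomial.C x0, Polynomial.C y0, Polynomial.X]
        (Polynomial.aeval t : Polynomial k →ₐ[k] k) c
      have h3 : (Polynomial.aeval t : Polynomial k →ₐ[k] k) h = h.eval t := by
        rw [Polynomial.coe_aeval_eq_eval]
      rw [← h3, hh, h2]
      congr 2
      funext i
      fin_cases i <;> simp
    rw [h1, ← map_pow, hc, rhs_eval]
    rfl
  have hβ := hy0
  set β := (f.map (Polynomial.aeval x0 : Polynomial k →ₐ[k] k).toRingHom).eval y0 with hβ'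
  have hα : a.eval x0 ≠ 0 := left_ne_zero_of_mul hx0
  have hpol : h ^ 2 = Polynomial.C (a.eval x0) * Polynomial.X ^ 2 + Polynomial.C β := by
    refine Polynomial.funext fun t => ?_
    rw [Polynomial.eval_pow, hev]
    simp
  have hdeg : h.degree ≠ 0 := by
    intro hd
    have h1 := Polynomial.eq_C_of_degree_eq_zero hd
    have h2 : (h ^ 2).coeff 2 = 0 := by
      rw [h1, ← Polynomial.C_pow]
      exact Polynomial.coeff_C_of_ne_zero (by norm_num)
    rw [hpol, Polynomial.coeff_add, Polynomial.coeff_C_mul, Polynomial.coeff_X_pow, if_pos rfl,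
      mul_one, Polynomial.coeff_C_of_ne_zero (by norm_num), add_zero] at h2
    exact hα h2
  obtain ⟨r, hr⟩ := IsAlgClosed.exists_root h hdeg
  have hr' : h.eval r = 0 := hr
  have e1 := hev r
  rw [hr'] at e1
  have e2 := congrArg (fun P => (Polynomial.derivative P).eval r) hpol
  simp only [Polynomial.derivative_pow, Polynomial.derivative_add, Polynomial.derivative_mul,
    Polynomial.derivative_C, Polynomial.derivative_X, Polynomial.eval_mul, Polynomial.eval_add,
    Polynomial.eval_pow, Polynomial.eval_C, Polynomial.eval_X, hr'] at e2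
  norm_num at e2
  rcases e2 with e2 | e2
  · exact hα e2
  · rw [e2] at e1
    apply hβ
    linear_combination -e1

theorem unir [IsAlgClosed k] [CharZero k] {a : Polynomial k} (ha : a ≠ 0)
    {f : Polynomial (Polynomial k)} (hf : f.natDegree ≤ 8)
    (hJ : J3 (fun i => Polynomial.hasseDeriv i f) ≠ 0) :
    ∃ P : Fin 4 → FractionRing (MvPolynomial (Fin 3) k), ∀ G : MvPolynomial (Fin 4) k,
      aeval P G = 0 ↔ (X 0 ^ 2 - rename Fin.succ (rhs a f)) ∣ G := by
  have hf0 : f ≠ 0 := by
    rintro rfl
    apply hJ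
    unfold J3
    simp
  obtain ⟨v, z, y, w, hw, hi⟩ := top ha hf hJ
  refine ⟨Fin.cons w ![v, z, y], fun G => kernel (rhs a f) (rhs_nonsq ha hf0) _ hi w ?_ G⟩
  rw [rhs_eval]
  show w ^ 2 = Polynomial.aeval v a * y ^ 2 + _
  rw [← sub_eq_iff_eq_add']
  exact hw

end Pool.Agent.X95T.OC
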