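import Pool.Agent.X95T.OB2

/-!
# Polynomials whose covariant vanishes are fourth powers
-/

set_option autoImplicit false
set_option linter.unusedSectionVars false

open Polynomial

namespace Pool.Agent.X95T.OC

variable {K : Type} [Field K] [CharZero K]

/-- the differential polynomial `3 J3` -/
noncomputable def DE (P : K[X]) : K[X] :=
  21 * derivative P ^ 3 - 36 * P * derivative P * derivative (derivative P) +
    16 * P ^ 2 * derivative (derivative (derivative P))

lemma DE_eq (P : K[X]) : DE P = 3 * J3 (fun i => hasseDeriv i P) := by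
  have h1 : hasseDeriv 1 P = derivative P := hasseDeriv_one' P
  have h2 : 2 * hasseDeriv 2 P = derivative (derivative P) := by
    have := congrArg (fun L => L P) (factorial_smul_hasseDeriv (R := K) 2)
    simpa [Nat.factorial] using this
  have h3 : 6 * hasseDeriv 3 P = derivative (derivative (derivative P)) := by
    have := congrArg (fun L => L P) (factorial_smul_hasseDeriv (R := K) 3)
    simpa [Nat.factorial] using this
  have h0 : hasseDeriv 0 P = P := hasseDeriv_zero' P
  unfold DE J3
  beta_reduce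
  rw [← h3, ← h2, h1, h0]
  ring

/-- uniqueness -/
lemma DE_uniq {P Q : K[X]} (hP : DE P = 0) (hQ : DE Q = 0) (h0 : P.coeff 0 ≠ 0)
    (hd : X ^ 3 ∣ P - Q) : P = Q := by
  by_contra hne
  set D := P - Q with hD
  have hD0 : D ≠ 0 := sub_ne_zero.2 hne
  obtain ⟨E, hE, hEX⟩ := exists_eq_pow_rootMultiplicity_mul_and_not_dvd D hD0 0
  rw [C_0, sub_zero] at hE hEX
  set n := D.rootMultiplicity 0 with hn
  have hn3 : 3 ≤ n := by
    rw [hn, le_rootMultiplicity_iff hD0, C_0, sub_zero]
    exact hd
  obtain ⟨m, hm⟩ := Nat.exists_eq_add_of_le hn3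
  have hn' : n = m + 3 := by omega
  rw [hn'] at hE
  -- derivatives
  have d1 : derivative D = X ^ (m + 2) * (C ((m : K) + 3) * E + X * derivative E) := by
    rw [hE, derivative_mul, derivative_X_pow]
    simp only [Nat.cast_add, Nat.cast_ofNat, Nat.add_sub_cancel, map_add, map_natCast, map_ofNat]
    have : m + 3 - 1 = m + 2 := by omega
    rw [this]
    ring
  obtain ⟨E1, hE1⟩ : ∃ E1, E1 = C ((m : K) + 3) * E + X * derivative E := ⟨_, rfl⟩
  rw [← hE1] at d1
  have d2 : derivative (derivative D) = X ^ (m + 1) * (C ((m : K) + 2) * E1 + X * derivative E1) := by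
    rw [d1, derivative_mul, derivative_X_pow]
    simp only [Nat.cast_add, Nat.cast_ofNat, map_add, map_natCast, map_ofNat]
    have : m + 2 - 1 = m + 1 := by omega
    rw [this]
    ring
  obtain ⟨E2, hE2⟩ : ∃ E2, E2 = C ((m : K) + 2) * E1 + X * derivative E1 := ⟨_, rfl⟩
  rw [← hE2] at d2
  have d3 : derivative (derivative (derivative D)) =
      X ^ m * (C ((m : K) + 1) * E2 + X * derivative E2) := by
    rw [d2, derivative_mul, derivative_X_pow]
    simp only [Nat.cast_add, Nat.cast_one, map_add, map_natCast, map_one]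
    have : m + 1 - 1 = m := by omega
    rw [this]
    ring
  have r1 : derivative D = derivative P - derivative Q := by rw [hD, derivative_sub]
  have r2 : derivative (derivative D) = derivative (derivative P) - derivative (derivative Q) := by
    rw [r1, derivative_sub]
  have r3 : derivative (derivative (derivative D)) = derivative (derivative (derivative P)) -
      derivative (derivative (derivative Q)) := by rw [r2, derivative_sub]
  have e1 : 16 * P ^ 2 * derivative (derivative (derivative D)) =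
      -(derivative D * (21 * (derivative P ^ 2 + derivative P * derivative Q +
        derivative Q ^ 2))) + (D * (36 * (derivative P * derivative (derivative P))) +
        derivative D * (36 * (Q * derivative (derivative P))) +
        derivative (derivative D) * (36 * (Q * derivative Q))) -
        D * (16 * ((P + Q) * derivative (derivative (derivative Q)))) := by
    rw [r3, r2, r1, hD]
    unfold DE at hP hQ
    linear_combination hP - hQ
  have v0 : X ^ (m + 1) ∣ D := by
    rw [hE]
    exact dvd_mul_of_dvd_left (pow_dvd_pow _ (by omega)) _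
  have v1 : X ^ (m + 1) ∣ derivative D := by
    rw [d1]
    exact dvd_mul_of_dvd_left (pow_dvd_pow _ (by omega)) _
  have v2 : X ^ (m + 1) ∣ derivative (derivative D) := by
    rw [d2]
    exact dvd_mul_right _ _
  have v3 : X ^ (m + 1) ∣ 16 * P ^ 2 * derivative (derivative (derivative D)) := by
    rw [e1]
    exact dvd_sub (dvd_add ((dvd_mul_of_dvd_left v1 _).neg_right)
      (dvd_add (dvd_add (dvd_mul_of_dvd_left v0 _) (dvd_mul_of_dvd_left v1 _))
        (dvd_mul_of_dvd_left v2 _))) (dvd_mul_of_dvd_left v0 _)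
  have v4 : (X : K[X]) ∣ C 16 * P ^ 2 * (C ((m : K) + 1) * E2 + X * derivative E2) := by
    have h1 : 16 * P ^ 2 * derivative (derivative (derivative D)) =
        X ^ m * (C 16 * P ^ 2 * (C ((m : K) + 1) * E2 + X * derivative E2)) := by
      rw [d3, show (C 16 : K[X]) = 16 from map_ofNat C 16]
      ring
    rw [h1, pow_succ] at v3
    exact (mul_dvd_mul_iff_left (pow_ne_zero m X_ne_zero)).1 v3
  have hun : ∀ c : K, c ≠ 0 → ¬ (X : K[X]) ∣ C c := by
    intro c hc h
    rw [X_dvd_iff, coeff_C_zero] at h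
    exact hc h
  have step : ∀ (c : K) (A B : K[X]), c ≠ 0 → (X : K[X]) ∣ C c * A + X * B → X ∣ A := by
    intro c A B hc h
    have h1 := (dvd_add_left (dvd_mul_right X B)).1 h
    exact (prime_X.dvd_or_dvd h1).resolve_left (hun c hc)
  have hm1 : (m : K) + 1 ≠ 0 := by
    have : ((m + 1 : ℕ) : K) ≠ 0 := Nat.cast_ne_zero.2 (by omega)
    push_cast at this
    exact this
  have hm2 : (m : K) + 2 ≠ 0 := by
    have : ((m + 2 : ℕ) : K) ≠ 0 := Nat.cast_ne_zero.2 (by omega)
    push_cast at this
    exact this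
  have hm3 : (m : K) + 3 ≠ 0 := by
    have : ((m + 3 : ℕ) : K) ≠ 0 := Nat.cast_ne_zero.2 (by omega)
    push_cast at this
    exact this
  rcases prime_X.dvd_or_dvd v4 with h | h
  · rcases prime_X.dvd_or_dvd h with h | h
    · exact hun 16 (by norm_num) h
    · have h1 := prime_X.dvd_of_dvd_pow h
      rw [X_dvd_iff] at h1
      exact h0 h1
  · have h1 := step _ _ _ hm1 h
    rw [hE2] at h1
    have h2 := step _ _ _ hm2 h1
    rw [hE1] at h2
    exact hEX (step _ _ _ hm3 h2)

lemma DE_pow (c : K) {q : K[X]} (hq : derivative (derivative (derivative q)) = 0) :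
    DE (C c * q ^ 4) = 0 := by
  have h4 : q ^ 4 = q * q * (q * q) := by ring
  rw [h4]
  unfold DE
  simp only [derivative_mul, derivative_add, derivative_C, hq, mul_zero, zero_mul, add_zero,
    zero_add]
  ring

lemma fourth {P : K[X]} (hP : DE P = 0) (h0 : P.coeff 0 ≠ 0) :
    ∃ q : K[X], P = C (P.coeff 0) * q ^ 4 := by
  set p0 := P.coeff 0 with hp0
  set p1 := P.coeff 1 with hp1
  set p2 := P.coeff 2 with hp2
  obtain ⟨α, hα⟩ : ∃ α, p0 * (4 * α) = p1 := ⟨p1 / (4 * p0), by field_simp⟩
  obtain ⟨β, hβ⟩ : ∃ β, p0 * (4 * β + 6 * α ^ 2) = p2 := ⟨(p2 / p0 - 6 * α ^ 2) / 4, by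
    field_simp
    ring⟩
  let q : K[X] := 1 + C α * X + C β * X ^ 2
  have hq3 : derivative (derivative (derivative q)) = 0 := by
    simp [q]
  refine ⟨q, DE_uniq hP (DE_pow p0 hq3) h0 ?_⟩
  obtain ⟨R, hR⟩ : ∃ R : K[X], q ^ 4 = 1 + C (4 * α) * X + C (4 * β + 6 * α ^ 2) * X ^ 2 +
      X ^ 3 * R := by
    refine ⟨C (4 * α ^ 3 + 12 * α * β) + C (α ^ 4 + 12 * α ^ 2 * β + 6 * β ^ 2) * X +
      C (4 * α ^ 3 * β + 12 * α * β ^ 2) * X ^ 2 + C (6 * α ^ 2 * β ^ 2 + 4 * β ^ 3) * X ^ 3 +
      C (4 * α * β ^ 3) * X ^ 4 + C (β ^ 4) * X ^ 5, ?_⟩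
    simp only [q, map_add, map_mul, map_pow, map_ofNat]
    ring
  rw [X_pow_dvd_iff]
  intro d hd
  rw [coeff_sub, hR, coeff_C_mul]
  simp only [coeff_add, coeff_C_mul, coeff_X_pow_mul', coeff_X_pow, coeff_X, coeff_one]
  interval_cases d
  · simp [hp0]
  · simp
    rw [sub_eq_zero]
    exact hα.symm
  · simp
    rw [sub_eq_zero]
    exact hβ.symm

lemma DE_taylor {P : K[X]} (hP : J3 (fun i => hasseDeriv i P) = 0) (c : K) :
    DE (taylor c P) = 0 := by
  have h1 : DE P = 0 := by rw [DE_eq, hP, mul_zero]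
  have h2 : ∀ Q : K[X], derivative (taylor c Q) = taylor c (derivative Q) := by
    intro Q
    rw [taylor_apply, taylor_apply, derivative_comp]
    simp
  have h3 := congrArg (compRingHom (X + C c)) h1
  unfold DE at h3 ⊢
  rw [h2, h2, h2]
  simp only [map_add, map_sub, map_mul, map_pow, map_ofNat, map_zero] at h3
  exact h3

end Pool.Agent.X95T.OC
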