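import Pool.Agent.X95T.OC1
import Pool.Agent.X95T.OB4

/-!
# Unirationality of threefolds fibred in conics, without exceptions
-/

set_option autoImplicit false
set_option linter.unusedSectionVars false

open Polynomial

namespace Pool.Agent.X95T.OC

open Pool.Agent.Y200.QB (indep_split indep_cons tsen_point kernel)

lemma J3_hasse {K : Type} [Field K] (P : K[X]) (c : K) : J3 (taylor c P).coeff =
    (J3 (fun i => hasseDeriv i P)).eval c := by
  unfold J3
  simp only [taylor_coeff, eval_add, eval_sub, eval_mul, eval_pow, eval_ofNat]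

theorem exF {K F : Type} [Field K] [CharZero K] [Field F] [Algebra K F] {s : F}
    (hs : Transcendental K s) {a : K} {P : K[X]} (hP : P.natDegree ≤ 8)
    (hP0 : P ≠ 0) (hT : ∀ D : K, ∃ t0 y0 : K, y0 ^ 2 = a * t0 ^ 2 + 0 * t0 + D)
    (ha : a ≠ 0) :
    ∃ z x y : F, x ^ 2 - algebraMap K F a * y ^ 2 = aeval z P ∧ Transcendental K z := by
  by_cases hJ : J3 (fun i => hasseDeriv i P) = 0
  · obtain ⟨c, hc⟩ : ∃ c : K, P.eval c ≠ 0 := by
      by_contra hcon
      push Not at hcon
      exact hP0 (Polynomial.funext fun x => by rw [hcon, eval_zero])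
    have h1 : (taylor c P).coeff 0 ≠ 0 := by
      rw [taylor_coeff_zero]
      exact hc
    obtain ⟨q, hq⟩ := fourth (DE_taylor hJ c) h1
    obtain ⟨t0, y0, hty⟩ := hT ((taylor c P).coeff 0)
    refine ⟨s, algebraMap K F y0 * aeval (s - algebraMap K F c) q ^ 2,
      algebraMap K F t0 * aeval (s - algebraMap K F c) q ^ 2, ?_, hs⟩
    have h2 : aeval (s - algebraMap K F c) (taylor c P) = aeval s P := by
      rw [taylor_apply, aeval_comp]
      simp
    rw [← h2, hq, map_mul, map_pow, aeval_C]
    have h3 := congrArg (algebraMap K F) hty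
    simp only [map_add, map_mul, map_pow, map_zero, zero_mul, add_zero] at h3
    linear_combination aeval (s - algebraMap K F c) q ^ 4 * h3
  · obtain ⟨c, hc⟩ : ∃ c : K, (J3 (fun i => hasseDeriv i P) * P).eval c ≠ 0 := by
      by_contra hcon
      push Not at hcon
      exact mul_ne_zero hJ hP0 (Polynomial.funext fun x => by rw [hcon, eval_zero])
    rw [eval_mul] at hc
    obtain ⟨t0, y0, hty⟩ := hT (P.eval c)
    exact genF hs ha hP (z0 := c) (w1 := y0) (w2 := t0) (by rw [hty]; ring)
      (right_ne_zero_of_mul hc) (Or.inl (by rw [J3_hasse]; exact left_ne_zero_of_mul hc))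

theorem top' {k : Type} [Field k] [IsAlgClosed k] [CharZero k] {a : k[X]} (ha : a ≠ 0)
    {f : k[X][X]} (hf : f.natDegree ≤ 8) (hf0 : f ≠ 0) :
    ∃ v z y w : FractionRing (MvPolynomial (Fin 3) k),
      w ^ 2 - aeval v a * y ^ 2 = (f.map (aeval v : k[X] →ₐ[k] _).toRingHom).eval z ∧
      AlgebraicIndependent k ![v, z, y] := by
  classical
  obtain ⟨S, hS⟩ : ∃ S : Fin 3 → FractionRing (MvPolynomial (Fin 3) k),
      AlgebraicIndependent k S := by
    have h := MvPolynomial.algebraicIndependent_X (σ := Fin 3) (R := k)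
    exact ⟨_, h.map' (f := IsScalarTower.toAlgHom k (MvPolynomial (Fin 3) k)
      (FractionRing (MvPolynomial (Fin 3) k)))
      (IsFractionRing.injective (MvPolynomial (Fin 3) k) (FractionRing (MvPolynomial (Fin 3) k)))⟩
  obtain ⟨hv, hS1⟩ := indep_split S hS
  obtain ⟨hs, hS2⟩ := indep_split (fun i : Fin 2 => S i.succ) hS1
  obtain ⟨hu, -⟩ := indep_split (fun i : Fin 1 => S i.succ.succ) hS2
  let K := IntermediateField.adjoin k {S 0}
  let F1 := IntermediateField.adjoin K {S (0 : Fin 2).succ}
  have hK : CharZero K := charZero_of_injective_algebraMap (algebraMap k K).injective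
  have hF1 : CharZero F1 := charZero_of_injective_algebraMap (algebraMap K F1).injective
  let vK : K := ⟨S 0, IntermediateField.subset_adjoin _ _ rfl⟩
  have hvK : Transcendental k vK := fun h => hv (h.algebraMap (A := FractionRing (MvPolynomial (Fin 3) k)))
  let φ : k[X] →ₐ[k] K := aeval vK
  have hφ : Function.Injective φ := transcendental_iff_injective.1 hvK
  have haK : φ a ≠ 0 := (map_ne_zero_iff _ hφ).2 ha
  let P : K[X] := f.map φ.toRingHom
  have hPd : P.natDegree ≤ 8 := natDegree_map_le.trans hf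
  have hP0 : P ≠ 0 := (Polynomial.map_ne_zero_iff hφ).2 hf0
  let sF : F1 := ⟨S (0 : Fin 2).succ, IntermediateField.subset_adjoin _ _ rfl⟩
  have hsF : Transcendental K sF :=
    fun h => hs (h.algebraMap (A := FractionRing (MvPolynomial (Fin 3) k)))
  obtain ⟨z, x, y, hxy, hz⟩ := exF hsF hPd hP0 (fun D => tsen_point (S 0) hv (φ a) 0 D haK) haK
  have hzP : x ^ 2 - algebraMap K F1 (φ a) * y ^ 2 ≠ 0 := by
    rw [hxy]
    intro h
    exact hz ⟨P, hP0, h⟩
  obtain ⟨x', y', hxy', hy'⟩ := rot hu ((_root_.map_ne_zero (algebraMap K F1)).2 haK) hzP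
  have i1 : AlgebraicIndependent F1 (fun _ : Fin 1 => y') := by
    rw [algebraicIndependent_unique_type_iff]
    exact hy'
  have i2 := indep_cons (F := K) (F' := F1) z hz (fun _ : Fin 1 => y') i1
  have i3 := indep_cons (F := k) (F' := K) vK hvK _ i2
  refine ⟨S 0, (z : FractionRing (MvPolynomial (Fin 3) k)), y', x', ?_, ?_⟩
  · have e1 : algebraMap F1 (FractionRing (MvPolynomial (Fin 3) k)) (algebraMap K F1 (φ a)) =
        aeval (S 0) a := by
      show algebraMap K (FractionRing (MvPolynomial (Fin 3) k)) (aeval vK a) = _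
      rw [← aeval_algebraMap_apply]
      rfl
    rw [e1] at hxy'
    rw [hxy', hxy]
    show algebraMap F1 (FractionRing (MvPolynomial (Fin 3) k)) (aeval z P) = _
    rw [← aeval_algebraMap_apply, aeval_def, ← eval_map, Polynomial.map_map]
    congr 2
    refine RingHom.ext fun q => ?_
    show algebraMap K (FractionRing (MvPolynomial (Fin 3) k)) (aeval vK q) = aeval (S 0) q
    rw [← aeval_algebraMap_apply]
    rfl
  · have i4 : (![S 0, (z : FractionRing (MvPolynomial (Fin 3) k)), y'] :
        Fin 3 → FractionRing (MvPolynomial (Fin 3) k)) =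
        Fin.cons (algebraMap K (FractionRing (MvPolynomial (Fin 3) k)) vK)
          (Fin.cons (algebraMap F1 (FractionRing (MvPolynomial (Fin 3) k)) z)
            fun _ : Fin 1 => y') := by
      funext i
      fin_cases i <;> rfl
    rw [i4]
    exact i3

open MvPolynomial in
theorem unir' {k : Type} [Field k] [IsAlgClosed k] [CharZero k] {a : Polynomial k} (ha : a ≠ 0)
    {f : Polynomial (Polynomial k)} (hf : f.natDegree ≤ 8) (hf0 : f ≠ 0) :
    ∃ P : Fin 4 → FractionRing (MvPolynomial (Fin 3) k), ∀ G : MvPolynomial (Fin 4) k,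
      MvPolynomial.aeval P G = 0 ↔
        (MvPolynomial.X 0 ^ 2 - MvPolynomial.rename Fin.succ (rhs a f)) ∣ G := by
  obtain ⟨v, z, y, w, hw, hi⟩ := top' ha hf hf0
  refine ⟨Fin.cons w ![v, z, y], fun G => kernel (rhs a f) (rhs_nonsq ha hf0) _ hi w ?_ G⟩
  rw [rhs_eval]
  show w ^ 2 = Polynomial.aeval v a * y ^ 2 + _
  rw [← sub_eq_iff_eq_add']
  exact hw

end Pool.Agent.X95T.OC
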