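import Pool.Agent.X95T.OC2

/-!
# Potential density
-/

set_option autoImplicit false
set_option linter.unusedSectionVars false

open MvPolynomial

namespace Pool.Agent.X95T.OC

variable {k : Type} [Field k] [CharZero k]

/-- specialization of a parametrization: points over a finitely generated field are dense -/
theorem pot {r n : ℕ} (P : Fin r → FractionRing (MvPolynomial (Fin n) k))
    (T : Finset k) (E : MvPolynomial (Fin r) k) (hE : aeval P E = 0) :
    ∃ L : IntermediateField ℚ k, L.FG ∧ (T : Set k) ⊆ L ∧
      ∀ G : MvPolynomial (Fin r) k,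
        (∀ p : Fin r → k, (∀ i, p i ∈ L) → eval p E = 0 → eval p G = 0) → aeval P G = 0 := by
  classical
  obtain ⟨D, hD⟩ := IsLocalization.exist_integer_multiples_of_finite
    (nonZeroDivisors (MvPolynomial (Fin n) k)) P
  have hD0 : (D : MvPolynomial (Fin n) k) ≠ 0 := nonZeroDivisors.coe_ne_zero D
  choose N hN using hD
  -- the field
  let S : Finset k := T ∪ ((D : MvPolynomial (Fin n) k).support.image fun d =>
    coeff d (D : MvPolynomial (Fin n) k)) ∪
    Finset.univ.biUnion fun i => (N i).support.image fun d => coeff d (N i)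
  let L : IntermediateField ℚ k := IntermediateField.adjoin ℚ (S : Set k)
  have hSL : (S : Set k) ⊆ L := IntermediateField.subset_adjoin ℚ _
  have hev : ∀ (Q : MvPolynomial (Fin n) k), (∀ d ∈ Q.support, coeff d Q ∈ L) →
      ∀ c : Fin n → ℚ, eval (fun i => (c i : k)) Q ∈ L := by
    intro Q hQ c
    rw [eval_eq]
    refine sum_mem fun d hd => mul_mem (hQ d hd) (prod_mem fun i _ => pow_mem ?_ _)
    simp
  have hDL : ∀ d ∈ (D : MvPolynomial (Fin n) k).support,
      coeff d (D : MvPolynomial (Fin n) k) ∈ L := fun d hd => hSL (by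
    simp only [S, Finset.coe_union, Set.mem_union]
    left; right
    exact Finset.mem_coe.2 (Finset.mem_image_of_mem _ hd))
  have hNL : ∀ i, ∀ d ∈ (N i).support, coeff d (N i) ∈ L := fun i d hd => hSL (by
    simp only [S, Finset.coe_union, Set.mem_union]
    right
    exact Finset.mem_coe.2 (Finset.mem_biUnion.2 ⟨i, Finset.mem_univ _,
      Finset.mem_image_of_mem _ hd⟩))
  refine ⟨L, ⟨S, rfl⟩, fun t ht => hSL (by
    simp only [S, Finset.coe_union, Set.mem_union]
    left; left
    exact ht), fun G hG => ?_⟩
  -- specialization: `D ^ e * G(P)` is a polynomial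
  have key : ∀ Q : MvPolynomial (Fin r) k, ∃ (e : ℕ) (M : MvPolynomial (Fin n) k),
      algebraMap _ (FractionRing (MvPolynomial (Fin n) k)) M =
        algebraMap _ (FractionRing (MvPolynomial (Fin n) k)) (D : MvPolynomial (Fin n) k) ^ e *
          aeval P Q ∧
      ∀ c : Fin n → k, eval c (D : MvPolynomial (Fin n) k) ≠ 0 →
        eval c M = eval c (D : MvPolynomial (Fin n) k) ^ e *
          eval (fun i => eval c (N i) / eval c (D : MvPolynomial (Fin n) k)) Q := by
    intro Q
    induction Q using MvPolynomial.induction_on with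
    | C q =>
      refine ⟨0, C q, ?_, fun c _ => ?_⟩
      · rw [pow_zero, one_mul, aeval_C]
        rfl
      · rw [pow_zero, one_mul, eval_C, eval_C]
    | add p q hp hq =>
      obtain ⟨e1, M1, h1, h1'⟩ := hp
      obtain ⟨e2, M2, h2, h2'⟩ := hq
      refine ⟨e1 + e2, (D : MvPolynomial (Fin n) k) ^ e2 * M1 +
        (D : MvPolynomial (Fin n) k) ^ e1 * M2, ?_, fun c hc => ?_⟩
      · rw [map_add, map_mul, map_mul, map_pow, map_pow, h1, h2, map_add]
        ring
      · rw [map_add, map_mul, map_mul, map_pow, map_pow, h1' c hc, h2' c hc, map_add]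
        ring
    | mul_X p i hp =>
      obtain ⟨e, M, h, h'⟩ := hp
      refine ⟨e + 1, M * N i, ?_, fun c hc => ?_⟩
      · have h3 : algebraMap _ (FractionRing (MvPolynomial (Fin n) k)) (N i) =
            algebraMap _ (FractionRing (MvPolynomial (Fin n) k)) (D : MvPolynomial (Fin n) k) *
              P i := by
          rw [hN i, Algebra.smul_def]
        rw [map_mul, h, h3, map_mul, aeval_X]
        ring
      · rw [map_mul, h' c hc, map_mul, eval_X]
        field_simp
        ring
  have hinj : Function.Injective (algebraMap (MvPolynomial (Fin n) k)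
    (FractionRing (MvPolynomial (Fin n) k))) := IsFractionRing.injective _ _
  obtain ⟨e, M, hM, hM'⟩ := key G
  obtain ⟨e', M', hE1, hE2⟩ := key E
  have hM'0 : M' = 0 := by
    apply hinj
    rw [hE1, hE, mul_zero, map_zero]
  have hzero : M * D = 0 := by
    -- a polynomial vanishing at all rational points is zero
    by_contra hne
    have hinf : ∀ (Q : MvPolynomial (Fin n) k), (∀ c : Fin n → ℚ, eval (fun i => (c i : k)) Q = 0) →
        Q = 0 := by
      intro Q hQ
      refine MvPolynomial.funext_set (s := fun _ => Set.range ((↑) : ℚ → k))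
        (fun _ => Set.infinite_range_of_injective Rat.cast_injective) fun x hx => ?_
      choose c hc using fun i => hx i (Set.mem_univ i)
      have : x = fun i => (c i : k) := by
        funext i
        exact (hc i).symm
      rw [this, hQ, map_zero]
    apply hne
    refine hinf _ fun c => ?_
    rw [map_mul]
    by_cases hc : eval (fun i => (c i : k)) (D : MvPolynomial (Fin n) k) = 0
    · rw [hc, mul_zero]
    · have h5 := hE2 _ hc
      rw [hM'0, map_zero] at h5
      have h6 := (mul_eq_zero.1 h5.symm).resolve_left (pow_ne_zero _ hc)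
      rw [hM' _ hc, hG _ (fun i => div_mem (hev _ (hNL i) c) (hev _ hDL c)) h6, mul_zero, zero_mul]
  have hM0 : M = 0 := (mul_eq_zero.1 hzero).resolve_right hD0
  rw [hM0, map_zero] at hM
  have h7 : algebraMap _ (FractionRing (MvPolynomial (Fin n) k)) (D : MvPolynomial (Fin n) k) ≠ 0 := by
    intro h
    rw [map_eq_zero_iff _ hinj] at h
    exact hD0 h
  exact (mul_eq_zero.1 hM.symm).resolve_left (pow_ne_zero _ h7)

/-- **potential density** of the threefolds -/
theorem potdens [IsAlgClosed k] {a : Polynomial k} (ha : a ≠ 0)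
    {f : Polynomial (Polynomial k)} (hf : f.natDegree ≤ 8) (hf0 : f ≠ 0) :
    ∃ L : IntermediateField ℚ k, L.FG ∧ (Algebra.IsAlgebraic ℚ k → FiniteDimensional ℚ L) ∧
      (∀ n, a.coeff n ∈ L) ∧ (∀ m n, (f.coeff m).coeff n ∈ L) ∧
      ∀ G : MvPolynomial (Fin 4) k,
        (∀ p : Fin 4 → k, (∀ i, p i ∈ L) →
          eval p (X 0 ^ 2 - rename Fin.succ (rhs a f)) = 0 → eval p G = 0) →
        (X 0 ^ 2 - rename Fin.succ (rhs a f)) ∣ G := by
  classical
  obtain ⟨P, hP⟩ := unir' ha hf hf0
  obtain ⟨L, hL, hTL, hd⟩ := pot P (a.support.image a.coeff ∪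
    f.support.biUnion fun m => (f.coeff m).support.image (f.coeff m).coeff)
    (X 0 ^ 2 - rename Fin.succ (rhs a f)) ((hP _).2 dvd_rfl)
  refine ⟨L, hL, ?_, ?_, ?_, fun G hG => (hP G).1 (hd G hG)⟩
  · intro halg
    obtain ⟨S, hS⟩ := hL
    rw [← hS]
    exact IntermediateField.finiteDimensional_adjoin fun x _ =>
      (Algebra.IsAlgebraic.isAlgebraic x).isIntegral
  · intro n
    by_cases h : a.coeff n = 0
    · rw [h]
      exact zero_mem L
    · apply hTL
      rw [Finset.coe_union]
      left
      exact Finset.mem_coe.2 (Finset.mem_image_of_mem _ (Polynomial.mem_support_iff.2 h))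
  · intro m n
    by_cases h : (f.coeff m).coeff n = 0
    · rw [h]
      exact zero_mem L
    · apply hTL
      rw [Finset.coe_union]
      right
      refine Finset.mem_coe.2 (Finset.mem_biUnion.2 ⟨m, ?_, Finset.mem_image_of_mem _
        (Polynomial.mem_support_iff.2 h)⟩)
      rw [Polynomial.mem_support_iff]
      intro h1
      rw [h1, Polynomial.coeff_zero] at h
      exact h rfl

end Pool.Agent.X95T.OC
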