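import Pool.Agent.X95T.OA5
import Pool.Agent.X95T.OC1

/-!
# Zariski density of the rational points, including fourth powers
-/

set_option autoImplicit false
set_option linter.unusedSectionVars false

open MvPolynomial

namespace Pool.Agent.X95T.OC

open Pool.Agent.X95T.WQ (rz Dt Dt_eval on_V_iff split nonsq bl)

variable {K ι κ : Type} [Field K] [CharZero K] [Fintype ι] [Fintype κ] [DecidableEq κ]
  {a : ι → K} {f : MvPolynomial κ K}

/-- the good base points -/
def SA' (a : ι → K) (f : MvPolynomial κ K) : Set (κ → K) :=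
  {z | eval z f ≠ 0 ∧ (∀ j, J3 (line f z j).coeff ≠ 0 ∨ J5 (line f z j).coeff ≠ 0 ∨
      ∀ z, J3 (line f z j).coeff = 0) ∧
    ∃ w : ι → K, ∑ i, a i * w i ^ 2 = eval z f}

lemma line_taylor (z : κ → K) (j : κ) (t : K) :
    Polynomial.taylor t (line f z j) = line f (Function.update z j (z j + t)) j := by
  refine Polynomial.funext fun s => ?_
  rw [Polynomial.taylor_eval, line_eval, line_eval, Function.update_self, Function.update_idem,
    add_assoc, add_comm s t]

lemma all_line {z : κ → K} {j : κ} (h0 : eval z f ≠ 0)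
    (hw : ∃ w : ι → K, ∑ i, a i * w i ^ 2 = eval z f)
    (hI : ∀ z, J3 (line f z j).coeff = 0) (t : K) :
    ∃ w : ι → K, ∑ i, a i * w i ^ 2 = eval (Function.update z j t) f := by
  obtain ⟨w, hw⟩ := hw
  have h1 : J3 (fun i => Polynomial.hasseDeriv i (line f z j)) = 0 := by
    refine Polynomial.funext fun s => ?_
    rw [Polynomial.eval_zero, ← hI (Function.update z j (z j + s)), ← line_taylor]
    unfold J3
    simp only [Polynomial.taylor_coeff, Polynomial.eval_add, Polynomial.eval_sub,
      Polynomial.eval_mul, Polynomial.eval_pow, Polynomial.eval_ofNat]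
  have hc0 : (line f z j).coeff 0 = eval z f := by
    rw [Polynomial.coeff_zero_eq_eval_zero, line_eval, add_zero, Function.update_eq_self]
  obtain ⟨q, hq⟩ := fourth (P := line f z j) (by rw [DE_eq, h1, mul_zero]) (by rw [hc0]; exact h0)
  refine ⟨fun i => q.eval (t - z j) ^ 2 * w i, ?_⟩
  have h2 : ∀ i, a i * (q.eval (t - z j) ^ 2 * w i) ^ 2 =
      q.eval (t - z j) ^ 4 * (a i * w i ^ 2) := fun i => by ring
  simp only [h2]
  rw [← Finset.mul_sum, hw]
  have h3 := line_eval f z j (t - z j)
  rw [add_sub_cancel] at h3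
  rw [← h3, hq, Polynomial.eval_mul, Polynomial.eval_C, Polynomial.eval_pow, hc0]
  ring

lemma SA'_moves [Nontrivial ι] (ha : ∀ i, a i ≠ 0) (hf : ∀ j, f.degreeOf j ≤ 8) {z : κ → K}
    (hz : z ∈ SA' a f) (j : κ) : {t | Function.update z j t ∈ SA' a f}.Infinite := by
  obtain ⟨h0, hI, hw⟩ := hz
  have h1 : {t : K | ∃ w : ι → K, ∑ i, a i * w i ^ 2 = eval (Function.update z j t) f}.Infinite := by
    rcases hI j with h | h | h
    · exact inf_line ha (hf j) h0 hw (Or.inl h)
    · exact inf_line ha (hf j) h0 hw (Or.inr h)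
    · exact Set.infinite_univ.mono fun t _ => all_line h0 hw h t
  have h2 : ∀ l, ∃ D : MvPolynomial κ K, eval z D ≠ 0 ∧ ∀ y : κ → K, eval y D ≠ 0 →
      J3 (line f y l).coeff ≠ 0 ∨ J5 (line f y l).coeff ≠ 0 ∨
        ∀ z, J3 (line f z l).coeff = 0 := by
    intro l
    rcases hI l with h | h | h
    · exact ⟨J3 (gl f l).coeff, by rw [← J3_poly]; exact h, fun y hy => Or.inl (by
        rw [J3_poly]; exact hy)⟩
    · exact ⟨J5 (gl f l).coeff, by rw [← J5_poly]; exact h, fun y hy => Or.inr (Or.inl (by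
        rw [J5_poly]; exact hy))⟩
    · exact ⟨1, by rw [map_one]; exact one_ne_zero, fun _ _ => Or.inr (Or.inr h)⟩
  choose D hD hD' using h2
  have h3 : eval (Function.update z j (z j)) (f * ∏ l, D l) ≠ 0 := by
    rw [Function.update_eq_self, map_mul, map_prod]
    exact mul_ne_zero h0 (Finset.prod_ne_zero_iff.2 fun l _ => hD l)
  refine (h1.sdiff (fin_line h3)).mono ?_
  rintro t ⟨ht, ht'⟩
  have ht' : eval (Function.update z j t) (f * ∏ l, D l) ≠ 0 := ht'
  rw [map_mul, map_prod] at ht'
  refine ⟨left_ne_zero_of_mul ht', fun l => hD' l _ ?_, ht⟩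
  exact Finset.prod_ne_zero_iff.1 (right_ne_zero_of_mul ht') l (Finset.mem_univ l)

/-- **Zariski density** -/
theorem zden' [Nontrivial ι] (ha : ∀ i, a i ≠ 0) (hf : ∀ j, f.degreeOf j ≤ 8) {w0 : ι → K}
    {z0 : κ → K} (hw0 : ∑ i, a i * w0 i ^ 2 = eval z0 f) (h0 : eval z0 f ≠ 0)
    (hI : ∀ j, J3 (line f z0 j).coeff ≠ 0 ∨ J5 (line f z0 j).coeff ≠ 0 ∨
      ∀ z, J3 (line f z j).coeff = 0)
    {g : MvPolynomial (ι ⊕ κ) K}
    (hg : ∀ (w : ι → K) (z : κ → K), ∑ i, a i * w i ^ 2 = eval z f → eval z f ≠ 0 →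
      eval (Sum.elim w z) g = 0)
    (k : Type) [Field k] [Algebra K k] (w' : ι → k) (z' : κ → k)
    (hZ : ∑ i, algebraMap K k (a i) * w' i ^ 2 = aeval z' f) :
    aeval (Sum.elim w' z') g = 0 := by
  classical
  obtain ⟨i0, i1, hi1⟩ := exists_pair_ne ι
  have hf0 : f ≠ 0 := by
    rintro rfl
    exact h0 (map_zero _)
  obtain ⟨g0, g1, hgg⟩ := split a f i0 g
  have h6 : g0 ^ 2 - g1 ^ 2 * Dt a f i0 = 0 := by
    by_contra hne
    set H := g0 ^ 2 - g1 ^ 2 * Dt a f i0 with hH
    obtain ⟨y, hy⟩ : ∃ y, eval y H ≠ 0 := by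
      by_contra hc
      push Not at hc
      exact hne (MvPolynomial.funext fun y => by rw [hc, map_zero])
    -- the base
    have hsub : ∀ (τ : Type) (u : {i // i ≠ i0} ⊕ κ → MvPolynomial τ K) (v : τ → K),
        eval v (aeval u H) = eval (fun t => eval v (u t)) H := by
      intro τ u v
      generalize H = H'
      induction H' using MvPolynomial.induction_on with
      | C c => rw [aeval_C, eval_C]; exact eval_C c
      | add p q hp hq => rw [map_add, map_add, hp, hq, map_add]
      | mul_X p i hp => rw [map_mul, map_mul, hp, aeval_X, map_mul, eval_X]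
    have e1 : ∀ z : κ → K, eval z (aeval (Sum.elim (fun i => C (y (Sum.inl i))) X) H) =
        eval (Sum.elim (fun i => y (Sum.inl i)) z) H := by
      intro z
      rw [hsub]
      congr 2
      funext t
      rcases t with t | t
      · exact eval_C _
      · exact eval_X _
    have h1 : (aeval (Sum.elim (fun i => C (y (Sum.inl i))) X) H : MvPolynomial κ K) ≠ 0 := by
      intro h
      have h2 := e1 fun j => y (Sum.inr j)
      rw [h, map_zero] at h2
      apply hy
      have h3 : Sum.elim (fun i => y (Sum.inl i)) (fun j => y (Sum.inr j)) = y := by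
        funext t
        rcases t with t | t <;> rfl
      rw [h3] at h2
      exact h2.symm
    obtain ⟨z, hz, hz1⟩ := dense_of_moves (S := SA' a f) ⟨z0, h0, hI, w0, hw0⟩
      (fun z hz j => SA'_moves ha hf hz j) h1
    rw [e1] at hz1
    obtain ⟨hz0, -, w, hw⟩ := hz
    have e2 : ∀ e : {i // i ≠ i0} → K, eval e (aeval (Sum.elim X (fun j => C (z j))) H) =
        eval (Sum.elim e z) H := by
      intro e
      rw [hsub]
      congr 2
      funext t
      rcases t with t | t
      · exact eval_X _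
      · exact eval_C _
    have h2 : (aeval (Sum.elim X (fun j => C (z j))) H : MvPolynomial {i // i ≠ i0} K) ≠ 0 := by
      intro h
      have h3 := e2 fun i => y (Sum.inl i)
      rw [h, map_zero] at h3
      exact hz1 h3.symm
    obtain ⟨e, he, he1⟩ := dense_of_moves (S := SF a i0 (eval z f)) (SF_ne ha hz0 hw)
      (fun e he i => SF_moves ha he i) h2
    rw [e2] at he1
    obtain ⟨s, hs, hse⟩ := he
    -- the point
    let W : ι → K := fun i => if h : i = i0 then s else e ⟨i, h⟩
    have hW0 : W i0 = s := dif_pos rfl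
    have hW1 : ∀ i : {i // i ≠ i0}, W i = e i := fun i => dif_neg i.2
    have hW : ∑ i, a i * W i ^ 2 = eval z f := by
      rw [Fintype.sum_eq_add_sum_subtype_ne _ i0, hW0, ← hse]
      congr 1
      exact Finset.sum_congr rfl fun i _ => by rw [hW1]
    have hrz : rz i0 (Sum.elim W z) = Sum.elim e z := by
      funext t
      rcases t with t | t
      · exact hW1 t
      · rfl
    have hon : (Sum.elim W z : ι ⊕ κ → K) (Sum.inl i0) ^ 2 =
        aeval (rz i0 (Sum.elim W z)) (Dt a f i0) := by
      rw [← on_V_iff a f i0 (ha i0)]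
      have hev : aeval (fun j => (Sum.elim W z : ι ⊕ κ → K) (Sum.inr j)) f = eval z f := by
        rw [aeval_eq_eval]
        rfl
      refine Eq.trans ?_ (hW.trans hev.symm)
      exact Finset.sum_congr rfl fun i _ => by
        show algebraMap K K (a i) * W i * W i = _
        rw [Algebra.algebraMap_self]
        show a i * W i * W i = _
        ring
    have h7 := hg W z hW hz0
    have h8 := hgg K _ hon
    rw [aeval_eq_eval, aeval_eq_eval] at h8
    rw [h8, hrz] at h7
    rw [hrz] at hon
    apply he1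
    rw [hH, map_sub, map_mul, map_pow, map_pow]
    have h9 : eval (Sum.elim e z) (Dt a f i0) = W i0 ^ 2 := by
      rw [← aeval_eq_eval]
      exact hon.symm
    rw [h9]
    have h7 : eval (Sum.elim e z) g0 + eval (Sum.elim e z) g1 * W i0 = 0 := h7
    linear_combination (eval (Sum.elim e z) g0 - eval (Sum.elim e z) g1 * W i0) * h7
  have hg1 : g1 = 0 := nonsq a f i0 hf0 ha hi1.symm (u := g0) (by linear_combination h6)
  have hg0 : g0 = 0 := by
    rw [hg1] at h6
    have : g0 ^ 2 = 0 := by linear_combination h6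
    exact pow_eq_zero_iff two_ne_zero |>.1 this
  have hon : (Sum.elim w' z' : ι ⊕ κ → k) (Sum.inl i0) ^ 2 =
      aeval (rz i0 (Sum.elim w' z')) (Dt a f i0) := by
    rw [← on_V_iff a f i0 (ha i0)]
    show ∑ i, _ = aeval z' f
    rw [← hZ]
    exact Finset.sum_congr rfl fun i _ => by
      show algebraMap K k (a i) * w' i * w' i = _
      ring
  rw [hgg k _ hon, hg0, hg1]
  simp

end Pool.Agent.X95T.OC
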