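import Pool.Agent.X95T.N

set_option autoImplicit false

namespace Pool.Agent.X95T

open Pool.Agent.Results.MP_821da1_nt.RepulsionAllCurves (CoordRing)

section

open Polynomial

/-- from polynomials in two variables to polynomials in `y` over `ℚ[x]` -/
noncomputable def toP : MvPolynomial (Fin 2) ℚ →+* ℚ[X][X] :=
  MvPolynomial.eval₂Hom ((C : ℚ[X] →+* ℚ[X][X]).comp (C : ℚ →+* ℚ[X])) ![C X, X]

/-- back -/
noncomputable def fromP : ℚ[X][X] →+* MvPolynomial (Fin 2) ℚ :=
  eval₂RingHom (eval₂RingHom (MvPolynomial.C : ℚ →+* MvPolynomial (Fin 2) ℚ) (MvPolynomial.X 0))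
    (MvPolynomial.X 1)

noncomputable def isoP : MvPolynomial (Fin 2) ℚ ≃+* ℚ[X][X] :=
  RingEquiv.ofRingHom toP fromP
    (by
      apply Polynomial.ringHom_ext
      · intro p
        have h : (toP.comp fromP).comp (C : ℚ[X] →+* ℚ[X][X]) = C := by
          apply Polynomial.ringHom_ext
          · intro q; simp [toP, fromP]
          · simp [toP, fromP]
        exact DFunLike.congr_fun h p
      · simp [toP, fromP])
    (by
      apply MvPolynomial.ringHom_ext
      · intro r; simp [toP, fromP]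
      · intro i
        fin_cases i
        · simp [toP, fromP]
        · simp [toP, fromP])

lemma isoP_X0 : isoP (MvPolynomial.X 0) = C X := by
  show toP _ = _
  simp [toP]

lemma isoP_X1 : isoP (MvPolynomial.X 1) = X := by
  show toP _ = _
  simp [toP]

lemma isoP_C (q : ℚ) : isoP (MvPolynomial.C q) = C (C q) := by
  show toP _ = _
  simp [toP]

/-- evaluation at `(x, y)` -/
noncomputable def ev {Ω : Type} [CommRing Ω] (c : ℚ →+* Ω) (x y : Ω) : ℚ[X][X] →+* Ω :=
  eval₂RingHom (eval₂RingHom c x) y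

lemma ev_C {Ω : Type} [CommRing Ω] (c : ℚ →+* Ω) (x y : Ω) (p : ℚ[X]) :
    ev c x y (C p) = eval₂ c x p := by
  simp [ev]

lemma ev_X {Ω : Type} [CommRing Ω] (c : ℚ →+* Ω) (x y : Ω) :
    ev c x y X = y := by
  simp [ev]

lemma hom_ev {Ω Ω' : Type} [CommRing Ω] [CommRing Ω'] (φ : Ω →+* Ω') (c : ℚ →+* Ω)
    (c' : ℚ →+* Ω') (x y : Ω) (r : ℚ[X][X]) : φ (ev c x y r) = ev c' (φ x) (φ y) r := by
  have hc : φ.comp c = c' := Subsingleton.elim _ _
  have h : φ.comp (ev c x y) = ev c' (φ x) (φ y) := by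
    apply Polynomial.ringHom_ext
    · intro p
      rw [RingHom.comp_apply, ev_C, ev_C, Polynomial.hom_eval₂, hc]
    · rw [RingHom.comp_apply, ev_X, ev_X]
  exact DFunLike.congr_fun h r

lemma ev_isoP {Ω : Type} [CommRing Ω] (c : ℚ →+* Ω) (x y : Ω) (P : MvPolynomial (Fin 2) ℚ) :
    ev c x y (isoP P) = MvPolynomial.eval₂Hom c ![x, y] P := by
  have h : (ev c x y).comp (isoP : MvPolynomial (Fin 2) ℚ →+* ℚ[X][X]) =
      MvPolynomial.eval₂Hom c ![x, y] := by
    apply MvPolynomial.ringHom_ext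
    · intro r
      simp only [RingHom.comp_apply, RingHom.coe_coe, isoP_C, ev_C, eval₂_C,
        MvPolynomial.coe_eval₂Hom, MvPolynomial.eval₂_C]
    · intro i
      fin_cases i
      · simp [isoP_X0, ev_C]
      · simp [isoP_X1, ev_X]
  exact DFunLike.congr_fun h P

lemma ev_eq_sum {Ω : Type} [CommRing Ω] (c : ℚ →+* Ω) (x y : Ω) (r : ℚ[X][X]) {d : ℕ}
    (hd : r.natDegree < d) :
    ev c x y r = ∑ j ∈ Finset.range d, eval₂ c x (r.coeff j) * y ^ j := by
  rw [ev, coe_eval₂RingHom, eval₂_eq_sum_range' _ hd]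
  simp only [coe_eval₂RingHom]

/-- irreducibility from independence -/
lemma irr_of_ind {Ω : Type} [Field Ω] (c : ℚ →+* Ω) (x z : Ω) (M : ℚ[X][X]) (hM : M.Monic)
    (hz : ev c x z M = 0) (hind : ∀ r : ℚ[X][X], r.degree < M.degree → ev c x z r = 0 → r = 0) :
    Irreducible M := by
  have hdvd : ∀ A : ℚ[X][X], ev c x z A = 0 → M ∣ A := by
    intro A hA
    rw [← modByMonic_eq_zero_iff_dvd hM]
    apply hind _ (degree_modByMonic_lt _ hM)
    rw [modByMonic_eq_sub_mul_div, map_sub, map_mul, hA, hz, zero_mul, sub_zero]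
  have hM0 : M ≠ 0 := hM.ne_zero
  rw [irreducible_iff]
  constructor
  · intro hu
    have h1 := hu.map (ev c x z)
    rw [hz] at h1
    exact not_isUnit_zero h1
  · intro A B hAB
    have h1 : ev c x z A * ev c x z B = 0 := by rw [← map_mul, ← hAB, hz]
    rcases mul_eq_zero.1 h1 with h | h
    · right
      obtain ⟨E, hE⟩ := hdvd A h
      have h2 : M * (E * B) = M * 1 := by rw [mul_one, ← mul_assoc, ← hE, ← hAB]
      have h3 := mul_left_cancel₀ hM0 h2
      exact IsUnit.of_mul_eq_one_right _ h3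
    · left
      obtain ⟨E, hE⟩ := hdvd B h
      have h2 : M * (A * E) = M * 1 := by
        rw [mul_one]
        conv_rhs => rw [hAB, hE]
        ring
      have h3 := mul_left_cancel₀ hM0 h2
      exact IsUnit.of_mul_eq_one _ h3

lemma sum_split {α : Type} [AddCommMonoid α] (f : ℕ → α) (n k : ℕ) :
    ∑ m ∈ Finset.range (n * k), f m = ∑ j ∈ Finset.range k, ∑ i ∈ Finset.range n, f (n * j + i) := by
  induction k with
  | zero => simp
  | succ k ih => rw [Nat.mul_succ, Finset.sum_range_add, ih, Finset.sum_range_succ]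

/-- independence of the powers of a root of a binomial -/
lemma ind_root {K Ω : Type} [Field K] [Field Ω] (φ : K →+* Ω) (n : ℕ) (κ : K)
    (hirr : Irreducible (X ^ n - C κ : K[X])) (z : Ω) (hz : z ^ n = φ κ) (c : ℕ → K)
    (h : ∑ i ∈ Finset.range n, φ (c i) * z ^ i = 0) : ∀ i < n, c i = 0 := by
  have hn : 0 < n := by
    rcases Nat.eq_zero_or_pos n with rfl | h0
    · exfalso
      rw [pow_zero, ← C_1, ← C_sub] at hirr
      by_cases h1 : (1 - κ) = 0
      · rw [h1, C_0] at hirr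
        exact hirr.ne_zero rfl
      · exact hirr.not_isUnit (isUnit_C.2 (isUnit_iff_ne_zero.2 h1))
    · exact h0
  obtain ⟨p, hp⟩ : ∃ p : K[X], p = ∑ i ∈ Finset.range n, C (c i) * X ^ i := ⟨_, rfl⟩
  have hpd : p.degree < (n : WithBot ℕ) := by
    rw [← mem_degreeLT, hp]
    apply Submodule.sum_mem
    intro i hi
    rw [mem_degreeLT]
    exact lt_of_le_of_lt (degree_C_mul_X_pow_le _ _) (by exact_mod_cast Finset.mem_range.1 hi)
  have hpz : eval₂ φ z p = 0 := by
    rw [hp, eval₂_finsetSum, ← h]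
    apply Finset.sum_congr rfl
    intro i _
    rw [eval₂_mul, eval₂_C, eval₂_pow, eval₂_X]
  have hp0 : p = 0 := by
    by_contra hne
    have h1 : ¬ (X ^ n - C κ : K[X]) ∣ p := by
      apply not_dvd_of_degree_lt hne
      rw [degree_X_pow_sub_C hn]
      exact hpd
    obtain ⟨u, w, huw⟩ := (Irreducible.coprime_iff_not_dvd hirr).2 h1
    have h2 := congrArg (eval₂ φ z) huw
    rw [eval₂_add, eval₂_mul, eval₂_mul, hpz, eval₂_sub, eval₂_pow, eval₂_X, eval₂_C, hz, sub_self,
      mul_zero, mul_zero, add_zero, eval₂_one] at h2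
    exact zero_ne_one h2
  intro i hi
  have h1 := congrArg (fun q => coeff q i) hp
  simp only [finsetSum_coeff, coeff_C_mul_X_pow] at h1
  rw [Finset.sum_ite_eq, if_pos (Finset.mem_range.2 hi), hp0, coeff_zero] at h1
  exact h1.symm

end

end Pool.Agent.X95T
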