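import Pool.Agent.X95T.P

set_option autoImplicit false

namespace Pool.Agent.X95T

open Pool.Agent.Results.MP_821da1_nt.RepulsionAllCurves (CoordRing)

section

open Polynomial

variable {Ω : Type} [Field Ω] [CharZero Ω] {W : ValuationSubring Ω}

lemma val_pol (hQ : ∀ q : ℚ, (q : Ω) ∈ W) (c : ℚ →+* Ω) (x : Ω) (hx : 1 < W.valuation x)
    (p : ℚ[X]) (hp0 : p ≠ 0) : W.valuation (eval₂ c x p) = W.valuation x ^ p.natDegree := by
  have hc : c = Rat.castHom Ω := Subsingleton.elim _ _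
  subst hc
  have hux : W.valuation x ≠ 0 := (lt_trans zero_lt_one hx).ne'
  rw [Polynomial.eval₂_eq_sum_range, Finset.sum_range_succ]
  have hlc : p.coeff p.natDegree ≠ 0 := by
    rw [Polynomial.coeff_natDegree]
    exact Polynomial.leadingCoeff_ne_zero.2 hp0
  have h1 : W.valuation (Rat.castHom Ω (p.coeff p.natDegree) * x ^ p.natDegree) =
      W.valuation x ^ p.natDegree := by
    rw [map_mul, map_pow]
    show W.valuation ((p.coeff p.natDegree : ℚ) : Ω) * _ = _
    rw [val_rat hQ hlc, one_mul]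
  have h2 : W.valuation (∑ i ∈ Finset.range p.natDegree, Rat.castHom Ω (p.coeff i) * x ^ i) <
      W.valuation x ^ p.natDegree := by
    apply Valuation.map_sum_lt _ (pow_ne_zero _ hux)
    intro i hi
    rw [map_mul, map_pow]
    have h3 : W.valuation (Rat.castHom Ω (p.coeff i)) ≤ 1 := (W.valuation_le_one_iff _).2 (hQ _)
    calc _ ≤ 1 * W.valuation x ^ i := mul_le_mul_left h3 _
      _ = W.valuation x ^ i := one_mul _
      _ < _ := pow_lt_pow_right₀ hx (Finset.mem_range.1 hi)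
  rw [Valuation.map_add_eq_of_lt_right _ (by rw [h1]; exact h2), h1]

/-- the valuation of a reduced polynomial -/
lemma val_red {N k : ℕ} (hkN : Nat.Coprime k N) (hQ : ∀ q : ℚ, (q : Ω) ∈ W) (c : ℚ →+* Ω)
    (x y : Ω) (hx : 1 < W.valuation x) (hxy : W.valuation y ^ k = W.valuation x ^ N)
    (r : ℚ[X][X]) (hr : r ≠ 0) (hdeg : r.natDegree < k) :
    ∃ m j : ℕ, j < k ∧ W.valuation (ev c x y r) = W.valuation x ^ m * W.valuation y ^ j := by
  have hux : W.valuation x ≠ 0 := (lt_trans zero_lt_one hx).ne'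
  have huy : W.valuation y ≠ 0 := by
    intro h
    rw [h, zero_pow (by omega)] at hxy
    exact pow_ne_zero _ hux hxy.symm
  obtain ⟨w, hw⟩ : ∃ w : ℕ → ℕ, w = fun j => k * (r.coeff j).natDegree + N * j := ⟨_, rfl⟩
  obtain ⟨t, ht⟩ : ∃ t : ℕ → Ω, t = fun j => eval₂ c x (r.coeff j) * y ^ j := ⟨_, rfl⟩
  have hvt : ∀ j ∈ r.support, W.valuation (t j) =
      W.valuation x ^ (r.coeff j).natDegree * W.valuation y ^ j := by
    intro j hj
    rw [ht]
    simp only
    rw [map_mul, map_pow, val_pol hQ c x hx _ (mem_support_iff.1 hj)]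
  have hvtk : ∀ j ∈ r.support, W.valuation (t j) ^ k = W.valuation x ^ w j := by
    intro j hj
    rw [hvt j hj, mul_pow, ← pow_mul, ← pow_mul, mul_comm j k, pow_mul (W.valuation y), hxy,
      ← pow_mul, ← pow_add, hw]
    congr 1
    ring
  obtain ⟨j₀, hj₀, hmax⟩ := Finset.exists_max_image r.support w (nonempty_support_iff.2 hr)
  have hlt : ∀ j ∈ r.support, j < k := fun j hj =>
    lt_of_le_of_lt (le_natDegree_of_mem_supp _ hj) hdeg
  have hwlt : ∀ j ∈ r.support, j ≠ j₀ → w j < w j₀ := by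
    intro j hj hne
    refine lt_of_le_of_ne (hmax j hj) ?_
    intro he
    apply hne
    rw [hw] at he
    simp only at he
    have h1 : N * j ≡ N * j₀ [MOD k] := by
      have h2 : (k * (r.coeff j).natDegree + N * j) ≡ (k * (r.coeff j₀).natDegree + N * j₀) [MOD k] :=
        by rw [he]
      have h3 : k * (r.coeff j).natDegree ≡ k * (r.coeff j₀).natDegree [MOD k] := by
        rw [Nat.modEq_iff_dvd]
        push_cast
        rw [← mul_sub]
        exact dvd_mul_right _ _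
      exact Nat.ModEq.add_left_cancel h3 h2
    exact Nat.ModEq.eq_of_lt_of_lt (Nat.ModEq.cancel_left_of_coprime hkN h1) (hlt j hj) (hlt j₀ hj₀)
  refine ⟨(r.coeff j₀).natDegree, j₀, hlt j₀ hj₀, ?_⟩
  rw [← hvt j₀ hj₀]
  have hsum : ev c x y r = t j₀ + ∑ j ∈ r.support.erase j₀, t j := by
    rw [Finset.add_sum_erase _ _ hj₀, ev, coe_eval₂RingHom, eval₂_eq_sum, sum_def, ht]
    rfl
  have hne0 : W.valuation (t j₀) ≠ 0 := by
    rw [hvt j₀ hj₀]
    exact mul_ne_zero (pow_ne_zero _ hux) (pow_ne_zero _ huy)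
  rw [hsum]
  apply Valuation.map_add_eq_of_lt_left
  apply Valuation.map_sum_lt _ hne0
  intro j hj
  rw [Finset.mem_erase] at hj
  apply lt_of_pow_lt_pow_left₀ k zero_le
  rw [hvtk j hj.2, hvtk j₀ hj₀]
  exact pow_lt_pow_right₀ hx (hwlt j hj.2 hj.1)

lemma red_ne_zero {N k : ℕ} (hkN : Nat.Coprime k N) (hQ : ∀ q : ℚ, (q : Ω) ∈ W) (c : ℚ →+* Ω)
    (x y : Ω) (hx : 1 < W.valuation x) (hxy : W.valuation y ^ k = W.valuation x ^ N)
    (r : ℚ[X][X]) (hdeg : r.natDegree < k) (h0 : ev c x y r = 0) : r = 0 := by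
  by_contra hr
  have hux : W.valuation x ≠ 0 := (lt_trans zero_lt_one hx).ne'
  have huy : W.valuation y ≠ 0 := by
    intro h
    rw [h, zero_pow (by omega)] at hxy
    exact pow_ne_zero _ hux hxy.symm
  obtain ⟨m, j, _, h⟩ := val_red hkN hQ c x y hx hxy r hr hdeg
  rw [h0, map_zero] at h
  exact mul_ne_zero (pow_ne_zero _ hux) (pow_ne_zero _ huy) h.symm

/-- the powers of `z` are independent -/
lemma ind_z {N k n : ℕ} (hkN : Nat.Coprime k N) (hk : 1 ≤ k) (hn : 1 ≤ n)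
    (hQ : ∀ q : ℚ, (q : Ω) ∈ W) (c : ℚ →+* Ω)
    (x z : Ω) (hx : 1 < W.valuation x) (hxy : W.valuation (z ^ n) ^ k = W.valuation x ^ N)
    {K : Type} [Field K] (cK : ℚ →+* K) (φ : K →+* Ω) (xK κ : K) (hφx : φ xK = x)
    (hφκ : z ^ n = φ κ) (hirr : Irreducible (X ^ n - C κ : K[X]))
    (r : ℚ[X][X]) (hdeg : r.natDegree < n * k) (h0 : ev c x z r = 0) : r = 0 := by
  obtain ⟨ρ, hρ⟩ : ∃ ρ : ℕ → ℚ[X][X], ρ = fun i => ∑ j ∈ Finset.range k,
      C (r.coeff (n * j + i)) * X ^ j := ⟨_, rfl⟩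
  have hρd : ∀ i, (ρ i).natDegree < k := by
    intro i
    have h1 : (ρ i).degree < (k : WithBot ℕ) := by
      rw [← mem_degreeLT, hρ]
      apply Submodule.sum_mem
      intro j hj
      rw [mem_degreeLT]
      exact lt_of_le_of_lt (degree_C_mul_X_pow_le _ _) (by exact_mod_cast Finset.mem_range.1 hj)
    by_cases h2 : ρ i = 0
    · rw [h2, natDegree_zero]
      exact hk
    · exact (natDegree_lt_iff_degree_lt h2).2 h1
  have hρc : ∀ i j, j < k → (ρ i).coeff j = r.coeff (n * j + i) := by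
    intro i j hj
    rw [hρ]
    simp only [finsetSum_coeff, coeff_C_mul_X_pow]
    rw [Finset.sum_ite_eq, if_pos (Finset.mem_range.2 hj)]
  have hev : ∀ i, φ (ev cK xK κ (ρ i)) = ∑ j ∈ Finset.range k,
      eval₂ c x (r.coeff (n * j + i)) * (z ^ n) ^ j := by
    intro i
    rw [hom_ev φ cK c, hφx, ← hφκ, ev_eq_sum c x (z ^ n) (ρ i) (hρd i)]
    apply Finset.sum_congr rfl
    intro j hj
    rw [hρc i j (Finset.mem_range.1 hj)]
  have h1 : ∑ i ∈ Finset.range n, φ (ev cK xK κ (ρ i)) * z ^ i = 0 := by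
    rw [← h0, ev_eq_sum c x z r hdeg, sum_split, Finset.sum_comm]
    apply Finset.sum_congr rfl
    intro i _
    rw [hev, Finset.sum_mul]
    apply Finset.sum_congr rfl
    intro j _
    rw [pow_add, pow_mul]
    ring
  have h2 := ind_root φ n κ hirr z hφκ (fun i => ev cK xK κ (ρ i)) h1
  have h3 : ∀ i < n, ρ i = 0 := by
    intro i hi
    apply red_ne_zero hkN hQ c x (z ^ n) hx hxy (ρ i) (hρd i)
    have h4 : ev cK xK κ (ρ i) = 0 := h2 i hi
    have h5 := congrArg φ h4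
    rw [hom_ev φ cK c, hφx, ← hφκ, map_zero] at h5
    exact h5
  ext1 m
  rw [coeff_zero]
  rcases lt_or_ge m (n * k) with hm | hm
  · have hn0 : 0 < n := hn
    have h4 : m % n < n := Nat.mod_lt _ hn0
    have h5 : m / n < k := Nat.div_lt_of_lt_mul hm
    have h6 := hρc (m % n) (m / n) h5
    rw [h3 _ h4, coeff_zero, Nat.div_add_mod] at h6
    exact h6.symm
  · exact coeff_eq_zero_of_natDegree_lt (lt_of_lt_of_le hdeg hm)

end

end Pool.Agent.X95T
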