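import Pool.Agent.X95T.Q

set_option autoImplicit false

namespace Pool.Agent.X95T

open Pool.Agent.Results.MP_821da1_nt.RepulsionAllCurves (CoordRing)

section

open Polynomial

lemma monic_form {n k N : ℕ} (hn : 1 ≤ n) (hk : 1 ≤ k) (a : ℤ) (ha : a ≠ 0)
    (F : MvPolynomial (Fin 2) ℤ)
    (hF : ∀ s ∈ (F - MvPolynomial.X 1 ^ k + MvPolynomial.X 0 ^ N).support,
      k * s 0 + N * s 1 < N * k) :
    ∃ M : ℚ[X][X], M.Monic ∧ M.natDegree = n * k ∧
      isoP (MvPolynomial.map (Int.castRingHom ℚ) (sub a n F)) = C (C ((a : ℚ) ^ k)) * M := by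
  obtain ⟨R, hR⟩ : ∃ R, R = F - MvPolynomial.X 1 ^ k + MvPolynomial.X 0 ^ N := ⟨_, rfl⟩
  rw [← hR] at hF
  have hs1 : ∀ s ∈ R.support, s 1 < k := by
    intro s hs
    have h2 := hF s hs
    by_contra h3
    rw [not_lt] at h3
    have := Nat.mul_le_mul_left N h3
    omega
  have haQ : (a : ℚ) ≠ 0 := by exact_mod_cast ha
  have h1 : isoP (MvPolynomial.map (Int.castRingHom ℚ) (sub a n F)) =
      MvPolynomial.aeval ![(C X : ℚ[X][X]), (a : ℚ[X][X]) * X ^ n] F := by
    have h2 := hom_map (isoP : MvPolynomial (Fin 2) ℚ →+* ℚ[X][X]) (sub a n F)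
    rw [RingHom.coe_coe, isoP_X0, isoP_X1] at h2
    exact h2.trans (aeval_sub a n F _ _)
  have hcast : (a : ℚ[X][X]) = C (C (a : ℚ)) := by simp
  obtain ⟨L0, hL0⟩ : ∃ L0 : ℚ[X][X], L0 =
    MvPolynomial.aeval ![(C X : ℚ[X][X]), (a : ℚ[X][X]) * X ^ n] R - C (X ^ N) := ⟨_, rfl⟩
  have h2 : MvPolynomial.aeval ![(C X : ℚ[X][X]), (a : ℚ[X][X]) * X ^ n] F =
      ((a : ℚ[X][X]) * X ^ n) ^ k + L0 := by
    rw [hL0, hR, map_add, map_sub, map_pow, map_pow, MvPolynomial.aeval_X, MvPolynomial.aeval_X]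
    simp only [Matrix.cons_val_zero, Matrix.cons_val_one]
    rw [map_pow]
    ring
  have hnk : 0 < n * k := Nat.mul_pos hn hk
  have hL0d : L0.degree < ((n * k : ℕ) : WithBot ℕ) := by
    rw [← mem_degreeLT, hL0]
    apply Submodule.sub_mem
    · rw [MvPolynomial.aeval_def, MvPolynomial.eval₂_eq']
      apply Submodule.sum_mem
      intro s hs
      rw [mem_degreeLT, Fin.prod_univ_two]
      simp only [Matrix.cons_val_zero, Matrix.cons_val_one]
      have e : (algebraMap ℤ ℚ[X][X]) (MvPolynomial.coeff s R) *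
          ((C X) ^ s 0 * ((a : ℚ[X][X]) * X ^ n) ^ s 1) =
          C (C ((MvPolynomial.coeff s R : ℤ) : ℚ) * X ^ s 0 * C ((a : ℚ) ^ s 1)) *
            X ^ (n * s 1) := by
        have e1 : (algebraMap ℤ ℚ[X][X]) (MvPolynomial.coeff s R) =
            C (C ((MvPolynomial.coeff s R : ℤ) : ℚ)) := by simp
        rw [e1, hcast, mul_pow, ← pow_mul]
        simp only [map_mul, map_pow]
        ring
      rw [e]
      refine lt_of_le_of_lt (degree_C_mul_X_pow_le _ _) ?_
      exact_mod_cast Nat.mul_lt_mul_of_pos_left (hs1 s hs) hn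
    · rw [mem_degreeLT]
      exact lt_of_le_of_lt degree_C_le (by exact_mod_cast hnk)
  obtain ⟨L, hL⟩ : ∃ L : ℚ[X][X], L = C (C ((a : ℚ) ^ k)⁻¹) * L0 := ⟨_, rfl⟩
  have hLd : L.degree < ((n * k : ℕ) : WithBot ℕ) := by
    rw [hL, degree_C_mul (by rw [Ne, C_eq_zero]; exact inv_ne_zero (pow_ne_zero _ haQ))]
    exact hL0d
  have hMd : (X ^ (n * k) + L).natDegree = n * k := by
    rw [natDegree_add_eq_left_of_degree_lt (by rw [degree_X_pow]; exact hLd), natDegree_X_pow]
  refine ⟨X ^ (n * k) + L, monic_X_pow_add hLd, hMd, ?_⟩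
  rw [h1, h2, mul_add, hL, ← mul_assoc, ← C_mul, ← C_mul, mul_inv_cancel₀ (pow_ne_zero _ haQ),
    C_1, C_1, one_mul, hcast, mul_pow, ← pow_mul, map_pow, map_pow]

lemma sub_one (F : MvPolynomial (Fin 2) ℤ) : sub 1 1 F = F := by
  have h : (sub 1 1) = AlgHom.id ℤ (MvPolynomial (Fin 2) ℤ) := by
    apply MvPolynomial.algHom_ext
    intro i
    fin_cases i
    · simp [sub]
    · simp [sub]
  rw [h]
  rfl

/-- the place at infinity -/
lemma exists_place : ∃ (Ω : Type) (_ : Field Ω) (_ : CharZero Ω) (_ : IsAlgClosed Ω)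
    (W : ValuationSubring Ω) (x : Ω), (∀ q : ℚ, (q : Ω) ∈ W) ∧ 1 < W.valuation x := by
  obtain ⟨x, hx⟩ : ∃ x : AlgebraicClosure (FractionRing ℚ[X]),
    x = algebraMap (FractionRing ℚ[X]) _ (algebraMap ℚ[X] _ X) := ⟨_, rfl⟩
  have hc0 : CharZero (AlgebraicClosure (FractionRing ℚ[X])) :=
    charZero_of_injective_algebraMap
      (algebraMap (FractionRing ℚ[X]) (AlgebraicClosure (FractionRing ℚ[X]))).injective
  have hxt : x ∉ (integralClosure ℚ (AlgebraicClosure (FractionRing ℚ[X]))).toSubring := by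
    intro h
    have h1 : IsIntegral ℚ x := h
    obtain ⟨p, hp, hp0⟩ := h1
    have h2 : eval₂ (algebraMap ℚ _) x p =
        algebraMap (FractionRing ℚ[X]) (AlgebraicClosure (FractionRing ℚ[X]))
          (algebraMap ℚ[X] (FractionRing ℚ[X]) p) := by
      have h3 : eval₂RingHom (algebraMap ℚ (AlgebraicClosure (FractionRing ℚ[X]))) x =
          ((algebraMap (FractionRing ℚ[X]) (AlgebraicClosure (FractionRing ℚ[X]))).comp
            (algebraMap ℚ[X] (FractionRing ℚ[X]))) := by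
        apply Polynomial.ringHom_ext'
        · exact Subsingleton.elim _ _
        · simp [hx]
      exact DFunLike.congr_fun h3 p
    rw [hp0] at h2
    have h3 := (algebraMap (FractionRing ℚ[X]) (AlgebraicClosure (FractionRing ℚ[X]))).injective
      (h2.symm.trans (map_zero _).symm)
    have h4 := (IsFractionRing.injective ℚ[X] (FractionRing ℚ[X])) (h3.trans (map_zero _).symm)
    exact hp.ne_zero h4
  obtain ⟨V, hV, hxV⟩ := Subring.exists_le_valuationSubring_of_isIntegrallyClosedIn hxt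
  refine ⟨AlgebraicClosure (FractionRing ℚ[X]), inferInstance, hc0, inferInstance, V, x, ?_, ?_⟩
  · intro q
    apply hV
    show IsIntegral ℚ ((q : ℚ) : AlgebraicClosure (FractionRing ℚ[X]))
    have : ((q : ℚ) : AlgebraicClosure (FractionRing ℚ[X])) = algebraMap ℚ _ q :=
      (eq_ratCast (algebraMap ℚ _) q).symm
    rw [this]
    exact isIntegral_algebraMap
  · rw [← not_le, V.valuation_le_one_iff]
    exact hxV

/-- the valuation of `y` at infinity -/
lemma val_y {Ω : Type} [Field Ω] [CharZero Ω] {W : ValuationSubring Ω} {N k : ℕ} (hN : 1 ≤ N)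
    (hk : 1 ≤ k) (hQ : ∀ q : ℚ, (q : Ω) ∈ W) (F : MvPolynomial (Fin 2) ℤ)
    (hF : ∀ s ∈ (F - MvPolynomial.X 1 ^ k + MvPolynomial.X 0 ^ N).support,
      k * s 0 + N * s 1 < N * k) (x y : Ω) (hx : 1 < W.valuation x)
    (h0 : MvPolynomial.aeval ![x, y] F = 0) :
    W.valuation y ^ k = W.valuation x ^ N := by
  have hZ : ∀ c : ℤ, W.valuation (c : Ω) ≤ 1 := by
    intro c
    have : ((c : ℚ) : Ω) = (c : Ω) := by simp
    rw [← this]
    exact (W.valuation_le_one_iff _).2 (hQ _)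
  obtain ⟨hx1, hy1⟩ := both W.valuation hN hk hZ F hF x y (Or.inl hx) h0
  have h1 := lead W.valuation hN hk hZ F hF x y hx1 hy1 h0
  have h2 : W.valuation (x ^ N / y ^ k) = 1 := by
    have e : x ^ N / y ^ k = (x ^ N / y ^ k - 1) + 1 := by ring
    rw [e, Valuation.map_add_eq_of_lt_right _ (by rw [map_one]; exact h1), map_one]
  rw [map_div₀, map_pow, map_pow] at h2
  exact (eq_of_div_eq_one h2).symm

end

end Pool.Agent.X95T
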