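import Pool.Agent.X95T.R

set_option autoImplicit false

namespace Pool.Agent.X95T

open Pool.Agent.Results.MP_821da1_nt.RepulsionAllCurves (CoordRing)

section

open Polynomial

lemma ex_root {Ω : Type} [Field Ω] [IsAlgClosed Ω] (c : ℚ →+* Ω) (x : Ω) (M : ℚ[X][X])
    (hM : M.Monic) (hd : 1 ≤ M.natDegree) : ∃ y, ev c x y M = 0 := by
  have hMm := hM.map (eval₂RingHom c x)
  obtain ⟨y, hy⟩ := IsAlgClosed.exists_root (M.map (eval₂RingHom c x)) (by
    rw [degree_eq_natDegree hMm.ne_zero, hM.natDegree_map]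
    have : M.natDegree ≠ 0 := by omega
    exact_mod_cast this)
  refine ⟨y, ?_⟩
  rw [IsRoot.def, eval_map] at hy
  rw [ev, coe_eval₂RingHom]
  exact hy

lemma isUnit_CC {u : ℚ} (hu : u ≠ 0) : IsUnit (C (C u) : ℚ[X][X]) :=
  isUnit_C.2 (isUnit_C.2 (isUnit_iff_ne_zero.2 hu))

/-- everything about a curve with leading form `y ^ k - x ^ N` at infinity -/
lemma setup {k N : ℕ} (hk : 1 ≤ k) (hN : 1 ≤ N) (hkN : Nat.Coprime k N)
    (F : MvPolynomial (Fin 2) ℤ)
    (hF : ∀ s ∈ (F - MvPolynomial.X 1 ^ k + MvPolynomial.X 0 ^ N).support,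
      k * s 0 + N * s 1 < N * k) {Ω : Type} [Field Ω] [CharZero Ω] [IsAlgClosed Ω]
    {W : ValuationSubring Ω} (hQ : ∀ q : ℚ, (q : Ω) ∈ W) (c : ℚ →+* Ω) (x : Ω)
    (hx : 1 < W.valuation x) :
    ∃ (M : ℚ[X][X]) (y : Ω), M.Monic ∧ M.natDegree = k ∧
      isoP (MvPolynomial.map (Int.castRingHom ℚ) F) = M ∧ ev c x y M = 0 ∧
      W.valuation y ^ k = W.valuation x ^ N ∧ Irreducible M ∧
      ∀ A : ℚ[X][X], ev c x y A = 0 → M ∣ A := by
  obtain ⟨M, hM, hMd, hMF⟩ := monic_form (n := 1) le_rfl hk 1 one_ne_zero F hF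
  rw [sub_one, Int.cast_one, one_pow, C_1, C_1, one_mul] at hMF
  rw [one_mul] at hMd
  obtain ⟨y, hy⟩ := ex_root c x M hM (by omega)
  have hFy : MvPolynomial.aeval ![x, y] F = 0 := by
    have h1 := hom_map (MvPolynomial.eval₂Hom c ![x, y]) F
    rw [← ev_isoP, hMF, hy] at h1
    simp only [MvPolynomial.coe_eval₂Hom, MvPolynomial.eval₂_X, Matrix.cons_val_zero,
      Matrix.cons_val_one] at h1
    exact h1.symm
  have hvy := val_y hN hk hQ F hF x y hx hFy
  have hind : ∀ r : ℚ[X][X], r.degree < M.degree → ev c x y r = 0 → r = 0 := by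
    intro r hr h0
    by_contra hr0
    apply hr0
    apply red_ne_zero hkN hQ c x y hx hvy r _ h0
    rw [← hMd]
    exact natDegree_lt_natDegree hr0 hr
  refine ⟨M, y, hM, hMd, hMF, hy, hvy, irr_of_ind c x y M hM hy hind, ?_⟩
  intro A hA
  rw [← modByMonic_eq_zero_iff_dvd hM]
  apply hind _ (degree_modByMonic_lt _ hM)
  rw [modByMonic_eq_sub_mul_div, map_sub, map_mul, hA, hy, zero_mul, sub_zero]

/-- such a curve is irreducible -/
theorem irrF {k N : ℕ} (hk : 1 ≤ k) (hN : 1 ≤ N) (hkN : Nat.Coprime k N)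
    (F : MvPolynomial (Fin 2) ℤ)
    (hF : ∀ s ∈ (F - MvPolynomial.X 1 ^ k + MvPolynomial.X 0 ^ N).support,
      k * s 0 + N * s 1 < N * k) :
    Irreducible (MvPolynomial.map (Int.castRingHom ℚ) F) := by
  obtain ⟨Ω, _, _, _, W, x, hQ, hx⟩ := exists_place
  obtain ⟨M, y, hM, hMd, hMF, hy, hvy, hMi, -⟩ := setup hk hN hkN F hF hQ (Rat.castHom Ω) x hx
  rw [← MulEquiv.irreducible_iff isoP, hMF]
  exact hMi

/-- the cover `y = a z ^ n` of a nonsingular curve with one rational place at infinity is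
irreducible -/
theorem irr_sub {n k N : ℕ} (hn : Odd n) (hk : 2 ≤ k) (hN : 1 ≤ N) (hkN : Nat.Coprime k N)
    (F : MvPolynomial (Fin 2) ℤ)
    (hF : ∀ s ∈ (F - MvPolynomial.X 1 ^ k + MvPolynomial.X 0 ^ N).support,
      k * s 0 + N * s 1 < N * k)
    (hnorm : IsIntegrallyClosed (CoordRing F)) (a : ℤ) (ha : a ≠ 0) :
    Irreducible (MvPolynomial.map (Int.castRingHom ℚ) (sub a n F)) := by
  have hk1 : 1 ≤ k := by omega
  have hIF := irrF hk1 hN hkN F hF
  have hprime : (Ideal.span {MvPolynomial.map (Int.castRingHom ℚ) F}).IsPrime :=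
    (Ideal.span_singleton_prime hIF.ne_zero).2 hIF.prime
  have hdom : IsDomain (CoordRing F) := Ideal.Quotient.isDomain _
  obtain ⟨Ω, _, _, _, W, x, hQ, hx⟩ := exists_place
  obtain ⟨c, hc⟩ : ∃ c : ℚ →+* Ω, c = Rat.castHom Ω := ⟨_, rfl⟩
  obtain ⟨M, y, hM, hMd, hMF, hy, hvy, hMi, hker⟩ := setup hk1 hN hkN F hF hQ c x hx
  have hn0 : 0 < n := hn.pos
  have hux : W.valuation x ≠ 0 := (lt_trans zero_lt_one hx).ne'
  have huy : W.valuation y ≠ 0 := by
    intro h
    rw [h, zero_pow (by omega)] at hvy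
    exact pow_ne_zero _ hux hvy.symm
  have hy0 : y ≠ 0 := by
    rintro rfl
    exact huy (map_zero _)
  have haQ : (a : ℚ) ≠ 0 := by exact_mod_cast ha
  have haΩ : (a : Ω) ≠ 0 := by exact_mod_cast ha
  have hva : W.valuation (a : Ω) = 1 := by
    have : ((a : ℚ) : Ω) = (a : Ω) := by simp
    rw [← this]
    exact val_rat hQ haQ
  obtain ⟨z, hz⟩ := IsAlgClosed.exists_pow_nat_eq (y / (a : Ω)) hn0
  have hvz : W.valuation (z ^ n) = W.valuation y := by
    rw [hz, map_div₀, hva, div_one]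
  -- the function field
  obtain ⟨ρ₀, hρ₀⟩ : ∃ ρ₀ : MvPolynomial (Fin 2) ℚ →+* Ω, ρ₀ = MvPolynomial.eval₂Hom c ![x, y] :=
    ⟨_, rfl⟩
  have hρF : ρ₀ (MvPolynomial.map (Int.castRingHom ℚ) F) = 0 := by
    rw [hρ₀, ← ev_isoP, hMF, hy]
  have hρker : ∀ P, ρ₀ P = 0 → MvPolynomial.map (Int.castRingHom ℚ) F ∣ P := by
    intro P hP
    rw [hρ₀, ← ev_isoP] at hP
    obtain ⟨E, hE⟩ := hker _ hP
    refine ⟨isoP.symm E, ?_⟩
    apply isoP.injective
    rw [map_mul, RingEquiv.apply_symm_apply, hMF, hE]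
  obtain ⟨ρ, hρ⟩ : ∃ ρ : CoordRing F →+* Ω, ∀ P, ρ (Ideal.Quotient.mk _ P) = ρ₀ P :=
    ⟨Ideal.Quotient.lift _ ρ₀ (fun P hP => by
      obtain ⟨E, rfl⟩ := Ideal.mem_span_singleton.1 hP
      rw [map_mul, hρF, zero_mul]), fun P => Ideal.Quotient.lift_mk _ _ _⟩
  have hρinj : Function.Injective ρ := by
    rw [injective_iff_map_eq_zero]
    intro r hr
    obtain ⟨P, rfl⟩ := Ideal.Quotient.mk_surjective r
    rw [hρ] at hr
    rw [Ideal.Quotient.eq_zero_iff_mem]
    exact Ideal.mem_span_singleton.2 (hρker P hr)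
  obtain ⟨φ, hφ⟩ : ∃ φ : FractionRing (CoordRing F) →+* Ω, ∀ r, φ (algebraMap _ _ r) = ρ r :=
    ⟨IsFractionRing.lift hρinj, fun r => IsFractionRing.lift_algebraMap hρinj r⟩
  obtain ⟨κ, hκ⟩ : ∃ κ : FractionRing (CoordRing F), κ = algebraMap (CoordRing F) _
    (Ideal.Quotient.mk _ (MvPolynomial.C ((a : ℚ)⁻¹) * MvPolynomial.X 1)) := ⟨_, rfl⟩
  have hφκ : z ^ n = φ κ := by
    rw [hz, hκ, hφ, hρ, hρ₀, map_mul]
    simp only [MvPolynomial.coe_eval₂Hom, MvPolynomial.eval₂_X, MvPolynomial.eval₂_C,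
      Matrix.cons_val_one]
    rw [map_inv₀, map_intCast, div_eq_inv_mul]
    rfl
  have hirrK : Irreducible (X ^ n - C κ : (FractionRing (CoordRing F))[X]) := by
    rw [X_pow_sub_C_irreducible_iff_forall_prime_of_odd hn]
    intro l hl hln b hb
    have hbi : IsIntegral (CoordRing F) (b ^ l) := by
      rw [hb, hκ]
      exact isIntegral_algebraMap
    obtain ⟨r, hr⟩ := IsIntegrallyClosed.exists_algebraMap_eq_of_isIntegral_pow hl.pos hbi
    obtain ⟨G, rfl⟩ := Ideal.Quotient.mk_surjective r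
    obtain ⟨β, hβ⟩ : ∃ β, β = φ b := ⟨_, rfl⟩
    have hβl : β ^ l = z ^ n := by rw [hβ, ← map_pow, hb, hφκ]
    have hβG : ev c x y (isoP G %ₘ M) = β := by
      rw [modByMonic_eq_sub_mul_div, map_sub, map_mul, hy, zero_mul, sub_zero, ev_isoP, ← hρ₀, ← hρ,
        ← hφ, hr, hβ]
    have hβ0 : β ≠ 0 := by
      rintro rfl
      rw [zero_pow hl.ne_zero, hz] at hβl
      exact div_ne_zero hy0 haΩ hβl.symm
    have hG0 : isoP G %ₘ M ≠ 0 := by
      intro h
      rw [h, map_zero] at hβG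
      exact hβ0 hβG.symm
    have hGd : (isoP G %ₘ M).natDegree < k := by
      rw [← hMd]
      exact natDegree_lt_natDegree hG0 (degree_modByMonic_lt _ hM)
    obtain ⟨m, j, hj, hv⟩ := val_red hkN hQ c x y hx hvy _ hG0 hGd
    rw [hβG] at hv
    have h1 : W.valuation x ^ (l * (k * m + N * j)) = W.valuation x ^ N := by
      have h2 : (W.valuation β ^ l) ^ k = W.valuation x ^ N := by
        rw [← map_pow, hβl, hvz, hvy]
      have h3 : ((W.valuation x ^ m) ^ l) ^ k = W.valuation x ^ (l * (k * m)) := by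
        rw [← pow_mul, ← pow_mul]
        congr 1
        ring
      have h4 : ((W.valuation y ^ j) ^ l) ^ k = W.valuation x ^ (l * (N * j)) := by
        have e : j * (l * k) = k * (j * l) := by ring
        rw [← pow_mul, ← pow_mul, e, pow_mul, hvy, ← pow_mul]
        congr 1
        ring
      rw [← h2, hv, mul_pow, mul_pow, h3, h4, ← pow_add, mul_add]
    have h2 : l * (k * m + N * j) = N := (pow_right_injective₀ (zero_lt_one.trans hx) hx.ne') h1
    have hl2 := hl.two_le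
    rcases Nat.eq_zero_or_pos j with rfl | hj0
    · rw [mul_zero, add_zero] at h2
      have h3 : k ∣ N := ⟨l * m, by rw [← h2]; ring⟩
      have h4 : k ∣ Nat.gcd k N := Nat.dvd_gcd dvd_rfl h3
      rw [hkN] at h4
      have := Nat.le_of_dvd one_pos h4
      omega
    · have h3 : N * 1 ≤ N * j := Nat.mul_le_mul_left N hj0
      have h4 : 2 * (k * m + N * j) ≤ l * (k * m + N * j) := Nat.mul_le_mul_right _ hl2
      omega
  obtain ⟨M', hM', hM'd, hM'F⟩ := monic_form (n := n) hn0 hk1 a ha F hF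
  have hak : ((a : ℚ) ^ k) ≠ 0 := pow_ne_zero _ haQ
  have hzM : ev c x z M' = 0 := by
    have h1 : ev c x z (isoP (MvPolynomial.map (Int.castRingHom ℚ) (sub a n F))) = 0 := by
      rw [ev_isoP, hom_map, aeval_sub]
      simp only [MvPolynomial.coe_eval₂Hom, MvPolynomial.eval₂_X, Matrix.cons_val_zero,
        Matrix.cons_val_one]
      rw [hz, mul_div_cancel₀ _ haΩ]
      have h2 := hom_map ρ₀ F
      rw [hρF, hρ₀] at h2
      simp only [MvPolynomial.coe_eval₂Hom, MvPolynomial.eval₂_X, Matrix.cons_val_zero,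
        Matrix.cons_val_one] at h2
      exact h2.symm
    rw [hM'F, map_mul] at h1
    refine (mul_eq_zero.1 h1).resolve_left ?_
    rw [ev_C, eval₂_C, map_pow]
    exact pow_ne_zero _ (by rw [Ne, map_eq_zero]; exact haQ)
  rw [← MulEquiv.irreducible_iff isoP, hM'F, irreducible_isUnit_mul (isUnit_CC hak)]
  apply irr_of_ind c x z M' hM' hzM
  intro r hr h0
  by_contra hr0
  apply hr0
  refine ind_z hkN hk1 hn0 hQ c x z hx (by rw [hvz, hvy]) (algebraMap ℚ _) φ
    (algebraMap (CoordRing F) _ (Ideal.Quotient.mk _ (MvPolynomial.X 0))) κ ?_ hφκ hirrK r ?_ h0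
  · rw [hφ, hρ, hρ₀]
    simp
  · rw [← hM'd]
    exact natDegree_lt_natDegree hr0 hr

end

end Pool.Agent.X95T
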