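import Pool.Agent.X95T.T
import Pool.Agent.X95T.J

set_option autoImplicit false

namespace Pool.Agent.X95T

open Pool.Agent.Results.MP_821da1_nt.RepulsionAllCurves (CoordRing AtInfinity OnePlace)

section

variable {L : Type} [Field L] {Γ : Type} [LinearOrderedCommGroupWithZero Γ] (v : Valuation L Γ)

/-- the leading behaviour at infinity -/
lemma leadG {N k : ℕ} (hZ : ∀ c : ℤ, v (c : L) ≤ 1)
    (γ : ℤ) (hγ : v (γ : L) = 1) (F : MvPolynomial (Fin 2) ℤ)
    (hF : ∀ s ∈ (F - MvPolynomial.C γ * MvPolynomial.X 1 ^ k + MvPolynomial.X 0 ^ N).support,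
      k * s 0 + N * s 1 < N * k)
    (x y : L) (hx : 1 < v x) (hy : 1 < v y) (h0 : MvPolynomial.aeval ![x, y] F = 0) :
    v (x ^ N / (γ * y ^ k) - 1) < 1 := by
  obtain ⟨R, hR⟩ : ∃ R, R = F - MvPolynomial.C γ * MvPolynomial.X 1 ^ k + MvPolynomial.X 0 ^ N :=
    ⟨_, rfl⟩
  rw [← hR] at hF
  have hx0 : x ≠ 0 := by rintro rfl; simp at hx
  have hy0 : y ≠ 0 := by rintro rfl; simp at hy
  have hγ0 : (γ : L) ≠ 0 := by
    intro h
    rw [h, map_zero] at hγ
    exact zero_ne_one hγ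
  have e1 : MvPolynomial.aeval ![x, y] R = x ^ N - γ * y ^ k := by
    rw [hR, map_add, map_sub, h0, map_mul, map_pow, map_pow, MvPolynomial.aeval_X,
      MvPolynomial.aeval_X, MvPolynomial.aeval_C]
    simp only [Matrix.cons_val_zero, Matrix.cons_val_one, algebraMap_int_eq, eq_intCast]
    ring
  have hux : v x ≠ 0 := (lt_trans zero_lt_one hx).ne'
  have huy : v y ≠ 0 := (lt_trans zero_lt_one hy).ne'
  have hγy : v (γ * y ^ k) = v y ^ k := by rw [map_mul, hγ, one_mul, map_pow]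
  rcases le_or_gt (v x ^ N) (v y ^ k) with hle | hgt
  · have h1 : v (MvPolynomial.aeval ![x, y] R) < v y ^ k := by
      apply sum_small v hZ R x y _ (pow_ne_zero _ huy)
      intro s hs
      have h2 := hF s hs
      refine lt_of_pow_lt_pow_left₀ N zero_le ?_
      calc (v x ^ s 0 * v y ^ s 1) ^ N = (v x ^ N) ^ s 0 * v y ^ (N * s 1) := by
            rw [mul_pow, ← pow_mul, ← pow_mul, ← pow_mul, mul_comm N (s 0), mul_comm N (s 1)]
        _ ≤ (v y ^ k) ^ s 0 * v y ^ (N * s 1) := mul_le_mul_left (pow_le_pow_left₀ zero_le hle _) _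
        _ = v y ^ (k * s 0 + N * s 1) := by rw [← pow_mul, ← pow_add]
        _ < v y ^ (N * k) := pow_lt_pow_right₀ hy h2
        _ = (v y ^ k) ^ N := by rw [← pow_mul, mul_comm]
    have h3 : x ^ N / (γ * y ^ k) - 1 = MvPolynomial.aeval ![x, y] R / (γ * y ^ k) := by
      rw [e1, sub_div, div_self (mul_ne_zero hγ0 (pow_ne_zero _ hy0))]
    rw [h3, map_div₀, hγy]
    exact (div_lt_one₀ (zero_lt_iff.2 (pow_ne_zero _ huy))).2 h1
  · exfalso
    have h1 : v (MvPolynomial.aeval ![x, y] R) < v x ^ N := by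
      apply sum_small v hZ R x y _ (pow_ne_zero _ hux)
      intro s hs
      have h2 := hF s hs
      refine lt_of_pow_lt_pow_left₀ k zero_le ?_
      calc (v x ^ s 0 * v y ^ s 1) ^ k = v x ^ (k * s 0) * (v y ^ k) ^ s 1 := by
            rw [mul_pow, ← pow_mul, ← pow_mul, ← pow_mul, mul_comm k (s 0), mul_comm k (s 1)]
        _ ≤ v x ^ (k * s 0) * (v x ^ N) ^ s 1 :=
            mul_le_mul_right (pow_le_pow_left₀ zero_le hgt.le _) _
        _ = v x ^ (k * s 0 + N * s 1) := by rw [← pow_mul, ← pow_add]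
        _ < v x ^ (N * k) := pow_lt_pow_right₀ hx h2
        _ = (v x ^ N) ^ k := by rw [← pow_mul]
    rw [e1] at h1
    have h4 : v (x ^ N - γ * y ^ k) = v (x ^ N) := by
      apply Valuation.map_sub_eq_of_lt_left
      rw [hγy, map_pow]
      exact hgt
    rw [h4, map_pow] at h1
    exact lt_irrefl _ h1

/-- at a place at infinity both coordinates have a pole -/
lemma bothG {N k : ℕ} (hN : 1 ≤ N) (hk : 1 ≤ k) (hZ : ∀ c : ℤ, v (c : L) ≤ 1)
    (γ : ℤ) (hγ : v (γ : L) = 1) (F : MvPolynomial (Fin 2) ℤ)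
    (hF : ∀ s ∈ (F - MvPolynomial.C γ * MvPolynomial.X 1 ^ k + MvPolynomial.X 0 ^ N).support,
      k * s 0 + N * s 1 < N * k)
    (x y : L) (hxy : 1 < v x ∨ 1 < v y) (h0 : MvPolynomial.aeval ![x, y] F = 0) :
    1 < v x ∧ 1 < v y := by
  obtain ⟨R, hR⟩ : ∃ R, R = F - MvPolynomial.C γ * MvPolynomial.X 1 ^ k + MvPolynomial.X 0 ^ N :=
    ⟨_, rfl⟩
  rw [← hR] at hF
  have e1 : MvPolynomial.aeval ![x, y] R = x ^ N - γ * y ^ k := by
    rw [hR, map_add, map_sub, h0, map_mul, map_pow, map_pow, MvPolynomial.aeval_X,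
      MvPolynomial.aeval_X, MvPolynomial.aeval_C]
    simp only [Matrix.cons_val_zero, Matrix.cons_val_one, algebraMap_int_eq, eq_intCast]
    ring
  have hγy : v (γ * y ^ k) = v y ^ k := by rw [map_mul, hγ, one_mul, map_pow]
  by_contra hcon
  rw [not_and_or, not_lt, not_lt] at hcon
  have hs1 : ∀ s ∈ R.support, s 1 < k := by
    intro s hs
    have h2 := hF s hs
    by_contra h3
    rw [not_lt] at h3
    have := Nat.mul_le_mul_left N h3
    omega
  have hs0 : ∀ s ∈ R.support, s 0 < N := by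
    intro s hs
    have h2 := hF s hs
    by_contra h3
    rw [not_lt] at h3
    have := Nat.mul_le_mul_left k h3
    rw [mul_comm k N] at this
    omega
  rcases hcon with hx | hy
  · have hy : 1 < v y := hxy.resolve_left (not_lt.2 hx)
    have huy : v y ≠ 0 := (lt_trans zero_lt_one hy).ne'
    have h1 : v (MvPolynomial.aeval ![x, y] R) < v y ^ k := by
      apply sum_small v hZ R x y _ (pow_ne_zero _ huy)
      intro s hs
      calc v x ^ s 0 * v y ^ s 1 ≤ 1 * v y ^ s 1 := mul_le_mul_left (pow_le_one₀ zero_le hx) _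
        _ = v y ^ s 1 := one_mul _
        _ < v y ^ k := pow_lt_pow_right₀ hy (hs1 s hs)
    have h2 : v (x ^ N) < v (γ * y ^ k) := by
      rw [map_pow, hγy]
      exact lt_of_le_of_lt (pow_le_one₀ zero_le hx) (one_lt_pow₀ hy (by omega))
    rw [e1, Valuation.map_sub_eq_of_lt_right _ h2, hγy] at h1
    exact lt_irrefl _ h1
  · have hx : 1 < v x := hxy.resolve_right (not_lt.2 hy)
    have hux : v x ≠ 0 := (lt_trans zero_lt_one hx).ne'
    have h1 : v (MvPolynomial.aeval ![x, y] R) < v x ^ N := by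
      apply sum_small v hZ R x y _ (pow_ne_zero _ hux)
      intro s hs
      calc v x ^ s 0 * v y ^ s 1 ≤ v x ^ s 0 * 1 := mul_le_mul_right (pow_le_one₀ zero_le hy) _
        _ = v x ^ s 0 := mul_one _
        _ < v x ^ N := pow_lt_pow_right₀ hx (hs0 s hs)
    have h2 : v (γ * y ^ k) < v (x ^ N) := by
      rw [hγy, map_pow]
      exact lt_of_le_of_lt (pow_le_one₀ zero_le hy) (one_lt_pow₀ hx (by omega))
    rw [e1, Valuation.map_sub_eq_of_lt_left _ h2, map_pow] at h1
    exact lt_irrefl _ h1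

end

section

open Polynomial

lemma monic_formG {n k N : ℕ} (hn : 1 ≤ n) (hk : 1 ≤ k) (a : ℤ) (ha : a ≠ 0) (γ : ℤ) (hγ : γ ≠ 0)
    (F : MvPolynomial (Fin 2) ℤ)
    (hF : ∀ s ∈ (F - MvPolynomial.C γ * MvPolynomial.X 1 ^ k + MvPolynomial.X 0 ^ N).support,
      k * s 0 + N * s 1 < N * k) :
    ∃ M : ℚ[X][X], M.Monic ∧ M.natDegree = n * k ∧
      isoP (MvPolynomial.map (Int.castRingHom ℚ) (sub a n F)) = C (C (γ * (a : ℚ) ^ k)) * M := by
  obtain ⟨R, hR⟩ : ∃ R, R = F - MvPolynomial.C γ * MvPolynomial.X 1 ^ k + MvPolynomial.X 0 ^ N :=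
    ⟨_, rfl⟩
  rw [← hR] at hF
  have hs1 : ∀ s ∈ R.support, s 1 < k := by
    intro s hs
    have h2 := hF s hs
    by_contra h3
    rw [not_lt] at h3
    have := Nat.mul_le_mul_left N h3
    omega
  have haQ : (a : ℚ) ≠ 0 := by exact_mod_cast ha
  have hγQ : (γ : ℚ) ≠ 0 := by exact_mod_cast hγ
  have hu : (γ : ℚ) * (a : ℚ) ^ k ≠ 0 := mul_ne_zero hγQ (pow_ne_zero _ haQ)
  have h1 : isoP (MvPolynomial.map (Int.castRingHom ℚ) (sub a n F)) =
      MvPolynomial.aeval ![(C X : ℚ[X][X]), (a : ℚ[X][X]) * X ^ n] F := by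
    have h2 := hom_map (isoP : MvPolynomial (Fin 2) ℚ →+* ℚ[X][X]) (sub a n F)
    rw [RingHom.coe_coe, isoP_X0, isoP_X1] at h2
    exact h2.trans (aeval_sub a n F _ _)
  have hcast : ∀ a : ℤ, (a : ℚ[X][X]) = C (C (a : ℚ)) := by intro a; simp
  obtain ⟨L0, hL0⟩ : ∃ L0 : ℚ[X][X], L0 =
    MvPolynomial.aeval ![(C X : ℚ[X][X]), (a : ℚ[X][X]) * X ^ n] R - C (X ^ N) := ⟨_, rfl⟩
  have h2 : MvPolynomial.aeval ![(C X : ℚ[X][X]), (a : ℚ[X][X]) * X ^ n] F =
      (γ : ℚ[X][X]) * ((a : ℚ[X][X]) * X ^ n) ^ k + L0 := by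
    rw [hL0, hR, map_add, map_sub, map_mul, map_pow, map_pow, MvPolynomial.aeval_X,
      MvPolynomial.aeval_X, MvPolynomial.aeval_C]
    simp only [Matrix.cons_val_zero, Matrix.cons_val_one, algebraMap_int_eq, eq_intCast]
    rw [map_pow]
    ring
  have hnk : 0 < n * k := Nat.mul_pos hn hk
  have hL0d : L0.degree < ((n * k : ℕ) : WithBot ℕ) := by
    rw [← mem_degreeLT, hL0]
    apply Submodule.sub_mem
    · rw [MvPolynomial.aeval_def, MvPolynomial.eval₂_eq']
      apply Submodule.sum_mem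
      intro s hs
      rw [mem_degreeLT, Fin.prod_univ_two]
      simp only [Matrix.cons_val_zero, Matrix.cons_val_one]
      have e : (algebraMap ℤ ℚ[X][X]) (MvPolynomial.coeff s R) *
          ((C X) ^ s 0 * ((a : ℚ[X][X]) * X ^ n) ^ s 1) =
          C (C ((MvPolynomial.coeff s R : ℤ) : ℚ) * X ^ s 0 * C ((a : ℚ) ^ s 1)) *
            X ^ (n * s 1) := by
        have e1 : (algebraMap ℤ ℚ[X][X]) (MvPolynomial.coeff s R) =
            C (C ((MvPolynomial.coeff s R : ℤ) : ℚ)) := by simp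
        rw [e1, hcast, mul_pow, ← pow_mul]
        simp only [map_mul, map_pow]
        ring
      rw [e]
      refine lt_of_le_of_lt (degree_C_mul_X_pow_le _ _) ?_
      exact_mod_cast Nat.mul_lt_mul_of_pos_left (hs1 s hs) hn
    · rw [mem_degreeLT]
      exact lt_of_le_of_lt degree_C_le (by exact_mod_cast hnk)
  obtain ⟨L, hL⟩ : ∃ L : ℚ[X][X], L = C (C ((γ : ℚ) * (a : ℚ) ^ k)⁻¹) * L0 := ⟨_, rfl⟩
  have hLd : L.degree < ((n * k : ℕ) : WithBot ℕ) := by
    rw [hL, degree_C_mul (by rw [Ne, C_eq_zero]; exact inv_ne_zero hu)]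
    exact hL0d
  have hMd : (X ^ (n * k) + L).natDegree = n * k := by
    rw [natDegree_add_eq_left_of_degree_lt (by rw [degree_X_pow]; exact hLd), natDegree_X_pow]
  refine ⟨X ^ (n * k) + L, monic_X_pow_add hLd, hMd, ?_⟩
  rw [h1, h2, mul_add, hL, ← mul_assoc (C (C _)), ← C_mul, ← C_mul, mul_inv_cancel₀ hu,
    C_1, C_1, one_mul, hcast, hcast, mul_pow, ← pow_mul, ← mul_assoc]
  simp only [map_mul, map_pow]

/-- integrality over the polynomials in `x` -/
lemma isIntG (G : MvPolynomial (Fin 2) ℤ) (M : ℚ[X][X]) (hM : M.Monic) (u : ℚ) (hu : u ≠ 0)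
    (h : isoP (MvPolynomial.map (Int.castRingHom ℚ) G) = C (C u) * M) : (jx G).IsIntegral := by
  let _ := (jx G).toAlgebra
  obtain ⟨x, hx⟩ : ∃ x : CoordRing G, x = Ideal.Quotient.mk _ (MvPolynomial.X 0) := ⟨_, rfl⟩
  obtain ⟨z, hz⟩ : ∃ z : CoordRing G, z = Ideal.Quotient.mk _ (MvPolynomial.X 1) := ⟨_, rfl⟩
  have hq : (Ideal.Quotient.mk (Ideal.span {MvPolynomial.map (Int.castRingHom ℚ) G}))
      (MvPolynomial.map (Int.castRingHom ℚ) G) = 0 := by
    rw [Ideal.Quotient.eq_zero_iff_mem]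
    exact Ideal.mem_span_singleton_self _
  have hjx : algebraMap (Polynomial ℚ) (CoordRing G) Polynomial.X = x := by
    rw [hx]
    show jx G Polynomial.X = _
    rw [jx, Polynomial.coe_eval₂RingHom, Polynomial.eval₂_X]
  have hjC : ∀ q : ℚ, algebraMap (Polynomial ℚ) (CoordRing G) (Polynomial.C q) =
      algebraMap ℚ (CoordRing G) q := by
    intro q
    show jx G (Polynomial.C q) = _
    rw [jx, Polynomial.coe_eval₂RingHom, Polynomial.eval₂_C]
  have hev : ev (algebraMap ℚ (CoordRing G)) x z M = 0 := by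
    have h1 : ev (algebraMap ℚ (CoordRing G)) x z (isoP (MvPolynomial.map (Int.castRingHom ℚ) G)) = 0 := by
      rw [ev_isoP]
      rw [← hq]
      have h2 : (MvPolynomial.eval₂Hom (algebraMap ℚ (CoordRing G)) ![x, z]) =
          Ideal.Quotient.mk (Ideal.span {MvPolynomial.map (Int.castRingHom ℚ) G}) := by
        apply MvPolynomial.ringHom_ext
        · intro r
          simp only [MvPolynomial.coe_eval₂Hom, MvPolynomial.eval₂_C]
          rfl
        · intro i
          fin_cases i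
          · simp [hx]
          · simp [hz]
      rw [h2]
    rw [h, map_mul, ev_C, eval₂_C] at h1
    have h3 : IsUnit (algebraMap ℚ (CoordRing G) u) := (isUnit_iff_ne_zero.2 hu).map _
    exact (h3.mul_right_eq_zero).1 h1
  have hzint : IsIntegral (Polynomial ℚ) z := by
    refine ⟨M, hM, ?_⟩
    rw [← hev, ev, coe_eval₂RingHom]
    have h1 : algebraMap (Polynomial ℚ) (CoordRing G) =
        eval₂RingHom (algebraMap ℚ (CoordRing G)) x := by
      apply Polynomial.ringHom_ext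
      · intro q; rw [hjC, coe_eval₂RingHom, eval₂_C]
      · rw [hjx, coe_eval₂RingHom, eval₂_X]
    rw [h1]
  intro r
  obtain ⟨P, rfl⟩ := Ideal.Quotient.mk_surjective r
  show IsIntegral (Polynomial ℚ) _
  induction P using MvPolynomial.induction_on with
  | C q =>
    have : (Ideal.Quotient.mk (Ideal.span {MvPolynomial.map (Int.castRingHom ℚ) G}))
        (MvPolynomial.C q) = algebraMap (Polynomial ℚ) (CoordRing G) (Polynomial.C q) := by
      rw [hjC]
      rfl
    rw [this]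
    exact isIntegral_algebraMap
  | add p q hp hq => rw [map_add]; exact hp.add hq
  | mul_X p i hp =>
    rw [map_mul]
    apply hp.mul
    fin_cases i
    · show IsIntegral (Polynomial ℚ) (Ideal.Quotient.mk _ (MvPolynomial.X 0))
      rw [← hx, ← hjx]
      exact isIntegral_algebraMap
    · show IsIntegral (Polynomial ℚ) (Ideal.Quotient.mk _ (MvPolynomial.X 1))
      rw [← hz]
      exact hzint

lemma injG (G : MvPolynomial (Fin 2) ℤ) (hint : (jx G).IsIntegral) (hdom : IsDomain (CoordRing G))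
    {Ω : Type} [Field Ω] [CharZero Ω] (ψ : CoordRing G →+* Ω)
    (hx : ∀ p : Polynomial ℚ, Polynomial.eval₂ (Rat.castHom Ω)
      (ψ (Ideal.Quotient.mk _ (MvPolynomial.X 0))) p = 0 → p = 0) : Function.Injective ψ := by
  rw [RingHom.injective_iff_ker_eq_bot]
  let _ := (jx G).toAlgebra
  have _ : Algebra.IsIntegral (Polynomial ℚ) (CoordRing G) := ⟨fun r => hint r⟩
  apply Ideal.eq_bot_of_comap_eq_bot (R := Polynomial ℚ)
  rw [eq_bot_iff]
  intro p hp
  rw [Ideal.mem_comap, RingHom.mem_ker] at hp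
  rw [Ideal.mem_bot]
  apply hx
  rw [← hp]
  have h : (Polynomial.eval₂RingHom (Rat.castHom Ω)
      (ψ (Ideal.Quotient.mk _ (MvPolynomial.X 0)))) = ψ.comp (jx G) := by
    apply Polynomial.ringHom_ext
    · intro q
      have h1 : jx G (Polynomial.C q) = algebraMap ℚ _ q := by simp [jx]
      rw [RingHom.comp_apply, h1]
      simp only [Polynomial.coe_eval₂RingHom, Polynomial.eval₂_C]
      exact (eq_ratCast (ψ.comp (algebraMap ℚ (CoordRing G))) q).symm
    · simp [jx]
  exact DFunLike.congr_fun h p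

end

/-- The place at infinity of the curve `F (x, a z ^ n) = 0`, if there is only one, is invariant
under the substitutions `z ↦ ξ z`, `ξ ^ n = 1`. -/
lemma movesG {n : ℕ} (a : ℤ) (F : MvPolynomial (Fin 2) ℤ)
    (hint : (jx (sub a n F)).IsIntegral)
    (hdom : IsDomain (CoordRing (sub a n F)))
    {L : Type} [Field L] [CharZero L] [Algebra (CoordRing (sub a n F)) L]
    [IsFractionRing (CoordRing (sub a n F)) L]
    (A : ValuationSubring L) (hA : ∀ A' : ValuationSubring L, AtInfinity (sub a n F) L A' ↔ A' = A)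
    (hQ : ∀ q : ℚ, (q : L) ∈ A) (x z : L)
    (hx : x = algebraMap (CoordRing (sub a n F)) L (Ideal.Quotient.mk _ (MvPolynomial.X 0)))
    (hz : z = algebraMap (CoordRing (sub a n F)) L (Ideal.Quotient.mk _ (MvPolynomial.X 1)))
    (hvx : 1 < A.valuation x) :
    ∃ W : ValuationSubring (AlgebraicClosure L), (∀ r : ℚ, (r : AlgebraicClosure L) ∈ W) ∧
      (∀ t : L, A.valuation t ≤ 1 → W.valuation (algebraMap L (AlgebraicClosure L) t) ≤ 1) ∧
      (∀ t : L, A.valuation t < 1 → W.valuation (algebraMap L (AlgebraicClosure L) t) < 1) ∧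
      ∀ ξ : AlgebraicClosure L, ξ ^ n = 1 → ∃ σ : L →+* AlgebraicClosure L,
        σ x = algebraMap L (AlgebraicClosure L) x ∧
        σ z = ξ * algebraMap L (AlgebraicClosure L) z ∧
        ∀ t : L, A.valuation t < 1 → W.valuation (σ t) < 1 := by
  obtain ⟨ι, hι⟩ : ∃ ι : CoordRing (sub a n F) →+* L, ι = algebraMap _ L := ⟨_, rfl⟩
  have hcast : ∀ q : ℚ, ι (algebraMap ℚ (CoordRing (sub a n F)) q) = (q : L) := fun q =>
    eq_ratCast (ι.comp (algebraMap ℚ (CoordRing (sub a n F)))) q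
  have hx0 : x ≠ 0 := by rintro rfl; simp at hvx
  have hG0 : ι (Ideal.Quotient.mk _ (MvPolynomial.map (Int.castRingHom ℚ) (sub a n F))) = 0 := by
    rw [Ideal.Quotient.eq_zero_iff_mem.2 (Ideal.mem_span_singleton_self _), map_zero]
  have hF0 : MvPolynomial.aeval ![x, (a : L) * z ^ n] F = 0 := by
    refine (aeval_sub a n F x z).symm.trans ?_
    rw [hx, hz, ← hι]
    exact (hom_map (ι.comp (Ideal.Quotient.mk _)) (sub a n F)).symm.trans hG0
  obtain ⟨y, hy⟩ : ∃ y : L, y = (a : L) * z ^ n := ⟨_, rfl⟩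
  rw [← hy] at hF0
  -- the algebraic closure
  obtain ⟨f, hf⟩ : ∃ f : A →+* AlgebraicClosure L, ∀ t : A, f t = algebraMap L _ (t : L) :=
    ⟨(algebraMap L (AlgebraicClosure L)).comp A.subtype, fun t => rfl⟩
  obtain ⟨W, hW, hloc⟩ := IsLocalRing.exists_factor_valuationRing f
  have hΩ0 : CharZero (AlgebraicClosure L) :=
    charZero_of_injective_algebraMap (algebraMap L (AlgebraicClosure L)).injective
  have hWle : ∀ t : L, A.valuation t ≤ 1 → algebraMap L (AlgebraicClosure L) t ∈ W := by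
    intro t ht
    have := hW ⟨t, (A.valuation_le_one_iff _).1 ht⟩
    rw [hf] at this
    exact this
  have hWlt : ∀ t : L, A.valuation t < 1 →
      W.valuation (algebraMap L (AlgebraicClosure L) t) < 1 := by
    intro t ht
    by_contra hcon
    rw [not_lt] at hcon
    have ht0 : t ≠ 0 := by
      rintro rfl
      rw [map_zero, map_zero] at hcon
      exact absurd hcon (not_le.2 zero_lt_one)
    have htW := hWle t ht.le
    have hinvW : (algebraMap L (AlgebraicClosure L) t)⁻¹ ∈ W := by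
      rw [← W.valuation_le_one_iff, map_inv₀]
      exact inv_le_one_of_one_le₀ hcon
    have htne : algebraMap L (AlgebraicClosure L) t ≠ 0 := by
      rw [Ne, map_eq_zero]; exact ht0
    have hu : IsUnit (f.codRestrict W.toSubring hW ⟨t, (A.valuation_le_one_iff _).1 ht.le⟩) := by
      refine isUnit_iff_exists_inv.2 ⟨⟨_, hinvW⟩, ?_⟩
      apply Subtype.ext
      show f ⟨t, _⟩ * (algebraMap L (AlgebraicClosure L) t)⁻¹ = 1
      rw [hf]
      exact mul_inv_cancel₀ htne
    have hu2 := hloc.map_nonunit _ hu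
    rw [A.valuation_eq_one_iff] at hu2
    exact ht.ne hu2
  have hQW : ∀ r : ℚ, (r : AlgebraicClosure L) ∈ W := by
    intro r
    have := hWle (r : L) ((A.valuation_le_one_iff _).2 (hQ r))
    rwa [map_ratCast] at this
  obtain ⟨x', hx'⟩ : ∃ x', x' = algebraMap L (AlgebraicClosure L) x := ⟨_, rfl⟩
  obtain ⟨z', hz'⟩ : ∃ z', z' = algebraMap L (AlgebraicClosure L) z := ⟨_, rfl⟩
  have hx'1 : 1 < W.valuation x' := by
    have h1 : A.valuation x⁻¹ < 1 := by
      rw [map_inv₀]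
      exact inv_lt_one_of_one_lt₀ hvx
    have h2 := hWlt _ h1
    rw [map_inv₀, map_inv₀, ← hx'] at h2
    have h3 : W.valuation x' ≠ 0 := by
      rw [Valuation.ne_zero_iff, hx', Ne, map_eq_zero]
      exact hx0
    exact (inv_lt_one₀ (zero_lt_iff.2 h3)).1 h2
  refine ⟨W, hQW, fun t ht => (W.valuation_le_one_iff _).2 (hWle t ht), hWlt, ?_⟩
  intro ζ hζ
  -- the second embedding
  obtain ⟨ψ₀, hψ₀0, hψ₀1⟩ : ∃ ψ₀ : MvPolynomial (Fin 2) ℚ →+* AlgebraicClosure L,
      ψ₀ (MvPolynomial.X 0) = x' ∧ ψ₀ (MvPolynomial.X 1) = ζ * z' :=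
    ⟨MvPolynomial.eval₂Hom (Rat.castHom _) ![x', ζ * z'], by simp, by simp⟩
  have hψG : ψ₀ (MvPolynomial.map (Int.castRingHom ℚ) (sub a n F)) = 0 := by
    rw [hom_map, hψ₀0, hψ₀1, aeval_sub]
    have h1 : (a : AlgebraicClosure L) * (ζ * z') ^ n = algebraMap L _ y := by
      rw [mul_pow, hζ, one_mul, hy, hz', map_mul, map_pow, map_intCast]
    rw [h1, hx']
    have h2 : (MvPolynomial.aeval (R := ℤ) ![algebraMap L (AlgebraicClosure L) x,
        algebraMap L (AlgebraicClosure L) y]) F =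
        algebraMap L (AlgebraicClosure L) (MvPolynomial.aeval ![x, y] F) := by
      rw [MvPolynomial.aeval_def, MvPolynomial.aeval_def, MvPolynomial.eval₂_eq',
        MvPolynomial.eval₂_eq', map_sum]
      apply Finset.sum_congr rfl
      intro s _
      simp [Fin.prod_univ_two]
    exact h2.trans (by rw [hF0, map_zero])
  obtain ⟨ψ, hψ⟩ : ∃ ψ : CoordRing (sub a n F) →+* AlgebraicClosure L,
      ∀ P, ψ (Ideal.Quotient.mk _ P) = ψ₀ P :=
    ⟨Ideal.Quotient.lift _ ψ₀ (fun P hP => by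
      obtain ⟨c, rfl⟩ := Ideal.mem_span_singleton.1 hP
      rw [map_mul, hψG, zero_mul]), fun P => Ideal.Quotient.lift_mk _ _ _⟩
  have hψinj : Function.Injective ψ := by
    apply injG (sub a n F) hint hdom ψ
    intro p hp
    rw [hψ, hψ₀0] at hp
    exact transc hQW x' hx'1 p hp
  obtain ⟨σ, hσ⟩ : ∃ σ : L →+* AlgebraicClosure L, ∀ r, σ (ι r) = ψ r := by
    refine ⟨IsFractionRing.lift hψinj, fun r => ?_⟩
    rw [hι]
    exact IsFractionRing.lift_algebraMap hψinj r
  have hσx : σ x = x' := by rw [hx, ← hι, hσ, hψ, hψ₀0]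
  have hσz : σ z = ζ * z' := by rw [hz, ← hι, hσ, hψ, hψ₀1]
  have hcomap : W.comap σ = A := by
    apply (hA _).1
    constructor
    · intro r
      rw [ValuationSubring.mem_comap, ← hι, hcast, map_ratCast]
      exact hQW r
    · refine ⟨0, ?_⟩
      rw [ValuationSubring.mem_comap, ← hx, hσx, ← W.valuation_le_one_iff, not_le]
      exact hx'1
  refine ⟨σ, by rw [hσx, hx'], by rw [hσz, hz'], ?_⟩
  intro t ht
  by_contra hcon
  rw [not_lt] at hcon
  have h1 : σ t⁻¹ ∈ W := by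
    rw [← W.valuation_le_one_iff, map_inv₀, map_inv₀]
    exact inv_le_one_of_one_le₀ hcon
  rw [← ValuationSubring.mem_comap, hcomap, ← A.valuation_le_one_iff, map_inv₀] at h1
  have ht0 : A.valuation t ≠ 0 := by
    rw [Valuation.ne_zero_iff]
    rintro rfl
    rw [map_zero, map_zero] at hcon
    exact absurd hcon (not_le.2 zero_lt_one)
  have h2 := (inv_le_one₀ (zero_lt_iff.2 ht0)).1 h1
  exact absurd ht (not_lt.2 h2)

end Pool.Agent.X95T
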