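import Pool.Agent.X95T.W
import Pool.Agent.Results.MP_821da1_nt.ExplicitFamiliesAllCurves

set_option autoImplicit false

open IntermediateField
open Pool.Agent.Results.MP_821da1_nt

namespace Pool.Agent.X95T

/-- the effective bound, from an anchor and the irreducibility of the covers -/
theorem effective (n k δ r : ℕ) (hn : 3 ≤ n) (hodd : Odd n) (hk : 1 ≤ k) (hδ : 1 ≤ δ) (hr : 1 ≤ r)
    (hkn : Nat.Coprime k n) :
    ∃ C : ℕ, ∀ (P g₀ : Polynomial ℤ) (A : ℕ) (μ : ℝ), P.Monic → P.natDegree = r →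
      Irreducible g₀ → g₀ ∣ P → ¬ g₀ ^ 2 ∣ P →
      (2 * ∑ i ∈ P.support, (P.coeff i).natAbs) ^ C ≤ A → 0 < μ →
      μ ^ r = ((P.eval (A : ℤ) : ℤ) : ℝ) →
      ∀ (γ b : ℤ) (F : MvPolynomial (Fin 2) ℤ) (D U V : Polynomial ℤ), γ ≠ 0 → b ≠ 0 →
      (∀ s ∈ (F - MvPolynomial.C γ * MvPolynomial.X 1 ^ k +
        MvPolynomial.X 0 ^ (n * δ)).support, k * s 0 + (n * δ) * s 1 < (n * δ) * k) →
      MvPolynomial.aeval ![Polynomial.X, (0 : Polynomial ℤ)] F = - D ^ n →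
      U * D + V * MvPolynomial.aeval ![Polynomial.X, (0 : Polynomial ℤ)]
        (MvPolynomial.pderiv 1 F) = Polynomial.C b →
      (∀ a : ℤ, a ≠ 0 → (∀ p : ℕ, p.Prime → (p : ℤ) ∣ a → (p : ℤ) ∣ b) →
        Irreducible (MvPolynomial.map (Int.castRingHom ℚ) (sub a n F)) ∧
        ∀ θ : ℝ, θ ^ n = γ * (a : ℝ) ^ k → θ ∈ ℚ⟮μ⟯) →
      ∀ x y : ℤ, MvPolynomial.eval ![x, y] F = 0 →
        max x.natAbs y.natAbs ≤ (A * (∏ q ∈ b.natAbs.primeFactors, q) *
          ∑ s ∈ F.support, (F.coeff s).natAbs) ^ C := by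
  obtain ⟨CE, hCE⟩ := ExplicitFamiliesAllCurves.result.2.1
  obtain ⟨d, hd⟩ : ∃ d : ℕ, d = n * δ + n * k := ⟨_, rfl⟩
  obtain ⟨E, hE⟩ : ∃ E : ℕ, E = CE r d := ⟨_, rfl⟩
  refine ⟨(n * k + 1) * E * n + n + (n * k + 1) * E + E + 1, ?_⟩
  intro P g₀ A μ hP hPd hg₀ hg₀P hg₀2 hA hμ0 hμ γ b F D U V hγ hb hF h1 h2 H x y h0
  have hlenF : RepulsionAllCurves.len F = ∑ s ∈ F.support, (F.coeff s).natAbs := rfl
  rw [← hlenF]
  obtain ⟨R, hR⟩ : ∃ R : ℕ, R = ∏ q ∈ b.natAbs.primeFactors, q := ⟨_, rfl⟩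
  have hR1 : 1 ≤ R := by
    rw [hR]
    exact Finset.prod_pos (fun q hq => (Nat.prime_of_mem_primeFactors hq).pos)
  -- the size of `A`
  have hlP : 1 ≤ 2 * ∑ i ∈ P.support, (P.coeff i).natAbs := by
    have h3 : P.natDegree ∈ P.support := by
      rw [Polynomial.mem_support_iff, Polynomial.coeff_natDegree, hP.leadingCoeff]
      exact one_ne_zero
    have h4 : (P.coeff P.natDegree).natAbs ≤ ∑ i ∈ P.support, (P.coeff i).natAbs :=
      Finset.single_le_sum (f := fun i => (P.coeff i).natAbs) (fun _ _ => Nat.zero_le _) h3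
    rw [Polynomial.coeff_natDegree, hP.leadingCoeff] at h4
    simp only [Int.natAbs_one] at h4
    omega
  have hA1 : 1 ≤ A := (Nat.one_le_pow _ _ hlP).trans hA
  have hAE : (2 * ∑ i ∈ P.support, (P.coeff i).natAbs) ^ CE r d ≤ A := by
    refine (Nat.pow_le_pow_right hlP ?_).trans hA
    rw [← hE]
    omega
  -- the decomposition of `y`
  obtain ⟨f, u, v, w, h3, h4⟩ := split' (n := n) F D U V (-1) b
    (by rw [h1]; simp) h2 x y h0
  obtain ⟨a, z, ha0, hap, haM, hyz⟩ : ∃ a z : ℤ, a ≠ 0 ∧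
      (∀ q : ℕ, q.Prime → (q : ℤ) ∣ a → (q : ℤ) ∣ b) ∧ a.natAbs ≤ R ^ n ∧
      y = a * z ^ n := by
    by_cases hy : y = 0
    · refine ⟨1, 0, one_ne_zero, ?_, Nat.one_le_pow _ _ hR1, ?_⟩
      · intro q hq hq1
        exfalso
        have h5 : q ∣ 1 := by exact_mod_cast hq1
        exact hq.one_lt.ne' (Nat.dvd_one.1 h5)
      · rw [hy, zero_pow (by omega), mul_zero]
    · rw [hR]
      apply free_part_b (by omega) b hb y hy
      intro q hq hqb
      refine val_dvd' y f (-1) _ u v w b h3 h4 hy q hq hqb ?_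
      intro h5
      have h6 : q ∣ 1 := by exact_mod_cast (dvd_neg.1 h5)
      exact hq.one_lt.ne' (Nat.dvd_one.1 h6)
  obtain ⟨hirr, hθmem⟩ := H a ha0 hap
  have hsupp := suppG γ F hF
  have hF0 : F ≠ 0 := by
    rintro rfl
    rw [map_zero, map_zero] at hirr
    exact hirr.ne_zero rfl
  have hlen1 : 1 ≤ RepulsionAllCurves.len F := Pool.Agent.Y910.G.len_pos hF0
  have hlen : RepulsionAllCurves.len (sub a n F) ≤ (R ^ n) ^ k * RepulsionAllCurves.len F :=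
    (len_sub a ha0 n k F (fun s hs => (hsupp s hs).2)).trans
      (Nat.mul_le_mul_right _ (Nat.pow_le_pow_left haM _))
  have hdeg := deg_sub a n k (n * δ) F hsupp
  rw [← hd] at hdeg
  have hev : MvPolynomial.eval ![x, z] (sub a n F) = 0 := by
    have h5 := aeval_sub a n F x z
    rw [MvPolynomial.aeval_eq_eval, MvPolynomial.aeval_eq_eval] at h5
    rw [h5]
    simp only [Int.cast_id]
    rw [← hyz]
    exact h0
  have hμi : IsIntegral ℚ μ := by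
    refine ⟨Polynomial.X ^ r - Polynomial.C ((P.eval (A : ℤ) : ℤ) : ℚ),
      Polynomial.monic_X_pow_sub_C _ (by omega), ?_⟩
    rw [← Polynomial.aeval_def]
    simp [hμ]
  have hfd : FiniteDimensional ℚ ℚ⟮μ⟯ := IntermediateField.adjoin.finiteDimensional hμi
  rw [← hR]
  obtain ⟨B, hB⟩ : ∃ B : ℕ, B = A * R * RepulsionAllCurves.len F := ⟨_, rfl⟩
  have hB1 : 1 ≤ B := by
    rw [hB]
    exact Nat.mul_pos (Nat.mul_pos hA1 hR1) hlen1
  have hRB : R ≤ B := by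
    rw [hB]
    calc R = 1 * R * 1 := by ring
      _ ≤ A * R * RepulsionAllCurves.len F :=
        Nat.mul_le_mul (Nat.mul_le_mul_right _ hA1) hlen1
  have hmain : max x.natAbs z.natAbs ≤ (B ^ (n * k + 1)) ^ E := by
    rcases hCE r d P g₀ A μ hr hP hPd hg₀ hg₀P hg₀2 hAE hμ0 hμ (sub a n F) x z hdeg hirr hev
      with h | ⟨g, hg, η, hη, h5⟩
    · rw [← hE] at h
      refine h.trans (Nat.pow_le_pow_left ?_ _)
      calc A * ExplicitFamiliesAllCurves.len (sub a n F)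
          ≤ A * ((R ^ n) ^ k * RepulsionAllCurves.len F) := Nat.mul_le_mul_left _ hlen
        _ = R ^ (n * k) * (A * RepulsionAllCurves.len F) := by rw [← pow_mul]; ring
        _ ≤ B ^ (n * k) * B := by
            apply Nat.mul_le_mul
            · exact Nat.pow_le_pow_left hRB _
            · rw [hB]
              calc A * RepulsionAllCurves.len F = A * 1 * RepulsionAllCurves.len F := by ring
                _ ≤ A * R * RepulsionAllCurves.len F :=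
                  Nat.mul_le_mul_right _ (Nat.mul_le_mul_left _ hR1)
        _ = B ^ (n * k + 1) := (pow_succ _ _).symm
    · exfalso
      obtain ⟨θ, hθ, hθη, hθq⟩ := keyG (by omega) (by omega) hδ hkn a ha0 γ hγ F hF
        hirr g hg η hη
      have h6 := deg_odd hodd (γ * a ^ k) θ (by rw [hθ]; push_cast; ring) hθq
      have h7 := three_le hθη (hθmem θ hθ) h6
      omega
  rw [← hB]
  have hz : z.natAbs ≤ B ^ ((n * k + 1) * E) := by
    rw [pow_mul]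
    exact (le_max_right _ _).trans hmain
  have hx : x.natAbs ≤ B ^ ((n * k + 1) * E) := by
    rw [pow_mul]
    exact (le_max_left _ _).trans hmain
  apply max_le
  · exact hx.trans (Nat.pow_le_pow_right hB1 (by omega))
  · have h9 : y.natAbs = a.natAbs * z.natAbs ^ n := by
      rw [hyz, Int.natAbs_mul, Int.natAbs_pow]
    rw [h9]
    calc a.natAbs * z.natAbs ^ n ≤ B ^ n * (B ^ ((n * k + 1) * E)) ^ n :=
          Nat.mul_le_mul (haM.trans (Nat.pow_le_pow_left hRB _)) (Nat.pow_le_pow_left hz _)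
      _ = B ^ (n + (n * k + 1) * E * n) := by rw [← pow_mul, ← pow_add]
      _ ≤ _ := Nat.pow_le_pow_right hB1 (by omega)

/-- the fields `ℚ(Q ^ (1 / n))` -/
lemma mem_field {n : ℕ} (hodd : Odd n) (μ ν : ℝ) (hν : ν ∈ ℚ⟮μ⟯) (s : ℕ) (θ : ℝ)
    (h : θ ^ n = (ν ^ n) ^ s ∨ θ ^ n = - (ν ^ n) ^ s) : θ ∈ ℚ⟮μ⟯ := by
  rcases h with h | h
  · have h1 : θ ^ n = (ν ^ s) ^ n := by rw [h, ← pow_mul, ← pow_mul, mul_comm]
    rw [hodd.strictMono_pow.injective h1]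
    exact pow_mem hν s
  · have h1 : θ ^ n = (-(ν ^ s)) ^ n := by rw [h, hodd.neg_pow, ← pow_mul, ← pow_mul, mul_comm]
    rw [hodd.strictMono_pow.injective h1]
    exact neg_mem (pow_mem hν s)

/-- the root -/
lemma ex_real {n m : ℕ} (hn : 1 ≤ n) (hm : 1 ≤ m) (B Q : ℕ) (N : ℤ) (hN0 : 0 < N)
    (hN : (Q : ℤ) * B ^ n = N) :
    ∃ μ : ℝ, 0 < μ ∧ μ ^ (n * m) = (N : ℝ) ∧ ∃ ν ∈ ℚ⟮μ⟯, ν ^ n = (Q : ℝ) := by
  have hN0' : (0 : ℝ) < (N : ℝ) := by exact_mod_cast hN0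
  obtain ⟨μ, hμ⟩ : ∃ μ : ℝ, μ = (N : ℝ) ^ (((n * m : ℕ) : ℝ)⁻¹) := ⟨_, rfl⟩
  have hμ1 : μ ^ (n * m) = (N : ℝ) := by
    rw [hμ]
    exact Real.rpow_inv_natCast_pow hN0'.le (Nat.mul_pos (by omega) hm).ne'
  have hμ0 : 0 < μ := by
    rw [hμ]
    exact Real.rpow_pos_of_pos hN0' _
  have hB0 : (B : ℝ) ≠ 0 := by
    intro h
    have hB : B = 0 := by exact_mod_cast h
    rw [← hN, hB, Nat.cast_zero, zero_pow (by omega), mul_zero] at hN0
    exact lt_irrefl _ hN0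
  refine ⟨μ, hμ0, hμ1, μ ^ m / B, ?_, ?_⟩
  · exact div_mem (pow_mem (mem_adjoin_simple_self ℚ μ) m) (_root_.natCast_mem _ B)
  · rw [div_pow, ← pow_mul, mul_comm m n, hμ1, ← hN]
    push_cast
    field_simp

/-- `γ a ^ k` is a power of `Q` up to sign -/
lemma pow_Q {n k : ℕ} (hodd : Odd n) (Q i l : ℕ) (hQ : i = 0 ∨ Q.Prime) (γ b a : ℤ)
    (hγ : γ.natAbs = Q ^ l) (hb : b.natAbs = Q ^ i) (ha : a ≠ 0)
    (hap : ∀ p : ℕ, p.Prime → (p : ℤ) ∣ a → (p : ℤ) ∣ b) (μ ν : ℝ) (hν : ν ∈ ℚ⟮μ⟯)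
    (hνn : ν ^ n = (Q : ℝ)) (θ : ℝ) (hθ : θ ^ n = γ * (a : ℝ) ^ k) : θ ∈ ℚ⟮μ⟯ := by
  obtain ⟨t, ht⟩ : ∃ t : ℕ, a.natAbs = Q ^ t := by
    rcases hQ with rfl | hQ
    · refine ⟨0, ?_⟩
      rw [pow_zero] at hb ⊢
      by_contra hne
      obtain ⟨p, hp, hpa⟩ := Nat.exists_prime_and_dvd hne
      have h1 := Int.natCast_dvd.1 (hap p hp (Int.natCast_dvd.2 hpa))
      rw [hb] at h1
      exact hp.one_lt.ne' (Nat.dvd_one.1 h1)
    · refine ⟨a.natAbs.primeFactorsList.length, ?_⟩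
      apply Nat.eq_prime_pow_of_unique_prime_dvd (Int.natAbs_ne_zero.2 ha)
      intro p hp hpa
      have h1 := Int.natCast_dvd.1 (hap p hp (Int.natCast_dvd.2 hpa))
      rw [hb] at h1
      exact (Nat.prime_dvd_prime_iff_eq hp hQ).1 (hp.dvd_of_dvd_pow h1)
  have h2 : (γ * a ^ k).natAbs = Q ^ (l + t * k) := by
    rw [Int.natAbs_mul, Int.natAbs_pow, hγ, ht, ← pow_mul, ← pow_add]
  apply mem_field hodd μ ν hν (l + t * k) θ
  rw [hνn]
  have h3 : θ ^ n = ((γ * a ^ k : ℤ) : ℝ) := by rw [hθ]; push_cast; ring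
  rw [h3]
  rcases Int.natAbs_eq (γ * a ^ k) with h | h
  · left
    rw [h, h2]
    push_cast
    ring
  · right
    rw [h, h2]
    push_cast
    ring

/-- the product of the primes dividing a power -/
lemma rad_le (Q i : ℕ) (hQ1 : 1 ≤ Q) (hQ : i = 0 ∨ Q.Prime) (b : ℤ) (hb : b.natAbs = Q ^ i) :
    ∏ q ∈ b.natAbs.primeFactors, q ≤ Q := by
  rcases hQ with rfl | hQ
  · rw [hb]
    simpa using hQ1
  · rw [hb]
    have h1 : (Q ^ i).primeFactors ⊆ {Q} := by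
      intro p hp
      have hp' := Nat.prime_of_mem_primeFactors hp
      have := hp'.dvd_of_dvd_pow (Nat.dvd_of_mem_primeFactors hp)
      rw [Finset.mem_singleton]
      exact (Nat.prime_dvd_prime_iff_eq hp' hQ).1 this
    calc ∏ q ∈ (Q ^ i).primeFactors, q ≤ ∏ q ∈ ({Q} : Finset ℕ), q :=
          Finset.prod_le_prod_of_subset_of_one_le' h1 (fun q hq _ => by
            rw [Finset.mem_singleton.1 hq]; exact hQ1)
      _ = Q := Finset.prod_singleton _ _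

end Pool.Agent.X95T
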