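import Pool.Agent.X95T.Y

set_option autoImplicit false

open IntermediateField

namespace Pool.Agent.X95T

open Pool.Agent.Results.MP_821da1_nt.RepulsionAllCurves (CoordRing AtInfinity OnePlace)

/-- the leading form `(α y ^ k - β x ^ N) ^ g` -/
noncomputable def lf (α β : ℤ) (k N g : ℕ) : MvPolynomial (Fin 2) ℤ :=
  (MvPolynomial.C α * MvPolynomial.X 1 ^ k - MvPolynomial.C β * MvPolynomial.X 0 ^ N) ^ g

section

variable {L : Type} [Field L] {Γ : Type} [LinearOrderedCommGroupWithZero Γ] (v : Valuation L Γ)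

/-- the behaviour at infinity -/
lemma leadZ {N k g : ℕ} (hN : 1 ≤ N) (hk : 1 ≤ k) (hZ : ∀ c : ℤ, v (c : L) ≤ 1)
    (α β : ℤ) (hα : v (α : L) = 1) (hβ : v (β : L) = 1) (F : MvPolynomial (Fin 2) ℤ)
    (hF : ∀ s ∈ (F - lf α β k N g).support, k * s 0 + N * s 1 < g * (N * k))
    (x y : L) (hxy : 1 < v x ∨ 1 < v y) (h0 : MvPolynomial.aeval ![x, y] F = 0) :
    1 < v x ∧ 1 < v y ∧ v x ^ N = v y ^ k ∧ v (β * x ^ N / (α * y ^ k) - 1) < 1 := by
  obtain ⟨R, hR⟩ : ∃ R, R = F - lf α β k N g := ⟨_, rfl⟩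
  rw [← hR] at hF
  have hα0 : (α : L) ≠ 0 := by
    intro h
    rw [h, map_zero] at hα
    exact zero_ne_one hα
  have e1 : MvPolynomial.aeval ![x, y] R = - (α * y ^ k - β * x ^ N) ^ g := by
    rw [hR, map_sub, h0, lf, map_pow, map_sub, map_mul, map_mul, map_pow, map_pow,
      MvPolynomial.aeval_X, MvPolynomial.aeval_X, MvPolynomial.aeval_C, MvPolynomial.aeval_C]
    simp only [Matrix.cons_val_zero, Matrix.cons_val_one, algebraMap_int_eq, eq_intCast, zero_sub]
  have hαy : v (α * y ^ k) = v y ^ k := by rw [map_mul, hα, one_mul, map_pow]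
  have hβx : v (β * x ^ N) = v x ^ N := by rw [map_mul, hβ, one_mul, map_pow]
  obtain ⟨m, hm⟩ : ∃ m : Γ, m = max (v x ^ N) (v y ^ k) := ⟨_, rfl⟩
  have hxm : v x ^ N ≤ m := by rw [hm]; exact le_max_left _ _
  have hym : v y ^ k ≤ m := by rw [hm]; exact le_max_right _ _
  have hm1 : 1 < m := by
    rcases hxy with h | h
    · exact lt_of_lt_of_le (one_lt_pow₀ h (by omega)) hxm
    · exact lt_of_lt_of_le (one_lt_pow₀ h (by omega)) hym
  have hm0 : m ≠ 0 := (lt_trans zero_lt_one hm1).ne'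
  have hNk : N * k ≠ 0 := Nat.mul_ne_zero (by omega) (by omega)
  have h1 : v (MvPolynomial.aeval ![x, y] R) < m ^ g := by
    apply sum_small v hZ R x y _ (pow_ne_zero _ hm0)
    intro s hs
    have h2 := hF s hs
    refine lt_of_pow_lt_pow_left₀ (N * k) zero_le ?_
    calc (v x ^ s 0 * v y ^ s 1) ^ (N * k) = (v x ^ N) ^ (k * s 0) * (v y ^ k) ^ (N * s 1) := by
          rw [mul_pow, ← pow_mul, ← pow_mul, ← pow_mul, ← pow_mul]
          congr 2
          · ring
          · ring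
      _ ≤ m ^ (k * s 0) * m ^ (N * s 1) :=
          mul_le_mul' (pow_le_pow_left₀ zero_le hxm _) (pow_le_pow_left₀ zero_le hym _)
      _ = m ^ (k * s 0 + N * s 1) := by rw [← pow_add]
      _ < m ^ (g * (N * k)) := pow_lt_pow_right₀ hm1 h2
      _ = (m ^ g) ^ (N * k) := pow_mul _ _ _
  rw [e1, Valuation.map_neg, map_pow] at h1
  have h2 : v (α * y ^ k - β * x ^ N) < m := lt_of_pow_lt_pow_left₀ g zero_le h1
  have h3 : v x ^ N = v y ^ k := by
    rcases lt_trichotomy (v x ^ N) (v y ^ k) with h | h | h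
    · exfalso
      rw [Valuation.map_sub_eq_of_lt_left _ (by rw [hαy, hβx]; exact h), hαy, hm,
        max_eq_right h.le] at h2
      exact lt_irrefl _ h2
    · exact h
    · exfalso
      rw [Valuation.map_sub_eq_of_lt_right _ (by rw [hαy, hβx]; exact h), hβx, hm,
        max_eq_left h.le] at h2
      exact lt_irrefl _ h2
  have hmy : m = v y ^ k := by rw [hm, h3, max_self]
  have hmx : m = v x ^ N := by rw [hm, h3, max_self]
  have hx1 : 1 < v x := by
    by_contra h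
    rw [not_lt] at h
    exact absurd (pow_le_one₀ zero_le h) (not_le.2 (hmx ▸ hm1))
  have hy1 : 1 < v y := by
    by_contra h
    rw [not_lt] at h
    exact absurd (pow_le_one₀ zero_le h) (not_le.2 (hmy ▸ hm1))
  have hy0 : y ≠ 0 := by rintro rfl; simp at hy1
  refine ⟨hx1, hy1, h3, ?_⟩
  have h4 : β * x ^ N / (α * y ^ k) - 1 = -(α * y ^ k - β * x ^ N) / (α * y ^ k) := by
    rw [neg_sub, sub_div, div_self (mul_ne_zero hα0 (pow_ne_zero _ hy0))]
  rw [h4, map_div₀, Valuation.map_neg, hαy, ← hmy]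
  exact (div_lt_one₀ (lt_trans zero_lt_one hm1)).2 h2

end

/-- the exponents of a polynomial with the given leading form -/
lemma suppZ {N k g : ℕ} (hN : 1 ≤ N) (hk : 1 ≤ k) (α β : ℤ) (F : MvPolynomial (Fin 2) ℤ)
    (hF : ∀ s ∈ (F - lf α β k N g).support, k * s 0 + N * s 1 < g * (N * k)) :
    ∀ s ∈ F.support, s 0 ≤ g * N ∧ s 1 ≤ g * k := by
  have hlf : ∀ s ∈ (lf α β k N g).support, k * s 0 + N * s 1 = g * (N * k) := by
    have h1 : MvPolynomial.IsWeightedHomogeneous (![k, N] : Fin 2 → ℕ) (lf α β k N g)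
        (g • (N * k)) := by
      rw [lf]
      apply MvPolynomial.IsWeightedHomogeneous.pow
      have e1 : MvPolynomial.IsWeightedHomogeneous (![k, N] : Fin 2 → ℕ)
          (MvPolynomial.C α * MvPolynomial.X 1 ^ k) (N * k) := by
        have := (MvPolynomial.isWeightedHomogeneous_C (![k, N] : Fin 2 → ℕ) α).mul
          ((MvPolynomial.isWeightedHomogeneous_X ℤ (![k, N] : Fin 2 → ℕ) 1).pow k)
        simpa [mul_comm] using this
      have e2 : MvPolynomial.IsWeightedHomogeneous (![k, N] : Fin 2 → ℕ)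
          (MvPolynomial.C β * MvPolynomial.X 0 ^ N) (N * k) := by
        have := (MvPolynomial.isWeightedHomogeneous_C (![k, N] : Fin 2 → ℕ) β).mul
          ((MvPolynomial.isWeightedHomogeneous_X ℤ (![k, N] : Fin 2 → ℕ) 0).pow N)
        simpa [mul_comm] using this
      rw [← MvPolynomial.mem_weightedHomogeneousSubmodule] at e1 e2 ⊢
      exact Submodule.sub_mem _ e1 e2
    intro s hs
    have h2 := h1 (MvPolynomial.mem_support_iff.1 hs)
    rw [Finsupp.weight_apply, Finsupp.sum_fintype _ _ (fun i => by simp), Fin.sum_univ_two] at h2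
    simp only [Matrix.cons_val_zero, Matrix.cons_val_one, smul_eq_mul] at h2
    rw [← h2]
    ring
  classical
  intro s hs
  have hw : k * s 0 + N * s 1 ≤ g * (N * k) := by
    by_cases h1 : s ∈ (lf α β k N g).support
    · exact (hlf s h1).le
    · apply (hF s _).le
      rw [MvPolynomial.mem_support_iff] at hs ⊢
      rw [MvPolynomial.coeff_sub, MvPolynomial.notMem_support_iff.1 h1, sub_zero]
      exact hs
  constructor
  · have h1 : k * s 0 ≤ k * (g * N) := by
      calc k * s 0 ≤ g * (N * k) := by omega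
        _ = k * (g * N) := by ring
    exact Nat.le_of_mul_le_mul_left h1 hk
  · have h1 : N * s 1 ≤ N * (g * k) := by
      calc N * s 1 ≤ g * (N * k) := by omega
        _ = N * (g * k) := by ring
    exact Nat.le_of_mul_le_mul_left h1 hN

section

open Polynomial

lemma monicZ {n k N g : ℕ} (hn : 1 ≤ n) (hk : 1 ≤ k) (hg : 1 ≤ g) (a : ℤ)
    (ha : a ≠ 0) (α β : ℤ) (hα : α ≠ 0) (F : MvPolynomial (Fin 2) ℤ)
    (hF : ∀ s ∈ (F - lf α β k N g).support, k * s 0 + N * s 1 < g * (N * k)) :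
    ∃ M : ℚ[X][X], M.Monic ∧ M.natDegree = n * k * g ∧
      isoP (MvPolynomial.map (Int.castRingHom ℚ) (sub a n F)) =
        C (C (((α : ℚ) * (a : ℚ) ^ k) ^ g)) * M := by
  obtain ⟨R, hR⟩ : ∃ R, R = F - lf α β k N g := ⟨_, rfl⟩
  rw [← hR] at hF
  have hs1 : ∀ s ∈ R.support, s 1 < g * k := by
    intro s hs
    have h2 := hF s hs
    by_contra h3
    rw [not_lt] at h3
    have h4 := Nat.mul_le_mul_left N h3
    have h5 : N * (g * k) = g * (N * k) := by ring
    omega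
  have haQ : (a : ℚ) ≠ 0 := by exact_mod_cast ha
  have hαQ : (α : ℚ) ≠ 0 := by exact_mod_cast hα
  have hu0 : (α : ℚ) * (a : ℚ) ^ k ≠ 0 := mul_ne_zero hαQ (pow_ne_zero _ haQ)
  have hu : ((α : ℚ) * (a : ℚ) ^ k) ^ g ≠ 0 := pow_ne_zero _ hu0
  have h1 : isoP (MvPolynomial.map (Int.castRingHom ℚ) (sub a n F)) =
      MvPolynomial.aeval ![(C X : ℚ[X][X]), (a : ℚ[X][X]) * X ^ n] F := by
    have h2 := hom_map (isoP : MvPolynomial (Fin 2) ℚ →+* ℚ[X][X]) (sub a n F)
    rw [RingHom.coe_coe, isoP_X0, isoP_X1] at h2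
    exact h2.trans (aeval_sub a n F _ _)
  have hcast : ∀ a : ℤ, (a : ℚ[X][X]) = C (C (a : ℚ)) := by intro a; simp
  obtain ⟨L0, hL0⟩ : ∃ L0 : ℚ[X][X], L0 =
    MvPolynomial.aeval ![(C X : ℚ[X][X]), (a : ℚ[X][X]) * X ^ n] R := ⟨_, rfl⟩
  obtain ⟨p, hp⟩ : ∃ p : ℚ[X][X], p = C (C ((α : ℚ) * (a : ℚ) ^ k)) * X ^ (n * k) +
    C (- (C (β : ℚ) * X ^ N)) := ⟨_, rfl⟩
  have h2 : MvPolynomial.aeval ![(C X : ℚ[X][X]), (a : ℚ[X][X]) * X ^ n] F = p ^ g + L0 := by
    have e0 : F = lf α β k N g + R := by rw [hR]; ring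
    rw [hL0]
    conv_lhs => rw [e0]
    rw [map_add, lf, map_pow, map_sub, map_mul, map_mul, map_pow, map_pow, MvPolynomial.aeval_X,
      MvPolynomial.aeval_X, MvPolynomial.aeval_C, MvPolynomial.aeval_C, hp]
    simp only [Matrix.cons_val_zero, Matrix.cons_val_one, algebraMap_int_eq, eq_intCast]
    rw [hcast, hcast, hcast, mul_pow, ← pow_mul]
    simp only [map_mul, map_pow, map_neg]
    ring
  have hnk : 0 < n * k := Nat.mul_pos hn hk
  have hCC : (C ((α : ℚ) * (a : ℚ) ^ k) : ℚ[X]) ≠ 0 := by rw [Ne, C_eq_zero]; exact hu0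
  have hpd : p.natDegree = n * k := by
    rw [hp]
    apply natDegree_eq_of_degree_eq_some
    rw [degree_add_eq_left_of_degree_lt, degree_C_mul_X_pow _ hCC]
    rw [degree_C_mul_X_pow _ hCC]
    exact lt_of_le_of_lt degree_C_le (by exact_mod_cast hnk)
  have hplc : p.leadingCoeff = C ((α : ℚ) * (a : ℚ) ^ k) := by
    rw [leadingCoeff, hpd, hp, coeff_add, coeff_C_mul, coeff_X_pow, if_pos rfl, mul_one,
      coeff_C_of_ne_zero hnk.ne', add_zero]
  have hpgd : (p ^ g).natDegree = n * k * g := by rw [natDegree_pow, hpd, mul_comm]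
  have hpglc : (p ^ g).leadingCoeff = C (((α : ℚ) * (a : ℚ) ^ k) ^ g) := by
    rw [leadingCoeff_pow, hplc, C_pow]
  have hpg0 : p ^ g ≠ 0 := by
    intro h
    rw [h, leadingCoeff_zero] at hpglc
    exact hu (C_eq_zero.1 hpglc.symm)
  have hnkg : 0 < n * k * g := Nat.mul_pos hnk hg
  have hL0d : L0.degree < ((n * k * g : ℕ) : WithBot ℕ) := by
    rw [← mem_degreeLT, hL0, MvPolynomial.aeval_def, MvPolynomial.eval₂_eq']
    apply Submodule.sum_mem
    intro s hs
    rw [mem_degreeLT, Fin.prod_univ_two]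
    simp only [Matrix.cons_val_zero, Matrix.cons_val_one]
    have e : (algebraMap ℤ ℚ[X][X]) (MvPolynomial.coeff s R) *
        ((C X) ^ s 0 * ((a : ℚ[X][X]) * X ^ n) ^ s 1) =
        C (C ((MvPolynomial.coeff s R : ℤ) : ℚ) * X ^ s 0 * C ((a : ℚ) ^ s 1)) *
          X ^ (n * s 1) := by
      have e1 : (algebraMap ℤ ℚ[X][X]) (MvPolynomial.coeff s R) =
          C (C ((MvPolynomial.coeff s R : ℤ) : ℚ)) := by simp
      rw [e1, hcast, mul_pow, ← pow_mul]
      simp only [map_mul, map_pow]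
      ring
    rw [e]
    refine lt_of_le_of_lt (degree_C_mul_X_pow_le _ _) ?_
    have h3 : n * s 1 < n * (g * k) := Nat.mul_lt_mul_of_pos_left (hs1 s hs) hn
    have h4 : n * (g * k) = n * k * g := by ring
    rw [h4] at h3
    exact_mod_cast h3
  have hlt : L0.degree < (p ^ g).degree := by
    rw [degree_eq_natDegree hpg0, hpgd]
    exact hL0d
  have hTd : (p ^ g + L0).natDegree = n * k * g := by
    rw [natDegree_add_eq_left_of_degree_lt hlt, hpgd]
  have hTlc : (p ^ g + L0).leadingCoeff = C (((α : ℚ) * (a : ℚ) ^ k) ^ g) := by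
    rw [leadingCoeff_add_of_degree_lt' hlt, hpglc]
  refine ⟨C (C ((((α : ℚ) * (a : ℚ) ^ k) ^ g)⁻¹)) * (p ^ g + L0), ?_, ?_, ?_⟩
  · rw [Monic, leadingCoeff_mul, leadingCoeff_C, hTlc, ← C_mul, inv_mul_cancel₀ hu, C_1]
  · rw [natDegree_C_mul, hTd]
    rw [Ne, C_eq_zero]
    exact inv_ne_zero hu
  · rw [h1, h2, ← mul_assoc, ← C_mul, ← C_mul, mul_inv_cancel₀ hu, C_1, C_1, one_mul]

end

end Pool.Agent.X95T
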