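import Pool.Agent.X95T.Z1

set_option autoImplicit false

open IntermediateField

namespace Pool.Agent.X95T

open Pool.Agent.Results.MP_821da1_nt.RepulsionAllCurves (CoordRing AtInfinity OnePlace)

/-- the degree of an irrational real root of odd order -/
lemma deg_oddQ {n : ℕ} (hn : Odd n) (c : ℚ) (θ : ℝ) (hθ : θ ^ n = c)
    (hq : ∀ q : ℚ, (q : ℝ) ≠ θ) : 3 ≤ Module.finrank ℚ ℚ⟮θ⟯ := by
  have hmonic : (Polynomial.X ^ n - Polynomial.C c : Polynomial ℚ).Monic :=
    Polynomial.monic_X_pow_sub_C _ hn.pos.ne'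
  have hroot : Polynomial.aeval θ (Polynomial.X ^ n - Polynomial.C c : Polynomial ℚ) = 0 := by
    simp [hθ]
  have hint : IsIntegral ℚ θ := ⟨_, hmonic, by rw [← Polynomial.aeval_def]; exact hroot⟩
  rw [IntermediateField.adjoin.finrank hint]
  have hpos := minpoly.natDegree_pos hint
  have h1 : (minpoly ℚ θ).natDegree ≠ 1 := by
    intro h
    obtain ⟨q, hq'⟩ := minpoly.natDegree_eq_one_iff.1 h
    exact hq q (by rw [← hq']; simp)
  have h2 : (minpoly ℚ θ).natDegree ≠ 2 := by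
    intro h
    have hm := minpoly.monic hint
    have h0 := minpoly.aeval ℚ θ
    have hdvd := minpoly.dvd ℚ θ hroot
    have hlc : (minpoly ℚ θ).coeff 2 = 1 := by
      have h3 := hm.leadingCoeff
      rwa [Polynomial.leadingCoeff, h] at h3
    have hev : ∀ t : ℝ, Polynomial.aeval t (minpoly ℚ θ) =
        ((minpoly ℚ θ).coeff 0 : ℝ) + ((minpoly ℚ θ).coeff 1 : ℝ) * t + t ^ 2 := by
      intro t
      rw [Polynomial.aeval_eq_sum_range, h, Finset.sum_range_succ, Finset.sum_range_succ,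
        Finset.sum_range_one, hlc]
      simp [Algebra.smul_def]
    obtain ⟨θ', hθ'⟩ : ∃ θ' : ℝ, θ' = -((minpoly ℚ θ).coeff 1 : ℝ) - θ := ⟨_, rfl⟩
    have h4 : Polynomial.aeval θ' (minpoly ℚ θ) = 0 := by
      rw [hev] at h0 ⊢
      rw [hθ']
      linear_combination h0
    have h5 : Polynomial.aeval θ' (Polynomial.X ^ n - Polynomial.C c : Polynomial ℚ) = 0 := by
      obtain ⟨w, hw⟩ := hdvd
      rw [hw, map_mul, h4, zero_mul]
    have h6 : θ' ^ n = θ ^ n := by
      rw [hθ]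
      have h7 : θ' ^ n - (c : ℝ) = 0 := by simpa using h5
      linarith
    have h7 : θ' = θ := hn.strictMono_pow.injective h6
    apply hq (-(minpoly ℚ θ).coeff 1 / 2)
    rw [hθ'] at h7
    push_cast
    linarith
  omega

/-- If the curve `F (x, a z ^ n) = 0` has only one place at infinity, its residue field contains an
irrational real `n`-th root of `γ a ^ k`. -/
theorem keyZ {n k δ g : ℕ} (hn : 2 ≤ n) (hk : 1 ≤ k) (hδ : 1 ≤ δ) (hg1 : 1 ≤ g)
    (hkn : Nat.Coprime k n)
    (a : ℤ) (ha : a ≠ 0) (α β : ℤ) (hα : α ≠ 0) (hβ : β ≠ 0) (F : MvPolynomial (Fin 2) ℤ)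
    (hF : ∀ s ∈ (F - lf α β k (n * δ) g).support, k * s 0 + (n * δ) * s 1 < g * (n * δ * k))
    (hirr : Irreducible (MvPolynomial.map (Int.castRingHom ℚ) (sub a n F)))
    (G : Polynomial ℚ) (hG : OnePlace (sub a n F) G) (η : ℝ) (hη : Polynomial.aeval η G = 0) :
    ∃ θ : ℝ, β * θ ^ n = α * (a : ℝ) ^ k ∧ θ ∈ ℚ⟮η⟯ ∧ ∀ q : ℚ, (q : ℝ) ≠ θ := by
  obtain ⟨hgm, hgi, L, fL, aL, frL, A, hA, ⟨e⟩⟩ := hG
  have hprime : (Ideal.span {MvPolynomial.map (Int.castRingHom ℚ) (sub a n F)}).IsPrime :=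
    (Ideal.span_singleton_prime hirr.ne_zero).2 hirr.prime
  have hdom : IsDomain (CoordRing (sub a n F)) := Ideal.Quotient.isDomain _
  obtain ⟨ι, hι⟩ : ∃ ι : CoordRing (sub a n F) →+* L, ι = algebraMap _ L := ⟨_, rfl⟩
  have hc0 : CharZero L := charZero_of_injective_ringHom
    (f := ι.comp (algebraMap ℚ (CoordRing (sub a n F)))) (RingHom.injective _)
  have hcast : ∀ q : ℚ, ι (algebraMap ℚ (CoordRing (sub a n F)) q) = (q : L) := fun q =>
    eq_ratCast (ι.comp (algebraMap ℚ (CoordRing (sub a n F)))) q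
  obtain ⟨x, hx⟩ : ∃ x : L, x = ι (Ideal.Quotient.mk _ (MvPolynomial.X 0)) := ⟨_, rfl⟩
  obtain ⟨z, hz⟩ : ∃ z : L, z = ι (Ideal.Quotient.mk _ (MvPolynomial.X 1)) := ⟨_, rfl⟩
  have hAI : AtInfinity (sub a n F) L A := (hA A).2 rfl
  have hQ : ∀ q : ℚ, (q : L) ∈ A := fun q => by
    rw [← hcast, hι]
    exact hAI.1 q
  -- the equation
  have hG0 : ι (Ideal.Quotient.mk _ (MvPolynomial.map (Int.castRingHom ℚ) (sub a n F))) = 0 := by
    rw [Ideal.Quotient.eq_zero_iff_mem.2 (Ideal.mem_span_singleton_self _), map_zero]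
  have hF0 : MvPolynomial.aeval ![x, (a : L) * z ^ n] F = 0 := by
    refine (aeval_sub a n F x z).symm.trans ?_
    rw [hx, hz]
    exact (hom_map (ι.comp (Ideal.Quotient.mk _)) (sub a n F)).symm.trans hG0
  obtain ⟨y, hy⟩ : ∃ y : L, y = (a : L) * z ^ n := ⟨_, rfl⟩
  rw [← hy] at hF0
  have hvI : ∀ c : ℤ, c ≠ 0 → A.valuation (c : L) = 1 := by
    intro c hc
    have h1 : ((c : ℚ) : L) = (c : L) := by simp
    rw [← h1]
    exact val_rat hQ (by exact_mod_cast hc)
  have hva : A.valuation (a : L) = 1 := hvI a ha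
  have hvα : A.valuation (α : L) = 1 := hvI α hα
  have hvβ : A.valuation (β : L) = 1 := hvI β hβ
  have hZ : ∀ c : ℤ, A.valuation (c : L) ≤ 1 := by
    intro c
    have : ((c : ℚ) : L) = (c : L) := by simp
    rw [← this]
    exact (A.valuation_le_one_iff _).2 (hQ _)
  have hvy : A.valuation y = A.valuation z ^ n := by rw [hy, map_mul, hva, one_mul, map_pow]
  have hN : 1 ≤ n * δ := Nat.mul_pos (by omega) hδ
  have hxy : 1 < A.valuation x ∨ 1 < A.valuation y := by
    obtain ⟨i, hi⟩ := hAI.2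
    rw [← hι] at hi
    fin_cases i
    · left
      rw [← not_le, A.valuation_le_one_iff, hx]
      exact hi
    · right
      rw [hvy]
      apply one_lt_pow₀ _ (by omega)
      rw [← not_le, A.valuation_le_one_iff, hz]
      exact hi
  obtain ⟨hvx1, hvy1, hvxy, hlead⟩ := leadZ A.valuation hN hk hZ α β hvα hvβ F hF x y hxy hF0
  have hx0 : x ≠ 0 := by rintro rfl; simp at hvx1
  have hy0 : y ≠ 0 := by rintro rfl; simp at hvy1
  have hz0 : z ≠ 0 := by
    rintro rfl
    rw [hvy, map_zero, zero_pow (by omega)] at hvy1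
    exact absurd hvy1 (not_lt.2 zero_le)
  have haL0 : (a : L) ≠ 0 := by exact_mod_cast ha
  have hαL0 : (α : L) ≠ 0 := by exact_mod_cast hα
  obtain ⟨h, hh⟩ : ∃ h : L, h = x ^ δ / z ^ k := ⟨_, rfl⟩
  have hvc : A.valuation ((α : L) * (a : L) ^ k) = 1 := by
    rw [map_mul, map_pow, hva, one_pow, hvα, one_mul]
  have hhn : β * h ^ n - α * (a : L) ^ k =
      (α * (a : L) ^ k) * (β * x ^ (n * δ) / (α * y ^ k) - 1) := by
    have e0 : h ^ n = x ^ (n * δ) / z ^ (n * k) := by
      rw [hh, div_pow, ← pow_mul, ← pow_mul, mul_comm δ n, mul_comm k n]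
    have e1 : y ^ k = (a : L) ^ k * z ^ (n * k) := by
      rw [hy, mul_pow, ← pow_mul]
    rw [e0, e1]
    have := pow_ne_zero k haL0
    have := pow_ne_zero (n * k) hz0
    field_simp
  have hvhn : A.valuation (β * h ^ n - α * (a : L) ^ k) < 1 := by
    rw [hhn, map_mul, hvc, one_mul]
    exact hlead
  have hvh : A.valuation h = 1 := by
    have h1 : A.valuation (β * h ^ n) = 1 := by
      have h2 : β * h ^ n = (β * h ^ n - α * (a : L) ^ k) + α * (a : L) ^ k := by ring
      rw [h2, Valuation.map_add_eq_of_lt_right _ (by rw [hvc]; exact hvhn), hvc]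
    rw [map_mul, hvβ, one_mul, map_pow] at h1
    exact pow_one (by omega) h1
  have hhA : h ∈ A := (A.valuation_le_one_iff _).1 hvh.le
  obtain ⟨hA1, hhA1⟩ : ∃ t : A, t = ⟨h, hhA⟩ := ⟨_, rfl⟩
  have hres : ((β : ℤ) : IsLocalRing.ResidueField A) * IsLocalRing.residue A hA1 ^ n =
      ((α : ℤ) : IsLocalRing.ResidueField A) * ((a : ℤ) : IsLocalRing.ResidueField A) ^ k := by
    have h1 : IsLocalRing.residue A ((β : A) * hA1 ^ n - (α : A) * (a : A) ^ k) = 0 := by
      rw [IsLocalRing.residue_eq_zero_iff, A.valuation_lt_one_iff, hhA1]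
      push_cast
      exact hvhn
    rw [map_sub, map_mul, map_pow, map_mul, map_pow, map_intCast, map_intCast, map_intCast,
      sub_eq_zero] at h1
    exact h1
  obtain ⟨φ, hφ⟩ : ∃ φ : AdjoinRoot G →+* ℝ, φ = AdjoinRoot.lift (algebraMap ℚ ℝ) η
      (by rw [← Polynomial.aeval_def]; exact hη) := ⟨_, rfl⟩
  obtain ⟨Φ, hΦ⟩ : ∃ Φ : IsLocalRing.ResidueField A →+* ℝ, Φ = φ.comp e.toRingHom := ⟨_, rfl⟩
  have hθn : β * Φ (IsLocalRing.residue A hA1) ^ n = α * (a : ℝ) ^ k := by
    have h1 := congrArg Φ hres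
    rw [map_mul, map_mul, map_pow, map_pow, map_intCast, map_intCast, map_intCast] at h1
    exact h1
  refine ⟨Φ (IsLocalRing.residue A hA1), hθn, ?_, ?_⟩
  · obtain ⟨p, hp⟩ := AdjoinRoot.mk_surjective (e (IsLocalRing.residue A hA1))
    have h1 : Φ (IsLocalRing.residue A hA1) = Polynomial.aeval η p := by
      rw [hΦ, RingHom.comp_apply]
      show φ (e (IsLocalRing.residue A hA1)) = _
      rw [← hp, hφ, AdjoinRoot.lift_mk, Polynomial.aeval_def]
    rw [h1]
    exact IntermediateField.algebra_adjoin_le_adjoin ℚ {η}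
      (Polynomial.aeval_mem_adjoin_singleton ℚ η)
  · intro q hq
    have hq0 : q ≠ 0 := by
      rintro rfl
      rw [← hq] at hθn
      simp only [Rat.cast_zero] at hθn
      rw [zero_pow (by omega), mul_zero] at hθn
      have : (α : ℝ) * (a : ℝ) ^ k ≠ 0 :=
        mul_ne_zero (by exact_mod_cast hα) (pow_ne_zero _ (by exact_mod_cast ha))
      exact this hθn.symm
    -- the residue is rational
    obtain ⟨cA, hcA⟩ : ∃ cA : ℚ →+* A, ∀ r, ((cA r : A) : L) = (r : L) :=
      ⟨{ toFun := fun r => ⟨(r : L), hQ r⟩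
         map_one' := Subtype.ext (by simp)
         map_mul' := fun r s => Subtype.ext (by simp)
         map_zero' := Subtype.ext (by simp)
         map_add' := fun r s => Subtype.ext (by simp) }, fun r => rfl⟩
    have hr1 : IsLocalRing.residue A hA1 = IsLocalRing.residue A (cA q) := by
      apply Φ.injective
      rw [← hq]
      exact (eq_ratCast ((Φ.comp (IsLocalRing.residue A)).comp cA) q).symm
    have hr2 : A.valuation (h - (q : L)) < 1 := by
      have h1 : IsLocalRing.residue A (hA1 - cA q) = 0 := by rw [map_sub, hr1, sub_self]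
      rw [IsLocalRing.residue_eq_zero_iff, A.valuation_lt_one_iff] at h1
      have h2 : ((hA1 - cA q : A) : L) = h - (q : L) := by
        rw [hhA1]
        push_cast
        rw [hcA]
      rw [h2] at h1
      exact h1
    -- integrality
    obtain ⟨M, hM, _, hMF⟩ := monicZ (n := n) (by omega) hk hg1 a ha α β hα F hF
    have hint : (jx (sub a n F)).IsIntegral := by
      apply isIntG _ M hM _ _ hMF
      exact pow_ne_zero _ (mul_ne_zero (by exact_mod_cast hα)
        (pow_ne_zero _ (by exact_mod_cast ha)))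
    obtain ⟨W, hQW, -, hWlt, hmv⟩ := movesG a F hint hdom A hA hQ x z (by rw [hx, hι])
      (by rw [hz, hι]) hvx1
    have hΩ0 : CharZero (AlgebraicClosure L) :=
      charZero_of_injective_algebraMap (algebraMap L (AlgebraicClosure L)).injective
    -- a primitive root of unity
    have hn0 : (n : AlgebraicClosure L) ≠ 0 := by exact_mod_cast (by omega : n ≠ 0)
    obtain ⟨ζ, hζ⟩ : ∃ ζ : AlgebraicClosure L, IsPrimitiveRoot ζ n := by
      have : NeZero (n : AlgebraicClosure L) := ⟨hn0⟩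
      obtain ⟨ζ, hζ⟩ := IsAlgClosed.exists_root (Polynomial.cyclotomic n (AlgebraicClosure L))
        (Polynomial.degree_cyclotomic_pos n _ (by omega)).ne'
      exact ⟨ζ, Polynomial.isRoot_cyclotomic_iff.1 hζ⟩
    obtain ⟨σ, hσx, hσz, hσlt⟩ := hmv ζ hζ.pow_eq_one
    -- the contradiction
    obtain ⟨h', hh'⟩ : ∃ h', h' = algebraMap L (AlgebraicClosure L) h := ⟨_, rfl⟩
    have hz'0 : algebraMap L (AlgebraicClosure L) z ≠ 0 := by rw [Ne, map_eq_zero]; exact hz0
    have hζ0 : ζ ≠ 0 := hζ.ne_zero (by omega)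
    have hσh : σ h = (ζ ^ k)⁻¹ * h' := by
      rw [hh', hh, map_div₀, map_div₀, map_pow, map_pow, map_pow, map_pow, hσx, hσz]
      field_simp
      rw [mul_pow, mul_assoc]
    have h1 : W.valuation (σ (h - (q : L))) < 1 := hσlt _ hr2
    have h2 : W.valuation (algebraMap L (AlgebraicClosure L) (h - (q : L))) < 1 := hWlt _ hr2
    rw [map_sub, map_ratCast, hσh] at h1
    rw [map_sub, map_ratCast, ← hh'] at h2
    have h3 : W.valuation (((ζ ^ k)⁻¹ - 1) * h') < 1 := by
      have e1 : ((ζ ^ k)⁻¹ - 1) * h' = ((ζ ^ k)⁻¹ * h' - (q : AlgebraicClosure L)) -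
        (h' - (q : AlgebraicClosure L)) := by ring
      rw [e1]
      exact Valuation.map_sub_lt _ h1 h2
    have h4 : W.valuation h' = 1 := by
      have e1 : h' = (h' - (q : AlgebraicClosure L)) + (q : AlgebraicClosure L) := by ring
      rw [e1, Valuation.map_add_eq_of_lt_right _ (by rw [val_rat hQW hq0]; exact h2),
        val_rat hQW hq0]
    rw [map_mul, h4, mul_one] at h3
    refine root_one hQW (n := n) (by omega) ((ζ ^ k)⁻¹) ?_ ?_ h3
    · rw [inv_pow, ← pow_mul, mul_comm, pow_mul, hζ.pow_eq_one, one_pow, inv_one]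
    · intro h5
      have h6 : ζ ^ k = 1 := by rw [← inv_inv (ζ ^ k), h5, inv_one]
      have h7 := (hζ.pow_eq_one_iff_dvd k).1 h6
      have h8 : n ∣ Nat.gcd k n := Nat.dvd_gcd h7 dvd_rfl
      rw [hkn] at h8
      have := Nat.le_of_dvd one_pos h8
      omega

end Pool.Agent.X95T
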