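import Pool.Agent.X95T.Z2

set_option autoImplicit false

open IntermediateField
open Pool.Agent.Results.MP_821da1_nt

namespace Pool.Agent.X95T

/-- the effective bound, general leading form -/
theorem effectiveZ (n k δ g r : ℕ) (hn : 3 ≤ n) (hodd : Odd n) (hk : 1 ≤ k) (hδ : 1 ≤ δ)
    (hg : 1 ≤ g) (hr : 1 ≤ r) (hkn : Nat.Coprime k n) :
    ∃ C : ℕ, ∀ (P g₀ : Polynomial ℤ) (A : ℕ) (μ : ℝ), P.Monic → P.natDegree = r →
      Irreducible g₀ → g₀ ∣ P → ¬ g₀ ^ 2 ∣ P →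
      (2 * ∑ i ∈ P.support, (P.coeff i).natAbs) ^ C ≤ A → 0 < μ →
      μ ^ r = ((P.eval (A : ℤ) : ℤ) : ℝ) →
      ∀ (α β e b : ℤ) (F : MvPolynomial (Fin 2) ℤ) (D U V : Polynomial ℤ), α ≠ 0 → β ≠ 0 →
      b * e ≠ 0 →
      (∀ s ∈ (F - lf α β k (n * δ) g).support, k * s 0 + (n * δ) * s 1 < g * (n * δ * k)) →
      MvPolynomial.aeval ![Polynomial.X, (0 : Polynomial ℤ)] F = Polynomial.C e * D ^ n →
      U * D + V * MvPolynomial.aeval ![Polynomial.X, (0 : Polynomial ℤ)]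
        (MvPolynomial.pderiv 1 F) = Polynomial.C b →
      (∀ a : ℤ, a ≠ 0 → (∀ p : ℕ, p.Prime → (p : ℤ) ∣ a → (p : ℤ) ∣ b * e) →
        Irreducible (MvPolynomial.map (Int.castRingHom ℚ) (sub a n F)) ∧
        ∀ θ : ℝ, β * θ ^ n = α * (a : ℝ) ^ k → θ ∈ ℚ⟮μ⟯) →
      ∀ x y : ℤ, MvPolynomial.eval ![x, y] F = 0 →
        max x.natAbs y.natAbs ≤ (A * (∏ q ∈ (b * e).natAbs.primeFactors, q) *
          ∑ s ∈ F.support, (F.coeff s).natAbs) ^ C := by
  obtain ⟨CE, hCE⟩ := ExplicitFamiliesAllCurves.result.2.1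
  obtain ⟨d, hd⟩ : ∃ d : ℕ, d = g * (n * δ) + n * (g * k) := ⟨_, rfl⟩
  obtain ⟨E, hE⟩ : ∃ E : ℕ, E = CE r d := ⟨_, rfl⟩
  obtain ⟨K, hK⟩ : ∃ K : ℕ, K = n * (g * k) := ⟨_, rfl⟩
  refine ⟨(K + 1) * E * n + n + (K + 1) * E + E + 1, ?_⟩
  intro P g₀ A μ hP hPd hg₀ hg₀P hg₀2 hA hμ0 hμ α β e b F D U V hα hβ hb hF h1 h2 H x y h0
  have hlenF : RepulsionAllCurves.len F = ∑ s ∈ F.support, (F.coeff s).natAbs := rfl
  rw [← hlenF]
  obtain ⟨R, hR⟩ : ∃ R : ℕ, R = ∏ q ∈ (b * e).natAbs.primeFactors, q := ⟨_, rfl⟩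
  have hR1 : 1 ≤ R := by
    rw [hR]
    exact Finset.prod_pos (fun q hq => (Nat.prime_of_mem_primeFactors hq).pos)
  -- the size of `A`
  have hlP : 1 ≤ 2 * ∑ i ∈ P.support, (P.coeff i).natAbs := by
    have h3 : P.natDegree ∈ P.support := by
      rw [Polynomial.mem_support_iff, Polynomial.coeff_natDegree, hP.leadingCoeff]
      exact one_ne_zero
    have h4 : (P.coeff P.natDegree).natAbs ≤ ∑ i ∈ P.support, (P.coeff i).natAbs :=
      Finset.single_le_sum (f := fun i => (P.coeff i).natAbs) (fun _ _ => Nat.zero_le _) h3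
    rw [Polynomial.coeff_natDegree, hP.leadingCoeff] at h4
    simp only [Int.natAbs_one] at h4
    omega
  have hA1 : 1 ≤ A := (Nat.one_le_pow _ _ hlP).trans hA
  have hAE : (2 * ∑ i ∈ P.support, (P.coeff i).natAbs) ^ CE r d ≤ A := by
    refine (Nat.pow_le_pow_right hlP ?_).trans hA
    rw [← hE]
    omega
  -- the decomposition of `y`
  obtain ⟨f, u, v, w, h3, h4⟩ := split' (n := n) F D U V e b h1 h2 x y h0
  obtain ⟨a, z, ha0, hap, haM, hyz⟩ : ∃ a z : ℤ, a ≠ 0 ∧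
      (∀ q : ℕ, q.Prime → (q : ℤ) ∣ a → (q : ℤ) ∣ b * e) ∧ a.natAbs ≤ R ^ n ∧
      y = a * z ^ n := by
    by_cases hy : y = 0
    · refine ⟨1, 0, one_ne_zero, ?_, Nat.one_le_pow _ _ hR1, ?_⟩
      · intro q hq hq1
        exfalso
        have h5 : q ∣ 1 := by exact_mod_cast hq1
        exact hq.one_lt.ne' (Nat.dvd_one.1 h5)
      · rw [hy, zero_pow (by omega), mul_zero]
    · rw [hR]
      apply free_part_b (by omega) (b * e) hb y hy
      intro q hq hqb
      exact val_dvd' y f e _ u v w b h3 h4 hy q hq (fun h => hqb (h.mul_right e))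
        (fun h => hqb (h.mul_left b))
  obtain ⟨hirr, hθmem⟩ := H a ha0 hap
  have hN : 1 ≤ n * δ := Nat.mul_pos (by omega) hδ
  have hsupp := suppZ hN hk α β F hF
  have hF0 : F ≠ 0 := by
    rintro rfl
    rw [map_zero, map_zero] at hirr
    exact hirr.ne_zero rfl
  have hlen1 : 1 ≤ RepulsionAllCurves.len F := Pool.Agent.Y910.G.len_pos hF0
  have hlen : RepulsionAllCurves.len (sub a n F) ≤ (R ^ n) ^ (g * k) * RepulsionAllCurves.len F :=
    (len_sub a ha0 n (g * k) F (fun s hs => (hsupp s hs).2)).trans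
      (Nat.mul_le_mul_right _ (Nat.pow_le_pow_left haM _))
  have hdeg := deg_sub a n (g * k) (g * (n * δ)) F hsupp
  rw [← hd] at hdeg
  have hev : MvPolynomial.eval ![x, z] (sub a n F) = 0 := by
    have h5 := aeval_sub a n F x z
    rw [MvPolynomial.aeval_eq_eval, MvPolynomial.aeval_eq_eval] at h5
    rw [h5]
    simp only [Int.cast_id]
    rw [← hyz]
    exact h0
  have hμi : IsIntegral ℚ μ := by
    refine ⟨Polynomial.X ^ r - Polynomial.C ((P.eval (A : ℤ) : ℤ) : ℚ),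
      Polynomial.monic_X_pow_sub_C _ (by omega), ?_⟩
    rw [← Polynomial.aeval_def]
    simp [hμ]
  have hfd : FiniteDimensional ℚ ℚ⟮μ⟯ := IntermediateField.adjoin.finiteDimensional hμi
  rw [← hR]
  obtain ⟨B, hB⟩ : ∃ B : ℕ, B = A * R * RepulsionAllCurves.len F := ⟨_, rfl⟩
  have hB1 : 1 ≤ B := by
    rw [hB]
    exact Nat.mul_pos (Nat.mul_pos hA1 hR1) hlen1
  have hRB : R ≤ B := by
    rw [hB]
    calc R = 1 * R * 1 := by ring
      _ ≤ A * R * RepulsionAllCurves.len F :=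
        Nat.mul_le_mul (Nat.mul_le_mul_right _ hA1) hlen1
  have hmain : max x.natAbs z.natAbs ≤ (B ^ (K + 1)) ^ E := by
    rcases hCE r d P g₀ A μ hr hP hPd hg₀ hg₀P hg₀2 hAE hμ0 hμ (sub a n F) x z hdeg hirr hev
      with h | ⟨G, hG, η, hη, h5⟩
    · rw [← hE] at h
      refine h.trans (Nat.pow_le_pow_left ?_ _)
      calc A * ExplicitFamiliesAllCurves.len (sub a n F)
          ≤ A * ((R ^ n) ^ (g * k) * RepulsionAllCurves.len F) := Nat.mul_le_mul_left _ hlen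
        _ = R ^ K * (A * RepulsionAllCurves.len F) := by rw [← pow_mul, hK]; ring
        _ ≤ B ^ K * B := by
            apply Nat.mul_le_mul
            · exact Nat.pow_le_pow_left hRB _
            · rw [hB]
              calc A * RepulsionAllCurves.len F = A * 1 * RepulsionAllCurves.len F := by ring
                _ ≤ A * R * RepulsionAllCurves.len F :=
                  Nat.mul_le_mul_right _ (Nat.mul_le_mul_left _ hR1)
        _ = B ^ (K + 1) := (pow_succ _ _).symm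
    · exfalso
      obtain ⟨θ, hθ, hθη, hθq⟩ := keyZ (by omega) hk hδ hg hkn a ha0 α β hα hβ F hF
        hirr G hG η hη
      have hβR : (β : ℝ) ≠ 0 := by exact_mod_cast hβ
      have h6 := deg_oddQ hodd ((α * a ^ k : ℚ) / β) θ (by
        push_cast
        rw [eq_div_iff hβR, mul_comm, hθ]) hθq
      have h7 := three_le hθη (hθmem θ hθ) h6
      omega
  rw [← hB]
  have hz : z.natAbs ≤ B ^ ((K + 1) * E) := by
    rw [pow_mul]
    exact (le_max_right _ _).trans hmain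
  have hx : x.natAbs ≤ B ^ ((K + 1) * E) := by
    rw [pow_mul]
    exact (le_max_left _ _).trans hmain
  apply max_le
  · exact hx.trans (Nat.pow_le_pow_right hB1 (by omega))
  · have h9 : y.natAbs = a.natAbs * z.natAbs ^ n := by
      rw [hyz, Int.natAbs_mul, Int.natAbs_pow]
    rw [h9]
    calc a.natAbs * z.natAbs ^ n ≤ B ^ n * (B ^ ((K + 1) * E)) ^ n :=
          Nat.mul_le_mul (haM.trans (Nat.pow_le_pow_left hRB _)) (Nat.pow_le_pow_left hz _)
      _ = B ^ (n + (K + 1) * E * n) := by rw [← pow_mul, ← pow_add]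
      _ ≤ _ := Nat.pow_le_pow_right hB1 (by omega)

/-- the uniform bound, general leading form -/
theorem uniformZ (n k δ g : ℕ) (hn : 3 ≤ n) (hodd : Odd n) (hk : 1 ≤ k) (hδ : 1 ≤ δ)
    (hg : 1 ≤ g) (hkn : Nat.Coprime k n) :
    ∃ C : ℕ, ∀ S : Finset ℕ, ∃ c : ℕ, ∀ (α β e b : ℤ) (F : MvPolynomial (Fin 2) ℤ)
      (D U V : Polynomial ℤ), α * β * (b * e) ≠ 0 →
      (∀ q : ℕ, q.Prime → (q : ℤ) ∣ α * β * (b * e) → q ∈ S) →
      (∀ s ∈ (F - lf α β k (n * δ) g).support, k * s 0 + (n * δ) * s 1 < g * (n * δ * k)) →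
      MvPolynomial.aeval ![Polynomial.X, (0 : Polynomial ℤ)] F = Polynomial.C e * D ^ n →
      U * D + V * MvPolynomial.aeval ![Polynomial.X, (0 : Polynomial ℤ)]
        (MvPolynomial.pderiv 1 F) = Polynomial.C b →
      (∀ a : ℤ, a ≠ 0 → Irreducible (MvPolynomial.map (Int.castRingHom ℚ) (sub a n F))) →
      ∀ x y : ℤ, MvPolynomial.eval ![x, y] F = 0 →
        max x.natAbs y.natAbs ≤ (c * ∑ s ∈ F.support, (F.coeff s).natAbs) ^ C := by
  obtain ⟨C₀, c₀, hR⟩ := RepulsionAllCurves.result.2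
  obtain ⟨d, hd⟩ : ∃ d : ℕ, d = g * (n * δ) + n * (g * k) := ⟨_, rfl⟩
  obtain ⟨A, hA⟩ : ∃ A : ℕ, A = C₀ d := ⟨_, rfl⟩
  -- the constant of a field
  have hca : ∀ a : ℤ, ∃ t : ℕ, ∀ θ : ℝ, θ ^ n = (a : ℝ) → c₀ d ℚ⟮θ⟯ ≤ t := by
    intro a
    by_cases h : ∃ θ₀ : ℝ, θ₀ ^ n = (a : ℝ)
    · obtain ⟨θ₀, hθ₀⟩ := h
      refine ⟨c₀ d ℚ⟮θ₀⟯, fun θ hθ => ?_⟩
      have : θ = θ₀ := hodd.strictMono_pow.injective (hθ.trans hθ₀.symm)
      rw [this]
    · exact ⟨0, fun θ hθ => absurd ⟨θ, hθ⟩ h⟩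
  choose t ht using hca
  refine ⟨A * n + A + 1, ?_⟩
  intro S
  obtain ⟨M, hM⟩ : ∃ M : ℕ, M = ∏ q ∈ S, (q + 1) ^ n := ⟨_, rfl⟩
  have hM1 : 1 ≤ M := by
    rw [hM]
    exact Nat.succ_le_of_lt (Finset.prod_pos (fun q _ => pow_pos (Nat.succ_pos q) n))
  obtain ⟨T, hT⟩ : ∃ T : ℕ, T = A + ∑ a ∈ Finset.Icc (-(M : ℤ)) M, t a := ⟨_, rfl⟩
  have hT1 : ∀ a : ℤ, a.natAbs ≤ M → t a ≤ T := by
    intro a ha
    rw [hT]
    refine le_trans ?_ (Nat.le_add_left _ _)
    apply Finset.single_le_sum (f := t) (fun _ _ => Nat.zero_le _)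
    rw [Finset.mem_Icc]
    omega
  refine ⟨M * ((T + 1) * M ^ (g * k)), ?_⟩
  intro α β e b F D U V hne hS hF h1 h2 hi x y h0
  have hαβ : α * β ≠ 0 := left_ne_zero_of_mul hne
  have hbe : b * e ≠ 0 := right_ne_zero_of_mul hne
  have hα : α ≠ 0 := left_ne_zero_of_mul hαβ
  have hβ : β ≠ 0 := right_ne_zero_of_mul hαβ
  have hlenF : RepulsionAllCurves.len F = ∑ m ∈ F.support, (F.coeff m).natAbs := rfl
  rw [← hlenF]
  obtain ⟨f, u, v, w, h3, h4⟩ := split' (n := n) F D U V e b h1 h2 x y h0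
  have hprimes : (b * e).natAbs.primeFactors ⊆ S := by
    intro q hq
    exact hS q (Nat.prime_of_mem_primeFactors hq)
      ((Int.natCast_dvd.2 (Nat.dvd_of_mem_primeFactors hq)).mul_left _)
  obtain ⟨a, z, ha0, haS, haM, hyz⟩ : ∃ a z : ℤ, a ≠ 0 ∧
      (∀ q : ℕ, q.Prime → (q : ℤ) ∣ a → q ∈ S) ∧ a.natAbs ≤ M ∧ y = a * z ^ n := by
    by_cases hy : y = 0
    · refine ⟨1, 0, one_ne_zero, ?_, hM1, ?_⟩
      · intro q hq hq1
        exfalso
        have h5 : q ∣ 1 := by exact_mod_cast hq1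
        exact hq.one_lt.ne' (Nat.dvd_one.1 h5)
      · rw [hy, zero_pow (by omega), mul_zero]
    · obtain ⟨a, z, ha0, hap, haM, hyz⟩ := free_part_b (n := n) (by omega) (b * e) hbe y hy
        (fun q hq hqb => val_dvd' y f e _ u v w b h3 h4 hy q hq (fun h => hqb (h.mul_right e))
          (fun h => hqb (h.mul_left b)))
      refine ⟨a, z, ha0, fun q hq hqa => hS q hq ((hap q hq hqa).mul_left _), haM.trans ?_, hyz⟩
      rw [hM, ← Finset.prod_pow]
      calc ∏ q ∈ (b * e).natAbs.primeFactors, q ^ n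
          ≤ ∏ q ∈ (b * e).natAbs.primeFactors, (q + 1) ^ n :=
            Finset.prod_le_prod' (fun q _ => Nat.pow_le_pow_left (Nat.le_succ q) _)
        _ ≤ ∏ q ∈ S, (q + 1) ^ n :=
            Finset.prod_le_prod_of_subset_of_one_le' hprimes
              (fun q _ _ => Nat.one_le_pow _ _ (Nat.succ_pos q))
  have hirr : Irreducible (MvPolynomial.map (Int.castRingHom ℚ) (sub a n F)) := hi a ha0
  have hN : 1 ≤ n * δ := Nat.mul_pos (by omega) hδ
  have hsupp := suppZ hN hk α β F hF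
  have hF0 : F ≠ 0 := by
    rintro rfl
    rw [map_zero, map_zero] at hirr
    exact hirr.ne_zero rfl
  have hlen1 : 1 ≤ RepulsionAllCurves.len F := Pool.Agent.Y910.G.len_pos hF0
  have hlen : RepulsionAllCurves.len (sub a n F) ≤ M ^ (g * k) * RepulsionAllCurves.len F :=
    (len_sub a ha0 n (g * k) F (fun s hs => (hsupp s hs).2)).trans
      (Nat.mul_le_mul_right _ (Nat.pow_le_pow_left haM _))
  have hdeg := deg_sub a n (g * k) (g * (n * δ)) F hsupp
  rw [← hd] at hdeg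
  have hev : MvPolynomial.eval ![x, z] (sub a n F) = 0 := by
    have h5 := aeval_sub a n F x z
    rw [MvPolynomial.aeval_eq_eval, MvPolynomial.aeval_eq_eval] at h5
    rw [h5]
    simp only [Int.cast_id]
    rw [← hyz]
    exact h0
  have hmain : max x.natAbs z.natAbs ≤
      ((T + 1) * RepulsionAllCurves.len (sub a n F)) ^ A := by
    rcases hR d _ x z hdeg hirr hev with h | ⟨G, hG, η, hη, hk3⟩
    · rw [← hA] at h
      refine h.trans (Nat.pow_le_pow_left (Nat.mul_le_mul_right _ ?_) _)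
      rw [hT]
      omega
    · obtain ⟨θ, hθ, hθη, hθq⟩ := keyZ (by omega) hk hδ hg hkn a ha0 α β hα hβ F hF hirr G hG η hη
      have hβR : (β : ℝ) ≠ 0 := by exact_mod_cast hβ
      -- the field is one of finitely many
      obtain ⟨c₁, hc₁⟩ : ∃ c₁ : ℤ, c₁ = β ^ (n - 1) * (α * a ^ k) := ⟨_, rfl⟩
      have hc₁0 : c₁ ≠ 0 := by
        rw [hc₁]
        exact mul_ne_zero (pow_ne_zero _ hβ) (mul_ne_zero hα (pow_ne_zero _ ha0))
      obtain ⟨c₂, w, hc₂0, hc₂M, hc₂w⟩ := free_part' (p := n) (by omega) S c₁ hc₁0 (by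
        intro q hq hqS
        have h5 : ¬ q ∣ c₁.natAbs := by
          intro h6
          apply hqS
          have h7 : (q : ℤ) ∣ β ^ (n - 1) * (α * a ^ k) := by
            rw [← hc₁]
            exact Int.natCast_dvd.2 h6
          have hqZ : Prime (q : ℤ) := Nat.prime_iff_prime_int.1 hq
          rcases hqZ.dvd_or_dvd h7 with h8 | h8
          · exact hS q hq (((hqZ.dvd_of_dvd_pow h8).mul_left α).mul_right _)
          · rcases hqZ.dvd_or_dvd h8 with h9 | h9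
            · exact hS q hq ((h9.mul_right β).mul_right _)
            · exact haS q hq (hqZ.dvd_of_dvd_pow h9)
        rw [Nat.factorization_eq_zero_of_not_dvd h5]
        exact dvd_zero _)
      rw [← hM] at hc₂M
      have hw0 : w ≠ 0 := by
        rintro rfl
        rw [zero_pow (by omega), mul_zero] at hc₂w
        exact hc₁0 hc₂w
      have hwR : (w : ℝ) ≠ 0 := by exact_mod_cast hw0
      obtain ⟨θ', hθ'⟩ : ∃ θ' : ℝ, θ' = β * θ / w := ⟨_, rfl⟩
      have hθ'n : θ' ^ n = (c₂ : ℝ) := by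
        have h5 : (β : ℝ) ^ n = β ^ (n - 1) * β := by
          rw [← pow_succ]
          congr 1
          omega
        have h6 : (β : ℝ) ^ n * θ ^ n = c₂ * (w : ℝ) ^ n := by
          calc (β : ℝ) ^ n * θ ^ n = β ^ (n - 1) * (β * θ ^ n) := by rw [h5]; ring
            _ = ((β ^ (n - 1) * (α * a ^ k) : ℤ) : ℝ) := by rw [hθ]; push_cast; ring
            _ = c₂ * (w : ℝ) ^ n := by rw [← hc₁, hc₂w]; push_cast; ring
        rw [hθ', div_pow, mul_pow, h6, mul_div_assoc, div_self (pow_ne_zero _ hwR), mul_one]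
      have hθ'q : ∀ q : ℚ, (q : ℝ) ≠ θ' := by
        intro q hq
        apply hθq (q * w / β)
        rw [hθ', eq_div_iff hwR] at hq
        push_cast
        rw [hq]
        field_simp
      have hθ'η : θ' ∈ ℚ⟮η⟯ := by
        rw [hθ']
        exact div_mem (mul_mem (intCast_mem _ β) hθη) (intCast_mem _ w)
      have h5 := hk3 ℚ⟮θ'⟯ (by rw [adjoin_simple_le_iff]; exact hθ'η)
        (deg_oddQ hodd (c₂ : ℚ) θ' (by rw [hθ'n]; simp) hθ'q)
      rw [← hA] at h5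
      refine h5.trans (Nat.pow_le_pow_left (Nat.mul_le_mul_right _ ?_) _)
      exact (ht c₂ θ' hθ'n).trans ((hT1 c₂ hc₂M).trans (Nat.le_succ _))
  obtain ⟨B, hB⟩ : ∃ B : ℕ, B = (T + 1) * M ^ (g * k) * RepulsionAllCurves.len F := ⟨_, rfl⟩
  have hB1 : 1 ≤ B := by
    rw [hB]
    exact Nat.mul_pos (Nat.mul_pos (Nat.succ_pos _) (pow_pos hM1 _)) hlen1
  have h5 : max x.natAbs z.natAbs ≤ B ^ A := by
    refine hmain.trans (Nat.pow_le_pow_left ?_ _)
    rw [hB, mul_assoc]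
    exact Nat.mul_le_mul_left _ hlen
  have h6 : M * ((T + 1) * M ^ (g * k)) * RepulsionAllCurves.len F = M * B := by
    rw [hB, mul_assoc]
  rw [h6]
  have h7 : 1 ≤ M * B := Nat.mul_pos hM1 hB1
  have h8 : B ≤ M * B := Nat.le_mul_of_pos_left _ hM1
  apply max_le
  · calc x.natAbs ≤ B ^ A := (le_max_left _ _).trans h5
      _ ≤ (M * B) ^ A := Nat.pow_le_pow_left h8 _
      _ ≤ _ := Nat.pow_le_pow_right h7 (by omega)
  · have h9 : y.natAbs = a.natAbs * z.natAbs ^ n := by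
      rw [hyz, Int.natAbs_mul, Int.natAbs_pow]
    rw [h9]
    calc a.natAbs * z.natAbs ^ n ≤ M * (B ^ A) ^ n :=
          Nat.mul_le_mul haM (Nat.pow_le_pow_left ((le_max_right _ _).trans h5) _)
      _ ≤ M * (M * B) ^ (A * n) := by
          rw [← pow_mul]
          exact Nat.mul_le_mul_left _ (Nat.pow_le_pow_left h8 _)
      _ ≤ (M * B) * (M * B) ^ (A * n) := Nat.mul_le_mul_right _ (Nat.le_mul_of_pos_right _ hB1)
      _ = (M * B) ^ (A * n + 1) := by rw [pow_succ]; ring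
      _ ≤ _ := Nat.pow_le_pow_right h7 (by omega)

end Pool.Agent.X95T
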